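import Mathlib

set_option autoImplicit false

namespace Pool.Agent.Helper613.DH

/-- An abstract criterion for Gromov's four point condition. -/
theorem four_point_of {X : Type} (d : X → X → ℕ) (Λ : X → X → ℝ) (C : ℝ)
    (d_self : ∀ x, d x x = 0) (d_symm : ∀ x y, d x y = d y x)
    (d_tri : ∀ x y z, d x z ≤ d x y + d y z)
    (path : ∀ x z, ∃ q : ℕ → X, q 0 = x ∧ q (d x z) = z ∧
      (∀ k ≤ d x z, d x (q k) + d (q k) z = d x z) ∧
      ∀ k < d x z, d (q k) (q (k + 1)) ≤ 1)
    (hC : 0 ≤ C) (Λ_self : ∀ x, Λ x x = 0) (Λ_nonneg : ∀ x y, 0 ≤ Λ x y)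
    (Λ_symm : ∀ x y, Λ x y = Λ y x)
    (H1 : ∀ x y z, Λ x z ≤ Λ x y + Λ y z + C)
    (H2 : ∀ x y z w, Λ x y + Λ z w ≤ max (Λ x z + Λ y w) (Λ x w + Λ y z) + C)
    (H3 : ∀ x y z, d x y + d y z = d x z → Λ x y + Λ y z ≤ Λ x z + C)
    (H4 : ∀ R : ℝ, ∃ D : ℕ, ∀ x y, Λ x y ≤ R → d x y ≤ D)
    (H5 : ∀ x y, d x y ≤ 1 → Λ x y ≤ C) :
    ∃ δ : ℕ, ∀ x y z w : X, d x y + d z w ≤ max (d x z + d y w) (d x w + d y z) + δ := by
  classical
  -- points that are almost aligned are close to geodesics
  obtain ⟨D, hD⟩ := H4 (2 * C + 4 * C)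
  have near : ∀ x z p, Λ x p + Λ p z ≤ Λ x z + 2 * C →
      ∃ q, d x q + d q z = d x z ∧ d p q ≤ D := by
    intro x z p hp
    obtain ⟨q, hq0, hqn, hq, hstep⟩ := path x z
    by_cases hex : ∃ k, k ≤ d x z ∧ Λ x p ≤ Λ x (q k)
    · set k := Nat.find hex with hk
      obtain ⟨hk1, hk2⟩ := Nat.find_spec hex
      rw [← hk] at hk1 hk2
      refine ⟨q k, hq k hk1, hD _ _ ?_⟩
      have h3 := H3 x (q k) z (hq k hk1)
      have hle : Λ x (q k) ≤ Λ x p + 2 * C := by
        rcases Nat.eq_zero_or_pos k with h0 | hpos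
        · rw [h0, hq0, Λ_self]
          have := Λ_nonneg x p
          linarith
        · have hlt : k - 1 < k := by omega
          have hmin := Nat.find_min hex (show k - 1 < Nat.find hex by rw [← hk]; exact hlt)
          push Not at hmin
          have h4 := hmin (by omega)
          have h5 := H1 x (q (k - 1)) (q k)
          have h6 := hstep (k - 1) (by omega)
          rw [show k - 1 + 1 = k by omega] at h6
          have h7 := H5 _ _ h6
          linarith
      have h8 := H2 p (q k) x z
      rw [Λ_symm p x, Λ_symm (q k) x] at h8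
      have h9 : max (Λ x p + Λ (q k) z) (Λ p z + Λ x (q k)) ≤ Λ x z + 4 * C := by
        apply max_le <;> linarith
      linarith
    · push Not at hex
      have h1 := hex (d x z) le_rfl
      rw [hqn] at h1
      refine ⟨z, by rw [d_self, add_zero], hD _ _ ?_⟩
      linarith
  have slim : ∀ x y z p, d x p + d p y = d x y →
      (∃ q, d x q + d q z = d x z ∧ d p q ≤ D) ∨ (∃ q, d y q + d q z = d y z ∧ d p q ≤ D) := by
    intro x y z p hp
    have h3 := H3 x p y hp
    have h2 := H2 x y z p
    rcases le_total (Λ x z + Λ y p) (Λ x p + Λ y z) with h | h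
    · rw [max_eq_right h] at h2
      right
      apply near
      rw [Λ_symm y p, Λ_symm p z]
      linarith
    · rw [max_eq_left h] at h2
      left
      apply near
      rw [Λ_symm y p] at h2
      rw [Λ_symm p z]
      linarith
  have center : ∀ w x y, ∃ p, d x p + d p y = d x y ∧
      2 * d w p + d x y ≤ d w x + d w y + (4 * D + 2) := by
    intro w x y
    obtain ⟨q, hq0, hqn, hq, hstep⟩ := path x y
    set P : ℕ → Prop := fun k => ∃ s, d x s + d s w = d x w ∧ d (q k) s ≤ D with hP
    have hP0 : P 0 := ⟨x, by rw [d_self, zero_add], by rw [hq0, d_self]; omega⟩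
    set k := Nat.findGreatest P (d x y) with hk
    have hPk : P k := Nat.findGreatest_spec (P := P) (Nat.zero_le _) hP0
    have hkn : k ≤ d x y := Nat.findGreatest_le _
    obtain ⟨s, hs1, hs2⟩ := hPk
    have hr : ∃ r, d y r + d r w = d y w ∧ d (q k) r ≤ D + 1 := by
      rcases Nat.eq_or_lt_of_le hkn with h | h
      · exact ⟨y, by rw [d_self, zero_add], by rw [h, hqn, d_self]; omega⟩
      · have h1 : ¬ P (k + 1) := Nat.findGreatest_is_greatest (P := P)
          (show Nat.findGreatest P (d x y) < k + 1 by rw [← hk]; omega) (by omega)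
        rcases slim x y w (q (k + 1)) (hq (k + 1) (by omega)) with ⟨r, hr1, hr2⟩ | ⟨r, hr1, hr2⟩
        · exact absurd ⟨r, hr1, hr2⟩ h1
        · refine ⟨r, hr1, ?_⟩
          have := d_tri (q k) (q (k + 1)) r
          have := hstep k h
          omega
    obtain ⟨r, hr1, hr2⟩ := hr
    refine ⟨q k, hq k hkn, ?_⟩
    have e1 := d_tri w s (q k)
    have e2 := d_tri x s (q k)
    have e3 := d_tri w r (q k)
    have e4 := d_tri y r (q k)
    have e5 := hq k hkn
    have s1 := d_symm s (q k)
    have s2 := d_symm r (q k)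
    have s3 := d_symm w s
    have s4 := d_symm w r
    have s5 := d_symm w x
    have s6 := d_symm w y
    have s7 := d_symm y (q k)
    omega
  refine ⟨6 * D + 2, ?_⟩
  intro x y z w
  obtain ⟨p, hp1, hp2⟩ := center w x y
  rcases slim x y z p hp1 with ⟨q, hq1, hq2⟩ | ⟨q, hq1, hq2⟩
  · have e1 := d_tri w q x
    have e2 := d_tri w q z
    have e3 := d_tri w p q
    have s1 := d_symm w x
    have s2 := d_symm q x
    have s3 := d_symm w y
    have s4 := d_symm w z
    have : d x y + d z w ≤ (d x z + d y w) + (6 * D + 2) := by omega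
    exact this.trans (Nat.add_le_add_right (le_max_left _ _) _)
  · have e1 := d_tri w q y
    have e2 := d_tri w q z
    have e3 := d_tri w p q
    have s1 := d_symm w x
    have s2 := d_symm q y
    have s3 := d_symm w y
    have s4 := d_symm w z
    have : d x y + d z w ≤ (d x w + d y z) + (6 * D + 2) := by omega
    exact this.trans (Nat.add_le_add_right (le_max_right _ _) _)

end Pool.Agent.Helper613.DH
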