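import Pool.Agent.Helper613.DHSep

set_option autoImplicit false

namespace Pool.Agent.Helper613.DH

open Module Filter Topology Matrix

/-- the polar cone of the orbit -/
def Pol : Set (Fin (26 + 1) → ℝ) := {v | ∀ w : W, mink (act w o) v ≤ 0}

lemma Pol_act {v : Fin (26 + 1) → ℝ} (hv : v ∈ Pol) (u : W) : act u v ∈ Pol := by
  intro w
  have h := hv (u⁻¹ * w)
  rw [act_mul, mink_act_left, inv_inv] at h
  exact h

/-- compact slice of the convex hull of the orbit -/
def Slice : Set (Fin (26 + 1) → ℝ) :=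
  {x | x ∈ Ball 26 ∧ (∀ i c, mink x (A i c) ≤ 0) ∧ ∀ v ∈ Pol, mink x v ≤ 0}

lemma isClosed_Slice : IsClosed Slice := by
  have h1 : IsClosed {x : Fin (26 + 1) → ℝ | ∀ i c, mink x (A i c) ≤ 0} := by
    simp only [Set.setOf_forall]
    exact isClosed_iInter fun i => isClosed_iInter fun c =>
      isClosed_le (continuous_mink_left _) continuous_const
  have h2 : IsClosed {x : Fin (26 + 1) → ℝ | ∀ v ∈ Pol, mink x v ≤ 0} := by
    simp only [Set.setOf_forall]
    exact isClosed_iInter fun v => isClosed_iInter fun _ =>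
      isClosed_le (continuous_mink_left _) continuous_const
  exact isClosed_Ball.inter (h1.inter h2)

lemma isCompact_Slice : IsCompact Slice :=
  isCompact_Ball.of_isClosed_subset isClosed_Slice (fun _ hx => hx.1)

lemma slice_timelike {x : Fin (26 + 1) → ℝ} (hx : x ∈ Slice) : mink x x < 0 := by
  obtain ⟨hb, hK, hP⟩ := hx
  refine lt_of_le_of_ne hb.2 ?_
  intro h0
  obtain ⟨ε, hε, hle⟩ := sep (fwd_of_ball hb) h0 hK
  have h1 : x - ε • eT 26 ∈ Pol := by
    intro w
    rw [mink_sub_right, mink_smul_right, mink_eT]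
    have := hle w
    linarith
  have h2 := hP _ h1
  rw [mink_sub_right, mink_smul_right, mink_eT, h0, hb.1] at h2
  linarith

lemma nrm_o_mem : nrm o ∈ Slice := by
  refine ⟨nrm_mem fwd_o, ?_, ?_⟩
  · intro i c
    rw [mink_nrm_left, mink_oA, o_last]; norm_num
  · intro v hv
    have h := hv 1
    rw [act_one] at h
    rw [mink_nrm_left, o_last]
    exact mul_nonpos_of_nonneg_of_nonpos (by norm_num) h

lemma slice_delta : ∃ δ : ℝ, 0 < δ ∧ ∀ x ∈ Slice, mink x x ≤ - δ := by
  obtain ⟨x0, hx0, hmax⟩ := isCompact_Slice.exists_isMaxOn ⟨nrm o, nrm_o_mem⟩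
    (continuous_mink_self (d := 26)).continuousOn
  refine ⟨- mink x0 x0, by have := slice_timelike hx0; linarith, ?_⟩
  intro x hx
  have h : mink x x ≤ mink x0 x0 := hmax hx
  linarith

/-- the convex set on which `W` acts cocompactly -/
def Core : Set (Fin (26 + 1) → ℝ) := {x | x ∈ Hyp 26 ∧ ∀ v ∈ Pol, mink x v ≤ 0}

/-- the compact fundamental set -/
def CoreK : Set (Fin (26 + 1) → ℝ) := {x | x ∈ Core ∧ ∀ i c, mink x (A i c) ≤ 0}

lemma isClosed_Hyp (d : ℕ) : IsClosed (Hyp d) := by
  have : Hyp d = {x | mink x x = -1} ∩ {x | 0 ≤ x (Fin.last d)} := by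
    ext x
    constructor
    · rintro ⟨h1, h2⟩; exact ⟨h1, h2.le⟩
    · rintro ⟨h1, h2⟩
      refine ⟨h1, lt_of_le_of_ne h2 ?_⟩
      intro h
      have := eq_zero_of_causal (x := x) (by rw [show mink x x = -1 from h1]; norm_num) h.symm
      have h1 : mink x x = -1 := h1
      rw [this, mink_zero_left] at h1
      norm_num at h1
  rw [this]
  exact (isClosed_eq continuous_mink_self continuous_const).inter
    (isClosed_le continuous_const (continuous_apply _))

lemma isClosed_CoreK : IsClosed CoreK := by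
  have h1 : IsClosed {x : Fin (26 + 1) → ℝ | ∀ i c, mink x (A i c) ≤ 0} := by
    simp only [Set.setOf_forall]
    exact isClosed_iInter fun i => isClosed_iInter fun c =>
      isClosed_le (continuous_mink_left _) continuous_const
  have h2 : IsClosed {x : Fin (26 + 1) → ℝ | ∀ v ∈ Pol, mink x v ≤ 0} := by
    simp only [Set.setOf_forall]
    exact isClosed_iInter fun v => isClosed_iInter fun _ =>
      isClosed_le (continuous_mink_left _) continuous_const
  exact ((isClosed_Hyp 26).inter h2).inter h1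

lemma isCompact_CoreK : IsCompact CoreK := by
  obtain ⟨δ, hδ, hle⟩ := slice_delta
  apply Metric.isCompact_of_isClosed_isBounded isClosed_CoreK
  apply (Metric.isBounded_closedBall (x := (0 : Fin (26 + 1) → ℝ)) (r := 1 / δ + 1)).subset
  rintro x ⟨⟨hH, hP⟩, hK⟩
  have hf := fwd_of_hyp hH
  have hl := hf.2
  have hs : nrm x ∈ Slice := by
    refine ⟨nrm_mem hf, ?_, ?_⟩
    · intro i c
      rw [mink_nrm_left]
      exact mul_nonpos_of_nonneg_of_nonpos (by positivity) (hK i c)
    · intro v hv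
      rw [mink_nrm_left]
      exact mul_nonpos_of_nonneg_of_nonpos (by positivity) (hP v hv)
  have h1 := hle _ hs
  rw [nrm, mink_smul_left, mink_smul_right, hH.1] at h1
  have h2 : δ * x (Fin.last 26) ^ 2 ≤ 1 := by
    have h3 : δ ≤ (x (Fin.last 26))⁻¹ * (x (Fin.last 26))⁻¹ := by linarith
    have h4 := mul_le_mul_of_nonneg_right h3 (sq_nonneg (x (Fin.last 26)))
    have h5 : (x (Fin.last 26))⁻¹ * (x (Fin.last 26))⁻¹ * x (Fin.last 26) ^ 2 = 1 := by
      field_simp
    rwa [h5] at h4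
  have h3 : x (Fin.last 26) ^ 2 ≤ 1 / δ := by
    rw [le_div_iff₀ hδ]; linarith
  have h4 : x (Fin.last 26) ≤ 1 / δ + 1 := by nlinarith [sq_nonneg (x (Fin.last 26) - 1)]
  have h5 : 0 < 1 / δ := by positivity
  rw [mem_closedBall_zero_iff, pi_norm_le_iff_of_nonneg (by linarith)]
  intro i
  rw [Real.norm_eq_abs]
  exact abs_le_of_causal (by linarith) hf.1 (by rw [abs_of_pos hl]; exact h4) i

lemma hyp_act (w : W) {x : Fin (26 + 1) → ℝ} (hx : x ∈ Hyp 26) : act w x ∈ Hyp 26 :=
  ⟨by rw [mink_act]; exact hx.1, (act_fwd w x (fwd_of_hyp hx)).2⟩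

lemma core_act (w : W) {x : Fin (26 + 1) → ℝ} (hx : x ∈ Core) : act w x ∈ Core := by
  refine ⟨hyp_act w hx.1, fun v hv => ?_⟩
  rw [mink_act_left]
  exact hx.2 _ (Pol_act hv _)

lemma core_convex : HypConvex 26 Core := by
  intro x hx y hy a b ha hb hab
  refine ⟨hab, fun v hv => ?_⟩
  rw [mink_add_left, mink_smul_left, mink_smul_left]
  have h1 := mul_nonpos_of_nonneg_of_nonpos ha (hx.2 v hv)
  have h2 := mul_nonpos_of_nonneg_of_nonpos hb (hy.2 v hv)
  linarith

lemma core_nonempty : Core.Nonempty := by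
  have hs : 0 < Real.sqrt 495 := Real.sqrt_pos.2 (by norm_num)
  have hs2 : Real.sqrt 495 * Real.sqrt 495 = 495 := Real.mul_self_sqrt (by norm_num)
  refine ⟨(Real.sqrt 495)⁻¹ • o, ⟨⟨?_, ?_⟩, ?_⟩⟩
  · rw [mink_smul_left, mink_smul_right, mink_oo]
    field_simp
    rw [pow_two, hs2]
  · rw [Pi.smul_apply, o_last, smul_eq_mul]; positivity
  · intro v hv
    have h := hv 1
    rw [act_one] at h
    rw [mink_smul_left]
    exact mul_nonpos_of_nonneg_of_nonpos (by positivity) h

/-- the representation in matrix form -/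
noncomputable def rho : W →* Matrix.GeneralLinearGroup (Fin (26 + 1)) ℝ :=
  (Units.map ((LinearMap.toMatrixAlgEquiv' (R := ℝ) (n := Fin (26 + 1))) :
    ((Fin (26 + 1) → ℝ) →ₗ[ℝ] (Fin (26 + 1) → ℝ)) →* Matrix (Fin (26 + 1)) (Fin (26 + 1)) ℝ)).comp
    act.toHomUnits

lemma rho_apply (w : W) (x : Fin (26 + 1) → ℝ) : (rho w).1 *ᵥ x = act w x := by
  have : (rho w).1 = LinearMap.toMatrix' (act w) := rfl
  rw [this, LinearMap.toMatrix'_mulVec]

lemma rho_inj : Function.Injective rho := by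
  rw [injective_iff_map_eq_one]
  intro w hw
  apply act_o_inj
  rw [← rho_apply, hw]
  simp

lemma rho_convexCocompact : ConvexCocompact 26 rho.range := by
  refine ⟨?_, Core, fun x hx => hx.1, core_nonempty, core_convex, ?_, ?_, ?_⟩
  · rintro _ ⟨w, rfl⟩
    refine ⟨fun x y => ?_, fun x hx => ?_⟩
    · rw [rho_apply, rho_apply, mink_act]
    · rw [rho_apply]; exact hyp_act w hx
  · rintro _ ⟨w, rfl⟩ x hx
    rw [rho_apply]; exact core_act w hx
  · intro K hKC hK
    obtain ⟨R, hR⟩ := (hK.image (continuous_mink_left o)).isBounded.subset_closedBall 0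
    have hR' : ∀ x ∈ K, - mink x o ≤ |R| := by
      intro x hx
      have := hR ⟨x, hx, rfl⟩
      rw [mem_closedBall_zero_iff, Real.norm_eq_abs] at this
      exact (neg_le_abs _).trans (this.trans (le_abs_self _))
    have hsub : {A | A ∈ rho.range ∧ ∃ x ∈ K, A.1 *ᵥ x ∈ K} ⊆
        rho '' {w : W | - mink (act w o) o ≤ 4 * (|R| * |R|)} := by
      rintro _ ⟨⟨w, rfl⟩, x, hx, hwx⟩
      refine ⟨w, ?_, rfl⟩
      rw [rho_apply] at hwx
      show - mink (act w o) o ≤ 4 * (|R| * |R|)
      have hxH := (hKC hx).1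
      have hxf := fwd_of_hyp hxH
      have hf := act_fwd w x hxf
      have h := three_point (act_fwd w o fwd_o) fwd_o hf (by rw [mink_act, hxH.1]; norm_num)
      rw [mink_act, mink_act, hxH.1] at h
      have h1 := hR' x hx
      have h2 := hR' _ hwx
      have h3 : mink o x ≤ 0 := mink_nonpos fwd_o hxf
      have h4 : mink o (act w x) ≤ 0 := mink_nonpos fwd_o hf
      rw [mink_comm] at h1 h2
      have h5 : mink o x * mink o (act w x) ≤ |R| * |R| := by
        have := mul_le_mul h1 h2 (by linarith) (abs_nonneg R)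
        linarith
      linarith
    exact ((finite_R _).image _).subset hsub
  · refine ⟨CoreK, fun x hx => hx.1, isCompact_CoreK, fun x hx => ?_⟩
    obtain ⟨w, hw⟩ := tiling (fwd_of_hyp hx.1) (by rw [hx.1.1]; norm_num)
    exact ⟨rho w, ⟨w, rfl⟩, by rw [rho_apply]; exact ⟨core_act w hx, hw⟩⟩

theorem W_admits : AdmitsConvexCocompactRep W := ⟨26, rho, rho_inj, rho_convexCocompact⟩

end Pool.Agent.Helper613.DH
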