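import Mathlib

set_option autoImplicit false

namespace Pool.Agent.Helper613.DH

open Matrix

/-- The Lorentzian (Minkowski) bilinear form of signature `(d,1)` on `ℝ^(d+1)`;
the last coordinate is the timelike one. -/
def mink {d : ℕ} (x y : Fin (d + 1) → ℝ) : ℝ :=
  (∑ i : Fin d, x i.castSucc * y i.castSucc) - x (Fin.last d) * y (Fin.last d)

/-- Real hyperbolic `d`-space, as the upper sheet of the hyperboloid. -/
def Hyp (d : ℕ) : Set (Fin (d + 1) → ℝ) :=
  {x | mink x x = -1 ∧ 0 < x (Fin.last d)}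

/-- `A` is an isometry of hyperbolic `d`-space: a linear map preserving the Lorentzian form and
the upper sheet of the hyperboloid. -/
def IsIsomHyp (d : ℕ) (A : Matrix.GeneralLinearGroup (Fin (d + 1)) ℝ) : Prop :=
  (∀ x y : Fin (d + 1) → ℝ, mink (A.1 *ᵥ x) (A.1 *ᵥ y) = mink x y) ∧
    ∀ x ∈ Hyp d, A.1 *ᵥ x ∈ Hyp d

/-- A subset `C` of hyperbolic space is convex: it contains the geodesic segment joining any two
of its points (the points of the hyperboloid which are nonnegative combinations of the two). -/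
def HypConvex (d : ℕ) (C : Set (Fin (d + 1) → ℝ)) : Prop :=
  ∀ x ∈ C, ∀ y ∈ C, ∀ a b : ℝ, 0 ≤ a → 0 ≤ b → a • x + b • y ∈ Hyp d → a • x + b • y ∈ C

/-- A subgroup `Γ` of `Isom(ℍ^d)` is convex cocompact: some nonempty `Γ`-invariant convex subset
`C` of `ℍ^d` carries a properly discontinuous action of `Γ` with compact quotient. -/
def ConvexCocompact (d : ℕ) (Γ : Subgroup (Matrix.GeneralLinearGroup (Fin (d + 1)) ℝ)) : Prop :=
  (∀ A ∈ Γ, IsIsomHyp d A) ∧
  ∃ C : Set (Fin (d + 1) → ℝ), C ⊆ Hyp d ∧ C.Nonempty ∧ HypConvex d C ∧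
    (∀ A ∈ Γ, ∀ x ∈ C, A.1 *ᵥ x ∈ C) ∧
    (∀ K ⊆ C, IsCompact K → {A | A ∈ Γ ∧ ∃ x ∈ K, A.1 *ᵥ x ∈ K}.Finite) ∧
    (∃ K ⊆ C, IsCompact K ∧ ∀ x ∈ C, ∃ A ∈ Γ, A.1 *ᵥ x ∈ K)

/-- The group `W` admits a convex cocompact representation into some `Isom(ℍ^d)`. -/
def AdmitsConvexCocompactRep (W : Type) [Group W] : Prop :=
  ∃ (d : ℕ) (ρ : W →* Matrix.GeneralLinearGroup (Fin (d + 1)) ℝ),
    Function.Injective ρ ∧ ConvexCocompact d ρ.range

/-- The unit vectors `e i` (`i : Fin N`) are the outer normals of the facets of an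
`ℍ^n`-Coxeter polytope `P = {x ∈ ℍ^n | ∀ i, mink x (e i) ≤ 0}`: `P` has nonempty interior, each
half-space `{mink x (e i) ≤ 0}` defines a facet of `P`, and two facets whose bounding hyperplanes
meet form a dihedral angle `π / m` for some integer `m ≥ 2`. -/
structure IsCoxeterPolytope (n N : ℕ) (e : Fin N → Fin (n + 1) → ℝ) : Prop where
  unit : ∀ i, mink (e i) (e i) = 1
  interior : ∃ x ∈ Hyp n, ∀ i, mink x (e i) < 0
  facet : ∀ i, ∃ x ∈ Hyp n, mink x (e i) = 0 ∧ ∀ j, j ≠ i → mink x (e j) < 0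
  angle : ∀ i j, i ≠ j → (∃ x ∈ Hyp n, mink x (e i) = 0 ∧ mink x (e j) = 0) →
    ∃ m : ℕ, 2 ≤ m ∧ mink (e i) (e j) = - Real.cos (Real.pi / m)

/-- The reflection group `Γ_P`: the subgroup of `Isom(ℍ^n)` generated by the reflections in the
facets of `P`. -/
def reflectionGroup (n N : ℕ) (e : Fin N → Fin (n + 1) → ℝ) :
    Subgroup (Matrix.GeneralLinearGroup (Fin (n + 1)) ℝ) :=
  Subgroup.closure {A | ∃ i, ∀ x : Fin (n + 1) → ℝ, A.1 *ᵥ x = x - (2 * mink x (e i)) • e i}

/-- `W` is realized as a convex cocompact reflection group of `Isom(ℍ^n)`: there is an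
`ℍ^n`-Coxeter polytope `P` with `Γ_P` convex cocompact and `Γ_P` isomorphic to `W`. -/
def RealizedAsReflectionGroup (n : ℕ) (W : Type) [Group W] : Prop :=
  ∃ (N : ℕ) (e : Fin N → Fin (n + 1) → ℝ),
    IsCoxeterPolytope n N e ∧ ConvexCocompact n (reflectionGroup n N e) ∧
      Nonempty (W ≃* reflectionGroup n N e)

/-- Word length of `g` with respect to the set `S` (letters in `S` or inverses of such). -/
noncomputable def wordLength {G : Type} [Group G] (S : Set G) (g : G) : ℕ :=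
  sInf {n | ∃ l : List G, l.length = n ∧ (∀ s ∈ l, s ∈ S ∨ s⁻¹ ∈ S) ∧ l.prod = g}

/-- `G` is word-hyperbolic: for some finite generating set the word metric satisfies Gromov's
four point condition. -/
def WordHyperbolic (G : Type) [Group G] : Prop :=
  ∃ S : Set G, S.Finite ∧ Subgroup.closure S = ⊤ ∧ ∃ δ : ℕ, ∀ x y z w : G,
    wordLength S (x⁻¹ * y) + wordLength S (z⁻¹ * w) ≤
      max (wordLength S (x⁻¹ * z) + wordLength S (y⁻¹ * w))
        (wordLength S (x⁻¹ * w) + wordLength S (y⁻¹ * z)) + δ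

end Pool.Agent.Helper613.DH
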