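import Pool.Agent.Helper613.DHPing

set_option autoImplicit false

namespace Pool.Agent.Helper613.DH

open Module Filter Topology

/-! ### Reverse Cauchy-Schwarz and consequences -/

lemma reverse_cs {d : ℕ} {p q : Fin (d + 1) → ℝ} (hq : Fwd q) (hq' : mink q q < 0) :
    mink p p * mink q q ≤ mink p q ^ 2 := by
  have hne : mink q q ≠ 0 := hq'.ne
  set t := mink p q / mink q q with ht
  have h1 : 0 ≤ mink (p - t • q) (p - t • q) := by
    apply nonneg_of_orth hq hq'
    rw [mink_sub_left, mink_smul_left, ht]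
    field_simp
    ring
  have h2 : mink (p - t • q) (p - t • q) = mink p p - mink p q ^ 2 / mink q q := by
    simp only [mink_sub_left, mink_sub_right, mink_smul_left, mink_smul_right]
    rw [mink_comm q p, ht]
    field_simp
    ring
  rw [h2] at h1
  have h3 : mink p q ^ 2 / mink q q ≤ mink p p := by linarith
  rw [div_le_iff_of_neg hq'] at h3
  exact h3

/-- three point inequality -/
lemma three_point {d : ℕ} {x y z : Fin (d + 1) → ℝ} (hx : Fwd x) (hy : Fwd y) (hz : Fwd z)
    (hz' : mink z z < 0) : mink x y * mink z z ≤ 4 * (mink x z * mink y z) := by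
  have h := four_point hx hy hz hz hz'
  rw [mink_comm z y] at h
  linarith

/-- the points of the orbit are uniformly separated -/
lemma orbit_sep {w : W} (hw : w ≠ 1) : 562 ≤ - mink (act w o) o := by
  obtain ⟨i, c, hic⟩ := outside hw
  set p := act w o with hp
  have hpf : Fwd p := act_fwd w o fwd_o
  have hpp : mink p p = -495 := by rw [hp, mink_act, mink_oo]
  set q := o + (11 / 5 : ℝ) • A i c with hq
  have hqq : mink q q = -3201 / 5 := by
    rw [hq]
    simp only [mink_add_left, mink_add_right, mink_smul_left, mink_smul_right]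
    rw [mink_comm (A i c) o, mink_oA, mink_AA, mink_oo]; norm_num
  have hqo : mink q o < 0 := by
    rw [hq, mink_add_left, mink_smul_left, mink_comm (A i c) o, mink_oA, mink_oo]; norm_num
  have hqf : Fwd q := fwd_of (by rw [hqq]; norm_num) fwd_o hqo
  have h1 : mink p q < 0 := mink_neg hpf hqf (by rw [hqq]; norm_num)
  have h2 := reverse_cs (p := p) hqf (by rw [hqq]; norm_num)
  rw [hpp, hqq] at h2
  have h3 : 562 ≤ - mink p q := by nlinarith
  have h4 : mink p q = mink p o + 11 / 5 * mink p (A i c) := by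
    rw [hq, mink_add_right, mink_smul_right]
  linarith

lemma finite_R (R : ℝ) : {w : W | - mink (act w o) o ≤ R}.Finite := by
  by_contra hinf
  have hinf : {w : W | - mink (act w o) o ≤ R}.Infinite := hinf
  set P : Set (Fin (26 + 1) → ℝ) := (fun w : W => act w o) '' {w : W | - mink (act w o) o ≤ R}
    with hP
  have hinj : Set.InjOn (fun w : W => act w o) {w : W | - mink (act w o) o ≤ R} := by
    intro w _ w' _ h
    have h' : act w o = act w' o := h
    have : act (w'⁻¹ * w) o = o := by rw [act_mul, h', act_inv_act]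
    have := act_o_inj this
    rw [inv_mul_eq_one] at this
    exact this.symm
  have hPinf : P.Infinite := hinf.image hinj
  obtain ⟨ε, hε, hεle⟩ := exists_eps fwd_o (by rw [mink_oo]; norm_num)
  have hbd : P ⊆ Metric.closedBall 0 (|R / ε|) := by
    rintro _ ⟨w, hw, rfl⟩
    have hw : - mink (act w o) o ≤ R := hw
    have hf : Fwd (act w o) := act_fwd w o fwd_o
    have h1 := hεle _ hf
    have h2 : |act w o (Fin.last 26)| ≤ |R / ε| := by
      rw [abs_of_pos hf.2]
      have : act w o (Fin.last 26) ≤ R / ε := by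
        rw [le_div_iff₀ hε]; linarith
      exact this.trans (le_abs_self _)
    rw [mem_closedBall_zero_iff, pi_norm_le_iff_of_nonneg (abs_nonneg _)]
    intro i
    rw [Real.norm_eq_abs]
    exact abs_le_of_causal (abs_nonneg _) hf.1 h2 i
  obtain ⟨a, -, ha⟩ := hPinf.exists_accPt_of_subset_isCompact
    (isCompact_closedBall (0 : Fin (26 + 1) → ℝ) (|R / ε|)) hbd
  have hacl : a ∈ closure P := mem_closure_iff_clusterPt.2 ha.clusterPt
  have haa : mink a a = -495 := by
    have hcl : IsClosed {x : Fin (26 + 1) → ℝ | mink x x = -495} :=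
      isClosed_eq continuous_mink_self continuous_const
    have : P ⊆ {x : Fin (26 + 1) → ℝ | mink x x = -495} := by
      rintro _ ⟨w, _, rfl⟩
      show mink (act w o) (act w o) = -495
      rw [mink_act, mink_oo]
    exact closure_minimal this hcl hacl
  have hcont : ContinuousAt (fun p : (Fin (26 + 1) → ℝ) × (Fin (26 + 1) → ℝ) =>
      mink p.1 p.2) (a, a) := continuous_mink.continuousAt
  have hnhd : {p : (Fin (26 + 1) → ℝ) × (Fin (26 + 1) → ℝ) | -562 < mink p.1 p.2} ∈ 𝓝 (a, a) := by
    apply hcont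
    apply isOpen_Ioi.mem_nhds
    show -562 < mink a a
    rw [haa]; norm_num
  rw [nhds_prod_eq, Filter.mem_prod_self_iff] at hnhd
  obtain ⟨U, hU, hUsub⟩ := hnhd
  rw [accPt_iff_nhds] at ha
  obtain ⟨y, ⟨hyU, hyP⟩, hya⟩ := ha U hU
  have hU2 : U ∩ {y}ᶜ ∈ 𝓝 a := inter_mem hU (isOpen_compl_singleton.mem_nhds (Ne.symm hya))
  obtain ⟨z, ⟨⟨hzU, hzy⟩, hzP⟩, -⟩ := ha _ hU2
  obtain ⟨w, _, rfl⟩ := hyP
  obtain ⟨w', _, rfl⟩ := hzP
  have hne : w⁻¹ * w' ≠ 1 := by
    intro h
    rw [inv_mul_eq_one] at h
    apply hzy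
    rw [h]; rfl
  have h1 := orbit_sep hne
  have h2 : -562 < mink (act w o) (act w' o) := hUsub (Set.mk_mem_prod hyU hzU)
  have h3 : mink (act (w⁻¹ * w') o) o = mink (act w o) (act w' o) := by
    rw [act_mul, mink_act_left, inv_inv, mink_comm]
  rw [h3] at h1
  linarith

lemma finite_R' {x : Fin (26 + 1) → ℝ} (hx : Fwd x) (hx' : mink x x < 0) (R : ℝ) :
    {w : W | - mink (act w x) o ≤ R}.Finite := by
  apply (finite_R (4 * (- mink o x * |R|) / (- mink x x))).subset
  intro w hw
  have hw : - mink (act w x) o ≤ R := hw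
  show - mink (act w o) o ≤ 4 * (- mink o x * |R|) / (- mink x x)
  have hf := act_fwd w x hx
  have h := three_point (act_fwd w o fwd_o) fwd_o hf (by rw [mink_act]; exact hx')
  rw [mink_act, mink_act] at h
  rw [le_div_iff₀ (by linarith)]
  have h1 : mink o x < 0 := mink_neg fwd_o hx hx'
  have h2 : - mink (act w x) o ≤ |R| := hw.trans (le_abs_self _)
  have h3 : mink o x * mink o (act w x) ≤ - mink o x * |R| := by
    rw [mink_comm o (act w x)]
    nlinarith
  linarith

lemma flip_o (i : Fin 5) (c : Fin 3) (x : Fin (26 + 1) → ℝ) :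
    mink (act (g i c) x) o = mink x o + 22 / 5 * mink x (A i c) := by
  rw [act_g, mink_A]
  simp only [mink_sub_left, mink_smul_left]
  rw [mink_comm (F (i, c + 1)) o, mink_comm (F (i, c + 2)) o, mink_oF, mink_oF]
  ring

/-- the translates of the chamber cover the open cone -/
lemma tiling {x : Fin (26 + 1) → ℝ} (hx : Fwd x) (hx' : mink x x < 0) :
    ∃ w : W, ∀ i c, mink (act w x) (A i c) ≤ 0 := by
  have hfin := finite_R' hx hx' (- mink (act 1 x) o)
  obtain ⟨w, hw, hmin⟩ := Set.exists_min_image _ (fun w => - mink (act w x) o) hfin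
    ⟨1, by show - mink (act 1 x) o ≤ - mink (act 1 x) o; exact le_rfl⟩
  refine ⟨w, fun i c => ?_⟩
  by_contra hneg
  push Not at hneg
  have h1 : - mink (act (g i c * w) x) o < - mink (act w x) o := by
    rw [act_mul, flip_o]; linarith
  have h2 := hmin (g i c * w) (by
    show - mink (act (g i c * w) x) o ≤ _
    have : - mink (act w x) o ≤ - mink (act 1 x) o := hw
    linarith)
  linarith

end Pool.Agent.Helper613.DH
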