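import Pool.Agent.Helper613.DHWord

set_option autoImplicit false

namespace Pool.Agent.Helper613.DH

open Module

/-- blocks at distance two on the pentagon -/
def far (i j : Fin 5) : Bool := decide (i = j + 2) || decide (j = i + 2)

lemma far_symm : ∀ i j, far i j = far j i := by decide
lemma far_irrefl : ∀ i, far i i = false := by decide

/-- The right-angled Coxeter matrix of the pentagon with doubled vertices: the generators
`(i, a)` and `(j, b)` commute unless the blocks `i` and `j` are at distance two, in which case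
their product has infinite order. -/
def pentM : CoxeterMatrix (Fin 5 × Fin 2) where
  M := Matrix.of fun p q => if p = q then 1 else if far p.1 q.1 then 0 else 2
  isSymm := by
    ext p q
    simp only [Matrix.transpose_apply, Matrix.of_apply]
    rw [far_symm q.1 p.1]
    simp only [eq_comm]
  diagonal := by intro i; simp
  off_diagonal := by
    intro p q h
    simp only [Matrix.of_apply, if_neg h]
    split_ifs <;> decide

lemma pentM_apply (p q : Fin 5 × Fin 2) :
    pentM p q = if p = q then 1 else if far p.1 q.1 then 0 else 2 := rfl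

abbrev W : Type := pentM.Group

noncomputable def cs : CoxeterSystem pentM W := pentM.toCoxeterSystem

noncomputable def sg (i : Fin 5) (a : Fin 2) : W := pentM.simple (i, a)

lemma cs_simple (p : Fin 5 × Fin 2) : cs.simple p = sg p.1 p.2 := rfl

lemma sg_sq (i : Fin 5) (a : Fin 2) : sg i a * sg i a = 1 :=
  cs.simple_mul_simple_self (i, a)

lemma sg_comm {i j : Fin 5} (h : far i j = false) (a b : Fin 2) :
    sg i a * sg j b = sg j b * sg i a := by
  by_cases hp : ((i, a) : Fin 5 × Fin 2) = (j, b)
  · rw [Prod.mk.injEq] at hp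
    rw [hp.1, hp.2]
  · have h1 : (sg i a * sg j b) ^ pentM (i, a) (j, b) = 1 := cs.simple_mul_simple_pow (i, a) (j, b)
    rw [pentM_apply, if_neg hp] at h1
    simp only [h] at h1
    rw [if_neg (by simp), pow_two] at h1
    have h2 := eq_inv_of_mul_eq_one_left h1
    rw [mul_inv_rev, eq_comm] at h2
    have e1 : (sg i a)⁻¹ = sg i a := by
      rw [inv_eq_iff_mul_eq_one]; exact sg_sq i a
    have e2 : (sg j b)⁻¹ = sg j b := by
      rw [inv_eq_iff_mul_eq_one]; exact sg_sq j b
    rw [e1, e2] at h2
    exact h2.symm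

/-- The nontrivial elements of the block `i`, indexed by `Fin 3`. -/
noncomputable def g (i : Fin 5) (c : Fin 3) : W :=
  if c = 0 then sg i 0 else if c = 1 then sg i 1 else sg i 0 * sg i 1

lemma g_zero (i : Fin 5) : g i 0 = sg i 0 := by simp [g]
lemma g_one (i : Fin 5) : g i 1 = sg i 1 := by simp [g]
lemma g_two (i : Fin 5) : g i 2 = sg i 0 * sg i 1 := by simp [g]

lemma g_mul (i : Fin 5) (c c' : Fin 3) :
    g i c * g i c' = if c = c' then 1 else g i (-(c + c')) := by
  have h0 := sg_sq i 0
  have h1 := sg_sq i 1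
  have h2 := sg_comm (far_irrefl i) 0 1
  fin_cases c <;> fin_cases c'
  · simp [g_zero, h0]
  · show g i 0 * g i 1 = g i 2
    rw [g_zero, g_one, g_two]
  · show g i 0 * g i 2 = g i 1
    rw [g_zero, g_one, g_two, ← mul_assoc, h0, one_mul]
  · show g i 1 * g i 0 = g i 2
    rw [g_zero, g_one, g_two, h2]
  · simp [g_one, h1]
  · show g i 1 * g i 2 = g i 0
    rw [g_zero, g_one, g_two, h2, ← mul_assoc, h1, one_mul]
  · show g i 2 * g i 0 = g i 1
    rw [g_zero, g_one, g_two, h2, mul_assoc, h0, mul_one]
  · show g i 2 * g i 1 = g i 0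
    rw [g_zero, g_one, g_two, mul_assoc, h1, mul_one]
  · show g i 2 * g i 2 = 1
    rw [g_two, mul_assoc, ← mul_assoc (sg i 1), ← h2, mul_assoc, h1, mul_one, h0]

lemma g_sq (i : Fin 5) (c : Fin 3) : g i c * g i c = 1 := by rw [g_mul, if_pos rfl]

lemma g_inv (i : Fin 5) (c : Fin 3) : (g i c)⁻¹ = g i c := by
  rw [inv_eq_iff_mul_eq_one]; exact g_sq i c

lemma g_comm {i j : Fin 5} (h : far i j = false) (c c' : Fin 3) :
    g i c * g j c' = g j c' * g i c := by
  have key : ∀ a b : Fin 2, Commute (sg i a) (sg j b) := fun a b => sg_comm h a b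
  have h1 : ∀ (c : Fin 3) (b : Fin 2), Commute (g i c) (sg j b) := by
    intro c b
    fin_cases c
    · show Commute (g i 0) _
      rw [g_zero]; exact key 0 b
    · show Commute (g i 1) _
      rw [g_one]; exact key 1 b
    · show Commute (g i 2) _
      rw [g_two]; exact (key 0 b).mul_left (key 1 b)
  fin_cases c'
  · show g i c * g j 0 = g j 0 * g i c
    rw [g_zero]; exact h1 c 0
  · show g i c * g j 1 = g j 1 * g i c
    rw [g_one]; exact h1 c 1
  · show g i c * g j 2 = g j 2 * g i c
    rw [g_two]; exact (h1 c 0).mul_right (h1 c 1)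

/-- the syllables -/
def Syl : Set W := Set.range fun p : Fin 5 × Fin 3 => g p.1 p.2

lemma g_mem (i : Fin 5) (c : Fin 3) : g i c ∈ Syl := ⟨(i, c), rfl⟩

lemma Syl_finite : Syl.Finite := Set.finite_range _

lemma Syl_closure : Subgroup.closure Syl = ⊤ := by
  rw [eq_top_iff, ← cs.subgroup_closure_range_simple]
  apply Subgroup.closure_mono
  rintro _ ⟨⟨i, a⟩, rfl⟩
  fin_cases a
  · exact ⟨(i, 0), g_zero i⟩
  · exact ⟨(i, 1), g_one i⟩

lemma Syl_inv (s : W) (hs : s⁻¹ ∈ Syl) : s ∈ Syl := by
  obtain ⟨⟨i, c⟩, h⟩ := hs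
  refine ⟨(i, c), ?_⟩
  have : (g i c)⁻¹ = s := by rw [← inv_inv s, ← h]
  rw [g_inv] at this
  exact this

/-- Data for a representation. -/
structure RepData {R V : Type} [CommRing R] [AddCommGroup V] [Module R V]
    (v : Fin 5 × Fin 3 → V) (f : Fin 5 × Fin 3 → Dual R V) : Prop where
  two : ∀ a, f a (v a) = 2
  zero : ∀ a b, a ≠ b → far a.1 b.1 = false → f a (v b) = 0

section rep

variable {R V : Type} [CommRing R] [AddCommGroup V] [Module R V]
variable {v : Fin 5 × Fin 3 → V} {f : Fin 5 × Fin 3 → Dual R V}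

/-- reflections -/
def rf (v : Fin 5 × Fin 3 → V) (f : Fin 5 × Fin 3 → Dual R V) (a : Fin 5 × Fin 3) : End R V :=
  Module.preReflection (v a) (f a)

lemma rf_apply (a : Fin 5 × Fin 3) (x : V) : rf v f a x = x - f a x • v a := rfl

lemma rf_sq (h : RepData v f) (a : Fin 5 × Fin 3) : rf v f a * rf v f a = 1 := by
  ext x
  simp only [Module.End.mul_apply, rf_apply, map_sub, map_smul, h.two, Module.End.one_apply,
    smul_eq_mul]
  module

lemma rf_comm (h : RepData v f) {a b : Fin 5 × Fin 3} (hab : far a.1 b.1 = false) :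
    rf v f a * rf v f b = rf v f b * rf v f a := by
  by_cases hne : a = b
  · rw [hne]
  · have h1 := h.zero a b hne hab
    have h2 := h.zero b a (Ne.symm hne) (by rw [far_symm]; exact hab)
    ext x
    simp only [Module.End.mul_apply, rf_apply, map_sub, map_smul, h1, h2]
    module

/-- the half-turns of a block -/
def hh (v : Fin 5 × Fin 3 → V) (f : Fin 5 × Fin 3 → Dual R V) (i : Fin 5) (c : Fin 3) : End R V :=
  rf v f (i, c + 1) * rf v f (i, c + 2)

lemma hh_comm (h : RepData v f) {i j : Fin 5} (hij : far i j = false) (c c' : Fin 3) :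
    hh v f i c * hh v f j c' = hh v f j c' * hh v f i c := by
  have key : ∀ k l : Fin 3, Commute (rf v f (i, k)) (rf v f (j, l)) := fun k l => rf_comm h hij
  exact ((key _ _).mul_right (key _ _)).mul_left ((key _ _).mul_right (key _ _))

lemma hh_sq (h : RepData v f) (i : Fin 5) (c : Fin 3) : hh v f i c * hh v f i c = 1 := by
  unfold hh
  have h1 : Commute (rf v f (i, c + 2)) (rf v f (i, c + 1)) :=
    rf_comm h (a := (i, c + 2)) (b := (i, c + 1)) (far_irrefl i)
  rw [h1.mul_mul_mul_comm, rf_sq h, rf_sq h, one_mul]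

lemma rep_liftable (h : RepData v f) :
    pentM.IsLiftable (fun p : Fin 5 × Fin 2 => hh v f p.1 p.2.castSucc) := by
  intro p q
  rw [pentM_apply]
  split_ifs with h1 h2
  · rw [h1, pow_one]; exact hh_sq h _ _
  · exact pow_zero _
  · have h2' : far p.1 q.1 = false := by simpa using h2
    rw [pow_two]
    have h3 := hh_comm h h2' p.2.castSucc q.2.castSucc
    calc hh v f p.1 p.2.castSucc * hh v f q.1 q.2.castSucc *
          (hh v f p.1 p.2.castSucc * hh v f q.1 q.2.castSucc)
        = hh v f p.1 p.2.castSucc * hh v f q.1 q.2.castSucc *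
          (hh v f q.1 q.2.castSucc * hh v f p.1 p.2.castSucc) := by rw [← h3]
      _ = 1 := by
        rw [mul_assoc, ← mul_assoc (hh v f q.1 q.2.castSucc), hh_sq h, one_mul, hh_sq h]

/-- the representation attached to the data -/
noncomputable def rep (h : RepData v f) : W →* End R V :=
  cs.lift ⟨_, rep_liftable h⟩

lemma rep_sg (h : RepData v f) (i : Fin 5) (a : Fin 2) :
    rep h (sg i a) = hh v f i a.castSucc :=
  cs.lift_apply_simple (rep_liftable h) (i, a)

lemma rep_g (h : RepData v f) (i : Fin 5) (c : Fin 3) : rep h (g i c) = hh v f i c := by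
  fin_cases c
  · show rep h (g i 0) = _
    rw [g_zero, rep_sg]; rfl
  · show rep h (g i 1) = _
    rw [g_one, rep_sg]; rfl
  · show rep h (g i 2) = hh v f i 2
    rw [g_two, map_mul, rep_sg, rep_sg]
    show rf v f (i, 1) * rf v f (i, 2) * (rf v f (i, 2) * rf v f (i, 0)) =
      rf v f (i, 0) * rf v f (i, 1)
    rw [mul_assoc, ← mul_assoc (rf v f (i, 2)), rf_sq h, one_mul,
      rf_comm h (a := (i, 1)) (b := (i, 0)) (far_irrefl i)]

/-- explicit formula for the action of a block element -/
lemma hh_apply (h : RepData v f) (i : Fin 5) (c : Fin 3) (x : V) :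
    hh v f i c x = x - f (i, c + 1) x • v (i, c + 1) - f (i, c + 2) x • v (i, c + 2) := by
  unfold hh
  have h1 := h.zero (i, c + 1) (i, c + 2) (by
    fin_cases c <;> simp <;> decide) (far_irrefl i)
  simp only [Module.End.mul_apply, rf_apply, map_sub, map_smul, h1]
  module

end rep

lemma w_ind {P : W → Prop} (w : W) (h1 : P 1)
    (hs : ∀ (i : Fin 5) (c : Fin 3) (w : W), P w → P (g i c * w)) : P w := by
  refine cs.simple_induction_left (p := P) w h1 ?_
  rintro w ⟨i, a⟩ hw
  fin_cases a
  · have := hs i 0 w hw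
    rwa [g_zero] at this
  · have := hs i 1 w hw
    rwa [g_one] at this

end Pool.Agent.Helper613.DH
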