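import Pool.Agent.Helper613.DHCC
import Pool.Agent.Helper613.DHAbs

set_option autoImplicit false

namespace Pool.Agent.Helper613.DH

open Module Filter Topology

/-- products along word geodesics -/
theorem star : ∃ ε : ℝ, 0 < ε ∧ ∀ u v : W, L (u⁻¹ * v) = L u + L v →
    ε * (act u o (Fin.last 26) * act v o (Fin.last 26)) ≤ - mink (act u o) (act v o) := by
  set S0 : Set ((Fin (26 + 1) → ℝ) × (Fin (26 + 1) → ℝ)) :=
    {p | ∃ u v : W, L (u⁻¹ * v) = L u + L v ∧ p = (nrm (act u o), nrm (act v o))} with hS0
  set Z := closure S0 with hZ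
  have hsub : Z ⊆ Ball 26 ×ˢ Ball 26 := by
    apply closure_minimal _ (isClosed_Ball.prod isClosed_Ball)
    rintro _ ⟨u, v, _, rfl⟩
    exact ⟨nrm_mem (act_fwd u o fwd_o), nrm_mem (act_fwd v o fwd_o)⟩
  have hZc : IsCompact Z :=
    (isCompact_Ball.prod isCompact_Ball).of_isClosed_subset isClosed_closure hsub
  have hneg : ∀ p ∈ Z, mink p.1 p.2 < 0 := by
    rintro ⟨ξ, η⟩ hp
    obtain ⟨hξ, hη⟩ := hsub hp
    simp only at hξ hη ⊢
    refine lt_of_le_of_ne (mink_nonpos (fwd_of_ball hξ) (fwd_of_ball hη)) ?_
    intro h0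
    have heq : ξ = η := eq_of_mink_zero hξ.1 hη.1 hξ.2 hη.2 h0.ge
    subst heq
    have hK : ∀ i c, mink ξ (A i c) ≤ 0 := by
      intro i
      have hcl : IsClosed ({p : (Fin (26 + 1) → ℝ) × (Fin (26 + 1) → ℝ) |
          ∀ c, mink p.1 (A i c) ≤ 0} ∪ {p | ∀ c, mink p.2 (A i c) ≤ 0}) := by
        apply IsClosed.union
        · simp only [Set.setOf_forall]
          exact isClosed_iInter fun c =>
            isClosed_le ((continuous_mink_left _).comp continuous_fst) continuous_const
        · simp only [Set.setOf_forall]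
          exact isClosed_iInter fun c =>
            isClosed_le ((continuous_mink_left _).comp continuous_snd) continuous_const
      have hS : S0 ⊆ {p : (Fin (26 + 1) → ℝ) × (Fin (26 + 1) → ℝ) |
          ∀ c, mink p.1 (A i c) ≤ 0} ∪ {p | ∀ c, mink p.2 (A i c) ≤ 0} := by
        rintro _ ⟨u, v, huv, rfl⟩
        rcases compat_neg huv i with h | h
        · left
          intro c
          show mink (nrm (act u o)) _ ≤ 0
          rw [mink_nrm_left]
          have := (act_fwd u o fwd_o).2
          exact mul_nonpos_of_nonneg_of_nonpos (by positivity) (h c).le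
        · right
          intro c
          show mink (nrm (act v o)) _ ≤ 0
          rw [mink_nrm_left]
          have := (act_fwd v o fwd_o).2
          exact mul_nonpos_of_nonneg_of_nonpos (by positivity) (h c).le
      rcases closure_minimal hS hcl hp with h | h
      · exact h
      · exact h
    obtain ⟨ε, hε, hle⟩ := sep (fwd_of_ball hξ) h0 hK
    have hcl : IsClosed {p : (Fin (26 + 1) → ℝ) × (Fin (26 + 1) → ℝ) | ε ≤ - mink p.1 ξ} :=
      isClosed_le continuous_const ((continuous_mink_left _).comp continuous_fst).neg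
    have hS : S0 ⊆ {p : (Fin (26 + 1) → ℝ) × (Fin (26 + 1) → ℝ) | ε ≤ - mink p.1 ξ} := by
      rintro _ ⟨u, v, _, rfl⟩
      show ε ≤ - mink (nrm (act u o)) ξ
      have hl := (act_fwd u o fwd_o).2
      rw [mink_nrm_left]
      have h1 := hle u
      have h2 := mul_le_mul_of_nonneg_left h1 (show 0 ≤ (act u o (Fin.last 26))⁻¹ by positivity)
      have h3 : (act u o (Fin.last 26))⁻¹ * (ε * act u o (Fin.last 26)) = ε := by field_simp
      rw [h3] at h2
      linarith
    have h1 : ε ≤ - mink ξ ξ := closure_minimal hS hcl hp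
    rw [h0] at h1
    linarith
  have hne : Z.Nonempty := ⟨(nrm (act 1 o), nrm (act 1 o)), subset_closure
    ⟨1, 1, by rw [inv_one, one_mul, show L (1 : W) = 0 from wl_one], rfl⟩⟩
  obtain ⟨p0, hp0, hmax⟩ := hZc.exists_isMaxOn hne continuous_mink.continuousOn
  refine ⟨- mink p0.1 p0.2, by have := hneg p0 hp0; linarith, ?_⟩
  intro u v huv
  have h1 : mink (nrm (act u o)) (nrm (act v o)) ≤ mink p0.1 p0.2 :=
    hmax (subset_closure ⟨u, v, huv, rfl⟩)
  have hlu := (act_fwd u o fwd_o).2
  have hlv := (act_fwd v o fwd_o).2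
  rw [nrm, nrm, mink_smul_left, mink_smul_right] at h1
  have h2 := mul_le_mul_of_nonneg_right h1
    (show 0 ≤ act u o (Fin.last 26) * act v o (Fin.last 26) by positivity)
  have h3 : (act u o (Fin.last 26))⁻¹ * ((act v o (Fin.last 26))⁻¹ *
      mink (act u o) (act v o)) * (act u o (Fin.last 26) * act v o (Fin.last 26)) =
      mink (act u o) (act v o) := by field_simp
  rw [h3] at h2
  linarith

/-- normalised hyperbolic cosine of the distance between orbit points -/
noncomputable def bb (u v : W) : ℝ := - mink (act u o) (act v o) / 495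

lemma bb_one_le (u v : W) : 1 ≤ bb u v := by
  have hu := act_fwd u o fwd_o
  have hv := act_fwd v o fwd_o
  have h1 := reverse_cs (p := act u o) hv (by rw [mink_act, mink_oo]; norm_num)
  rw [mink_act, mink_act, mink_oo] at h1
  have h2 := mink_neg hu hv (by rw [mink_act, mink_oo]; norm_num)
  unfold bb
  rw [le_div_iff₀ (by norm_num)]
  nlinarith

lemma bb_pos (u v : W) : 0 < bb u v := lt_of_lt_of_le one_pos (bb_one_le u v)

lemma bb_symm (u v : W) : bb u v = bb v u := by unfold bb; rw [mink_comm]

lemma bb_translate (h u v : W) : bb (h * u) (h * v) = bb u v := by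
  unfold bb; rw [act_mul, act_mul, mink_act]

lemma bb_self (u : W) : bb u u = 1 := by
  unfold bb; rw [mink_act, mink_oo]; norm_num

lemma bb_four (x y z w : W) :
    bb x y * bb z w ≤ 2 * (bb x z * bb y w) + 2 * (bb z y * bb x w) := by
  have h := four_point (act_fwd x o fwd_o) (act_fwd y o fwd_o) (act_fwd z o fwd_o)
    (act_fwd w o fwd_o) (by rw [mink_act, mink_oo]; norm_num)
  unfold bb
  have : (-mink (act x o) (act y o) / 495) * (-mink (act z o) (act w o) / 495) =
    (mink (act x o) (act y o) * mink (act z o) (act w o)) / 495 ^ 2 := by ring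
  rw [this]
  have e2 : 2 * (-mink (act x o) (act z o) / 495 * (-mink (act y o) (act w o) / 495)) +
      2 * (-mink (act z o) (act y o) / 495 * (-mink (act x o) (act w o) / 495)) =
      (2 * (mink (act x o) (act z o) * mink (act y o) (act w o)) +
        2 * (mink (act z o) (act y o) * mink (act x o) (act w o))) / 495 ^ 2 := by ring
  rw [e2]
  exact div_le_div_of_nonneg_right h (by norm_num)

noncomputable def Lam (u v : W) : ℝ := Real.log (bb u v)

lemma Lam_nonneg (u v : W) : 0 ≤ Lam u v := Real.log_nonneg (bb_one_le u v)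

lemma mem_Syl_of_L {w : W} (h : L w ≤ 1) : w = 1 ∨ w ∈ Syl := by
  rcases Nat.eq_zero_or_pos (L w) with h0 | hpos
  · exact Or.inl (wl_eq_zero Syl_closure h0)
  · right
    obtain ⟨s, hs, w', rfl, hw'⟩ := wl_succ Syl_closure Syl_inv
      (show wordLength Syl w = 0 + 1 by
        have : L w = 1 := by omega
        exact this)
    rw [wl_eq_zero Syl_closure hw', mul_one]
    exact hs

theorem W_wordHyperbolic : WordHyperbolic W := by
  refine ⟨Syl, Syl_finite, Syl_closure, ?_⟩
  obtain ⟨ε, hε, hstar⟩ := star
  obtain ⟨C1, hC1, hle1⟩ := abs_mink_le (d := 26) o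
  -- constant for letters
  obtain ⟨C5, hC5⟩ : ∃ C5 : ℝ, ∀ w : W, L w ≤ 1 → Lam 1 w ≤ C5 := by
    have hfin : (insert (1 : W) Syl).Finite := Syl_finite.insert 1
    obtain ⟨B, hB⟩ := (hfin.image (fun w => Lam 1 w)).bddAbove
    refine ⟨B, fun w hw => hB ⟨w, ?_, rfl⟩⟩
    rcases mem_Syl_of_L hw with h | h
    · exact Or.inl h
    · exact Or.inr h
  set C3 := Real.log ((C1 / 495) ^ 2 * (495 / ε)) with hC3
  set C := |Real.log 4| + |C5| + |C3| with hC
  refine four_point_of (fun u v : W => wordLength Syl (u⁻¹ * v)) Lam C ?_ ?_ ?_ ?_ ?_ ?_ ?_ ?_ ?_ ?_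
    ?_ ?_ ?_
  · intro x
    simp only [inv_mul_cancel]
    exact wl_one
  · intro x y
    show wordLength Syl (x⁻¹ * y) = wordLength Syl (y⁻¹ * x)
    rw [← wl_inv Syl_closure (x⁻¹ * y), mul_inv_rev, inv_inv]
  · intro x y z
    have := wl_mul_le Syl_closure (x⁻¹ * y) (y⁻¹ * z)
    rwa [show x⁻¹ * y * (y⁻¹ * z) = x⁻¹ * z by group] at this
  · intro x z
    obtain ⟨l, hl1, hl2, hl3⟩ := wl_spec Syl_closure (x⁻¹ * z)
    refine ⟨fun k => x * (l.take k).prod, by simp, ?_, ?_, ?_⟩
    · simp only
      rw [← hl1, List.take_length, hl3]; group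
    · intro k hk
      simp only at hk ⊢
      have e1 : x⁻¹ * (x * (l.take k).prod) = (l.take k).prod := by group
      have e2 : (x * (l.take k).prod)⁻¹ * z = (l.drop k).prod := by
        have : x⁻¹ * z = (l.take k).prod * (l.drop k).prod := by
          rw [← List.prod_append, List.take_append_drop, hl3]
        calc (x * (l.take k).prod)⁻¹ * z = (l.take k).prod⁻¹ * (x⁻¹ * z) := by group
          _ = _ := by rw [this]; group
      rw [e1, e2]
      have h1 := wl_le (S := Syl) (l.take k) (fun x hx => hl2 x (List.mem_of_mem_take hx))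
      have h2 := wl_le (S := Syl) (l.drop k) (fun x hx => hl2 x (List.mem_of_mem_drop hx))
      have h3 := wl_mul_le Syl_closure (l.take k).prod (l.drop k).prod
      rw [← List.prod_append, List.take_append_drop, hl3] at h3
      rw [List.length_take] at h1
      rw [List.length_drop] at h2
      omega
    · intro k hk
      simp only at hk ⊢
      have hk' : k < l.length := by omega
      have e1 : (x * (l.take k).prod)⁻¹ * (x * (l.take (k + 1)).prod) = l[k] := by
        rw [List.take_add_one, List.prod_append, List.getElem?_eq_getElem hk']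
        simp
      rw [e1]
      have := hl2 l[k] (List.getElem_mem hk')
      rcases this with h | h
      · exact wl_mem_le h
      · exact wl_mem_le (Syl_inv _ h)
  · positivity
  · intro x; rw [Lam, bb_self, Real.log_one]
  · exact Lam_nonneg
  · intro x y; rw [Lam, Lam, bb_symm]
  · intro x y z
    have h := bb_four x z y y
    rw [bb_self, mul_one] at h
    have h2 : bb x z ≤ 4 * (bb x y * bb y z) := by
      rw [bb_symm z y] at h
      linarith
    have h3 := Real.log_le_log (bb_pos x z) h2
    rw [Real.log_mul (by norm_num) (mul_pos (bb_pos _ _) (bb_pos _ _)).ne',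
      Real.log_mul (bb_pos _ _).ne' (bb_pos _ _).ne'] at h3
    have h4 := le_abs_self (Real.log 4)
    have h5 := abs_nonneg C5
    have h6 := abs_nonneg C3
    show Real.log (bb x z) ≤ Real.log (bb x y) + Real.log (bb y z) + C
    linarith
  · intro x y z w
    have h := bb_four x y z w
    have hlog : ∀ a b c d : W, Real.log (bb a b * bb c d) = Lam a b + Lam c d := fun a b c d =>
      Real.log_mul (bb_pos _ _).ne' (bb_pos _ _).ne'
    have h4 := le_abs_self (Real.log 4)
    have h5 := abs_nonneg C5
    have h6 := abs_nonneg C3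
    rw [← hlog x y z w]
    rcases le_total (bb x z * bb y w) (bb z y * bb x w) with h1 | h1
    · have h2 : bb x y * bb z w ≤ 4 * (bb x w * bb y z) := by
        rw [bb_symm y z, mul_comm (bb x w)]; linarith
      have h3 := Real.log_le_log (mul_pos (bb_pos _ _) (bb_pos _ _)) h2
      rw [Real.log_mul (by norm_num) (mul_pos (bb_pos _ _) (bb_pos _ _)).ne', hlog x w y z] at h3
      have h7 := le_max_right (Lam x z + Lam y w) (Lam x w + Lam y z)
      linarith
    · have h2 : bb x y * bb z w ≤ 4 * (bb x z * bb y w) := by linarith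
      have h3 := Real.log_le_log (mul_pos (bb_pos _ _) (bb_pos _ _)) h2
      rw [Real.log_mul (by norm_num) (mul_pos (bb_pos _ _) (bb_pos _ _)).ne', hlog x z y w] at h3
      have h7 := le_max_left (Lam x z + Lam y w) (Lam x w + Lam y z)
      linarith
  · intro x y z hxyz
    set u := y⁻¹ * x with hu
    set v := y⁻¹ * z with hv
    have e0 : u⁻¹ * v = x⁻¹ * z := by rw [hu, hv]; group
    have e1 : L u = wordLength Syl (x⁻¹ * y) := by
      show wordLength Syl u = _
      rw [← wl_inv Syl_closure u, hu, mul_inv_rev, inv_inv]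
    have huv : L (u⁻¹ * v) = L u + L v := by
      rw [e1, e0]; exact hxyz.symm
    have h1 := hstar u v huv
    have hlu := (act_fwd u o fwd_o).2
    have hlv := (act_fwd v o fwd_o).2
    have b1 : bb x z = - mink (act u o) (act v o) / 495 := by
      have : bb (y * u) (y * v) = bb u v := bb_translate y u v
      rw [hu, hv, mul_inv_cancel_left, mul_inv_cancel_left] at this
      rw [this]; rfl
    have b2 : bb x y ≤ C1 / 495 * act u o (Fin.last 26) := by
      have : bb (y * u) (y * 1) = bb u 1 := bb_translate y u 1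
      rw [hu, mul_inv_cancel_left, mul_one] at this
      rw [this]
      unfold bb
      rw [act_one]
      have := hle1 (act u o) (act_fwd u o fwd_o)
      calc -mink (act u o) o / 495 ≤ (C1 * act u o (Fin.last 26)) / 495 := by gcongr
        _ = _ := by ring
    have b3 : bb y z ≤ C1 / 495 * act v o (Fin.last 26) := by
      have : bb (y * v) (y * 1) = bb v 1 := bb_translate y v 1
      rw [hv, mul_inv_cancel_left, mul_one] at this
      rw [bb_symm, this]
      unfold bb
      rw [act_one]
      have := hle1 (act v o) (act_fwd v o fwd_o)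
      calc -mink (act v o) o / 495 ≤ (C1 * act v o (Fin.last 26)) / 495 := by gcongr
        _ = _ := by ring
    have b4 : bb x y * bb y z ≤ (C1 / 495) ^ 2 * (495 / ε) * bb x z := by
      calc bb x y * bb y z ≤ (C1 / 495 * act u o (Fin.last 26)) *
            (C1 / 495 * act v o (Fin.last 26)) :=
            mul_le_mul b2 b3 (bb_pos _ _).le (by positivity)
        _ = (C1 / 495) ^ 2 / ε * (ε * (act u o (Fin.last 26) * act v o (Fin.last 26))) := by
            field_simp
        _ ≤ (C1 / 495) ^ 2 / ε * (- mink (act u o) (act v o)) := by gcongr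
        _ = _ := by rw [b1]; field_simp
    have hpos : 0 < (C1 / 495) ^ 2 * (495 / ε) := by positivity
    have h3 := Real.log_le_log (mul_pos (bb_pos _ _) (bb_pos _ _)) b4
    rw [Real.log_mul (bb_pos _ _).ne' (bb_pos _ _).ne', Real.log_mul hpos.ne' (bb_pos _ _).ne']
      at h3
    have h4 := le_abs_self C3
    have h5 := abs_nonneg C5
    have h6 := abs_nonneg (Real.log 4)
    show Real.log (bb x y) + Real.log (bb y z) ≤ Real.log (bb x z) + C
    linarith
  · intro R
    have hfin := finite_R (495 * Real.exp R)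
    obtain ⟨D, hD⟩ := (hfin.image L).bddAbove
    refine ⟨D, fun x y hxy => hD ⟨x⁻¹ * y, ?_, rfl⟩⟩
    show - mink (act (x⁻¹ * y) o) o ≤ 495 * Real.exp R
    have h1 : bb x y ≤ Real.exp R := by
      rw [← Real.exp_log (bb_pos x y)]
      exact Real.exp_le_exp.2 hxy
    have h2 : bb (x⁻¹ * y) 1 = bb x y := by
      have : bb (x⁻¹ * y) (x⁻¹ * x) = bb y x := bb_translate x⁻¹ y x
      rw [inv_mul_cancel] at this
      rw [this, bb_symm]
    rw [← h2] at h1
    unfold bb at h1
    rw [act_one, div_le_iff₀ (by norm_num)] at h1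
    linarith
  · intro x y hxy
    have h1 := hC5 (x⁻¹ * y) hxy
    have h2 : Lam 1 (x⁻¹ * y) = Lam x y := by
      unfold Lam
      have : bb (x⁻¹ * x) (x⁻¹ * y) = bb x y := bb_translate x⁻¹ x y
      rw [inv_mul_cancel] at this
      rw [this]
    rw [h2] at h1
    have h4 := le_abs_self C5
    have h5 := abs_nonneg C3
    have h6 := abs_nonneg (Real.log 4)
    linarith

end Pool.Agent.Helper613.DH
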