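import Pool.Agent.Helper613.DHDefs

set_option autoImplicit false

namespace Pool.Agent.Helper613.DH

open Matrix

variable {d : ℕ}

lemma mink_comm (x y : Fin (d + 1) → ℝ) : mink x y = mink y x := by
  unfold mink; simp only [mul_comm]

lemma mink_add_left (x y z : Fin (d + 1) → ℝ) : mink (x + y) z = mink x z + mink y z := by
  unfold mink; simp only [Pi.add_apply, add_mul, Finset.sum_add_distrib]; ring

lemma mink_smul_left (a : ℝ) (x z : Fin (d + 1) → ℝ) : mink (a • x) z = a * mink x z := by
  unfold mink; simp only [Pi.smul_apply, smul_eq_mul, mul_assoc, ← Finset.mul_sum]; ring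

lemma mink_add_right (x y z : Fin (d + 1) → ℝ) : mink x (y + z) = mink x y + mink x z := by
  rw [mink_comm, mink_add_left, mink_comm y, mink_comm z]

lemma mink_smul_right (a : ℝ) (x z : Fin (d + 1) → ℝ) : mink x (a • z) = a * mink x z := by
  rw [mink_comm, mink_smul_left, mink_comm]

lemma mink_neg_left (x z : Fin (d + 1) → ℝ) : mink (-x) z = - mink x z := by
  rw [← neg_one_smul ℝ x, mink_smul_left]; ring

lemma mink_neg_right (x z : Fin (d + 1) → ℝ) : mink x (-z) = - mink x z := by
  rw [mink_comm, mink_neg_left, mink_comm]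

lemma mink_sub_left (x y z : Fin (d + 1) → ℝ) : mink (x - y) z = mink x z - mink y z := by
  rw [sub_eq_add_neg, mink_add_left, mink_neg_left]; ring

lemma mink_sub_right (x y z : Fin (d + 1) → ℝ) : mink x (y - z) = mink x y - mink x z := by
  rw [sub_eq_add_neg, mink_add_right, mink_neg_right]; ring

lemma mink_zero_left (z : Fin (d + 1) → ℝ) : mink 0 z = 0 := by
  unfold mink; simp

/-- The Minkowski form as a bilinear map. -/
def minkL (d : ℕ) : (Fin (d + 1) → ℝ) →ₗ[ℝ] (Fin (d + 1) → ℝ) →ₗ[ℝ] ℝ :=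
  LinearMap.mk₂ ℝ mink mink_add_left mink_smul_left
    (fun x y z => mink_add_right x y z) (fun a x z => mink_smul_right a x z)

@[simp] lemma minkL_apply (x y : Fin (d + 1) → ℝ) : minkL d x y = mink x y := rfl

lemma mink_sum_left {ι : Type} (s : Finset ι) (f : ι → Fin (d + 1) → ℝ) (z : Fin (d + 1) → ℝ) :
    mink (∑ a ∈ s, f a) z = ∑ a ∈ s, mink (f a) z := by
  have h : minkL d (∑ a ∈ s, f a) z = ∑ a ∈ s, minkL d (f a) z := by
    rw [map_sum, LinearMap.sum_apply]
  exact h

lemma continuous_mink : Continuous fun p : (Fin (d + 1) → ℝ) × (Fin (d + 1) → ℝ) =>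
    mink p.1 p.2 := by
  unfold mink; fun_prop

lemma continuous_mink_left (y : Fin (d + 1) → ℝ) : Continuous fun x => mink x y := by
  unfold mink; fun_prop

lemma continuous_mink_self : Continuous fun x : Fin (d + 1) → ℝ => mink x x := by
  unfold mink; fun_prop

/-- forward causal vectors -/
def Fwd (x : Fin (d + 1) → ℝ) : Prop := mink x x ≤ 0 ∧ 0 < x (Fin.last d)

lemma sum_sq_eq (x : Fin (d + 1) → ℝ) :
    ∑ i : Fin d, x i.castSucc ^ 2 = mink x x + x (Fin.last d) ^ 2 := by
  unfold mink
  have : ∀ i : Fin d, x i.castSucc ^ 2 = x i.castSucc * x i.castSucc := fun i => sq _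
  simp only [this]; ring

lemma cs_sq (x y : Fin (d + 1) → ℝ) :
    (mink x y + x (Fin.last d) * y (Fin.last d)) ^ 2 ≤
      (mink x x + x (Fin.last d) ^ 2) * (mink y y + y (Fin.last d) ^ 2) := by
  rw [← sum_sq_eq, ← sum_sq_eq]
  have : mink x y + x (Fin.last d) * y (Fin.last d) =
      ∑ i : Fin d, x i.castSucc * y i.castSucc := by unfold mink; ring
  rw [this]
  exact Finset.sum_mul_sq_le_sq_mul_sq _ _ _

lemma mink_nonpos {x y : Fin (d + 1) → ℝ} (hx : Fwd x) (hy : Fwd y) : mink x y ≤ 0 := by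
  have h := cs_sq x y
  have h0 : 0 ≤ mink x x + x (Fin.last d) ^ 2 := by
    rw [← sum_sq_eq]; positivity
  have h0' : 0 ≤ mink y y + y (Fin.last d) ^ 2 := by
    rw [← sum_sq_eq]; positivity
  have h1 : (mink x x + x (Fin.last d) ^ 2) * (mink y y + y (Fin.last d) ^ 2) ≤
      x (Fin.last d) ^ 2 * y (Fin.last d) ^ 2 := by
    have := hx.1
    have := hy.1
    exact mul_le_mul (by linarith) (by linarith) h0' (by positivity)
  have h2 : (mink x y + x (Fin.last d) * y (Fin.last d)) ^ 2 ≤
      (x (Fin.last d) * y (Fin.last d)) ^ 2 := by rw [mul_pow]; linarith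
  have h3 := mul_pos hx.2 hy.2
  have := abs_le_of_sq_le_sq' h2 h3.le
  linarith [this.2]

lemma mink_neg {x y : Fin (d + 1) → ℝ} (hx : Fwd x) (hy : Fwd y) (hy' : mink y y < 0) :
    mink x y < 0 := by
  have h := cs_sq x y
  have h0 : 0 ≤ mink x x + x (Fin.last d) ^ 2 := by
    rw [← sum_sq_eq]; positivity
  have hx2 : 0 < x (Fin.last d) ^ 2 := by have := hx.2; positivity
  have h1 : (mink x x + x (Fin.last d) ^ 2) * (mink y y + y (Fin.last d) ^ 2) <
      x (Fin.last d) ^ 2 * y (Fin.last d) ^ 2 := by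
    have h4 := hx.1
    calc (mink x x + x (Fin.last d) ^ 2) * (mink y y + y (Fin.last d) ^ 2)
        ≤ x (Fin.last d) ^ 2 * (mink y y + y (Fin.last d) ^ 2) := by
          apply mul_le_mul_of_nonneg_right (by linarith)
          rw [← sum_sq_eq]; positivity
      _ < _ := by
          apply mul_lt_mul_of_pos_left (by linarith) hx2
  have h2 : (mink x y + x (Fin.last d) * y (Fin.last d)) ^ 2 <
      (x (Fin.last d) * y (Fin.last d)) ^ 2 := by rw [mul_pow]; linarith
  have h3 := mul_pos hx.2 hy.2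
  have := abs_lt_of_sq_lt_sq' h2 h3.le
  linarith [this.2]

lemma fwd_neg_of {x : Fin (d + 1) → ℝ} (hx : mink x x ≤ 0) (h : x (Fin.last d) < 0) :
    Fwd (-x) := by
  refine ⟨?_, by simpa using h⟩
  rw [mink_neg_left, mink_neg_right]; linarith

lemma eq_zero_of_causal {x : Fin (d + 1) → ℝ} (hx : mink x x ≤ 0) (h : x (Fin.last d) = 0) :
    x = 0 := by
  have h1 := sum_sq_eq x
  rw [h] at h1
  have h2 : ∑ i : Fin d, x i.castSucc ^ 2 = 0 :=
    le_antisymm (by rw [h1]; linarith) (Finset.sum_nonneg fun i _ => sq_nonneg _)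
  rw [Finset.sum_eq_zero_iff_of_nonneg (fun i _ => sq_nonneg _)] at h2
  funext i
  refine Fin.lastCases ?_ ?_ i
  · simpa using h
  · intro j
    have := h2 j (Finset.mem_univ j)
    simpa using this

lemma fwd_of {x y : Fin (d + 1) → ℝ} (hx : mink x x ≤ 0) (hy : Fwd y) (h : mink x y < 0) :
    Fwd x := by
  refine ⟨hx, ?_⟩
  rcases lt_trichotomy (x (Fin.last d)) 0 with h1 | h1 | h1
  · have := mink_nonpos (fwd_neg_of hx h1) hy
    rw [mink_neg_left] at this; linarith
  · have := eq_zero_of_causal hx h1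
    rw [this, mink_zero_left] at h; exact absurd h (lt_irrefl 0)
  · exact h1

lemma fwd_of_hyp {x : Fin (d + 1) → ℝ} (hx : x ∈ Hyp d) : Fwd x :=
  ⟨by rw [hx.1]; norm_num, hx.2⟩

/-- vectors orthogonal to a timelike vector are spacelike -/
lemma nonneg_of_orth {v w : Fin (d + 1) → ℝ} (hw : Fwd w) (hw' : mink w w < 0)
    (h : mink v w = 0) : 0 ≤ mink v v := by
  by_contra hneg
  push Not at hneg
  rcases lt_trichotomy (v (Fin.last d)) 0 with h1 | h1 | h1
  · have := mink_neg (fwd_neg_of hneg.le h1) hw hw'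
    rw [mink_neg_left] at this; linarith
  · have := eq_zero_of_causal hneg.le h1
    rw [this, mink_zero_left] at hneg; exact absurd hneg (lt_irrefl 0)
  · have := mink_neg ⟨hneg.le, h1⟩ hw hw'
    linarith

/-- the timelike basis vector -/
def eT (d : ℕ) : Fin (d + 1) → ℝ := Pi.single (Fin.last d) 1

lemma mink_eT (x : Fin (d + 1) → ℝ) : mink x (eT d) = - x (Fin.last d) := by
  unfold mink eT
  have : ∀ i : Fin d, (Pi.single (Fin.last d) (1 : ℝ) : Fin (d + 1) → ℝ) i.castSucc = 0 := by
    intro i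
    rw [Pi.single_apply, if_neg]
    exact (Fin.castSucc_lt_last i).ne
  simp [this]

lemma eT_last : eT d (Fin.last d) = 1 := by simp [eT]

/-- Comparison with the time coordinate. -/
lemma exists_eps {m : Fin (d + 1) → ℝ} (hm : Fwd m) (hm' : mink m m < 0) :
    ∃ ε : ℝ, 0 < ε ∧ ∀ x : Fin (d + 1) → ℝ, Fwd x → ε * x (Fin.last d) ≤ - mink x m := by
  have hml := hm.2
  refine ⟨- mink m m / (2 * m (Fin.last d)), div_pos (by linarith) (by linarith), ?_⟩
  intro x hx
  set ε := - mink m m / (2 * m (Fin.last d)) with hε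
  have hεpos : 0 < ε := div_pos (by linarith) (by linarith)
  have h2 : 2 * ε * m (Fin.last d) = - mink m m := by
    rw [hε]; field_simp
  have hlt : ε < m (Fin.last d) := by
    have h3 : 0 ≤ mink m m + m (Fin.last d) ^ 2 := by
      rw [← sum_sq_eq]; positivity
    nlinarith
  have hf : Fwd (m - ε • eT d) := by
    refine ⟨?_, ?_⟩
    · rw [mink_sub_left, mink_sub_right, mink_sub_right, mink_smul_left, mink_smul_right,
        mink_smul_left, mink_smul_right, mink_comm (eT d) m, mink_eT, mink_eT, eT_last]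
      nlinarith [sq_nonneg ε]
    · simp only [Pi.sub_apply, Pi.smul_apply, smul_eq_mul, eT_last]; linarith
  have := mink_nonpos hx hf
  rw [mink_sub_right, mink_smul_right, mink_eT] at this
  linarith

/-- Four point inequality (a Ptolemy inequality for the hyperbolic cosine of the distance). -/
lemma four_point {x y z w : Fin (d + 1) → ℝ} (hx : Fwd x) (hy : Fwd y) (hz : Fwd z) (hw : Fwd w)
    (hw' : mink w w < 0) :
    mink x y * mink z w ≤ 2 * (mink x z * mink y w) + 2 * (mink z y * mink x w) := by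
  have a := mink_neg hx hw hw'
  have b := mink_neg hy hw hw'
  have c := mink_neg hz hw hw'
  set A := - mink x w with hA
  set B := - mink y w with hB
  set C := - mink z w with hC
  have hApos : 0 < A := by linarith
  have hBpos : 0 < B := by linarith
  have hCpos : 0 < C := by linarith
  set X := (1 / A) • x with hX
  set Y := (1 / B) • y with hY
  set Z := (1 / C) • z with hZ
  have hXw : mink X w = -1 := by rw [hX, mink_smul_left]; field_simp; linarith
  have hYw : mink Y w = -1 := by rw [hY, mink_smul_left]; field_simp; linarith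
  have hZw : mink Z w = -1 := by rw [hZ, mink_smul_left]; field_simp; linarith
  have hXX : mink X X ≤ 0 := by
    rw [hX, mink_smul_left, mink_smul_right, ← mul_assoc]
    exact mul_nonpos_of_nonneg_of_nonpos (by positivity) hx.1
  have hYY : mink Y Y ≤ 0 := by
    rw [hY, mink_smul_left, mink_smul_right, ← mul_assoc]
    exact mul_nonpos_of_nonneg_of_nonpos (by positivity) hy.1
  have hZZ : mink Z Z ≤ 0 := by
    rw [hZ, mink_smul_left, mink_smul_right, ← mul_assoc]
    exact mul_nonpos_of_nonneg_of_nonpos (by positivity) hz.1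
  have h1 : 0 ≤ mink (X - (2 : ℝ) • Z + Y) (X - (2 : ℝ) • Z + Y) := by
    apply nonneg_of_orth hw hw'
    rw [mink_add_left, mink_sub_left, mink_smul_left (2 : ℝ) Z w, hXw, hYw, hZw]; norm_num
  have h2 : mink (X - (2 : ℝ) • Z + Y) (X - (2 : ℝ) • Z + Y) =
      mink X X + mink Y Y + 4 * mink Z Z + 2 * mink X Y - 4 * mink X Z - 4 * mink Z Y := by
    simp only [mink_add_left, mink_sub_left, mink_smul_left, mink_add_right, mink_sub_right,
      mink_smul_right]
    rw [mink_comm Y X, mink_comm Z X, mink_comm Y Z]; ring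
  rw [h2] at h1
  have h3 : - mink X Y ≤ - 2 * mink X Z - 2 * mink Z Y := by linarith
  have e1 : mink X Y = mink x y / (A * B) := by
    rw [hX, hY, mink_smul_left, mink_smul_right]; field_simp
  have e2 : mink X Z = mink x z / (A * C) := by
    rw [hX, hZ, mink_smul_left, mink_smul_right]; field_simp
  have e3 : mink Z Y = mink z y / (C * B) := by
    rw [hZ, hY, mink_smul_left, mink_smul_right]; field_simp
  rw [e1, e2, e3] at h3
  have h4 : - mink x y * C ≤ - 2 * mink x z * B - 2 * mink z y * A := by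
    have h5 := mul_le_mul_of_nonneg_right h3 (show 0 ≤ A * B * C by positivity)
    have e4 : -(mink x y / (A * B)) * (A * B * C) = - mink x y * C := by field_simp
    have e5 : (-2 * (mink x z / (A * C)) - 2 * (mink z y / (C * B))) * (A * B * C) =
        - 2 * mink x z * B - 2 * mink z y * A := by field_simp
    rwa [e4, e5] at h5
  have e6 : mink z w = - C := by rw [hC]; ring
  have e7 : mink y w = - B := by rw [hB]; ring
  have e8 : mink x w = - A := by rw [hA]; ring
  rw [e6, e7, e8]
  linarith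

/-- distinct points of the projective closed ball -/
lemma sum_sq_sub {x y : Fin (d + 1) → ℝ} (hx : x (Fin.last d) = 1) (hy : y (Fin.last d) = 1) :
    ∑ i : Fin d, (x i.castSucc - y i.castSucc) ^ 2 = mink x x + mink y y - 2 * mink x y := by
  unfold mink
  rw [hx, hy]
  have : ∀ i : Fin d, (x i.castSucc - y i.castSucc) ^ 2 =
      x i.castSucc * x i.castSucc + y i.castSucc * y i.castSucc -
        2 * (x i.castSucc * y i.castSucc) := fun i => by ring
  simp only [this, Finset.sum_sub_distrib, Finset.sum_add_distrib, ← Finset.mul_sum]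
  ring

lemma eq_of_mink_zero {x y : Fin (d + 1) → ℝ} (hx : x (Fin.last d) = 1) (hy : y (Fin.last d) = 1)
    (hx' : mink x x ≤ 0) (hy' : mink y y ≤ 0) (h : 0 ≤ mink x y) : x = y := by
  have h1 := sum_sq_sub hx hy
  have h2 : ∑ i : Fin d, (x i.castSucc - y i.castSucc) ^ 2 = 0 :=
    le_antisymm (by rw [h1]; linarith) (Finset.sum_nonneg fun i _ => sq_nonneg _)
  rw [Finset.sum_eq_zero_iff_of_nonneg (fun i _ => sq_nonneg _)] at h2
  funext i
  refine Fin.lastCases ?_ ?_ i
  · rw [hx, hy]
  · intro j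
    have := h2 j (Finset.mem_univ j)
    have := pow_eq_zero_iff (two_ne_zero) |>.1 this
    linarith

/-- The closed ball model. -/
def Ball (d : ℕ) : Set (Fin (d + 1) → ℝ) := {x | x (Fin.last d) = 1 ∧ mink x x ≤ 0}

lemma fwd_of_ball {x : Fin (d + 1) → ℝ} (hx : x ∈ Ball d) : Fwd x :=
  ⟨hx.2, by rw [hx.1]; norm_num⟩

lemma isClosed_Ball : IsClosed (Ball d) :=
  (isClosed_eq (continuous_apply _) continuous_const).inter
    (isClosed_le continuous_mink_self continuous_const)

lemma abs_le_of_causal {x : Fin (d + 1) → ℝ} {R : ℝ} (hR : 0 ≤ R) (h1 : mink x x ≤ 0)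
    (h2 : |x (Fin.last d)| ≤ R) (i : Fin (d + 1)) : |x i| ≤ R := by
  refine Fin.lastCases h2 ?_ i
  intro j
  have h3 := sum_sq_eq x
  have h4 : x j.castSucc ^ 2 ≤ ∑ i : Fin d, x i.castSucc ^ 2 :=
    Finset.single_le_sum (f := fun i : Fin d => x i.castSucc ^ 2)
      (fun i _ => sq_nonneg _) (Finset.mem_univ j)
  have h5 : x (Fin.last d) ^ 2 ≤ R ^ 2 := by
    rw [← sq_abs]; exact pow_le_pow_left₀ (abs_nonneg _) h2 2
  exact abs_le_of_sq_le_sq (by linarith) hR

lemma isCompact_Ball : IsCompact (Ball d) := by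
  apply Metric.isCompact_of_isClosed_isBounded isClosed_Ball
  apply (Metric.isBounded_closedBall (x := (0 : Fin (d + 1) → ℝ)) (r := 1)).subset
  intro x hx
  rw [mem_closedBall_zero_iff, pi_norm_le_iff_of_nonneg zero_le_one]
  intro i
  rw [Real.norm_eq_abs]
  exact abs_le_of_causal zero_le_one hx.2 (by rw [hx.1]; norm_num) i

/-- normalisation to the closed ball model -/
noncomputable def nrm (x : Fin (d + 1) → ℝ) : Fin (d + 1) → ℝ := (x (Fin.last d))⁻¹ • x

lemma nrm_mem {x : Fin (d + 1) → ℝ} (hx : Fwd x) : nrm x ∈ Ball d := by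
  have h := hx.2
  refine ⟨?_, ?_⟩
  · simp only [nrm, Pi.smul_apply, smul_eq_mul]; field_simp
  · rw [nrm, mink_smul_left, mink_smul_right, ← mul_assoc]
    exact mul_nonpos_of_nonneg_of_nonpos (by positivity) hx.1

lemma mink_nrm_left (x y : Fin (d + 1) → ℝ) : mink (nrm x) y = (x (Fin.last d))⁻¹ * mink x y := by
  rw [nrm, mink_smul_left]

end Pool.Agent.Helper613.DH
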