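import Pool.Agent.Helper613.DHVec

set_option autoImplicit false

namespace Pool.Agent.Helper613.DH

open Module

/-- syllable length -/
noncomputable abbrev L (w : W) : ℕ := wordLength Syl w

def Neg (i : Fin 5) (x : Fin (26 + 1) → ℝ) : Prop := ∀ c, mink x (A i c) < 0

def BMin (i : Fin 5) (w : W) : Prop := ∀ c, L w ≤ L (g i c * w)

lemma L_g (i : Fin 5) (c : Fin 3) : L (g i c) ≤ 1 := wl_mem_le (g_mem i c)

lemma L_mul (u v : W) : L (u * v) ≤ L u + L v := wl_mul_le Syl_closure u v

lemma L_g_mul (i : Fin 5) (c : Fin 3) (w : W) : L (g i c * w) ≤ L w + 1 := by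
  have h1 := L_mul (g i c) w
  have h2 := L_g i c
  omega

lemma L_g_mul' (i : Fin 5) (c : Fin 3) (w : W) : L w ≤ L (g i c * w) + 1 := by
  have h := L_g_mul i c (g i c * w)
  rwa [← mul_assoc, g_sq, one_mul] at h

lemma fin3_aux : ∀ c c' : Fin 3, -(-(c' + c) + c) = c' := by decide
lemma fin3_aux2 : ∀ c c' : Fin 3, c ≠ c' → -(c' + c) ≠ c := by decide

/-- the tail of a geodesic word is reduced for its first block -/
lemma bmin_tail {j : Fin 5} {c : Fin 3} {w' : W} (h : L (g j c * w') = L w' + 1) : BMin j w' := by
  intro c'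
  by_cases hc : c = c'
  · subst hc; omega
  · have e : g j (-(c' + c)) * (g j c * w') = g j c' * w' := by
      rw [← mul_assoc, g_mul, if_neg (fin3_aux2 c c' hc), fin3_aux]
    have h1 := L_g_mul' j (-(c' + c)) (g j c * w')
    rw [e] at h1
    omega

theorem ping (n : ℕ) : ∀ w : W, L w = n → ∀ i, BMin i w → Neg i (act w o) := by
  induction n with
  | zero =>
    intro w hw i _ c
    rw [wl_eq_zero Syl_closure hw, act_one, mink_oA]
    norm_num
  | succ n ih =>
    intro w hw i hmin
    obtain ⟨s, ⟨⟨j, c⟩, rfl⟩, w', rfl, hw'⟩ := wl_succ Syl_closure Syl_inv hw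
    simp only at hw hmin ⊢
    have hji : j ≠ i := by
      rintro rfl
      have h1 := hmin c
      rw [← mul_assoc, g_sq, one_mul] at h1
      have : L (g j c * w') = n + 1 := hw
      have : L w' = n := hw'
      omega
    cases hfar : far j i with
    | true =>
      have h1 : BMin j w' := bmin_tail (c := c) (by
        have : L (g j c * w') = n + 1 := hw
        have : L w' = n := hw'
        omega)
      have h2 := ih w' hw' j h1 c
      have h3 := wall_flip j c (act w' o)
      intro c'
      rw [act_mul]
      exact far_walls hfar c c' (act_g_fwd j c (act_fwd w' o fwd_o)) (by rw [h3]; linarith)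
    | false =>
      have h1 : BMin i w' := by
        intro c'
        have h2 := hmin c'
        have hfar' : far i j = false := by rw [far_symm]; exact hfar
        have e : g i c' * (g j c * w') = g j c * (g i c' * w') := by
          rw [← mul_assoc, g_comm hfar', mul_assoc]
        rw [e] at h2
        have h3 := L_g_mul j c (g i c' * w')
        have : L (g j c * w') = n + 1 := hw
        have : L w' = n := hw'
        omega
      intro c'
      rw [act_mul, near_fix_A hji hfar]
      exact ih w' hw' i h1 c'

theorem ping' {w : W} {i : Fin 5} (h : BMin i w) : Neg i (act w o) := ping (L w) w rfl i h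

theorem outside {w : W} (hw : w ≠ 1) : ∃ i c, 0 < mink (act w o) (A i c) := by
  cases hn : L w with
  | zero => exact absurd (wl_eq_zero Syl_closure hn) hw
  | succ n =>
    obtain ⟨s, ⟨⟨j, c⟩, rfl⟩, w', rfl, hw'⟩ := wl_succ Syl_closure Syl_inv hn
    simp only at hn hw ⊢
    have h1 : BMin j w' := bmin_tail (c := c) (by
        have : L (g j c * w') = n + 1 := hn
        have : L w' = n := hw'
        omega)
    refine ⟨j, c, ?_⟩
    rw [act_mul, wall_flip]
    have := ping' h1 c
    linarith

lemma act_o_inj {w : W} (h : act w o = o) : w = 1 := by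
  by_contra hw
  obtain ⟨i, c, hic⟩ := outside hw
  rw [h, mink_oA] at hic
  norm_num at hic

lemma compat_neg {u v : W} (h : L (u⁻¹ * v) = L u + L v) (i : Fin 5) :
    Neg i (act u o) ∨ Neg i (act v o) := by
  by_cases hu : BMin i u
  · exact Or.inl (ping' hu)
  · by_cases hv : BMin i v
    · exact Or.inr (ping' hv)
    · exfalso
      unfold BMin at hu hv
      push Not at hu hv
      obtain ⟨c, hc⟩ := hu
      obtain ⟨c', hc'⟩ := hv
      have e : u⁻¹ * v = (g i c * u)⁻¹ * ((g i c * g i c') * (g i c' * v)) := by
        rw [mul_inv_rev, g_inv]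
        have h1 : g i c * (g i c * g i c' * (g i c' * v)) = v := by
          rw [← mul_assoc, ← mul_assoc, ← mul_assoc, g_sq, one_mul, g_sq, one_mul]
        rw [mul_assoc, h1]
      have h1 := L_mul (g i c * u)⁻¹ ((g i c * g i c') * (g i c' * v))
      have h2 := L_mul (g i c * g i c') (g i c' * v)
      have h3 : L (g i c * g i c') ≤ 1 := by
        rw [g_mul]
        split_ifs
        · rw [show L (1 : W) = 0 from wl_one]; omega
        · exact L_g _ _
      have h4 : L (g i c * u)⁻¹ = L (g i c * u) := wl_inv Syl_closure _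
      rw [← e] at h1
      have : L (u⁻¹ * v) = L u + L v := h
      omega

end Pool.Agent.Helper613.DH
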