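import Pool.Agent.Helper613.DHGroup

set_option autoImplicit false

namespace Pool.Agent.Helper613.DH

/-- right-angled Coxeter matrices -/
def RA {B : Type} (M : CoxeterMatrix B) : Prop := ∀ s t, s ≠ t → M s t = 0 ∨ M s t = 2

lemma pentM_RA : RA pentM := by
  intro s t hst
  rw [pentM_apply, if_neg hst]
  split_ifs <;> simp

section generic

variable {B : Type} [DecidableEq B] {M : CoxeterMatrix B}

lemma simple_sq (s : B) : M.simple s * M.simple s = 1 :=
  M.toCoxeterSystem.simple_mul_simple_self s

lemma simple_comm (h : RA M) {s t : B} (hst : M s t ≠ 0) :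
    Commute (M.simple s) (M.simple t) := by
  by_cases he : s = t
  · rw [he]
  · have h2 : M s t = 2 := (h s t he).resolve_left hst
    have h1 : (M.simple s * M.simple t) ^ M s t = 1 :=
      M.toCoxeterSystem.simple_mul_simple_pow s t
    rw [h2, pow_two] at h1
    have h2 := eq_inv_of_mul_eq_one_left h1
    rw [mul_inv_rev] at h2
    have e1 : (M.simple s)⁻¹ = M.simple s := by
      rw [inv_eq_iff_mul_eq_one]; exact simple_sq s
    have e2 : (M.simple t)⁻¹ = M.simple t := by
      rw [inv_eq_iff_mul_eq_one]; exact simple_sq t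
    rw [e1, e2] at h2
    exact h2

lemma zmod2_add_self {C : Type} (v : C → ZMod 2) : v + v = 0 := by
  funext c
  exact CharTwo.add_self_eq_zero (v c)

lemma ab_liftable (h : RA M) :
    M.IsLiftable (fun s : B => Multiplicative.ofAdd (Pi.single s (1 : ZMod 2) : B → ZMod 2)) := by
  intro s t
  by_cases hst : s = t
  · subst hst
    rw [M.diagonal, pow_one, ← ofAdd_add, zmod2_add_self, ofAdd_zero]
  · rcases h s t hst with h0 | h0
    · rw [h0, pow_zero]
    · rw [h0, pow_two, ← ofAdd_add, ← ofAdd_add, zmod2_add_self, ofAdd_zero]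

/-- the mod two abelianisation -/
noncomputable def abM (h : RA M) : M.Group →* Multiplicative (B → ZMod 2) :=
  M.toCoxeterSystem.lift ⟨_, ab_liftable h⟩

noncomputable def ab (h : RA M) (w : M.Group) : B → ZMod 2 := (abM h w).toAdd

lemma ab_simple (h : RA M) (s : B) : ab h (M.simple s) = Pi.single s 1 := by
  unfold ab abM
  rw [show M.simple s = M.toCoxeterSystem.simple s from rfl,
    M.toCoxeterSystem.lift_apply_simple (ab_liftable h) s]
  rfl

lemma ab_one (h : RA M) : ab h (1 : M.Group) = 0 := by
  unfold ab; rw [map_one]; rfl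

lemma ab_mul (h : RA M) (w w' : M.Group) : ab h (w * w') = ab h w + ab h w' := by
  unfold ab; rw [map_mul]; rfl

/-- clique-supported vectors -/
def CS (M : CoxeterMatrix B) (v : B → ZMod 2) : Prop := ∀ s t, M s t = 0 → v s = 0 ∨ v t = 0

/-- the infinite dihedral retraction -/
noncomputable def dihF (s t : B) (u : B) : Equiv.Perm ℤ :=
  if u = s then Equiv.subLeft 0 else if u = t then Equiv.subLeft 1 else 1

lemma subLeft_sq (b : ℤ) : (Equiv.subLeft b : Equiv.Perm ℤ) * Equiv.subLeft b = 1 := by
  ext x
  simp [Equiv.Perm.mul_apply]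

lemma dihF_sq (s t u : B) : dihF s t u * dihF s t u = 1 := by
  unfold dihF
  split_ifs
  · exact subLeft_sq 0
  · exact subLeft_sq 1
  · exact one_mul 1

lemma dih_liftable (h : RA M) {s t : B} (hst : M s t = 0) : M.IsLiftable (dihF s t) := by
  intro u v
  by_cases huv : u = v
  · subst huv
    rw [M.diagonal, pow_one, dihF_sq]
  · rcases h u v huv with h0 | h0
    · rw [h0, pow_zero]
    · rw [h0, pow_two]
      have hts : M t s = 0 := by rw [M.symmetric]; exact hst
      have : dihF s t u = 1 ∨ dihF s t v = 1 := by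
        by_contra hc
        push Not at hc
        have hu : u = s ∨ u = t := by
          by_contra h1
          push Not at h1
          exact hc.1 (by unfold dihF; rw [if_neg h1.1, if_neg h1.2])
        have hv : v = s ∨ v = t := by
          by_contra h1
          push Not at h1
          exact hc.2 (by unfold dihF; rw [if_neg h1.1, if_neg h1.2])
        rcases hu with rfl | rfl <;> rcases hv with rfl | rfl
        · exact huv rfl
        · omega
        · omega
        · exact huv rfl
      rcases this with h1 | h1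
      · rw [h1, one_mul, dihF_sq]
      · rw [h1, mul_one, dihF_sq]

noncomputable def dih (h : RA M) {s t : B} (hst : M s t = 0) : M.Group →* Equiv.Perm ℤ :=
  M.toCoxeterSystem.lift ⟨_, dih_liftable h hst⟩

lemma dih_simple (h : RA M) {s t : B} (hst : M s t = 0) (u : B) :
    dih h hst (M.simple u) = dihF s t u :=
  M.toCoxeterSystem.lift_apply_simple (dih_liftable h hst) u

lemma ne_of_zero {s t : B} (hst : M s t = 0) : s ≠ t := by
  rintro rfl
  rw [M.diagonal] at hst
  exact one_ne_zero hst

lemma dih_inv (h : RA M) {s t : B} (hst : M s t = 0) (w : M.Group) :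
    (∃ b : ℤ, (∀ x, dih h hst w x = x + b) ∧ ab h w s = b ∧ ab h w t = b) ∨
    (∃ b : ℤ, (∀ x, dih h hst w x = b - x) ∧ ab h w s = 1 + b ∧ ab h w t = b) := by
  have hne := ne_of_zero hst
  have h2 : (2 : ZMod 2) = 0 := rfl
  refine M.toCoxeterSystem.simple_induction_left (p := fun w =>
    (∃ b : ℤ, (∀ x, dih h hst w x = x + b) ∧ ab h w s = b ∧ ab h w t = b) ∨
    (∃ b : ℤ, (∀ x, dih h hst w x = b - x) ∧ ab h w s = 1 + b ∧ ab h w t = b)) w ?_ ?_
  · left
    refine ⟨0, ?_, ?_, ?_⟩
    · intro x; rw [map_one]; simp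
    · rw [ab_one]; simp
    · rw [ab_one]; simp
  · intro w u ih
    have e0 : M.toCoxeterSystem.simple u = M.simple u := rfl
    rw [e0]
    have e1 : ∀ x, dih h hst (M.simple u * w) x = dihF s t u (dih h hst w x) := by
      intro x
      rw [map_mul, dih_simple]; rfl
    have e2 : ∀ r, ab h (M.simple u * w) r = (Pi.single u 1 : B → ZMod 2) r + ab h w r := by
      intro r
      rw [ab_mul, ab_simple]; rfl
    simp only [e1, e2]
    by_cases hus : u = s
    · subst hus
      have e3 : ∀ z : ℤ, dihF u t u z = 0 - z := by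
        intro z; unfold dihF; rw [if_pos rfl]; rfl
      simp only [e3]
      rw [Pi.single_eq_same, Pi.single_eq_of_ne (Ne.symm hne)]
      rcases ih with ⟨b, i1, i2, i3⟩ | ⟨b, i1, i2, i3⟩
      · right
        refine ⟨-b, ?_, ?_, ?_⟩
        · intro x; rw [i1]; ring
        · rw [i2]; push_cast; linear_combination (b : ZMod 2) * h2
        · rw [i3]; push_cast; linear_combination (b : ZMod 2) * h2
      · left
        refine ⟨-b, ?_, ?_, ?_⟩
        · intro x; rw [i1]; ring
        · rw [i2]; push_cast; linear_combination ((b : ZMod 2) + 1) * h2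
        · rw [i3]; push_cast; linear_combination (b : ZMod 2) * h2
    · by_cases hut : u = t
      · subst hut
        have e3 : ∀ z : ℤ, dihF s u u z = 1 - z := by
          intro z; unfold dihF; rw [if_neg hus, if_pos rfl]; rfl
        simp only [e3]
        rw [Pi.single_eq_same, Pi.single_eq_of_ne hne]
        rcases ih with ⟨b, i1, i2, i3⟩ | ⟨b, i1, i2, i3⟩
        · right
          refine ⟨1 - b, ?_, ?_, ?_⟩
          · intro x; rw [i1]; ring
          · rw [i2]; push_cast; linear_combination ((b : ZMod 2) - 1) * h2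
          · rw [i3]; push_cast; linear_combination (b : ZMod 2) * h2
        · left
          refine ⟨1 - b, ?_, ?_, ?_⟩
          · intro x; rw [i1]; ring
          · rw [i2]; push_cast; linear_combination (b : ZMod 2) * h2
          · rw [i3]; push_cast; linear_combination (b : ZMod 2) * h2
      · have e3 : ∀ z : ℤ, dihF s t u z = z := by
          intro z; unfold dihF; rw [if_neg hus, if_neg hut]; rfl
        simp only [e3]
        rw [Pi.single_eq_of_ne (Ne.symm hus), Pi.single_eq_of_ne (Ne.symm hut), zero_add, zero_add]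
        exact ih

/-- involutions have clique support in the abelianisation -/
lemma cs_of_sq (h : RA M) {w : M.Group} (hw : w * w = 1) : CS M (ab h w) := by
  intro s t hst
  rcases dih_inv h hst w with ⟨b, i1, i2, i3⟩ | ⟨b, i1, i2, i3⟩
  · left
    have h1 : dih h hst (w * w) 0 = 0 := by rw [hw, map_one]; rfl
    rw [map_mul] at h1
    have h2 : dih h hst w (dih h hst w 0) = 0 := h1
    rw [i1, i1] at h2
    have h3 : b = 0 := by omega
    rw [i2, h3]; simp
  · rw [i2, i3]
    have : ∀ z : ZMod 2, 1 + z = 0 ∨ z = 0 := by decide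
    exact this _

/-- clique vectors lift to involutions -/
lemma exists_lift [Fintype B] (h : RA M) (v : B → ZMod 2) (hv : CS M v) :
    ∃ w : M.Group, w * w = 1 ∧ ab h w = v := by
  have key : ∀ S : Finset B, (∀ s ∈ S, ∀ t ∈ S, M s t ≠ 0) →
      ∃ w : M.Group, w * w = 1 ∧ ab h w = (fun b => if b ∈ S then 1 else 0) ∧
        ∀ t, (∀ s ∈ S, M t s ≠ 0) → Commute (M.simple t) w := by
    intro S
    induction S using Finset.induction_on with
    | empty =>
      intro _
      refine ⟨1, one_mul 1, ?_, fun t _ => Commute.one_right _⟩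
      rw [ab_one]; rfl
    | insert a S ha ih =>
      intro hS
      obtain ⟨w, h1, h2, h3⟩ := ih (fun s hs t ht =>
        hS s (Finset.mem_insert_of_mem hs) t (Finset.mem_insert_of_mem ht))
      have hc : Commute (M.simple a) w := h3 a (fun s hs =>
        hS a (Finset.mem_insert_self a S) s (Finset.mem_insert_of_mem hs))
      refine ⟨M.simple a * w, ?_, ?_, ?_⟩
      · rw [hc.symm.mul_mul_mul_comm, simple_sq, h1, one_mul]
      · rw [ab_mul, ab_simple, h2]
        funext b
        by_cases hb : b = a
        · subst hb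
          simp [ha]
        · simp [hb, Pi.single_apply]
      · intro t ht
        apply Commute.mul_right
        · exact simple_comm h (ht a (Finset.mem_insert_self a S))
        · exact h3 t (fun s hs => ht s (Finset.mem_insert_of_mem hs))
  obtain ⟨w, h1, h2, -⟩ := key (Finset.univ.filter fun b => v b ≠ 0) (by
    intro s hs t ht hst
    rw [Finset.mem_filter] at hs ht
    rcases hv s t hst with h0 | h0
    · exact hs.2 h0
    · exact ht.2 h0)
  refine ⟨w, h1, ?_⟩
  rw [h2]
  funext b
  simp only [Finset.mem_filter, Finset.mem_univ, true_and]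
  have : ∀ z : ZMod 2, (if z ≠ 0 then (1 : ZMod 2) else 0) = z := by decide
  exact this (v b)

end generic

section iso

variable {B B' : Type} [DecidableEq B] [DecidableEq B'] [Fintype B] [Fintype B']
variable {M : CoxeterMatrix B} {M' : CoxeterMatrix B'}

/-- the induced map on abelianisations -/
noncomputable def indL (h' : RA M') (φ : M.Group ≃* M'.Group) :
    (B → ZMod 2) →ₗ[ZMod 2] (B' → ZMod 2) :=
  Fintype.linearCombination (ZMod 2) (fun p => ab h' (φ (M.simple p)))

lemma indL_single (h' : RA M') (φ : M.Group ≃* M'.Group) (p : B) :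
    indL h' φ (Pi.single p 1) = ab h' (φ (M.simple p)) := by
  unfold indL
  rw [Fintype.linearCombination_apply_single, one_smul]

lemma indL_ab (h : RA M) (h' : RA M') (φ : M.Group ≃* M'.Group) (w : M.Group) :
    indL h' φ (ab h w) = ab h' (φ w) := by
  refine M.toCoxeterSystem.simple_induction_left (p := fun w =>
    indL h' φ (ab h w) = ab h' (φ w)) w ?_ ?_
  · rw [ab_one, map_zero, map_one, ab_one]
  · intro w u ih
    have e0 : M.toCoxeterSystem.simple u = M.simple u := rfl
    rw [e0, ab_mul, map_add, ih, ab_simple, indL_single, map_mul, ab_mul]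

lemma indL_inv (h : RA M) (h' : RA M') (φ : M.Group ≃* M'.Group) (v : B → ZMod 2) :
    indL h φ.symm (indL h' φ v) = v := by
  have : (indL h φ.symm).comp (indL h' φ) = LinearMap.id := by
    refine LinearMap.pi_ext' fun p => ?_
    refine LinearMap.ext_ring ?_
    simp only [LinearMap.comp_apply, LinearMap.single_apply, LinearMap.id_apply]
    rw [indL_single, indL_ab h' h, MulEquiv.symm_apply_apply, ab_simple]
  exact congrArg (fun T : (B → ZMod 2) →ₗ[ZMod 2] (B → ZMod 2) => T v) this

lemma indL_cs (h : RA M) (h' : RA M') (φ : M.Group ≃* M'.Group) {v : B → ZMod 2}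
    (hv : CS M v) : CS M' (indL h' φ v) := by
  obtain ⟨w, h1, h2⟩ := exists_lift h v hv
  rw [← h2, indL_ab]
  apply cs_of_sq
  rw [← map_mul, h1, map_one]

end iso

lemma pentM_zero {p q : Fin 5 × Fin 2} (h : far p.1 q.1 = true) : pentM p q = 0 := by
  rw [pentM_apply, if_neg, if_pos h]
  rintro rfl
  rw [far_irrefl] at h
  exact absurd h (by simp)

lemma far_of_zero {p q : Fin 5 × Fin 2} (h : pentM p q = 0) : far p.1 q.1 = true := by
  rw [pentM_apply] at h
  by_contra hc
  split_ifs at h

/-- support in the `i`-th maximal clique -/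
def inQ (i : Fin 5) (v : Fin 5 × Fin 2 → ZMod 2) : Prop :=
  ∀ p, v p ≠ 0 → p.1 = i ∨ p.1 = i + 1

lemma cs_of_inQ {i : Fin 5} {v : Fin 5 × Fin 2 → ZMod 2} (h : inQ i v) : CS pentM v := by
  intro p q hpq
  by_contra hc
  push Not at hc
  have h1 := h p hc.1
  have h2 := h q hc.2
  have h3 := far_of_zero hpq
  have : ∀ i a b : Fin 5, (a = i ∨ a = i + 1) → (b = i ∨ b = i + 1) → far a b = false := by decide
  rw [this i p.1 q.1 h1 h2] at h3
  exact absurd h3 (by simp)

lemma inQ_add {i : Fin 5} {u v : Fin 5 × Fin 2 → ZMod 2} (hu : inQ i u) (hv : inQ i v) :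
    inQ i (u + v) := by
  intro p hp
  by_cases h1 : u p = 0
  · apply hv
    intro h2
    apply hp
    rw [Pi.add_apply, h1, h2, add_zero]
  · exact hu p h1

section linear

variable {B' : Type} {M' : CoxeterMatrix B'}
variable (L : (Fin 5 × Fin 2 → ZMod 2) →ₗ[ZMod 2] (B' → ZMod 2))
variable (L' : (B' → ZMod 2) →ₗ[ZMod 2] (Fin 5 × Fin 2 → ZMod 2))

/-- the image cliques -/
def cl (i : Fin 5) : Set B' := {s | ∃ v, inQ i v ∧ L v s ≠ 0}

variable {L L'}

lemma cl_clique (hL : ∀ v, CS pentM v → CS M' (L v)) {i : Fin 5} {s t : B'} (hs : s ∈ cl L i)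
    (ht : t ∈ cl L i) : M' s t ≠ 0 := by
  intro hst
  obtain ⟨v, hv, hvs⟩ := hs
  obtain ⟨u, hu, hut⟩ := ht
  have h1 : L v t = 0 := (hL v (cs_of_inQ hv) s t hst).resolve_left hvs
  have h2 : L u s = 0 := (hL u (cs_of_inQ hu) s t hst).resolve_right hut
  have h3 := hL (v + u) (cs_of_inQ (inQ_add hv hu)) s t hst
  rw [map_add, Pi.add_apply, Pi.add_apply, h1, h2, add_zero, zero_add] at h3
  rcases h3 with h3 | h3
  · exact hvs h3
  · exact hut h3

lemma back (hL : ∀ v, CS pentM v → CS M' (L v)) (hL' : ∀ v, CS M' v → CS pentM (L' v))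
    (hLL : ∀ v, L' (L v) = v) (hLL' : ∀ v, L (L' v) = v) {i : Fin 5} {v' : B' → ZMod 2}
    (hv : ∀ s, v' s ≠ 0 → s ∈ cl L i) : inQ i (L' v') := by
  have hcs : ∀ u' : B' → ZMod 2, (∀ s, u' s ≠ 0 → s ∈ cl L i) → CS M' u' := by
    intro u' hu' s t hst
    by_contra hc
    push Not at hc
    exact cl_clique hL (hu' s hc.1) (hu' t hc.2) hst
  intro p hp
  by_contra hc
  push Not at hc
  have hex : ∀ a i : Fin 5, a ≠ i → a ≠ i + 1 → ∃ b : Fin 5, (b = i ∨ b = i + 1) ∧
    far a b = true := by decide
  obtain ⟨b, hb, hfar⟩ := hex p.1 i hc.1 hc.2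
  set q : Fin 5 × Fin 2 := (b, 0) with hq
  have hpq : pentM p q = 0 := pentM_zero hfar
  have h1 : L' v' q = 0 := (hL' v' (hcs v' hv) p q hpq).resolve_left hp
  have hQ : inQ i (Pi.single q 1) := by
    intro r hr
    rw [Pi.single_apply] at hr
    split_ifs at hr with h2
    · rw [h2]; exact hb
    · exact absurd rfl hr
  have h2 : CS M' (v' + L (Pi.single q 1)) := by
    apply hcs
    intro s hs
    by_cases h3 : v' s = 0
    · refine ⟨Pi.single q 1, hQ, ?_⟩
      intro h4
      apply hs
      rw [Pi.add_apply, h3, h4, add_zero]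
    · exact hv s h3
  have h3 := hL' _ h2 p q hpq
  rw [map_add, hLL, Pi.add_apply, Pi.add_apply, h1, Pi.single_eq_same, zero_add] at h3
  have hne : p ≠ q := by
    rintro rfl
    exact hp h1
  rw [Pi.single_eq_of_ne hne, add_zero] at h3
  rcases h3 with h3 | h3
  · exact hp h3
  · exact one_ne_zero h3

lemma two_elts {s : Set B'} {u v : B' → ZMod 2} (hu : ∀ x, u x ≠ 0 → x ∈ s)
    (hv : ∀ x, v x ≠ 0 → x ∈ s) (hu0 : u ≠ 0) (hv0 : v ≠ 0) (huv : u ≠ v) :
    ∃ k : Fin 2 → B', k 0 ≠ k 1 ∧ ∀ a, k a ∈ s := by
  obtain ⟨x, hx⟩ := Function.ne_iff.1 hu0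
  obtain ⟨y, hy⟩ := Function.ne_iff.1 hv0
  by_cases hxy : x = y
  · subst hxy
    obtain ⟨z, hz⟩ := Function.ne_iff.1 huv
    have hzs : z ∈ s := by
      by_cases h : u z = 0
      · apply hv
        intro h2; apply hz; rw [h, h2]
      · exact hu z h
    have hzx : x ≠ z := by
      rintro rfl
      have : ∀ a b : ZMod 2, a ≠ 0 → b ≠ 0 → a = b := by decide
      exact hz (this _ _ hx hy)
    refine ⟨![x, z], hzx, ?_⟩
    intro a
    fin_cases a
    · exact hu x hx
    · exact hzs
  · refine ⟨![x, y], hxy, ?_⟩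
    intro a
    fin_cases a
    · exact hu x hx
    · exact hv y hy

variable [DecidableEq B']

theorem embed (hRA : RA M') (hL : ∀ v, CS pentM v → CS M' (L v))
    (hL' : ∀ v, CS M' v → CS pentM (L' v))
    (hLL : ∀ v, L' (L v) = v) (hLL' : ∀ v, L (L' v) = v) :
    ∃ k : Fin 5 × Fin 2 → B', ∀ p q, M' (k p) (k q) = pentM p q := by
  have h1 : ∀ i : Fin 5, ∃ k : Fin 2 → B', k 0 ≠ k 1 ∧ ∀ a, k a ∈ cl L i ∩ cl L (i + 4) := by
    intro i
    have hblk : ∀ a : Fin 2, inQ i (Pi.single ((i, a) : Fin 5 × Fin 2) 1) ∧
        inQ (i + 4) (Pi.single ((i, a) : Fin 5 × Fin 2) 1) := by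
      intro a
      refine ⟨?_, ?_⟩
      · intro r hr
        rw [Pi.single_apply] at hr
        split_ifs at hr with h2
        · rw [h2]; left; rfl
        · exact absurd rfl hr
      · intro r hr
        rw [Pi.single_apply] at hr
        split_ifs at hr with h2
        · rw [h2]; right
          have h5 : ∀ j : Fin 5, j = j + 4 + 1 := by decide
          exact h5 i
        · exact absurd rfl hr
    have hinj : ∀ u v, L u = L v → u = v := by
      intro u v h
      rw [← hLL u, h, hLL]
    have hmem : ∀ a : Fin 2, ∀ x, L (Pi.single ((i, a) : Fin 5 × Fin 2) 1) x ≠ 0 →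
        x ∈ cl L i ∩ cl L (i + 4) := by
      intro a x hx
      exact ⟨⟨_, (hblk a).1, hx⟩, ⟨_, (hblk a).2, hx⟩⟩
    refine two_elts (hmem 0) (hmem 1) ?_ ?_ ?_
    · intro h
      have := hinj _ 0 (by rw [h, map_zero])
      have := congrFun this (i, 0)
      rw [Pi.single_eq_same] at this
      exact one_ne_zero this
    · intro h
      have := hinj _ 0 (by rw [h, map_zero])
      have := congrFun this (i, 1)
      rw [Pi.single_eq_same] at this
      exact one_ne_zero this
    · intro h
      have := hinj _ _ h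
      have := congrFun this (i, 0)
      rw [Pi.single_eq_same, Pi.single_eq_of_ne (by simp)] at this
      exact one_ne_zero this
  choose k hk0 hk using h1
  -- support of the preimage of a basis vector
  have hsup : ∀ (i : Fin 5) (s : B'), s ∈ cl L i ∩ cl L (i + 4) →
      ∀ p, L' (Pi.single s 1) p ≠ 0 → p.1 = i := by
    intro i s hs p hp
    have e1 : inQ i (L' (Pi.single s 1)) := by
      apply back hL hL' hLL hLL'
      intro t ht
      rw [Pi.single_apply] at ht
      split_ifs at ht with h2
      · rw [h2]; exact hs.1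
      · exact absurd rfl ht
    have e2 : inQ (i + 4) (L' (Pi.single s 1)) := by
      apply back hL hL' hLL hLL'
      intro t ht
      rw [Pi.single_apply] at ht
      split_ifs at ht with h2
      · rw [h2]; exact hs.2
      · exact absurd rfl ht
    have : ∀ a i : Fin 5, (a = i ∨ a = i + 1) → (a = i + 4 ∨ a = i + 4 + 1) → a = i := by decide
    exact this _ _ (e1 p hp) (e2 p hp)
  have hnz : ∀ s : B', ∃ p, L' (Pi.single s 1) p ≠ 0 := by
    intro s
    by_contra hc
    push Not at hc
    have h0 : L' (Pi.single s 1) = 0 := funext hc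
    have h1 := hLL' (Pi.single s 1)
    rw [h0, map_zero] at h1
    have := congrFun h1 s
    rw [Pi.single_eq_same] at this
    exact zero_ne_one this
  have hdist : ∀ (i j : Fin 5) (s : B'), s ∈ cl L i ∩ cl L (i + 4) → s ∈ cl L j ∩ cl L (j + 4) →
      i = j := by
    intro i j s hi hj
    obtain ⟨p, hp⟩ := hnz s
    rw [← hsup i s hi p hp, hsup j s hj p hp]
  refine ⟨fun p => k p.1 p.2, ?_⟩
  intro p q
  by_cases hpq : p = q
  · subst hpq
    rw [M'.diagonal, pentM.diagonal]
  · by_cases hfar : far p.1 q.1 = true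
    · rw [pentM_zero hfar]
      by_contra hne
      set s := k p.1 p.2 with hs
      set t := k q.1 q.2 with ht
      have hts : M' t s ≠ 0 := by rw [M'.symmetric]; exact hne
      have hcs : CS M' (Pi.single s 1 + Pi.single t 1) := by
        intro x y hxy
        by_contra hc
        push Not at hc
        have hx : x = s ∨ x = t := by
          by_contra h2
          push Not at h2
          apply hc.1
          rw [Pi.add_apply, Pi.single_eq_of_ne h2.1, Pi.single_eq_of_ne h2.2, add_zero]
        have hy : y = s ∨ y = t := by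
          by_contra h2
          push Not at h2
          apply hc.2
          rw [Pi.add_apply, Pi.single_eq_of_ne h2.1, Pi.single_eq_of_ne h2.2, add_zero]
        rcases hx with rfl | rfl <;> rcases hy with rfl | rfl
        · rw [M'.diagonal] at hxy; exact one_ne_zero hxy
        · exact hne hxy
        · exact hts hxy
        · rw [M'.diagonal] at hxy; exact one_ne_zero hxy
      obtain ⟨a, ha⟩ := hnz s
      obtain ⟨b, hb⟩ := hnz t
      have ha1 := hsup p.1 s (hk _ _) a ha
      have hb1 := hsup q.1 t (hk _ _) b hb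
      have hij : p.1 ≠ q.1 := by
        intro h
        rw [h, far_irrefl] at hfar
        exact absurd hfar (by simp)
      have hta : L' (Pi.single t 1) a = 0 := by
        by_contra h2
        have := hsup q.1 t (hk _ _) a h2
        exact hij (by rw [← ha1, this])
      have hsb : L' (Pi.single s 1) b = 0 := by
        by_contra h2
        have := hsup p.1 s (hk _ _) b h2
        exact hij (by rw [← hb1, this])
      have h3 := hL' _ hcs a b (pentM_zero (by rw [ha1, hb1]; exact hfar))
      rw [map_add, Pi.add_apply, Pi.add_apply, hta, hsb, add_zero, zero_add] at h3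
      rcases h3 with h3 | h3
      · exact ha h3
      · exact hb h3
    · rw [pentM_apply, if_neg hpq, if_neg hfar]
      have hne : k p.1 p.2 ≠ k q.1 q.2 := by
        intro h
        have h1 : p.1 = q.1 := hdist _ _ _ (hk p.1 p.2) (by rw [h]; exact hk q.1 q.2)
        have h2 : p.2 ≠ q.2 := by
          intro h2; exact hpq (Prod.ext h1 h2)
        rw [h1] at h
        have h3 := hk0 q.1
        generalize p.2 = a at *
        generalize q.2 = b at *
        fin_cases a <;> fin_cases b
        · exact h2 rfl
        · exact h3 h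
        · exact h3 h.symm
        · exact h2 rfl
      refine (hRA _ _ hne).resolve_left ?_
      have hcase : ∀ i j : Fin 5, ¬ far i j = true → i = j ∨ i = j + 4 ∨ j = i + 4 := by decide
      rcases hcase p.1 q.1 hfar with h | h | h
      · apply cl_clique hL (i := p.1) (hk p.1 p.2).1
        rw [h]; exact (hk q.1 q.2).1
      · apply cl_clique hL (i := p.1) (hk p.1 p.2).1
        rw [h]; exact (hk q.1 q.2).2
      · apply cl_clique hL (i := q.1) _ (hk q.1 q.2).1
        rw [h]; exact (hk p.1 p.2).2

end linear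

/-- Rigidity: the doubled pentagon embeds in every right-angled Coxeter diagram of `W`. -/
theorem rigid {N : ℕ} {M' : CoxeterMatrix (Fin N)} (h' : RA M') (φ : W ≃* M'.Group) :
    ∃ k : Fin 5 × Fin 2 → Fin N, ∀ p q, M' (k p) (k q) = pentM p q :=
  embed (L := indL h' φ) (L' := indL pentM_RA φ.symm) h'
    (fun _ hv => indL_cs pentM_RA h' φ hv) (fun _ hv => indL_cs h' pentM_RA φ.symm hv)
    (fun v => indL_inv pentM_RA h' φ v) (fun v => indL_inv h' pentM_RA φ.symm v)

end Pool.Agent.Helper613.DH
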