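import Pool.Agent.Helper613.DHPing

set_option autoImplicit false

namespace Pool.Agent.Helper613.DH

open Module Polynomial

abbrev VP : Type := (Fin 5 × Fin 3) → ℤ[X]

noncomputable def vP (a : Fin 5 × Fin 3) : VP := Pi.single a 1

noncomputable def fP' (a : Fin 5 × Fin 3) : Dual ℤ[X] VP :=
  LinearMap.proj a - (X : ℤ[X]) • ∑ b ∈ Finset.univ.filter (fun b => far a.1 b.1 = true),
    LinearMap.proj b

noncomputable def fP (a : Fin 5 × Fin 3) : Dual ℤ[X] VP := (2 : ℤ[X]) • fP' a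

lemma fP'_apply (a : Fin 5 × Fin 3) (x : VP) :
    fP' a x = x a - X * ∑ b ∈ Finset.univ.filter (fun b => far a.1 b.1 = true), x b := by
  simp [fP']

lemma fP'_self (a : Fin 5 × Fin 3) : fP' a (vP a) = 1 := by
  rw [fP'_apply]
  have : ∑ b ∈ Finset.univ.filter (fun b : Fin 5 × Fin 3 => far a.1 b.1 = true), vP a b = 0 := by
    apply Finset.sum_eq_zero
    intro b hb
    rw [Finset.mem_filter] at hb
    unfold vP
    rw [Pi.single_apply, if_neg]
    rintro rfl
    rw [far_irrefl] at hb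
    exact absurd hb.2 (by simp)
  rw [this]
  simp [vP]

lemma fP'_zero (a b : Fin 5 × Fin 3) (hab : a ≠ b) (h : far a.1 b.1 = false) :
    fP' a (vP b) = 0 := by
  rw [fP'_apply]
  have : ∑ c ∈ Finset.univ.filter (fun b : Fin 5 × Fin 3 => far a.1 b.1 = true), vP b c = 0 := by
    apply Finset.sum_eq_zero
    intro c hc
    rw [Finset.mem_filter] at hc
    unfold vP
    rw [Pi.single_apply, if_neg]
    rintro rfl
    rw [h] at hc
    exact absurd hc.2 (by simp)
  rw [this]
  simp [vP, Pi.single_apply, hab]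

lemma repP : RepData vP fP where
  two a := by
    show (2 : ℤ[X]) * fP' a (vP a) = 2
    rw [fP'_self, mul_one]
  zero a b hab h := by
    show (2 : ℤ[X]) * fP' a (vP b) = 0
    rw [fP'_zero a b hab h, mul_zero]

noncomputable def actP : W →* End ℤ[X] VP := rep repP

/-- evaluation of the polynomial representation -/
noncomputable def ev : ℤ[X] →+* ℝ := (aeval (8 / 15 : ℝ) : ℤ[X] →ₐ[ℤ] ℝ).toRingHom

lemma ev_X : ev X = 8 / 15 := by simp [ev]

noncomputable def Phi (x : VP) : Fin (26 + 1) → ℝ := ∑ a, ev (x a) • F a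

lemma Phi_sub (x y : VP) : Phi (x - y) = Phi x - Phi y := by
  unfold Phi
  rw [← Finset.sum_sub_distrib]
  apply Finset.sum_congr rfl
  intro a _
  rw [Pi.sub_apply, map_sub, sub_smul]

lemma Phi_smul_v (p : ℤ[X]) (a : Fin 5 × Fin 3) : Phi (p • vP a) = ev p • F a := by
  unfold Phi
  rw [Finset.sum_eq_single a]
  · simp [vP]
  · intro b _ hb
    simp [vP, Pi.single_apply, hb]
  · intro h; exact absurd (Finset.mem_univ a) h

lemma mink_Phi (x : VP) (a : Fin 5 × Fin 3) : 2 / 15 * mink (Phi x) (F a) = ev (fP a x) := by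
  have h1 : fP a x = 2 * fP' a x := rfl
  rw [h1, fP'_apply, map_mul, map_sub, map_mul, map_sum, ev_X]
  have h2 : mink (Phi x) (F a) = ∑ b, ev (x b) *
      (if b = a then 15 else if far b.1 a.1 then -8 else 0) := by
    unfold Phi
    rw [mink_sum_left]
    apply Finset.sum_congr rfl
    intro b _
    rw [mink_smul_left, mink_FF]
  have h3 : ∀ b : Fin 5 × Fin 3, ev (x b) * (if b = a then (15 : ℝ) else if far b.1 a.1 then -8
      else 0) = (if b = a then 15 * ev (x b) else 0) +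
        (if far a.1 b.1 = true then -8 * ev (x b) else 0) := by
    intro b
    rw [far_symm a.1 b.1]
    by_cases hb : b = a
    · subst hb
      rw [far_irrefl]; simp; ring
    · rw [if_neg hb, if_neg hb]
      split_ifs <;> ring
  rw [h2]
  simp only [h3, Finset.sum_add_distrib]
  rw [Finset.sum_ite_eq' Finset.univ a, if_pos (Finset.mem_univ a), ← Finset.sum_filter,
    ← Finset.mul_sum]
  have : ev 2 = 2 := map_ofNat ev 2
  rw [this]
  ring

lemma Phi_rf (a : Fin 5 × Fin 3) (x : VP) : Phi (rf vP fP a x) = rf F fz a (Phi x) := by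
  rw [rf_apply, rf_apply, Phi_sub, Phi_smul_v, fz_apply, mink_Phi]

lemma Phi_act (w : W) : ∀ x : VP, Phi (actP w x) = act w (Phi x) := by
  refine w_ind (P := fun w => ∀ x : VP, Phi (actP w x) = act w (Phi x)) w ?_ ?_
  · intro x
    rw [act_one, map_one]; rfl
  · intro i c w ih x
    rw [act_mul, ← ih, map_mul]
    show Phi (actP (g i c) (actP w x)) = act (g i c) (Phi (actP w x))
    unfold actP act
    rw [rep_g, rep_g]
    show Phi (rf vP fP (i, c + 1) (rf vP fP (i, c + 2) _)) =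
      rf F fz (i, c + 1) (rf F fz (i, c + 2) _)
    rw [Phi_rf, Phi_rf]

lemma actP_faithful {w : W} (h : actP w = 1) : w = 1 := by
  apply act_o_inj
  have h1 : ∀ a, act w (F a) = F a := by
    intro a
    have h2 : Phi (vP a) = F a := by
      have := Phi_smul_v 1 a
      rwa [one_smul, map_one, one_smul] at this
    rw [← h2, ← Phi_act, h]; rfl
  unfold o
  rw [map_sum]
  exact Finset.sum_congr rfl fun a _ => h1 a

/-- congruent to the identity modulo two -/
def Even2 (T : End ℤ[X] VP) : Prop := ∃ B : End ℤ[X] VP, T = 1 + (2 : ℤ) • B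

lemma even2_rf (a : Fin 5 × Fin 3) : Even2 (rf vP fP a) := by
  refine ⟨- (fP' a).smulRight (vP a), ?_⟩
  refine LinearMap.ext fun x => ?_
  rw [rf_apply]
  have : fP a x = 2 * fP' a x := rfl
  rw [this]
  simp only [LinearMap.add_apply, Module.End.one_apply, LinearMap.smul_apply, LinearMap.neg_apply,
    LinearMap.smulRight_apply]
  rw [mul_smul, smul_neg, sub_eq_add_neg]
  congr 2
  rw [two_smul, two_smul]

lemma even2_mul {S T : End ℤ[X] VP} (hS : Even2 S) (hT : Even2 T) : Even2 (S * T) := by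
  obtain ⟨B, rfl⟩ := hS
  obtain ⟨C, rfl⟩ := hT
  refine ⟨B + C + (2 : ℤ) • (B * C), ?_⟩
  rw [add_mul, mul_add, mul_add, one_mul, mul_one, one_mul, smul_mul_assoc, mul_smul_comm]
  module

lemma even2_act (w : W) : Even2 (actP w) := by
  refine w_ind (P := fun w => Even2 (actP w)) w ?_ ?_
  · exact ⟨0, by rw [map_one, smul_zero, add_zero]⟩
  · intro i c w ih
    rw [map_mul]
    apply even2_mul _ ih
    unfold actP
    rw [rep_g]
    exact even2_mul (even2_rf _) (even2_rf _)

lemma smul_cancel {k : ℕ} {S : End ℤ[X] VP} (h : ((2 : ℤ) ^ k) • S = 0) : S = 0 := by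
  refine LinearMap.ext fun x => ?_
  funext a
  have h1 := congrArg (fun T : End ℤ[X] VP => T x a) h
  simp only [LinearMap.smul_apply, Pi.smul_apply, LinearMap.zero_apply, Pi.zero_apply] at h1
  rw [zsmul_eq_mul, mul_eq_zero] at h1
  rcases h1 with h1 | h1
  · exfalso
    have : ((2 : ℤ) ^ k) ≠ 0 := by positivity
    exact this (by exact_mod_cast h1)
  · exact h1

lemma separated {S : End ℤ[X] VP} (h : ∀ k : ℕ, ∃ Z : End ℤ[X] VP, S = ((2 : ℤ) ^ k) • Z) :
    S = 0 := by
  refine LinearMap.ext fun x => ?_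
  funext a
  rw [LinearMap.zero_apply, Pi.zero_apply]
  ext n
  rw [coeff_zero]
  by_contra hne
  obtain ⟨Z, hZ⟩ := h ((S x a).coeff n).natAbs
  have h1 : (S x a).coeff n = (2 : ℤ) ^ ((S x a).coeff n).natAbs * (Z x a).coeff n := by
    conv_lhs => rw [hZ]
    simp only [LinearMap.smul_apply, Pi.smul_apply]
    rw [Polynomial.coeff_smul, smul_eq_mul]
  have h2 : (2 : ℤ) ^ ((S x a).coeff n).natAbs ∣ (S x a).coeff n := ⟨_, h1⟩
  have h3 := Int.natAbs_dvd_natAbs.2 h2
  have h4 := Nat.le_of_dvd (Int.natAbs_pos.2 hne) h3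
  rw [Int.natAbs_pow] at h4
  have h5 : ((S x a).coeff n).natAbs < 2 ^ ((S x a).coeff n).natAbs := Nat.lt_two_pow_self
  simp at h4
  omega

lemma one_add_pow {E : Type} [Ring E] (t : E) (n : ℕ) :
    ∃ q : E, (1 + t) ^ n = 1 + (n : ℤ) • t + t * t * q := by
  induction n with
  | zero => exact ⟨0, by simp⟩
  | succ n ih =>
    obtain ⟨q, hq⟩ := ih
    refine ⟨q + (n : ℤ) • 1 + q * t, ?_⟩
    rw [pow_succ, hq]
    push_cast
    simp only [mul_add, add_mul, one_mul, mul_one, smul_mul_assoc, mul_smul_comm, add_smul, one_smul,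
      mul_assoc]
    abel

/-- torsion congruent to one modulo four is trivial, prime order case -/
lemma tors_prime {T : End ℤ[X] VP} {p : ℕ} (hp : p.Prime)
    (hT : ∃ B : End ℤ[X] VP, T = 1 + (4 : ℤ) • B) (h : T ^ p = 1) : T = 1 := by
  have hall : ∀ k : ℕ, ∃ Z : End ℤ[X] VP, T = 1 + ((2 : ℤ) ^ (k + 2)) • Z := by
    intro k
    induction k with
    | zero =>
      obtain ⟨B, hB⟩ := hT
      exact ⟨B, by rw [hB]; norm_num⟩
    | succ k ih =>
      obtain ⟨Z, hZ⟩ := ih
      obtain ⟨q, hq⟩ := one_add_pow (((2 : ℤ) ^ (k + 2)) • Z) p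
      rw [← hZ, h] at hq
      have h1 : ((2 : ℤ) ^ (k + 2)) • ((p : ℤ) • Z + ((2 : ℤ) ^ (k + 2)) • (Z * Z * q)) = 0 := by
        have : (p : ℤ) • (((2 : ℤ) ^ (k + 2)) • Z) +
            (((2 : ℤ) ^ (k + 2)) • Z) * (((2 : ℤ) ^ (k + 2)) • Z) * q = 0 := by
          have h2 : (1 : End ℤ[X] VP) + 0 = 1 + ((p : ℤ) • (((2 : ℤ) ^ (k + 2)) • Z) +
            (((2 : ℤ) ^ (k + 2)) • Z) * (((2 : ℤ) ^ (k + 2)) • Z) * q) := by
            rw [add_zero, ← add_assoc]; exact hq
          exact (add_left_cancel h2).symm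
        rw [← this, smul_add, smul_comm, smul_mul_smul_comm, smul_mul_assoc, smul_smul,
          smul_smul ((2 : ℤ) ^ (k + 2)) ((2 : ℤ) ^ (k + 2))]
      have h2 := smul_cancel h1
      have h3 : ∃ Z' : End ℤ[X] VP, Z = (2 : ℤ) • Z' := by
        rcases hp.eq_two_or_odd' with rfl | ⟨j, rfl⟩
        · refine ⟨- (((2 : ℤ) ^ k) • (Z * Z * q)), ?_⟩
          have h4 : ((2 : ℤ) ^ 1) • (Z - (2 : ℤ) • - (((2 : ℤ) ^ k) • (Z * Z * q))) = 0 := by
            have e : ((2 : ℤ) ^ (k + 2)) • (Z * Z * q) =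
                (2 : ℤ) • (2 : ℤ) • (((2 : ℤ) ^ k) • (Z * Z * q)) := by
              rw [smul_smul, smul_smul]; congr 1; ring
            rw [e] at h2
            rw [pow_one, smul_sub, smul_neg, smul_neg, sub_neg_eq_add]
            exact_mod_cast h2
          have := smul_cancel h4
          exact sub_eq_zero.1 this
        · refine ⟨- ((j : ℤ) • Z) - (((2 : ℤ) ^ (k + 1)) • (Z * Z * q)), ?_⟩
          have e : ((2 : ℤ) ^ (k + 2)) • (Z * Z * q) =
              (2 : ℤ) • (((2 : ℤ) ^ (k + 1)) • (Z * Z * q)) := by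
            rw [smul_smul]; congr 1; ring
          rw [e] at h2
          have e2 : ((2 * j + 1 : ℕ) : ℤ) • Z = (2 : ℤ) • ((j : ℤ) • Z) + Z := by
            push_cast
            rw [add_smul, one_smul, mul_smul]
          rw [e2] at h2
          rw [smul_sub, smul_neg]
          rw [add_assoc, add_comm] at h2
          have : Z = - ((2 : ℤ) • ((j : ℤ) • Z)) - (2 : ℤ) • (((2 : ℤ) ^ (k + 1)) • (Z * Z * q)) := by
            have h5 : Z + (2 : ℤ) • (((2 : ℤ) ^ (k + 1)) • (Z * Z * q)) +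
              (2 : ℤ) • ((j : ℤ) • Z) = 0 := h2
            rw [eq_sub_iff_add_eq, eq_neg_iff_add_eq_zero]
            exact h5
          exact this
      obtain ⟨Z', hZ'⟩ := h3
      refine ⟨Z', ?_⟩
      rw [hZ, hZ', smul_smul]
      congr 2
  have h0 : T - 1 = 0 := by
    apply separated
    intro k
    obtain ⟨Z, hZ⟩ := hall k
    refine ⟨(4 : ℤ) • Z, ?_⟩
    rw [hZ, add_sub_cancel_left, smul_smul]
    congr 1
    ring
  exact sub_eq_zero.1 h0

lemma pow_four {T : End ℤ[X] VP} (hT : ∃ B : End ℤ[X] VP, T = 1 + (4 : ℤ) • B) (n : ℕ) :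
    ∃ B : End ℤ[X] VP, T ^ n = 1 + (4 : ℤ) • B := by
  induction n with
  | zero => exact ⟨0, by simp⟩
  | succ n ih =>
    obtain ⟨B, hB⟩ := hT
    obtain ⟨C, hC⟩ := ih
    refine ⟨C + B + (4 : ℤ) • (C * B), ?_⟩
    rw [pow_succ, hC, hB, add_mul, mul_add, mul_add, one_mul, mul_one, one_mul, smul_mul_assoc,
      mul_smul_comm]
    module

/-- Torsion elements of `W` have order at most two. -/
theorem torsion_sq {w : W} {m : ℕ} (hm : 0 < m) (h : w ^ m = 1) : w ^ 2 = 1 := by
  by_contra hne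
  set u := w ^ 2 with hu
  have hum : u ^ m = 1 := by rw [hu, ← pow_mul, mul_comm, pow_mul, h, one_pow]
  have hfin : IsOfFinOrder u := isOfFinOrder_iff_pow_eq_one.2 ⟨m, hm, hum⟩
  have hord : orderOf u ≠ 1 := by
    intro h1; exact hne (orderOf_eq_one_iff.1 h1)
  obtain ⟨p, hp, hdvd⟩ := Nat.exists_prime_and_dvd hord
  obtain ⟨k, hk⟩ := hdvd
  have hpos := hfin.orderOf_pos
  have hkpos : 0 < k := by
    rcases Nat.eq_zero_or_pos k with h0 | h0
    · rw [h0, mul_zero] at hk; omega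
    · exact h0
  have h1 : (u ^ k) ^ p = 1 := by
    rw [← pow_mul, mul_comm, ← hk, pow_orderOf_eq_one]
  have h2 : u ^ k ≠ 1 := by
    intro h3
    have h4 := orderOf_dvd_of_pow_eq_one h3
    have h5 := Nat.le_of_dvd hkpos h4
    rw [hk] at h5
    have h6 := hp.two_le
    nlinarith
  apply h2
  apply actP_faithful
  have h4 : ∃ B : End ℤ[X] VP, actP u = 1 + (4 : ℤ) • B := by
    obtain ⟨B, hB⟩ := even2_act w
    refine ⟨B + B * B, ?_⟩
    rw [hu, map_pow, hB, pow_two, add_mul, mul_add, mul_add, one_mul, mul_one, one_mul,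
      smul_mul_assoc, mul_smul_comm]
    module
  apply tors_prime hp
  · rw [map_pow]; exact pow_four h4 k
  · rw [← map_pow, h1, map_one]

end Pool.Agent.Helper613.DH
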