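import Pool.Agent.Helper613.DHMink
import Pool.Agent.Helper613.DHTors
import Pool.Agent.Helper613.DHRigid

set_option autoImplicit false

namespace Pool.Agent.Helper613.DH

open Module Matrix

variable {n : ℕ}

/-- two hyperplanes whose unit normals span a definite plane meet -/
lemma meet {a b : Fin (n + 1) → ℝ} (ha : mink a a = 1) (hb : mink b b = 1)
    (hc : mink a b ^ 2 < 1) {x0 : Fin (n + 1) → ℝ} (hx0 : x0 ∈ Hyp n) :
    ∃ x ∈ Hyp n, mink x a = 0 ∧ mink x b = 0 := by
  set c := mink a b with hcdef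
  set p := mink x0 a with hp
  set q := mink x0 b with hq
  set D := 1 - c ^ 2 with hD
  have hDpos : 0 < D := by linarith
  set y := x0 - ((p - c * q) / D) • a - ((q - c * p) / D) • b with hy
  have hba : mink b a = c := by rw [mink_comm]
  have h1 : mink y a = 0 := by
    rw [hy, mink_sub_left, mink_sub_left, mink_smul_left, mink_smul_left, ha, hba, ← hp]
    field_simp; rw [hD]; ring
  have h2 : mink y b = 0 := by
    rw [hy, mink_sub_left, mink_sub_left, mink_smul_left, mink_smul_left, hb, ← hcdef, ← hq]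
    field_simp; rw [hD]; ring
  have h3 : mink y y = mink y x0 := by
    conv_lhs => rw [hy, mink_sub_right, mink_sub_right, mink_smul_right, mink_smul_right, ← hy, h1,
      h2]
    ring
  have h4 : mink y x0 = -1 - (p ^ 2 - 2 * c * p * q + q ^ 2) / D := by
    rw [hy, mink_sub_left, mink_sub_left, mink_smul_left, mink_smul_left, hx0.1,
      mink_comm a x0, mink_comm b x0, ← hp, ← hq]
    field_simp; ring
  have h5 : 0 ≤ (p ^ 2 - 2 * c * p * q + q ^ 2) / D := by
    apply div_nonneg _ hDpos.le
    nlinarith [sq_nonneg (p - c * q), mul_nonneg hDpos.le (sq_nonneg q)]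
  have h6 : mink y y < 0 := by rw [h3, h4]; linarith
  have hF : Fwd y := fwd_of h6.le (fwd_of_hyp hx0) (by rw [← h3]; exact h6)
  have hr : 0 < Real.sqrt (- mink y y) := Real.sqrt_pos.2 (by linarith)
  refine ⟨(Real.sqrt (- mink y y))⁻¹ • y, ⟨?_, ?_⟩, ?_, ?_⟩
  · rw [mink_smul_left, mink_smul_right, ← mul_assoc, ← mul_inv,
      Real.mul_self_sqrt (by linarith), inv_mul_eq_div, div_eq_iff (by linarith)]
    ring
  · have := hF.2
    simp only [Pi.smul_apply, smul_eq_mul]
    positivity
  · rw [mink_smul_left, h1, mul_zero]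
  · rw [mink_smul_left, h2, mul_zero]

variable {N : ℕ} {e : Fin N → Fin (n + 1) → ℝ}

lemma mink_lt_one (hP : IsCoxeterPolytope n N e) {i j : Fin N} (hij : i ≠ j) :
    mink (e i) (e j) < 1 := by
  by_contra hc
  push Not at hc
  obtain ⟨x, hx, hx1, hx2⟩ := hP.facet i
  obtain ⟨y, hy, hy1, hy2⟩ := hP.facet j
  have hxj := hx2 j (Ne.symm hij)
  have hyi := hy2 i hij
  have hv : mink (e i - e j) (e i - e j) ≤ 0 := by
    rw [mink_sub_left, mink_sub_right, mink_sub_right, hP.unit, hP.unit, mink_comm (e j) (e i)]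
    linarith
  have h1 : Fwd (e i - e j) := by
    apply fwd_of hv (fwd_of_hyp hy)
    rw [mink_comm, mink_sub_right, hy1]; linarith
  have h2 : Fwd (-(e i - e j)) := by
    apply fwd_of _ (fwd_of_hyp hx)
    · rw [mink_comm, mink_neg_right, mink_sub_right, hx1]; linarith
    · rw [mink_neg_left, mink_neg_right]; linarith
  have h3 := h1.2
  have h4 := h2.2
  rw [Pi.neg_apply] at h4
  linarith

lemma mink_le_of_disjoint (hP : IsCoxeterPolytope n N e) {i j : Fin N} (hij : i ≠ j)
    (hd : ¬ ∃ x ∈ Hyp n, mink x (e i) = 0 ∧ mink x (e j) = 0) : mink (e i) (e j) ≤ -1 := by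
  have h1 := mink_lt_one hP hij
  by_contra hc
  push Not at hc
  obtain ⟨x0, hx0, -⟩ := hP.interior
  apply hd
  apply meet (hP.unit i) (hP.unit j) _ hx0
  nlinarith

/-- the reflection in a unit vector -/
noncomputable def rfl' (a : Fin (n + 1) → ℝ) : End ℝ (Fin (n + 1) → ℝ) :=
  LinearMap.id - (2 : ℝ) • ((minkL n).flip a).smulRight a

lemma rfl'_apply (a x : Fin (n + 1) → ℝ) : rfl' a x = x - (2 * mink x a) • a := by
  simp [rfl', smul_smul]

lemma rfl'_sq {a : Fin (n + 1) → ℝ} (ha : mink a a = 1) : rfl' a * rfl' a = 1 := by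
  refine LinearMap.ext fun x => ?_
  rw [Module.End.mul_apply, rfl'_apply, rfl'_apply, mink_sub_left, mink_smul_left, ha,
    Module.End.one_apply]
  module

lemma rfl'_fix {a x : Fin (n + 1) → ℝ} (h : mink x a = 0) : rfl' a x = x := by
  rw [rfl'_apply, h]; simp

section rot

variable {a b : Fin (n + 1) → ℝ}

lemma rot_a {c : ℝ} (ha : mink a a = 1) (hab : mink a b = -c) :
    (rfl' a * rfl' b) a = (4 * c ^ 2 - 1) • a + (2 * c) • b := by
  have hba : mink b a = -c := by rw [mink_comm]; exact hab
  rw [Module.End.mul_apply, rfl'_apply b, rfl'_apply, mink_sub_left, mink_smul_left, ha, hab, hba]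
  module

lemma rot_b {c : ℝ} (ha : mink a a = 1) (hb : mink b b = 1) (hab : mink a b = -c) :
    (rfl' a * rfl' b) b = (- (2 * c)) • a - b := by
  have hba : mink b a = -c := by rw [mink_comm]; exact hab
  rw [Module.End.mul_apply, rfl'_apply b, rfl'_apply, mink_sub_left, mink_smul_left, hb, hba]
  module

lemma rot_pow_a {θ : ℝ} (ha : mink a a = 1) (hb : mink b b = 1)
    (hab : mink a b = - Real.cos θ) (k : ℕ) :
    Real.sin θ • ((rfl' a * rfl' b) ^ k) a =
      Real.sin ((2 * k + 1) * θ) • a + Real.sin (2 * k * θ) • b := by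
  induction k with
  | zero => simp
  | succ k ih =>
    rw [pow_succ', Module.End.mul_apply, ← map_smul, ih, map_add, map_smul, map_smul,
      rot_a ha hab, rot_b ha hb hab]
    have e1 : (2 * ((k + 1 : ℕ) : ℝ) + 1) * θ = (2 * k + 1) * θ + 2 * θ := by push_cast; ring
    have e2 : 2 * ((k + 1 : ℕ) : ℝ) * θ = (2 * k + 1) * θ + θ := by push_cast; ring
    have e3 : 2 * (k : ℝ) * θ = (2 * k + 1) * θ - θ := by ring
    rw [e1, e2, e3]
    set α := (2 * (k : ℝ) + 1) * θ
    rw [Real.sin_add, Real.sin_add, Real.sin_sub, Real.cos_two_mul, Real.sin_two_mul]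
    set A := Real.sin α
    set C := Real.cos α
    set s := Real.sin θ
    set c := Real.cos θ
    have f1 : A * (2 * c ^ 2 - 1) + C * (2 * s * c) =
        A * (4 * c ^ 2 - 1) - (A * c - C * s) * (2 * c) := by ring
    have f2 : A * c + C * s = A * (2 * c) - (A * c - C * s) := by ring
    rw [f1, f2]
    module

lemma rot_pow_b {θ : ℝ} (ha : mink a a = 1) (hb : mink b b = 1)
    (hab : mink a b = - Real.cos θ) (k : ℕ) :
    Real.sin θ • ((rfl' a * rfl' b) ^ k) b =
      (- Real.sin (2 * k * θ)) • a - Real.sin ((2 * k - 1) * θ) • b := by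
  induction k with
  | zero => simp
  | succ k ih =>
    rw [pow_succ', Module.End.mul_apply, ← map_smul, ih, map_sub, map_smul, map_smul,
      rot_a ha hab, rot_b ha hb hab]
    have e1 : (2 * ((k + 1 : ℕ) : ℝ) - 1) * θ = 2 * k * θ + θ := by push_cast; ring
    have e2 : 2 * ((k + 1 : ℕ) : ℝ) * θ = 2 * k * θ + 2 * θ := by push_cast; ring
    have e3 : (2 * (k : ℝ) - 1) * θ = 2 * k * θ - θ := by ring
    rw [e1, e2, e3]
    set α := 2 * (k : ℝ) * θ
    rw [Real.sin_add, Real.sin_add, Real.sin_sub, Real.cos_two_mul, Real.sin_two_mul]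
    set A := Real.sin α
    set C := Real.cos α
    set s := Real.sin θ
    set c := Real.cos θ
    have f1 : A * (2 * c ^ 2 - 1) + C * (2 * s * c) =
        A * (4 * c ^ 2 - 1) - (A * c - C * s) * (2 * c) := by ring
    have f2 : A * c + C * s = A * (2 * c) - (A * c - C * s) := by ring
    rw [f1, f2]
    module

/-- the product of the reflections in two hyperplanes with angle `π / m` has order dividing `m` -/
lemma rot_pow {m : ℕ} (hm : 2 ≤ m) (ha : mink a a = 1) (hb : mink b b = 1)
    (hab : mink a b = - Real.cos (Real.pi / m)) : (rfl' a * rfl' b) ^ m = 1 := by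
  set θ := Real.pi / m with hθ
  have hm' : (2 : ℝ) ≤ m := by exact_mod_cast hm
  have hmθ : (m : ℝ) * θ = Real.pi := by rw [hθ]; field_simp
  have hθ0 : 0 < θ := div_pos Real.pi_pos (by linarith)
  have hθπ : θ < Real.pi := by
    rw [hθ, div_lt_iff₀ (by linarith)]
    nlinarith [Real.pi_pos]
  have hs : 0 < Real.sin θ := Real.sin_pos_of_pos_of_lt_pi hθ0 hθπ
  have hTa : ((rfl' a * rfl' b) ^ m) a = a := by
    have h1 := rot_pow_a ha hb hab m
    have e1 : (2 * (m : ℝ) + 1) * θ = θ + 2 * Real.pi := by rw [← hmθ]; ring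
    have e2 : 2 * (m : ℝ) * θ = 2 * Real.pi := by rw [← hmθ]; ring
    rw [e1, e2, Real.sin_add_two_pi, Real.sin_two_pi, zero_smul, add_zero] at h1
    exact smul_right_injective _ hs.ne' h1
  have hTb : ((rfl' a * rfl' b) ^ m) b = b := by
    have h1 := rot_pow_b ha hb hab m
    have e1 : (2 * (m : ℝ) - 1) * θ = 2 * Real.pi - θ := by rw [← hmθ]; ring
    have e2 : 2 * (m : ℝ) * θ = 2 * Real.pi := by rw [← hmθ]; ring
    rw [e1, e2, Real.sin_two_pi_sub, Real.sin_two_pi, neg_zero, zero_smul, zero_sub,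
      neg_smul, neg_neg] at h1
    exact smul_right_injective _ hs.ne' h1
  refine LinearMap.ext fun x => ?_
  rw [Module.End.one_apply]
  set c := Real.cos θ with hc
  set s := Real.sin θ with hsdef
  have hsc : s ^ 2 + c ^ 2 = 1 := Real.sin_sq_add_cos_sq θ
  set p := mink x a with hp
  set q := mink x b with hq
  have hba : mink b a = -c := by rw [mink_comm]; exact hab
  set y := x - ((p + c * q) / s ^ 2) • a - ((q + c * p) / s ^ 2) • b with hy
  have h1 : mink y a = 0 := by
    rw [hy, mink_sub_left, mink_sub_left, mink_smul_left, mink_smul_left, ha, hba, ← hp]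
    field_simp
    linear_combination p * hsc
  have h2 : mink y b = 0 := by
    rw [hy, mink_sub_left, mink_sub_left, mink_smul_left, mink_smul_left, hb, hab, ← hq]
    field_simp
    linear_combination q * hsc
  have h3 : ∀ k : ℕ, ((rfl' a * rfl' b) ^ k) y = y := by
    intro k
    induction k with
    | zero => simp
    | succ k ih =>
      rw [pow_succ, Module.End.mul_apply, Module.End.mul_apply, rfl'_fix h2, rfl'_fix h1, ih]
  have h4 : x = y + ((p + c * q) / s ^ 2) • a + ((q + c * p) / s ^ 2) • b := by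
    rw [hy]; module
  rw [h4, map_add, map_add, map_smul, map_smul, hTa, hTb, h3]

/-- if the product of two reflections has order two, the vectors are orthogonal -/
lemma orth_of_sq {c : ℝ} (ha : mink a a = 1) (hb : mink b b = 1) (hab : mink a b = -c)
    (hc : c ^ 2 < 1) (h : (rfl' a * rfl' b) ^ 2 = 1) : c = 0 := by
  have h1 : (rfl' a * rfl' b) * (rfl' a * rfl' b) = 1 := by rw [← pow_two]; exact h
  have h2 : rfl' b * rfl' a = rfl' a * rfl' b := by
    have : (rfl' b * rfl' a) * ((rfl' a * rfl' b) * (rfl' a * rfl' b)) = rfl' a * rfl' b := by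
      calc (rfl' b * rfl' a) * ((rfl' a * rfl' b) * (rfl' a * rfl' b))
          = rfl' b * (rfl' a * rfl' a) * rfl' b * (rfl' a * rfl' b) := by
            simp only [mul_assoc]
        _ = rfl' a * rfl' b := by rw [rfl'_sq ha, mul_one, rfl'_sq hb, one_mul]
    rw [h1, mul_one] at this
    exact this
  have h3 : (rfl' b * rfl' a) a = (-1 : ℝ) • a - (2 * c) • b := by
    rw [Module.End.mul_apply, rfl'_apply a, rfl'_apply, mink_sub_left, mink_smul_left, ha, hab]
    module
  have h4 : (4 * c ^ 2 - 1) • a + (2 * c) • b = (-1 : ℝ) • a - (2 * c) • b := by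
    rw [← rot_a ha hab, ← h2, h3]
  have h5 := congrArg (fun z => mink z b) h4
  simp only [mink_add_left, mink_sub_left, mink_smul_left, hab, hb] at h5
  have h6 : 4 * c * (1 - c ^ 2) = 0 := by linear_combination h5
  rcases mul_eq_zero.1 h6 with h7 | h7
  · linarith
  · exfalso; linarith

end rot

/-- the reflection as an element of the general linear group -/
noncomputable def Rm (a : Fin (n + 1) → ℝ) (ha : mink a a = 1) :
    Matrix.GeneralLinearGroup (Fin (n + 1)) ℝ where
  val := LinearMap.toMatrix' (rfl' a)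
  inv := LinearMap.toMatrix' (rfl' a)
  val_inv := by
    rw [← LinearMap.toMatrix'_mul, rfl'_sq ha, LinearMap.toMatrix'_one]
  inv_val := by
    rw [← LinearMap.toMatrix'_mul, rfl'_sq ha, LinearMap.toMatrix'_one]

lemma Rm_apply {a : Fin (n + 1) → ℝ} (ha : mink a a = 1) (x : Fin (n + 1) → ℝ) :
    (Rm a ha).1 *ᵥ x = rfl' a x := by
  show LinearMap.toMatrix' (rfl' a) *ᵥ x = _
  rw [LinearMap.toMatrix'_mulVec]

lemma GL_ext {A B : Matrix.GeneralLinearGroup (Fin (n + 1)) ℝ}
    (h : ∀ x : Fin (n + 1) → ℝ, A.1 *ᵥ x = B.1 *ᵥ x) : A = B := by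
  apply Units.ext
  exact Matrix.ext_of_mulVec_single (fun i => h _)

lemma GL_mul_apply (A B : Matrix.GeneralLinearGroup (Fin (n + 1)) ℝ) (x : Fin (n + 1) → ℝ) :
    (A * B).1 *ᵥ x = A.1 *ᵥ (B.1 *ᵥ x) := by
  rw [Matrix.mulVec_mulVec]; rfl

lemma Rm_pow {a b : Fin (n + 1) → ℝ} (ha : mink a a = 1) (hb : mink b b = 1) (k : ℕ)
    (x : Fin (n + 1) → ℝ) :
    ((Rm a ha * Rm b hb) ^ k).1 *ᵥ x = ((rfl' a * rfl' b) ^ k) x := by
  induction k generalizing x with
  | zero =>
    rw [pow_zero, pow_zero]
    show (1 : Matrix (Fin (n + 1)) (Fin (n + 1)) ℝ) *ᵥ x = x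
    rw [Matrix.one_mulVec]
  | succ k ih =>
    rw [pow_succ, pow_succ, GL_mul_apply, ih, GL_mul_apply, Rm_apply, Rm_apply]
    rfl

lemma Rm_sq {a : Fin (n + 1) → ℝ} (ha : mink a a = 1) : Rm a ha * Rm a ha = 1 := by
  apply GL_ext
  intro x
  rw [GL_mul_apply, Rm_apply, Rm_apply]
  show (rfl' a * rfl' a) x = (1 : Matrix (Fin (n + 1)) (Fin (n + 1)) ℝ) *ᵥ x
  rw [rfl'_sq ha, Matrix.one_mulVec]; rfl

lemma reflectionGroup_eq (hP : IsCoxeterPolytope n N e) :
    reflectionGroup n N e = Subgroup.closure (Set.range fun i => Rm (e i) (hP.unit i)) := by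
  unfold reflectionGroup
  congr 1
  ext A
  constructor
  · rintro ⟨i, hi⟩
    refine ⟨i, ?_⟩
    apply GL_ext
    intro x
    rw [Rm_apply, hi, rfl'_apply]
  · rintro ⟨i, rfl⟩
    exact ⟨i, fun x => by rw [Rm_apply, rfl'_apply]⟩

lemma Rm_mem (hP : IsCoxeterPolytope n N e) (i : Fin N) :
    Rm (e i) (hP.unit i) ∈ reflectionGroup n N e := by
  rw [reflectionGroup_eq hP]
  exact Subgroup.subset_closure ⟨i, rfl⟩

/-- if every torsion element of the reflection group has order at most two, the polytope is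
right-angled -/
lemma right_angled (hP : IsCoxeterPolytope n N e)
    (ht : ∀ (w : reflectionGroup n N e) (m : ℕ), 0 < m → w ^ m = 1 → w ^ 2 = 1) {i j : Fin N}
    (hij : i ≠ j) : mink (e i) (e j) = 0 ∨ mink (e i) (e j) ≤ -1 := by
  by_cases hd : ∃ x ∈ Hyp n, mink x (e i) = 0 ∧ mink x (e j) = 0
  · left
    obtain ⟨m, h1, h2⟩ := hP.angle i j hij hd
    set w : reflectionGroup n N e := ⟨Rm (e i) (hP.unit i) * Rm (e j) (hP.unit j),
      mul_mem (Rm_mem hP i) (Rm_mem hP j)⟩ with hw
    have h3 : w ^ m = 1 := by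
      apply Subtype.ext
      apply GL_ext
      intro x
      show ((Rm (e i) (hP.unit i) * Rm (e j) (hP.unit j)) ^ m).1 *ᵥ x =
        (1 : Matrix (Fin (n + 1)) (Fin (n + 1)) ℝ) *ᵥ x
      rw [Rm_pow, rot_pow h1 (hP.unit i) (hP.unit j) h2, Matrix.one_mulVec]; rfl
    have h4 := ht w m (by omega) h3
    have h5 : (rfl' (e i) * rfl' (e j)) ^ 2 = 1 := by
      refine LinearMap.ext fun x => ?_
      rw [← Rm_pow (hP.unit i) (hP.unit j)]
      have h6 : (Rm (e i) (hP.unit i) * Rm (e j) (hP.unit j)) ^ 2 = 1 := congrArg Subtype.val h4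
      rw [h6]
      show (1 : Matrix (Fin (n + 1)) (Fin (n + 1)) ℝ) *ᵥ x = x
      rw [Matrix.one_mulVec]
    have hm' : (2 : ℝ) ≤ m := by exact_mod_cast h1
    set θ := Real.pi / m with hθ
    have hθ0 : 0 < θ := div_pos Real.pi_pos (by linarith)
    have hθ2 : θ ≤ Real.pi / 2 := by
      rw [hθ]
      exact div_le_div_of_nonneg_left Real.pi_pos.le (by norm_num) hm'
    have hs : 0 < Real.sin θ :=
      Real.sin_pos_of_pos_of_lt_pi hθ0 (by linarith [Real.pi_pos])
    have hc : Real.cos θ ^ 2 < 1 := by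
      have := Real.sin_sq_add_cos_sq θ
      nlinarith
    have h7 := orth_of_sq (hP.unit i) (hP.unit j) h2 hc h5
    rw [h2, h7, neg_zero]
  · right
    exact mink_le_of_disjoint hP hij hd

section tits

variable (hP : IsCoxeterPolytope n N e)
  (hd : ∀ i j, i ≠ j → mink (e i) (e j) = 0 ∨ mink (e i) (e j) ≤ -1)

open Classical in
/-- the right-angled Coxeter matrix of a right-angled polytope -/
noncomputable def cM (e : Fin N → Fin (n + 1) → ℝ) : CoxeterMatrix (Fin N) where
  M := Matrix.of fun i j => if i = j then 1 else if mink (e i) (e j) = 0 then 2 else 0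
  isSymm := by
    ext i j
    simp only [Matrix.transpose_apply, Matrix.of_apply]
    rw [mink_comm (e j) (e i)]
    simp only [eq_comm]
  diagonal := by intro i; simp
  off_diagonal := by
    intro i j h
    simp only [Matrix.of_apply, if_neg h]
    split_ifs <;> decide

open Classical in
lemma cM_apply (e : Fin N → Fin (n + 1) → ℝ) (i j : Fin N) :
    cM e i j = if i = j then 1 else if mink (e i) (e j) = 0 then 2 else 0 := rfl

lemma cM_RA (e : Fin N → Fin (n + 1) → ℝ) : RA (cM e) := by
  intro i j hij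
  rw [cM_apply, if_neg hij]
  split_ifs <;> simp

include hP in
lemma cM_liftable : (cM e).IsLiftable (fun i => Rm (e i) (hP.unit i)) := by
  intro i j
  rw [cM_apply]
  split_ifs with h1 h2
  · subst h1
    rw [pow_one, Rm_sq]
  · apply GL_ext
    intro x
    rw [Rm_pow, rot_pow (m := 2) le_rfl (hP.unit i) (hP.unit j) (by rw [h2]; simp)]
    show x = (1 : Matrix (Fin (n + 1)) (Fin (n + 1)) ℝ) *ᵥ x
    rw [Matrix.one_mulVec]
  · rw [pow_zero]

/-- the tautological homomorphism onto the reflection group -/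
noncomputable def tau : (cM e).Group →* Matrix.GeneralLinearGroup (Fin (n + 1)) ℝ :=
  (cM e).toCoxeterSystem.lift ⟨_, cM_liftable hP⟩

lemma tau_simple (i : Fin N) : tau hP ((cM e).simple i) = Rm (e i) (hP.unit i) :=
  (cM e).toCoxeterSystem.lift_apply_simple (cM_liftable hP) i

lemma rfl'_hyp {a x : Fin (n + 1) → ℝ} (ha : mink a a = 1) (hx : x ∈ Hyp n) :
    rfl' a x ∈ Hyp n := by
  have h1 : mink (rfl' a x) (rfl' a x) = -1 := by
    rw [rfl'_apply, mink_sub_left, mink_sub_right, mink_sub_right, mink_smul_left,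
      mink_smul_right, mink_smul_left, mink_smul_right, ha, hx.1, mink_comm a x]
    ring
  refine ⟨h1, ?_⟩
  have h2 : Fwd (rfl' a x) := by
    apply fwd_of (by rw [h1]; norm_num) (fwd_of_hyp hx)
    rw [rfl'_apply, mink_sub_left, mink_smul_left, hx.1, mink_comm a x]
    nlinarith [sq_nonneg (mink x a)]
  exact h2.2

lemma rfl'_mink_right (a b x : Fin (n + 1) → ℝ) :
    mink (rfl' a x) b = mink x b - 2 * mink x a * mink a b := by
  rw [rfl'_apply, mink_sub_left, mink_smul_left]

/-- disjoint half-spaces -/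
lemma disj_half {a b y x0 : Fin (n + 1) → ℝ} (ha : mink a a = 1) (hb : mink b b = 1)
    (hab : mink a b ≤ -1) (hx0 : x0 ∈ Hyp n) (h1 : mink x0 a < 0) (h2 : mink x0 b < 0)
    (hy : y ∈ Hyp n) (hya : 0 < mink y a) : mink y b < 0 := by
  have hv : mink (a + b) (a + b) ≤ 0 := by
    rw [mink_add_left, mink_add_right, mink_add_right, ha, hb, mink_comm b a]; linarith
  have hF : Fwd (a + b) := by
    apply fwd_of hv (fwd_of_hyp hx0)
    rw [mink_comm, mink_add_right]; linarith
  have h3 := mink_neg hF (fwd_of_hyp hy) (by rw [hy.1]; norm_num)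
  rw [mink_comm, mink_add_right] at h3
  linarith

include hd in
lemma tits {x0 : Fin (n + 1) → ℝ} (hx0 : x0 ∈ Hyp n) (hneg : ∀ i, mink x0 (e i) < 0) (m : ℕ) :
    ∀ w : (cM e).Group, (cM e).toCoxeterSystem.length w = m →
      (tau hP w).1 *ᵥ x0 ∈ Hyp n ∧
      ∀ i, (mink ((tau hP w).1 *ᵥ x0) (e i) < 0 ∧
          (cM e).toCoxeterSystem.length ((cM e).simple i * w) = m + 1) ∨
        (0 < mink ((tau hP w).1 *ᵥ x0) (e i) ∧
          (cM e).toCoxeterSystem.length ((cM e).simple i * w) + 1 = m) := by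
  set sys := (cM e).toCoxeterSystem with hsys
  have hstep : ∀ (j : Fin N) (w : (cM e).Group),
      (tau hP ((cM e).simple j * w)).1 *ᵥ x0 = rfl' (e j) ((tau hP w).1 *ᵥ x0) := by
    intro j w
    rw [map_mul, GL_mul_apply, tau_simple, Rm_apply]
  induction m with
  | zero =>
    intro w hw
    rw [sys.length_eq_zero_iff] at hw
    subst hw
    have h1 : (tau hP 1).1 *ᵥ x0 = x0 := by
      rw [map_one]
      show (1 : Matrix (Fin (n + 1)) (Fin (n + 1)) ℝ) *ᵥ x0 = x0
      rw [Matrix.one_mulVec]
    rw [h1]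
    refine ⟨hx0, fun i => Or.inl ⟨hneg i, ?_⟩⟩
    rw [mul_one]
    exact sys.length_simple i
  | succ m ih =>
    intro w hw
    have hw1 : w ≠ 1 := by
      rintro rfl
      rw [sys.length_one] at hw
      omega
    obtain ⟨j, hj⟩ := sys.exists_leftDescent_of_ne_one hw1
    rw [sys.isLeftDescent_iff] at hj
    have hsj : sys.simple j = (cM e).simple j := rfl
    rw [hsj] at hj
    set w' := (cM e).simple j * w with hw'
    have hlw' : sys.length w' = m := by omega
    have hww : w = (cM e).simple j * w' := by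
      rw [hw', ← mul_assoc, simple_sq, one_mul]
    obtain ⟨hH, hall⟩ := ih w' hlw'
    have hjj : mink ((tau hP w').1 *ᵥ x0) (e j) < 0 := by
      rcases hall j with h | h
      · exact h.1
      · exfalso
        rw [← hww, hw] at h
        omega
    set y := (tau hP w').1 *ᵥ x0 with hy
    have hwy : (tau hP w).1 *ᵥ x0 = rfl' (e j) y := by
      rw [hww, hstep]
    have hH2 : (tau hP w).1 *ᵥ x0 ∈ Hyp n := by
      rw [hwy]; exact rfl'_hyp (hP.unit j) hH
    refine ⟨hH2, ?_⟩
    -- the length statement follows from the sign in the negative case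
    have trick : ∀ i, mink ((tau hP w).1 *ᵥ x0) (e i) < 0 →
        sys.length ((cM e).simple i * w) = m + 1 + 1 := by
      intro i hi
      rcases sys.length_simple_mul w i with h | h
      · rw [hw] at h; exact h
      · exfalso
        rw [hw] at h
        have hu : sys.length ((cM e).simple i * w) = m := by
          have : sys.simple i = (cM e).simple i := rfl
          rw [this] at h
          omega
        obtain ⟨-, hall2⟩ := ih _ hu
        have hback : (cM e).simple i * ((cM e).simple i * w) = w := by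
          rw [← mul_assoc, simple_sq, one_mul]
        rcases hall2 i with h2 | h2
        · have h3 := h2.1
          rw [hstep, rfl'_mink_right, hP.unit] at h3
          linarith
        · have h3 := h2.2
          rw [hback, hw] at h3
          omega
    intro i
    by_cases hij : i = j
    · subst hij
      right
      refine ⟨?_, ?_⟩
      · rw [hwy, rfl'_mink_right, hP.unit]; linarith
      · rw [← hw', hlw']
    · rcases hd i j hij with h0 | h0
      · have h0' : mink (e j) (e i) = 0 := by rw [mink_comm]; exact h0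
        have hsame : mink ((tau hP w).1 *ᵥ x0) (e i) = mink y (e i) := by
          rw [hwy, rfl'_mink_right, h0']; ring
        rcases hall i with h | h
        · left
          refine ⟨by rw [hsame]; exact h.1, ?_⟩
          apply trick
          rw [hsame]; exact h.1
        · right
          refine ⟨by rw [hsame]; exact h.1, ?_⟩
          have hcomm : Commute ((cM e).simple i) ((cM e).simple j) := by
            apply simple_comm (cM_RA e)
            rw [cM_apply, if_neg hij, if_pos h0]; omega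
          have h3 : (cM e).simple i * w = (cM e).simple j * ((cM e).simple i * w') := by
            rw [hww, ← mul_assoc, hcomm.eq, mul_assoc]
          have h4 := sys.length_simple_mul w i
          have h5 : sys.length ((cM e).simple i * w) ≤ 1 + sys.length ((cM e).simple i * w') := by
            rw [h3]
            have := sys.length_mul_le ((cM e).simple j) ((cM e).simple i * w')
            have h6 : sys.length ((cM e).simple j) = 1 := sys.length_simple j
            omega
          have h7 : sys.simple i = (cM e).simple i := rfl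
          rw [h7] at h4
          have h8 := h.2
          omega
      · left
        have hneg' : mink ((tau hP w).1 *ᵥ x0) (e i) < 0 := by
          apply disj_half (hP.unit j) (hP.unit i) (by rw [mink_comm]; exact h0) hx0
            (hneg j) (hneg i) hH2
          rw [hwy, rfl'_mink_right, hP.unit]; linarith
        exact ⟨hneg', trick i hneg'⟩

include hd in
lemma tau_inj : Function.Injective (tau hP) := by
  rw [injective_iff_map_eq_one]
  intro w hw
  by_contra hne
  obtain ⟨x0, hx0, hneg⟩ := hP.interior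
  obtain ⟨i, hi⟩ := (cM e).toCoxeterSystem.exists_leftDescent_of_ne_one hne
  rw [(cM e).toCoxeterSystem.isLeftDescent_iff] at hi
  obtain ⟨-, h⟩ := tits hP hd hx0 hneg _ w rfl
  rcases h i with h1 | h1
  · have h2 := h1.2
    have h3 : (cM e).toCoxeterSystem.simple i = (cM e).simple i := rfl
    rw [h3] at hi
    omega
  · have h2 := h1.1
    rw [hw] at h2
    have h3 : (1 : Matrix.GeneralLinearGroup (Fin (n + 1)) ℝ).1 *ᵥ x0 = x0 := by
      show (1 : Matrix (Fin (n + 1)) (Fin (n + 1)) ℝ) *ᵥ x0 = x0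
      rw [Matrix.one_mulVec]
    rw [h3] at h2
    have := hneg i
    linarith

lemma tau_range : (tau hP).range = reflectionGroup n N e := by
  rw [reflectionGroup_eq hP]
  have h1 : (⊤ : Subgroup (cM e).Group) =
      Subgroup.closure (Set.range (cM e).toCoxeterSystem.simple) :=
    (cM e).toCoxeterSystem.subgroup_closure_range_simple.symm
  rw [MonoidHom.range_eq_map, h1, MonoidHom.map_closure, ← Set.range_comp]
  congr 1
  apply congrArg Set.range
  funext i
  exact tau_simple hP i

/-- Tits: the reflection group of a right-angled polytope is the abstract Coxeter group -/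
noncomputable def tauEquiv : (cM e).Group ≃* reflectionGroup n N e :=
  (MonoidHom.ofInjective (tau_inj hP hd)).trans (MulEquiv.subgroupCongr (tau_range hP))

end tits

lemma nonneg_of_orth' {v w : Fin (n + 1) → ℝ} (hw' : mink w w < 0)
    (h : mink v w = 0) : 0 ≤ mink v v := by
  rcases lt_trichotomy (w (Fin.last n)) 0 with h1 | h1 | h1
  · apply nonneg_of_orth (fwd_neg_of hw'.le h1)
    · rw [mink_neg_left, mink_neg_right]; linarith
    · rw [mink_neg_right, h, neg_zero]
  · have := eq_zero_of_causal hw'.le h1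
    rw [this, mink_zero_left] at hw'
    exact absurd hw' (lt_irrefl 0)
  · exact nonneg_of_orth ⟨hw'.le, h1⟩ hw' h

/-- the determinant inequality for five vectors in Lorentzian space -/
lemma five_ineq {x0 x1 x2 x3 : Fin (n + 1) → ℝ} {c0 c1 c3 : ℝ}
    (h00 : mink x0 x0 = 2) (h11 : mink x1 x1 = 2) (h22 : mink x2 x2 = 2) (h33 : mink x3 x3 = 2)
    (h01 : mink x0 x1 = 0) (h12 : mink x1 x2 = 0) (h23 : mink x2 x3 = 0)
    (h02 : mink x0 x2 = -(2 * c0)) (h13 : mink x1 x3 = -(2 * c1)) (h30 : mink x3 x0 = -(2 * c3))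
    (hc0 : 1 < c0) : (c0 ^ 2 - 1) * (c1 ^ 2 - 1) ≤ c3 ^ 2 := by
  set D := c0 ^ 2 - 1 with hD
  have hDpos : 0 < D := by nlinarith
  have h10 : mink x1 x0 = 0 := by rw [mink_comm]; exact h01
  have h20 : mink x2 x0 = -(2 * c0) := by rw [mink_comm]; exact h02
  have h21 : mink x2 x1 = 0 := by rw [mink_comm]; exact h12
  have h32 : mink x3 x2 = 0 := by rw [mink_comm]; exact h23
  have h31 : mink x3 x1 = -(2 * c1) := by rw [mink_comm]; exact h13
  have h03 : mink x0 x3 = -(2 * c3) := by rw [mink_comm]; exact h30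
  set w := D • x3 - c3 • x0 - (c0 * c3) • x2 + (c1 * D) • x1 with hw
  have ht : mink (x0 + x2) (x0 + x2) < 0 := by
    rw [mink_add_left, mink_add_right, mink_add_right, h00, h22, h02, h20]; linarith
  have ho : mink w (x0 + x2) = 0 := by
    rw [hw]
    simp only [mink_add_left, mink_sub_left, mink_smul_left, mink_add_right, h30, h32, h00, h02,
      h20, h22, h10, h12]
    rw [hD]; ring
  have hnn := nonneg_of_orth' ht ho
  have hww : mink w w = 2 * D * (D + c3 ^ 2 - D * c1 ^ 2) := by
    rw [hw]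
    simp only [mink_add_left, mink_sub_left, mink_smul_left, mink_add_right, mink_sub_right,
      mink_smul_right, h00, h01, h02, h03, h10, h11, h12, h13, h20, h21, h22, h23, h30, h31, h32,
      h33]
    rw [hD]; ring
  rw [hww] at hnn
  have h5 : 0 ≤ D + c3 ^ 2 - D * c1 ^ 2 := by
    by_contra hneg
    push Not at hneg
    have : 2 * D * (D + c3 ^ 2 - D * c1 ^ 2) < 0 := by
      apply mul_neg_of_pos_of_neg _ hneg
      linarith
    linarith
  linarith

/-- no such configuration of five vectors -/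
lemma no_five (x : Fin 5 → Fin (n + 1) → ℝ) (h1 : ∀ i, mink (x i) (x i) = 2)
    (h2 : ∀ i, mink (x i) (x (i + 1)) = 0) (h3 : ∀ i, mink (x i) (x (i + 2)) ≤ -4) : False := by
  set c : Fin 5 → ℝ := fun i => - mink (x i) (x (i + 2)) / 2 with hc
  have hc2 : ∀ i, 2 ≤ c i := by
    intro i
    have := h3 i
    simp only [hc]; linarith
  obtain ⟨i0, hi0⟩ := Finite.exists_min c
  have hx : ∀ i, mink (x i) (x (i + 2)) = -(2 * c i) := by
    intro i; simp only [hc]; ring
  have e1 : ∀ i : Fin 5, i + 1 + 1 = i + 2 := by decide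
  have e2 : ∀ i : Fin 5, i + 2 + 1 = i + 3 := by decide
  have e3 : ∀ i : Fin 5, i + 1 + 2 = i + 3 := by decide
  have e4 : ∀ i : Fin 5, i + 3 + 2 = i := by decide
  have e5 : ∀ i : Fin 5, i + 2 + 3 = i := by decide
  have key : ∀ i, (c i ^ 2 - 1) * (c (i + 1) ^ 2 - 1) ≤ c (i + 3) ^ 2 := by
    intro i
    have a01 := h2 i
    have a12 := h2 (i + 1)
    have a23 := h2 (i + 2)
    have a02 := hx i
    have a13 := hx (i + 1)
    have a30 := hx (i + 3)
    rw [e1] at a12
    rw [e2] at a23
    rw [e3] at a13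
    rw [e4] at a30
    exact five_ineq (h1 i) (h1 _) (h1 _) (h1 _) a01 a12 a23 a02 a13 a30
      (by linarith [hc2 i])
  have h5 := key (i0 + 2)
  rw [e5] at h5
  have h6 := hi0 (i0 + 2)
  have h7 := hi0 (i0 + 2 + 1)
  have h8 := hc2 i0
  have h9 : c i0 ^ 2 - 1 ≤ c (i0 + 2) ^ 2 - 1 := by nlinarith
  have h10 : c i0 ^ 2 - 1 ≤ c (i0 + 2 + 1) ^ 2 - 1 := by nlinarith
  have h11 : 0 < c i0 ^ 2 - 1 := by nlinarith
  have h12 : (c i0 ^ 2 - 1) * (c i0 ^ 2 - 1) ≤ c i0 ^ 2 := by
    calc (c i0 ^ 2 - 1) * (c i0 ^ 2 - 1)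
        ≤ (c (i0 + 2) ^ 2 - 1) * (c (i0 + 2 + 1) ^ 2 - 1) :=
          mul_le_mul h9 h10 h11.le (by linarith)
      _ ≤ _ := h5
  nlinarith [mul_nonneg (by linarith : (0 : ℝ) ≤ c i0 - 2) (by linarith : (0 : ℝ) ≤ c i0)]

/-- `W` is not a reflection group of any hyperbolic Coxeter polytope. -/
theorem not_polytope (hP : IsCoxeterPolytope n N e) (φ : W ≃* reflectionGroup n N e) : False := by
  have ht : ∀ (w : reflectionGroup n N e) (m : ℕ), 0 < m → w ^ m = 1 → w ^ 2 = 1 := by
    intro w m hm hw
    have h1 : (φ.symm w) ^ m = 1 := by rw [← map_pow, hw, map_one]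
    have h2 := torsion_sq hm h1
    have h3 := congrArg φ h2
    rw [map_pow, MulEquiv.apply_symm_apply, map_one] at h3
    exact h3
  have hd : ∀ i j, i ≠ j → mink (e i) (e j) = 0 ∨ mink (e i) (e j) ≤ -1 :=
    fun i j hij => right_angled hP ht hij
  obtain ⟨k, hk⟩ := rigid (cM_RA e) (φ.trans (tauEquiv hP hd).symm)
  have hne : ∀ p q, p ≠ q → k p ≠ k q := by
    intro p q hpq h
    have h1 := hk p q
    rw [h, (cM e).diagonal, pentM_apply, if_neg hpq] at h1
    split_ifs at h1
    all_goals omega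
  have horth : ∀ p q, p ≠ q → far p.1 q.1 = false → mink (e (k p)) (e (k q)) = 0 := by
    intro p q hpq hf
    have h1 := hk p q
    rw [pentM_apply, if_neg hpq, if_neg (by rw [hf]; simp), cM_apply,
      if_neg (hne p q hpq)] at h1
    by_contra h2
    rw [if_neg h2] at h1
    omega
  have hfar : ∀ p q, far p.1 q.1 = true → mink (e (k p)) (e (k q)) ≤ -1 := by
    intro p q hf
    have hpq : p ≠ q := by
      rintro rfl
      rw [far_irrefl] at hf
      exact absurd hf (by simp)
    have h1 := hk p q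
    rw [pentM_zero hf, cM_apply, if_neg (hne p q hpq)] at h1
    refine (hd _ _ (hne p q hpq)).resolve_left ?_
    intro h2
    rw [if_pos h2] at h1
    omega
  have f1 : ∀ i : Fin 5, far i (i + 1) = false := by decide
  have f2 : ∀ i : Fin 5, far i (i + 2) = true := by decide
  have f3 : ∀ i : Fin 5, i ≠ i + 1 := by decide
  refine no_five (fun i => e (k (i, 0)) + e (k (i, 1))) ?_ ?_ ?_
  · intro i
    show mink (e (k (i, 0)) + e (k (i, 1))) (e (k (i, 0)) + e (k (i, 1))) = 2
    rw [mink_add_left, mink_add_right, mink_add_right, hP.unit, hP.unit,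
      horth (i, 0) (i, 1) (by simp) (far_irrefl i), horth (i, 1) (i, 0) (by simp) (far_irrefl i)]
    norm_num
  · intro i
    show mink (e (k (i, 0)) + e (k (i, 1))) (e (k (i + 1, 0)) + e (k (i + 1, 1))) = 0
    have hz : ∀ a b : Fin 2, mink (e (k (i, a))) (e (k (i + 1, b))) = 0 := by
      intro a b
      apply horth
      · intro h
        exact f3 i (congrArg Prod.fst h)
      · exact f1 i
    rw [mink_add_left, mink_add_right, mink_add_right, hz, hz, hz, hz]
    norm_num
  · intro i
    show mink (e (k (i, 0)) + e (k (i, 1))) (e (k (i + 2, 0)) + e (k (i + 2, 1))) ≤ -4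
    have hz : ∀ a b : Fin 2, mink (e (k (i, a))) (e (k (i + 2, b))) ≤ -1 := by
      intro a b
      exact hfar _ _ (f2 i)
    rw [mink_add_left, mink_add_right, mink_add_right]
    linarith [hz 0 0, hz 0 1, hz 1 0, hz 1 1]

end Pool.Agent.Helper613.DH
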