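import Pool.Agent.Helper613.DHGeom

set_option autoImplicit false

namespace Pool.Agent.Helper613.DH

open Module Filter Topology

lemma exists_pos_fintype {α : Type} [Finite α] [Nonempty α] (P : α → ℝ → Prop)
    (mono : ∀ a ε ε', 0 < ε' → ε' ≤ ε → P a ε → P a ε') (h : ∀ a, ∃ ε, 0 < ε ∧ P a ε) :
    ∃ ε, 0 < ε ∧ ∀ a, P a ε := by
  choose f hf1 hf2 using h
  obtain ⟨a0, ha0⟩ := Finite.exists_min f
  exact ⟨f a0, hf1 a0, fun a => mono a (f a) (f a0) (hf1 a0) (ha0 a) (hf2 a)⟩

/-- upper bound by the time coordinate -/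
lemma abs_mink_le {d : ℕ} (y : Fin (d + 1) → ℝ) : ∃ C : ℝ, 0 < C ∧ ∀ x : Fin (d + 1) → ℝ, Fwd x →
    - mink x y ≤ C * x (Fin.last d) := by
  refine ⟨(∑ i : Fin d, |y i.castSucc|) + |y (Fin.last d)| + 1, by positivity, ?_⟩
  intro x hx
  have hl := hx.2
  have h1 : ∀ i : Fin d, -(x i.castSucc * y i.castSucc) ≤ x (Fin.last d) * |y i.castSucc| := by
    intro i
    have h2 : |x i.castSucc| ≤ x (Fin.last d) :=
      abs_le_of_causal hl.le hx.1 (by rw [abs_of_pos hl]) i.castSucc
    calc -(x i.castSucc * y i.castSucc) ≤ |x i.castSucc * y i.castSucc| := neg_le_abs _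
      _ = |x i.castSucc| * |y i.castSucc| := abs_mul _ _
      _ ≤ _ := by gcongr
  have h3 : -(∑ i : Fin d, x i.castSucc * y i.castSucc) ≤
      x (Fin.last d) * ∑ i : Fin d, |y i.castSucc| := by
    rw [← Finset.sum_neg_distrib, Finset.mul_sum]
    exact Finset.sum_le_sum fun i _ => h1 i
  have h4 : x (Fin.last d) * y (Fin.last d) ≤ x (Fin.last d) * |y (Fin.last d)| := by
    gcongr; exact le_abs_self _
  unfold mink
  nlinarith

/-- Separation of a null vector by a wall. -/
lemma sep_wall {d : ℕ} {ξ B : Fin (d + 1) → ℝ} (hξ : Fwd ξ) (hξ0 : mink ξ ξ = 0)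
    (hB : mink B B = 30) (h : mink ξ B < 0) :
    ∃ ε : ℝ, 0 < ε ∧ ∀ x : Fin (d + 1) → ℝ, Fwd x → 0 ≤ mink x B →
      ε * x (Fin.last d) ≤ - mink x ξ := by
  set m := (2 : ℝ) • ξ - (1 / 15 * mink ξ B) • B with hm
  have hmm : mink m m = - (2 / 15) * mink ξ B ^ 2 := by
    rw [hm]
    simp only [mink_sub_left, mink_sub_right, mink_smul_left, mink_smul_right]
    rw [mink_comm B ξ, hξ0, hB]; ring
  have hmneg : mink m m < 0 := by
    rw [hmm]
    have : 0 < mink ξ B ^ 2 := by
      have := h.ne
      positivity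
    linarith
  have hmξ : mink m ξ = - (1 / 15) * mink ξ B ^ 2 := by
    rw [hm]
    simp only [mink_sub_left, mink_smul_left]
    rw [mink_comm B ξ, hξ0]; ring
  have hmf : Fwd m := by
    apply fwd_of hmneg.le hξ
    rw [hmξ]
    have : 0 < mink ξ B ^ 2 := by
      have := h.ne
      positivity
    linarith
  obtain ⟨ε, hε, hle⟩ := exists_eps hmf hmneg
  refine ⟨ε / 2, by positivity, ?_⟩
  intro x hx hxB
  have h1 := hle x hx
  have h2 : mink x m = 2 * mink x ξ - 1 / 15 * mink ξ B * mink x B := by
    rw [hm, mink_sub_right, mink_smul_right, mink_smul_right]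
  have h3 : 0 ≤ - (1 / 15 * mink ξ B * mink x B) := by
    have := mul_nonneg (show 0 ≤ - (1 / 15 * mink ξ B) by linarith) hxB
    linarith
  rw [h2] at h1
  linarith

lemma act_last_le (u : W) : ∃ C : ℝ, 0 < C ∧ ∀ x : Fin (26 + 1) → ℝ, Fwd x →
    act u x (Fin.last 26) ≤ C * x (Fin.last 26) := by
  obtain ⟨C, hC, hle⟩ := abs_mink_le (act u⁻¹ (eT 26))
  refine ⟨C, hC, fun x hx => ?_⟩
  have h1 := hle x hx
  have h2 : mink x (act u⁻¹ (eT 26)) = - act u x (Fin.last 26) := by
    rw [← mink_act_left, mink_eT]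
  rw [h2] at h1
  linarith

/-- block elements including the identity -/
noncomputable def gg (i : Fin 5) (c : Option (Fin 3)) : W :=
  match c with
  | none => 1
  | some c => g i c

lemma gg_mul (i : Fin 5) (c : Fin 3) (c' : Option (Fin 3)) :
    ∃ c'' : Option (Fin 3), g i c * gg i c' = gg i c'' := by
  cases c' with
  | none => exact ⟨some c, mul_one _⟩
  | some c' =>
    by_cases h : c = c'
    · exact ⟨none, by show g i c * g i c' = 1; rw [g_mul, if_pos h]⟩
    · exact ⟨some (-(c + c')), by show g i c * g i c' = g i _; rw [g_mul, if_neg h]⟩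

lemma gg_comm {i j : Fin 5} (h : far i j = false) (c : Fin 3) (c' : Option (Fin 3)) :
    g i c * gg j c' = gg j c' * g i c := by
  cases c' with
  | none => show g i c * 1 = 1 * g i c; rw [mul_one, one_mul]
  | some c' => exact g_comm h c c'

lemma gg_near {i j : Fin 5} (hij : i ≠ j) (h : far i j = false) (c : Option (Fin 3)) (k : Fin 3)
    (x : Fin (26 + 1) → ℝ) : mink (act (gg i c) x) (A j k) = mink x (A j k) := by
  cases c with
  | none => show mink (act 1 x) _ = _; rw [act_one]
  | some c => exact near_fix_A hij h c k x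

lemma near_succ : ∀ i : Fin 5, far i (i + 1) = false := by decide
lemma ne_succ : ∀ i : Fin 5, i ≠ i + 1 := by decide

/-- two adjacent blocks can be made nonpositive simultaneously -/
lemma two_blocks (i : Fin 5) (x : Fin (26 + 1) → ℝ) :
    ∃ c c' : Option (Fin 3), (∀ k, mink (act (gg i c * gg (i + 1) c') x) (A i k) ≤ 0) ∧
      (∀ k, mink (act (gg i c * gg (i + 1) c') x) (A (i + 1) k) ≤ 0) := by
  obtain ⟨⟨c, c'⟩, hmin⟩ := Finite.exists_min
    (fun p : Option (Fin 3) × Option (Fin 3) => - mink (act (gg i p.1 * gg (i + 1) p.2) x) o)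
  simp only at hmin
  refine ⟨c, c', fun k => ?_, fun k => ?_⟩
  · by_contra hneg
    push Not at hneg
    obtain ⟨c'', hc''⟩ := gg_mul i k c
    have h1 := hmin (c'', c')
    simp only at h1
    rw [← hc'', mul_assoc, act_mul (g i k), flip_o] at h1
    linarith
  · by_contra hneg
    push Not at hneg
    obtain ⟨c'', hc''⟩ := gg_mul (i + 1) k c'
    have h1 := hmin (c, c'')
    simp only at h1
    have e : gg i c * gg (i + 1) c'' = g (i + 1) k * (gg i c * gg (i + 1) c') := by
      rw [← hc'', ← mul_assoc, ← mul_assoc, gg_comm (by rw [far_symm]; exact near_succ i)]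
    rw [e, act_mul (g (i + 1) k), flip_o] at h1
    linarith

lemma clique_cover : ∀ T : Fin 5 → Bool, (∀ i j, T i = true → T j = true → far i j = false) →
    ∃ i, ∀ j, T j = true → j = i ∨ j = i + 1 := by decide +kernel

/-- Key separation lemma: a null vector of the closed chamber is not a limit of the orbit. -/
theorem sep {ξ : Fin (26 + 1) → ℝ} (hξ : Fwd ξ) (hξ0 : mink ξ ξ = 0)
    (hK : ∀ i c, mink ξ (A i c) ≤ 0) :
    ∃ ε : ℝ, 0 < ε ∧ ∀ w : W, ε * act w o (Fin.last 26) ≤ - mink (act w o) ξ := by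
  classical
  -- the blocks on whose walls `ξ` lies
  obtain ⟨i0, hi0⟩ := clique_cover (fun i => decide (∃ c, mink ξ (A i c) = 0)) (by
    intro i j hi hj
    rw [decide_eq_true_iff] at hi hj
    obtain ⟨c, hc⟩ := hi
    obtain ⟨c', hc'⟩ := hj
    by_contra hfar
    have hfar : far i j = true := by simpa using hfar
    have := far_walls hfar c c' hξ hc.ge
    rw [hc'] at this
    exact absurd this (lt_irrefl 0))
  have hstrict : ∀ j, j ≠ i0 → j ≠ i0 + 1 → ∀ c, mink ξ (A j c) < 0 := by
    intro j h1 h2 c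
    refine lt_of_le_of_ne (hK j c) ?_
    intro h
    rcases hi0 j (by rw [decide_eq_true_iff]; exact ⟨c, h⟩) with h3 | h3
    · exact h1 h3
    · exact h2 h3
  -- reduce to finitely many pairs
  have key : ∀ p : Option (Fin 3) × Option (Fin 3), ∃ ε : ℝ, 0 < ε ∧ ∀ w : W,
      (∀ k, mink (act (gg i0 p.1 * gg (i0 + 1) p.2 * w) o) (A i0 k) ≤ 0) →
      (∀ k, mink (act (gg i0 p.1 * gg (i0 + 1) p.2 * w) o) (A (i0 + 1) k) ≤ 0) →
      ε * act w o (Fin.last 26) ≤ - mink (act w o) ξ := by
    rintro ⟨c, c'⟩
    simp only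
    set h := gg i0 c * gg (i0 + 1) c' with hh
    set ξ' := act h ξ with hξ'
    have hξ'f : Fwd ξ' := act_fwd h ξ hξ
    have hξ'0 : mink ξ' ξ' = 0 := by rw [hξ', mink_act, hξ0]
    -- strictness of the other walls at `ξ'`
    have hneg : ∀ j, j ≠ i0 → j ≠ i0 + 1 → ∀ k, mink ξ' (A j k) < 0 := by
      intro j h1 h2 k
      have e1 : ξ' = act (gg i0 c) (act (gg (i0 + 1) c') ξ) := by rw [hξ', hh, act_mul]
      have e2 : gg i0 c * gg (i0 + 1) c' = gg (i0 + 1) c' * gg i0 c := by
        cases c with
        | none => show 1 * _ = _ * 1; rw [one_mul, mul_one]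
        | some c => exact gg_comm (near_succ i0) c c'
      have e3 : ξ' = act (gg (i0 + 1) c') (act (gg i0 c) ξ) := by rw [hξ', hh, e2, act_mul]
      have n1 := near_succ i0
      have n2 : far (i0 + 1) i0 = false := by rw [far_symm]; exact n1
      have n3 := ne_succ i0
      by_cases hf1 : far j i0 = true ∧ ∃ c1, c = some c1
      · obtain ⟨hf1, c1, rfl⟩ := hf1
        have h3 : mink ξ' (A i0 c1) = - mink ξ (A i0 c1) := by
          rw [e1]
          show mink (act (g i0 c1) _) _ = _
          rw [wall_flip, gg_near n3.symm n2]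
        refine far_walls (by rw [far_symm]; exact hf1) c1 k hξ'f ?_
        rw [h3]; linarith [hK i0 c1]
      · by_cases hf2 : far j (i0 + 1) = true ∧ ∃ c1, c' = some c1
        · obtain ⟨hf2, c1, rfl⟩ := hf2
          have h3 : mink ξ' (A (i0 + 1) c1) = - mink ξ (A (i0 + 1) c1) := by
            rw [e3]
            show mink (act (g (i0 + 1) c1) _) _ = _
            rw [wall_flip, gg_near n3 n1]
          refine far_walls (by rw [far_symm]; exact hf2) c1 k hξ'f ?_
          rw [h3]; linarith [hK (i0 + 1) c1]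
        · have a1 : ∀ y, mink (act (gg i0 c) y) (A j k) = mink y (A j k) := by
            intro y
            cases c with
            | none => show mink (act 1 y) _ = _; rw [act_one]
            | some c =>
              have : far i0 j = false := by
                rw [far_symm]
                by_contra hcon
                exact hf1 ⟨by simpa using hcon, c, rfl⟩
              exact near_fix_A h1.symm this c k y
          have a2 : ∀ y, mink (act (gg (i0 + 1) c') y) (A j k) = mink y (A j k) := by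
            intro y
            cases c' with
            | none => show mink (act 1 y) _ = _; rw [act_one]
            | some c' =>
              have : far (i0 + 1) j = false := by
                rw [far_symm]
                by_contra hcon
                exact hf2 ⟨by simpa using hcon, c', rfl⟩
              exact near_fix_A h2.symm this c' k y
          rw [e1, a1, a2]
          exact hstrict j h1 h2 k
    -- uniform constant over the walls
    obtain ⟨ε1, hε1, hwall⟩ := exists_pos_fintype (α := Fin 5 × Fin 3)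
      (fun q ε => q.1 ≠ i0 → q.1 ≠ i0 + 1 → ∀ x : Fin (26 + 1) → ℝ, Fwd x →
        0 ≤ mink x (A q.1 q.2) → ε * x (Fin.last 26) ≤ - mink x ξ')
      (by
        intro q ε ε' _ hle hP h1 h2 x hx hxA
        have := hP h1 h2 x hx hxA
        have := mul_le_mul_of_nonneg_right hle hx.2.le
        linarith)
      (by
        rintro ⟨j, k⟩
        by_cases h1 : j = i0
        · exact ⟨1, one_pos, fun h => absurd h1 h⟩
        · by_cases h2 : j = i0 + 1
          · exact ⟨1, one_pos, fun _ h => absurd h2 h⟩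
          · obtain ⟨ε, hε, hle⟩ := sep_wall hξ'f hξ'0 (mink_AA j k) (hneg j h1 h2 k)
            exact ⟨ε, hε, fun _ _ x hx hxA => hle x hx hxA⟩)
    obtain ⟨C, hC, hCle⟩ := act_last_le h⁻¹
    have ho : mink (act h⁻¹ o) ξ < 0 := by
      rw [mink_comm]
      exact mink_neg hξ (act_fwd _ _ fwd_o) (by rw [mink_act, mink_oo]; norm_num)
    have hol : 0 < act h⁻¹ o (Fin.last 26) := (act_fwd h⁻¹ o fwd_o).2
    refine ⟨min (ε1 / C) (- mink (act h⁻¹ o) ξ / act h⁻¹ o (Fin.last 26)),
      lt_min (by positivity) (div_pos (by linarith) hol), ?_⟩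
    intro w hw1 hw2
    have hpf : Fwd (act w o) := act_fwd w o fwd_o
    by_cases hw : h * w = 1
    · have hwh : w = h⁻¹ := by rw [eq_comm, inv_eq_iff_mul_eq_one]; exact hw
      rw [hwh]
      have h1 := min_le_right (ε1 / C) (- mink (act h⁻¹ o) ξ / act h⁻¹ o (Fin.last 26))
      have h2 := mul_le_mul_of_nonneg_right h1 hol.le
      rwa [div_mul_cancel₀ _ hol.ne'] at h2
    · obtain ⟨j, k, hjk⟩ := outside hw
      have hj1 : j ≠ i0 := by
        rintro rfl
        have := hw1 k
        linarith
      have hj2 : j ≠ i0 + 1 := by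
        rintro rfl
        have := hw2 k
        linarith
      have hp'f : Fwd (act (h * w) o) := act_fwd _ o fwd_o
      have h3 := hwall (j, k) hj1 hj2 (act (h * w) o) hp'f hjk.le
      have h4 : mink (act (h * w) o) ξ' = mink (act w o) ξ := by
        rw [hξ', act_mul, mink_act]
      rw [h4] at h3
      have h5 := hCle (act (h * w) o) hp'f
      rw [← act_mul, ← mul_assoc, inv_mul_cancel, one_mul] at h5
      have h6 := min_le_left (ε1 / C) (- mink (act h⁻¹ o) ξ / act h⁻¹ o (Fin.last 26))
      calc min (ε1 / C) (- mink (act h⁻¹ o) ξ / act h⁻¹ o (Fin.last 26)) *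
            act w o (Fin.last 26) ≤ ε1 / C * act w o (Fin.last 26) :=
            mul_le_mul_of_nonneg_right h6 hpf.2.le
        _ ≤ ε1 / C * (C * act (h * w) o (Fin.last 26)) :=
            mul_le_mul_of_nonneg_left h5 (by positivity)
        _ = ε1 * act (h * w) o (Fin.last 26) := by field_simp
        _ ≤ _ := h3
  obtain ⟨ε, hε, hall⟩ := exists_pos_fintype _ (by
    intro p ε ε' _ hle hP w h1 h2
    have h3 := hP w h1 h2
    have h4 := mul_le_mul_of_nonneg_right hle (act_fwd w o fwd_o).2.le
    linarith) key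
  refine ⟨ε, hε, fun w => ?_⟩
  obtain ⟨c, c', h1, h2⟩ := two_blocks i0 (act w o)
  refine hall (c, c') w ?_ ?_
  · intro k
    simp only
    rw [act_mul]; exact h1 k
  · intro k
    simp only
    rw [act_mul]; exact h2 k

end Pool.Agent.Helper613.DH
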