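import Pool.Agent.Helper613.DHMink
import Pool.Agent.Helper613.DHGroup

set_option autoImplicit false

namespace Pool.Agent.Helper613.DH

open Module

def pz : ℕ → ℤ := fun n => if n = 0 then 2 else if n = 1 then 3 else if n = 2 then 2 else 0

def dz (k : Fin 3) (n : ℕ) : ℤ :=
  if k = 0 then (if n = 0 then 1 else if n = 1 then 3 else 0)
  else if k = 1 then (if n = 0 then 1 else if n = 1 then -2 else if n = 2 then 1 else 2)
  else (if n = 0 then -2 else if n = 1 then -1 else if n = 2 then -1 else -2)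

/-- fifteen integral vectors of the Minkowski space of signature `(26, 1)` -/
def Fz (a : Fin 5 × Fin 3) (t : Fin 27) : ℤ :=
  if t.1 < 5 then pz ((t.1 + 5 - a.1.1) % 5)
  else if t.1 = 5 then 2
  else if t.1 < 26 then (if (t.1 - 6) / 4 = a.1.1 then dz a.2 ((t.1 - 6) % 4) else 0)
  else 4

lemma Fz_gram : ∀ a b : Fin 5 × Fin 3,
    (∑ t : Fin 26, Fz a t.castSucc * Fz b t.castSucc) - Fz a (Fin.last 26) * Fz b (Fin.last 26) =
      if a = b then 15 else if far a.1 b.1 then -8 else 0 := by
  decide +kernel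

noncomputable def F (a : Fin 5 × Fin 3) : Fin (26 + 1) → ℝ := fun t => (Fz a t : ℝ)

lemma mink_FF (a b : Fin 5 × Fin 3) :
    mink (F a) (F b) = if a = b then 15 else if far a.1 b.1 then -8 else 0 := by
  have h := Fz_gram a b
  have h2 : mink (F a) (F b) = (((∑ t : Fin 26, Fz a t.castSucc * Fz b t.castSucc) -
      Fz a (Fin.last 26) * Fz b (Fin.last 26) : ℤ) : ℝ) := by
    unfold mink F
    push_cast
    rfl
  rw [h2, h]
  split_ifs <;> simp

lemma F_last (a : Fin 5 × Fin 3) : F a (Fin.last 26) = 4 := by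
  have : Fz a (Fin.last 26) = 4 := by
    simp [Fz]
  show ((Fz a (Fin.last 26) : ℤ) : ℝ) = 4
  rw [this]; norm_num

/-- the base point (not normalised) -/
noncomputable def o : Fin (26 + 1) → ℝ := ∑ a, F a

lemma count33 : ∀ b : Fin 5 × Fin 3,
    ∑ a : Fin 5 × Fin 3, (if a = b then (15 : ℤ) else if far a.1 b.1 then -8 else 0) = -33 := by
  decide +kernel

lemma mink_oF (b : Fin 5 × Fin 3) : mink o (F b) = -33 := by
  unfold o
  rw [mink_sum_left]
  have h : ∀ a, mink (F a) (F b) =
      ((if a = b then (15 : ℤ) else if far a.1 b.1 then -8 else 0 : ℤ) : ℝ) := by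
    intro a
    rw [mink_FF]; split_ifs <;> simp
  simp only [h]
  rw [← Int.cast_sum, count33]; norm_num

lemma mink_oo : mink o o = -495 := by
  have : mink o o = ∑ a, mink (F a) o := by
    conv_lhs => rw [show mink o o = mink (∑ a, F a) o from rfl]
    rw [mink_sum_left]
  rw [this]
  have h : ∀ a, mink (F a) o = -33 := fun a => by rw [mink_comm, mink_oF]
  simp only [h]
  simp [Finset.card_univ]
  norm_num

lemma o_last : o (Fin.last 26) = 60 := by
  unfold o
  rw [Finset.sum_apply]
  simp only [F_last]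
  simp [Finset.card_univ]
  norm_num

lemma fwd_o : Fwd o := ⟨by rw [mink_oo]; norm_num, by rw [o_last]; norm_num⟩

noncomputable def fz (a : Fin 5 × Fin 3) : Dual ℝ (Fin (26 + 1) → ℝ) :=
  (2 / 15 : ℝ) • (minkL 26).flip (F a)

lemma fz_apply (a : Fin 5 × Fin 3) (x : Fin (26 + 1) → ℝ) : fz a x = 2 / 15 * mink x (F a) := by
  simp [fz]

lemma repData : RepData F fz where
  two a := by rw [fz_apply, mink_FF, if_pos rfl]; norm_num
  zero a b hab h := by
    rw [fz_apply, mink_FF, if_neg (Ne.symm hab), far_symm, h]; simp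

/-- the action of `W` on Minkowski space -/
noncomputable def act : W →* End ℝ (Fin (26 + 1) → ℝ) := rep repData

lemma act_g (i : Fin 5) (c : Fin 3) (x : Fin (26 + 1) → ℝ) :
    act (g i c) x = x - (2 / 15 * mink x (F (i, c + 1))) • F (i, c + 1)
      - (2 / 15 * mink x (F (i, c + 2))) • F (i, c + 2) := by
  unfold act
  rw [rep_g, hh_apply repData, fz_apply, fz_apply]

lemma act_mul (w w' : W) (x : Fin (26 + 1) → ℝ) : act (w * w') x = act w (act w' x) := by
  rw [map_mul]; rfl

lemma act_one (x : Fin (26 + 1) → ℝ) : act 1 x = x := by rw [map_one]; rfl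

lemma act_inv_act (w : W) (x : Fin (26 + 1) → ℝ) : act w⁻¹ (act w x) = x := by
  rw [← act_mul, inv_mul_cancel, act_one]

lemma act_act_inv (w : W) (x : Fin (26 + 1) → ℝ) : act w (act w⁻¹ x) = x := by
  rw [← act_mul, mul_inv_cancel, act_one]

lemma c12 : ∀ c : Fin 3, c + 1 ≠ c + 2 := by decide

lemma mink_F12 (i : Fin 5) (c : Fin 3) : mink (F (i, c + 1)) (F (i, c + 2)) = 0 := by
  rw [mink_FF, if_neg, far_irrefl]
  · simp
  · intro h
    rw [Prod.mk.injEq] at h
    exact c12 c h.2

lemma mink_F21 (i : Fin 5) (c : Fin 3) : mink (F (i, c + 2)) (F (i, c + 1)) = 0 := by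
  rw [mink_comm, mink_F12]

lemma mink_Fself (a : Fin 5 × Fin 3) : mink (F a) (F a) = 15 := by rw [mink_FF, if_pos rfl]

lemma mink_act_g (i : Fin 5) (c : Fin 3) (x y : Fin (26 + 1) → ℝ) :
    mink (act (g i c) x) (act (g i c) y) = mink x y := by
  rw [act_g, act_g]
  simp only [mink_sub_left, mink_sub_right, mink_smul_left, mink_smul_right, mink_F12, mink_F21,
    mink_Fself]
  rw [mink_comm (F (i, c + 1)) y, mink_comm (F (i, c + 2)) y]
  ring

lemma mink_act (w : W) : ∀ x y : Fin (26 + 1) → ℝ, mink (act w x) (act w y) = mink x y := by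
  refine w_ind (P := fun w => ∀ x y : Fin (26 + 1) → ℝ, mink (act w x) (act w y) = mink x y) w
    ?_ ?_
  · intro x y; rw [act_one, act_one]
  · intro i c w ih x y
    rw [act_mul, act_mul, mink_act_g, ih]

lemma mink_act_left (w : W) (x y : Fin (26 + 1) → ℝ) : mink (act w x) y = mink x (act w⁻¹ y) := by
  rw [← mink_act w x (act w⁻¹ y), act_act_inv]

/-- reflections preserve forward causal vectors -/
lemma refl_fwd {d : ℕ} {A x : Fin (d + 1) → ℝ} {t : ℝ} (ht : 0 < t) (hA : t * mink A A = 2)
    (hx : Fwd x) : Fwd (x - (t * mink x A) • A) := by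
  have h1 : mink (x - (t * mink x A) • A) (x - (t * mink x A) • A) = mink x x := by
    simp only [mink_sub_left, mink_sub_right, mink_smul_left, mink_smul_right]
    rw [mink_comm A x]
    linear_combination (t * mink x A ^ 2) * hA
  have h2 : mink (x - (t * mink x A) • A) x = mink x x - t * mink x A ^ 2 := by
    simp only [mink_sub_left, mink_smul_left]
    rw [mink_comm A x]; ring
  rcases eq_or_ne (mink x A) 0 with h0 | h0
  · rw [h0]; simpa using hx
  · apply fwd_of (by rw [h1]; exact hx.1) hx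
    rw [h2]
    have : 0 < t * mink x A ^ 2 := by positivity
    have := hx.1
    linarith

lemma act_g_fwd (i : Fin 5) (c : Fin 3) {x : Fin (26 + 1) → ℝ} (hx : Fwd x) :
    Fwd (act (g i c) x) := by
  have h1 : Fwd (x - (2 / 15 * mink x (F (i, c + 1))) • F (i, c + 1)) :=
    refl_fwd (by norm_num) (by rw [mink_Fself]; norm_num) hx
  have h2 := refl_fwd (A := F (i, c + 2)) (t := 2 / 15) (by norm_num)
    (by rw [mink_Fself]; norm_num) h1
  rw [act_g]
  rwa [mink_sub_left, mink_smul_left, mink_F12, mul_zero, sub_zero] at h2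

lemma act_fwd (w : W) : ∀ x : Fin (26 + 1) → ℝ, Fwd x → Fwd (act w x) := by
  refine w_ind (P := fun w => ∀ x : Fin (26 + 1) → ℝ, Fwd x → Fwd (act w x)) w ?_ ?_
  · intro x hx; rwa [act_one]
  · intro i c w ih x hx
    rw [act_mul]
    exact act_g_fwd i c (ih x hx)

/-- the walls -/
noncomputable def A (i : Fin 5) (c : Fin 3) : Fin (26 + 1) → ℝ := F (i, c + 1) + F (i, c + 2)

lemma mink_A (i : Fin 5) (c : Fin 3) (x : Fin (26 + 1) → ℝ) :
    mink x (A i c) = mink x (F (i, c + 1)) + mink x (F (i, c + 2)) := by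
  rw [A, mink_add_right]

lemma mink_AA (i : Fin 5) (c : Fin 3) : mink (A i c) (A i c) = 30 := by
  rw [mink_A, A, mink_add_left, mink_add_left, mink_F12, mink_F21, mink_Fself, mink_Fself]
  norm_num

lemma mink_oA (i : Fin 5) (c : Fin 3) : mink o (A i c) = -66 := by
  rw [mink_A, mink_oF, mink_oF]; norm_num

lemma mink_AA_far {i j : Fin 5} (h : far i j = true) (c c' : Fin 3) :
    mink (A i c) (A j c') = -32 := by
  have hij : i ≠ j := by
    rintro rfl
    rw [far_irrefl] at h; exact absurd h (by simp)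
  have key : ∀ k l : Fin 3, mink (F (i, k)) (F (j, l)) = -8 := by
    intro k l
    rw [mink_FF, if_neg, if_pos h]
    intro h'
    rw [Prod.mk.injEq] at h'
    exact hij h'.1
  rw [mink_A, A, mink_add_left, mink_add_left, key, key, key, key]
  norm_num

lemma A_last (i : Fin 5) (c : Fin 3) : A i c (Fin.last 26) = 8 := by
  rw [A, Pi.add_apply, F_last, F_last]; norm_num

/-- walls of far blocks are ultraparallel -/
lemma far_walls {i j : Fin 5} (h : far i j = true) (c c' : Fin 3) {x : Fin (26 + 1) → ℝ}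
    (hx : Fwd x) (hxa : 0 ≤ mink x (A i c)) : mink x (A j c') < 0 := by
  have h1 : mink (A i c + A j c') (A i c + A j c') = -4 := by
    rw [mink_add_left, mink_add_right, mink_add_right, mink_AA, mink_AA, mink_AA_far h,
      mink_comm (A j c'), mink_AA_far h]
    norm_num
  have h2 : Fwd (A i c + A j c') := by
    refine ⟨by rw [h1]; norm_num, ?_⟩
    rw [Pi.add_apply, A_last, A_last]; norm_num
  have h3 := mink_neg hx h2 (by rw [h1]; norm_num)
  rw [mink_add_right] at h3
  linarith

/-- the block element `g i c` changes the sign of the wall `A i c` -/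
lemma wall_flip (i : Fin 5) (c : Fin 3) (x : Fin (26 + 1) → ℝ) :
    mink (act (g i c) x) (A i c) = - mink x (A i c) := by
  rw [mink_A, mink_A, act_g]
  simp only [mink_sub_left, mink_smul_left, mink_F12, mink_F21, mink_Fself]
  ring

/-- near blocks do not see each other -/
lemma near_fix {i j : Fin 5} (hij : i ≠ j) (h : far i j = false) (c k : Fin 3)
    (x : Fin (26 + 1) → ℝ) : mink (act (g i c) x) (F (j, k)) = mink x (F (j, k)) := by
  have key : ∀ l : Fin 3, mink (F (i, l)) (F (j, k)) = 0 := by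
    intro l
    rw [mink_FF, if_neg, h]
    · simp
    · intro h'
      rw [Prod.mk.injEq] at h'
      exact hij h'.1
  rw [act_g]
  simp only [mink_sub_left, mink_smul_left, key]
  ring

lemma near_fix_A {i j : Fin 5} (hij : i ≠ j) (h : far i j = false) (c k : Fin 3)
    (x : Fin (26 + 1) → ℝ) : mink (act (g i c) x) (A j k) = mink x (A j k) := by
  rw [mink_A, mink_A, near_fix hij h, near_fix hij h]

end Pool.Agent.Helper613.DH
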