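import Pool.Agent.Helper613.DHDefs

set_option autoImplicit false

namespace Pool.Agent.Helper613.DH

variable {G : Type} [Group G] {S : Set G}

lemma wl_spec (hS : Subgroup.closure S = ⊤) (g : G) :
    ∃ l : List G, l.length = wordLength S g ∧ (∀ s ∈ l, s ∈ S ∨ s⁻¹ ∈ S) ∧ l.prod = g := by
  have hne : {n | ∃ l : List G, l.length = n ∧ (∀ s ∈ l, s ∈ S ∨ s⁻¹ ∈ S) ∧
      l.prod = g}.Nonempty := by
    have hg : g ∈ (Subgroup.closure S).toSubmonoid := by rw [hS]; trivial
    rw [Subgroup.closure_toSubmonoid] at hg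
    obtain ⟨l, hl, hprod⟩ := Submonoid.exists_list_of_mem_closure hg
    refine ⟨l.length, l, rfl, fun s hs => ?_, hprod⟩
    rcases hl s hs with h | h
    · exact Or.inl h
    · exact Or.inr (by simpa using h)
  exact Nat.sInf_mem hne

lemma wl_le (l : List G) (hl : ∀ s ∈ l, s ∈ S ∨ s⁻¹ ∈ S) : wordLength S l.prod ≤ l.length :=
  Nat.sInf_le ⟨l, rfl, hl, rfl⟩

lemma wl_one : wordLength S (1 : G) = 0 := by
  have := wl_le (S := S) ([] : List G) (by simp)
  simpa using this

lemma wl_mul_le (hS : Subgroup.closure S = ⊤) (g h : G) :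
    wordLength S (g * h) ≤ wordLength S g + wordLength S h := by
  obtain ⟨l, hl1, hl2, hl3⟩ := wl_spec hS g
  obtain ⟨m, hm1, hm2, hm3⟩ := wl_spec hS h
  have := wl_le (S := S) (l ++ m) (by
    intro s hs
    rcases List.mem_append.1 hs with h | h
    · exact hl2 s h
    · exact hm2 s h)
  rw [List.prod_append, hl3, hm3, List.length_append, hl1, hm1] at this
  exact this

lemma wl_inv_le (hS : Subgroup.closure S = ⊤) (g : G) :
    wordLength S g⁻¹ ≤ wordLength S g := by
  obtain ⟨l, hl1, hl2, hl3⟩ := wl_spec hS g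
  have := wl_le (S := S) (l.map (fun x => x⁻¹)).reverse (by
    intro s hs
    rw [List.mem_reverse, List.mem_map] at hs
    obtain ⟨a, ha, rfl⟩ := hs
    rcases hl2 a ha with h | h
    · exact Or.inr (by simpa using h)
    · exact Or.inl h)
  rw [← List.prod_inv_reverse, hl3, List.length_reverse, List.length_map, hl1] at this
  exact this

lemma wl_inv (hS : Subgroup.closure S = ⊤) (g : G) :
    wordLength S g⁻¹ = wordLength S g := by
  apply le_antisymm (wl_inv_le hS g)
  have := wl_inv_le hS g⁻¹
  rwa [inv_inv] at this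

lemma wl_mem_le {s : G} (hs : s ∈ S) : wordLength S s ≤ 1 := by
  have := wl_le (S := S) [s] (by simp [hs])
  simpa using this

lemma wl_eq_zero (hS : Subgroup.closure S = ⊤) {g : G} (h : wordLength S g = 0) : g = 1 := by
  obtain ⟨l, hl1, hl2, hl3⟩ := wl_spec hS g
  rw [h] at hl1
  have := List.length_eq_zero_iff.1 hl1
  rw [this] at hl3
  simpa using hl3.symm

/-- peel off the first letter -/
lemma wl_succ (hS : Subgroup.closure S = ⊤) (hinv : ∀ s, s⁻¹ ∈ S → s ∈ S) {g : G} {n : ℕ}
    (h : wordLength S g = n + 1) : ∃ s ∈ S, ∃ g', g = s * g' ∧ wordLength S g' = n := by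
  obtain ⟨l, hl1, hl2, hl3⟩ := wl_spec hS g
  rw [h] at hl1
  cases l with
  | nil => simp at hl1
  | cons s t =>
    have hs : s ∈ S := by
      rcases hl2 s (by simp) with h | h
      · exact h
      · exact hinv s h
    refine ⟨s, hs, t.prod, by rw [← hl3, List.prod_cons], ?_⟩
    have h1 := wl_le (S := S) t (fun x hx => hl2 x (by simp [hx]))
    have h2 := wl_mul_le hS s t.prod
    rw [List.prod_cons] at hl3
    rw [hl3, h] at h2
    have h3 := wl_mem_le hs
    simp at hl1
    omega

/-- intermediate points of word geodesics -/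
lemma wl_split (hS : Subgroup.closure S = ⊤) (g : G) (k : ℕ) (hk : k ≤ wordLength S g) :
    ∃ a b : G, g = a * b ∧ wordLength S a = k ∧ wordLength S b = wordLength S g - k := by
  obtain ⟨l, hl1, hl2, hl3⟩ := wl_spec hS g
  refine ⟨(l.take k).prod, (l.drop k).prod, ?_, ?_⟩
  · rw [← List.prod_append, List.take_append_drop, hl3]
  · have h1 := wl_le (S := S) (l.take k) (fun x hx => hl2 x (List.mem_of_mem_take hx))
    have h2 := wl_le (S := S) (l.drop k) (fun x hx => hl2 x (List.mem_of_mem_drop hx))
    have h3 := wl_mul_le hS (l.take k).prod (l.drop k).prod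
    rw [← List.prod_append, List.take_append_drop, hl3] at h3
    rw [List.length_take] at h1
    rw [List.length_drop] at h2
    omega

end Pool.Agent.Helper613.DH
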