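import Mathlib

open Set Filter Topology
open scoped RealInnerProductSpace

namespace Pool.Agent.Helper613.HS

variable {V : Type} [NormedAddCommGroup V] [InnerProductSpace ℝ V]

/-- directions in which the set has positive radius -/
def U (K : Set V) : Set V := {u | u ≠ 0 ∧ ∃ t : ℝ, 0 < t ∧ t • u ∈ K}

/-- compact, star-shaped at the origin, radial function lower semicontinuous on the set of directions of positive radius -/
structure Star (K : Set V) : Prop where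
  cpt : IsCompact K
  zero : (0 : V) ∈ K
  star : ∀ y ∈ K, ∀ t : ℝ, 0 ≤ t → t ≤ 1 → t • y ∈ K
  low : ∀ y ∈ K, y ≠ 0 → ∀ s : ℝ, 0 ≤ s → s < 1 → ∀ᶠ y' in 𝓝 y, y' ∈ U K → s • y' ∈ K

/-- `K ∩ u^⊥ = x + l (L ∩ u^⊥)` with `x ∈ u^⊥`, `l > 0` -/
def Hm (K L : Set V) (u x : V) (l : ℝ) : Prop := ⟪u, x⟫ = 0 ∧ 0 < l ∧ ∀ y, ⟪u, y⟫ = 0 → (y ∈ L ↔ x + l • y ∈ K)

/-- `K = x + l L` for some `x` and `l > 0` -/
def Hmt (K L : Set V) : Prop := ∃ (x : V) (l : ℝ), 0 < l ∧ ∀ y, y ∈ L ↔ x + l • y ∈ K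

/-- `K` lies in a closed half space with the origin on its boundary -/
def OneSided (K : Set V) : Prop := ∃ m : V, m ≠ 0 ∧ ∀ y ∈ K, ⟪m, y⟫ ≤ 0

/-- two star sets, all of whose sections by planes `u^⊥` are homothetic (in dimension three these are all the 2-dimensional sections) -/
structure Dat (K L : Set V) (X : V → V) (l : V → ℝ) : Prop where
  sK : Star K
  sL : Star L
  hm : ∀ u, u ≠ 0 → Hm K L u (X u) (l u)

/-- properties of the good cone `G` -/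
structure Gd (K L : Set V) (X : V → V) (G : Set V) : Prop where
  subL : ∀ g ∈ G, g ∈ U L
  subK : ∀ g ∈ G, g ∉ U K
  neg : ∀ g ∈ G, -g ∈ U K
  smul : ∀ g ∈ G, ∀ c : ℝ, 0 < c → c • g ∈ G
  add : ∀ g ∈ G, ∀ g' ∈ G, g + g' ∈ G
  zer : ∀ u, u ≠ 0 → ∀ g ∈ G, ⟪u, g⟫ = 0 → -X u ∈ G
  addL : ∀ g ∈ G, ∀ y ∈ U L, y + g ≠ 0 → y + g ∈ U L
  subtK : ∀ g ∈ G, ∀ y ∈ U K, y - g ≠ 0 → y - g ∈ U K

/-- approximate convexity of the complement of `U K` -/
def Sub (K G : Set V) : Prop := ∀ y z : V, y ≠ 0 → z ≠ 0 → y ∉ U K → z ∉ U K → ∀ g ∈ interior G, y + z + g ∉ U K ∧ y + z + g ≠ 0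

/-- `e` is a direction such that the open half plane of `e` and `p` misses `U K` -/
def EE (K G : Set V) (e : V) : Prop := e ≠ 0 ∧ ∃ p ∈ interior G, ∀ α β : ℝ, 0 < β → α • e + β • p ∉ U K

end Pool.Agent.Helper613.HS
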