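import Mathlib
import Pool.Agent.Helper613.HSDefs

open Set Filter Topology
open scoped RealInnerProductSpace

namespace Pool.Agent.Helper613.HS

variable {V : Type} [NormedAddCommGroup V] [InnerProductSpace ℝ V] {K L : Set V} {X : V → V} {l : V → ℝ}

lemma U_smul {K : Set V} {u : V} (hu : u ∈ U K) {c : ℝ} (hc : 0 < c) : c • u ∈ U K := by
  obtain ⟨h0, t, ht, htK⟩ := hu
  refine ⟨smul_ne_zero hc.ne' h0, t / c, by positivity, ?_⟩
  rw [smul_smul, div_mul_cancel₀ _ hc.ne']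
  exact htK

lemma Hm.symm {u x : V} {a : ℝ} (h : Hm K L u x a) : Hm L K u (-(a⁻¹ • x)) a⁻¹ := by
  obtain ⟨h1, h2, h3⟩ := h
  have ha : a ≠ 0 := h2.ne'
  refine ⟨by rw [inner_neg_right, inner_smul_right, h1]; simp, inv_pos.2 h2, fun y hy => ?_⟩
  have h4 := h3 (-(a⁻¹ • x) + a⁻¹ • y) (by
    rw [inner_add_right, inner_neg_right, inner_smul_right, inner_smul_right, h1, hy]; simp)
  rw [h4]
  have : x + a • (-(a⁻¹ • x) + a⁻¹ • y) = y := by
    rw [smul_add, smul_neg, smul_smul, smul_smul, mul_inv_cancel₀ ha, one_smul, one_smul]; abel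
  rw [this]

lemma Dat.swap (h : Dat K L X l) : Dat L K (fun u => -((l u)⁻¹ • X u)) (fun u => (l u)⁻¹) :=
  ⟨h.sL, h.sK, fun u hu => (h.hm u hu).symm⟩

lemma Hmt.symm (h : Hmt K L) : Hmt L K := by
  obtain ⟨x, a, ha, h⟩ := h
  refine ⟨-(a⁻¹ • x), a⁻¹, inv_pos.2 ha, fun y => ?_⟩
  rw [h]
  have : x + a • (-(a⁻¹ • x) + a⁻¹ • y) = y := by
    rw [smul_add, smul_neg, smul_smul, smul_smul, mul_inv_cancel₀ ha.ne', one_smul, one_smul]; abel
  rw [this]

lemma exists_normal (hdim : Module.finrank ℝ V = 3) (a b : V) : ∃ u : V, u ≠ 0 ∧ ⟪u, a⟫ = 0 ∧ ⟪u, b⟫ = 0 := by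
  classical
  haveI : FiniteDimensional ℝ V := FiniteDimensional.of_finrank_pos (by omega)
  have h1 : Module.finrank ℝ (Submodule.span ℝ ({a, b} : Set V)) ≤ 2 := by
    have := finrank_span_finset_le_card (R := ℝ) ({a, b} : Finset V)
    rw [Set.finrank] at this
    have e : ((({a, b} : Finset V)) : Set V) = {a, b} := by simp
    rw [e] at this
    exact this.trans Finset.card_le_two
  have h2 : Submodule.span ℝ ({a, b} : Set V) ≠ ⊤ := by
    intro h
    rw [h, finrank_top] at h1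
    omega
  obtain ⟨u, hu, hu0⟩ := Submodule.exists_mem_ne_zero_of_ne_bot
    (show (Submodule.span ℝ ({a, b} : Set V))ᗮ ≠ ⊥ from fun h => h2 (Submodule.orthogonal_eq_bot_iff.1 h))
  refine ⟨u, hu0, ?_, ?_⟩
  · rw [real_inner_comm]; exact hu a (Submodule.subset_span (by simp))
  · rw [real_inner_comm]; exact hu b (Submodule.subset_span (by simp))

lemma plane_coord (hdim : Module.finrank ℝ V = 3) {u a b z : V} (hu : u ≠ 0) (ha : ⟪u, a⟫ = 0) (hb : ⟪u, b⟫ = 0) (hz : ⟪u, z⟫ = 0)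
    (hab : LinearIndependent ℝ ![a, b]) : ∃ α β : ℝ, z = α • a + β • b := by
  haveI : FiniteDimensional ℝ V := FiniteDimensional.of_finrank_pos (by omega)
  set S : Submodule ℝ V := (Submodule.span ℝ {u})ᗮ with hS
  have hSfin : Module.finrank ℝ S = 2 := by
    have h1 := Submodule.finrank_add_finrank_orthogonal (Submodule.span ℝ {u})
    rw [finrank_span_singleton hu, hdim] at h1
    rw [hS]
    omega
  have hle : Submodule.span ℝ (Set.range ![a, b]) ≤ S := by
    rw [Submodule.span_le]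
    rintro x ⟨i, rfl⟩
    fin_cases i
    · exact Submodule.mem_orthogonal_singleton_iff_inner_right.2 ha
    · exact Submodule.mem_orthogonal_singleton_iff_inner_right.2 hb
  have hfin2 : Module.finrank ℝ (Submodule.span ℝ (Set.range ![a, b])) = 2 := by
    rw [finrank_span_eq_card hab]; simp
  have heq := Submodule.eq_of_le_of_finrank_eq hle (by rw [hfin2, hSfin])
  have hzS : z ∈ S := Submodule.mem_orthogonal_singleton_iff_inner_right.2 hz
  rw [← heq] at hzS
  rw [Matrix.range_cons, Matrix.range_cons, Matrix.range_empty, Set.union_empty] at hzS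
  have hzS' : z ∈ Submodule.span ℝ ({a, b} : Set V) := by
    have e : ({a} : Set V) ∪ {b} = {a, b} := by ext; simp [or_comm]
    rw [← e]; exact hzS
  obtain ⟨α, β, h⟩ := Submodule.mem_span_pair.1 hzS'
  exact ⟨α, β, h.symm⟩

lemma x_mem_K (h : Dat K L X l) {u : V} (hu : u ≠ 0) : X u ∈ K := by
  have := ((h.hm u hu).2.2 0 (inner_zero_right u)).1 h.sL.zero
  rwa [smul_zero, add_zero] at this

lemma x_mem_U (h : Dat K L X l) {u : V} (hu : u ≠ 0) (hx : X u ≠ 0) : X u ∈ U K :=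
  ⟨hx, 1, one_pos, by rw [one_smul]; exact x_mem_K h hu⟩

lemma negx_mem_U (h : Dat K L X l) {u : V} (hu : u ≠ 0) (hx : X u ≠ 0) : -X u ∈ U L := by
  have hl := (h.hm u hu).2.1
  have := x_mem_K h.swap hu
  refine ⟨neg_ne_zero.2 hx, (l u)⁻¹, inv_pos.2 hl, ?_⟩
  rw [smul_neg]; exact this

lemma addK (h : Dat K L X l) {u y : V} (hu : u ≠ 0) (huy : ⟪u, y⟫ = 0) (hy : y ∈ U K) {α : ℝ} (hα : 0 ≤ α) (hne : y + α • X u ≠ 0) :
    y + α • X u ∈ U K := by
  obtain ⟨hy0, t, ht, htK⟩ := hy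
  obtain ⟨h1, h2, h3⟩ := h.hm u hu
  have hl : l u ≠ 0 := h2.ne'
  have h4 : (l u)⁻¹ • (t • y - X u) ∈ L := by
    rw [h3 _ (by rw [inner_smul_right, inner_sub_right, inner_smul_right, huy, h1]; simp), smul_smul, mul_inv_cancel₀ hl, one_smul,
      add_sub_cancel]
    exact htK
  have hd : 0 < 1 + t * α := by positivity
  have h5 := h.sL.star _ h4 (1 / (1 + t * α)) (by positivity) (by rw [div_le_one hd]; nlinarith)
  rw [h3 _ (by rw [inner_smul_right, inner_smul_right, inner_sub_right, inner_smul_right, huy, h1]; simp)] at h5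
  refine ⟨hne, t / (1 + t * α), by positivity, ?_⟩
  convert h5 using 1
  have e1 : X u = (1 : ℝ) • X u := (one_smul _ _).symm
  rw [smul_comm (l u) (1 / (1 + t * α)), smul_smul (l u), mul_inv_cancel₀ hl, one_smul, smul_sub, smul_add, smul_smul, smul_smul]
  have e2 : t / (1 + t * α) * α = 1 - 1 / (1 + t * α) := by field_simp; ring
  rw [e2, sub_smul, one_smul]
  have e3 : 1 / (1 + t * α) * t = t / (1 + t * α) := by ring
  rw [e3]; abel

lemma addL (h : Dat K L X l) {u y : V} (hu : u ≠ 0) (huy : ⟪u, y⟫ = 0) (hy : y ∈ U L) {α : ℝ} (hα : 0 ≤ α) (hne : y - α • X u ≠ 0) :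
    y - α • X u ∈ U L := by
  have hl := (h.hm u hu).2.1
  have e : y + (α * l u) • (-((l u)⁻¹ • X u)) = y - α • X u := by
    rw [smul_neg, smul_smul, mul_assoc, mul_inv_cancel₀ hl.ne', mul_one, sub_eq_add_neg]
  have := addK h.swap hu huy hy (α := α * l u) (by positivity) (by rw [e]; exact hne)
  rwa [e] at this

lemma side_KL (h : Dat K L X l) {u y : V} (hu : u ≠ 0) (huy : ⟪u, y⟫ = 0) (hy : y ∈ U K) : 
    ∃ γ : ℝ, 0 ≤ γ ∧ (y - γ • X u ≠ 0 → y - γ • X u ∈ U L) := by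
  obtain ⟨hy0, t, ht, htK⟩ := hy
  obtain ⟨h1, h2, h3⟩ := h.hm u hu
  have hl : l u ≠ 0 := h2.ne'
  refine ⟨t⁻¹, by positivity, fun hne => ⟨hne, (l u)⁻¹ * t, by positivity, ?_⟩⟩
  rw [h3 _ (by rw [inner_smul_right, inner_sub_right, inner_smul_right, huy, h1]; simp), smul_smul, ← mul_assoc, mul_inv_cancel₀ hl, one_mul,
    smul_sub, smul_smul, mul_inv_cancel₀ ht.ne', one_smul, add_sub_cancel]
  exact htK

lemma side_LK (h : Dat K L X l) {u y : V} (hu : u ≠ 0) (huy : ⟪u, y⟫ = 0) (hy : y ∈ U L) : 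
    ∃ γ : ℝ, 0 ≤ γ ∧ (y + γ • X u ≠ 0 → y + γ • X u ∈ U K) := by
  obtain ⟨γ, hγ, h1⟩ := side_KL h.swap hu huy hy
  have hl := (h.hm u hu).2.1
  refine ⟨γ * (l u)⁻¹, by positivity, fun hne => ?_⟩
  have e : y - γ • (-((l u)⁻¹ • X u)) = y + (γ * (l u)⁻¹) • X u := by
    rw [smul_neg, smul_smul, sub_neg_eq_add]
  rw [e] at h1
  exact h1 hne

lemma x_ne_zero (h : Dat K L X l) {u p : V} (hu : u ≠ 0) (hup : ⟪u, p⟫ = 0) (hp : p ∈ U L) (hp' : p ∉ U K) : X u ≠ 0 := by
  intro h0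
  obtain ⟨hp0, t, ht, htL⟩ := hp
  obtain ⟨h1, h2, h3⟩ := h.hm u hu
  have := (h3 (t • p) (by rw [inner_smul_right, hup, mul_zero])).1 htL
  rw [h0, zero_add, smul_smul] at this
  exact hp' ⟨hp0, l u * t, by positivity, this⟩

/-- D2 -/
lemma negx_mem_D (h : Dat K L X l) {u p : V} (hu : u ≠ 0) (hup : ⟪u, p⟫ = 0) (hp : p ∈ U L) (hp' : p ∉ U K) : 
    -X u ∈ U L ∧ -X u ∉ U K := by
  have hx := x_ne_zero h hu hup hp hp'
  refine ⟨negx_mem_U h hu hx, fun hcon => ?_⟩
  obtain ⟨h1, h2, h3⟩ := h.hm u hu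
  have hl : l u ≠ 0 := h2.ne'
  obtain ⟨-, τ, hτ, hτK⟩ := hcon
  have hxU := x_mem_U h hu hx
  -- p is not a multiple of x
  have hpx : ∀ c : ℝ, p ≠ c • X u := by
    intro c hc
    rcases lt_trichotomy c 0 with hc0 | hc0 | hc0
    · apply hp'
      have := U_smul (K := K) (u := -X u) ⟨neg_ne_zero.2 hx, τ, hτ, hτK⟩ (c := -c) (by linarith)
      rw [hc]
      rwa [smul_neg, neg_smul, neg_neg] at this
    · rw [hc0, zero_smul] at hc
      exact hp.1 hc
    · apply hp'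
      rw [hc]
      exact U_smul hxU hc0
  set w : V := -((l u)⁻¹ • X u) with hw
  have hw0 : w ≠ 0 := by
    rw [hw]; exact neg_ne_zero.2 (smul_ne_zero (inv_ne_zero hl) hx)
  have hwu : ⟪u, w⟫ = 0 := by rw [hw, inner_neg_right, inner_smul_right, h1]; simp
  have hlw : l u • w = -X u := by rw [hw, smul_neg, smul_smul, mul_inv_cancel₀ hl, one_smul]
  have hwL : (1 + τ) • w ∈ L := by
    rw [h3 _ (by rw [inner_smul_right, hwu, mul_zero]), smul_comm, hlw]
    have : X u + (1 + τ) • -X u = τ • -X u := by rw [add_smul, one_smul]; abel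
    rw [this]; exact hτK
  have hw1 : (1 + τ) • w ≠ 0 := smul_ne_zero (by positivity) hw0
  have hs : (0:ℝ) ≤ (1 + τ / 2) / (1 + τ) := by positivity
  have hs1 : (1 + τ / 2) / (1 + τ) < 1 := by rw [div_lt_one (by positivity)]; linarith
  have hev := h.sL.low _ hwL hw1 _ hs hs1
  -- along w + ε p
  have htend : Tendsto (fun ε : ℝ => (1 + τ) • (w + ε • p)) (𝓝[>] 0) (𝓝 ((1 + τ) • w)) := by
    have : Tendsto (fun ε : ℝ => (1 + τ) • (w + ε • p)) (𝓝 0) (𝓝 ((1 + τ) • (w + (0:ℝ) • p))) := by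
      apply Continuous.tendsto; fun_prop
    rw [zero_smul, add_zero] at this
    exact this.mono_left nhdsWithin_le_nhds
  have hev2 := htend.eventually hev
  obtain ⟨ε, hε, hε0⟩ := (hev2.and self_mem_nhdsWithin).exists
  have hε0 : 0 < ε := hε0
  have hne1 : w + ε • p ≠ 0 := by
    intro h0
    apply hpx (ε⁻¹ * (l u)⁻¹)
    have : ε • p = -w := by rw [← add_eq_zero_iff_eq_neg, add_comm]; exact h0
    have h5 : p = ε⁻¹ • (ε • p) := by rw [smul_smul, inv_mul_cancel₀ hε0.ne', one_smul]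
    rw [h5, this, hw, neg_neg, smul_smul]
  have hmemU : (1 + τ) • (w + ε • p) ∈ U L := by
    apply U_smul _ (by positivity)
    have h6 : ε • p - (l u)⁻¹ • X u = w + ε • p := by rw [hw]; abel
    have := addL h hu (y := ε • p) (by rw [inner_smul_right, hup, mul_zero]) (U_smul hp hε0) (α := (l u)⁻¹) (by positivity) 
      (by rw [h6]; exact hne1)
    rwa [h6] at this
  have h7 := hε hmemU
  rw [smul_smul, div_mul_cancel₀ _ (by positivity : (1 + τ) ≠ 0)] at h7
  rw [h3 _ (by rw [inner_smul_right, inner_add_right, hwu, inner_smul_right, hup]; simp)] at h7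
  have h8 : X u + l u • ((1 + τ / 2) • (w + ε • p)) = -((τ / 2) • X u) + ((1 + τ / 2) * (l u * ε)) • p := by
    have e1 : l u • ((1 + τ / 2) • (w + ε • p)) = (1 + τ / 2) • (l u • w) + ((1 + τ / 2) * (l u * ε)) • p := by module
    rw [e1, hlw]; module
  rw [h8] at h7
  have hne2 : -((τ / 2) • X u) + ((1 + τ / 2) * (l u * ε)) • p ≠ 0 := by
    intro h0
    have hc : (1 + τ / 2) * (l u * ε) ≠ 0 := by positivity
    apply hpx (((1 + τ / 2) * (l u * ε))⁻¹ * (τ / 2))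
    rw [neg_add_eq_zero] at h0
    rw [← smul_smul, h0, smul_smul, inv_mul_cancel₀ hc, one_smul]
  have h9 : -((τ / 2) • X u) + ((1 + τ / 2) * (l u * ε)) • p ∈ U K := ⟨hne2, 1, one_pos, by rw [one_smul]; exact h7⟩
  have hc : 0 < (1 + τ / 2) * (l u * ε) := by positivity
  have h10 : -((τ / 2) • X u) + ((1 + τ / 2) * (l u * ε)) • p + (τ / 2) • X u = ((1 + τ / 2) * (l u * ε)) • p := by abel
  have h11 := addK h hu (y := -((τ / 2) • X u) + ((1 + τ / 2) * (l u * ε)) • p) 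
    (by rw [inner_add_right, inner_neg_right, inner_smul_right, inner_smul_right, h1, hup]; simp) h9 (α := τ / 2) (by positivity)
    (by rw [h10]; exact smul_ne_zero hc.ne' hp.1)
  rw [h10] at h11
  apply hp'
  have := U_smul h11 (inv_pos.2 hc)
  rwa [smul_smul, inv_mul_cancel₀ hc.ne', one_smul] at this

/-- D2' -/
lemma x_mem_D' (h : Dat K L X l) {u p : V} (hu : u ≠ 0) (hup : ⟪u, p⟫ = 0) (hp : p ∈ U K) (hp' : p ∉ U L) : 
    X u ∈ U K ∧ X u ∉ U L := by
  have hl := (h.hm u hu).2.1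
  obtain ⟨h1, h2⟩ := negx_mem_D h.swap hu hup hp hp'
  simp only [neg_neg] at h1 h2
  constructor
  · have := U_smul h1 hl
    rwa [smul_smul, mul_inv_cancel₀ hl.ne', one_smul] at this
  · intro hcon
    exact h2 (U_smul hcon (inv_pos.2 hl))

/-- D3 -/
lemma D_arc (h : Dat K L X l) {u p : V} (hu : u ≠ 0) (hup : ⟪u, p⟫ = 0) (hp : p ∈ U L) (hp' : p ∉ U K) {β α : ℝ} (hβ : 0 < β) (hα : 0 ≤ α) : 
    β • p - α • X u ∈ U L ∧ β • p - α • X u ∉ U K := by
  have hx := x_ne_zero h hu hup hp hp'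
  have hxU := x_mem_U h hu hx
  have h1 := (h.hm u hu).1
  have hpx : β • p - α • X u ≠ 0 := by
    intro h0
    rw [sub_eq_zero] at h0
    have h5 : p = (β⁻¹ * α) • X u := by rw [← smul_smul, ← h0, smul_smul, inv_mul_cancel₀ hβ.ne', one_smul]
    rcases hα.eq_or_lt with hα0 | hα0
    · rw [← hα0, mul_zero, zero_smul] at h5; exact hp.1 h5
    · exact hp' (h5 ▸ U_smul hxU (by positivity))
  refine ⟨addL h hu (by rw [inner_smul_right, hup, mul_zero]) (U_smul hp hβ) hα hpx, fun hcon => ?_⟩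
  have e : β • p - α • X u + α • X u = β • p := by abel
  have := addK h hu (by rw [inner_sub_right, inner_smul_right, inner_smul_right, h1, hup]; simp) hcon hα (by rw [e]; exact smul_ne_zero hβ.ne' hp.1)
  rw [e] at this
  apply hp'
  have := U_smul this (inv_pos.2 hβ)
  rwa [smul_smul, inv_mul_cancel₀ hβ.ne', one_smul] at this

/-- D3' -/
lemma D'_arc (h : Dat K L X l) {u p : V} (hu : u ≠ 0) (hup : ⟪u, p⟫ = 0) (hp : p ∈ U K) (hp' : p ∉ U L) {β α : ℝ} (hβ : 0 < β) (hα : 0 ≤ α) : 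
    β • p + α • X u ∈ U K ∧ β • p + α • X u ∉ U L := by
  have hl := (h.hm u hu).2.1
  have := D_arc h.swap hu hup hp hp' hβ (α := α * l u) (by positivity)
  have e : β • p - (α * l u) • (-((l u)⁻¹ • X u)) = β • p + α • X u := by
    rw [smul_neg, smul_smul, mul_assoc, mul_inv_cancel₀ hl.ne', mul_one, sub_neg_eq_add]
  rwa [e] at this

end Pool.Agent.Helper613.HS
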