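import Mathlib

open Set Filter Topology
open scoped RealInnerProductSpace

namespace Pool.Agent.Helper613.HS

variable {V : Type} [NormedAddCommGroup V] [InnerProductSpace ℝ V]

lemma uniq_sig {A B : Set V} {x x' : V} {r r' : ℝ} (hr' : 0 < r')
    (h : ∀ y, y ∈ A ↔ x + r • y ∈ B) (h' : ∀ y, y ∈ A ↔ x' + r' • y ∈ B) {y : V} (hy : y ∈ A) :
    r'⁻¹ • ((x - x') + r • y) ∈ A := by
  rw [h']
  have e : x' + r' • (r'⁻¹ • ((x - x') + r • y)) = x + r • y := by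
    rw [smul_smul, mul_inv_cancel₀ hr'.ne', one_smul]
    abel
  rw [e]
  exact (h y).mp hy

lemma uniq_lt {A B : Set V} (hA : Bornology.IsBounded A) {a b : V} (ha : a ∈ A) (hb : b ∈ A)
    (hab : a ≠ b) {x x' : V} {r r' : ℝ} (hr : 0 < r) (hr' : 0 < r')
    (h : ∀ y, y ∈ A ↔ x + r • y ∈ B) (h' : ∀ y, y ∈ A ↔ x' + r' • y ∈ B) : r ≤ r' := by
  by_contra hlt
  rw [not_le] at hlt
  obtain ⟨C, hC⟩ := hA.exists_norm_le
  have hiter : ∀ n : ℕ, ∃ a' ∈ A, ∃ b' ∈ A, ‖a' - b'‖ = (r / r') ^ n * ‖a - b‖ := by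
    intro n
    induction n with
    | zero => exact ⟨a, ha, b, hb, by simp⟩
    | succ n ih =>
      obtain ⟨a', ha', b', hb', e⟩ := ih
      refine ⟨_, uniq_sig hr' h h' ha', _, uniq_sig hr' h h' hb', ?_⟩
      have e1 : r'⁻¹ • ((x - x') + r • a') - r'⁻¹ • ((x - x') + r • b') =
          (r / r') • (a' - b') := by
        rw [← smul_sub, add_sub_add_left_eq_sub, ← smul_sub, smul_smul]
        congr 1
        field_simp
      rw [e1, norm_smul, e, Real.norm_eq_abs, abs_of_pos (div_pos hr hr'), pow_succ]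
      ring
  have h1 : 1 < r / r' := (one_lt_div hr').mpr hlt
  have h2 : 0 < ‖a - b‖ := norm_pos_iff.mpr (sub_ne_zero.mpr hab)
  obtain ⟨n, hn⟩ := pow_unbounded_of_one_lt (2 * C / ‖a - b‖) h1
  obtain ⟨a', ha', b', hb', e⟩ := hiter n
  have h3 : ‖a' - b'‖ ≤ 2 * C := by
    have := norm_sub_le a' b'
    have := hC a' ha'
    have := hC b' hb'
    linarith
  rw [e] at h3
  rw [div_lt_iff₀ h2] at hn
  linarith

/-- uniqueness of the homothety -/
lemma uniq {A B : Set V} (hA : Bornology.IsBounded A) {a b : V} (ha : a ∈ A) (hb : b ∈ A) (hab : a ≠ b) {x x' : V} {r r' : ℝ}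
    (hr : 0 < r) (hr' : 0 < r') (h : ∀ y, y ∈ A ↔ x + r • y ∈ B) (h' : ∀ y, y ∈ A ↔ x' + r' • y ∈ B) : x = x' ∧ r = r' := by
  have hrr : r = r' := le_antisymm (uniq_lt hA ha hb hab hr hr' h h')
    (uniq_lt hA ha hb hab hr' hr h' h)
  refine ⟨?_, hrr⟩
  subst hrr
  obtain ⟨C, hC⟩ := hA.exists_norm_le
  have hiter : ∀ n : ℕ, a + (n : ℝ) • (r⁻¹ • (x - x')) ∈ A := by
    intro n
    induction n with
    | zero => simpa using ha
    | succ n ih =>
      have h1 := uniq_sig hr h h' ih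
      have e : r⁻¹ • ((x - x') + r • (a + (n : ℝ) • (r⁻¹ • (x - x')))) =
          a + ((n + 1 : ℕ) : ℝ) • (r⁻¹ • (x - x')) := by
        rw [smul_add, smul_smul r⁻¹ r, inv_mul_cancel₀ hr.ne', one_smul]
        push_cast
        module
      rwa [e] at h1
  by_contra hne
  have hc : 0 < ‖r⁻¹ • (x - x')‖ := by
    rw [norm_pos_iff]
    exact smul_ne_zero (inv_ne_zero hr.ne') (sub_ne_zero.mpr hne)
  obtain ⟨n, hn⟩ := exists_nat_gt ((C + ‖a‖) / ‖r⁻¹ • (x - x')‖)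
  have h1 := hC _ (hiter n)
  have h2 : ‖(n : ℝ) • (r⁻¹ • (x - x'))‖ = n * ‖r⁻¹ • (x - x')‖ := by
    rw [norm_smul, Real.norm_eq_abs, abs_of_nonneg (Nat.cast_nonneg n)]
  have h3 : ‖(n : ℝ) • (r⁻¹ • (x - x'))‖ ≤ ‖a + (n : ℝ) • (r⁻¹ • (x - x'))‖ + ‖a‖ := by
    have := norm_sub_le (a + (n : ℝ) • (r⁻¹ • (x - x'))) a
    rwa [add_sub_cancel_left] at this
  rw [div_lt_iff₀ hc] at hn
  linarith

end Pool.Agent.Helper613.HS
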