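import Mathlib
import Pool.Agent.Helper613.HSBasic
import Pool.Agent.Helper613.HSUniq

open Set Filter Topology
open scoped RealInnerProductSpace

namespace Pool.Agent.Helper613.HS

variable {V : Type} [NormedAddCommGroup V] [InnerProductSpace ℝ V] {K L : Set V} {X : V → V} {l : V → ℝ}

/-- the homothety is the same for any two planes through the direction `a` with translation vectors parallel to `a` -/
lemma dir_const (h : Dat K L X l) {a : V} (ha : a ∈ U L) {u u' : V} (hu : u ≠ 0) (hu' : u' ≠ 0) (hua : ⟪u, a⟫ = 0) (hua' : ⟪u', a⟫ = 0)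
    {c c' : ℝ} (hc : X u = c • a) (hc' : X u' = c' • a) : X u = X u' ∧ l u = l u' := by
  obtain ⟨ha0, t, ht, htL⟩ := ha
  set A : Set V := L ∩ {y | ∃ s : ℝ, y = s • a} with hA
  set B : Set V := K ∩ {y | ∃ s : ℝ, y = s • a} with hB
  have key : ∀ v, v ≠ 0 → ⟪v, a⟫ = 0 → ∀ d : ℝ, X v = d • a → ∀ y, y ∈ A ↔ X v + l v • y ∈ B := by
    intro v hv hva d hd y
    obtain ⟨h1, h2, h3⟩ := h.hm v hv
    have hl : l v ≠ 0 := h2.ne'
    constructor
    · rintro ⟨hyL, s, rfl⟩
      refine ⟨(h3 _ (by rw [inner_smul_right, hva, mul_zero])).1 hyL, d + l v * s, ?_⟩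
      rw [hd]; module
    · rintro ⟨hyK, s, hs⟩
      have hy : y = ((s - d) / l v) • a := by
        have h4 : l v • y = (s - d) • a := by
          rw [hd] at hs
          rw [sub_smul, ← hs]; abel
        have h5 : y = (l v)⁻¹ • (l v • y) := by rw [smul_smul, inv_mul_cancel₀ hl, one_smul]
        rw [h5, h4, smul_smul]
        congr 1
        field_simp
      refine ⟨(h3 _ (by rw [hy, inner_smul_right, hva, mul_zero])).2 hyK, _, hy⟩
  refine uniq (A := A) (B := B) (h.sL.cpt.isBounded.subset inter_subset_left) (a := 0) (b := t • a) ⟨h.sL.zero, 0, by rw [zero_smul]⟩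
    ⟨htL, t, rfl⟩ (Ne.symm (smul_ne_zero ht.ne' ha0)) (h.hm u hu).2.1 (h.hm u' hu').2.1 (key u hu hua c hc) (key u' hu' hua' c' hc')

/-- all planes through the direction `a` have their translation vector parallel to `a`: then homothetic -/
lemma total (hdim : Module.finrank ℝ V = 3) (h : Dat K L X l) {a : V} (ha : a ∈ U L) (hall : ∀ u, u ≠ 0 → ⟪u, a⟫ = 0 → ∃ c : ℝ, X u = c • a) : 
    Hmt K L := by
  obtain ⟨u0, hu0, hu0a, -⟩ := exists_normal hdim a a
  obtain ⟨c0, hc0⟩ := hall u0 hu0 hu0a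
  refine ⟨X u0, l u0, (h.hm u0 hu0).2.1, fun y => ?_⟩
  obtain ⟨u, hu, hua, huy⟩ := exists_normal hdim a y
  obtain ⟨c, hc⟩ := hall u hu hua
  obtain ⟨h1, h2⟩ := dir_const h ha hu hu0 hua hu0a hc hc0
  rw [← h1, ← h2]
  exact (h.hm u hu).2.2 y huy

end Pool.Agent.Helper613.HS
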