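import Mathlib
import Pool.Agent.Helper613.HSTotal
import Pool.Agent.Helper104.HmGen

open Set Filter Topology
open scoped RealInnerProductSpace

namespace Pool.Agent.Helper613.HS

variable {V : Type} [NormedAddCommGroup V] [InnerProductSpace ℝ V] {K L : Set V} {X : V → V} {l : V → ℝ}

lemma starBody_of_star {K : Set V} (hK : Star K) (hU : ∀ y : V, y ≠ 0 → y ∈ U K) : Helper104.TrSec.IsStarBody K := by
  have hbdd : ∀ u : V, ‖u‖ = 1 → BddAbove {t : ℝ | 0 ≤ t ∧ t • u ∈ K} := by
    intro u hu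
    obtain ⟨R, hR⟩ := hK.cpt.isBounded.exists_norm_le
    refine ⟨R, fun t ht => ?_⟩
    have := hR _ ht.2
    rw [norm_smul, hu, mul_one, Real.norm_eq_abs, abs_of_nonneg ht.1] at this
    exact this
  have hclosed : ∀ u : V, IsClosed {t : ℝ | 0 ≤ t ∧ t • u ∈ K} := by
    intro u
    exact (isClosed_le continuous_const continuous_id).inter (hK.cpt.isClosed.preimage (by fun_prop : Continuous fun t : ℝ => t • u))
  have hne : ∀ u : V, {t : ℝ | 0 ≤ t ∧ t • u ∈ K}.Nonempty := fun u => ⟨0, le_rfl, by rw [zero_smul]; exact hK.zero⟩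
  have hatt : ∀ u : V, ‖u‖ = 1 → 0 ≤ Helper104.TrSec.radial K u ∧ Helper104.TrSec.radial K u • u ∈ K := fun u hu => 
    (hclosed u).csSup_mem (hne u) (hbdd u hu)
  have hle : ∀ u : V, ‖u‖ = 1 → ∀ t : ℝ, 0 ≤ t → t • u ∈ K → t ≤ Helper104.TrSec.radial K u := fun u hu t ht h => 
    le_csSup (hbdd u hu) ⟨ht, h⟩
  have hpos : ∀ u : V, ‖u‖ = 1 → 0 < Helper104.TrSec.radial K u := by
    intro u hu
    have hu0 : u ≠ 0 := by rintro rfl; simp at hu
    obtain ⟨-, t, ht, htK⟩ := hU u hu0
    exact lt_of_lt_of_le ht (hle u hu t ht.le htK)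
  refine ⟨hK.cpt, ?_, fun u hu => hpos u (mem_sphere_zero_iff_norm.1 hu), ?_⟩
  · intro x hx a b ha hb hab
    rw [smul_zero, zero_add]
    exact hK.star x hx b hb (by linarith)
  · intro u hu
    have hu1 := mem_sphere_zero_iff_norm.1 hu
    have hu0 : u ≠ 0 := by rintro rfl; simp at hu1
    set ρ := Helper104.TrSec.radial K u with hρ
    have hρ0 : 0 < ρ := hpos u hu1
    rw [ContinuousWithinAt, tendsto_order]
    constructor
    · intro a ha
      -- choose s
      obtain ⟨s, hs1, hs2, hs3⟩ : ∃ s : ℝ, 0 ≤ s ∧ s < 1 ∧ a < s * ρ := by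
        refine ⟨max ((a / ρ + 1) / 2) 0, le_max_right _ _, ?_, ?_⟩
        · apply max_lt _ one_pos
          have : a / ρ < 1 := by rw [div_lt_one hρ0]; exact ha
          linarith
        · have h1 : a / ρ < 1 := by rw [div_lt_one hρ0]; exact ha
          have h2 : a / ρ < max ((a / ρ + 1) / 2) 0 := lt_of_lt_of_le (by linarith) (le_max_left _ _)
          calc a = a / ρ * ρ := by field_simp
            _ < _ := by exact mul_lt_mul_of_pos_right h2 hρ0
      have hlow := hK.low (ρ • u) (hatt u hu1).2 (smul_ne_zero hρ0.ne' hu0) s hs1 hs2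
      have htend : Tendsto (fun u' : V => ρ • u') (𝓝[Metric.sphere 0 1] u) (𝓝 (ρ • u)) := by
        apply Continuous.tendsto' (by fun_prop) _ _ rfl |>.mono_left nhdsWithin_le_nhds
      filter_upwards [htend.eventually hlow, self_mem_nhdsWithin] with u' h1 h2
      have hu'1 := mem_sphere_zero_iff_norm.1 h2
      have hu'0 : u' ≠ 0 := by rintro rfl; simp at hu'1
      have h3 := h1 (hU _ (smul_ne_zero hρ0.ne' hu'0))
      rw [smul_smul] at h3
      exact lt_of_lt_of_le hs3 (hle u' hu'1 _ (by positivity) h3)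
    · intro a ha
      have ha0 : 0 < a := hρ0.trans ha
      have hnot : a • u ∉ K := fun h => absurd (hle u hu1 a ha0.le h) (not_le.2 ha)
      have hopen : IsOpen {u' : V | a • u' ∉ K} := (hK.cpt.isClosed.preimage (by fun_prop : Continuous fun u' : V => a • u')).isOpen_compl
      have hev : ∀ᶠ u' in 𝓝[Metric.sphere 0 1] u, a • u' ∉ K := nhdsWithin_le_nhds (hopen.mem_nhds hnot)
      filter_upwards [hev, self_mem_nhdsWithin] with u' h1 h2
      have hu'1 := mem_sphere_zero_iff_norm.1 h2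
      by_contra hcon
      rw [not_lt] at hcon
      apply h1
      have h3 := hK.star _ (hatt u' hu'1).2 (a / Helper104.TrSec.radial K u') (by have := (hatt u' hu'1).1; positivity) 
        (by rw [div_le_one (ha0.trans_le hcon)]; exact hcon)
      rwa [smul_smul, div_mul_cancel₀ _ (ha0.trans_le hcon).ne'] at h3

/-- both radial functions positive everywhere: the interior case -/
theorem caseA (hdim : Module.finrank ℝ V = 3) (h : Dat K L X l) (hK : ∀ y : V, y ≠ 0 → y ∈ U K) (hL : ∀ y : V, y ≠ 0 → y ∈ U L) : Hmt K L := by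
  haveI : FiniteDimensional ℝ V := FiniteDimensional.of_finrank_pos (by omega)
  haveI : Nontrivial V := Module.nontrivial_of_finrank_pos (R := ℝ) (by omega)
  obtain ⟨G, hG⟩ := Helper104.TrSec.exists_gauge (starBody_of_star h.sK hK)
  obtain ⟨H, hH⟩ := Helper104.TrSec.exists_gauge (starBody_of_star h.sL hL)
  have hex : ∀ (s : ℝ) (y : V), (H.ex s).g y ≤ 1 ↔ Real.exp s • y ∈ L := by
    intro s y
    rw [hH, H.homog _ (Real.exp_pos s).le]; rfl
  obtain ⟨x0, s0, h0⟩ := Helper104.TrSec.hm_three_dim hdim (G := G) (H := H) (by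
    intro u hu
    obtain ⟨h1, h2, h3⟩ := h.hm u hu
    refine ⟨X u, -Real.log (l u), h1, fun y hy => ?_⟩
    rw [hex, ← hG, Real.exp_neg, Real.exp_log h2, h3 _ (by rw [inner_smul_right, hy, mul_zero]), smul_smul, mul_inv_cancel₀ h2.ne', one_smul,
      add_comm])
  refine ⟨x0, Real.exp (-s0), Real.exp_pos _, fun y => ?_⟩
  have h1 := h0 (Real.exp (-s0) • y)
  rw [hex, smul_smul, ← Real.exp_add, add_neg_cancel, Real.exp_zero, one_smul, ← hG, add_comm] at h1
  exact h1

end Pool.Agent.Helper613.HS
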