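import Mathlib
import Pool.Agent.Helper613.HSTotal

open Set Filter Topology
open scoped RealInnerProductSpace

namespace Pool.Agent.Helper613.HS

namespace JDadd

variable {V : Type} [NormedAddCommGroup V] [InnerProductSpace ℝ V]
variable {K L : Set V} {X : V → V} {l : V → ℝ}
























/- TARGET: prove this (replace sorry). Auxiliary lemmas before it are welcome. -/

theorem smulD444 {v : V} (hv : v ∈ U L) (hv' : v ∉ U K) {c : ℝ} (hc : 0 < c) :
    c • v ∈ U L ∧ c • v ∉ U K := by
  refine ⟨U_smul hv hc, fun h => hv' ?_⟩
  have h1 := U_smul h (inv_pos.2 hc)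
  rwa [smul_smul, inv_mul_cancel₀ hc.ne', one_smul] at h1

theorem D_add (hdim : Module.finrank ℝ V = 3) (h : Dat K L X l) (hno : ∀ c, c ∈ U L → c ∉ U K → -c ∈ U L → -c ∈ U K) {p q : V} 
    (hp : p ∈ U L) (hp' : p ∉ U K) (hq : q ∈ U L) (hq' : q ∉ U K) : p + q ∈ U L ∧ p + q ∉ U K := by
  have hp0 : p ≠ 0 := hp.1
  have hnegp : ¬ (-p ∈ U L ∧ -p ∉ U K) := fun hh => hh.2 (hno p hp hp' hh.1)
  by_cases hli : LinearIndependent ℝ ![p, q]
  · obtain ⟨u, hu, hup, huq⟩ := exists_normal hdim p q
    have hz := negx_mem_D h hu hup hp hp'
    have huz : ⟪u, -X u⟫ = 0 := by rw [inner_neg_right, (h.hm u hu).1, neg_zero]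
    obtain ⟨a, b, hab⟩ := plane_coord hdim hu hup huq huz hli
    have hz0 : -X u ≠ 0 := hz.1.1
    by_cases c1 : 0 < b ∧ a < b
    · obtain ⟨hb, hlt⟩ := c1
      have h1 : 0 < 1 - a / b := by
        rw [sub_pos, div_lt_one hb]; exact hlt
      have h2 := D_arc h hu hup hp hp' h1 (one_div_pos.2 hb).le
      have e : (1 - a / b) • p - (1 / b) • X u = p + q := by
        have e1 : (1 - a / b) • p - (1 / b) • X u = (1 - a / b) • p + (1 / b) • (-X u) := by
          rw [smul_neg, sub_eq_add_neg]
        rw [e1, hab, smul_add, smul_smul, smul_smul, ← add_assoc, ← add_smul]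
        have e2 : 1 - a / b + 1 / b * a = 1 := by field_simp; ring
        have e3 : 1 / b * b = 1 := by field_simp
        rw [e2, e3, one_smul, one_smul]
      rwa [e] at h2
    · by_cases c2 : 0 < a ∧ b < a
      · obtain ⟨ha, hlt⟩ := c2
        have h1 : 0 < 1 - b / a := by
          rw [sub_pos, div_lt_one ha]; exact hlt
        have h2 := D_arc h hu huq hq hq' h1 (one_div_pos.2 ha).le
        have e : (1 - b / a) • q - (1 / a) • X u = p + q := by
          have e1 : (1 - b / a) • q - (1 / a) • X u = (1 / a) • (-X u) + (1 - b / a) • q := by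
            rw [smul_neg, sub_eq_add_neg, add_comm]
          rw [e1, hab, smul_add, smul_smul, smul_smul, add_assoc, ← add_smul]
          have e2 : 1 / a * b + (1 - b / a) = 1 := by field_simp; ring
          have e3 : 1 / a * a = 1 := by field_simp
          rw [e2, e3, one_smul, one_smul]
        rwa [e] at h2
      · by_cases c3 : 0 < a
        · have hb : 0 < b := by
            by_contra hb
            exact c2 ⟨c3, by linarith⟩
          have hab' : a = b := by
            by_contra hne
            rcases lt_or_gt_of_ne hne with h1 | h1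
            · exact c1 ⟨hb, h1⟩
            · exact c2 ⟨c3, h1⟩
          have h2 := smulD444 hz.1 hz.2 (inv_pos.2 c3)
          have e : a⁻¹ • -X u = p + q := by
            rw [hab, ← hab', ← smul_add, smul_smul, inv_mul_cancel₀ c3.ne', one_smul]
          rwa [e] at h2
        · exfalso
          have ha : a ≤ 0 := not_lt.1 c3
          have hb : b ≤ 0 := by
            by_contra hb
            exact c1 ⟨not_le.1 hb, by linarith [not_le.1 hb]⟩
          -- `a • p` is in `D`
          have hap : a • p ∈ U L ∧ a • p ∉ U K := by
            rcases hb.lt_or_eq with hb' | hb'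
            · have h2 := D_arc h hu huq hq hq' (β := -b) (α := 1) (by linarith) zero_le_one
              have e : (-b) • q - (1 : ℝ) • X u = a • p := by
                have e1 : (-b) • q - (1 : ℝ) • X u = (-b) • q + (-X u) := by
                  rw [one_smul, sub_eq_add_neg]
                rw [e1, hab, neg_smul]
                abel
              rwa [e] at h2
            · rw [hb', zero_smul, add_zero] at hab
              rw [← hab]
              exact hz
          rcases ha.lt_or_eq with ha' | ha'
          · apply hnegp
            have h3 := smulD444 hap.1 hap.2 (c := (-a)⁻¹) (inv_pos.2 (by linarith))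
            have e : (-a)⁻¹ • (a • p) = -p := by
              rw [smul_smul]
              have : (-a)⁻¹ * a = -1 := by
                have : a ≠ 0 := ha'.ne
                field_simp
              rw [this, neg_one_smul]
            rwa [e] at h3
          · rw [ha', zero_smul] at hap
            exact hap.1.1 rfl
  · rw [LinearIndependent.pair_iff' hp0] at hli
    push Not at hli
    obtain ⟨a, ha⟩ := hli
    rcases lt_trichotomy a 0 with h1 | h1 | h1
    · exfalso
      apply hnegp
      have h3 := smulD444 hq hq' (c := (-a)⁻¹) (inv_pos.2 (by linarith))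
      have e : (-a)⁻¹ • q = -p := by
        rw [← ha, smul_smul]
        have : (-a)⁻¹ * a = -1 := by
          have : a ≠ 0 := h1.ne
          field_simp
        rw [this, neg_one_smul]
      rwa [e] at h3
    · exfalso
      rw [h1, zero_smul] at ha
      exact hq.1 ha.symm
    · have h3 := smulD444 hp hp' (c := 1 + a) (by linarith)
      have e : (1 + a) • p = p + q := by
        rw [add_smul, one_smul, ha]
      rwa [e] at h3

end JDadd

end Pool.Agent.Helper613.HS
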