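import Mathlib
import Pool.Agent.Helper613.HSTotal

open Set Filter Topology
open scoped RealInnerProductSpace

namespace Pool.Agent.Helper613.HS

namespace Jantip


variable {V : Type} [NormedAddCommGroup V] [InnerProductSpace ℝ V]
variable {K L : Set V} {X : V → V} {l : V → ℝ}
























/- TARGET: prove this (replace sorry). Auxiliary lemmas before it are welcome. -/

/-- all translates of `v` along `c` lie in `U L \ U K` -/
def Rp (K L : Set V) (c v : V) : Prop := ∀ γ : ℝ, v + γ • c ∈ U L ∧ v + γ • c ∉ U K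

lemma Rp.smul {c v : V} (h : Rp K L c v) {s : ℝ} (hs : 0 < s) : Rp K L c (s • v) := by
  intro γ
  have h1 := h (γ / s)
  have e : s • v + γ • c = s • (v + (γ / s) • c) := by
    rw [smul_add, smul_smul, mul_div_cancel₀ _ hs.ne']
  refine ⟨e ▸ U_smul h1.1 hs, fun h2 => h1.2 ?_⟩
  have h3 := U_smul h2 (inv_pos.mpr hs)
  rw [e, smul_smul, inv_mul_cancel₀ hs.ne', one_smul] at h3
  exact h3

lemma Rp.shift {c v : V} (h : Rp K L c v) (δ : ℝ) : Rp K L c (v + δ • c) := by
  intro γ
  have e : v + δ • c + γ • c = v + (δ + γ) • c := by rw [add_smul, add_assoc]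
  rw [e]; exact h _

lemma Rp.ne_smul {c v : V} (h : Rp K L c v) (t : ℝ) : v ≠ t • c := by
  intro e
  have h1 := (h (-t)).1.1
  apply h1
  rw [e, neg_smul, add_neg_cancel]

lemma Rp.mem {c v : V} (h : Rp K L c v) : v ∈ U L ∧ v ∉ U K := by
  have := h 0
  simpa using this

lemma Rp.ne_zero {c v : V} (h : Rp K L c v) : v ≠ 0 := h.mem.1.1

lemma dich (hdim : Module.finrank ℝ V = 3) (h : Dat K L X l) {c : V} (hc : c ∈ U L)
    (hc' : c ∉ U K) (hnc : -c ∈ U L) (hnc' : -c ∉ U K) {v : V} (hv : ∀ t : ℝ, v ≠ t • c) :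
    (Rp K L c v ∧ ∃ γ : ℝ, -v + γ • c ∈ U K) ∨ (Rp K L c (-v) ∧ ∃ γ : ℝ, v + γ • c ∈ U K) := by
  obtain ⟨u, hu, huc, huv⟩ := exists_normal hdim c v
  have hz := negx_mem_D h hu huc hc hc'
  have hx0 := x_ne_zero h hu huc hc hc'
  have hxK := x_mem_U h hu hx0
  have hux : ⟪u, X u⟫ = 0 := (h.hm u hu).1
  have hc0 : c ≠ 0 := hc.1
  have hunc : ⟪u, -c⟫ = 0 := by rw [inner_neg_right, huc, neg_zero]
  have hli : LinearIndependent ℝ ![c, v] :=
    (LinearIndependent.pair_iff' hc0).mpr fun a e => hv a e.symm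
  obtain ⟨α, β, hαβ⟩ := plane_coord hdim hu huc huv hux hli
  have hβ : β ≠ 0 := by
    intro hb
    rw [hb, zero_smul, add_zero] at hαβ
    rcases lt_trichotomy α 0 with ha | ha | ha
    · apply hnc'
      have h1 := U_smul hxK (inv_pos.mpr (neg_pos.mpr ha))
      rw [hαβ, smul_smul] at h1
      have e : (-α)⁻¹ * α = -1 := by
        have : α ≠ 0 := ha.ne
        field_simp
      rwa [e, neg_one_smul] at h1
    · rw [ha, zero_smul] at hαβ
      exact hx0 hαβ
    · apply hc'
      have h1 := U_smul hxK (inv_pos.mpr ha)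
      rwa [hαβ, smul_smul, inv_mul_cancel₀ ha.ne', one_smul] at h1
  have key : ∀ s : ℝ, 0 < s → ∀ γ : ℝ, -(s • X u) + γ • c ∈ U L ∧ -(s • X u) + γ • c ∉ U K := by
    intro s hs γ
    rcases lt_trichotomy γ 0 with hg | hg | hg
    · have h1 := D_arc h hu hunc hnc hnc' (neg_pos.mpr hg) hs.le
      have e : -γ • -c - s • X u = -(s • X u) + γ • c := by
        rw [smul_neg, neg_smul, neg_neg]; abel
      rwa [e] at h1
    · rw [hg, zero_smul, add_zero, ← smul_neg]
      refine ⟨U_smul hz.1 hs, fun h2 => hz.2 ?_⟩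
      have h3 := U_smul h2 (inv_pos.mpr hs)
      rwa [smul_smul, inv_mul_cancel₀ hs.ne', one_smul] at h3
    · have h1 := D_arc h hu huc hc hc' hg hs.le
      have e : γ • c - s • X u = -(s • X u) + γ • c := by abel
      rwa [e] at h1
  rcases lt_or_gt_of_ne hβ with hb | hb
  · left
    have hb' : 0 < -β := neg_pos.mpr hb
    have ev : v = -((-β)⁻¹ • X u) + ((-β)⁻¹ * α) • c := by
      rw [hαβ, smul_add, smul_smul, smul_smul]
      have : (-β)⁻¹ * β = -1 := by field_simp
      rw [this, neg_one_smul]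
      abel
    refine ⟨fun γ => ?_, (-β)⁻¹ * α, ?_⟩
    · have h1 := key _ (inv_pos.mpr hb') ((-β)⁻¹ * α + γ)
      have e : v + γ • c = -((-β)⁻¹ • X u) + ((-β)⁻¹ * α + γ) • c := by
        rw [add_smul, ← add_assoc, ← ev]
      rwa [e]
    · have e : -v + ((-β)⁻¹ * α) • c = (-β)⁻¹ • X u := by
        nth_rewrite 1 [ev]
        abel
      rw [e]
      exact U_smul hxK (inv_pos.mpr hb')
  · right
    have ev : -v = -(β⁻¹ • X u) + (β⁻¹ * α) • c := by
      rw [hαβ, smul_add, smul_smul, smul_smul, inv_mul_cancel₀ hβ, one_smul]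
      abel
    refine ⟨fun γ => ?_, β⁻¹ * α, ?_⟩
    · have h1 := key _ (inv_pos.mpr hb) (β⁻¹ * α + γ)
      have e : -v + γ • c = -(β⁻¹ • X u) + (β⁻¹ * α + γ) • c := by
        rw [add_smul, ← add_assoc, ← ev]
      rwa [e]
    · have e : v + (β⁻¹ * α) • c = β⁻¹ • X u := by
        have e2 : v = β⁻¹ • X u - (β⁻¹ * α) • c := by
          rw [← neg_neg v, ev]; abel
        nth_rewrite 1 [e2]
        abel
      rw [e]
      exact U_smul hxK (inv_pos.mpr hb)

lemma Rp.exists_neg (hdim : Module.finrank ℝ V = 3) (h : Dat K L X l) {c : V} (hc : c ∈ U L)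
    (hc' : c ∉ U K) (hnc : -c ∈ U L) (hnc' : -c ∉ U K) {v : V} (hv : Rp K L c v) :
    ∃ γ : ℝ, -v + γ • c ∈ U K := by
  rcases dich hdim h hc hc' hnc hnc' (v := v) hv.ne_smul with h1 | h1
  · exact h1.2
  · obtain ⟨γ, hγ⟩ := h1.2
    exact absurd hγ (hv γ).2

lemma Rp.not_neg (hdim : Module.finrank ℝ V = 3) (h : Dat K L X l) {c : V} (hc : c ∈ U L)
    (hc' : c ∉ U K) (hnc : -c ∈ U L) (hnc' : -c ∉ U K) {v : V} (hv : Rp K L c v) :
    ¬ Rp K L c (-v) := by
  intro hn
  obtain ⟨γ, hγ⟩ := hv.exists_neg hdim h hc hc' hnc hnc'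
  exact (hn γ).2 hγ

lemma Rp.add (hdim : Module.finrank ℝ V = 3) (h : Dat K L X l) {c : V} (hc : c ∈ U L)
    (hc' : c ∉ U K) (hnc : -c ∈ U L) (hnc' : -c ∉ U K) {v1 v2 : V} (h1 : Rp K L c v1)
    (h2 : Rp K L c v2) (hs : ∀ t : ℝ, v1 + v2 ≠ t • c) : Rp K L c (v1 + v2) := by
  rcases dich hdim h hc hc' hnc hnc' hs with h3 | h3
  · exact h3.1
  exfalso
  obtain ⟨γ1, hγ1⟩ := h1.exists_neg hdim h hc hc' hnc hnc'
  obtain ⟨γ2, hγ2⟩ := h2.exists_neg hdim h hc hc' hnc hnc'
  obtain ⟨w1, hw1⟩ : ∃ w1, w1 = v1 + (-γ1) • c := ⟨_, rfl⟩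
  obtain ⟨w2, hw2⟩ : ∃ w2, w2 = v2 + (-γ2) • c := ⟨_, rfl⟩
  have r1 : Rp K L c w1 := hw1 ▸ h1.shift _
  have r2 : Rp K L c w2 := hw2 ▸ h2.shift _
  have r3 : Rp K L c (-(w1 + w2)) := by
    have h4 := h3.1.shift (γ1 + γ2)
    have e : -(v1 + v2) + (γ1 + γ2) • c = -(w1 + w2) := by
      rw [hw1, hw2, neg_smul, neg_smul, add_smul]; abel
    rwa [e] at h4
  have k1 : -w1 ∈ U K := by
    have e : -w1 = -v1 + γ1 • c := by rw [hw1, neg_smul]; abel
    rw [e]; exact hγ1
  have k2 : -w2 ∈ U K := by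
    have e : -w2 = -v2 + γ2 • c := by rw [hw2, neg_smul]; abel
    rw [e]; exact hγ2
  by_cases hli : LinearIndependent ℝ ![w1, w2]
  · obtain ⟨u, hu, hu1, hu2⟩ := exists_normal hdim w1 w2
    have hu3 : ⟪u, -(w1 + w2)⟫ = 0 := by
      rw [inner_neg_right, inner_add_right, hu1, hu2]; norm_num
    have hx0 := x_ne_zero h hu hu1 r1.mem.1 r1.mem.2
    have hxK := x_mem_U h hu hx0
    have hux : ⟪u, X u⟫ = 0 := (h.hm u hu).1
    obtain ⟨α, β, hαβ⟩ := plane_coord hdim hu hu1 hu2 hux hli
    -- positive multiples of `-w1`, `-w2` are not in `D`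
    have n1 : ∀ s : ℝ, 0 < s → s • (-w1) ∈ U K := fun s hs => U_smul k1 hs
    have n2 : ∀ s : ℝ, 0 < s → s • (-w2) ∈ U K := fun s hs => U_smul k2 hs
    -- `X u` is not a positive multiple of an element outside `U K`
    have n3 : ∀ s : ℝ, 0 < s → ∀ p : V, p ∉ U K → X u ≠ s • p := by
      intro s hs p hp e
      apply hp
      have h5 := U_smul hxK (inv_pos.mpr hs)
      rwa [e, smul_smul, inv_mul_cancel₀ hs.ne', one_smul] at h5
    rcases le_total α β with hle | hle
    · rcases lt_or_ge α 0 with ha | ha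
      · -- x = (-α) v3 + (β - α) v2
        have hx : X u = (-α) • (-(w1 + w2)) + (β - α) • w2 := by
          rw [hαβ, sub_smul, smul_neg, neg_smul, neg_neg, smul_add]; abel
        rcases eq_or_lt_of_le hle with he | hlt
        · refine n3 (-α) (neg_pos.mpr ha) _ r3.mem.2 ?_
          rw [hx, he, sub_self, zero_smul, add_zero]
        · have h6 := D_arc h hu hu3 r3.mem.1 r3.mem.2 (neg_pos.mpr ha) (zero_le_one' ℝ)
          apply h6.2
          have e : (-α) • (-(w1 + w2)) - (1:ℝ) • X u = (β - α) • (-w2) := by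
            rw [one_smul, hx, smul_neg (β - α)]; abel
          rw [e]
          exact n2 _ (sub_pos.mpr hlt)
      · rcases eq_or_lt_of_le ha with h0 | h0
        · rcases eq_or_lt_of_le (ha.trans hle) with hb | hb
          · apply hx0
            rw [hαβ, ← h0, ← hb, zero_smul, zero_smul, add_zero]
          · refine n3 β hb _ r2.mem.2 ?_
            rw [hαβ, ← h0, zero_smul, zero_add]
        · have hb : 0 < β := h0.trans_le hle
          have h6 := D_arc h hu hu2 r2.mem.1 r2.mem.2 hb (zero_le_one' ℝ)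
          apply h6.2
          have e : β • w2 - (1:ℝ) • X u = α • (-w1) := by
            rw [one_smul, hαβ, smul_neg]; abel
          rw [e]
          exact n1 _ h0
    · rcases lt_or_ge β 0 with ha | ha
      · have hx : X u = (-β) • (-(w1 + w2)) + (α - β) • w1 := by
          rw [hαβ, sub_smul, smul_neg, neg_smul, neg_neg, smul_add]; abel
        rcases eq_or_lt_of_le hle with he | hlt
        · refine n3 (-β) (neg_pos.mpr ha) _ r3.mem.2 ?_
          rw [hx, he, sub_self, zero_smul, add_zero]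
        · have h6 := D_arc h hu hu3 r3.mem.1 r3.mem.2 (neg_pos.mpr ha) (zero_le_one' ℝ)
          apply h6.2
          have e : (-β) • (-(w1 + w2)) - (1:ℝ) • X u = (α - β) • (-w1) := by
            rw [one_smul, hx, smul_neg (α - β)]; abel
          rw [e]
          exact n1 _ (sub_pos.mpr hlt)
      · rcases eq_or_lt_of_le ha with h0 | h0
        · rcases eq_or_lt_of_le (ha.trans hle) with hb | hb
          · apply hx0
            rw [hαβ, ← h0, ← hb, zero_smul, zero_smul, add_zero]
          · refine n3 α hb _ r1.mem.2 ?_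
            rw [hαβ, ← h0, zero_smul, add_zero]
        · have hb : 0 < α := h0.trans_le hle
          have h6 := D_arc h hu hu1 r1.mem.1 r1.mem.2 hb (zero_le_one' ℝ)
          apply h6.2
          have e : α • w1 - (1:ℝ) • X u = β • (-w2) := by
            rw [one_smul, hαβ, smul_neg]; abel
          rw [e]
          exact n2 _ h0
  · rw [LinearIndependent.pair_iff' r1.ne_zero] at hli
    push Not at hli
    obtain ⟨κ, hκ⟩ := hli
    rcases lt_trichotomy κ 0 with hk | hk | hk
    · have h5 := r2.smul (inv_pos.mpr (neg_pos.mpr hk))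
      rw [← hκ, smul_smul] at h5
      have e : (-κ)⁻¹ * κ = -1 := by
        have : κ ≠ 0 := hk.ne
        field_simp
      rw [e, neg_one_smul] at h5
      exact r1.not_neg hdim h hc hc' hnc hnc' h5
    · rw [hk, zero_smul] at hκ
      exact r2.ne_zero hκ.symm
    · have h5 := r1.smul (show 0 < 1 + κ by linarith)
      rw [add_smul, one_smul, hκ] at h5
      exact h5.not_neg hdim h hc hc' hnc hnc' r3

lemma half_plane_aux (P : ℝ → ℝ → Prop) (hs : ∀ a b s, 0 < s → P a b → P (s*a) (s*b))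
    (ha : ∀ a b a' b', P a b → P a' b' → (a + a' ≠ 0 ∨ b + b' ≠ 0) → P (a+a') (b+b'))
    (ht : ∀ a b, (a ≠ 0 ∨ b ≠ 0) → P a b ∨ P (-a) (-b)) (h01 : P 0 1) :
    ∃ p q : ℝ, (p ≠ 0 ∨ q ≠ 0) ∧ ∀ a b, 0 < p*a + q*b → P a b := by
  set S : Set ℝ := {t | P 1 (-t)} with hS
  have hdown : ∀ t ∈ S, ∀ t', t' < t → t' ∈ S := by
    intro t htS t' hlt
    have h1 := hs 0 1 (t - t') (sub_pos.mpr hlt) h01
    have h2 := ha _ _ _ _ htS h1 (Or.inl (by norm_num))
    have e1 : (1:ℝ) + (t - t') * 0 = 1 := by ring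
    have e2 : -t + (t - t') * 1 = -t' := by ring
    rw [e1, e2] at h2
    exact h2
  have hpos : ∀ a b : ℝ, 0 < a → -b / a ∈ S → P a b := by
    intro a b h0 hb
    have h1 := hs _ _ a h0 hb
    have e1 : a * 1 = a := by ring
    have e2 : a * -(-b / a) = b := by field_simp
    rwa [e1, e2] at h1
  have hneg : ∀ a b : ℝ, a < 0 → b / (-a) ∉ S → P a b := by
    intro a b h0 hb
    have h1 := (ht 1 (-(b / (-a))) (Or.inl one_ne_zero)).resolve_left hb
    rw [neg_neg] at h1
    have h2 := hs _ _ (-a) (neg_pos.mpr h0) h1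
    have e1 : -a * -1 = a := by ring
    have e2 : -a * (b / -a) = b := by
      have : a ≠ 0 := h0.ne
      field_simp
    rwa [e1, e2] at h2
  by_cases hne : S.Nonempty
  · by_cases hbd : BddAbove S
    · refine ⟨sSup S, 1, Or.inr one_ne_zero, fun a b hab => ?_⟩
      rcases lt_trichotomy a 0 with h0 | h0 | h0
      · refine hneg a b h0 fun hmem => ?_
        have h1 := le_csSup hbd hmem
        rw [div_le_iff₀ (neg_pos.mpr h0)] at h1
        nlinarith
      · rw [h0, mul_zero, zero_add, one_mul] at hab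
        have h1 := hs 0 1 b hab h01
        rw [mul_zero, mul_one] at h1
        rwa [h0]
      · refine hpos a b h0 ?_
        have hlt : -b / a < sSup S := by
          rw [div_lt_iff₀ h0]; linarith
        obtain ⟨s, hsS, hs'⟩ := exists_lt_of_lt_csSup hne hlt
        exact hdown s hsS _ hs'
    · refine ⟨1, 0, Or.inl one_ne_zero, fun a b hab => ?_⟩
      have h0 : 0 < a := by linarith
      refine hpos a b h0 ?_
      obtain ⟨s, hsS, hs'⟩ := not_bddAbove_iff.mp hbd (-b / a)
      exact hdown s hsS _ hs'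
  · refine ⟨-1, 0, Or.inl (by norm_num), fun a b hab => ?_⟩
    exact hneg a b (by linarith) fun hmem => hne ⟨_, hmem⟩

lemma half_plane (P : ℝ → ℝ → Prop) (hs : ∀ a b s, 0 < s → P a b → P (s*a) (s*b))
    (ha : ∀ a b a' b', P a b → P a' b' → (a + a' ≠ 0 ∨ b + b' ≠ 0) → P (a+a') (b+b'))
    (ht : ∀ a b, (a ≠ 0 ∨ b ≠ 0) → P a b ∨ P (-a) (-b)) :
    ∃ p q : ℝ, (p ≠ 0 ∨ q ≠ 0) ∧ ∀ a b, 0 < p*a + q*b → P a b := by
  rcases ht 0 1 (Or.inr one_ne_zero) with h | h
  · exact half_plane_aux P hs ha ht h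
  · obtain ⟨p, q, hpq, hP⟩ := half_plane_aux (fun a b => P a (-b))
      (fun a b s h0 h1 => by
        have := hs a (-b) s h0 h1
        rwa [mul_neg] at this)
      (fun a b a' b' h1 h2 h3 => by
        have := ha a (-b) a' (-b') h1 h2 (by
          rcases h3 with h3 | h3
          · exact Or.inl h3
          · right; intro h4; apply h3; linarith)
        have e : -b + -b' = -(b + b') := by ring
        rwa [e] at this)
      (fun a b h1 => by
        exact ht a (-b) (by
          rcases h1 with h1 | h1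
          · exact Or.inl h1
          · right; exact neg_ne_zero.mpr h1))
      (by
        have e : (-0:ℝ) = 0 := neg_zero
        rwa [e] at h)
    refine ⟨p, -q, ?_, fun a b hab => ?_⟩
    · rcases hpq with h1 | h1
      · exact Or.inl h1
      · exact Or.inr (neg_ne_zero.mpr h1)
    · have := hP a (-b) (by linarith)
      simpa using this

theorem antip (hdim : Module.finrank ℝ V = 3) (h : Dat K L X l) {c : V} (hc : c ∈ U L) (hc' : c ∉ U K) (hnc : -c ∈ U L) (hnc' : -c ∉ U K) : 
    OneSided K := by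
  have hc0 : c ≠ 0 := hc.1
  obtain ⟨e1, h10, h1c, -⟩ := exists_normal hdim c c
  obtain ⟨e2, h20, h2c, h21⟩ := exists_normal hdim c e1
  have hcc : 0 < ⟪c, c⟫ := real_inner_self_pos.mpr hc0
  have h11 : 0 < ⟪e1, e1⟫ := real_inner_self_pos.mpr h10
  have h22 : 0 < ⟪e2, e2⟫ := real_inner_self_pos.mpr h20
  have hc1 : ⟪c, e1⟫ = 0 := by rw [real_inner_comm]; exact h1c
  have hc2 : ⟪c, e2⟫ = 0 := by rw [real_inner_comm]; exact h2c
  have h12 : ⟪e1, e2⟫ = 0 := by rw [real_inner_comm]; exact h21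
  -- coordinates
  have hcoord : ∀ v : V, ∃ a b γ : ℝ, v = a • e1 + b • e2 + γ • c := by
    intro v
    have hli : LinearIndependent ℝ ![e1, e2, c] := by
      refine linearIndependent_of_ne_zero_of_inner_eq_zero ?_ ?_
      · intro i; fin_cases i
        · exact h10
        · exact h20
        · exact hc0
      · intro i j hij
        fin_cases i <;> fin_cases j <;> first | exact absurd rfl hij | simpa using h12 | simpa using h21 | simpa using h1c | simpa using h2c | simpa using hc1 | simpa using hc2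
    have hfin : FiniteDimensional ℝ V := FiniteDimensional.of_finrank_pos (by omega)
    let b := basisOfLinearIndependentOfCardEqFinrank hli (by simp [hdim])
    have hb := b.sum_repr v
    rw [Fin.sum_univ_three] at hb
    refine ⟨b.repr v 0, b.repr v 1, b.repr v 2, ?_⟩
    conv_lhs => rw [← hb]
    simp [b]
  -- a vector with a nonzero coordinate is not a multiple of c
  have hne : ∀ a b : ℝ, (a ≠ 0 ∨ b ≠ 0) → ∀ t : ℝ, a • e1 + b • e2 ≠ t • c := by
    intro a b hab t e
    rcases hab with ha | hb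
    · have h3 := congrArg (fun z => ⟪e1, z⟫) e
      simp only [inner_add_right, inner_smul_right, h12, h1c, mul_zero, add_zero] at h3
      exact (mul_ne_zero ha h11.ne') h3
    · have h3 := congrArg (fun z => ⟪e2, z⟫) e
      simp only [inner_add_right, inner_smul_right, h21, h2c, mul_zero, zero_add] at h3
      exact (mul_ne_zero hb h22.ne') h3
  obtain ⟨p, q, hpq, hP⟩ := half_plane (fun a b => Rp K L c (a • e1 + b • e2))
    (fun a b s h0 h1 => by
      have h2 := h1.smul h0
      rwa [smul_add, smul_smul, smul_smul] at h2)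
    (fun a b a' b' h1 h2 h3 => by
      have e : (a + a') • e1 + (b + b') • e2 = (a • e1 + b • e2) + (a' • e1 + b' • e2) := by
        rw [add_smul, add_smul]; abel
      have h4 := hne _ _ h3
      simp only [e] at h4 ⊢
      exact h1.add hdim h hc hc' hnc hnc' h2 h4)
    (fun a b h1 => by
      have e : -(a • e1 + b • e2) = (-a) • e1 + (-b) • e2 := by
        rw [neg_smul, neg_smul]; abel
      rcases dich hdim h hc hc' hnc hnc' (hne a b h1) with h2 | h2
      · exact Or.inl h2.1
      · right; rw [← e]; exact h2.1)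
  refine ⟨(p / ⟪e1, e1⟫) • e1 + (q / ⟪e2, e2⟫) • e2, ?_, ?_⟩
  · intro e
    rcases hpq with hp | hq
    · have h3 := congrArg (fun z => ⟪e1, z⟫) e
      simp only [inner_add_right, inner_smul_right, h12, mul_zero, add_zero, inner_zero_right] at h3
      rw [div_mul_cancel₀ _ h11.ne'] at h3
      exact hp h3
    · have h3 := congrArg (fun z => ⟪e2, z⟫) e
      simp only [inner_add_right, inner_smul_right, h21, mul_zero, zero_add, inner_zero_right] at h3
      rw [div_mul_cancel₀ _ h22.ne'] at h3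
      exact hq h3
  · intro y hy
    by_contra hlt
    push Not at hlt
    obtain ⟨a, b, γ, rfl⟩ := hcoord y
    have e : ⟪(p / ⟪e1, e1⟫) • e1 + (q / ⟪e2, e2⟫) • e2, a • e1 + b • e2 + γ • c⟫
        = p * a + q * b := by
      simp only [inner_add_right, inner_add_left, inner_smul_right, inner_smul_left, h12, h21,
        h1c, h2c, conj_trivial]
      field_simp
      ring
    rw [e] at hlt
    have h3 := (hP a b hlt).shift γ
    apply h3.mem.2
    exact ⟨h3.ne_zero, 1, one_pos, by rwa [one_smul]⟩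

end Jantip

end Pool.Agent.Helper613.HS
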