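import Mathlib
import Pool.Agent.Helper613.HSTotal

open Set Filter Topology
open scoped RealInnerProductSpace

namespace Pool.Agent.Helper613.HS


theorem h845_ext {W : Type} [NormedAddCommGroup W] [InnerProductSpace ℝ W] [FiniteDimensional ℝ W]
    (m : ℕ) : ∀ F : Submodule ℝ W, Module.finrank ℝ F + m ≤ Module.finrank ℝ W →
    ∃ S : Submodule ℝ W, F ≤ S ∧ Module.finrank ℝ S = Module.finrank ℝ F + m := by
  induction m with
  | zero => intro F _; exact ⟨F, le_rfl, rfl⟩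
  | succ m ih =>
    intro F hF
    obtain ⟨S, hFS, hS⟩ := ih F (by omega)
    have hlt : S ≠ ⊤ := by
      intro h
      rw [h, finrank_top] at hS
      omega
    obtain ⟨v, hv⟩ : ∃ v, v ∉ S := by
      by_contra hcon
      push Not at hcon
      exact hlt (Submodule.eq_top_iff'.2 hcon)
    refine ⟨S ⊔ Submodule.span ℝ {v}, hFS.trans le_sup_left, ?_⟩
    rw [Submodule.finrank_sup_span_singleton hv, hS]; ring

theorem h845_ext3 {W : Type} [NormedAddCommGroup W] [InnerProductSpace ℝ W] [FiniteDimensional ℝ W]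
    {k : ℕ} (hk : 3 ≤ k) (hkn : k ≤ Module.finrank ℝ W) (a b c : W) :
    ∃ S : Submodule ℝ W, Module.finrank ℝ S = k ∧ a ∈ S ∧ b ∈ S ∧ c ∈ S := by
  classical
  set F := Submodule.span ℝ ({a, b, c} : Set W) with hF
  have hcard : Module.finrank ℝ F ≤ 3 := by
    have h1 := finrank_span_finset_le_card (R := ℝ) ({a, b, c} : Finset W)
    have h2 : ({a, b, c} : Finset W).card ≤ 3 := Finset.card_le_three
    have h3 : F = Submodule.span ℝ (({a, b, c} : Finset W) : Set W) := by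
      rw [hF]; congr 1; simp
    rw [h3]
    exact h1.trans h2
  obtain ⟨S, hFS, hS⟩ := h845_ext (k - Module.finrank ℝ F) F (by omega)
  refine ⟨S, by omega, hFS (Submodule.subset_span (by simp)), hFS (Submodule.subset_span (by simp)),
    hFS (Submodule.subset_span (by simp))⟩

/- TARGET -/
theorem bigk {W : Type} [NormedAddCommGroup W] [InnerProductSpace ℝ W] [FiniteDimensional ℝ W] {k : ℕ} (hk : 3 ≤ k) 
    (hkn : k ≤ Module.finrank ℝ W) {K L : Set W} (hK : IsCompact K) (hL : IsCompact L) (h0K : (0 : W) ∈ K) (h0L : (0 : W) ∈ L)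
    (h : ∀ S : Submodule ℝ W, Module.finrank ℝ S = k → ∃ (x : W) (r : ℝ), 0 < r ∧ x ∈ S ∧ ∀ y ∈ S, (y ∈ L ↔ x + r • y ∈ K)) : Hmt K L := by
  by_cases hL0 : ∀ y ∈ L, y = 0
  · have hK0 : ∀ y ∈ K, y = 0 := by
      intro y hy
      obtain ⟨S, hSk, hyS, -, -⟩ := h845_ext3 hk hkn y y y
      obtain ⟨x, r, hr, hxS, hS⟩ := h S hSk
      have hx0 : x = 0 := by
        have h1 := (hS (-(r⁻¹ • x)) (S.neg_mem (S.smul_mem _ hxS))).2 (by
          have : x + r • -(r⁻¹ • x) = 0 := by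
            rw [smul_neg, smul_smul, mul_inv_cancel₀ hr.ne', one_smul, add_neg_cancel]
          rw [this]; exact h0K)
        have h2 := hL0 _ h1
        rw [neg_eq_zero, smul_eq_zero] at h2
        rcases h2 with h2 | h2
        · exact absurd h2 (inv_ne_zero hr.ne')
        · exact h2
      have h1 := (hS (r⁻¹ • y) (S.smul_mem _ hyS)).2 (by
        rw [hx0, smul_smul, mul_inv_cancel₀ hr.ne', one_smul, zero_add]; exact hy)
      have h2 := hL0 _ h1
      rw [smul_eq_zero] at h2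
      rcases h2 with h2 | h2
      · exact absurd h2 (inv_ne_zero hr.ne')
      · exact h2
    refine ⟨0, 1, one_pos, fun y => ?_⟩
    rw [zero_add, one_smul]
    constructor
    · intro hy; rw [hL0 y hy]; exact h0K
    · intro hy; rw [hK0 y hy]; exact h0L
  · push Not at hL0
    obtain ⟨y0, hy0L, hy0⟩ := hL0
    obtain ⟨R, hR⟩ := hK.isBounded.exists_norm_le
    have hy0n : 0 < ‖y0‖ := norm_pos_iff.2 hy0
    set M : ℝ := (|R| + 1) / ‖y0‖ with hM
    have hMpos : 0 < M := by positivity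
    have hMy : R < M * ‖y0‖ := by
      rw [hM, div_mul_cancel₀ _ hy0n.ne']
      linarith [le_abs_self R]
    have hcomp : IsCompact (K ×ˢ L) := hK.prod hL
    obtain ⟨⟨p, q⟩, hpq, hmax⟩ := hcomp.exists_isMaxOn ⟨(0, 0), h0K, h0L⟩
      (f := fun u : W × W => ‖u.1 + M • u.2‖) (by fun_prop)
    have hpK : p ∈ K := hpq.1
    have hqL : q ∈ L := hpq.2
    set z := p + M • q with hz
    have hmax' : ∀ p' ∈ K, ∀ q' ∈ L, ‖p' + M • q'‖ ≤ ‖z‖ := fun p' hp' q' hq' =>
      hmax (show (p', q') ∈ K ×ˢ L from ⟨hp', hq'⟩)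
    have hzn : R < ‖z‖ := by
      have h1 := hmax' 0 h0K y0 hy0L
      rw [zero_add, norm_smul, Real.norm_of_nonneg hMpos.le] at h1
      linarith
    have hq0 : q ≠ 0 := by
      intro h0
      rw [hz, h0, smul_zero, add_zero] at hzn
      exact absurd (hR p hpK) (not_le.2 hzn)
    have hzz : ⟪z, z⟫ = ‖z‖ ^ 2 := real_inner_self_eq_norm_sq z
    have hle : ∀ u : W, ‖u‖ ≤ ‖z‖ → ⟪z, u⟫ ≤ ⟪z, z⟫ := by
      intro u hu
      rw [hzz]
      calc ⟪z, u⟫ ≤ ‖z‖ * ‖u‖ := real_inner_le_norm z u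
        _ ≤ ‖z‖ * ‖z‖ := by gcongr
        _ = ‖z‖ ^ 2 := by ring
    have hKle : ∀ p' ∈ K, ⟪z, p'⟫ ≤ ⟪z, p⟫ := by
      intro p' hp'
      have h1 := hle _ (hmax' p' hp' q hqL)
      have h2 : ⟪z, z⟫ = ⟪z, p + M • q⟫ := by rw [← hz]
      rw [h2, inner_add_right, inner_add_right] at h1
      linarith
    have hKeq : ∀ p' ∈ K, ⟪z, p⟫ ≤ ⟪z, p'⟫ → p' = p := by
      intro p' hp' hge
      have h0 := hmax' p' hp' q hqL
      have h1 : ⟪z, z⟫ ≤ ⟪z, p' + M • q⟫ := by
        have h2 : ⟪z, z⟫ = ⟪z, p + M • q⟫ := by rw [← hz]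
        rw [h2, inner_add_right, inner_add_right]
        linarith
      have h3 : ‖(p' + M • q) - z‖ ^ 2 ≤ 0 := by
        rw [norm_sub_sq_real, real_inner_comm]
        have h4 : ‖p' + M • q‖ ^ 2 ≤ ‖z‖ ^ 2 := pow_le_pow_left₀ (norm_nonneg _) h0 2
        rw [hzz] at h1
        linarith
      have h5 : ‖(p' + M • q) - z‖ = 0 := by
        have := sq_nonneg ‖(p' + M • q) - z‖
        exact pow_eq_zero_iff (two_ne_zero) |>.1 (le_antisymm h3 this)
      rw [norm_eq_zero, hz, add_sub_add_right_eq_sub, sub_eq_zero] at h5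
      exact h5
    have hLle : ∀ q' ∈ L, ⟪z, q'⟫ ≤ ⟪z, q⟫ := by
      intro q' hq'
      have h1 := hle _ (hmax' p hpK q' hq')
      have h2 : ⟪z, z⟫ = ⟪z, p + M • q⟫ := by rw [← hz]
      rw [h2, inner_add_right, inner_add_right, real_inner_smul_right, real_inner_smul_right] at h1
      have h3 : M * ⟪z, q'⟫ ≤ M * ⟪z, q⟫ := by linarith
      exact le_of_mul_le_mul_left h3 hMpos
    set P : Submodule ℝ W := Submodule.span ℝ {p, q} with hP
    have hpP : p ∈ P := Submodule.subset_span (by simp)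
    have hqP : q ∈ P := Submodule.subset_span (by simp)
    -- main claim
    have hclaim : ∀ S : Submodule ℝ W, Module.finrank ℝ S = k → p ∈ S → q ∈ S →
        ∃ (x : W) (r : ℝ), 0 < r ∧ (∀ y ∈ S, (y ∈ L ↔ x + r • y ∈ K)) ∧
          ∀ y, y ∈ L ∩ (P : Set W) ↔ x + r • y ∈ K ∩ (P : Set W) := by
      intro S hSk hpS hqS
      obtain ⟨x, r, hr, hxS, hS⟩ := h S hSk
      refine ⟨x, r, hr, hS, ?_⟩
      have hq'S : r⁻¹ • (p - x) ∈ S := S.smul_mem _ (S.sub_mem hpS hxS)
      have hpe : x + r • (r⁻¹ • (p - x)) = p := by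
        rw [smul_smul, mul_inv_cancel₀ hr.ne', one_smul, add_sub_cancel]
      have hq'L : r⁻¹ • (p - x) ∈ L := (hS _ hq'S).2 (by rw [hpe]; exact hpK)
      have hxq : x + r • q ∈ K := (hS q hqS).1 hqL
      have h1 : ⟪z, p⟫ ≤ ⟪z, x + r • q⟫ := by
        have h2 := hLle _ hq'L
        have h3 : ⟪z, p⟫ = ⟪z, x + r • (r⁻¹ • (p - x))⟫ := by rw [hpe]
        rw [h3, inner_add_right, inner_add_right, real_inner_smul_right z (r⁻¹ • (p - x)) r, real_inner_smul_right z q r]
        have := mul_le_mul_of_nonneg_left h2 hr.le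
        linarith
      have h4 := hKeq _ hxq h1
      have hxP : x ∈ P := by
        have : x = p - r • q := by rw [← h4]; abel
        rw [this]
        exact P.sub_mem hpP (P.smul_mem _ hqP)
      have hPS : P ≤ S := by
        rw [hP, Submodule.span_le]
        intro y hy
        rcases hy with rfl | hy
        · exact hpS
        · rw [Set.mem_singleton_iff] at hy; rw [hy]; exact hqS
      intro y
      constructor
      · rintro ⟨hyL, hyP⟩
        exact ⟨(hS y (hPS hyP)).1 hyL, P.add_mem hxP (P.smul_mem _ hyP)⟩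
      · rintro ⟨hyK, hyP⟩
        have hyP' : y ∈ P := by
          have h5 : r • y ∈ P := by
            have := P.sub_mem hyP hxP
            rwa [add_sub_cancel_left] at this
          have h6 := P.smul_mem r⁻¹ h5
          rwa [smul_smul, inv_mul_cancel₀ hr.ne', one_smul] at h6
        exact ⟨(hS y (hPS hyP')).2 hyK, hyP'⟩
    obtain ⟨S0, hS0k, hpS0, hqS0, -⟩ := h845_ext3 hk hkn p q q
    obtain ⟨x0, r0, hr0, hS0, hA0⟩ := hclaim S0 hS0k hpS0 hqS0
    refine ⟨x0, r0, hr0, fun y => ?_⟩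
    obtain ⟨S, hSk, hpS, hqS, hyS⟩ := h845_ext3 hk hkn p q y
    obtain ⟨x, r, hr, hS, hA⟩ := hclaim S hSk hpS hqS
    have hbd : Bornology.IsBounded (L ∩ (P : Set W)) := hL.isBounded.subset Set.inter_subset_left
    obtain ⟨e1, e2⟩ := uniq hbd (a := 0) (b := q) ⟨h0L, P.zero_mem⟩ ⟨hqL, hqP⟩ (Ne.symm hq0) hr hr0 hA hA0
    rw [← e1, ← e2]
    exact hS y hyS

end Pool.Agent.Helper613.HS
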