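import Mathlib
import Pool.Agent.Helper613.HSTotal
import Pool.Agent.Helper613.HSJDadd

open Set Filter Topology
open scoped RealInnerProductSpace

namespace Pool.Agent.Helper613.HS

namespace Jcase7a

open JDadd

variable {V : Type} [NormedAddCommGroup V] [InnerProductSpace ℝ V]
variable {K L : Set V} {X : V → V} {l : V → ℝ}

























/- TARGET: prove this (replace sorry). Auxiliary lemmas before it are welcome. -/


theorem mem_U_of_mem' {K : Set V} {y : V} (hy : y ∈ K) (h0 : y ≠ 0) : y ∈ U K :=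
  ⟨h0, 1, one_pos, by simpa using hy⟩

theorem D5 (h : Dat K L X l) (hsub : U K ⊆ U L) {u w : V} (hu : u ≠ 0) (hx : X u ≠ 0)
    (huw : ⟪u, w⟫ = 0) (hw : w ∈ U K) (hnp : ∀ c : ℝ, w ≠ c • X u) (γ : ℝ) :
    w + γ • X u ∈ U L := by
  have hxK := x_mem_U h hu hx
  obtain ⟨-, τ, hτ, hτL⟩ := hsub hxK
  obtain ⟨hux, hl, hH⟩ := h.hm u hu
  have h1 : X u + l u • (τ • X u) ∈ K := (hH _ (by rw [inner_smul_right, hux, mul_zero])).1 hτL
  have h2 : (1 + l u * τ) • X u ∈ K := by
    have : (1 + l u * τ) • X u = X u + l u • (τ • X u) := by rw [add_smul, one_smul, smul_smul]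
    rw [this]; exact h1
  have hlt : 0 < l u * τ := mul_pos hl hτ
  have hne : (1 + l u * τ) • X u ≠ 0 := smul_ne_zero (by linarith) hx
  have hs0 : 0 ≤ (1 + l u * τ / 2) / (1 + l u * τ) := by positivity
  have hs1 : (1 + l u * τ / 2) / (1 + l u * τ) < 1 := by
    rw [div_lt_one (by linarith)]; linarith
  have hev := h.sK.low _ h2 hne _ hs0 hs1
  have htend : Filter.Tendsto (fun ε : ℝ => (1 + l u * τ) • (X u + ε • w)) (𝓝 0)
      (𝓝 ((1 + l u * τ) • X u)) := by
    have : Continuous (fun ε : ℝ => (1 + l u * τ) • (X u + ε • w)) := by fun_prop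
    have h3 := this.tendsto 0
    simpa using h3
  have hev2 := htend.eventually hev
  have hev3 : ∀ᶠ ε : ℝ in 𝓝 0, 2 * γ * (1 + l u * τ / 2) * ε < τ * l u := by
    have hc : Continuous (fun ε : ℝ => 2 * γ * (1 + l u * τ / 2) * ε) := by fun_prop
    have h3 := hc.tendsto 0
    refine h3.eventually (gt_mem_nhds ?_)
    rw [mul_zero]
    exact mul_pos hτ hl
  have hev4 : ∀ᶠ ε : ℝ in 𝓝[>] 0, 0 < ε := self_mem_nhdsWithin
  obtain ⟨ε, ⟨hε2, hε3⟩, hε⟩ := (((hev2.and hev3).filter_mono nhdsWithin_le_nhds).and hev4).exists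
  have hA : 0 < 1 + l u * τ / 2 := by positivity
  have hU : (1 + l u * τ) • (X u + ε • w) ∈ U K := by
    refine U_smul ?_ (by linarith)
    have hne1 : ε • w + (1 : ℝ) • X u ≠ 0 := by
      intro h0
      apply hnp (-ε⁻¹)
      have : ε • w = -(X u) := by
        rw [one_smul] at h0
        exact eq_neg_of_add_eq_zero_left h0
      calc w = ε⁻¹ • (ε • w) := by rw [smul_smul, inv_mul_cancel₀ hε.ne', one_smul]
        _ = -ε⁻¹ • X u := by rw [this, smul_neg, neg_smul]
    have := addK h hu (y := ε • w) (by rw [inner_smul_right, huw, mul_zero]) (U_smul hw hε)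
      (α := 1) zero_le_one hne1
    rw [one_smul, add_comm] at this
    exact this
  have hK := hε2 hU
  rw [smul_smul, div_mul_cancel₀ _ (by linarith : (1 + l u * τ) ≠ 0)] at hK
  set y0 : V := (τ / 2) • X u + ((1 + l u * τ / 2) * ε / l u) • w with hy0
  have hy0L : y0 ∈ L := by
    refine (hH y0 ?_).2 ?_
    · rw [hy0, inner_add_right, inner_smul_right, inner_smul_right, hux, huw]; simp
    · have : X u + l u • y0 = (1 + l u * τ / 2) • (X u + ε • w) := by
        rw [hy0, smul_add, smul_add, smul_smul, smul_smul, smul_smul]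
        have e1 : l u * ((1 + l u * τ / 2) * ε / l u) = (1 + l u * τ / 2) * ε := by
          field_simp
        rw [e1, ← add_assoc]
        congr 1
        rw [add_smul (1 : ℝ), one_smul]
        congr 2
        ring
      rw [this]; exact hK
  have hcoef : 0 < (1 + l u * τ / 2) * ε / l u := by positivity
  have hy0ne : y0 ≠ 0 := by
    intro h0
    rw [hy0] at h0
    apply hnp (-(((1 + l u * τ / 2) * ε / l u)⁻¹ * (τ / 2)))
    have h5 : ((1 + l u * τ / 2) * ε / l u) • w = -((τ / 2) • X u) :=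
      eq_neg_of_add_eq_zero_right h0
    calc w = ((1 + l u * τ / 2) * ε / l u)⁻¹ • (((1 + l u * τ / 2) * ε / l u) • w) := by
          rw [smul_smul, inv_mul_cancel₀ hcoef.ne', one_smul]
      _ = _ := by rw [h5, smul_neg, neg_smul, smul_smul]
  have hy0U : y0 ∈ U L := mem_U_of_mem' hy0L hy0ne
  have hb := U_smul hy0U (inv_pos.2 hcoef)
  have hb' : ((1 + l u * τ / 2) * ε / l u)⁻¹ • y0 =
      w + (τ * l u / (2 * (1 + l u * τ / 2) * ε)) • X u := by
    rw [hy0, smul_add, smul_smul, smul_smul, inv_mul_cancel₀ hcoef.ne', one_smul, add_comm]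
    congr 2
    field_simp
  rw [hb'] at hb
  have hge : 0 ≤ τ * l u / (2 * (1 + l u * τ / 2) * ε) - γ := by
    rw [sub_nonneg, le_div_iff₀ (by positivity)]
    nlinarith
  have hfin : w + (τ * l u / (2 * (1 + l u * τ / 2) * ε)) • X u -
      (τ * l u / (2 * (1 + l u * τ / 2) * ε) - γ) • X u = w + γ • X u := by
    rw [sub_smul]; abel
  have hne2 : w + γ • X u ≠ 0 := by
    intro h0
    apply hnp (-γ)
    rw [neg_smul]
    exact eq_neg_of_add_eq_zero_left h0
  have := addL h hu (y := w + (τ * l u / (2 * (1 + l u * τ / 2) * ε)) • X u)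
    (by rw [inner_add_right, inner_smul_right, hux, huw]; simp) hb hge (by rw [hfin]; exact hne2)
  rwa [hfin] at this

theorem D5' (h : Dat K L X l) (hsub : U K ⊆ U L) {u w : V} (hu : u ≠ 0) (hx : X u ≠ 0)
    (huw : ⟪u, w⟫ = 0) (hw : w ∈ U L) (hnp : ∀ c : ℝ, w ≠ c • X u) (γ : ℝ) :
    w + γ • X u ∈ U L := by
  obtain ⟨γ0, -, hγ⟩ := side_LK h hu huw hw
  have hne : ∀ γ : ℝ, w + γ • X u ≠ 0 := by
    intro γ h0
    apply hnp (-γ)
    rw [neg_smul]
    exact eq_neg_of_add_eq_zero_left h0
  have hux := (h.hm u hu).1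
  have := D5 h hsub hu hx (w := w + γ0 • X u)
    (by rw [inner_add_right, inner_smul_right, hux, huw]; simp) (hγ (hne γ0)) (by
      intro c hc
      apply hnp (c - γ0)
      rw [sub_smul, ← hc]; abel) (γ - γ0)
  have e : w + γ0 • X u + (γ - γ0) • X u = w + γ • X u := by rw [sub_smul]; abel
  rwa [e] at this

theorem pm_U (h : Dat K L X l) (hsub : U K ⊆ U L) {u : V} (hu : u ≠ 0) (hx : X u ≠ 0) {c : ℝ}
    (hc : c ≠ 0) : c • X u ∈ U L := by
  rcases lt_or_gt_of_ne hc with h1 | h1
  · have := U_smul (negx_mem_U h hu hx) (neg_pos.2 h1)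
    rwa [smul_neg, neg_smul, neg_neg] at this
  · exact U_smul (hsub (x_mem_U h hu hx)) h1

theorem li_of_np {a b : V} (hb : b ≠ 0) (h : ∀ c : ℝ, a ≠ c • b) : LinearIndependent ℝ ![a, b] := by
  rw [LinearIndependent.pair_iff]
  intro s t hst
  by_cases hs : s = 0
  · subst hs
    rw [zero_smul, zero_add] at hst
    exact ⟨rfl, (smul_eq_zero.1 hst).resolve_right hb⟩
  · exfalso
    apply h (-(s⁻¹ * t))
    have h1 : s • a = -(t • b) := eq_neg_of_add_eq_zero_left hst
    calc a = s⁻¹ • (s • a) := by rw [smul_smul, inv_mul_cancel₀ hs, one_smul]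
      _ = _ := by rw [h1, smul_neg, neg_smul, smul_smul]

/-- if the translation vector is not parallel to `q` and `q`, `-q` are directions of `L` then the whole plane is -/
theorem plane_all (hdim : Module.finrank ℝ V = 3) (h : Dat K L X l) (hsub : U K ⊆ U L) {u q : V}
    (hu : u ≠ 0) (hx : X u ≠ 0) (huq : ⟪u, q⟫ = 0) (hq : q ∈ U L) (hq' : -q ∈ U L)
    (hnp : ∀ c : ℝ, q ≠ c • X u) {y : V} (huy : ⟪u, y⟫ = 0) (hy : y ≠ 0) : y ∈ U L := by
  have hux := (h.hm u hu).1
  obtain ⟨α, β, rfl⟩ := plane_coord hdim hu huq hux huy (li_of_np hx hnp)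
  rcases lt_trichotomy α 0 with h1 | h1 | h1
  · have h2 := D5' h hsub hu hx (w := -q) (by rw [inner_neg_right, huq, neg_zero]) hq' (by
      intro c hc
      apply hnp (-c)
      rw [neg_smul, ← hc, neg_neg]) (β / (-α))
    have h3 := U_smul h2 (neg_pos.2 h1)
    have e : -α • (-q + (β / (-α)) • X u) = α • q + β • X u := by
      rw [smul_add, smul_neg, neg_smul, neg_neg, smul_smul]
      congr 2
      rw [mul_comm, div_mul_cancel₀ _ (neg_ne_zero.2 h1.ne)]
    rwa [e] at h3
  · subst h1
    rw [zero_smul, zero_add] at hy ⊢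
    exact pm_U h hsub hu hx (fun h0 => hy (by rw [h0, zero_smul]))
  · have h2 := D5' h hsub hu hx huq hq hnp (β / α)
    have h3 := U_smul h2 h1
    have e : α • (q + (β / α) • X u) = α • q + β • X u := by
      rw [smul_add, smul_smul]
      congr 2
      field_simp
    rwa [e] at h3

/-- the parallel case -/
theorem plane_par (hdim : Module.finrank ℝ V = 3) (h : Dat K L X l) (hsub : U K ⊆ U L) {p : V}
    (hp : p ∈ interior {y | y ∈ U L ∧ y ∉ U K}) {u : V} (hu : u ≠ 0) (hx : X u ≠ 0) {c : ℝ}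
    (hc : p = c • X u) {y : V} (huy : ⟪u, y⟫ = 0) (hy : y ≠ 0) : y ∈ U L := by
  have hux := (h.hm u hu).1
  by_cases hyp : ∃ c' : ℝ, y = c' • X u
  · obtain ⟨c', rfl⟩ := hyp
    exact pm_U h hsub hu hx (fun h0 => hy (by rw [h0, zero_smul]))
  · push Not at hyp
    have hcont : Continuous (fun ε : ℝ => p + ε • y) := by fun_prop
    have hev : ∀ᶠ ε : ℝ in 𝓝 0, p + ε • y ∈ interior {y | y ∈ U L ∧ y ∉ U K} := by
      refine hcont.tendsto 0 |>.eventually (isOpen_interior.mem_nhds ?_)
      simpa using hp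
    have hev4 : ∀ᶠ ε : ℝ in 𝓝[>] 0, 0 < ε := self_mem_nhdsWithin
    obtain ⟨ε, hε1, hε⟩ := ((hev.filter_mono nhdsWithin_le_nhds).and hev4).exists
    have hε2 : p + ε • y ∈ U L := (interior_subset hε1).1
    have h3 := D5' h hsub hu hx (w := p + ε • y)
      (by rw [hc, inner_add_right, inner_smul_right, inner_smul_right, hux, huy]; simp) hε2 (by
        intro c' hc'
        apply hyp (ε⁻¹ * (c' - c))
        have h5 : ε • y = (c' - c) • X u := by
          rw [sub_smul, ← hc', hc]; abel
        calc y = ε⁻¹ • (ε • y) := by rw [smul_smul, inv_mul_cancel₀ hε.ne', one_smul]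
          _ = _ := by rw [h5, smul_smul]) (-c)
    have h6 := U_smul h3 (inv_pos.2 hε)
    have e : ε⁻¹ • (p + ε • y + -c • X u) = y := by
      have : p + ε • y + -c • X u = ε • y := by rw [hc, neg_smul]; abel
      rw [this, smul_smul, inv_mul_cancel₀ hε.ne', one_smul]
    rwa [e] at h6

theorem case7a (hdim : Module.finrank ℝ V = 3) (h : Dat K L X l) (hsub : U K ⊆ U L) (hno : ∀ c, c ∈ U L → c ∉ U K → -c ∈ U L → -c ∈ U K) {p : V}
    (hp : p ∈ interior {y | y ∈ U L ∧ y ∉ U K}) : (∀ y : V, y ≠ 0 → y ∈ U L) ∨ OneSided L := by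
  obtain ⟨hpL, hpK⟩ := interior_subset hp
  have hp0 : p ≠ 0 := hpL.1
  have hX : ∀ u, u ≠ 0 → ⟪u, p⟫ = 0 → X u ≠ 0 := fun u hu hup => x_ne_zero h hu hup hpL hpK
  by_cases hmp : -p ∈ U L
  · left
    intro y hy
    obtain ⟨u, hu, hup, huy⟩ := exists_normal hdim p y
    have hx := hX u hu hup
    by_cases hpar : ∃ c : ℝ, p = c • X u
    · obtain ⟨c, hc⟩ := hpar
      exact plane_par hdim h hsub hp hu hx hc huy hy
    · push Not at hpar
      exact plane_all hdim h hsub hu hx hup hpL hmp hpar huy hy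
  · right
    have hnpar : ∀ u, u ≠ 0 → ⟪u, p⟫ = 0 → ∀ c : ℝ, p ≠ c • X u := by
      intro u hu hup c hc
      exact hmp (plane_par hdim h hsub hp hu (hX u hu hup) hc
        (by rw [inner_neg_right, hup, neg_zero]) (neg_ne_zero.2 hp0))
    have hout : ∀ u, u ≠ 0 → ⟪u, p⟫ = 0 → ∀ (α γ : ℝ), 0 < α → -(α • p) + γ • X u ∉ U L := by
      intro u hu hup α γ hα hmem
      have hux := (h.hm u hu).1
      have h1 := D5' h hsub hu (hX u hu hup) (w := -(α • p) + γ • X u)
        (by rw [inner_add_right, inner_neg_right, inner_smul_right, inner_smul_right, hux, hup]; simp)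
        hmem (by
          intro c hc
          apply hnpar u hu hup (α⁻¹ * (γ - c))
          have h5 : α • p = (γ - c) • X u := by
            rw [sub_smul, ← hc]; abel
          calc p = α⁻¹ • (α • p) := by rw [smul_smul, inv_mul_cancel₀ hα.ne', one_smul]
            _ = _ := by rw [h5, smul_smul]) (-γ)
      have e : -(α • p) + γ • X u + -γ • X u = α • (-p) := by rw [neg_smul, smul_neg]; abel
      rw [e] at h1
      have h2 := U_smul h1 (inv_pos.2 hα)
      rw [smul_smul, inv_mul_cancel₀ hα.ne', one_smul] at h2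
      exact hmp h2
    obtain ⟨u1, hu1, hu1p, -⟩ := exists_normal hdim p p
    obtain ⟨u2, hu2, hu2p, hu21⟩ := exists_normal hdim p u1
    have hx1 := hX u1 hu1 hu1p
    have hx2 := hX u2 hu2 hu2p
    have h11 := (h.hm u1 hu1).1
    have h22 := (h.hm u2 hu2).1
    -- x1 and x2 are not parallel
    have h12 : ∀ c : ℝ, X u1 ≠ c • X u2 := by
      intro c hc
      have hz : ⟪u2, X u1⟫ = 0 := by rw [hc, inner_smul_right, h22, mul_zero]
      have hli : LinearIndependent ℝ ![u2, p] := by
        refine li_of_np hp0 ?_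
        intro c hc
        have : ⟪u2, u2⟫ = 0 := by
          nth_rewrite 2 [hc]
          rw [inner_smul_right, hu2p, mul_zero]
        exact hu2 (inner_self_eq_zero.1 this)
      obtain ⟨α, β, hab⟩ := plane_coord hdim hu1 (by rw [real_inner_comm]; exact hu21) hu1p h11 hli
      rw [hab, inner_add_right, inner_smul_right, inner_smul_right, hu2p, mul_zero, add_zero] at hz
      have hα : α = 0 := by
        rcases mul_eq_zero.1 hz with h0 | h0
        · exact h0
        · exact absurd (inner_self_eq_zero.1 h0) hu2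
      rw [hα, zero_smul, zero_add] at hab
      have hβ : β ≠ 0 := by
        rintro rfl
        rw [zero_smul] at hab
        exact hx1 hab
      apply hnpar u1 hu1 hu1p β⁻¹
      rw [hab, smul_smul, inv_mul_cancel₀ hβ, one_smul]
    obtain ⟨u3, hu3, h31, h32⟩ := exists_normal hdim (X u1) (X u2)
    obtain ⟨hn1, hn1'⟩ := negx_mem_D h hu1 hu1p hpL hpK
    have hx3 : X u3 ≠ 0 := x_ne_zero h hu3 (by rw [inner_neg_right, h31, neg_zero]) hn1 hn1'
    have hplane : ∀ y, ⟪u3, y⟫ = 0 → y ≠ 0 → y ∈ U L := by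
      intro y hy hy0
      by_cases hpar : ∃ c : ℝ, X u1 = c • X u3
      · obtain ⟨c, hc⟩ := hpar
        have hc0 : c ≠ 0 := by
          rintro rfl
          rw [zero_smul] at hc
          exact hx1 hc
        refine plane_all hdim h hsub hu3 hx3 h32 (hsub (x_mem_U h hu2 hx2))
          (negx_mem_U h hu2 hx2) ?_ hy hy0
        intro c' hc'
        have hc0' : c' ≠ 0 := by
          rintro rfl
          rw [zero_smul] at hc'
          exact hx2 hc'
        apply h12 (c * c'⁻¹)
        rw [hc', smul_smul, mul_assoc, inv_mul_cancel₀ hc0', mul_one]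
        exact hc
      · push Not at hpar
        exact plane_all hdim h hsub hu3 hx3 h31 (hsub (x_mem_U h hu1 hx1))
          (negx_mem_U h hu1 hx1) hpar hy hy0
    have h3p : ⟪u3, p⟫ ≠ 0 := by
      intro h0
      exact hmp (hplane _ (by rw [inner_neg_right, h0, neg_zero]) (neg_ne_zero.2 hp0))
    obtain ⟨m, hm0, hmp', hmplane⟩ : ∃ m : V, m ≠ 0 ∧ 0 < ⟪m, p⟫ ∧
        ∀ y, ⟪m, y⟫ = 0 → y ≠ 0 → y ∈ U L := by
      rcases lt_or_gt_of_ne h3p with h0 | h0
      · refine ⟨-u3, neg_ne_zero.2 hu3, ?_, ?_⟩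
        · rw [inner_neg_left]; linarith
        · intro y hy
          apply hplane
          rw [inner_neg_left] at hy
          linarith
      · exact ⟨u3, hu3, h0, hplane⟩
    have hclaim : ∀ y, ⟪m, y⟫ < 0 → y ∉ U L := by
      intro y hy hyL
      set κ : ℝ := -⟪m, y⟫ / ⟪m, p⟫ with hκ
      have hκ0 : 0 < κ := div_pos (neg_pos.2 hy) hmp'
      set w : V := y + κ • p with hw
      have hmw : ⟪m, w⟫ = 0 := by
        rw [hw, inner_add_right, inner_smul_right, hκ]
        field_simp
        ring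
      have hyw : y = w - κ • p := by rw [hw]; abel
      by_cases hw0 : w = 0
      · rw [hw0, zero_sub, ← smul_neg] at hyw
        rw [hyw] at hyL
        have := U_smul hyL (inv_pos.2 hκ0)
        rw [smul_smul, inv_mul_cancel₀ hκ0.ne', one_smul] at this
        exact hmp this
      · obtain ⟨u, hu, hup, huy⟩ := exists_normal hdim p y
        have hux := (h.hm u hu).1
        have huw : ⟪u, w⟫ = 0 := by
          rw [hw, inner_add_right, inner_smul_right, huy, hup]; simp
        have hwL : w ∈ U L := hmplane w hmw hw0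
        have hwL' : -w ∈ U L := hmplane (-w) (by rw [inner_neg_right, hmw, neg_zero])
          (neg_ne_zero.2 hw0)
        obtain ⟨α, β, hab⟩ := plane_coord hdim hu hup hux huw
          (li_of_np (hX u hu hup) (hnpar u hu hup))
        rcases lt_trichotomy α 0 with h1 | h1 | h1
        · apply hout u hu hup (-α) β (neg_pos.2 h1)
          rw [neg_smul, neg_neg, ← hab]
          exact hwL
        · subst h1
          rw [zero_smul, zero_add] at hab
          apply hout u hu hup κ β hκ0
          have : -(κ • p) + β • X u = y := by rw [hyw, hab]; abel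
          rw [this]
          exact hyL
        · apply hout u hu hup α (-β) h1
          have : -(α • p) + -β • X u = -w := by rw [hab, neg_smul]; abel
          rw [this]
          exact hwL'
    refine ⟨-m, neg_ne_zero.2 hm0, ?_⟩
    intro y hy
    rw [inner_neg_left]
    by_contra hlt
    push Not at hlt
    have hlt' : ⟪m, y⟫ < 0 := by linarith
    apply hclaim y hlt'
    refine mem_U_of_mem' hy ?_
    rintro rfl
    rw [inner_zero_right] at hlt'
    exact lt_irrefl _ hlt'

end Jcase7a

end Pool.Agent.Helper613.HS
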