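import Mathlib
import Pool.Agent.Helper613.HSTotal

open Set Filter Topology
open scoped RealInnerProductSpace

namespace Pool.Agent.Helper613.HS

namespace Jcase7c


variable {V : Type} [NormedAddCommGroup V] [InnerProductSpace ℝ V]
variable {K L : Set V} {X : V → V} {l : V → ℝ}
























/- TARGET: prove this (replace sorry). Auxiliary lemmas before it are welcome. -/

theorem par833 (hdim : Module.finrank ℝ V = 3) {n u g x : V} (hn : n ≠ 0) (hu : ∀ c : ℝ, u ≠ c • n)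
    (hg : g ≠ 0) (h1 : ⟪n, g⟫ = 0) (h2 : ⟪u, g⟫ = 0) (h3 : ⟪n, x⟫ = 0) (h4 : ⟪u, x⟫ = 0) :
    ∃ c : ℝ, x = c • g := by
  by_contra hcon
  push Not at hcon
  have hli : LinearIndependent ℝ ![g, x] := by
    rw [LinearIndependent.pair_iff' hg]
    intro a ha
    exact hcon a ha.symm
  have hnn : ⟪n, n⟫ ≠ 0 := by
    rw [real_inner_self_eq_norm_sq]
    have := norm_pos_iff.mpr hn
    positivity
  obtain ⟨u', hu'⟩ : ∃ u', u' = u - (⟪n, u⟫ / ⟪n, n⟫) • n := ⟨_, rfl⟩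
  have hu'n : ⟪n, u'⟫ = 0 := by
    rw [hu', inner_sub_right, real_inner_smul_right, div_mul_cancel₀ _ hnn, sub_self]
  have hu'0 : u' ≠ 0 := by
    intro h0
    rw [hu', sub_eq_zero] at h0
    exact hu _ h0
  obtain ⟨α, β, hab⟩ := plane_coord hdim hn h1 h3 hu'n hli
  have e1 : ⟪u, u'⟫ = 0 := by
    rw [hab, inner_add_right, real_inner_smul_right, real_inner_smul_right, h2, h4]; simp
  have e2 : ⟪u', u'⟫ = 0 := by
    have e3 : ⟪u', u'⟫ = ⟪u - (⟪n, u⟫ / ⟪n, n⟫) • n, u'⟫ := by rw [← hu']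
    rw [e3, inner_sub_left, real_inner_smul_left, hu'n, e1]; simp
  exact hu'0 (inner_self_eq_zero.mp e2)

theorem exists_n833 (hdim : Module.finrank ℝ V = 3) {G : Set V}
    (hsmul : ∀ g ∈ G, ∀ c : ℝ, 0 < c → c • g ∈ G) (hadd : ∀ g ∈ G, ∀ g' ∈ G, g + g' ∈ G)
    (hint : interior G = ∅) : ∃ n : V, n ≠ 0 ∧ ∀ g ∈ G, ⟪n, g⟫ = 0 := by
  classical
  have hfd : FiniteDimensional ℝ V := FiniteDimensional.of_finrank_pos (by rw [hdim]; norm_num)
  by_cases hsp : Submodule.span ℝ G = ⊤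
  · exfalso
    obtain ⟨b, hbG, hbs, hbl⟩ := exists_linearIndependent ℝ G
    let B : Module.Basis b ℝ V := Module.Basis.mk hbl (by rw [Subtype.range_coe, hbs, hsp])
    have hBa : ∀ i, B i = (i : V) := fun i => by simp [B]
    have hfin : Fintype b := FiniteDimensional.fintypeBasisIndex B
    have hbne : (Finset.univ : Finset b).Nonempty := by
      rw [← Finset.card_pos, Finset.card_univ, ← Module.finrank_eq_card_basis B, hdim]
      norm_num
    obtain ⟨P, hP⟩ : ∃ P : Set V, P = {v | ∀ i, 0 < B.repr v i} := ⟨_, rfl⟩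
    have hPo : IsOpen P := by
      have : P = ⋂ i, {v | 0 < B.coord i v} := by
        rw [hP]
        ext v
        rw [Set.mem_iInter]
        exact Iff.rfl
      rw [this]
      apply isOpen_iInter_of_finite
      intro i
      exact isOpen_lt continuous_const (B.coord i).continuous_of_finiteDimensional
    have hPG : P ⊆ G := by
      intro v hv
      rw [hP] at hv
      rw [← B.sum_repr v]
      apply Finset.sum_induction_nonempty (fun i => B.repr v i • B i) (fun x => x ∈ G)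
        (fun a b ha hb => hadd a ha b hb) hbne
      intro i _
      exact hsmul _ (by rw [hBa]; exact hbG i.2) _ (hv i)
    have hPne : (∑ i, B i) ∈ P := by
      rw [hP]
      intro i
      rw [map_sum, Finsupp.finsetSum_apply]
      simp [Finsupp.single_apply]
    have := interior_maximal hPG hPo hPne
    rw [hint] at this
    exact this
  · have h1 : (Submodule.span ℝ G)ᗮ ≠ ⊥ := by
      intro h0
      exact hsp (Submodule.orthogonal_eq_bot_iff.mp h0)
    obtain ⟨n, hn, hn0⟩ := Submodule.exists_mem_ne_zero_of_ne_bot h1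
    refine ⟨n, hn0, fun g hg => ?_⟩
    exact Submodule.inner_left_of_mem_orthogonal (Submodule.subset_span hg) hn

theorem case7c (hdim : Module.finrank ℝ V = 3) (h : Dat K L X l) {G : Set V} (hne : G.Nonempty) (hsub : ∀ g ∈ G, g ∈ U L)
    (hsmul : ∀ g ∈ G, ∀ c : ℝ, 0 < c → c • g ∈ G) (hadd : ∀ g ∈ G, ∀ g' ∈ G, g + g' ∈ G)
    (hzer : ∀ u, u ≠ 0 → ∀ g ∈ G, ⟪u, g⟫ = 0 → -X u ∈ G) (hint : interior G = ∅) : Hmt K L := by
  obtain ⟨n, hn, hnG⟩ := exists_n833 hdim hsmul hadd hint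
  have hnn : ⟪n, n⟫ ≠ 0 := by
    rw [real_inner_self_eq_norm_sq]
    have := norm_pos_iff.mpr hn
    positivity
  have hX : ∀ g ∈ G, ∀ u, u ≠ 0 → (∀ c : ℝ, u ≠ c • n) → ⟪u, g⟫ = 0 → ∃ c : ℝ, X u = c • g := by
    intro g hg u hu hun hug
    have h1 : ⟪n, X u⟫ = 0 := by
      have := hnG _ (hzer u hu g hg hug)
      rw [inner_neg_right] at this
      linarith
    exact par833 hdim hn hun (hsub g hg).1 (hnG g hg) hug h1 (h.hm u hu).1
  -- the common homothety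
  have hG : ∀ g ∈ G, ∃ (x : V) (r : ℝ) (c : ℝ), 0 < r ∧ c ≠ 0 ∧ x = c • g ∧ ∀ y, ⟪n, y⟫ ≠ 0 → (y ∈ L ↔ x + r • y ∈ K) := by
    intro g hg
    obtain ⟨u0, hu0, h1, h2⟩ := exists_normal hdim g n
    have hu0n : ∀ c : ℝ, u0 ≠ c • n := by
      intro c hc
      rw [hc, real_inner_smul_left] at h2
      rcases mul_eq_zero.mp h2 with h3 | h3
      · rw [h3, zero_smul] at hc; exact hu0 hc
      · exact hnn h3
    obtain ⟨c, hc⟩ := hX g hg u0 hu0 hu0n h1
    refine ⟨X u0, l u0, c, (h.hm u0 hu0).2.1, ?_, hc, ?_⟩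
    · intro hc0
      have h4 := (hsub _ (hzer u0 hu0 g hg h1)).1
      rw [hc, hc0, zero_smul, neg_zero] at h4
      exact h4 rfl
    · intro y hy
      obtain ⟨u, hu, h5, h6⟩ := exists_normal hdim g y
      have hun : ∀ c : ℝ, u ≠ c • n := by
        intro c hc
        rw [hc, real_inner_smul_left] at h6
        rcases mul_eq_zero.mp h6 with h3 | h3
        · rw [h3, zero_smul] at hc; exact hu hc
        · exact hy h3
      obtain ⟨c', hc'⟩ := hX g hg u hu hun h5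
      obtain ⟨e1, e2⟩ := dir_const h (hsub g hg) hu0 hu h1 h5 hc hc'
      rw [e1, e2]
      exact (h.hm u hu).2.2 y h6
  obtain ⟨g, hg⟩ := hne
  by_cases hpar : ∀ g' ∈ G, ∃ c : ℝ, g' = c • g
  · apply total hdim h (hsub g hg)
    intro u hu hug
    obtain ⟨c, hc⟩ := hpar _ (hzer u hu g hg hug)
    exact ⟨-c, by rw [neg_smul, ← hc, neg_neg]⟩
  push Not at hpar
  obtain ⟨g', hg', hgg⟩ := hpar
  obtain ⟨x, r, c, hr, hc0, hxc, hx⟩ := hG g hg
  obtain ⟨x', r', c', hr', hc0', hxc', hx'⟩ := hG g' hg'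
  have hnx : ⟪n, x⟫ = 0 := by rw [hxc, real_inner_smul_right, hnG g hg, mul_zero]
  have hnx' : ⟪n, x'⟫ = 0 := by rw [hxc', real_inner_smul_right, hnG g' hg', mul_zero]
  have hin : ∀ (x : V) (r : ℝ), ⟪n, x⟫ = 0 → 0 < r → ∀ y, ⟪n, x + r • y⟫ ≠ 0 ↔ ⟪n, y⟫ ≠ 0 := by
    intro x r hx hr y
    rw [inner_add_right, hx, zero_add, real_inner_smul_right]
    constructor
    · intro h1 h2
      exact h1 (by rw [h2, mul_zero])
    · intro h1 h2
      rcases mul_eq_zero.mp h2 with h3 | h3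
      · exact hr.ne' h3
      · exact h1 h3
  by_cases hL : ∃ y0 ∈ L, ⟪n, y0⟫ ≠ 0
  · exfalso
    obtain ⟨y0, hy0, hny0⟩ := hL
    have hA : Bornology.IsBounded {y | y ∈ L ∧ ⟪n, y⟫ ≠ 0} :=
      h.sL.cpt.isBounded.subset (fun y hy => hy.1)
    have hAB : ∀ (x : V) (r : ℝ), ⟪n, x⟫ = 0 → 0 < r → (∀ y, ⟪n, y⟫ ≠ 0 → (y ∈ L ↔ x + r • y ∈ K)) →
        ∀ y, y ∈ {y | y ∈ L ∧ ⟪n, y⟫ ≠ 0} ↔ x + r • y ∈ {y | y ∈ K ∧ ⟪n, y⟫ ≠ 0} := by
      intro x r hx hr hK y
      show (y ∈ L ∧ ⟪n, y⟫ ≠ 0) ↔ (x + r • y ∈ K ∧ ⟪n, x + r • y⟫ ≠ 0)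
      rw [hin x r hx hr y]
      constructor
      · rintro ⟨h1, h2⟩; exact ⟨(hK y h2).mp h1, h2⟩
      · rintro ⟨h1, h2⟩; exact ⟨(hK y h2).mpr h1, h2⟩
    have hy0' : ⟪n, (1/2 : ℝ) • y0⟫ ≠ 0 := by
      rw [real_inner_smul_right]
      intro h1
      rcases mul_eq_zero.mp h1 with h3 | h3
      · norm_num at h3
      · exact hny0 h3
    have hne : y0 ≠ (1/2 : ℝ) • y0 := by
      intro h1
      have h2 : ⟪n, y0⟫ = (1/2) * ⟪n, y0⟫ := by
        conv_lhs => rw [h1]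
        rw [real_inner_smul_right]
      apply hny0
      linarith
    have hun := uniq hA (a := y0) (b := (1/2 : ℝ) • y0) ⟨hy0, hny0⟩
      ⟨h.sL.star y0 hy0 (1/2) (by norm_num) (by norm_num), hy0'⟩ hne hr hr'
      (hAB x r hnx hr hx) (hAB x' r' hnx' hr' hx')
    have h5 : c • g = c' • g' := by rw [← hxc, ← hxc']; exact hun.1
    apply hgg (c'⁻¹ * c)
    rw [mul_smul, h5, smul_smul, inv_mul_cancel₀ hc0', one_smul]
  · push Not at hL
    have hK : ∀ z ∈ K, ⟪n, z⟫ = 0 := by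
      intro z hz
      by_contra hnz
      have e1 : x + r • (r⁻¹ • (z - x)) = z := by
        rw [smul_smul, mul_inv_cancel₀ hr.ne', one_smul]; abel
      have h1 : ⟪n, r⁻¹ • (z - x)⟫ ≠ 0 := by
        rw [← hin x r hnx hr, e1]
        exact hnz
      have h2 := (hx _ h1).mpr (by rw [e1]; exact hz)
      exact h1 (hL _ h2)
    refine ⟨X n, l n, (h.hm n hn).2.1, ?_⟩
    intro y
    by_cases hy : ⟪n, y⟫ = 0
    · exact (h.hm n hn).2.2 y hy
    · constructor
      · intro h1; exact absurd (hL y h1) hy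
      · intro h1
        exact absurd (hK _ h1) ((hin (X n) (l n) (h.hm n hn).1 (h.hm n hn).2.1 y).mpr hy)

end Jcase7c

end Pool.Agent.Helper613.HS
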