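import Mathlib
import Pool.Agent.Helper613.HSTotal

open Set Filter Topology
open scoped RealInnerProductSpace

namespace Pool.Agent.Helper613.HS

namespace JcaseB


variable {V : Type} [NormedAddCommGroup V] [InnerProductSpace ℝ V]
variable {K L : Set V} {X : V → V} {l : V → ℝ}
























/- TARGET: prove this (replace sorry). Auxiliary lemmas before it are welcome. -/

theorem cB_np_of {m u y : V} (hu : u ≠ 0) (huy : ⟪u, y⟫ = 0) (hmy : ⟪m, y⟫ ≠ 0) :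
    ∀ c : ℝ, c • m ≠ u := by
  intro c hc
  rw [← hc, real_inner_smul_left] at huy
  rcases mul_eq_zero.mp huy with h0 | h0
  · rw [h0, zero_smul] at hc
    exact hu hc.symm
  · exact hmy h0

theorem cB_np_perp {m u : V} (hm : m ≠ 0) (hu : u ≠ 0) (hum : ⟪u, m⟫ = 0) :
    ∀ c : ℝ, c • m ≠ u :=
  cB_np_of hu hum (by rw [Ne, inner_self_eq_zero]; exact hm)

theorem cB_line (hdim : Module.finrank ℝ V = 3) {m u e x : V} (hm : m ≠ 0)
    (hmu : ∀ c : ℝ, c • m ≠ u) (he : e ≠ 0) (hem : ⟪m, e⟫ = 0) (heu : ⟪u, e⟫ = 0)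
    (hxm : ⟪m, x⟫ = 0) (hxu : ⟪u, x⟫ = 0) : ∃ c : ℝ, x = c • e := by
  have hee : ⟪e, e⟫ ≠ 0 := by rw [Ne, inner_self_eq_zero]; exact he
  refine ⟨⟪e, x⟫ / ⟪e, e⟫, ?_⟩
  set c := ⟪e, x⟫ / ⟪e, e⟫ with hc
  have h1 : ⟪e, x - c • e⟫ = 0 := by
    rw [inner_sub_right, real_inner_smul_right, hc, div_mul_cancel₀ _ hee, sub_self]
  have h2 : ⟪e, m⟫ = 0 := by rw [real_inner_comm]; exact hem
  have h3 : ⟪e, u⟫ = 0 := by rw [real_inner_comm]; exact heu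
  obtain ⟨α, β, hab⟩ := plane_coord hdim he h2 h3 h1
    ((LinearIndependent.pair_iff' hm).mpr hmu)
  have h4 : ⟪m, x - c • e⟫ = 0 := by
    rw [inner_sub_right, real_inner_smul_right, hxm, hem]; ring
  have h5 : ⟪u, x - c • e⟫ = 0 := by
    rw [inner_sub_right, real_inner_smul_right, hxu, heu]; ring
  have h6 : ⟪x - c • e, x - c • e⟫ = 0 := by
    conv_lhs => rw [hab]
    rw [hab] at h4 h5
    rw [inner_add_left, real_inner_smul_left, real_inner_smul_left, h4, h5]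
    ring
  rw [inner_self_eq_zero, sub_eq_zero] at h6
  exact h6

theorem cB_hmt_perp (h : Dat K L X l) {n : V} (hn : n ≠ 0) (hL : ∀ y ∈ L, ⟪n, y⟫ = 0)
    (hK : ∀ y ∈ K, ⟪n, y⟫ = 0) : Hmt K L := by
  obtain ⟨h1, h2, h3⟩ := h.hm n hn
  refine ⟨X n, l n, h2, fun y => ⟨fun hy => (h3 y (hL y hy)).1 hy, fun hy => ?_⟩⟩
  have h4 := hK _ hy
  rw [inner_add_right, real_inner_smul_right, h1, zero_add] at h4
  rcases mul_eq_zero.mp h4 with h5 | h5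
  · exact absurd h5 h2.ne'
  · exact (h3 y h5).2 hy

theorem cB_neg_mem (h : Dat K L X l) {u : V} (hu : u ≠ 0) : -((l u)⁻¹ • X u) ∈ L := by
  obtain ⟨h1, h2, h3⟩ := h.hm u hu
  rw [h3 _ (by rw [inner_neg_right, real_inner_smul_right, h1]; ring), smul_neg, smul_smul,
    mul_inv_cancel₀ h2.ne', one_smul, add_neg_cancel]
  exact h.sK.zero

theorem cB_inv_mem (h : Dat K L X l) {u y : V} (hu : u ≠ 0) (hy : y ∈ K) (huy : ⟪u, y⟫ = 0) :
    (l u)⁻¹ • (y - X u) ∈ L := by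
  obtain ⟨h1, h2, h3⟩ := h.hm u hu
  rw [h3 _ (by rw [real_inner_smul_right, inner_sub_right, h1, huy]; ring), smul_smul,
    mul_inv_cancel₀ h2.ne', one_smul, add_sub_cancel]
  exact hy

theorem cB_memU {A : Set V} {y : V} (hy : y ∈ A) (h0 : y ≠ 0) : y ∈ U A :=
  ⟨h0, 1, one_pos, by rwa [one_smul]⟩

/-! ### case B1 -/

theorem cB1_phi (h : Dat K L X l) {m : V} (hL : ∀ y ∈ L, ⟪m, y⟫ ≤ 0) (hK : ∀ y ∈ K, ⟪m, y⟫ ≤ 0)
    {u : V} (hu : u ≠ 0) : ⟪m, X u⟫ = 0 := by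
  have h1 := hK _ (x_mem_K h hu)
  have h2 := hL _ (cB_neg_mem h hu)
  rw [inner_neg_right, real_inner_smul_right] at h2
  have h3 : 0 < (l u)⁻¹ := inv_pos.mpr (h.hm u hu).2.1
  nlinarith

theorem cB1_good (hdim : Module.finrank ℝ V = 3) (h : Dat K L X l) {m : V} (hm : m ≠ 0)
    (hL : ∀ y ∈ L, ⟪m, y⟫ ≤ 0) (hK : ∀ y ∈ K, ⟪m, y⟫ ≤ 0) {a : V} (hma : ⟪m, a⟫ = 0)
    (ha : a ∈ U L) :
    ∃ (x : V) (r : ℝ), 0 < r ∧ ⟪m, x⟫ = 0 ∧ (∃ c : ℝ, x = c • a) ∧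
      ∀ y, (⟪m, y⟫ ≠ 0 ∨ ∃ c : ℝ, y = c • a) → (y ∈ L ↔ x + r • y ∈ K) := by
  have ha0 : a ≠ 0 := ha.1
  obtain ⟨ua, hua0, huaa, huam⟩ := exists_normal hdim a m
  obtain ⟨h1, h2, h3⟩ := h.hm ua hua0
  obtain ⟨c0, hc0⟩ := cB_line hdim hm (cB_np_perp hm hua0 huam) ha0 hma huaa
    (cB1_phi h hL hK hua0) h1
  refine ⟨X ua, l ua, h2, cB1_phi h hL hK hua0, ⟨c0, hc0⟩, ?_⟩
  rintro y (hy | ⟨c, hy⟩)
  · obtain ⟨u, hu0, hua, huy⟩ := exists_normal hdim a y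
    obtain ⟨h1', h2', h3'⟩ := h.hm u hu0
    obtain ⟨c, hc⟩ := cB_line hdim hm (cB_np_of hu0 huy hy) ha0 hma hua
      (cB1_phi h hL hK hu0) h1'
    obtain ⟨e1, e2⟩ := dir_const h ha hua0 hu0 huaa hua hc0 hc
    rw [e1, e2]
    exact h3' y huy
  · apply h3
    rw [hy, real_inner_smul_right, huaa, mul_zero]

theorem cB1_good' (hdim : Module.finrank ℝ V = 3) (h : Dat K L X l) {m : V} (hm : m ≠ 0)
    (hL : ∀ y ∈ L, ⟪m, y⟫ ≤ 0) (hK : ∀ y ∈ K, ⟪m, y⟫ ≤ 0) {a : V} (hma : ⟪m, a⟫ = 0)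
    (ha : a ∈ U L ∨ -a ∈ U L) :
    ∃ (x : V) (r : ℝ), 0 < r ∧ ⟪m, x⟫ = 0 ∧ (∃ c : ℝ, x = c • a) ∧
      ∀ y, (⟪m, y⟫ ≠ 0 ∨ ∃ c : ℝ, y = c • a) → (y ∈ L ↔ x + r • y ∈ K) := by
  rcases ha with ha | ha
  · exact cB1_good hdim h hm hL hK hma ha
  · obtain ⟨x, r, hr, hx, ⟨c, hc⟩, H⟩ := cB1_good hdim h hm hL hK
      (a := -a) (by rw [inner_neg_right, hma, neg_zero]) ha
    refine ⟨x, r, hr, hx, ⟨-c, by rw [hc, smul_neg, neg_smul]⟩, ?_⟩
    rintro y (hy | ⟨c, hy⟩)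
    · exact H y (Or.inl hy)
    · exact H y (Or.inr ⟨-c, by rw [hy, smul_neg, neg_smul, neg_neg]⟩)

theorem cB1_nonL {b : V} (hb : ¬ (b ∈ U L ∨ -b ∈ U L)) (hb0 : b ≠ 0) {z : V} (hz : z ∈ L)
    (hzb : ∃ c : ℝ, z = c • b) : z = 0 := by
  obtain ⟨c, hc⟩ := hzb
  rcases lt_trichotomy c 0 with h0 | h0 | h0
  · exfalso
    apply hb
    right
    exact ⟨neg_ne_zero.mpr hb0, -c, by linarith, by rw [smul_neg, neg_smul, neg_neg, ← hc]; exact hz⟩
  · rw [hc, h0, zero_smul]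
  · exfalso
    apply hb
    left
    exact ⟨hb0, c, h0, by rw [← hc]; exact hz⟩

theorem cB1_nongood (hdim : Module.finrank ℝ V = 3) (h : Dat K L X l) {m : V} (hm : m ≠ 0)
    (hL : ∀ y ∈ L, ⟪m, y⟫ ≤ 0) (hK : ∀ y ∈ K, ⟪m, y⟫ ≤ 0) {b : V} (hmb : ⟪m, b⟫ = 0)
    (hb0 : b ≠ 0) (hb : ¬ (b ∈ U L ∨ -b ∈ U L)) {w : V} (hw : w ∈ K) (hwb : ∃ c : ℝ, w = c • b) :
    w = 0 := by
  obtain ⟨c, hc⟩ := hwb
  obtain ⟨u, hu0, hub, hum⟩ := exists_normal hdim b m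
  obtain ⟨h1, h2, h3⟩ := h.hm u hu0
  obtain ⟨c0, hc0⟩ := cB_line hdim hm (cB_np_perp hm hu0 hum) hb0 hmb hub
    (cB1_phi h hL hK hu0) h1
  have e1 := cB1_nonL hb hb0 (cB_neg_mem h hu0)
    ⟨-((l u)⁻¹ * c0), by rw [hc0, smul_smul, neg_smul]⟩
  have e2 : X u = 0 := by
    rw [neg_eq_zero, smul_eq_zero] at e1
    rcases e1 with e1 | e1
    · exact absurd e1 (inv_ne_zero h2.ne')
    · exact e1
  have e3 := cB1_nonL hb hb0 (cB_inv_mem h hu0 hw (by rw [hc, real_inner_smul_right, hub, mul_zero]))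
    ⟨(l u)⁻¹ * c, by rw [e2, sub_zero, hc, smul_smul]⟩
  rw [e2, sub_zero, smul_eq_zero] at e3
  rcases e3 with e3 | e3
  · exact absurd e3 (inv_ne_zero h2.ne')
  · exact e3

/-- uniqueness off a plane -/
theorem cB_uniq (h : Dat K L X l) {m : V} {y0 : V} (hy0 : y0 ∈ L) (hmy : ⟪m, y0⟫ ≠ 0)
    {x x' : V} {r r' : ℝ} (hr : 0 < r) (hr' : 0 < r') (hx : ⟪m, x⟫ = 0) (hx' : ⟪m, x'⟫ = 0)
    (H : ∀ y, ⟪m, y⟫ ≠ 0 → (y ∈ L ↔ x + r • y ∈ K))
    (H' : ∀ y, ⟪m, y⟫ ≠ 0 → (y ∈ L ↔ x' + r' • y ∈ K)) : x = x' ∧ r = r' := by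
  have key : ∀ (x : V) (r : ℝ), 0 < r → ⟪m, x⟫ = 0 → (∀ y, ⟪m, y⟫ ≠ 0 → (y ∈ L ↔ x + r • y ∈ K)) →
      ∀ y, y ∈ {y | y ∈ L ∧ ⟪m, y⟫ ≠ 0} ↔ x + r • y ∈ {y | y ∈ K ∧ ⟪m, y⟫ ≠ 0} := by
    intro x r hr hx H y
    have e : ⟪m, x + r • y⟫ = r * ⟪m, y⟫ := by
      rw [inner_add_right, real_inner_smul_right, hx, zero_add]
    constructor
    · rintro ⟨h1, h2⟩
      refine ⟨(H y h2).1 h1, ?_⟩
      rw [e]
      exact mul_ne_zero hr.ne' h2
    · rintro ⟨h1, h2⟩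
      rw [e] at h2
      have h3 : ⟪m, y⟫ ≠ 0 := fun h0 => h2 (by rw [h0, mul_zero])
      exact ⟨(H y h3).2 h1, h3⟩
  have hy0' : (1 / 2 : ℝ) • y0 ∈ L := h.sL.star y0 hy0 (1 / 2) (by norm_num) (by norm_num)
  have hne : y0 ≠ (1 / 2 : ℝ) • y0 := by
    intro he
    have h1 : ⟪m, y0⟫ = ⟪m, (1 / 2 : ℝ) • y0⟫ := by rw [← he]
    rw [real_inner_smul_right] at h1
    apply hmy
    linarith
  refine uniq (A := {y | y ∈ L ∧ ⟪m, y⟫ ≠ 0}) (B := {y | y ∈ K ∧ ⟪m, y⟫ ≠ 0})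
    (h.sL.cpt.isBounded.subset (fun y hy => hy.1)) (a := y0) (b := (1 / 2 : ℝ) • y0)
    ⟨hy0, hmy⟩ ⟨hy0', ?_⟩ hne hr hr' (key x r hr hx H) (key x' r' hr' hx' H')
  rw [real_inner_smul_right]
  exact mul_ne_zero (by norm_num) hmy

theorem cB1 (hdim : Module.finrank ℝ V = 3) (h : Dat K L X l) {m : V} (hm : m ≠ 0)
    (hL : ∀ y ∈ L, ⟪m, y⟫ ≤ 0) (hK : ∀ y ∈ K, ⟪m, y⟫ ≤ 0) : Hmt K L := by
  by_cases hg : ∃ a, ⟪m, a⟫ = 0 ∧ a ∈ U L
  · obtain ⟨a, hma, ha⟩ := hg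
    have ha0 : a ≠ 0 := ha.1
    obtain ⟨x, r, hr, hx, ⟨c, hxc⟩, hT⟩ := cB1_good hdim h hm hL hK hma ha
    by_cases hLm : ∀ y ∈ L, ⟪m, y⟫ = 0
    · refine cB_hmt_perp h hm hLm (fun y hy => ?_)
      by_contra hne
      have e1 : ⟪m, r⁻¹ • (y - x)⟫ = r⁻¹ * ⟪m, y⟫ := by
        rw [real_inner_smul_right, inner_sub_right, hx, sub_zero]
      have e2 : ⟪m, r⁻¹ • (y - x)⟫ ≠ 0 := by
        rw [e1]
        exact mul_ne_zero (inv_ne_zero hr.ne') hne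
      apply e2
      apply hLm
      rw [hT _ (Or.inl e2), smul_smul, mul_inv_cancel₀ hr.ne', one_smul, add_sub_cancel]
      exact hy
    · push Not at hLm
      obtain ⟨y0, hy0, hmy0⟩ := hLm
      refine ⟨x, r, hr, fun y => ?_⟩
      by_cases hy1 : ⟪m, y⟫ = 0
      swap
      · exact hT y (Or.inl hy1)
      by_cases hy2 : ∃ c : ℝ, y = c • a
      · exact hT y (Or.inr hy2)
      have hyne : y ≠ 0 := fun h0 => hy2 ⟨0, by rw [h0, zero_smul]⟩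
      by_cases hy3 : y ∈ U L ∨ -y ∈ U L
      · obtain ⟨x', r', hr', hx', -, hT'⟩ := cB1_good' hdim h hm hL hK hy1 hy3
        obtain ⟨e1, e2⟩ := cB_uniq h hy0 hmy0 hr hr' hx hx' (fun y hy => hT y (Or.inl hy))
          (fun y hy => hT' y (Or.inl hy))
        rw [e1, e2]
        exact hT' y (Or.inr ⟨1, by rw [one_smul]⟩)
      · constructor
        · intro hy
          exact absurd (Or.inl (cB_memU hy hyne)) hy3
        · intro hw
          exfalso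
          obtain ⟨w, hwdef⟩ : ∃ w, w = x + r • y := ⟨_, rfl⟩
          rw [← hwdef] at hw
          have hw0 : w ≠ 0 := by
            intro h0
            apply hy2
            refine ⟨-(r⁻¹ * c), ?_⟩
            rw [h0] at hwdef
            have h1 : r • y = -x := by
              rw [eq_neg_iff_add_eq_zero, add_comm]; exact hwdef.symm
            have h2 : y = r⁻¹ • (r • y) := by
              rw [smul_smul, inv_mul_cancel₀ hr.ne', one_smul]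
            rw [h2, h1, hxc, neg_smul, smul_neg, smul_smul]
          have hmw : ⟪m, w⟫ = 0 := by
            rw [hwdef, inner_add_right, real_inner_smul_right, hx, hy1]; ring
          have hwg : w ∈ U L ∨ -w ∈ U L := by
            by_contra hwn
            exact hw0 (cB1_nongood hdim h hm hL hK hmw hw0 hwn hw ⟨1, by rw [one_smul]⟩)
          obtain ⟨x', r', hr', hx', ⟨c', hc'⟩, hT'⟩ := cB1_good' hdim h hm hL hK hmw hwg
          obtain ⟨e1, e2⟩ := cB_uniq h hy0 hmy0 hr hr' hx hx' (fun y hy => hT y (Or.inl hy))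
            (fun y hy => hT' y (Or.inl hy))
          rw [← e1] at hc'
          -- x = c' • w = c' • x + (c' * r) • y
          have e3 : x = c' • x + (c' * r) • y := by
            conv_lhs => rw [hc', hwdef]
            rw [smul_add, smul_smul]
          by_cases hc0 : c' = 0
          · rw [hc0, zero_smul] at hc'
            rw [hc', zero_add] at hwdef
            have e4 : y = r⁻¹ • w := by
              rw [hwdef, smul_smul, inv_mul_cancel₀ hr.ne', one_smul]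
            apply hy3
            rcases hwg with hwg | hwg
            · left
              rw [e4]
              exact U_smul hwg (inv_pos.mpr hr)
            · right
              rw [e4, ← smul_neg]
              exact U_smul hwg (inv_pos.mpr hr)
          · apply hy2
            have hcr : c' * r ≠ 0 := mul_ne_zero hc0 hr.ne'
            refine ⟨(c' * r)⁻¹ * ((1 - c') * c), ?_⟩
            have e5 : (c' * r) • y = ((1 - c') * c) • a := by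
              have : (c' * r) • y = x - c' • x := by
                rw [eq_sub_iff_add_eq, add_comm]; exact e3.symm
              rw [this, hxc, smul_smul, ← sub_smul]
              congr 1
              ring
            rw [← smul_smul, ← e5, smul_smul, inv_mul_cancel₀ hcr, one_smul]
  · have hz : ∀ y ∈ L, ⟪m, y⟫ = 0 → y = 0 := by
      intro y hy hmy
      by_contra hne
      exact hg ⟨y, hmy, cB_memU hy hne⟩
    have hX : ∀ u, u ≠ 0 → X u = 0 := by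
      intro u hu
      have h1 := hz _ (cB_neg_mem h hu) (by
        rw [inner_neg_right, real_inner_smul_right, cB1_phi h hL hK hu]; ring)
      rw [neg_eq_zero, smul_eq_zero] at h1
      rcases h1 with h1 | h1
      · exact absurd h1 (inv_ne_zero (h.hm u hu).2.1.ne')
      · exact h1
    by_cases hy0 : ∃ y0 ∈ L, y0 ≠ 0
    · obtain ⟨y0, hy0, hne⟩ := hy0
      exact total hdim h (cB_memU hy0 hne) (fun u hu _ => ⟨0, by rw [hX u hu, zero_smul]⟩)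
    · push Not at hy0
      have hK0 : ∀ y ∈ K, y = 0 := by
        intro y hy
        obtain ⟨u, hu, huy, -⟩ := exists_normal hdim y y
        have h1 := hy0 _ (cB_inv_mem h hu hy huy)
        rw [hX u hu, sub_zero, smul_eq_zero] at h1
        rcases h1 with h1 | h1
        · exact absurd h1 (inv_ne_zero (h.hm u hu).2.1.ne')
        · exact h1
      refine ⟨0, 1, one_pos, fun y => ?_⟩
      rw [zero_add, one_smul]
      constructor
      · intro hy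
        rw [hy0 y hy]
        exact h.sK.zero
      · intro hy
        rw [hK0 y hy]
        exact h.sL.zero

/-! ### case B2 -/

/-- the top face -/
def Top (K : Set V) (m : V) (M : ℝ) (y : V) : Prop := y ∈ K ∧ ⟪m, y⟫ = M

theorem cB2_T1 (h : Dat K L X l) {m : V} (hL : ∀ y ∈ L, ⟪m, y⟫ ≤ 0) {M : ℝ}
    (hM : ∀ y ∈ K, ⟪m, y⟫ ≤ M) {u y : V} (hu : u ≠ 0) (hy : Top K m M y) (huy : ⟪u, y⟫ = 0) :
    Top K m M (X u) := by
  refine ⟨x_mem_K h hu, ?_⟩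
  have h1 := hL _ (cB_inv_mem h hu hy.1 huy)
  rw [real_inner_smul_right, inner_sub_right, hy.2] at h1
  have h2 := hM _ (x_mem_K h hu)
  have h3 : 0 < (l u)⁻¹ := inv_pos.mpr (h.hm u hu).2.1
  nlinarith

theorem cB2_T2 (hdim : Module.finrank ℝ V = 3) (h : Dat K L X l) {m : V} (hm : m ≠ 0)
    (hL : ∀ y ∈ L, ⟪m, y⟫ ≤ 0) {M : ℝ} (hM0 : 0 < M) (hM : ∀ y ∈ K, ⟪m, y⟫ ≤ M) {p e : V}
    (hp : Top K m M p) (hpn : ∀ y, Top K m M y → ‖y‖ ≤ ‖p‖) (he : e ≠ 0) (hem : ⟪m, e⟫ = 0)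
    (hep : ⟪p, e⟫ = 0) {z : V} (hz : z ∈ L) (hze : ∃ c : ℝ, z = c • e) : z = 0 := by
  obtain ⟨c, hc⟩ := hze
  obtain ⟨u, hu, hup, hue⟩ := exists_normal hdim p e
  obtain ⟨h1, h2, h3⟩ := h.hm u hu
  have hmp : ⟪m, p⟫ ≠ 0 := by rw [hp.2]; exact hM0.ne'
  have hnp := cB_np_of hu hup hmp
  have claim : ∀ y, Top K m M y → ⟪u, y⟫ = 0 → y = p := by
    intro y hy huy
    obtain ⟨s, hs⟩ := cB_line hdim hm hnp he hem hue (x := y - p)
      (by rw [inner_sub_right, hy.2, hp.2, sub_self])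
      (by rw [inner_sub_right, huy, hup, sub_self])
    have e1 : ⟪p, y - p⟫ = 0 := by rw [hs, real_inner_smul_right, hep, mul_zero]
    have e2 : y = p + (y - p) := by abel
    have e3 : ‖y‖ * ‖y‖ = ‖p‖ * ‖p‖ + ‖y - p‖ * ‖y - p‖ := by
      conv_lhs => rw [e2]
      exact norm_add_sq_eq_norm_sq_add_norm_sq_of_inner_eq_zero _ _ e1
    have e4 := hpn y hy
    have e5 : ‖y‖ * ‖y‖ ≤ ‖p‖ * ‖p‖ := mul_self_le_mul_self (norm_nonneg _) e4
    have e6 : ‖y - p‖ * ‖y - p‖ ≤ 0 := by linarith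
    have e7 : ‖y - p‖ = 0 := by
      have := mul_self_nonneg ‖y - p‖
      exact mul_self_eq_zero.mp (le_antisymm e6 this)
    rw [norm_eq_zero, sub_eq_zero] at e7
    exact e7
  have hX := claim _ (cB2_T1 h hL hM hu hp hup) h1
  have huz : ⟪u, z⟫ = 0 := by rw [hc, real_inner_smul_right, hue, mul_zero]
  have hmz : ⟪m, z⟫ = 0 := by rw [hc, real_inner_smul_right, hem, mul_zero]
  have h4 := claim (X u + l u • z) ⟨(h3 z huz).1 hz, by
    rw [inner_add_right, real_inner_smul_right, hmz, hX, hp.2]; ring⟩ (by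
    rw [inner_add_right, real_inner_smul_right, huz, h1]; ring)
  rw [hX, add_eq_left, smul_eq_zero] at h4
  rcases h4 with h4 | h4
  · exact absurd h4 h2.ne'
  · exact h4

theorem cB2_T4 (hdim : Module.finrank ℝ V = 3) (h : Dat K L X l) {m : V} (hm : m ≠ 0)
    (hL : ∀ y ∈ L, ⟪m, y⟫ ≤ 0) {M : ℝ} (hM0 : 0 < M) (hM : ∀ y ∈ K, ⟪m, y⟫ ≤ M) {e : V}
    (he : e ≠ 0) (hem : ⟪m, e⟫ = 0) (hLe : ∀ z ∈ L, (∃ c : ℝ, z = c • e) → z = 0) {y y' : V}
    (hy : Top K m M y) (hy' : Top K m M y') {c : ℝ} (hc : y' - y = c • e) : y = y' := by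
  obtain ⟨u, hu, huy, hue⟩ := exists_normal hdim y e
  obtain ⟨h1, h2, h3⟩ := h.hm u hu
  have huy' : ⟪u, y'⟫ = 0 := by
    have : y' = y + c • e := by rw [← hc]; abel
    rw [this, inner_add_right, real_inner_smul_right, huy, hue]; ring
  have claim : ∀ w, Top K m M w → ⟪u, w⟫ = 0 → w = X u := by
    intro w hw huw
    have hmw : ⟪m, w⟫ ≠ 0 := by rw [hw.2]; exact hM0.ne'
    have hXu := cB2_T1 h hL hM hu hw huw
    have hz := cB_inv_mem h hu hw.1 huw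
    obtain ⟨s, hs⟩ := cB_line hdim hm (cB_np_of hu huw hmw) he hem hue
      (x := (l u)⁻¹ • (w - X u))
      (by rw [real_inner_smul_right, inner_sub_right, hw.2, hXu.2]; ring)
      (by rw [real_inner_smul_right, inner_sub_right, huw, h1]; ring)
    have h0 := hLe _ hz ⟨s, hs⟩
    rw [smul_eq_zero] at h0
    rcases h0 with h0 | h0
    · exact absurd h0 (inv_ne_zero h2.ne')
    · exact sub_eq_zero.mp h0
  rw [claim y hy huy, claim y' hy' huy']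

theorem cB2_T5 (hdim : Module.finrank ℝ V = 3) (h : Dat K L X l) {m : V} (hm : m ≠ 0)
    (hL : ∀ y ∈ L, ⟪m, y⟫ ≤ 0) {M : ℝ} (hM0 : 0 < M) (hM : ∀ y ∈ K, ⟪m, y⟫ ≤ M)
    {y1 y2 : V} (hy1 : Top K m M y1) (hy2 : Top K m M y2) {t : ℝ} (ht0 : 0 ≤ t) (ht1 : t ≤ 1) :
    Top K m M (y1 + t • (y2 - y1)) := by
  refine ⟨?_, by
    rw [inner_add_right, real_inner_smul_right, inner_sub_right, hy1.2, hy2.2]; ring⟩
  by_cases h12 : y2 - y1 = 0
  · rw [h12, smul_zero, add_zero]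
    exact hy1.1
  obtain ⟨u, hu, hu1, hu2⟩ := exists_normal hdim y1 y2
  obtain ⟨h1, h2, h3⟩ := h.hm u hu
  have hmy1 : ⟪m, y1⟫ ≠ 0 := by rw [hy1.2]; exact hM0.ne'
  have hXu := cB2_T1 h hL hM hu hy1 hu1
  obtain ⟨s, hs⟩ := cB_line hdim hm (cB_np_of hu hu1 hmy1) h12
    (by rw [inner_sub_right, hy1.2, hy2.2, sub_self])
    (by rw [inner_sub_right, hu1, hu2, sub_self]) (x := X u - y1)
    (by rw [inner_sub_right, hy1.2, hXu.2, sub_self])
    (by rw [inner_sub_right, hu1, h1, sub_self])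
  have hXe : X u = y1 + s • (y2 - y1) := by rw [← hs]; abel
  have star : ∀ w, w ∈ K → ⟪u, w⟫ = 0 → ∀ τ : ℝ, 0 ≤ τ → τ ≤ 1 → X u + τ • (w - X u) ∈ K := by
    intro w hw huw τ hτ0 hτ1
    have hz := h.sL.star _ (cB_inv_mem h hu hw huw) τ hτ0 hτ1
    rw [h3 _ (by
      rw [real_inner_smul_right, real_inner_smul_right, inner_sub_right, huw, h1]; ring),
      smul_comm (l u) τ, smul_smul (l u), mul_inv_cancel₀ h2.ne', one_smul] at hz
    exact hz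
  rcases le_or_gt t s with hts | hts
  · rcases eq_or_lt_of_le (ht0.trans hts) with hs0 | hs0
    · have ht : t = 0 := le_antisymm (by rw [hs0]; exact hts) ht0
      rw [ht, zero_smul, add_zero]
      exact hy1.1
    · have h4 := star y1 hy1.1 hu1 ((s - t) / s) (div_nonneg (by linarith) hs0.le)
        (by rw [div_le_one hs0]; linarith)
      have e : X u + ((s - t) / s) • (y1 - X u) = y1 + t • (y2 - y1) := by
        have e1 : y1 - X u = -(s • (y2 - y1)) := by rw [hXe]; abel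
        rw [e1, smul_neg, smul_smul, div_mul_cancel₀ _ hs0.ne', hXe, sub_smul]
        abel
      rw [e] at h4
      exact h4
  · have h1s : 0 < 1 - s := by linarith
    have h4 := star y2 hy2.1 hu2 ((t - s) / (1 - s)) (div_nonneg (by linarith) h1s.le)
        (by rw [div_le_one h1s]; linarith)
    have e : X u + ((t - s) / (1 - s)) • (y2 - X u) = y1 + t • (y2 - y1) := by
      have e1 : y2 - X u = (1 - s) • (y2 - y1) := by rw [hXe, sub_smul, one_smul]; abel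
      rw [e1, smul_smul, div_mul_cancel₀ _ h1s.ne', hXe, sub_smul]
      abel
    rw [e] at h4
    exact h4

theorem cB2_T6 (hdim : Module.finrank ℝ V = 3) (h : Dat K L X l) {m : V} (hm : m ≠ 0)
    (hL : ∀ y ∈ L, ⟪m, y⟫ ≤ 0) {M : ℝ} (hM0 : 0 < M) (hM : ∀ y ∈ K, ⟪m, y⟫ ≤ M) {e f : V}
    (he : e ≠ 0) (hem : ⟪m, e⟫ = 0) (hLe : ∀ z ∈ L, (∃ c : ℝ, z = c • e) → z = 0)
    (hf : f ≠ 0) (hfm : ⟪f, m⟫ = 0) (hfe : ⟪f, e⟫ = 0) {y y' : V}
    (hy : Top K m M y) (hy' : Top K m M y') (hff : ⟪f, y⟫ = ⟪f, y'⟫) : y = y' := by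
  obtain ⟨s, hs⟩ := cB_line hdim hm (cB_np_perp hm hf hfm) he hem hfe (x := y' - y)
    (by rw [inner_sub_right, hy.2, hy'.2, sub_self])
    (by rw [inner_sub_right, hff, sub_self])
  exact cB2_T4 hdim h hm hL hM0 hM he hem hLe hy hy' hs

theorem cB2_T7s (hdim : Module.finrank ℝ V = 3) (h : Dat K L X l) {m : V} (hm : m ≠ 0)
    (hL : ∀ y ∈ L, ⟪m, y⟫ ≤ 0) {M : ℝ} (hM0 : 0 < M) (hM : ∀ y ∈ K, ⟪m, y⟫ ≤ M) {e f : V}
    (he : e ≠ 0) (hem : ⟪m, e⟫ = 0) (hLe : ∀ z ∈ L, (∃ c : ℝ, z = c • e) → z = 0)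
    (hf : f ≠ 0) (hfm : ⟪f, m⟫ = 0) (hfe : ⟪f, e⟫ = 0) {y1 y2 y3 : V}
    (hy1 : Top K m M y1) (hy2 : Top K m M y2) (hy3 : Top K m M y3)
    (h12 : ⟪f, y1⟫ ≤ ⟪f, y2⟫) (h23 : ⟪f, y2⟫ ≤ ⟪f, y3⟫) :
    (⟪f, y2⟫ - ⟪f, y3⟫) • y1 + (⟪f, y3⟫ - ⟪f, y1⟫) • y2 + (⟪f, y1⟫ - ⟪f, y2⟫) • y3 = 0 := by
  rcases eq_or_lt_of_le (h12.trans h23) with h13 | h13
  · have e1 : ⟪f, y2⟫ = ⟪f, y3⟫ := le_antisymm h23 (by rw [← h13]; exact h12)
    rw [h13, e1]
    simp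
  · have hd : 0 < ⟪f, y3⟫ - ⟪f, y1⟫ := by linarith
    have hw := cB2_T5 hdim h hm hL hM0 hM hy1 hy3
      (t := (⟪f, y2⟫ - ⟪f, y1⟫) / (⟪f, y3⟫ - ⟪f, y1⟫)) (div_nonneg (by linarith) hd.le)
      (by rw [div_le_one hd]; linarith)
    have e2 := cB2_T6 hdim h hm hL hM0 hM he hem hLe hf hfm hfe hw hy2 (by
      rw [inner_add_right, real_inner_smul_right, inner_sub_right, div_mul_cancel₀ _ hd.ne']
      ring)
    have e3 : (⟪f, y3⟫ - ⟪f, y1⟫) • y2 =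
        (⟪f, y3⟫ - ⟪f, y1⟫) • y1 + (⟪f, y2⟫ - ⟪f, y1⟫) • (y3 - y1) := by
      conv_lhs => rw [← e2, smul_add, smul_smul, mul_div_cancel₀ _ hd.ne']
    rw [e3]
    module

theorem cB2_T7 (hdim : Module.finrank ℝ V = 3) (h : Dat K L X l) {m : V} (hm : m ≠ 0)
    (hL : ∀ y ∈ L, ⟪m, y⟫ ≤ 0) {M : ℝ} (hM0 : 0 < M) (hM : ∀ y ∈ K, ⟪m, y⟫ ≤ M) {e f : V}
    (he : e ≠ 0) (hem : ⟪m, e⟫ = 0) (hLe : ∀ z ∈ L, (∃ c : ℝ, z = c • e) → z = 0)
    (hf : f ≠ 0) (hfm : ⟪f, m⟫ = 0) (hfe : ⟪f, e⟫ = 0) {y1 y2 y3 : V}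
    (hy1 : Top K m M y1) (hy2 : Top K m M y2) (hy3 : Top K m M y3) :
    (⟪f, y2⟫ - ⟪f, y3⟫) • y1 + (⟪f, y3⟫ - ⟪f, y1⟫) • y2 + (⟪f, y1⟫ - ⟪f, y2⟫) • y3 = 0 := by
  have key := fun (a b c : V) (ha : Top K m M a) (hb : Top K m M b) (hc : Top K m M c) =>
    cB2_T7s hdim h hm hL hM0 hM he hem hLe hf hfm hfe ha hb hc
  rcases le_total ⟪f, y1⟫ ⟪f, y2⟫ with h12 | h12 <;>
  rcases le_total ⟪f, y2⟫ ⟪f, y3⟫ with h23 | h23 <;>
  rcases le_total ⟪f, y1⟫ ⟪f, y3⟫ with h13 | h13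
  · exact key _ _ _ hy1 hy2 hy3 h12 h23
  · exact key _ _ _ hy1 hy2 hy3 h12 h23
  · have := key _ _ _ hy1 hy3 hy2 h13 h23
    rw [← neg_eq_zero, ← this]; module
  · have := key _ _ _ hy3 hy1 hy2 h13 h12
    rw [← this]; module
  · have := key _ _ _ hy2 hy1 hy3 h12 h13
    rw [← neg_eq_zero, ← this]; module
  · have := key _ _ _ hy2 hy3 hy1 h23 h13
    rw [← this]; module
  · have := key _ _ _ hy3 hy2 hy1 h23 h12
    rw [← neg_eq_zero, ← this]; module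
  · have := key _ _ _ hy3 hy2 hy1 h23 h12
    rw [← neg_eq_zero, ← this]; module

theorem cB2_negp (h : Dat K L X l) {u p : V} (hu : u ≠ 0) (hp : p ≠ 0) (hX : X u = p) :
    -p ∈ U L := by
  refine ⟨neg_ne_zero.mpr hp, (l u)⁻¹, inv_pos.mpr (h.hm u hu).2.1, ?_⟩
  have := cB_neg_mem h hu
  rw [hX] at this
  rw [smul_neg]
  exact this

theorem cB2_T9 (hdim : Module.finrank ℝ V = 3) (h : Dat K L X l) {m : V}
    (hL : ∀ y ∈ L, ⟪m, y⟫ ≤ 0) {M : ℝ} (hM0 : 0 < M) (hM : ∀ y ∈ K, ⟪m, y⟫ ≤ M) {n p : V}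
    (hn : n ≠ 0) (hT : ∀ y, Top K m M y → ⟪n, y⟫ = 0) (hp : Top K m M p) :
    ∃ r : ℝ, 0 < r ∧ ∀ y, ⟪n, y⟫ ≠ 0 → (y ∈ L ↔ p + r • y ∈ K) := by
  have hp0 : p ≠ 0 := by
    intro h0
    have := hp.2
    rw [h0, inner_zero_right] at this
    exact hM0.ne this
  have hX : ∀ u, u ≠ 0 → ⟪u, p⟫ = 0 → (∀ c : ℝ, c • n ≠ u) → X u = p := by
    intro u hu hup hnp
    have h1 := cB2_T1 h hL hM hu hp hup
    obtain ⟨c, hc⟩ := cB_line hdim hn hnp hp0 (hT p hp) hup (hT _ h1) (h.hm u hu).1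
    have h2 := h1.2
    rw [hc, real_inner_smul_right, hp.2] at h2
    have h3 : c = 1 := by
      have : (c - 1) * M = 0 := by linarith
      rcases mul_eq_zero.mp this with h4 | h4
      · linarith
      · exact absurd h4 hM0.ne'
    rw [hc, h3, one_smul]
  obtain ⟨u2, hu2, hu2p, hu2n⟩ := exists_normal hdim p n
  have hX2 := hX u2 hu2 hu2p (cB_np_perp hn hu2 hu2n)
  have hnegp := cB2_negp h hu2 hp0 hX2
  refine ⟨l u2, (h.hm u2 hu2).2.1, fun y hy => ?_⟩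
  obtain ⟨u, hu, hup, huy⟩ := exists_normal hdim p y
  have hXu := hX u hu hup (cB_np_of hu huy hy)
  obtain ⟨-, e2⟩ := dir_const h hnegp hu hu2 (by rw [inner_neg_right, hup, neg_zero])
    (by rw [inner_neg_right, hu2p, neg_zero]) (c := -1) (c' := -1)
    (by rw [hXu, neg_smul, one_smul, neg_neg]) (by rw [hX2, neg_smul, one_smul, neg_neg])
  have h3 := (h.hm u hu).2.2 y huy
  rw [hXu, e2] at h3
  exact h3

theorem cB2 (hdim : Module.finrank ℝ V = 3) (h : Dat K L X l) {m : V} (hm : m ≠ 0)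
    (hL : ∀ y ∈ L, ⟪m, y⟫ ≤ 0) (hK : ∃ y ∈ K, 0 < ⟪m, y⟫) : Hmt K L := by
  obtain ⟨yp, hypK, hyp⟩ := hK
  have hcont : Continuous fun y : V => ⟪m, y⟫ := continuous_const.inner continuous_id
  obtain ⟨ym, hymK, hym⟩ := h.sK.cpt.exists_isMaxOn ⟨yp, hypK⟩ hcont.continuousOn
  obtain ⟨M, hMdef⟩ : ∃ M, M = ⟪m, ym⟫ := ⟨_, rfl⟩
  have hM : ∀ y ∈ K, ⟪m, y⟫ ≤ M := by
    intro y hy
    rw [hMdef]
    exact hym hy
  have hM0 : 0 < M := lt_of_lt_of_le hyp (hM yp hypK)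
  have hcomp : IsCompact (K ∩ {y : V | ⟪m, y⟫ = M}) :=
    h.sK.cpt.inter_right (isClosed_eq hcont continuous_const)
  obtain ⟨p, ⟨hpK, hpM⟩, hpmax⟩ := hcomp.exists_isMaxOn ⟨ym, hymK, hMdef.symm⟩
    (continuous_norm.continuousOn)
  have hp : Top K m M p := ⟨hpK, hpM⟩
  have hpn : ∀ y, Top K m M y → ‖y‖ ≤ ‖p‖ := fun y hy => hpmax ⟨hy.1, hy.2⟩
  have hp0 : p ≠ 0 := by
    intro h0
    have := hp.2
    rw [h0, inner_zero_right] at this
    exact hM0.ne this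
  by_cases hall : ∀ u, u ≠ 0 → ⟪u, p⟫ = 0 → X u = p
  · obtain ⟨u, hu, hup, -⟩ := exists_normal hdim p p
    refine total hdim h (a := -p) (cB2_negp h hu hp0 (hall u hu hup)) (fun u hu hup => ⟨-1, ?_⟩)
    rw [inner_neg_right, neg_eq_zero] at hup
    rw [hall u hu hup, neg_smul, one_smul, neg_neg]
  · push Not at hall
    obtain ⟨u1, hu1, hu1p, hqp⟩ := hall
    have hq := cB2_T1 h hL hM hu1 hp hu1p
    obtain ⟨q, hqdef⟩ : ∃ q, q = X u1 := ⟨_, rfl⟩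
    rw [← hqdef] at hq hqp
    obtain ⟨e, he, hem', hep'⟩ := exists_normal hdim m p
    have hem : ⟪m, e⟫ = 0 := by rw [real_inner_comm]; exact hem'
    have hep : ⟪p, e⟫ = 0 := by rw [real_inner_comm]; exact hep'
    have hLe : ∀ z ∈ L, (∃ c : ℝ, z = c • e) → z = 0 := fun z hz hc =>
      cB2_T2 hdim h hm hL hM0 hM hp hpn he hem hep hz hc
    obtain ⟨f, hf, hfm, hfe⟩ := exists_normal hdim m e
    obtain ⟨n, hn, hnp, hnq⟩ := exists_normal hdim p q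
    have hT : ∀ y, Top K m M y → ⟪n, y⟫ = 0 := by
      intro y hy
      have h7 := cB2_T7 hdim h hm hL hM0 hM he hem hLe hf hfm hfe hp hq hy
      have h8 := congrArg (fun z => ⟪n, z⟫) h7
      simp only [inner_add_right, real_inner_smul_right, hnp, hnq, inner_zero_right, mul_zero,
        zero_add] at h8
      rcases mul_eq_zero.mp h8 with h9 | h9
      · exact absurd (cB2_T6 hdim h hm hL hM0 hM he hem hLe hf hfm hfe hp hq (by linarith)).symm hqp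
      · exact h9
    obtain ⟨r, hr, H⟩ := cB2_T9 hdim h hL hM0 hM hn hT hp
    obtain ⟨r', hr', H'⟩ := cB2_T9 hdim h hL hM0 hM hn hT hq
    by_cases hLn : ∃ y0 ∈ L, ⟪n, y0⟫ ≠ 0
    · obtain ⟨y0, hy0, hny0⟩ := hLn
      exact absurd (cB_uniq h hy0 hny0 hr hr' hnp hnq H H').1.symm hqp
    · push Not at hLn
      refine cB_hmt_perp h hn hLn (fun y hy => ?_)
      by_contra hne
      have e1 : ⟪n, r⁻¹ • (y - p)⟫ = r⁻¹ * ⟪n, y⟫ := by
        rw [real_inner_smul_right, inner_sub_right, hnp, sub_zero]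
      have e2 : ⟪n, r⁻¹ • (y - p)⟫ ≠ 0 := by
        rw [e1]
        exact mul_ne_zero (inv_ne_zero hr.ne') hne
      apply e2
      apply hLn
      rw [H _ e2, smul_smul, mul_inv_cancel₀ hr.ne', one_smul, add_sub_cancel]
      exact hy

theorem caseB (hdim : Module.finrank ℝ V = 3) (h : Dat K L X l) (hL : OneSided L) : Hmt K L := by
  obtain ⟨m, hm, hL⟩ := hL
  by_cases hK : ∀ y ∈ K, ⟪m, y⟫ ≤ 0
  · exact cB1 hdim h hm hL hK
  · push Not at hK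
    exact cB2 hdim h hm hL hK

end JcaseB

end Pool.Agent.Helper613.HS
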