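import Mathlib
import Pool.Agent.Helper613.HSTotal

open Set Filter Topology
open scoped RealInnerProductSpace

namespace Pool.Agent.Helper613.HS

namespace JcaseC1


variable {V : Type} [NormedAddCommGroup V] [InnerProductSpace ℝ V]
variable {K L : Set V} {X : V → V} {l : V → ℝ}
























/- TARGET: prove this (replace sorry). Auxiliary lemmas before it are welcome. -/

/-- on the line of `w` the sets are homothetic with centre `0` -/
def caseC1_QQ (K L : Set V) (w : V) : Prop := ∃ μ : ℝ, 0 < μ ∧ ∀ t : ℝ, t • w ∈ L ↔ (μ * t) • w ∈ K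

theorem caseC1_QQ_of_zero (h : Dat K L X l) {u w : V} (hu : u ≠ 0) (huw : ⟪u, w⟫ = 0) (hx : X u = 0) :
    caseC1_QQ K L w := by
  refine ⟨l u, (h.hm u hu).2.1, fun t => ?_⟩
  have h1 := (h.hm u hu).2.2 (t • w) (by rw [inner_smul_right, huw, mul_zero])
  rw [hx, zero_add, smul_smul] at h1
  exact h1

theorem caseC1_not_QQ (h : Dat K L X l) {u w : V} (hu : u ≠ 0) (hx : X u ≠ 0) {c : ℝ} (hc : c ≠ 0)
    (hw : w = c • X u) : ¬ caseC1_QQ K L w := by
  rintro ⟨μ, hμ, hQ⟩
  obtain ⟨hne, t0, ht0, ht0L⟩ := negx_mem_U h hu hx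
  obtain ⟨hux, hl, hm⟩ := h.hm u hu
  have hbd : Bornology.IsBounded {y | y ∈ L ∧ ∃ s : ℝ, y = s • X u} :=
    h.sL.cpt.isBounded.subset fun y hy => hy.1
  have h1 := uniq (A := {y | y ∈ L ∧ ∃ s : ℝ, y = s • X u}) (B := {y | y ∈ K ∧ ∃ s : ℝ, y = s • X u})
    hbd (a := 0) (b := t0 • (-X u)) ⟨h.sL.zero, 0, by rw [zero_smul]⟩
    ⟨ht0L, -t0, by rw [smul_neg, neg_smul]⟩ (by
      intro h2
      have h3 := smul_eq_zero.1 h2.symm
      rcases h3 with h3 | h3
      · exact ht0.ne' h3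
      · exact hne h3) (x := X u) (x' := 0) (r := l u) (r' := μ) hl hμ
    (by
      intro y
      constructor
      · rintro ⟨h2, s, rfl⟩
        refine ⟨(hm _ (by rw [inner_smul_right, hux, mul_zero])).1 h2, 1 + l u * s, ?_⟩
        rw [add_smul, one_smul, smul_smul]
      · rintro ⟨h2, s, h3⟩
        have h4 : y = ((l u)⁻¹ * (s - 1)) • X u := by
          have h5 : l u • y = (s - 1) • X u := by
            rw [sub_smul, one_smul, ← h3, add_sub_cancel_left]
          rw [mul_smul, ← h5, smul_smul, inv_mul_cancel₀ hl.ne', one_smul]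
        refine ⟨(hm _ ?_).2 h2, _, h4⟩
        rw [h4, inner_smul_right, hux, mul_zero])
    (by
      intro y
      rw [zero_add]
      constructor
      · rintro ⟨h2, s, rfl⟩
        have h3 : s • X u = (s / c) • w := by
          rw [hw, smul_smul, div_mul_cancel₀ _ hc]
        rw [h3] at h2 ⊢
        have h4 := (hQ (s / c)).1 h2
        refine ⟨by rw [smul_smul]; exact h4, μ * s, ?_⟩
        rw [← h3, smul_smul]
      · rintro ⟨h2, s, h3⟩
        have h4 : y = (s / (μ * c)) • w := by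
          rw [hw, smul_smul]
          have h5 : s / (μ * c) * c = μ⁻¹ * s := by field_simp
          rw [h5, mul_smul, ← h3, smul_smul, inv_mul_cancel₀ hμ.ne', one_smul]
        refine ⟨?_, s / (μ * c) * c, by rw [h4, hw, smul_smul]⟩
        rw [h4, hQ]
        rw [h4, smul_smul] at h2
        exact h2)
  exact hx h1.1

/-- lines in the complement -/
theorem caseC1_lineN (h : Dat K L X l) (hU : U K = U L) {u v' : V} (hu : u ≠ 0) (huv : ⟪u, v'⟫ = 0)
    (hv0 : v' ≠ 0) (hv' : v' ∉ U L) (hx : X u ≠ 0) (t : ℝ) :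
    v' + t • X u ≠ 0 ∧ v' + t • X u ∉ U L := by
  have hxU : X u ∈ U L := by rw [← hU]; exact x_mem_U h hu hx
  have hnx := negx_mem_U h hu hx
  have hux := (h.hm u hu).1
  have hin : ⟪u, v' + t • X u⟫ = 0 := by
    rw [inner_add_right, huv, inner_smul_right, hux, mul_zero, add_zero]
  constructor
  · intro h0
    have h1 : v' = -(t • X u) := eq_neg_of_add_eq_zero_left h0
    rcases lt_trichotomy t 0 with ht | ht | ht
    · apply hv'
      have h2 : v' = (-t) • X u := by rw [h1, neg_smul]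
      rw [h2]
      exact U_smul hxU (by linarith)
    · apply hv0
      rw [h1, ht, zero_smul, neg_zero]
    · apply hv'
      have h2 : v' = t • (-X u) := by rw [h1, smul_neg]
      rw [h2]
      exact U_smul hnx ht
  · intro h1
    rcases le_or_gt 0 t with ht | ht
    · have h2 := addL h hu hin h1 ht (by rw [add_sub_cancel_right]; exact hv0)
      rw [add_sub_cancel_right] at h2
      exact hv' h2
    · rw [← hU] at h1
      have h3 : v' + t • X u + (-t) • X u = v' := by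
        rw [neg_smul, add_neg_cancel_right]
      have h2 := addK h hu hin h1 (α := -t) (by linarith) (by rw [h3]; exact hv0)
      rw [h3, hU] at h2
      exact hv' h2

theorem caseC1_parN (hdim : Module.finrank ℝ V = 3) (h : Dat K L X l) (hU : U K = U L) {u v' w : V}
    (hu : u ≠ 0) (huv : ⟪u, v'⟫ = 0) (hv0 : v' ≠ 0) (hv' : v' ∉ U L) (hx : X u ≠ 0)
    (huw : ⟪u, w⟫ = 0) (hw : w ∈ U L) (hw' : -w ∈ U L) : ∃ c : ℝ, w = c • X u := by
  have hline := caseC1_lineN h hU hu huv hv0 hv' hx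
  have hind : LinearIndependent ℝ ![v', X u] := by
    rw [LinearIndependent.pair_iff' hv0]
    intro c hc
    have hc0 : c ≠ 0 := by
      rintro rfl
      rw [zero_smul] at hc
      exact hx hc.symm
    apply (hline (-c⁻¹)).1
    rw [← hc, smul_smul, neg_mul, inv_mul_cancel₀ hc0, neg_smul, one_smul, add_neg_cancel]
  obtain ⟨α, β, hab⟩ := plane_coord hdim hu huv (h.hm u hu).1 huw hind
  rcases lt_trichotomy α 0 with ha | ha | ha
  · exfalso
    apply (hline (β / α)).2
    have h1 : v' + (β / α) • X u = (-α)⁻¹ • (-w) := by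
      rw [hab, inv_neg, neg_smul_neg, smul_add, smul_smul, smul_smul, inv_mul_cancel₀ ha.ne,
        one_smul, inv_mul_eq_div]
    rw [h1]
    exact U_smul hw' (inv_pos.2 (by linarith))
  · exact ⟨β, by rw [hab, ha, zero_smul, zero_add]⟩
  · exfalso
    apply (hline (β / α)).2
    have h1 : v' + (β / α) • X u = α⁻¹ • w := by
      rw [hab, smul_add, smul_smul, smul_smul, inv_mul_cancel₀ ha.ne', one_smul, inv_mul_eq_div]
    rw [h1]
    exact U_smul hw (inv_pos.2 ha)

theorem caseC1_keyN (hdim : Module.finrank ℝ V = 3) (h : Dat K L X l) (hU : U K = U L) {a u v' : V}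
    (ha : a ∈ U L) (ha' : -a ∈ U L) (haQ : ¬ caseC1_QQ K L a) (hu : u ≠ 0) (hua : ⟪u, a⟫ = 0)
    (huv : ⟪u, v'⟫ = 0) (hv0 : v' ≠ 0) (hv' : v' ∉ U L) :
    (∃ c : ℝ, c ≠ 0 ∧ a = c • X u) ∧ ∀ t : ℝ, v' + t • a ≠ 0 ∧ v' + t • a ∉ U L := by
  have hx : X u ≠ 0 := fun hx => haQ (caseC1_QQ_of_zero h hu hua hx)
  obtain ⟨c, hc⟩ := caseC1_parN hdim h hU hu huv hv0 hv' hx hua ha ha'
  have hc0 : c ≠ 0 := by
    rintro rfl
    rw [zero_smul] at hc
    exact ha.1 hc
  refine ⟨⟨c, hc0, hc⟩, fun t => ?_⟩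
  have h1 := caseC1_lineN h hU hu huv hv0 hv' hx (t * c)
  rw [hc, smul_smul]
  exact h1

theorem caseC1_factsA (h : Dat K L X l) (hU : U K = U L) {u a : V} (hu : u ≠ 0) (hx : X u ≠ 0) {c : ℝ}
    (hc : c ≠ 0) (ha : a = c • X u) : a ∈ U L ∧ -a ∈ U L ∧ ¬ caseC1_QQ K L a := by
  have hxU : X u ∈ U L := by rw [← hU]; exact x_mem_U h hu hx
  have hnx := negx_mem_U h hu hx
  refine ⟨?_, ?_, caseC1_not_QQ h hu hx hc ha⟩
  · rcases lt_or_gt_of_ne hc with h1 | h1
    · have : a = (-c) • (-X u) := by rw [neg_smul_neg, ha]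
      rw [this]
      exact U_smul hnx (by linarith)
    · rw [ha]
      exact U_smul hxU h1
  · rcases lt_or_gt_of_ne hc with h1 | h1
    · have : -a = (-c) • X u := by rw [neg_smul, ha]
      rw [this]
      exact U_smul hxU (by linarith)
    · have : -a = c • (-X u) := by rw [smul_neg, ha]
      rw [this]
      exact U_smul hnx h1

/-! limits -/

theorem caseC1_lowseq {K : Set V} (hK : Star K) {w : ℕ → V} {a : V} (ha : a ≠ 0)
    (hw : Tendsto w atTop (𝓝 a)) (hU : ∀ n, w n ∈ U K ∧ -(w n) ∈ U K) {t : ℝ} (ht : t • a ∈ K)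
    {s : ℝ} (hs0 : 0 ≤ s) (hs1 : s < 1) : ∀ᶠ n in atTop, (s * t) • w n ∈ K := by
  rcases eq_or_ne t 0 with h0 | h0
  · refine Eventually.of_forall fun n => ?_
    rw [h0, mul_zero, zero_smul]
    exact hK.zero
  · have h1 := hK.low (t • a) ht (smul_ne_zero h0 ha) s hs0 hs1
    have h2 : Tendsto (fun n => t • w n) atTop (𝓝 (t • a)) := hw.const_smul t
    filter_upwards [h2.eventually h1] with n hn
    rw [mul_smul]
    apply hn
    rcases lt_or_gt_of_ne h0 with h3 | h3
    · have : t • w n = (-t) • (-(w n)) := by rw [neg_smul_neg]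
      rw [this]
      exact U_smul (hU n).2 (by linarith)
    · exact U_smul (hU n).1 h3

theorem caseC1_mem_of_lt_one {K : Set V} (hK : Star K) {y : V} (hy : ∀ s : ℝ, 0 ≤ s → s < 1 → s • y ∈ K) :
    y ∈ K := by
  have h1 : Tendsto (fun s : ℝ => s • y) (𝓝[<] 1) (𝓝 ((1 : ℝ) • y)) := by
    apply Tendsto.mono_left _ nhdsWithin_le_nhds
    exact (continuous_id.smul continuous_const).tendsto 1
  rw [one_smul] at h1
  apply hK.cpt.isClosed.mem_of_tendsto h1
  have h2 : Ico (0 : ℝ) 1 ∈ 𝓝[<] (1 : ℝ) := Ico_mem_nhdsLT zero_lt_one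
  filter_upwards [h2] with s hs
  exact hy s hs.1 hs.2

theorem caseC1_QQ_lim (hK : Star K) (hL : Star L) {w : ℕ → V} {a : V} (ha : a ≠ 0)
    (hw : Tendsto w atTop (𝓝 a)) (hwK : ∀ n, w n ∈ U K ∧ -(w n) ∈ U K)
    (hwL : ∀ n, w n ∈ U L ∧ -(w n) ∈ U L) (haK : a ∈ U K) (haL : a ∈ U L)
    (hQ : ∀ n, caseC1_QQ K L (w n)) : caseC1_QQ K L a := by
  choose μ hμ hμQ using hQ
  obtain ⟨-, tL, htL, htL'⟩ := haL
  obtain ⟨-, tK, htK, htK'⟩ := haK
  obtain ⟨RK, hRK⟩ := hK.cpt.isBounded.exists_norm_le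
  obtain ⟨RL, hRL⟩ := hL.cpt.isBounded.exists_norm_le
  have e1 := caseC1_lowseq hL ha hw hwL htL' (s := 1 / 2) (by norm_num) (by norm_num)
  have e2 := caseC1_lowseq hK ha hw hwK htK' (s := 1 / 2) (by norm_num) (by norm_num)
  have hna : 0 < ‖a‖ := norm_pos_iff.2 ha
  have e3 : ∀ᶠ n in atTop, ‖a‖ / 2 < ‖w n‖ :=
    hw.norm.eventually (lt_mem_nhds (by linarith : ‖a‖ / 2 < ‖a‖))
  have hRL0 : 0 ≤ RL := (norm_nonneg _).trans (hRL 0 hL.zero)
  obtain ⟨c0, hc0⟩ : ∃ c0, c0 = tK * ‖a‖ / (4 * (RL + 1)) := ⟨_, rfl⟩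
  obtain ⟨C0, hC0⟩ : ∃ C0, C0 = 4 * RK / (tL * ‖a‖) := ⟨_, rfl⟩
  have hc0p : 0 < c0 := by rw [hc0]; positivity
  have e4 : ∀ᶠ n in atTop, μ n ∈ Icc c0 C0 := by
    filter_upwards [e1, e2, e3] with n h1 h2 h3
    have hμn := hμ n
    constructor
    · have h4 : (1 / 2 * tK) • w n = (μ n * (tK / (2 * μ n))) • w n := by
        congr 1
        field_simp
      rw [h4, ← hμQ n] at h2
      have h5 := hRL _ h2
      rw [norm_smul, Real.norm_of_nonneg (by positivity)] at h5
      have h6 : tK / (2 * μ n) * (‖a‖ / 2) ≤ RL :=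
        (mul_le_mul_of_nonneg_left h3.le (by positivity)).trans h5
      have h7 : tK * ‖a‖ ≤ 4 * μ n * RL := by
        have h8 : tK / (2 * μ n) * (‖a‖ / 2) = tK * ‖a‖ / (4 * μ n) := by field_simp; norm_num
        rw [h8, div_le_iff₀ (by positivity)] at h6
        linarith
      rw [hc0, div_le_iff₀ (by positivity)]
      nlinarith
    · have h4 := (hμQ n _).1 h1
      have h5 := hRK _ h4
      rw [norm_smul, Real.norm_of_nonneg (by positivity)] at h5
      have h6 : μ n * (1 / 2 * tL) * (‖a‖ / 2) ≤ RK :=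
        (mul_le_mul_of_nonneg_left h3.le (by positivity)).trans h5
      rw [hC0, le_div_iff₀ (by positivity)]
      linarith
  obtain ⟨m, hm, φ, hφ, hmφ⟩ := isCompact_Icc.tendsto_subseq' e4.frequently
  have hmp : 0 < m := lt_of_lt_of_le hc0p hm.1
  have hwφ : Tendsto (w ∘ φ) atTop (𝓝 a) := hw.comp hφ.tendsto_atTop
  refine ⟨m, hmp, fun t => ⟨fun ht => ?_, fun ht => ?_⟩⟩
  · apply caseC1_mem_of_lt_one hK
    intro s hs0 hs1
    have h1 := caseC1_lowseq hL ha hw hwL ht hs0 hs1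
    have h2 : Tendsto (fun n => (μ (φ n) * (s * t)) • w (φ n)) atTop (𝓝 ((m * (s * t)) • a)) :=
      (hmφ.mul_const (s * t)).smul hwφ
    have h3 : s • (m * t) • a = (m * (s * t)) • a := by
      rw [smul_smul]; congr 1; ring
    rw [h3]
    apply hK.cpt.isClosed.mem_of_tendsto h2
    filter_upwards [hφ.tendsto_atTop.eventually h1] with n hn
    exact (hμQ _ _).1 hn
  · apply caseC1_mem_of_lt_one hL
    intro s hs0 hs1
    have h1 := caseC1_lowseq hK ha hw hwK ht hs0 hs1
    have h2 : Tendsto (fun n => ((s * (m * t)) / μ (φ n)) • w (φ n)) atTop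
        (𝓝 (((s * (m * t)) / m) • a)) :=
      (tendsto_const_nhds.div hmφ hmp.ne').smul hwφ
    have h3 : s • t • a = ((s * (m * t)) / m) • a := by
      rw [smul_smul]; congr 1; field_simp
    rw [h3]
    apply hL.cpt.isClosed.mem_of_tendsto h2
    filter_upwards [hφ.tendsto_atTop.eventually h1] with n hn
    rw [hμQ, mul_div_cancel₀ _ (hμ _).ne']
    exact hn

theorem caseC1 (hdim : Module.finrank ℝ V = 3) (h : Dat K L X l) (hU : U K = U L) {v : V} (hv : v ≠ 0) (hv' : v ∉ U L) : 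
    Hmt K L ∨ OneSided K := by
  by_cases hA : ∃ a u : V, u ≠ 0 ∧ (∃ v' : V, ⟪u, v'⟫ = 0 ∧ v' ≠ 0 ∧ v' ∉ U L) ∧ X u ≠ 0 ∧
      ∃ c : ℝ, c ≠ 0 ∧ a = c • X u
  swap
  · -- case 0
    left
    push Not at hA
    have hX0 : ∀ u, u ≠ 0 → ⟪u, v⟫ = 0 → X u = 0 := by
      intro u hu huv
      by_contra hx
      exact hA (X u) u hu ⟨v, huv, hv, hv'⟩ hx 1 one_ne_zero (by rw [one_smul])
    have hQ : ∀ w, caseC1_QQ K L w := by
      intro w
      obtain ⟨u, hu, h1, h2⟩ := exists_normal hdim v w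
      exact caseC1_QQ_of_zero h hu h2 (hX0 u hu h1)
    have hX : ∀ u, u ≠ 0 → X u = 0 := by
      intro u hu
      by_contra hx
      exact caseC1_not_QQ h hu hx one_ne_zero (by rw [one_smul]) (hQ (X u))
    by_cases hne : (U L).Nonempty
    · obtain ⟨a, ha⟩ := hne
      exact total hdim h ha fun u hu _ => ⟨0, by rw [zero_smul, hX u hu]⟩
    · rw [Set.not_nonempty_iff_eq_empty] at hne
      have hL0 : ∀ y, y ∈ L ↔ y = 0 := by
        intro y
        constructor
        · intro hy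
          by_contra h0
          have : y ∈ U L := ⟨h0, 1, one_pos, by rw [one_smul]; exact hy⟩
          rw [hne] at this
          exact this
        · rintro rfl
          exact h.sL.zero
      have hK0 : ∀ y, y ∈ K ↔ y = 0 := by
        intro y
        constructor
        · intro hy
          by_contra h0
          have : y ∈ U K := ⟨h0, 1, one_pos, by rw [one_smul]; exact hy⟩
          rw [hU, hne] at this
          exact this
        · rintro rfl
          exact h.sK.zero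
      refine ⟨0, 1, one_pos, fun y => ?_⟩
      rw [zero_add, one_smul, hL0, hK0]
  obtain ⟨a, ua, hua, -, hxa, ca, hca, haX⟩ := hA
  obtain ⟨ha1, ha2, ha3⟩ := caseC1_factsA h hU hua hxa hca haX
  have hlineA : ∀ b, b ∈ U L → -b ∈ U L → ¬ caseC1_QQ K L b → ∀ v' : V, v' ≠ 0 → v' ∉ U L → ∀ t : ℝ,
      v' + t • b ≠ 0 ∧ v' + t • b ∉ U L := by
    intro b hb1 hb2 hb3 v' hv0' hv'' t
    obtain ⟨u, hu, h1, h2⟩ := exists_normal hdim v' b
    exact (caseC1_keyN hdim h hU hb1 hb2 hb3 hu h2 h1 hv0' hv'').2 t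
  by_cases hA2 : ∃ a' u : V, u ≠ 0 ∧ (∃ v' : V, ⟪u, v'⟫ = 0 ∧ v' ≠ 0 ∧ v' ∉ U L) ∧ X u ≠ 0 ∧
      (∃ c : ℝ, c ≠ 0 ∧ a' = c • X u) ∧ LinearIndependent ℝ ![a, a']
  · -- case 1
    right
    obtain ⟨a', u', hu', -, hx', ⟨c', hc', haX'⟩, hind⟩ := hA2
    obtain ⟨hb1, hb2, hb3⟩ := caseC1_factsA h hU hu' hx' hc' haX'
    have hplane : ∀ α β : ℝ, v + α • a + β • a' ≠ 0 ∧ v + α • a + β • a' ∉ U L := by
      intro α β
      have h1 := hlineA a ha1 ha2 ha3 v hv hv' α
      exact hlineA a' hb1 hb2 hb3 _ h1.1 h1.2 β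
    obtain ⟨m, hm, hma, hma'⟩ := exists_normal hdim a a'
    have hmv : ⟪m, v⟫ ≠ 0 := by
      intro h0
      obtain ⟨α, β, h1⟩ := plane_coord hdim hm hma hma' h0 hind
      apply (hplane (-α) (-β)).1
      rw [h1, neg_smul, neg_smul]
      abel
    have hy : ∀ y, 0 < ⟪m, v⟫ * ⟪m, y⟫ → y ∉ U L := by
      intro y hy hyU
      obtain ⟨c, hc⟩ : ∃ c, c = ⟪m, y⟫ / ⟪m, v⟫ := ⟨_, rfl⟩
      have hcp : 0 < c := by
        rw [hc]
        have h1 : ⟪m, y⟫ / ⟪m, v⟫ = (⟪m, v⟫ * ⟪m, y⟫) / (⟪m, v⟫ * ⟪m, v⟫) := by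
          field_simp
        rw [h1]
        exact div_pos hy (mul_self_pos.2 hmv)
      have h1 : ⟪m, y - c • v⟫ = 0 := by
        rw [inner_sub_right, inner_smul_right, hc, div_mul_cancel₀ _ hmv, sub_self]
      obtain ⟨α, β, h2⟩ := plane_coord hdim hm hma hma' h1 hind
      apply (hplane (c⁻¹ * α) (c⁻¹ * β)).2
      have h3 : v + (c⁻¹ * α) • a + (c⁻¹ * β) • a' = c⁻¹ • y := by
        have h4 : y = c • v + (α • a + β • a') := by rw [← h2]; abel
        rw [h4, smul_add, smul_add, smul_smul, smul_smul, smul_smul, inv_mul_cancel₀ hcp.ne',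
          one_smul, add_assoc]
      rw [h3]
      exact U_smul hyU (inv_pos.2 hcp)
    refine ⟨⟪m, v⟫ • m, smul_ne_zero hmv hm, fun y hyK => ?_⟩
    rw [inner_smul_left]
    by_contra hcon
    rw [not_le] at hcon
    have hcon' : 0 < ⟪m, v⟫ * ⟪m, y⟫ := hcon
    apply hy y hcon'
    rw [← hU]
    refine ⟨?_, 1, one_pos, by rw [one_smul]; exact hyK⟩
    rintro rfl
    rw [inner_zero_right, mul_zero] at hcon'
    exact lt_irrefl _ hcon'
  · -- case 2
    left
    push Not at hA2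
    by_cases hall : ∀ u, u ≠ 0 → ⟪u, a⟫ = 0 → ∃ v' : V, ⟪u, v'⟫ = 0 ∧ v' ≠ 0 ∧ v' ∉ U L
    · apply total hdim h ha1
      intro u hu hua'
      obtain ⟨v', h1, h2, h3⟩ := hall u hu hua'
      obtain ⟨⟨c, hc, h4⟩, -⟩ := caseC1_keyN hdim h hU ha1 ha2 ha3 hu hua' h1 h2 h3
      refine ⟨c⁻¹, ?_⟩
      rw [h4, smul_smul, inv_mul_cancel₀ hc, one_smul]
    · exfalso
      push Not at hall
      obtain ⟨u1, hu1, hu1a, hS⟩ := hall
      obtain ⟨b, hb, hbu, hba⟩ := exists_normal hdim u1 a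
      have ha0 : a ≠ 0 := ha1.1
      have hbb : 0 < ⟪b, b⟫ := real_inner_self_pos.2 hb
      have hu1b : ⟪u1, b⟫ = 0 := by rw [real_inner_comm]; exact hbu
      have hind : LinearIndependent ℝ ![a, b] := by
        rw [LinearIndependent.pair_iff' ha0]
        intro c hc
        have h1 : ⟪b, c • a⟫ = 0 := by rw [inner_smul_right, hba, mul_zero]
        rw [hc] at h1
        linarith
      obtain ⟨s, hs⟩ : ∃ s : ℕ → ℝ, s = fun n : ℕ => 1 / ((n : ℝ) + 1) := ⟨_, rfl⟩
      have hs0 : ∀ n, 0 < s n := by intro n; rw [hs]; positivity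
      have hst : Tendsto s atTop (𝓝 0) := by rw [hs]; exact tendsto_one_div_add_atTop_nhds_zero_nat
      obtain ⟨w, hw⟩ : ∃ w : ℕ → V, ∀ n, w n = a + s n • b := ⟨_, fun n => rfl⟩
      have hwt : Tendsto w atTop (𝓝 a) := by
        have h1 : Tendsto (fun n => a + s n • b) atTop (𝓝 (a + (0 : ℝ) • b)) :=
          tendsto_const_nhds.add (hst.smul_const b)
        rw [zero_smul, add_zero] at h1
        have h2 : w = fun n => a + s n • b := funext hw
        rw [h2]
        exact h1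
      have hw1 : ∀ n, ⟪u1, w n⟫ = 0 := by
        intro n
        rw [hw, inner_add_right, hu1a, inner_smul_right, hu1b, mul_zero, add_zero]
      have hw0 : ∀ n, w n ≠ 0 := by
        intro n h0
        have h1 : ⟪b, w n⟫ = s n * ⟪b, b⟫ := by
          rw [hw, inner_add_right, hba, inner_smul_right, zero_add]
        rw [h0, inner_zero_right] at h1
        have := mul_pos (hs0 n) hbb
        linarith
      have hwL : ∀ n, w n ∈ U L ∧ -(w n) ∈ U L := by
        intro n
        refine ⟨hS (w n) (hw1 n) (hw0 n), hS (-(w n)) ?_ (neg_ne_zero.2 (hw0 n))⟩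
        rw [inner_neg_right, hw1, neg_zero]
      have hwK : ∀ n, w n ∈ U K ∧ -(w n) ∈ U K := by rw [hU]; exact hwL
      have hwQ : ∀ n, caseC1_QQ K L (w n) := by
        intro n
        obtain ⟨u, hu, h1, h2⟩ := exists_normal hdim v (w n)
        by_cases hx : X u = 0
        · exact caseC1_QQ_of_zero h hu h2 hx
        · exfalso
          have h3 := hA2 (X u) u hu ⟨v, h1, hv, hv'⟩ hx ⟨1, one_ne_zero, by rw [one_smul]⟩
          rw [LinearIndependent.pair_iff' ha0] at h3
          push Not at h3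
          obtain ⟨c, hc⟩ := h3
          have hc0 : c ≠ 0 := by
            rintro rfl
            rw [zero_smul] at hc
            exact hx hc.symm
          have h4 := (h.hm u hu).1
          rw [← hc, inner_smul_right] at h4
          have h5 : ⟪u, a⟫ = 0 := by
            rcases mul_eq_zero.1 h4 with h6 | h6
            · exact absurd h6 hc0
            · exact h6
          have h6 : ⟪u, b⟫ = 0 := by
            rw [hw, inner_add_right, h5, inner_smul_right, zero_add] at h2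
            rcases mul_eq_zero.1 h2 with h7 | h7
            · exact absurd h7 (hs0 n).ne'
            · exact h7
          obtain ⟨α, β, h7⟩ := plane_coord hdim hu h5 h6 h1 hind
          apply hv'
          apply hS v _ hv
          rw [h7, inner_add_right, inner_smul_right, inner_smul_right, hu1a, hu1b, mul_zero,
            mul_zero, add_zero]
      exact ha3 (caseC1_QQ_lim h.sK h.sL ha0 hwt hwK hwL (by rw [hU]; exact ha1) ha1 hwQ)

end JcaseC1

end Pool.Agent.Helper613.HS
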