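import Mathlib
import Pool.Agent.Helper613.HSTotal

open Set Filter Topology
open scoped RealInnerProductSpace

namespace Pool.Agent.Helper613.HS

namespace JcontXL


variable {V : Type} [NormedAddCommGroup V] [InnerProductSpace ℝ V]
variable {K L : Set V} {X : V → V} {l : V → ℝ}

























/-- correction of a vector to be orthogonal to `u` -/
noncomputable def corr (y u : V) : V := y - (⟪u, y⟫ / ‖u‖ ^ 2) • u

lemma inner_corr (y : V) {u : V} (hu : u ≠ 0) : ⟪u, corr y u⟫ = 0 := by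
  have : ‖u‖ ^ 2 ≠ 0 := pow_ne_zero 2 (norm_ne_zero_iff.2 hu)
  rw [corr, inner_sub_right, inner_smul_right, real_inner_self_eq_norm_sq, div_mul_cancel₀ _ this, sub_self]

lemma tendsto_corr {u0 y : V} (hu0 : u0 ≠ 0) (hy : ⟪u0, y⟫ = 0) : Tendsto (fun u => corr y u) (𝓝 u0) (𝓝 y) := by
  have h1 : Tendsto (fun u : V => corr y u) (𝓝 u0) (𝓝 (corr y u0)) := by
    unfold corr
    refine tendsto_const_nhds.sub (Tendsto.smul (Tendsto.div ?_ ?_ ?_) tendsto_id)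
    · exact (tendsto_id (α := V)).inner tendsto_const_nhds
    · exact ((continuous_norm.pow 2).tendsto u0)
    · exact pow_ne_zero 2 (norm_ne_zero_iff.2 hu0)
  have h2 : corr y u0 = y := by rw [corr, hy, zero_div, zero_smul, sub_zero]
  rwa [h2] at h1

lemma U_of_mem {K : Set V} {y : V} (hy : y ∈ K) (h : y ≠ 0) : y ∈ U K := ⟨h, 1, one_pos, by rwa [one_smul]⟩

lemma upper_bound (h : Dat K L X l) {u0 v0 : V} (hu0 : u0 ≠ 0) (h0 : ⟪u0, v0⟫ = 0)
    (hev : ∀ᶠ v in 𝓝 v0, v ∈ U L) : ∃ C : ℝ, 0 < C ∧ ∀ᶠ u in 𝓝 u0, l u ≤ C := by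
  obtain ⟨hv0, t0, ht0, ht0L⟩ := hev.self_of_nhds
  obtain ⟨R, hR⟩ := h.sK.cpt.isBounded.exists_norm_le
  have hR0 : 0 ≤ R := (norm_nonneg _).trans (hR 0 h.sK.zero)
  have hne : ∀ᶠ u in 𝓝 u0, u ≠ 0 := isOpen_ne.mem_nhds hu0
  have hc := tendsto_corr hu0 h0
  have hc2 : Tendsto (fun u => t0 • corr v0 u) (𝓝 u0) (𝓝 (t0 • v0)) := hc.const_smul t0
  have e1 := hc2.eventually (h.sL.low (t0 • v0) ht0L (smul_ne_zero ht0.ne' hv0) (1/2) (by norm_num) (by norm_num))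
  have e2 := hc.eventually hev
  have hpos : 0 < t0 * ‖v0‖ := mul_pos ht0 (norm_pos_iff.2 hv0)
  have e3 : ∀ᶠ u in 𝓝 u0, t0 * ‖v0‖ / 2 < ‖t0 • corr v0 u‖ := by
    refine hc2.norm.eventually (lt_mem_nhds ?_)
    rw [norm_smul, Real.norm_of_nonneg ht0.le]
    linarith
  refine ⟨(2 * R + 1) / (t0 * ‖v0‖ / 4), by positivity, ?_⟩
  filter_upwards [hne, e1, e2, e3] with u hu f1 f2 f3
  have g1 := f1 (U_smul f2 ht0)
  obtain ⟨q1, q2, q3⟩ := h.hm u hu
  have g2 : ⟪u, (1/2 : ℝ) • t0 • corr v0 u⟫ = 0 := by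
    rw [inner_smul_right, inner_smul_right, inner_corr v0 hu, mul_zero, mul_zero]
  have g3 := (q3 _ g2).1 g1
  have g4 := hR _ g3
  have g5 := hR _ (x_mem_K h hu)
  have g6 : ‖l u • (1/2 : ℝ) • t0 • corr v0 u‖ ≤ 2 * R := by
    calc ‖l u • (1/2 : ℝ) • t0 • corr v0 u‖ = ‖(X u + l u • (1/2 : ℝ) • t0 • corr v0 u) - X u‖ := by
          rw [add_sub_cancel_left]
      _ ≤ ‖X u + l u • (1/2 : ℝ) • t0 • corr v0 u‖ + ‖X u‖ := norm_sub_le _ _
      _ ≤ 2 * R := by linarith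
  rw [norm_smul, norm_smul, Real.norm_of_nonneg q2.le, Real.norm_of_nonneg (by norm_num : (0:ℝ) ≤ 1/2)] at g6
  rw [le_div_iff₀ (by positivity)]
  have g7 : l u * (t0 * ‖v0‖ / 2) ≤ l u * ‖t0 • corr v0 u‖ := mul_le_mul_of_nonneg_left f3.le q2.le
  linarith

lemma key_claim (h : Dat K L X l) {u0 e0 : V} (hu0 : u0 ≠ 0) (he0 : ⟪u0, e0⟫ = 0)
    (hadd : ∀ y ∈ U L, ∀ᶠ ε in 𝓝[>] (0 : ℝ), ∀ᶠ z in 𝓝 (y + ε • e0), z ∈ U L)
    {F : Filter V} [F.NeBot] (hF : F ≤ 𝓝 u0) {x' : V} {l' : ℝ} (hX : Tendsto X F (𝓝 x')) (hl : Tendsto l F (𝓝 l'))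
    {y : V} (hy0 : ⟪u0, y⟫ = 0) (hy : y ∈ L) : x' + l' • y ∈ K := by
  have hneU : ∀ᶠ u in F, u ≠ 0 := hF (isOpen_ne.mem_nhds hu0)
  have hKc : IsClosed K := h.sK.cpt.isClosed
  by_cases hyz : y = 0
  · subst hyz
    rw [smul_zero, add_zero]
    refine hKc.mem_of_tendsto hX ?_
    filter_upwards [hneU] with u hu using x_mem_K h hu
  have hyU : y ∈ U L := U_of_mem hy hyz
  have step : ∀ s : ℝ, 0 ≤ s → s < 1 → x' + l' • s • y ∈ K := by
    intro s hs0 hs1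
    have a1 := h.sL.low y hy hyz s hs0 hs1
    have a2 : Tendsto (fun ε : ℝ => y + ε • e0) (𝓝[>] 0) (𝓝 y) := by
      have : Tendsto (fun ε : ℝ => y + ε • e0) (𝓝 0) (𝓝 (y + (0:ℝ) • e0)) :=
        tendsto_const_nhds.add (tendsto_id.smul_const e0)
      rw [zero_smul, add_zero] at this
      exact this.mono_left nhdsWithin_le_nhds
    have a3 := a2.eventually (eventually_eventually_nhds.2 a1)
    have a4 : ∀ᶠ ε in 𝓝[>] (0 : ℝ), x' + l' • s • (y + ε • e0) ∈ K := by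
      filter_upwards [a3, hadd y hyU] with ε b1 b2
      have b3 : ∀ᶠ z in 𝓝 (y + ε • e0), s • z ∈ L := by
        filter_upwards [b1, b2] with z c1 c2 using c1 c2
      have b4 : ⟪u0, y + ε • e0⟫ = 0 := by
        rw [inner_add_right, inner_smul_right, hy0, he0, mul_zero, add_zero]
      have b5 : Tendsto (fun u => corr (y + ε • e0) u) F (𝓝 (y + ε • e0)) := (tendsto_corr hu0 b4).mono_left hF
      have b6 := b5.eventually b3
      have b7 : Tendsto (fun u => X u + l u • s • corr (y + ε • e0) u) F (𝓝 (x' + l' • s • (y + ε • e0))) :=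
        hX.add (hl.smul (b5.const_smul s))
      refine hKc.mem_of_tendsto b7 ?_
      filter_upwards [hneU, b6] with u hu d1
      refine ((h.hm u hu).2.2 _ ?_).1 d1
      rw [inner_smul_right, inner_corr _ hu, mul_zero]
    have a5 : Tendsto (fun ε : ℝ => x' + l' • s • (y + ε • e0)) (𝓝[>] 0) (𝓝 (x' + l' • s • y)) :=
      tendsto_const_nhds.add ((a2.const_smul s).const_smul l')
    exact hKc.mem_of_tendsto a5 a4
  have b1 : Tendsto (fun s : ℝ => x' + l' • s • y) (𝓝[<] 1) (𝓝 (x' + l' • (1:ℝ) • y)) := by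
    have : Tendsto (fun s : ℝ => x' + l' • s • y) (𝓝 1) (𝓝 (x' + l' • (1:ℝ) • y)) :=
      tendsto_const_nhds.add ((tendsto_id.smul_const y).const_smul l')
    exact this.mono_left nhdsWithin_le_nhds
  rw [one_smul] at b1
  refine hKc.mem_of_tendsto b1 ?_
  filter_upwards [Ioo_mem_nhdsLT (zero_lt_one (α := ℝ))] with s hs
  exact step s hs.1.le hs.2

/- TARGET: prove this (replace sorry). Auxiliary lemmas before it are welcome. -/

/-- continuity -/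
theorem cont_XL (hdim : Module.finrank ℝ V = 3) (h : Dat K L X l) {G : Set V} (hG : Gd K L X G) {u0 g0 : V} (hu0 : u0 ≠ 0) 
    (hg0 : g0 ∈ interior G) (h0 : ⟪u0, g0⟫ = 0) : ContinuousAt (fun u => (X u, l u)) u0 := by
  have : FiniteDimensional ℝ V := FiniteDimensional.of_finrank_pos (by rw [hdim]; norm_num)
  have hGint : ∀ᶠ g in 𝓝 g0, g ∈ interior G := isOpen_interior.mem_nhds hg0
  have hGn : ∀ᶠ g in 𝓝 g0, g ∈ G := hGint.mono (fun g hg => interior_subset hg)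
  have hev1 : ∀ᶠ v in 𝓝 g0, v ∈ U L := hGn.mono (fun g hg => hG.subL g hg)
  have hneg : Tendsto (fun v : V => -v) (𝓝 (-g0)) (𝓝 g0) := by
    have := (continuous_neg (G := V)).tendsto (-g0)
    rwa [neg_neg] at this
  have hev2 : ∀ᶠ v in 𝓝 (-g0), v ∈ U K := by
    filter_upwards [hneg.eventually hGn] with v hv
    have := hG.neg _ hv
    rwa [neg_neg] at this
  have hn0 : ⟪u0, -g0⟫ = 0 := by rw [inner_neg_right, h0, neg_zero]
  obtain ⟨C, hC, hCb⟩ := upper_bound h hu0 h0 hev1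
  obtain ⟨C', hC', hCb'⟩ := upper_bound h.swap hu0 hn0 hev2
  obtain ⟨R, hR⟩ := h.sK.cpt.isBounded.exists_norm_le
  have hne : ∀ᶠ u in 𝓝 u0, u ≠ 0 := isOpen_ne.mem_nhds hu0
  have hbd : ∀ᶠ u in 𝓝 u0, (X u, l u) ∈ Metric.closedBall (0 : V) R ×ˢ Icc (1 / C') C := by
    filter_upwards [hne, hCb, hCb'] with u hu f1 f2
    refine ⟨?_, ?_, f1⟩
    · rw [mem_closedBall_zero_iff]
      exact hR _ (x_mem_K h hu)
    · have hl0 := (h.hm u hu).2.1
      rw [one_div]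
      exact inv_le_of_inv_le₀ hl0 f2
  refine IsCompact.tendsto_nhds_of_unique_mapClusterPt ((isCompact_closedBall (0 : V) R).prod isCompact_Icc) hbd ?_
  rintro ⟨x', l'⟩ ⟨-, hl1, -⟩ hx'
  have hl' : 0 < l' := lt_of_lt_of_le (by positivity) hl1
  obtain ⟨F, hU1, hU2⟩ := mapClusterPt_iff_ultrafilter.1 hx'
  have hU2x : Tendsto X F (𝓝 x') := (continuous_fst.tendsto _).comp hU2
  have hU2s : Tendsto l F (𝓝 l') := (continuous_snd.tendsto _).comp hU2
  have hneU : ∀ᶠ u in (F : Filter V), u ≠ 0 := hU1 hne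
  have hid : Tendsto (fun u : V => u) F (𝓝 u0) := tendsto_id.mono_left hU1
  have o1 : ⟪u0, x'⟫ = 0 := by
    have h1 : Tendsto (fun u => ⟪u, X u⟫) F (𝓝 ⟪u0, x'⟫) := hid.inner hU2x
    have h2 : Tendsto (fun u => ⟪u, X u⟫) F (𝓝 0) := by
      refine tendsto_const_nhds.congr' ?_
      filter_upwards [hneU] with u hu using ((h.hm u hu).1).symm
    exact tendsto_nhds_unique h1 h2
  have hgε : ∀ ε : ℝ, 0 < ε → ∀ᶠ g in 𝓝 (ε • g0), g ∈ G := by
    intro ε hε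
    have t1 : Tendsto (fun g : V => ε⁻¹ • g) (𝓝 (ε • g0)) (𝓝 g0) := by
      have := (continuous_const_smul (T := V) ε⁻¹).tendsto (ε • g0)
      rwa [inv_smul_smul₀ hε.ne'] at this
    filter_upwards [t1.eventually hGn] with g hg
    have := hG.smul _ hg ε hε
    rwa [smul_inv_smul₀ hε.ne'] at this
  have hnz : ∀ (y e : V), y ≠ 0 → ∀ᶠ ε in 𝓝[>] (0:ℝ), y + ε • e ≠ 0 := by
    intro y e hy
    have : Tendsto (fun ε : ℝ => y + ε • e) (𝓝 0) (𝓝 (y + (0:ℝ) • e)) :=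
      tendsto_const_nhds.add (tendsto_id.smul_const e)
    rw [zero_smul, add_zero] at this
    exact (this.mono_left nhdsWithin_le_nhds).eventually (isOpen_ne.mem_nhds hy)
  have hadd1 : ∀ y ∈ U L, ∀ᶠ ε in 𝓝[>] (0 : ℝ), ∀ᶠ z in 𝓝 (y + ε • g0), z ∈ U L := by
    intro y hy
    filter_upwards [hnz y g0 hy.1, self_mem_nhdsWithin] with ε h1 h2
    have hε : (0:ℝ) < ε := h2
    have t1 : Tendsto (fun z : V => z - y) (𝓝 (y + ε • g0)) (𝓝 (ε • g0)) := by
      have := ((continuous_id (X := V)).sub continuous_const).tendsto (y + ε • g0) (f := fun z : V => z - y)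
      rwa [add_sub_cancel_left] at this
    filter_upwards [t1.eventually (hgε ε hε), isOpen_ne.mem_nhds h1] with z c1 c2
    have c3 : y + (z - y) = z := by abel
    have := hG.addL _ c1 y hy (by rw [c3]; exact c2)
    rwa [c3] at this
  have hadd2 : ∀ y ∈ U K, ∀ᶠ ε in 𝓝[>] (0 : ℝ), ∀ᶠ z in 𝓝 (y + ε • (-g0)), z ∈ U K := by
    intro y hy
    filter_upwards [hnz y (-g0) hy.1, self_mem_nhdsWithin] with ε h1 h2
    have hε : (0:ℝ) < ε := h2
    have t1 : Tendsto (fun z : V => y - z) (𝓝 (y + ε • (-g0))) (𝓝 (ε • g0)) := by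
      have := (continuous_const.sub (continuous_id (X := V))).tendsto (y + ε • (-g0)) (f := fun z : V => y - z)
      have e : y - (y + ε • (-g0)) = ε • g0 := by rw [smul_neg]; abel
      rwa [e] at this
    filter_upwards [t1.eventually (hgε ε hε), isOpen_ne.mem_nhds h1] with z c1 c2
    have c3 : y - (y - z) = z := by abel
    have := hG.subtK _ c1 y hy (by rw [c3]; exact c2)
    rwa [c3] at this
  have hli : Tendsto (fun u => (l u)⁻¹) F (𝓝 l'⁻¹) := hU2s.inv₀ hl'.ne'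
  have hXi : Tendsto (fun u => -((l u)⁻¹ • X u)) F (𝓝 (-(l'⁻¹ • x'))) := (hli.smul hU2x).neg
  have hiff : ∀ y, ⟪u0, y⟫ = 0 → (y ∈ L ↔ x' + l' • y ∈ K) := by
    intro y hy
    constructor
    · intro hyL
      exact key_claim h hu0 h0 hadd1 hU1 hU2x hU2s hy hyL
    · intro hyK
      have hz : ⟪u0, x' + l' • y⟫ = 0 := by rw [inner_add_right, inner_smul_right, o1, hy, mul_zero, add_zero]
      have := key_claim h.swap hu0 hn0 hadd2 hU1 hXi hli hz hyK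
      have e : -(l'⁻¹ • x') + l'⁻¹ • (x' + l' • y) = y := by
        rw [smul_add, inv_smul_smul₀ hl'.ne', neg_add_cancel_left]
      rwa [e] at this
  obtain ⟨q1, q2, q3⟩ := h.hm u0 hu0
  obtain ⟨hgne, t0, ht0, ht0L⟩ := hev1.self_of_nhds
  have conv : ∀ (x : V) (r : ℝ), ⟪u0, x⟫ = 0 → 0 < r → (∀ y, ⟪u0, y⟫ = 0 → (y ∈ L ↔ x + r • y ∈ K)) →
      ∀ y, y ∈ L ∩ {y | ⟪u0, y⟫ = 0} ↔ x + r • y ∈ K ∩ {y | ⟪u0, y⟫ = 0} := by
    intro x r hx hr hxr y
    have e : ⟪u0, x + r • y⟫ = r * ⟪u0, y⟫ := by rw [inner_add_right, inner_smul_right, hx, zero_add]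
    constructor
    · rintro ⟨a1, a2⟩
      have a2' : ⟪u0, y⟫ = 0 := a2
      refine ⟨(hxr y a2').1 a1, ?_⟩
      rw [Set.mem_ofPred_eq, e, a2', mul_zero]
    · rintro ⟨a1, a2⟩
      rw [Set.mem_ofPred_eq, e] at a2
      have a2' : ⟪u0, y⟫ = 0 := by
        rcases mul_eq_zero.1 a2 with h1 | h1
        · exact absurd h1 hr.ne'
        · exact h1
      exact ⟨(hxr y a2').2 a1, a2'⟩
  obtain ⟨r1, r2⟩ := uniq (A := L ∩ {y | ⟪u0, y⟫ = 0}) (B := K ∩ {y | ⟪u0, y⟫ = 0})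
    (h.sL.cpt.isBounded.subset Set.inter_subset_left) (a := 0) (b := t0 • g0)
    ⟨h.sL.zero, by simp⟩ ⟨ht0L, by rw [Set.mem_ofPred_eq, inner_smul_right, h0, mul_zero]⟩
    (smul_ne_zero ht0.ne' hgne).symm hl' q2 (conv x' l' o1 hl' hiff) (conv (X u0) (l u0) q1 q2 q3)
  rw [r1, r2]

end JcontXL

end Pool.Agent.Helper613.HS
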