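import Mathlib
import Pool.Agent.Helper613.HSTotal

open Set Filter Topology
open scoped RealInnerProductSpace

namespace Pool.Agent.Helper613.HS

namespace Jexistsphi

variable {V : Type} [NormedAddCommGroup V] [InnerProductSpace ℝ V]
variable {K L : Set V} {X : V → V} {l : V → ℝ}

/- TARGET: prove this (replace sorry). Auxiliary lemmas before it are welcome. -/

open scoped Pointwise in
theorem exists_phi_sup (S T : Set ℝ) (c : ℝ) (hc : 0 < c) (h : ∀ r, r ∈ T ↔ c⁻¹ * r ∈ S) :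
    sSup T = c * sSup S := by
  have h1 : T = c • S := by
    ext r
    rw [Set.mem_smul_set_iff_inv_smul_mem₀ hc.ne']
    exact h r
  rw [h1, Real.sSup_smul_of_nonneg hc.le, smul_eq_mul]

theorem exists_phi {P G : Set V} {g0 b1 b2 : V} (hg0 : g0 ∈ interior G) (hP0 : (0 : V) ∉ P) (hPc : ∀ y ∈ P, ∀ c : ℝ, 0 < c → c • y ∈ P) 
    (hGc : ∀ g ∈ G, ∀ c : ℝ, 0 < c → c • g ∈ G) (hdown : ∀ y ∈ P, ∀ g ∈ G, y - g = 0 ∨ y - g ∈ P) (hneg : ∀ g ∈ G, -g ∈ P) (hpos : ∀ g ∈ G, g ∉ P) : 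
    ∃ φ : ℝ × ℝ → ℝ, Continuous φ ∧ (∀ (c : ℝ) (v : ℝ × ℝ), 0 < c → φ (c • v) = c * φ v) ∧ 
      (∀ (v : ℝ × ℝ) (r : ℝ), r < φ v → v.1 • b1 + v.2 • b2 + r • g0 = 0 ∨ v.1 • b1 + v.2 • b2 + r • g0 ∈ P) ∧ 
      (∀ (v : ℝ × ℝ) (r : ℝ), φ v < r → v.1 • b1 + v.2 • b2 + r • g0 ∉ P) := by
  classical
  have hg0G : g0 ∈ G := interior_subset hg0
  obtain ⟨ρ, hρ, hball⟩ : ∃ ρ > 0, Metric.ball g0 ρ ⊆ G := by
    obtain ⟨ρ, hρ, h⟩ := Metric.isOpen_iff.1 isOpen_interior g0 hg0
    exact ⟨ρ, hρ, h.trans interior_subset⟩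
  -- the cone `G` contains `s • g0 + w` for `‖w‖ < s ρ`
  have hA : ∀ (s : ℝ) (w : V), 0 < s → ‖w‖ < s * ρ → s • g0 + w ∈ G := by
    intro s w hs hw
    have h1 : g0 + s⁻¹ • w ∈ G := by
      apply hball
      rw [Metric.mem_ball, dist_eq_norm, add_sub_cancel_left, norm_smul, norm_inv,
        Real.norm_of_nonneg hs.le, inv_mul_lt_iff₀ hs]
      exact hw
    have h2 := hGc _ h1 s hs
    rwa [smul_add, smul_smul, mul_inv_cancel₀ hs.ne', one_smul] at h2
  set Y : ℝ × ℝ → V := fun v => v.1 • b1 + v.2 • b2 with hY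
  have hYc : Continuous Y := by
    simp only [hY]
    fun_prop
  set S : ℝ × ℝ → Set ℝ := fun v => {r | Y v + r • g0 ∈ P} with hS
  have hne : ∀ v, (S v).Nonempty := by
    intro v
    have hs : 0 < (‖Y v‖ + 1) / ρ := by positivity
    refine ⟨-((‖Y v‖ + 1) / ρ), ?_⟩
    show Y v + (-((‖Y v‖ + 1) / ρ)) • g0 ∈ P
    have h1 := hneg _ (hA ((‖Y v‖ + 1) / ρ) (-(Y v)) hs (by
      rw [norm_neg, div_mul_cancel₀ _ hρ.ne']
      linarith))
    convert h1 using 1
    rw [neg_smul]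
    abel
  have hbdd : ∀ v, BddAbove (S v) := by
    intro v
    refine ⟨(‖Y v‖ + 1) / ρ, fun r hr => ?_⟩
    by_contra hcon
    push Not at hcon
    have hs : 0 < (‖Y v‖ + 1) / ρ := by positivity
    have h1 := hA r (Y v) (hs.trans hcon) (by
      rw [div_lt_iff₀ hρ] at hcon
      linarith)
    rw [add_comm] at h1
    exact hpos _ h1 hr
  have hlt : ∀ (v : ℝ × ℝ) (r : ℝ), r < sSup (S v) → Y v + r • g0 = 0 ∨ Y v + r • g0 ∈ P := by
    intro v r hr
    obtain ⟨r1, hr1, hlt⟩ := exists_lt_of_lt_csSup (hne v) hr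
    have h1 := hdown _ hr1 _ (hGc _ hg0G (r1 - r) (by linarith))
    have h2 : Y v + r1 • g0 - (r1 - r) • g0 = Y v + r • g0 := by
      rw [sub_smul]
      abel
    rwa [h2] at h1
  have hlip : ∀ (v v' : ℝ × ℝ) (s : ℝ), 0 < s → ‖Y v' - Y v‖ < s * ρ →
      sSup (S v) ≤ sSup (S v') + s := by
    intro v v' s hs hvs
    apply csSup_le (hne v)
    intro r hr
    have h1 := hdown _ hr _ (hA s (-(Y v' - Y v)) hs (by rwa [norm_neg]))
    have h2 : Y v + r • g0 - (s • g0 + -(Y v' - Y v)) = Y v' + (r - s) • g0 := by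
      rw [sub_smul]
      abel
    rw [h2] at h1
    rcases h1 with h1 | h1
    · have h3 : ∀ η > 0, r ≤ sSup (S v') + s + η := by
        intro η hη
        have h4 : r - s - η ∈ S v' := by
          show Y v' + (r - s - η) • g0 ∈ P
          have h5 := hneg _ (hGc _ hg0G η hη)
          have h6 : Y v' + (r - s - η) • g0 = -(η • g0) := by
            rw [sub_smul (r - s) η, ← add_sub_assoc, h1, zero_sub]
          rw [h6]
          exact h5
        have := le_csSup (hbdd v') h4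
        linarith
      exact le_of_forall_pos_le_add h3
    · have := le_csSup (hbdd v') (show r - s ∈ S v' from h1)
      linarith
  have hlip2 : ∀ v v' : ℝ × ℝ, sSup (S v) ≤ sSup (S v') + ‖Y v' - Y v‖ / ρ := by
    intro v v'
    refine le_of_forall_pos_le_add fun η hη => ?_
    have h0 : 0 ≤ ‖Y v' - Y v‖ / ρ := by positivity
    have := hlip v v' (‖Y v' - Y v‖ / ρ + η) (by linarith) (by
      rw [add_mul, div_mul_cancel₀ _ hρ.ne']
      have := mul_pos hη hρ
      linarith)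
    linarith
  refine ⟨fun v => sSup (S v), ?_, ?_, hlt, ?_⟩
  · rw [continuous_iff_continuousAt]
    intro v0
    show Tendsto (fun v => sSup (S v)) (𝓝 v0) (𝓝 (sSup (S v0)))
    rw [tendsto_iff_dist_tendsto_zero]
    have hb : ∀ v, dist (sSup (S v)) (sSup (S v0)) ≤ ‖Y v - Y v0‖ / ρ := by
      intro v
      rw [Real.dist_eq, abs_le]
      have h1 := hlip2 v v0
      have h2 := hlip2 v0 v
      rw [norm_sub_rev] at h1
      constructor <;> linarith
    have hl : Tendsto (fun v => ‖Y v - Y v0‖ / ρ) (𝓝 v0) (𝓝 0) := by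
      have : Tendsto (fun v => ‖Y v - Y v0‖ / ρ) (𝓝 v0) (𝓝 (‖Y v0 - Y v0‖ / ρ)) := by
        apply Continuous.tendsto
        fun_prop
      simpa using this
    exact squeeze_zero (fun _ => dist_nonneg) hb hl
  · intro c v hc
    refine exists_phi_sup (S v) (S (c • v)) c hc ?_
    · intro r
      show Y (c • v) + r • g0 ∈ P ↔ Y v + (c⁻¹ * r) • g0 ∈ P
      have h1 : Y (c • v) + r • g0 = c • (Y v + (c⁻¹ * r) • g0) := by
        simp only [hY, Prod.smul_fst, Prod.smul_snd, smul_add, smul_smul, smul_eq_mul]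
        rw [← mul_assoc, mul_inv_cancel₀ hc.ne', one_mul]
      constructor
      · intro h
        have h2 := hPc _ h c⁻¹ (inv_pos.2 hc)
        rwa [h1, smul_smul, inv_mul_cancel₀ hc.ne', one_smul] at h2
      · intro h
        rw [h1]
        exact hPc _ h c hc
  · intro v r hr
    exact fun h => notMem_of_csSup_lt (s := S v) hr (hbdd v) h

end Jexistsphi

end Pool.Agent.Helper613.HS
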