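import Mathlib
import Pool.Agent.Helper613.HSTotal

open Set Filter Topology
open scoped RealInnerProductSpace

namespace Pool.Agent.Helper613.HS

namespace Jfinalcontra


variable {V : Type} [NormedAddCommGroup V] [InnerProductSpace ℝ V]
variable {K L : Set V} {X : V → V} {l : V → ℝ}
























/- TARGET: prove this (replace sorry). Auxiliary lemmas before it are welcome. -/

theorem X_smul (h : Dat K L X l) {u p : V} (hu : u ≠ 0) (hp : p ∈ U L) (hup : ⟪u, p⟫ = 0) {κ : ℝ} (hκ : κ ≠ 0) :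
    X (κ • u) = X u := by
  obtain ⟨hp0, t, ht, htp⟩ := hp
  have hκu : κ • u ≠ 0 := smul_ne_zero hκ hu
  obtain ⟨a1, a2, a3⟩ := h.hm u hu
  obtain ⟨b1, b2, b3⟩ := h.hm (κ • u) hκu
  have hz : ∀ y : V, ⟪κ • u, y⟫ = 0 ↔ ⟪u, y⟫ = 0 := by
    intro y
    rw [real_inner_smul_left]
    constructor
    · intro h1
      rcases mul_eq_zero.1 h1 with h2 | h2
      · exact absurd h2 hκ
      · exact h2
    · intro h1; rw [h1, mul_zero]
  have b1' : ⟪u, X (κ • u)⟫ = 0 := (hz _).1 b1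
  have key : ∀ (x : V) (r : ℝ), ⟪u, x⟫ = 0 → 0 < r → (∀ y, ⟪u, y⟫ = 0 → (y ∈ L ↔ x + r • y ∈ K)) →
      ∀ y, y ∈ (L ∩ {y | ⟪u, y⟫ = 0}) ↔ x + r • y ∈ (K ∩ {y | ⟪u, y⟫ = 0}) := by
    intro x r hx hr hxy y
    constructor
    · rintro ⟨h1, h2⟩
      have h2' : ⟪u, y⟫ = 0 := h2
      refine ⟨(hxy y h2').1 h1, ?_⟩
      show ⟪u, x + r • y⟫ = 0
      rw [inner_add_right, real_inner_smul_right, hx, h2']; ring
    · rintro ⟨h1, h2⟩
      have h2' : ⟪u, x + r • y⟫ = 0 := h2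
      rw [inner_add_right, real_inner_smul_right, hx, zero_add] at h2'
      have h3 : ⟪u, y⟫ = 0 := by
        rcases mul_eq_zero.1 h2' with h4 | h4
        · exact absurd h4 hr.ne'
        · exact h4
      exact ⟨(hxy y h3).2 h1, h3⟩
  have hA : Bornology.IsBounded (L ∩ {y : V | ⟪u, y⟫ = 0}) := h.sL.cpt.isBounded.subset Set.inter_subset_left
  have ha : (0 : V) ∈ L ∩ {y : V | ⟪u, y⟫ = 0} := ⟨h.sL.zero, by simp⟩
  have hb : t • p ∈ L ∩ {y : V | ⟪u, y⟫ = 0} := by
    refine ⟨htp, ?_⟩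
    show ⟪u, t • p⟫ = 0
    rw [real_inner_smul_right, hup, mul_zero]
  have hab : (0 : V) ≠ t • p := (smul_ne_zero ht.ne' hp0).symm
  have := uniq hA ha hb hab b2 a2
    (key (X (κ • u)) (l (κ • u)) b1' b2 (fun y hy => b3 y ((hz y).2 hy)))
    (key (X u) (l u) a1 a2 a3)
  exact this.1

theorem final_contra (hdim : Module.finrank ℝ V = 3) (h : Dat K L X l) {G : Set V} (hG : Gd K L X G) 
    (hcont : ∀ u0 g0 : V, u0 ≠ 0 → g0 ∈ interior G → ⟪u0, g0⟫ = 0 → ContinuousAt X u0) (hint : (interior G).Nonempty) {e : V} (he : e ≠ 0)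
    (hall : ∀ O : Set V, IsOpen O → (∀ y ∈ O, ∀ t : ℝ, 0 < t → t • y ∈ O) → O.Nonempty → O ⊆ interior G → 
      ∃ p ∈ O, ∃ u, u ≠ 0 ∧ ⟪u, p⟫ = 0 ∧ ⟪u, e⟫ = 0 ∧ ∃ c : ℝ, X u = c • p) : False := by
  have : FiniteDimensional ℝ V := FiniteDimensional.of_finrank_pos (by omega)
  have hGL : ∀ g ∈ interior G, g ∈ U L := fun g hg => hG.subL g (interior_subset hg)
  have hG0 : ∀ g ∈ G, g ≠ 0 := fun g hg => (hG.subL g hg).1
  -- scaling of the interior
  have hscale : ∀ y ∈ interior G, ∀ s : ℝ, 0 < s → s • y ∈ interior G := by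
    intro y hy s hs
    have h1 : ((fun w : V => s⁻¹ • w) ⁻¹' interior G) ⊆ G := by
      intro w hw
      have h3 := hG.smul _ (interior_subset hw) s hs
      simpa only [smul_smul, mul_inv_cancel₀ hs.ne', one_smul] using h3
    have h2 : IsOpen ((fun w : V => s⁻¹ • w) ⁻¹' interior G) :=
      isOpen_interior.preimage (by fun_prop)
    apply interior_maximal h1 h2
    show s⁻¹ • (s • y) ∈ interior G
    rw [smul_smul, inv_mul_cancel₀ hs.ne', one_smul]
    exact hy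
  -- small perturbations
  have hpert : ∀ y ∈ interior G, ∀ v : V, ∃ ε : ℝ, 0 < ε ∧ y + ε • v ∈ interior G := by
    intro y hy v
    have hc : Continuous (fun ε : ℝ => y + ε • v) := by fun_prop
    have h1 : (fun ε : ℝ => y + ε • v) ⁻¹' (interior G) ∈ 𝓝 (0 : ℝ) := by
      apply hc.continuousAt.preimage_mem_nhds
      simp only [zero_smul, add_zero]
      exact isOpen_interior.mem_nhds hy
    obtain ⟨δ, hδ, hball⟩ := Metric.mem_nhds_iff.1 h1
    refine ⟨δ / 2, by positivity, ?_⟩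
    apply hball
    rw [Metric.mem_ball, Real.dist_eq, sub_zero, abs_of_pos (by positivity)]
    linarith
  -- a point not parallel to `e`
  obtain ⟨g0, hg0, hg0e⟩ : ∃ g0 ∈ interior G, ∀ c : ℝ, g0 ≠ c • e := by
    obtain ⟨g, hg⟩ := hint
    by_cases hge : ∃ c : ℝ, g = c • e
    · obtain ⟨c, hc⟩ := hge
      obtain ⟨v, hv0, hv1, -⟩ := exists_normal hdim e e
      obtain ⟨ε, hε, hεg⟩ := hpert g hg v
      refine ⟨g + ε • v, hεg, ?_⟩
      intro c' hc'
      have h1 : ⟪v, g + ε • v⟫ = ⟪v, c' • e⟫ := by rw [hc']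
      rw [inner_add_right, hc, real_inner_smul_right, real_inner_smul_right, real_inner_smul_right, hv1] at h1
      have h2 : ε * ⟪v, v⟫ = 0 := by linarith
      rcases mul_eq_zero.1 h2 with h3 | h3
      · exact hε.ne' h3
      · exact hv0 (inner_self_eq_zero.1 h3)
    · push Not at hge
      exact ⟨g, hg, hge⟩
  obtain ⟨u0, hu0, hu0g, hu0e⟩ := exists_normal hdim g0 e
  have hX0 : X u0 ≠ 0 := by
    intro h0
    have h1 := hG.zer u0 hu0 g0 (interior_subset hg0) hu0g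
    rw [h0, neg_zero] at h1
    exact hG0 0 h1 rfl
  -- choose g
  obtain ⟨g, hg, hge, hug, hXg⟩ : ∃ g ∈ interior G, (∀ c : ℝ, g ≠ c • e) ∧ ⟪u0, g⟫ = 0 ∧ ∀ c : ℝ, X u0 ≠ c • g := by
    by_cases hc : ∀ c : ℝ, X u0 ≠ c • g0
    · exact ⟨g0, hg0, hg0e, hu0g, hc⟩
    · push Not at hc
      obtain ⟨c, hc⟩ := hc
      obtain ⟨ε, hε, hg1⟩ := hpert g0 hg0 e
      refine ⟨g0 + ε • e, hg1, ?_, ?_, ?_⟩
      · intro c' hc'
        apply hg0e (c' - ε)
        rw [sub_smul, ← hc']; abel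
      · rw [inner_add_right, real_inner_smul_right, hu0g, hu0e]; ring
      · intro c' hc'
        rw [hc] at hc'
        -- (c - c') g0 = c' ε e
        have h1 : (c - c') • g0 = (c' * ε) • e := by
          rw [sub_smul, hc', smul_add, smul_smul]; abel
        by_cases hcc : c - c' = 0
        · rw [hcc, zero_smul] at h1
          have h2 : c' * ε = 0 := by
            by_contra hne
            exact (smul_ne_zero hne he) h1.symm
          have h3 : c' = 0 := by
            rcases mul_eq_zero.1 h2 with h4 | h4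
            · exact h4
            · exact absurd h4 hε.ne'
          have h4 : c = 0 := by linarith
          exact hX0 (by rw [hc, h4, zero_smul])
        · apply hg0e ((c - c')⁻¹ * (c' * ε))
          rw [mul_smul, ← h1, smul_smul, inv_mul_cancel₀ hcc, one_smul]
  have hg00 : g ≠ 0 := hG0 g (interior_subset hg)
  -- linear independence
  have hli : LinearIndependent ℝ ![g, e] := by
    rw [LinearIndependent.pair_iff]
    intro s t hst
    by_cases hs : s = 0
    · refine ⟨hs, ?_⟩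
      rw [hs, zero_smul, zero_add] at hst
      rcases smul_eq_zero.1 hst with h1 | h1
      · exact h1
      · exact absurd h1 he
    · exfalso
      apply hge (-(s⁻¹ * t))
      have h1 : s • g = -(t • e) := eq_neg_of_add_eq_zero_left hst
      have h2 : g = s⁻¹ • (s • g) := by rw [smul_smul, inv_mul_cancel₀ hs, one_smul]
      rw [h2, h1, smul_neg, neg_smul, smul_smul]
  -- the sequence
  have hseq : ∀ n : ℕ, ∃ (p u : V) (t c : ℝ), p ∈ interior G ∧ 0 < t ∧ ‖t • p - g‖ < 1 / ((n : ℝ) + 1) ∧ u ≠ 0 ∧ ⟪u, p⟫ = 0 ∧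
      ⟪u, e⟫ = 0 ∧ X u = c • p := by
    intro n
    have hn : (0 : ℝ) < 1 / ((n : ℝ) + 1) := by positivity
    set O : Set V := {y | y ∈ interior G ∧ ∃ t : ℝ, 0 < t ∧ ‖t • y - g‖ < 1 / ((n : ℝ) + 1)} with hO
    have hOo : IsOpen O := by
      have : O = interior G ∩ ⋃ t : ℝ, ⋃ (_ : 0 < t), {y | ‖t • y - g‖ < 1 / ((n : ℝ) + 1)} := by
        ext y
        simp only [hO, Set.mem_ofPred_eq, Set.mem_inter_iff, Set.mem_iUnion, exists_prop]
      rw [this]
      apply isOpen_interior.inter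
      apply isOpen_iUnion
      intro t
      apply isOpen_iUnion
      intro _
      exact isOpen_lt (by fun_prop) continuous_const
    have hOs : ∀ y ∈ O, ∀ t : ℝ, 0 < t → t • y ∈ O := by
      rintro y ⟨hy, t, ht, hty⟩ s hs
      refine ⟨hscale y hy s hs, t * s⁻¹, by positivity, ?_⟩
      rw [smul_smul, mul_assoc, inv_mul_cancel₀ hs.ne', mul_one]
      exact hty
    have hOn : O.Nonempty := by
      refine ⟨g, hg, 1, one_pos, ?_⟩
      rw [one_smul, sub_self, norm_zero]; exact hn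
    have hOi : O ⊆ interior G := fun y hy => hy.1
    obtain ⟨p, ⟨hp, t, ht, htp⟩, u, hu, hup, hue, c, hc⟩ := hall O hOo hOs hOn hOi
    exact ⟨p, u, t, c, hp, ht, htp, hu, hup, hue, hc⟩
  choose p u t c hp ht htp hu hup hue hXu using hseq
  -- normalisation
  let v : ℕ → V := fun n => ‖u n‖⁻¹ • u n
  have hv1 : ∀ n, v n ∈ Metric.sphere (0 : V) 1 := by
    intro n
    rw [mem_sphere_zero_iff_norm, norm_smul, norm_inv, norm_norm, inv_mul_cancel₀ (norm_ne_zero_iff.2 (hu n))]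
  have hvX : ∀ n, X (v n) = c n • p n := by
    intro n
    rw [← hXu n]
    exact X_smul h (hu n) (hGL _ (hp n)) (hup n) (inv_ne_zero (norm_ne_zero_iff.2 (hu n)))
  have hvp : ∀ n, ⟪v n, p n⟫ = 0 := by
    intro n
    show ⟪‖u n‖⁻¹ • u n, p n⟫ = 0
    rw [real_inner_smul_left, hup n, mul_zero]
  have hve : ∀ n, ⟪v n, e⟫ = 0 := by
    intro n
    show ⟪‖u n‖⁻¹ • u n, e⟫ = 0
    rw [real_inner_smul_left, hue n, mul_zero]
  obtain ⟨us, hus, φ, hφ, hlim⟩ := (isCompact_sphere (0 : V) 1).tendsto_subseq hv1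
  have hus0 : us ≠ 0 := by
    intro h0
    rw [mem_sphere_zero_iff_norm, h0, norm_zero] at hus
    exact zero_ne_one hus
  -- q n → g
  have hq : Tendsto (fun n => t n • p n) atTop (𝓝 g) := by
    rw [tendsto_iff_norm_sub_tendsto_zero]
    apply squeeze_zero (fun n => norm_nonneg _) (fun n => (htp n).le)
    exact tendsto_one_div_add_atTop_nhds_zero_nat
  have hqφ : Tendsto (fun n => t (φ n) • p (φ n)) atTop (𝓝 g) := hq.comp hφ.tendsto_atTop
  have husg : ⟪us, g⟫ = 0 := by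
    have h1 : Tendsto (fun n => ⟪v (φ n), t (φ n) • p (φ n)⟫) atTop (𝓝 ⟪us, g⟫) := hlim.inner hqφ
    have h2 : (fun n => ⟪v (φ n), t (φ n) • p (φ n)⟫) = fun _ => (0 : ℝ) := by
      funext n
      rw [real_inner_smul_right, hvp, mul_zero]
    rw [h2] at h1
    exact (tendsto_nhds_unique h1 tendsto_const_nhds)
  have huse : ⟪us, e⟫ = 0 := by
    have h1 : Tendsto (fun n => ⟪v (φ n), e⟫) atTop (𝓝 ⟪us, e⟫) := hlim.inner tendsto_const_nhds
    have h2 : (fun n => ⟪v (φ n), e⟫) = fun _ => (0 : ℝ) := by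
      funext n
      rw [hve]
    rw [h2] at h1
    exact (tendsto_nhds_unique h1 tendsto_const_nhds)
  -- us is parallel to u0
  obtain ⟨κ, hκ⟩ : ∃ κ : ℝ, us = κ • u0 := by
    have huu : ⟪u0, u0⟫ ≠ 0 := fun h0 => hu0 (inner_self_eq_zero.1 h0)
    refine ⟨⟪u0, us⟫ / ⟪u0, u0⟫, ?_⟩
    set κ := ⟪u0, us⟫ / ⟪u0, u0⟫ with hκdef
    set z := us - κ • u0 with hz
    have hz0 : ⟪u0, z⟫ = 0 := by
      rw [hz, inner_sub_right, real_inner_smul_right, hκdef]
      field_simp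
      ring
    have hzg : ⟪z, g⟫ = 0 := by
      rw [hz, inner_sub_left, real_inner_smul_left, husg, hug]; ring
    have hze : ⟪z, e⟫ = 0 := by
      rw [hz, inner_sub_left, real_inner_smul_left, huse, hu0e]; ring
    obtain ⟨α, β, hαβ⟩ := plane_coord hdim hu0 hug hu0e hz0 hli
    have hzz : ⟪z, z⟫ = 0 := by
      nth_rewrite 2 [hαβ]
      rw [inner_add_right, real_inner_smul_right, real_inner_smul_right, hzg, hze]; ring
    have : z = 0 := inner_self_eq_zero.1 hzz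
    exact sub_eq_zero.1 this
  have hκ0 : κ ≠ 0 := by
    intro h0
    rw [h0, zero_smul] at hκ
    exact hus0 hκ
  have hXus : X us = X u0 := by
    rw [hκ]
    exact X_smul h hu0 (hGL g hg) hug hκ0
  have hcu : ContinuousAt X us := hcont us g hus0 hg husg
  have hXlim : Tendsto (fun n => X (v (φ n))) atTop (𝓝 (X u0)) := by
    rw [← hXus]
    exact hcu.tendsto.comp hlim
  -- closedness of parallelism
  have hpar : ∀ n, ⟪t (φ n) • p (φ n), t (φ n) • p (φ n)⟫ • X (v (φ n)) - ⟪t (φ n) • p (φ n), X (v (φ n))⟫ • (t (φ n) • p (φ n)) = 0 := by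
    intro n
    rw [hvX]
    simp only [real_inner_smul_left, real_inner_smul_right, smul_smul]
    rw [sub_eq_zero]
    congr 1
    ring
  have hlim2 : Tendsto (fun n => ⟪t (φ n) • p (φ n), t (φ n) • p (φ n)⟫ • X (v (φ n)) - ⟪t (φ n) • p (φ n), X (v (φ n))⟫ • (t (φ n) • p (φ n)))
      atTop (𝓝 (⟪g, g⟫ • X u0 - ⟪g, X u0⟫ • g)) :=
    ((hqφ.inner hqφ).smul hXlim).sub ((hqφ.inner hXlim).smul hqφ)
  have hfin : ⟪g, g⟫ • X u0 - ⟪g, X u0⟫ • g = 0 := by
    have h2 : (fun n => ⟪t (φ n) • p (φ n), t (φ n) • p (φ n)⟫ • X (v (φ n)) - ⟪t (φ n) • p (φ n), X (v (φ n))⟫ • (t (φ n) • p (φ n)))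
        = fun _ => (0 : V) := by
      funext n; exact hpar n
    rw [h2] at hlim2
    exact (tendsto_nhds_unique hlim2 tendsto_const_nhds)
  have hgg : ⟪g, g⟫ ≠ 0 := fun h0 => hg00 (inner_self_eq_zero.1 h0)
  apply hXg (⟪g, g⟫⁻¹ * ⟪g, X u0⟫)
  rw [mul_smul, ← sub_eq_zero.1 hfin, smul_smul, inv_mul_cancel₀ hgg, one_smul]

end Jfinalcontra

end Pool.Agent.Helper613.HS
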