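import Mathlib
import Pool.Agent.Helper613.HSTotal
import Pool.Agent.Helper613.HSJDadd

open Set Filter Topology
open scoped RealInnerProductSpace

namespace Pool.Agent.Helper613.HS

namespace Jgdtwo

open JDadd

variable {V : Type} [NormedAddCommGroup V] [InnerProductSpace ℝ V]
variable {K L : Set V} {X : V → V} {l : V → ℝ}

























/- TARGET: prove this (replace sorry). Auxiliary lemmas before it are welcome. -/

theorem gd_two_ne0 {K : Set V} {g : V} (hg : g ∈ U K) : g ≠ 0 := hg.1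

theorem gd_two_unsmul {K : Set V} {g : V} {c : ℝ} (hc : 0 < c) (h : c • g ∈ U K) : g ∈ U K := by
  have := U_smul h (inv_pos.mpr hc)
  rwa [smul_smul, inv_mul_cancel₀ hc.ne', one_smul] at this

theorem gd_two_indep {y g : V} (hyK : y ∈ U K) (hyL : y ∈ U L)
    (hg1 : g ∈ U L) (hg2 : g ∉ U K) (hg4 : -g ∉ U L) : LinearIndependent ℝ ![y, g] := by
  rw [LinearIndependent.pair_iff]
  intro s t hst
  by_cases hs : s = 0
  · subst hs
    rw [zero_smul, zero_add] at hst
    rcases smul_eq_zero.mp hst with h | h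
    · exact ⟨rfl, h⟩
    · exact absurd h (gd_two_ne0 hg1)
  · exfalso
    have hy : y = (-t / s) • g := by
      have h1 : s • y = (-t) • g := by
        rw [neg_smul]
        exact eq_neg_of_add_eq_zero_left hst
      have h2 : y = s⁻¹ • (s • y) := by rw [smul_smul, inv_mul_cancel₀ hs, one_smul]
      rw [h2, h1, smul_smul]
      congr 1
      field_simp
    set c := -t / s with hc
    rcases lt_trichotomy c 0 with h | h | h
    · apply hg4
      have h1 : (-c) • (-g) ∈ U L := by
        rw [neg_smul_neg, ← hy]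
        exact hyL
      exact gd_two_unsmul (neg_pos.mpr h) h1
    · rw [h, zero_smul] at hy
      exact gd_two_ne0 hyK hy
    · apply hg2
      rw [hy] at hyK
      exact gd_two_unsmul h hyK

theorem gd_two_zer (h : Dat K L X l) {u g : V} (hu : u ≠ 0) (hug : ⟪u, g⟫ = 0)
    (hg : g ∈ U L ∧ g ∉ U K ∧ -g ∈ U K ∧ -g ∉ U L) :
    -X u ∈ U L ∧ -X u ∉ U K ∧ - -X u ∈ U K ∧ - -X u ∉ U L := by
  obtain ⟨h1, h2, h3, h4⟩ := hg
  obtain ⟨a1, a2⟩ := negx_mem_D h hu hug h1 h2
  have hug' : ⟪u, -g⟫ = 0 := by rw [inner_neg_right, hug, neg_zero]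
  obtain ⟨b1, b2⟩ := x_mem_D' h hu hug' h3 h4
  rw [neg_neg]
  exact ⟨a1, a2, b1, b2⟩

theorem gd_two_addL (hdim : Module.finrank ℝ V = 3) (h : Dat K L X l)
    (hno : ∀ c, c ∈ U L → c ∉ U K → -c ∈ U L → -c ∈ U K)
    {g : V} (hg : g ∈ U L ∧ g ∉ U K ∧ -g ∈ U K ∧ -g ∉ U L) {y : V} (hyL : y ∈ U L)
    (hne : y + g ≠ 0) : y + g ∈ U L := by
  by_cases hyK : y ∈ U K
  swap
  · exact (D_add hdim h hno hyL hyK hg.1 hg.2.1).1
  obtain ⟨u, hu, huy, hug⟩ := exists_normal hdim y g
  have hz := gd_two_zer h hu hug hg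
  obtain ⟨hz1, hz2, hz3, hz4⟩ := hz
  have hux : ⟪u, X u⟫ = 0 := (h.hm u hu).1
  have huz : ⟪u, -X u⟫ = 0 := by rw [inner_neg_right, hux, neg_zero]
  have hind := gd_two_indep (K := K) (L := L) hyK hyL hz1 hz2 hz4
  obtain ⟨a, b, hab⟩ := plane_coord hdim hu huy huz hug hind
  obtain ⟨hg1, hg2, hg3, hg4⟩ := hg
  rw [neg_neg] at hz3 hz4
  rcases lt_trichotomy b 0 with hb | hb | hb
  · exfalso
    rcases lt_trichotomy a 0 with ha | ha | ha
    · have hug' : ⟪u, -g⟫ = 0 := by rw [inner_neg_right, hug, neg_zero]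
      have h1 := D'_arc h hu hug' hg3 hg4 (β := 1) (α := -b) one_pos (by linarith)
      apply h1.2
      have h2 : (1 : ℝ) • (-g) + (-b) • X u = (-a) • y := by
        rw [hab]; module
      rw [h2]
      exact U_smul hyL (by linarith)
    · subst ha
      apply hg2
      have h2 : g = (-b) • X u := by
        rw [hab]; module
      rw [h2]
      exact U_smul hz3 (by linarith)
    · have h1 := D_arc h hu hug hg1 hg2 (β := 1) (α := -b) one_pos (by linarith)
      apply h1.2
      have h2 : (1 : ℝ) • g - (-b) • X u = a • y := by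
        rw [hab]; module
      rw [h2]
      exact U_smul hyK ha
  · exfalso
    subst hb
    have hgy : g = a • y := by rw [hab]; module
    rcases lt_trichotomy a 0 with ha | ha | ha
    · apply hg4
      have h2 : -g = (-a) • y := by rw [hgy]; module
      rw [h2]
      exact U_smul hyL (by linarith)
    · apply gd_two_ne0 hg1
      rw [hgy, ha, zero_smul]
    · apply hg2
      rw [hgy]
      exact U_smul hyK ha
  · rcases lt_trichotomy a (-1) with ha | ha | ha
    · have hna : 0 < -a := by linarith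
      have ha0 : a ≠ 0 := by linarith
      have hk : 0 < (a + 1) / a := div_pos_of_neg_of_neg (by linarith) (by linarith)
      have h1 := D_arc h hu hug hg1 hg2 (β := (a + 1) / a) (α := b / (-a)) hk
        (div_nonneg hb.le hna.le)
      have h2 : ((a + 1) / a) • g - (b / (-a)) • X u = y + g := by
        have e1 : (a + 1) / a = 1 + a⁻¹ := by field_simp
        have e2 : b / (-a) = -(b * a⁻¹) := by field_simp
        have e3 : a⁻¹ • g = y - (b * a⁻¹) • X u := by
          rw [hab, smul_add, smul_smul, inv_mul_cancel₀ ha0, one_smul, smul_smul, smul_neg,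
            mul_comm a⁻¹ b, ← sub_eq_add_neg]
        rw [e1, e2, add_smul, one_smul, e3]
        module
      rw [← h2]
      exact h1.1
    · have h2 : y + g = b • (-X u) := by
        rw [hab, ha]; module
      rw [h2]
      exact U_smul hz1 hb
    · have h1 : (1 + a) • y ∈ U L := U_smul hyL (by linarith)
      have h2 : y + g = (1 + a) • y - b • X u := by
        rw [hab]; module
      rw [h2] at hne ⊢
      have hu1 : ⟪u, (1 + a) • y⟫ = 0 := by rw [inner_smul_right, huy, mul_zero]
      exact addL h hu hu1 h1 hb.le hne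

/-- the good cone when both differences are nonempty -/
theorem gd_two (hdim : Module.finrank ℝ V = 3) (h : Dat K L X l) (hno : ∀ c, c ∈ U L → c ∉ U K → -c ∈ U L → -c ∈ U K) 
    (hno' : ∀ c, c ∈ U K → c ∉ U L → -c ∈ U K → -c ∈ U L) : Gd K L X {g | g ∈ U L ∧ g ∉ U K ∧ -g ∈ U K ∧ -g ∉ U L} := by
  refine ⟨fun g hg => hg.1, fun g hg => hg.2.1, fun g hg => hg.2.2.1, ?_, ?_, ?_, ?_, ?_⟩
  · rintro g ⟨h1, h2, h3, h4⟩ c hc
    refine ⟨U_smul h1 hc, fun h5 => h2 (gd_two_unsmul hc h5), ?_, ?_⟩
    · rw [← smul_neg]; exact U_smul h3 hc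
    · intro h5
      rw [← smul_neg] at h5
      exact h4 (gd_two_unsmul hc h5)
  · rintro g ⟨h1, h2, h3, h4⟩ g' ⟨h1', h2', h3', h4'⟩
    have a := D_add hdim h hno h1 h2 h1' h2'
    have b := D_add hdim h.swap hno' h3 h4 h3' h4'
    refine ⟨a.1, a.2, ?_, ?_⟩
    · rw [neg_add]; exact b.1
    · rw [neg_add]; exact b.2
  · intro u hu g hg hug
    exact gd_two_zer h hu hug hg
  · intro g hg y hy hne
    exact gd_two_addL hdim h hno hg hy hne
  · rintro g ⟨h1, h2, h3, h4⟩ y hy hne
    rw [sub_eq_add_neg] at hne ⊢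
    exact gd_two_addL hdim h.swap hno' (g := -g) ⟨h3, h4, by rwa [neg_neg], by rwa [neg_neg]⟩ hy hne

end Jgdtwo

end Pool.Agent.Helper613.HS
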