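import Mathlib
import Pool.Agent.Helper613.HSTotal

open Set Filter Topology
open scoped RealInnerProductSpace

namespace Pool.Agent.Helper613.HS

namespace Jhalf

variable {V : Type} [NormedAddCommGroup V] [InnerProductSpace ℝ V]
variable {K L : Set V} {X : V → V} {l : V → ℝ}
























/- TARGET: prove this (replace sorry). Auxiliary lemmas before it are welcome. -/

theorem half (h : Dat K L X l) {G : Set V} (hG : Gd K L X G) {y m u : V} (hu : u ≠ 0) (huy : ⟪u, y⟫ = 0) (hy : y ∈ interior G) {c : ℝ} (hc : c < 0)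
    (hX : X u = c • y) (hyL : y ∈ L) (hmax : ∀ t : ℝ, 1 < t → t • y ∉ L) 
    (hm : ∀ v : V, (∃ δ : ℝ, 0 < δ ∧ ∀ ε : ℝ, 0 < ε → ε < δ → y + ε • v ∈ L) → ⟪m, v⟫ ≤ 0) : 
    ∀ v, ⟪u, v⟫ = 0 → 0 < ⟪m, v⟫ → v ∉ U K := by
  intro v huv hmv hvK
  obtain ⟨hux, hl, hiff⟩ := h.hm u hu
  have hyG : y ∈ G := interior_subset hy
  have hyUL := hG.subL y hyG
  have hy0 : y ≠ 0 := hyUL.1
  have hyUK := hG.subK y hyG
  set r := l u with hr
  have hne : r ≠ 0 := hl.ne'
  have h1 : (-c / r) • y ∈ L := by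
    rw [hiff _ (by rw [inner_smul_right, huy, mul_zero]), hX, smul_smul, ← add_smul]
    have : c + r * (-c / r) = 0 := by field_simp; ring
    rw [this, zero_smul]
    exact h.sK.zero
  have h2 : -c / r ≤ 1 := by
    by_contra hh
    exact hmax _ (not_le.1 hh) h1
  have h3 : 0 ≤ c + r := by
    rw [div_le_one hl] at h2
    linarith
  have h4 : (c + r) • y ∈ K := by
    have := (hiff y huy).1 hyL
    rw [hX, ← add_smul] at this
    exact this
  have h5 : c + r = 0 := by
    by_contra hh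
    have hpos : 0 < c + r := lt_of_le_of_ne h3 (Ne.symm hh)
    exact hyUK ⟨hy0, c + r, hpos, h4⟩
  obtain ⟨hv0, t, ht, htv⟩ := hvK
  have h6 : ⟪m, v⟫ ≤ 0 := by
    apply hm
    refine ⟨t / r, div_pos ht hl, fun ε hε hεt => ?_⟩
    rw [hiff _ (by rw [inner_add_right, inner_smul_right, huy, huv, mul_zero, add_zero]), hX, smul_add,
      ← add_assoc, ← add_smul, h5, zero_smul, zero_add, smul_smul]
    have h7 : r * ε = (r * ε / t) * t := by field_simp
    rw [h7, ← smul_smul]
    apply h.sK.star _ htv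
    · positivity
    · rw [div_le_one ht]
      rw [lt_div_iff₀ hl] at hεt
      linarith
  linarith

end Jhalf

end Pool.Agent.Helper613.HS
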