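import Mathlib
import Pool.Agent.Helper613.HSTotal

open Set Filter Topology
open scoped RealInnerProductSpace

namespace Pool.Agent.Helper613.HS

namespace Jplanar


variable {V : Type} [NormedAddCommGroup V] [InnerProductSpace ℝ V]
variable {K L : Set V} {X : V → V} {l : V → ℝ}

/- TARGET: prove this (replace sorry). Auxiliary lemmas before it are welcome. -/

theorem ivt_seg {d : ℝ × ℝ → ℝ} (hd : Continuous d) {y y' : ℝ × ℝ} (h1 : 0 < d y) (h2 : d y' < 0) :
    ∃ t : ℝ, 0 < t ∧ t < 1 ∧ d ((1 - t) • y + t • y') = 0 := by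
  have hc : ContinuousOn (fun t : ℝ => d ((1 - t) • y + t • y')) (Icc 0 1) := by
    apply Continuous.continuousOn
    fun_prop
  have := intermediate_value_Icc' (zero_le_one) hc
  have h0 : (0 : ℝ) ∈ Icc ((fun t : ℝ => d ((1 - t) • y + t • y')) 1) ((fun t : ℝ => d ((1 - t) • y + t • y')) 0) := by
    constructor
    · simp; exact h2.le
    · simp; exact h1.le
  obtain ⟨t, ⟨ht0, ht1⟩, ht⟩ := this h0
  refine ⟨t, ?_, ?_, ht⟩
  · rcases ht0.lt_or_eq with h | h
    · exact h
    · subst h; simp at ht; linarith
  · rcases ht1.lt_or_eq with h | h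
    · exact h
    · subst h; simp at ht; linarith

theorem planar {φ ψ : ℝ × ℝ → ℝ} (hφ : Continuous φ) (hψ : Continuous ψ) (hφh : ∀ (c : ℝ) (v : ℝ × ℝ), 0 < c → φ (c • v) = c * φ v)
    (hψh : ∀ (c : ℝ) (v : ℝ × ℝ), 0 < c → ψ (c • v) = c * ψ v) 
    (hmax : ∀ v w, max (φ (v + w)) (ψ (v + w)) ≤ max (φ v) (ψ v) + max (φ w) (ψ w))
    (hmin : ∀ v w, min (φ v) (ψ v) + min (φ w) (ψ w) ≤ min (φ (v + w)) (ψ (v + w))) : 
    (∃ a b : ℝ, ∀ v, φ v ≤ a * v.1 + b * v.2) ∨ (∀ v w, φ (v + w) ≤ φ v + φ w) := by
  classical
  have hφ0 : φ 0 = 0 := by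
    have := hφh 2 0 (by norm_num)
    rw [smul_zero] at this; linarith
  have hψ0 : ψ 0 = 0 := by
    have := hψh 2 0 (by norm_num)
    rw [smul_zero] at this; linarith
  by_cases hA : ∀ v, ψ v ≤ φ v
  · right
    intro v w
    have := hmax v w
    rwa [max_eq_left (hA _), max_eq_left (hA _), max_eq_left (hA _)] at this
  by_cases hB : ∀ v, φ v ≤ ψ v
  · left
    have hs : ∀ v w, φ v + φ w ≤ φ (v + w) := by
      intro v w
      have := hmin v w
      rwa [min_eq_left (hB _), min_eq_left (hB _), min_eq_left (hB _)] at this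
    obtain ⟨g, -, hg⟩ := exists_extension_of_le_sublinear (⟨⊥, 0⟩ : (ℝ × ℝ) →ₗ.[ℝ] ℝ) (fun v => - φ v)
      (by intro c hc x; rw [hφh c x hc]; ring) (by intro x y; have := hs x y; linarith)
      (by
        rintro ⟨x, hx⟩
        have hx' : x = 0 := by simpa using hx
        subst hx'
        show (0 : ℝ) ≤ _
        simp [hφ0])
    refine ⟨- g (1, 0), - g (0, 1), fun v => ?_⟩
    have h1 := hg v
    have h2 : v = v.1 • ((1 : ℝ), (0 : ℝ)) + v.2 • ((0 : ℝ), (1 : ℝ)) := by
      ext <;> simp
    have h3 : g v = v.1 * g (1, 0) + v.2 * g (0, 1) := by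
      conv_lhs => rw [h2]
      rw [map_add, map_smul, map_smul]; simp
    nlinarith
  push Not at hA hB
  obtain ⟨v0, hv0⟩ := hA
  obtain ⟨u0, hu0⟩ := hB
  -- d = φ - ψ
  set d : ℝ × ℝ → ℝ := fun v => φ v - ψ v with hd
  have hdc : Continuous d := hφ.sub hψ
  have hdh : ∀ (c : ℝ) (v : ℝ × ℝ), 0 < c → d (c • v) = c * d v := by
    intro c v hc
    simp only [hd, hφh c v hc, hψh c v hc]; ring
  have hD : ∀ v w, |d (v + w)| ≤ |d v| + |d w| := by
    intro v w
    have e : ∀ x, |d x| = max (φ x) (ψ x) - min (φ x) (ψ x) := by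
      intro x; simp only [hd]; rw [max_sub_min_eq_abs']
    rw [e, e, e]
    have := hmax v w
    have := hmin v w
    linarith
  have hd0 : d 0 = 0 := by simp [hd, hφ0, hψ0]
  have hv0' : d v0 < 0 := by simp only [hd]; linarith
  have hu0' : 0 < d u0 := by simp only [hd]; linarith
  have hZadd : ∀ v w, d v = 0 → d w = 0 → d (v + w) = 0 := by
    intro v w h1 h2
    have := hD v w
    rw [h1, h2] at this
    simp at this
    exact this
  have hZsm : ∀ (c : ℝ) v, 0 ≤ c → d v = 0 → d (c • v) = 0 := by
    intro c v hc h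
    rcases hc.lt_or_eq with h' | h'
    · rw [hdh c v h', h, mul_zero]
    · rw [← h', zero_smul]; exact hd0
  -- a nonzero zero
  have hz : ∃ z : ℝ × ℝ, z ≠ 0 ∧ d z = 0 := by
    by_contra hcon
    push Not at hcon
    have key : ∀ y y', 0 < d y → d y' < 0 → ∃ t : ℝ, 0 < t ∧ t < 1 ∧ (1 - t) • y + t • y' = 0 := by
      intro y y' h1 h2
      obtain ⟨t, a, b, c⟩ := ivt_seg hdc h1 h2
      refine ⟨t, a, b, ?_⟩
      by_contra hne
      exact hcon _ hne c
    obtain ⟨t, ht0, ht1, ht⟩ := key u0 v0 hu0' hv0'
    have hune : u0 ≠ 0 := by rintro rfl; rw [hd0] at hu0'; exact lt_irrefl _ hu0'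
    set w : ℝ × ℝ := (-u0.2, u0.1) with hw
    have hwne : w ≠ 0 := by
      intro h
      apply hune
      have h1 := congrArg Prod.fst h
      have h2 := congrArg Prod.snd h
      simp [hw] at h1 h2
      ext
      · exact h2
      · exact h1
    have t1 := congrArg Prod.fst ht
    have t2 := congrArg Prod.snd ht
    simp at t1 t2
    have huu : 0 < u0.1 ^ 2 + u0.2 ^ 2 := by
      by_contra hle
      have h1 : u0.1 = 0 := by nlinarith [sq_nonneg u0.1, sq_nonneg u0.2]
      have h2 : u0.2 = 0 := by nlinarith [sq_nonneg u0.1, sq_nonneg u0.2]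
      exact hune (by ext <;> simp [h1, h2])
    rcases lt_or_gt_of_ne (hcon w hwne) with hlt | hgt
    · obtain ⟨s, hs0, hs1, hs⟩ := key u0 w hu0' hlt
      have s1 := congrArg Prod.fst hs
      have s2 := congrArg Prod.snd hs
      simp [hw] at s1 s2
      have : (1 - s) * (u0.1 ^ 2 + u0.2 ^ 2) = 0 := by linear_combination u0.1 * s1 + u0.2 * s2
      nlinarith
    · obtain ⟨s, hs0, hs1, hs⟩ := key w v0 hgt hv0'
      have s1 := congrArg Prod.fst hs
      have s2 := congrArg Prod.snd hs
      simp [hw] at s1 s2
      -- (1-s) * (-u2) + s v1 = 0, (1-s) u1 + s v2 = 0 ; (1-t) u + t v = 0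
      have e1 : t * (1 - s) * (-u0.2) = s * (1 - t) * u0.1 := by linear_combination t * s1 - s * t1
      have e2 : t * (1 - s) * u0.1 = s * (1 - t) * u0.2 := by linear_combination t * s2 - s * t2
      have : s * (1 - t) * (u0.1 ^ 2 + u0.2 ^ 2) = 0 := by linear_combination - u0.1 * e1 - u0.2 * e2
      have : 0 < s * (1 - t) * (u0.1 ^ 2 + u0.2 ^ 2) := by
        have : 0 < 1 - t := by linarith
        positivity
      linarith
  obtain ⟨z, hzne, hz0⟩ := hz
  -- -z is a zero too
  have hzn : d (-z) = 0 := by
    by_contra hne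
    have key : ∀ y y', d y ≠ 0 → d y' ≠ 0 → (∃ t : ℝ, 0 < t ∧ t < 1 ∧ d ((1 - t) • (-z) + t • y') = 0) → False := by
      rintro y y' - h2 ⟨t, ht0, ht1, ht⟩
      have h3 := hZadd _ _ ht (hZsm (1 - t) z (by linarith) hz0)
      have h4 : (1 - t) • (-z) + t • y' + (1 - t) • z = t • y' := by
        rw [smul_neg]; abel
      rw [h4, hdh t y' ht0] at h3
      rcases mul_eq_zero.1 h3 with h | h
      · linarith
      · exact h2 h
    rcases lt_or_gt_of_ne hne with hlt | hgt
    · obtain ⟨t, ht0, ht1, ht⟩ := ivt_seg hdc hu0' hlt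
      refine key (-z) u0 hne hu0'.ne' ⟨1 - t, by linarith, by linarith, ?_⟩
      have : (1 - (1 - t)) • (-z) + (1 - t) • u0 = (1 - t) • u0 + t • (-z) := by
        rw [sub_sub_cancel]; abel
      rw [this]; exact ht
    · obtain ⟨t, ht0, ht1, ht⟩ := ivt_seg hdc hgt hv0'
      exact key (-z) v0 hne hv0'.ne ⟨t, ht0, ht1, ht⟩
  have hZs : ∀ s : ℝ, d (s • z) = 0 := by
    intro s
    rcases le_total 0 s with h | h
    · exact hZsm s z h hz0
    · have := hZsm (-s) (-z) (by linarith) hzn
      simpa using this
  have hDs : ∀ y (s : ℝ), |d (y + s • z)| = |d y| := by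
    intro y s
    apply le_antisymm
    · have := hD y (s • z); rw [hZs s] at this; simpa using this
    · have := hD (y + s • z) ((-s) • z)
      rw [hZs (-s)] at this
      have e : y + s • z + (-s) • z = y := by rw [neg_smul]; abel
      rw [e] at this; simpa using this
  have hzz : 0 < z.1 ^ 2 + z.2 ^ 2 := by
    by_contra hle
    have h1 : z.1 = 0 := by nlinarith [sq_nonneg z.1, sq_nonneg z.2]
    have h2 : z.2 = 0 := by nlinarith [sq_nonneg z.1, sq_nonneg z.2]
    exact hzne (by ext <;> simp [h1, h2])
  -- main argument for a given orientation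
  have main : ∀ z : ℝ × ℝ, 0 < z.1 ^ 2 + z.2 ^ 2 → (∀ s : ℝ, d (s • z) = 0) → (∀ y (s : ℝ), |d (y + s • z)| = |d y|) →
      0 < z.1 * u0.2 - z.2 * u0.1 → 
      (∃ a b : ℝ, ∀ v, φ v ≤ a * v.1 + b * v.2) ∨ (∀ v w, φ (v + w) ≤ φ v + φ w) := by
    clear hzz hDs hZs hzn hz0 hzne z
    intro z hzz hZs hDs hun
    set N := z.1 ^ 2 + z.2 ^ 2 with hN
    set e : ℝ × ℝ := (-z.2 / N, z.1 / N) with he
    set n : ℝ × ℝ → ℝ := fun y => z.1 * y.2 - z.2 * y.1 with hn
    set σ : ℝ × ℝ → ℝ := fun y => (z.1 * y.1 + z.2 * y.2) / N with hσ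
    have hdec : ∀ y, y = n y • e + σ y • z := by
      intro y
      have hN0 : N ≠ 0 := hzz.ne'
      ext
      · simp only [hn, he, hσ, Prod.fst_add, Prod.smul_fst, smul_eq_mul]
        field_simp
        rw [hN]; ring
      · simp only [hn, he, hσ, Prod.snd_add, Prod.smul_snd, smul_eq_mul]
        field_simp
        rw [hN]; ring
    have hDn : ∀ y, |d y| = |d (n y • e)| := by
      intro y
      conv_lhs => rw [hdec y]
      exact hDs _ _
    have hpos : ∀ y, 0 < n y → d y ≠ 0 := by
      intro y hy h0
      have h1 := hDn y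
      rw [h0, hdh _ _ hy, abs_zero] at h1
      have h2 : d e = 0 := by
        have := abs_eq_zero.1 h1.symm
        rcases mul_eq_zero.1 this with h | h
        · linarith
        · exact h
      have h3 := hDn u0
      rw [hdh _ _ hun, h2, mul_zero, abs_zero] at h3
      have := abs_eq_zero.1 h3
      linarith
    have hpos' : ∀ y, 0 < n y → 0 < d y := by
      intro y hy
      by_contra hle
      have hlt : d y < 0 := lt_of_le_of_ne (not_lt.1 hle) (hpos y hy)
      obtain ⟨t, ht0, ht1, ht⟩ := ivt_seg hdc hu0' hlt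
      refine hpos _ ?_ ht
      have : n ((1 - t) • u0 + t • y) = (1 - t) * n u0 + t * n y := by
        simp only [hn, Prod.fst_add, Prod.snd_add, Prod.smul_fst, Prod.smul_snd, smul_eq_mul]; ring
      rw [this]
      have h1 : 0 < 1 - t := by linarith
      have h2 : 0 < n u0 := hun
      positivity
    have hzero : ∀ y, n y = 0 → d y = 0 := by
      intro y hy
      have := hDn y
      rw [hy, zero_smul, hd0, abs_zero] at this
      exact abs_eq_zero.1 this
    have hv0n : n v0 < 0 := by
      by_contra hle
      rcases (not_lt.1 hle).lt_or_eq with h | h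
      · have := hpos' v0 h; linarith
      · have := hzero v0 h.symm; linarith
    have hneg : ∀ y, n y < 0 → d y ≠ 0 := by
      intro y hy h0
      have e1 : ∀ x, n x • e = (-n x) • (-e) := by intro x; simp
      have h1 := hDn y
      rw [h0, e1, hdh _ _ (by linarith), abs_zero] at h1
      have h2 : d (-e) = 0 := by
        have := abs_eq_zero.1 h1.symm
        rcases mul_eq_zero.1 this with h | h
        · linarith
        · exact h
      have h3 := hDn v0
      rw [e1, hdh _ _ (by linarith), h2, mul_zero, abs_zero] at h3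
      have := abs_eq_zero.1 h3
      linarith
    have hneg' : ∀ y, n y < 0 → d y < 0 := by
      intro y hy
      by_contra hle
      have hlt : 0 < d y := lt_of_le_of_ne (not_lt.1 hle) (hneg y hy).symm
      obtain ⟨t, ht0, ht1, ht⟩ := ivt_seg hdc hlt hv0'
      refine hneg _ ?_ ht
      have : n ((1 - t) • y + t • v0) = (1 - t) * n y + t * n v0 := by
        simp only [hn, Prod.fst_add, Prod.snd_add, Prod.smul_fst, Prod.smul_snd, smul_eq_mul]; ring
      rw [this]
      have h1 : 0 < 1 - t := by linarith
      nlinarith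
    have hnn : ∀ y, 0 ≤ n y → ψ y ≤ φ y := by
      intro y hy
      rcases hy.lt_or_eq with h | h
      · have := hpos' y h; simp only [hd] at this; linarith
      · have := hzero y h.symm; simp only [hd] at this; linarith
    have hnp : ∀ y, n y ≤ 0 → φ y ≤ ψ y := by
      intro y hy
      rcases hy.lt_or_eq with h | h
      · have := hneg' y h; simp only [hd] at this; linarith
      · have := hzero y h; simp only [hd] at this; linarith
    -- values on the line
    have hline : ∀ s : ℝ, φ (s • z) = ψ (s • z) := by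
      intro s; have := hZs s; simp only [hd] at this; linarith
    have hodd : φ (-z) = - φ z := by
      have a1 := hmax z (-z)
      have a2 := hmin z (-z)
      have b1 := hline 1
      have b2 := hline (-1)
      simp only [one_smul, neg_smul] at b1 b2
      rw [add_neg_cancel, hφ0, hψ0, ← b1, ← b2] at a1 a2
      simp only [max_self, min_self] at a1 a2
      linarith
    have hlin : ∀ s : ℝ, φ (s • z) = s * φ z := by
      intro s
      rcases lt_trichotomy s 0 with h | h | h
      · have : s • z = (-s) • (-z) := by simp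
        rw [this, hφh _ _ (by linarith), hodd]; ring
      · rw [h, zero_smul, hφ0, zero_mul]
      · exact hφh s z h
    have hf : ∀ y (s : ℝ), max (φ (y + s • z)) (ψ (y + s • z)) = max (φ y) (ψ y) + s * φ z := by
      intro y s
      apply le_antisymm
      · have := hmax y (s • z)
        rw [← hline s, max_self, hlin s] at this
        exact this
      · have := hmax (y + s • z) ((-s) • z)
        rw [← hline (-s), max_self, hlin (-s)] at this
        have e : y + s • z + (-s) • z = y := by rw [neg_smul]; abel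
        rw [e] at this; linarith
    have hh : ∀ y (s : ℝ), min (φ (y + s • z)) (ψ (y + s • z)) = min (φ y) (ψ y) + s * φ z := by
      intro y s
      apply le_antisymm
      · have := hmin (y + s • z) ((-s) • z)
        rw [← hline (-s), min_self, hlin (-s)] at this
        have e : y + s • z + (-s) • z = y := by rw [neg_smul]; abel
        rw [e] at this; linarith
      · have := hmin y (s • z)
        rw [← hline s, min_self, hlin s] at this
        exact this
    have ne1 : n e = 1 := by
      simp only [hn, he]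
      have hN0 : N ≠ 0 := hzz.ne'
      field_simp
      rw [hN]
      ring
    have hn_smul : ∀ (c : ℝ) y, n (c • y) = c * n y := by
      intro c y; simp only [hn, Prod.smul_fst, Prod.smul_snd, smul_eq_mul]; ring
    set A := φ e with hA'
    set B := - φ (-e) with hB'
    have hφp : ∀ y, 0 ≤ n y → φ y = n y * A + σ y * φ z := by
      intro y hy
      have h1 := hf (n y • e) (σ y)
      rw [← hdec y, max_eq_left (hnn y hy), max_eq_left (hnn _ (by rw [hn_smul, ne1]; linarith))] at h1
      rw [h1]
      congr 1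
      rcases hy.lt_or_eq with h | h
      · exact hφh _ _ h
      · rw [← h, zero_smul, hφ0, zero_mul]
    have hφn : ∀ y, n y ≤ 0 → φ y = n y * B + σ y * φ z := by
      intro y hy
      have h1 := hh (n y • e) (σ y)
      rw [← hdec y, min_eq_left (hnp y hy), min_eq_left (hnp _ (by rw [hn_smul, ne1]; linarith))] at h1
      rw [h1]
      congr 1
      rcases hy.lt_or_eq with h | h
      · have : n y • e = (-n y) • (-e) := by simp
        rw [this, hφh _ _ (by linarith), hB']; ring
      · rw [h, zero_smul, hφ0, zero_mul]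
    have hn_add : ∀ v w, n (v + w) = n v + n w := by
      intro v w; simp only [hn, Prod.fst_add, Prod.snd_add]; ring
    have hσ_add : ∀ v w, σ (v + w) = σ v + σ w := by
      intro v w; simp only [hσ, Prod.fst_add, Prod.snd_add]; ring
    rcases le_total A B with hAB | hAB
    · left
      refine ⟨- z.2 * A + z.1 / N * φ z, z.1 * A + z.2 / N * φ z, fun v => ?_⟩
      have e1 : (- z.2 * A + z.1 / N * φ z) * v.1 + (z.1 * A + z.2 / N * φ z) * v.2 = n v * A + σ v * φ z := by
        simp only [hn, hσ]; ring
      rw [e1]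
      rcases le_total 0 (n v) with h | h
      · rw [hφp v h]
      · rw [hφn v h]
        nlinarith
    · right
      have hform : ∀ y, φ y = max (n y * A) (n y * B) + σ y * φ z := by
        intro y
        rcases le_total 0 (n y) with h | h
        · rw [hφp y h, max_eq_left]; nlinarith
        · rw [hφn y h, max_eq_right]; nlinarith
      intro v w
      rw [hform, hform v, hform w, hn_add, hσ_add]
      have : max ((n v + n w) * A) ((n v + n w) * B) ≤ max (n v * A) (n v * B) + max (n w * A) (n w * B) := by
        apply max_le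
        · have := le_max_left (n v * A) (n v * B)
          have := le_max_left (n w * A) (n w * B)
          linarith
        · have := le_max_right (n v * A) (n v * B)
          have := le_max_right (n w * A) (n w * B)
          linarith
      linarith
  have hun0 : z.1 * u0.2 - z.2 * u0.1 ≠ 0 := by
    intro h
    -- u0 is a multiple of z
    have : u0 = ((z.1 * u0.1 + z.2 * u0.2) / (z.1 ^ 2 + z.2 ^ 2)) • z := by
      ext
      · simp only [Prod.smul_fst, smul_eq_mul]
        field_simp
        linear_combination (-z.2) * h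
      · simp only [Prod.smul_snd, smul_eq_mul]
        field_simp
        linear_combination z.1 * h
    have h2 := hZs ((z.1 * u0.1 + z.2 * u0.2) / (z.1 ^ 2 + z.2 ^ 2))
    rw [← this] at h2
    linarith
  rcases lt_or_gt_of_ne hun0 with hlt | hgt
  · apply main (-z) (by simpa using hzz)
    · intro s; have := hZs (-s); simpa using this
    · intro y s; have := hDs y (-s); simpa using this
    · simp only [Prod.fst_neg, Prod.snd_neg]; linarith
  · exact main z hzz hZs hDs hgt

end Jplanar

end Pool.Agent.Helper613.HS
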