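import Mathlib
import Pool.Agent.Helper613.HSTotal

open Set Filter Topology

namespace Pool.Agent.Helper613.HS

/-- Euclidean space of dimension `n`. -/
abbrev E (n : ℕ) := EuclideanSpace ℝ (Fin n)

/-- The radial function `ρ_K(u) = max {a ≥ 0 : a u ∈ K}` (the supremum is attained for compact `K`). -/
noncomputable def radial {n : ℕ} (K : Set (E n)) (u : E n) : ℝ := sSup {a : ℝ | 0 ≤ a ∧ a • u ∈ K}

/- TARGET -/
theorem star_of_radial {n : ℕ} {K : Set (E n)} (isCompact : IsCompact K) (zero_mem : (0 : E n) ∈ K) 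
    (starShaped : ∀ x ∈ K, ∀ t : ℝ, 0 ≤ t → t ≤ 1 → t • x ∈ K) (radial_cont : ContinuousOn (radial K) {u : E n | ‖u‖ = 1 ∧ 0 < radial K u}) : 
    Star K := by
  obtain ⟨R, hR⟩ := isCompact.isBounded.exists_norm_le
  have hbdd : ∀ u : E n, ‖u‖ = 1 → BddAbove {a : ℝ | 0 ≤ a ∧ a • u ∈ K} := by
    intro u hu
    refine ⟨R, fun a ha => ?_⟩
    have h := hR _ ha.2
    rwa [norm_smul, hu, mul_one, Real.norm_of_nonneg ha.1] at h
  have hA : ∀ (u : E n) (a : ℝ), ‖u‖ = 1 → 0 ≤ a → a • u ∈ K → a ≤ radial K u :=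
    fun u a hu ha hau => le_csSup (hbdd u hu) ⟨ha, hau⟩
  have hB : ∀ (u : E n) (a : ℝ), ‖u‖ = 1 → 0 ≤ a → a < radial K u → a • u ∈ K := by
    intro u a hu ha hau
    obtain ⟨b, hb, hab⟩ := exists_lt_of_lt_csSup
      (s := {a : ℝ | 0 ≤ a ∧ a • u ∈ K}) ⟨0, le_rfl, by rw [zero_smul]; exact zero_mem⟩ hau
    have hb0 : 0 < b := ha.trans_lt hab
    have h := starShaped _ hb.2 (a / b) (div_nonneg ha hb0.le) ((div_le_one hb0).2 hab.le)
    rwa [smul_smul, div_mul_cancel₀ _ hb0.ne'] at h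
  refine ⟨isCompact, zero_mem, starShaped, ?_⟩
  intro y hy hy0 s hs0 hs1
  have hyn : ‖y‖ ≠ 0 := norm_ne_zero_iff.2 hy0
  have hyp : 0 < ‖y‖ := norm_pos_iff.2 hy0
  have hunit : ∀ z : E n, z ≠ 0 → ‖(‖z‖⁻¹) • z‖ = 1 := by
    intro z hz
    have : ‖z‖ ≠ 0 := norm_ne_zero_iff.2 hz
    rw [norm_smul, norm_inv, norm_norm, inv_mul_cancel₀ this]
  have hback : ∀ (z : E n) (t : ℝ), z ≠ 0 → (t * ‖z‖) • ((‖z‖⁻¹) • z) = t • z := by
    intro z t hz
    have : ‖z‖ ≠ 0 := norm_ne_zero_iff.2 hz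
    rw [smul_smul, mul_assoc, mul_inv_cancel₀ this, mul_one]
  have hrad : ‖y‖ ≤ radial K ((‖y‖⁻¹) • y) := by
    apply hA _ _ (hunit y hy0) hyp.le
    have := hback y 1 hy0
    rw [one_mul, one_smul] at this
    rw [this]; exact hy
  have hset : ∀ z ∈ U K, (‖z‖⁻¹) • z ∈ {u : E n | ‖u‖ = 1 ∧ 0 < radial K u} := by
    rintro z ⟨hz0, t, ht, htz⟩
    have hzp : 0 < ‖z‖ := norm_pos_iff.2 hz0
    refine ⟨hunit z hz0, ?_⟩
    have h := hA _ (t * ‖z‖) (hunit z hz0) (by positivity) (by rw [hback z t hz0]; exact htz)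
    have : 0 < t * ‖z‖ := by positivity
    linarith
  have hcf : Tendsto (fun z : E n => (‖z‖⁻¹) • z) (𝓝 y) (𝓝 ((‖y‖⁻¹) • y)) := by
    have h : ContinuousAt (fun z : E n => (‖z‖⁻¹) • z) y :=
      (continuous_norm.continuousAt.inv₀ hyn).smul continuousAt_id
    exact h
  have hcw : Tendsto (fun z : E n => (‖z‖⁻¹) • z) (𝓝[U K] y)
      (𝓝[{u : E n | ‖u‖ = 1 ∧ 0 < radial K u}] ((‖y‖⁻¹) • y)) := by
    rw [tendsto_nhdsWithin_iff]
    refine ⟨hcf.mono_left nhdsWithin_le_nhds, ?_⟩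
    exact eventually_nhdsWithin_of_forall hset
  have hr : Tendsto (fun z : E n => radial K ((‖z‖⁻¹) • z)) (𝓝[U K] y)
      (𝓝 (radial K ((‖y‖⁻¹) • y))) := by
    have h1 : Tendsto (radial K) (𝓝[{u : E n | ‖u‖ = 1 ∧ 0 < radial K u}] ((‖y‖⁻¹) • y))
        (𝓝 (radial K ((‖y‖⁻¹) • y))) :=
      radial_cont _ ⟨hunit y hy0, hyp.trans_le hrad⟩
    exact h1.comp hcw
  have hl : Tendsto (fun z : E n => s * ‖z‖) (𝓝[U K] y) (𝓝 (s * ‖y‖)) :=
    (continuous_const.mul continuous_norm).continuousAt.mono_left nhdsWithin_le_nhds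
  have hlt : s * ‖y‖ < radial K ((‖y‖⁻¹) • y) := by nlinarith
  have hev := hl.eventually_lt hr hlt
  rw [eventually_nhdsWithin_iff] at hev
  filter_upwards [hev] with z hz hzU
  have h := hB _ _ (hunit z hzU.1) (by positivity) (hz hzU)
  rwa [hback z s hzU.1] at h

end Pool.Agent.Helper613.HS
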