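import Mathlib
import Pool.Agent.Helper613.HSTotal
import Pool.Agent.Helper613.HSJplanar
import Pool.Agent.Helper613.HSJexistsphi

open Set Filter Topology
open scoped RealInnerProductSpace

namespace Pool.Agent.Helper613.HS

namespace Jsubtwo

open Jplanar
open Jexistsphi

variable {V : Type} [NormedAddCommGroup V] [InnerProductSpace ℝ V]
variable {K L : Set V} {X : V → V} {l : V → ℝ}


























/- TARGET: prove this (replace sorry). Auxiliary lemmas before it are welcome. -/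

theorem h441_basis (hdim : Module.finrank ℝ V = 3) {g0 : V} (hg : g0 ≠ 0) :
    ∃ (b1 b2 : V) (e : ((ℝ × ℝ) × ℝ) ≃ₗ[ℝ] V),
      ∀ (v : ℝ × ℝ) (r : ℝ), e (v, r) = v.1 • b1 + v.2 • b2 + r • g0 := by
  haveI : FiniteDimensional ℝ V := FiniteDimensional.of_finrank_pos (by omega)
  haveI : Fact (Module.finrank ℝ V = 2 + 1) := ⟨hdim⟩
  have h2 : Module.finrank ℝ (ℝ ∙ g0)ᗮ = 2 := Submodule.finrank_orthogonal_span_singleton hg
  let B := Module.finBasisOfFinrankEq ℝ (ℝ ∙ g0)ᗮ h2
  let T : ((ℝ × ℝ) × ℝ) →ₗ[ℝ] V :=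
    { toFun := fun p => p.1.1 • (B 0 : V) + p.1.2 • (B 1 : V) + p.2 • g0
      map_add' := fun p q => by
        simp only [Prod.fst_add, Prod.snd_add]
        module
      map_smul' := fun c p => by
        simp only [Prod.smul_fst, Prod.smul_snd, smul_eq_mul, RingHom.id_apply]
        module }
  have hT : ∀ p, T p = p.1.1 • (B 0 : V) + p.1.2 • (B 1 : V) + p.2 • g0 := fun p => rfl
  have hinj : Function.Injective T := by
    rw [← LinearMap.ker_eq_bot, LinearMap.ker_eq_bot']
    rintro ⟨⟨a, b⟩, c⟩ hp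
    rw [hT] at hp
    simp only at hp
    have hB0 : ⟪g0, (B 0 : V)⟫ = 0 :=
      (Submodule.mem_orthogonal_singleton_iff_inner_right).1 (B 0).2
    have hB1 : ⟪g0, (B 1 : V)⟫ = 0 :=
      (Submodule.mem_orthogonal_singleton_iff_inner_right).1 (B 1).2
    have h3 : ⟪g0, a • (B 0 : V) + b • (B 1 : V) + c • g0⟫ = 0 := by rw [hp, inner_zero_right]
    rw [inner_add_right, inner_add_right, inner_smul_right, inner_smul_right, inner_smul_right,
      hB0, hB1] at h3
    have h4 : ⟪g0, g0⟫ ≠ 0 := by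
      rw [ne_eq, inner_self_eq_zero]
      exact hg
    have hc : c = 0 := by
      have : c * ⟪g0, g0⟫ = 0 := by linarith
      exact (mul_eq_zero.mp this).resolve_right h4
    rw [hc, zero_smul, add_zero] at hp
    have h5 : a • B 0 + b • B 1 = 0 := by
      apply Subtype.ext
      exact hp
    have h6 := Fintype.linearIndependent_iff.mp B.linearIndependent ![a, b] (by
      rw [Fin.sum_univ_two]
      exact h5)
    have ha : a = 0 := h6 0
    have hb : b = 0 := h6 1
    rw [ha, hb, hc]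
    rfl
  refine ⟨B 0, B 1, LinearMap.linearEquivOfInjective T hinj (by
    rw [hdim]
    simp [Module.finrank_prod]), fun v r => ?_⟩
  rw [LinearMap.linearEquivOfInjective_apply, hT]


/-- case II: either one-sided or approximately convex complement -/
theorem sub_two (hdim : Module.finrank ℝ V = 3) (h : Dat K L X l) {G : Set V} (hG : Gd K L X G)  
    (hadd : ∀ p q, p ∈ U L → p ∉ U K → q ∈ U L → q ∉ U K → p + q ∈ U L ∧ p + q ∉ U K)
    (hadd' : ∀ p q, p ∈ U K → p ∉ U L → q ∈ U K → q ∉ U L → p + q ∈ U K ∧ p + q ∉ U L)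
    (hG' : ∀ g ∈ G, -g ∉ U L) (hint : (interior G).Nonempty) : OneSided K ∨ Sub K G := by 

  haveI : FiniteDimensional ℝ V := FiniteDimensional.of_finrank_pos (by omega)
  haveI : CompleteSpace V := FiniteDimensional.complete ℝ V
  obtain ⟨g0, hg0⟩ := hint
  have hg0G : g0 ∈ G := interior_subset hg0
  have hGne : ∀ g ∈ G, g ≠ 0 := fun g hg => (hG.subL g hg).1
  obtain ⟨b1, b2, e, he⟩ := h441_basis hdim (hGne g0 hg0G)
  have hY0 : ∀ (v : ℝ × ℝ) (r : ℝ), v.1 • b1 + v.2 • b2 + r • g0 = 0 → v = 0 ∧ r = 0 := by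
    intro v r h0
    rw [← he, LinearEquiv.map_eq_zero_iff] at h0
    exact ⟨congrArg Prod.fst h0, congrArg Prod.snd h0⟩
  have hYs : ∀ y : V, ∃ (v : ℝ × ℝ) (r : ℝ), y = v.1 • b1 + v.2 • b2 + r • g0 := by
    intro y
    refine ⟨(e.symm y).1, (e.symm y).2, ?_⟩
    rw [← he]
    simp
  have hYa : ∀ (v w : ℝ × ℝ) (r s : ℝ), (v.1 • b1 + v.2 • b2 + r • g0) +
      (w.1 • b1 + w.2 • b2 + s • g0) = (v + w).1 • b1 + (v + w).2 • b2 + (r + s) • g0 := by
    intro v w r s
    simp only [Prod.fst_add, Prod.snd_add]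
    module
  obtain ⟨φ, hφc, hφh, hφ1, hφ2⟩ := exists_phi (P := U K) (b1 := b1) (b2 := b2) hg0 (fun h0 => h0.1 rfl)
    (fun y hy c hc => U_smul hy hc) hG.smul (fun y hy g hg => by
      by_cases h0 : y - g = 0
      · exact Or.inl h0
      · exact Or.inr (hG.subtK g hg y hy h0)) hG.neg hG.subK
  obtain ⟨ψ, hψc, hψh, hψ1, hψ2⟩ := exists_phi (P := {y | y ≠ 0 ∧ y ∉ U L}) (b1 := b1) (b2 := b2) hg0
    (fun h0 => h0.1 rfl)
    (fun y hy c hc => by
      refine ⟨smul_ne_zero hc.ne' hy.1, fun hcy => hy.2 ?_⟩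
      have h1 := U_smul hcy (inv_pos.mpr hc)
      rwa [inv_smul_smul₀ hc.ne'] at h1) hG.smul (fun y hy g hg => by
      by_cases h0 : y - g = 0
      · exact Or.inl h0
      · refine Or.inr ⟨h0, fun hL => hy.2 ?_⟩
        have h1 := hG.addL g hg (y - g) hL (by rw [sub_add_cancel]; exact hy.1)
        rwa [sub_add_cancel] at h1)
    (fun g hg => ⟨neg_ne_zero.mpr (hGne g hg), hG' g hg⟩)
    (fun g hg hg' => hg'.2 (hG.subL g hg))
  have hφ0 : φ 0 = 0 := by
    have h1 := hφh 2 0 (by norm_num)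
    rw [smul_zero] at h1
    linarith
  have hψ0 : ψ 0 = 0 := by
    have h1 := hψh 2 0 (by norm_num)
    rw [smul_zero] at h1
    linarith
  -- members of D
  have hD : ∀ (v : ℝ × ℝ) (r : ℝ), φ v < r → ψ v < r →
      v.1 • b1 + v.2 • b2 + r • g0 ∈ U L ∧ v.1 • b1 + v.2 • b2 + r • g0 ∉ U K := by
    intro v r h1 h2
    have hne : v.1 • b1 + v.2 • b2 + r • g0 ≠ 0 := by
      intro h0
      obtain ⟨hv, hr⟩ := hY0 v r h0
      rw [hv, hφ0, hr] at h1
      exact lt_irrefl _ h1
    refine ⟨?_, hφ2 v r h1⟩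
    by_contra hL
    exact hψ2 v r h2 ⟨hne, hL⟩
  have hD' : ∀ (v : ℝ × ℝ) (r : ℝ), r < φ v → r < ψ v →
      v.1 • b1 + v.2 • b2 + r • g0 ∈ U K ∧ v.1 • b1 + v.2 • b2 + r • g0 ∉ U L := by
    intro v r h1 h2
    have hne : v.1 • b1 + v.2 • b2 + r • g0 ≠ 0 := by
      intro h0
      obtain ⟨hv, hr⟩ := hY0 v r h0
      rw [hv, hφ0, hr] at h1
      exact lt_irrefl _ h1
    exact ⟨(hφ1 v r h1).resolve_left hne, ((hψ1 v r h2).resolve_left hne).2⟩
  have hmax : ∀ v w, max (φ (v + w)) (ψ (v + w)) ≤ max (φ v) (ψ v) + max (φ w) (ψ w) := by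
    intro v w
    apply le_of_forall_pos_le_add
    intro ε hε
    obtain ⟨y1, y2⟩ := hD v (max (φ v) (ψ v) + ε / 2)
      (by linarith [le_max_left (φ v) (ψ v)]) (by linarith [le_max_right (φ v) (ψ v)])
    obtain ⟨z1, z2⟩ := hD w (max (φ w) (ψ w) + ε / 2)
      (by linarith [le_max_left (φ w) (ψ w)]) (by linarith [le_max_right (φ w) (ψ w)])
    obtain ⟨s1, s2⟩ := hadd _ _ y1 y2 z1 z2
    rw [hYa] at s1 s2
    have hsum : max (φ v) (ψ v) + ε / 2 + (max (φ w) (ψ w) + ε / 2) =
        max (φ v) (ψ v) + max (φ w) (ψ w) + ε := by ring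
    rw [hsum] at s1 s2
    apply max_le
    · by_contra hlt
      push Not at hlt
      rcases hφ1 _ _ hlt with h0 | h0
      · exact s1.1 h0
      · exact s2 h0
    · by_contra hlt
      push Not at hlt
      rcases hψ1 _ _ hlt with h0 | h0
      · exact s1.1 h0
      · exact h0.2 s1
  have hmin : ∀ v w, min (φ v) (ψ v) + min (φ w) (ψ w) ≤ min (φ (v + w)) (ψ (v + w)) := by
    intro v w
    apply le_of_forall_pos_le_add
    intro ε hε
    obtain ⟨y1, y2⟩ := hD' v (min (φ v) (ψ v) - ε / 2)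
      (by linarith [min_le_left (φ v) (ψ v)]) (by linarith [min_le_right (φ v) (ψ v)])
    obtain ⟨z1, z2⟩ := hD' w (min (φ w) (ψ w) - ε / 2)
      (by linarith [min_le_left (φ w) (ψ w)]) (by linarith [min_le_right (φ w) (ψ w)])
    obtain ⟨s1, s2⟩ := hadd' _ _ y1 y2 z1 z2
    rw [hYa] at s1 s2
    have hsum : min (φ v) (ψ v) - ε / 2 + (min (φ w) (ψ w) - ε / 2) =
        min (φ v) (ψ v) + min (φ w) (ψ w) - ε := by ring
    rw [hsum] at s1 s2
    have hle : min (φ v) (ψ v) + min (φ w) (ψ w) - ε ≤ min (φ (v + w)) (ψ (v + w)) := by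
      apply le_min
      · by_contra hlt
        push Not at hlt
        exact hφ2 _ _ hlt s1
      · by_contra hlt
        push Not at hlt
        exact hψ2 _ _ hlt ⟨s1.1, s2⟩
    linarith
  rcases planar hφc hψc hφh hψh hmax hmin with ⟨a, b, hab⟩ | hsub
  · left
    let f0 : ((ℝ × ℝ) × ℝ) →ₗ[ℝ] ℝ :=
      { toFun := fun p => p.2 - a * p.1.1 - b * p.1.2
        map_add' := fun p q => by
          simp only [Prod.fst_add, Prod.snd_add]
          ring
        map_smul' := fun c p => by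
          simp only [Prod.smul_fst, Prod.smul_snd, smul_eq_mul, RingHom.id_apply]
          ring }
    let f1 : V →ₗ[ℝ] ℝ := f0.comp e.symm.toLinearMap
    have hf1 : ∀ (v : ℝ × ℝ) (r : ℝ), f1 (v.1 • b1 + v.2 • b2 + r • g0) = r - a * v.1 - b * v.2 := by
      intro v r
      rw [← he]
      show f0 (e.symm (e (v, r))) = _
      rw [e.symm_apply_apply]
      rfl
    let f : V →L[ℝ] ℝ := LinearMap.toContinuousLinearMap f1
    have hm : ∀ x, ⟪(InnerProductSpace.toDual ℝ V).symm f, x⟫ = f1 x := by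
      intro x
      rw [InnerProductSpace.toDual_symm_apply]
      rfl
    refine ⟨(InnerProductSpace.toDual ℝ V).symm f, ?_, ?_⟩
    · intro h0
      have h1 := hm g0
      rw [h0, inner_zero_left] at h1
      have h2 := hf1 (0, 0) 1
      simp only [zero_smul, one_smul, zero_add, mul_zero, sub_zero] at h2
      rw [h2] at h1
      norm_num at h1
    · intro y hy
      rw [hm]
      by_contra hlt
      push Not at hlt
      obtain ⟨v, r, hvr⟩ := hYs y
      have hyne : y ≠ 0 := by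
        intro h0
        rw [h0, map_zero] at hlt
        exact lt_irrefl _ hlt
      have hyU : y ∈ U K := ⟨hyne, 1, one_pos, by rw [one_smul]; exact hy⟩
      rw [hvr, hf1] at hlt
      have h1 := hab v
      rw [hvr] at hyU
      exact hφ2 v r (by linarith) hyU
  · right
    intro y z hy hz hyK hzK g hg
    obtain ⟨v, r, hvr⟩ := hYs y
    obtain ⟨w, s, hws⟩ := hYs z
    obtain ⟨q, t, hqt⟩ := hYs g
    have hr : φ v ≤ r := by
      by_contra hlt
      push Not at hlt
      rcases hφ1 v r hlt with h0 | h0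
      · exact hy (hvr.trans h0)
      · exact hyK (hvr ▸ h0)
    have hs : φ w ≤ s := by
      by_contra hlt
      push Not at hlt
      rcases hφ1 w s hlt with h0 | h0
      · exact hz (hws.trans h0)
      · exact hzK (hws ▸ h0)
    have ht : φ q < t := by
      have hc : Continuous fun ε : ℝ => g - ε • g0 := by fun_prop
      have h1 : ∀ᶠ ε in 𝓝 (0 : ℝ), g - ε • g0 ∈ interior G := by
        apply hc.continuousAt.eventually
        simp only [zero_smul, sub_zero]
        exact isOpen_interior.mem_nhds hg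
      have h2 : ∀ᶠ ε in 𝓝[>] (0 : ℝ), ε ∈ Ioi (0 : ℝ) := self_mem_nhdsWithin
      obtain ⟨ε, hε1, hε2⟩ := ((h1.filter_mono nhdsWithin_le_nhds).and h2).exists
      have hεG : g - ε • g0 ∈ G := interior_subset hε1
      have h3 : g - ε • g0 = q.1 • b1 + q.2 • b2 + (t - ε) • g0 := by
        rw [hqt]
        module
      have h4 : φ q ≤ t - ε := by
        by_contra hlt
        push Not at hlt
        rcases hφ1 q (t - ε) hlt with h0 | h0
        · exact hGne _ hεG (h3.trans h0)
        · exact hG.subK _ hεG (h3 ▸ h0)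
      have h5 : 0 < ε := hε2
      linarith
    have hfin : φ (v + w + q) < r + s + t := by
      have h1 := hsub v w
      have h2 := hsub (v + w) q
      linarith
    have heq : y + z + g = (v + w + q).1 • b1 + (v + w + q).2 • b2 + (r + s + t) • g0 := by
      rw [hvr, hws, hqt, hYa, hYa]
    rw [heq]
    refine ⟨hφ2 _ _ hfin, fun h0 => ?_⟩
    obtain ⟨h1, h2⟩ := hY0 _ _ h0
    rw [h1, h2, hφ0] at hfin
    exact lt_irrefl _ hfin

end Jsubtwo

end Pool.Agent.Helper613.HS
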