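import Mathlib
import Pool.Agent.Helper613.HSTotal

open Set Filter Topology
open scoped RealInnerProductSpace

namespace Pool.Agent.Helper613.HS

namespace Jtouch


variable {V : Type} [NormedAddCommGroup V] [InnerProductSpace ℝ V]
variable {K L : Set V} {X : V → V} {l : V → ℝ}

/- TARGET: prove this (replace sorry). Auxiliary lemmas before it are welcome. -/

theorem touch (sL : Star L) {c : V} (hc : c ∈ U L) {O : Set V} (hO : IsOpen O) (hcO : c ∈ O) (hOc : ∀ y ∈ O, ∀ t : ℝ, 0 < t → t • y ∈ O) : 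
    ∃ y m : V, y ∈ O ∧ y ∈ L ∧ (∀ t : ℝ, 1 < t → t • y ∉ L) ∧ 0 < ⟪m, y⟫ ∧ 
      ∀ v : V, (∃ δ : ℝ, 0 < δ ∧ ∀ ε : ℝ, 0 < ε → ε < δ → y + ε • v ∈ L) → ⟪m, v⟫ ≤ 0 := by
  -- normalise
  obtain ⟨c, hcn, hcO, ρ, hρ, hρL⟩ : ∃ c' : V, ‖c'‖ = 1 ∧ c' ∈ O ∧ ∃ ρ : ℝ, 0 < ρ ∧ ρ • c' ∈ L := by
    obtain ⟨hc0, t, ht, htL⟩ := hc
    have hn : 0 < ‖c‖ := norm_pos_iff.2 hc0
    refine ⟨‖c‖⁻¹ • c, ?_, hOc c hcO _ (inv_pos.2 hn), t * ‖c‖, by positivity, ?_⟩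
    · rw [norm_smul, norm_inv, norm_norm, inv_mul_cancel₀ hn.ne']
    · rw [smul_smul, mul_assoc, mul_inv_cancel₀ hn.ne', mul_one]
      exact htL
  obtain ⟨δ, hδ, hball⟩ := Metric.isOpen_iff.1 hO c hcO
  set M : ℝ := 1 / δ ^ 2 with hM
  have hM0 : 0 < M := by positivity
  have hMδ : 1 / M = δ ^ 2 := by rw [hM]; field_simp
  have hcc : ⟪c, c⟫ = 1 := by rw [real_inner_self_eq_norm_sq, hcn, one_pow]
  have hcone : ∀ y : V, 0 < ⟪c, y⟫ → M * ‖y‖ ^ 2 < (1 + M) * ⟪c, y⟫ ^ 2 → y ∈ O := by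
    intro y h1 h2
    set τ := ⟪c, y⟫ with hτ
    have h3 : ‖τ⁻¹ • y - c‖ ^ 2 = ‖y‖ ^ 2 / τ ^ 2 - 1 := by
      rw [norm_sub_sq_real, norm_smul, hcn, real_inner_smul_left, real_inner_comm, ← hτ,
        Real.norm_eq_abs, abs_of_pos (inv_pos.2 h1)]
      field_simp
      ring
    have h4 : ‖τ⁻¹ • y - c‖ ^ 2 < δ ^ 2 := by
      rw [h3, ← hMδ, sub_lt_iff_lt_add, div_lt_iff₀ (by positivity)]
      have : (1 / M + 1) * τ ^ 2 = ((1 + M) * τ ^ 2) / M := by field_simp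
      rw [this, lt_div_iff₀ hM0]
      linarith
    have h5 : ‖τ⁻¹ • y - c‖ < δ := lt_of_pow_lt_pow_left₀ 2 hδ.le h4
    have h6 : τ⁻¹ • y ∈ O := hball (by rw [Metric.mem_ball, dist_eq_norm]; exact h5)
    have h7 := hOc _ h6 τ h1
    rwa [smul_smul, mul_inv_cancel₀ h1.ne', one_smul] at h7
  -- the compact set
  set L1 : Set V := {y | y ∈ L ∧ ρ / 2 ≤ ⟪c, y⟫ ∧ M * ‖y‖ ^ 2 ≤ (1 + M) * ⟪c, y⟫ ^ 2} with hL1
  have hL1c : IsCompact L1 := by
    have h1 : IsClosed {y : V | ρ / 2 ≤ ⟪c, y⟫} :=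
      isClosed_le continuous_const (continuous_const.inner continuous_id)
    have h2 : IsClosed {y : V | M * ‖y‖ ^ 2 ≤ (1 + M) * ⟪c, y⟫ ^ 2} :=
      isClosed_le (continuous_const.mul (continuous_norm.pow 2))
        (continuous_const.mul ((continuous_const.inner continuous_id).pow 2))
    exact sL.cpt.inter_right (h1.inter h2)
  have hρτ : ⟪c, ρ • c⟫ = ρ := by rw [real_inner_smul_right, hcc, mul_one]
  have hρn : ‖ρ • c‖ = ρ := by rw [norm_smul, hcn, mul_one, Real.norm_eq_abs, abs_of_pos hρ]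
  have hρL1 : ρ • c ∈ L1 := by
    refine ⟨hρL, ?_, ?_⟩
    · rw [hρτ]; linarith
    · rw [hρτ, hρn]; nlinarith [sq_nonneg ρ]
  set Ψ : V → ℝ := fun y => (1 + M) * ⟪c, y⟫ - M * ‖y‖ ^ 2 / ⟪c, y⟫ with hΨ
  have hΨc : ContinuousOn Ψ L1 := by
    have h1 : Continuous fun y : V => ⟪c, y⟫ := continuous_const.inner continuous_id
    refine ContinuousOn.sub (continuous_const.mul h1).continuousOn ?_
    refine ContinuousOn.div (continuous_const.mul (continuous_norm.pow 2)).continuousOn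
      h1.continuousOn ?_
    intro y hy
    have := hy.2.1
    exact (by linarith : (0 : ℝ) < ⟪c, y⟫).ne'
  obtain ⟨y, hyL1, hmax⟩ := hL1c.exists_isMaxOn ⟨_, hρL1⟩ hΨc
  set τ := ⟪c, y⟫ with hτ
  set s := Ψ y with hs
  have hτ0 : 0 < τ := by
    have := hyL1.2.1
    linarith
  have hsρ : ρ ≤ s := by
    have h1 : Ψ (ρ • c) ≤ s := hmax hρL1
    have h2 : Ψ (ρ • c) = ρ := by
      rw [hΨ]
      simp only
      rw [hρτ, hρn]
      field_simp
      ring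
    linarith
  have hsτ : s * τ = (1 + M) * τ ^ 2 - M * ‖y‖ ^ 2 := by
    rw [hs, hΨ]
    simp only
    rw [← hτ]
    field_simp
  have hτn : τ ≤ ‖y‖ := by
    have := real_inner_le_norm c y
    rwa [hcn, one_mul] at this
  have hsle : s ≤ τ := by
    have h1 : s * τ ≤ τ * τ := by
      rw [hsτ]
      have h2 : τ ^ 2 ≤ ‖y‖ ^ 2 := pow_le_pow_left₀ hτ0.le hτn 2
      have h3 := mul_le_mul_of_nonneg_left h2 hM0.le
      linarith
    exact le_of_mul_le_mul_right h1 hτ0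
  have hs0 : 0 < s := by linarith
  have hsτ0 : 0 < s * τ := by positivity
  refine ⟨y, (2 * (1 + M) * τ - s) • c - (2 * M) • y, hcone y hτ0 (by linarith), hyL1.1, ?_, ?_, ?_⟩
  · intro t ht htL
    have ht0 : 0 < t := by linarith
    have e1 : ⟪c, t • y⟫ = t * τ := by rw [real_inner_smul_right]
    have e2 : ‖t • y‖ ^ 2 = t ^ 2 * ‖y‖ ^ 2 := by
      rw [norm_smul, mul_pow, Real.norm_eq_abs, sq_abs]
    have h1 : t • y ∈ L1 := by
      refine ⟨htL, ?_, ?_⟩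
      · rw [e1]
        have := hyL1.2.1
        nlinarith
      · rw [e1, e2]
        have h2 := mul_le_mul_of_nonneg_left hyL1.2.2 (sq_nonneg t)
        have e3 : (1 + M) * (t * τ) ^ 2 = t ^ 2 * ((1 + M) * τ ^ 2) := by ring
        have e4 : M * (t ^ 2 * ‖y‖ ^ 2) = t ^ 2 * (M * ‖y‖ ^ 2) := by ring
        rw [e3, e4]
        exact h2
    have h2 : Ψ (t • y) ≤ s := hmax h1
    have h3 : Ψ (t • y) = t * s := by
      rw [hs, hΨ]
      simp only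
      rw [e1, e2, ← hτ]
      field_simp
    rw [h3] at h2
    nlinarith
  · have e1 : ⟪(2 * (1 + M) * τ - s) • c - (2 * M) • y, y⟫ = s * τ := by
      rw [inner_sub_left, real_inner_smul_left, real_inner_smul_left, real_inner_self_eq_norm_sq,
        ← hτ]
      linarith
    rw [e1]
    exact hsτ0
  · rintro v ⟨δ', hδ', hv⟩
    set m := (2 * (1 + M) * τ - s) • c - (2 * M) • y with hm
    set Q : ℝ := (1 + M) * ⟪c, v⟫ ^ 2 - M * ‖v‖ ^ 2 with hQ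
    have hlim : Tendsto (fun ε : ℝ => ⟪m, v⟫ + ε * Q) (𝓝[>] 0) (𝓝 (⟪m, v⟫ + 0 * Q)) := by
      refine Tendsto.mono_left ?_ nhdsWithin_le_nhds
      exact (by fun_prop : Continuous fun ε : ℝ => ⟪m, v⟫ + ε * Q).tendsto 0
    rw [zero_mul, add_zero] at hlim
    refine le_of_tendsto hlim ?_
    have c1 : ∀ᶠ ε : ℝ in 𝓝[>] 0, ρ / 2 < ⟪c, y + ε • v⟫ := by
      refine nhdsWithin_le_nhds ?_
      have hc : Continuous fun ε : ℝ => ⟪c, y + ε • v⟫ := by fun_prop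
      refine (hc.tendsto 0).eventually_const_lt ?_
      rw [zero_smul, add_zero]
      linarith
    have c2 : ∀ᶠ ε : ℝ in 𝓝[>] 0, M * ‖y + ε • v‖ ^ 2 < (1 + M) * ⟪c, y + ε • v⟫ ^ 2 := by
      refine nhdsWithin_le_nhds ?_
      have hc1 : Continuous fun ε : ℝ => M * ‖y + ε • v‖ ^ 2 := by fun_prop
      have hc2 : Continuous fun ε : ℝ => (1 + M) * ⟪c, y + ε • v⟫ ^ 2 := by fun_prop
      refine (hc1.tendsto 0).eventually_lt (hc2.tendsto 0) ?_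
      rw [zero_smul, add_zero]
      linarith
    have c3 : ∀ᶠ ε : ℝ in 𝓝[>] 0, ε < δ' := nhdsWithin_le_nhds (eventually_lt_nhds hδ')
    filter_upwards [c1, c2, c3, self_mem_nhdsWithin] with ε h1 h2 h3 h4
    have h4' : 0 < ε := h4
    have hmem : y + ε • v ∈ L1 := ⟨hv ε h4' h3, h1.le, h2.le⟩
    have h5 : Ψ (y + ε • v) ≤ s := hmax hmem
    have hτp : 0 < ⟪c, y + ε • v⟫ := by linarith
    have h6 : Ψ (y + ε • v) * ⟪c, y + ε • v⟫ =
        (1 + M) * ⟪c, y + ε • v⟫ ^ 2 - M * ‖y + ε • v‖ ^ 2 := by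
      rw [hΨ]
      simp only
      field_simp
    have h7 : (1 + M) * ⟪c, y + ε • v⟫ ^ 2 - M * ‖y + ε • v‖ ^ 2 ≤ s * ⟪c, y + ε • v⟫ := by
      rw [← h6]
      exact mul_le_mul_of_nonneg_right h5 hτp.le
    have e1 : ⟪c, y + ε • v⟫ = τ + ε * ⟪c, v⟫ := by
      rw [inner_add_right, real_inner_smul_right]
    have e2 : ‖y + ε • v‖ ^ 2 = ‖y‖ ^ 2 + 2 * (ε * ⟪y, v⟫) + ε ^ 2 * ‖v‖ ^ 2 := by
      rw [norm_add_sq_real, real_inner_smul_right, norm_smul, mul_pow, Real.norm_eq_abs, sq_abs]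
    have e3 : ⟪m, v⟫ = (2 * (1 + M) * τ - s) * ⟪c, v⟫ - 2 * M * ⟪y, v⟫ := by
      rw [hm, inner_sub_left, real_inner_smul_left, real_inner_smul_left]
    rw [e1, e2] at h7
    have h8 : ε * (⟪m, v⟫ + ε * Q) ≤ ε * 0 := by
      rw [e3, hQ]
      nlinarith
    exact le_of_mul_le_mul_left h8 h4'

end Jtouch

end Pool.Agent.Helper613.HS
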