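import Mathlib
import Pool.Agent.Helper613.HSTotal

open Set Filter Topology
open scoped RealInnerProductSpace

namespace Pool.Agent.Helper613.HS

namespace Jtwoe

variable {V : Type} [NormedAddCommGroup V] [InnerProductSpace ℝ V]
variable {K L : Set V} {X : V → V} {l : V → ℝ}
























/- TARGET: prove this (replace sorry). Auxiliary lemmas before it are welcome. -/

open scoped Pointwise in
theorem two_e_int_smul {G : Set V} (hG : Gd K L X G) {p : V} (hp : p ∈ interior G) {c : ℝ} (hc : 0 < c) :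
    c • p ∈ interior G := by
  have h1 : c • p ∈ c • interior G := smul_mem_smul_set hp
  rw [← interior_smul₀ hc.ne'] at h1
  refine interior_mono ?_ h1
  rintro _ ⟨g, hg, rfl⟩
  exact hG.smul g hg c hc

theorem two_e_ne {G : Set V} (hG : Gd K L X G) {e p : V} (hp : p ∈ interior G)
    (H : ∀ α β : ℝ, 0 < β → α • e + β • p ∉ U K) {α β : ℝ} (hβ : 0 < β) : α • e + β • p ≠ 0 := by
  intro h0
  refine H (2 * α / β) 1 one_pos ?_
  have h1 : (2 * α / β) • e + (1 : ℝ) • p = -p := by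
    have h2 : α • e = - (β • p) := eq_neg_of_add_eq_zero_left h0
    have h3 : (2 * α / β) • e = (2 / β) • (α • e) := by rw [smul_smul]; congr 1; ring
    rw [h3, h2, smul_neg, smul_smul, div_mul_cancel₀ _ hβ.ne']
    module
  rw [h1]
  exact hG.neg p (interior_subset hp)

theorem two_e_star {G : Set V} (hG : Gd K L X G) (hS : Sub K G) {e e' p1 p2 : V}
    (hp1 : p1 ∈ interior G) (H1 : ∀ α β : ℝ, 0 < β → α • e + β • p1 ∉ U K)
    (hp2 : p2 ∈ interior G) (H2 : ∀ α β : ℝ, 0 < β → α • e' + β • p2 ∉ U K)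
    (α α' : ℝ) {g : V} (hg : g ∈ interior G) : α • e + α' • e' + g ∉ U K ∧ α • e + α' • e' + g ≠ 0 := by
  have hc : Continuous fun β : ℝ => g - β • (p1 + p2) := by fun_prop
  have hev : ∀ᶠ β : ℝ in 𝓝 0, g - β • (p1 + p2) ∈ interior G := by
    refine hc.continuousAt.eventually_mem ?_
    simp only [zero_smul, sub_zero]
    exact isOpen_interior.mem_nhds hg
  have hev2 : ∀ᶠ β : ℝ in 𝓝[>] (0 : ℝ), g - β • (p1 + p2) ∈ interior G ∧ 0 < β :=
    (hev.filter_mono nhdsWithin_le_nhds).and self_mem_nhdsWithin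
  obtain ⟨β, hβ, hβ0⟩ := hev2.exists
  have := hS (α • e + β • p1) (α' • e' + β • p2) (two_e_ne hG hp1 H1 hβ0) (two_e_ne hG hp2 H2 hβ0)
    (H1 α β hβ0) (H2 α' β hβ0) _ hβ
  have heq : α • e + β • p1 + (α' • e' + β • p2) + (g - β • (p1 + p2)) = α • e + α' • e' + g := by
    module
  rw [heq] at this
  exact this

theorem two_e (hdim : Module.finrank ℝ V = 3) (h : Dat K L X l) {G : Set V} (hG : Gd K L X G) (hS : Sub K G) {e e' : V} 
    (he : EE K G e) (he' : EE K G e') (hind : LinearIndependent ℝ ![e, e']) : OneSided K := by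
  obtain ⟨-, p1, hp1, H1⟩ := he
  obtain ⟨-, p2, hp2, H2⟩ := he'
  have star := fun α α' (g : V) (hg : g ∈ interior G) => two_e_star hG hS hp1 H1 hp2 H2 α α' hg
  -- a normal with positive product with p1
  obtain ⟨m, hm, hme, hme', hmp⟩ : ∃ m : V, m ≠ 0 ∧ ⟪m, e⟫ = 0 ∧ ⟪m, e'⟫ = 0 ∧ 0 < ⟪m, p1⟫ := by
    obtain ⟨m, hm, h1, h2⟩ := exists_normal hdim e e'
    have hne : ⟪m, p1⟫ ≠ 0 := by
      intro h3
      obtain ⟨α, β, hz⟩ := plane_coord hdim hm h1 h2 h3 hind
      refine (star (-α) (-β) p1 hp1).2 ?_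
      rw [hz]
      module
    rcases lt_or_gt_of_ne hne with h4 | h4
    · refine ⟨-m, neg_ne_zero.2 hm, ?_, ?_, ?_⟩
      · rw [inner_neg_left, h1, neg_zero]
      · rw [inner_neg_left, h2, neg_zero]
      · rw [inner_neg_left]; linarith
    · exact ⟨m, hm, h1, h2, h4⟩
  refine ⟨m, hm, fun y hy => ?_⟩
  by_contra hcon
  push Not at hcon
  have hc : 0 < ⟪m, y⟫ / ⟪m, p1⟫ := div_pos hcon hmp
  set c : ℝ := ⟪m, y⟫ / ⟪m, p1⟫ with hcdef
  have hz : ⟪m, y - c • p1⟫ = 0 := by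
    rw [inner_sub_right, inner_smul_right, hcdef, div_mul_cancel₀ _ hmp.ne', sub_self]
  obtain ⟨α, β, hαβ⟩ := plane_coord hdim hm hme hme' hz hind
  refine (star α β (c • p1) (two_e_int_smul hG hp1 hc)).1 ?_
  rw [← hαβ, sub_add_cancel]
  refine ⟨?_, 1, one_pos, by rwa [one_smul]⟩
  rintro rfl
  rw [inner_zero_right] at hcon
  exact lt_irrefl _ hcon

end Jtwoe

end Pool.Agent.Helper613.HS
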