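import Mathlib
import Pool.Agent.Helper613.HSTotal

open Set Filter Topology
open scoped RealInnerProductSpace

namespace Pool.Agent.Helper613.HS

namespace Jzeroplane


variable {V : Type} [NormedAddCommGroup V] [InnerProductSpace ℝ V]
variable {K L : Set V} {X : V → V} {l : V → ℝ}
























/- TARGET: prove this (replace sorry). Auxiliary lemmas before it are welcome. -/

theorem zero_plane_neg (h : Dat K L X l) {u p : V} (hu : u ≠ 0) (hup : ⟪u, p⟫ = 0) (hp : p ∈ U L) : X (-u) = X u := by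
  obtain ⟨hp0, t, ht, htp⟩ := hp
  have hu' : -u ≠ 0 := neg_ne_zero.mpr hu
  obtain ⟨h1, h2, h3⟩ := h.hm u hu
  obtain ⟨k1, k2, k3⟩ := h.hm (-u) hu'
  rw [inner_neg_left, neg_eq_zero] at k1
  have hbd : Bornology.IsBounded {y : V | y ∈ L ∧ ⟪u, y⟫ = 0} := 
    h.sL.cpt.isBounded.subset (fun y hy => hy.1)
  refine (uniq (A := {y : V | y ∈ L ∧ ⟪u, y⟫ = 0}) (B := {y : V | y ∈ K ∧ ⟪u, y⟫ = 0}) hbd (a := 0) (b := t • p) 
    ⟨h.sL.zero, inner_zero_right _⟩ ⟨htp, by rw [inner_smul_right, hup, mul_zero]⟩ 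
    (fun hc => hp0 ((smul_eq_zero.mp hc.symm).resolve_left ht.ne')) k2 h2 ?_ ?_).1
  · intro y
    constructor
    · rintro ⟨hy, hy'⟩
      refine ⟨(k3 y (by rw [inner_neg_left, hy', neg_zero])).mp hy, ?_⟩
      rw [inner_add_right, inner_smul_right, hy', k1]; ring
    · rintro ⟨hy, hy'⟩
      rw [inner_add_right, inner_smul_right, k1, zero_add] at hy'
      have hy'' : ⟪u, y⟫ = 0 := (mul_eq_zero.mp hy').resolve_left k2.ne'
      exact ⟨(k3 y (by rw [inner_neg_left, hy'', neg_zero])).mpr hy, hy''⟩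
  · intro y
    constructor
    · rintro ⟨hy, hy'⟩
      refine ⟨(h3 y hy').mp hy, ?_⟩
      rw [inner_add_right, inner_smul_right, hy', h1]; ring
    · rintro ⟨hy, hy'⟩
      rw [inner_add_right, inner_smul_right, h1, zero_add] at hy'
      have hy'' : ⟪u, y⟫ = 0 := (mul_eq_zero.mp hy').resolve_left h2.ne'
      exact ⟨(h3 y hy'').mpr hy, hy''⟩

theorem zero_plane (hdim : Module.finrank ℝ V = 3) (h : Dat K L X l) {G : Set V} (hG : Gd K L X G) 
    (hcont : ∀ u0 g0 : V, u0 ≠ 0 → g0 ∈ interior G → ⟪u0, g0⟫ = 0 → ContinuousAt X u0) {p : V} (hp : p ∈ interior G) : 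
    ∃ u, u ≠ 0 ∧ ⟪u, p⟫ = 0 ∧ ∃ c : ℝ, c < 0 ∧ X u = c • p := by
  have hpG : p ∈ G := interior_subset hp
  have hpL : p ∈ U L := hG.subL p hpG
  have hp0 : p ≠ 0 := hpL.1
  obtain ⟨a, ha0, hap, -⟩ := exists_normal hdim p p
  obtain ⟨b, hb0, hba, hbp⟩ := exists_normal hdim a p
  have hab : ⟪a, b⟫ = 0 := by rw [real_inner_comm]; exact hba
  have haa : (0:ℝ) < ⟪a, a⟫ := real_inner_self_pos.mpr ha0
  have hbb : (0:ℝ) < ⟪b, b⟫ := real_inner_self_pos.mpr hb0
  set A : ℝ := ⟪a, a⟫ with hA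
  set B : ℝ := ⟪b, b⟫ with hB
  let u : ℝ → V := fun θ => Real.cos θ • a + Real.sin θ • b
  let v : ℝ → V := fun θ => (-(Real.sin θ) * B) • a + (Real.cos θ * A) • b
  have hud : ∀ θ, u θ = Real.cos θ • a + Real.sin θ • b := fun _ => rfl
  have hvd : ∀ θ, v θ = (-(Real.sin θ) * B) • a + (Real.cos θ * A) • b := fun _ => rfl
  have hup : ∀ θ, ⟪u θ, p⟫ = 0 := by
    intro θ
    rw [hud, inner_add_left, inner_smul_left, inner_smul_left, hap, hbp]; simp
  have hvp : ∀ θ, ⟪v θ, p⟫ = 0 := by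
    intro θ
    rw [hvd, inner_add_left, inner_smul_left, inner_smul_left, hap, hbp]; simp
  have hua : ∀ θ, ⟪u θ, a⟫ = Real.cos θ * A := by
    intro θ
    rw [hud, inner_add_left, inner_smul_left, inner_smul_left, hba]; simp [hA]
  have hub : ∀ θ, ⟪u θ, b⟫ = Real.sin θ * B := by
    intro θ
    rw [hud, inner_add_left, inner_smul_left, inner_smul_left, hab]; simp [hB]
  have huv : ∀ θ, ⟪u θ, v θ⟫ = 0 := by
    intro θ
    rw [hvd, inner_add_right, inner_smul_right, inner_smul_right, hua, hub]; ring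
  have hu0 : ∀ θ, u θ ≠ 0 := by
    intro θ hz
    have h1 := hua θ
    have h2 := hub θ
    rw [hz, inner_zero_left] at h1 h2
    have h3 : Real.cos θ = 0 := (mul_eq_zero.mp h1.symm).resolve_right haa.ne'
    have h4 : Real.sin θ = 0 := (mul_eq_zero.mp h2.symm).resolve_right hbb.ne'
    have := Real.sin_sq_add_cos_sq θ
    rw [h3, h4] at this; norm_num at this
  have hva : ∀ θ, ⟪v θ, a⟫ = -(Real.sin θ) * B * A := by
    intro θ
    rw [hvd, inner_add_left, inner_smul_left, inner_smul_left, hba]; simp [hA]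
  have hvb : ∀ θ, ⟪v θ, b⟫ = Real.cos θ * A * B := by
    intro θ
    rw [hvd, inner_add_left, inner_smul_left, inner_smul_left, hab]; simp [hB]
  have hv0 : ∀ θ, v θ ≠ 0 := by
    intro θ hz
    have h1 := hva θ
    have h2 := hvb θ
    rw [hz, inner_zero_left] at h1 h2
    have h3 : Real.cos θ = 0 := by
      rcases mul_eq_zero.mp h2.symm with h | h
      · exact (mul_eq_zero.mp h).resolve_right haa.ne'
      · exact absurd h hbb.ne'
    have h4 : Real.sin θ = 0 := by
      rcases mul_eq_zero.mp h1.symm with h | h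
      · exact neg_eq_zero.mp ((mul_eq_zero.mp h).resolve_right hbb.ne')
      · exact absurd h haa.ne'
    have := Real.sin_sq_add_cos_sq θ
    rw [h3, h4] at this; norm_num at this
  have hcu : Continuous u := by
    show Continuous fun θ : ℝ => Real.cos θ • a + Real.sin θ • b
    exact (Real.continuous_cos.smul continuous_const).add (Real.continuous_sin.smul continuous_const)
  have hcv : Continuous v := by
    show Continuous fun θ : ℝ => (-(Real.sin θ) * B) • a + (Real.cos θ * A) • b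
    exact ((Real.continuous_sin.neg.mul continuous_const).smul continuous_const).add ((Real.continuous_cos.mul continuous_const).smul continuous_const)
  have hcX : Continuous fun θ => X (u θ) := by
    rw [continuous_iff_continuousAt]
    intro θ
    exact (hcont (u θ) p (hu0 θ) hp (hup θ)).comp hcu.continuousAt
  have hcF : Continuous fun θ => ⟪X (u θ), v θ⟫ := hcX.inner hcv
  have hpi : u Real.pi = -u 0 := by
    rw [hud, hud]; simp
  have hvpi : v Real.pi = -v 0 := by
    rw [hvd, hvd]; simp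
  have hF : ⟪X (u Real.pi), v Real.pi⟫ = -⟪X (u 0), v 0⟫ := by
    rw [hpi, hvpi, zero_plane_neg h (hu0 0) (hup 0) hpL, inner_neg_right]
  obtain ⟨θ, hθ⟩ : ∃ θ, ⟪X (u θ), v θ⟫ = 0 := by
    rcases le_total 0 ⟪X (u 0), v 0⟫ with h0 | h0
    · have := intermediate_value_univ Real.pi 0 hcF
      exact this ⟨by show ⟪X (u Real.pi), v Real.pi⟫ ≤ 0; rw [hF]; linarith, h0⟩
    · have := intermediate_value_univ 0 Real.pi hcF
      exact this ⟨h0, by show 0 ≤ ⟪X (u Real.pi), v Real.pi⟫; rw [hF]; linarith⟩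
  have hli : LinearIndependent ℝ ![p, v θ] := by
    rw [LinearIndependent.pair_iff]
    intro s t hst
    have h1 : ⟪v θ, s • p + t • v θ⟫ = 0 := by rw [hst, inner_zero_right]
    rw [inner_add_right, inner_smul_right, inner_smul_right, hvp, mul_zero, zero_add] at h1
    have ht : t = 0 := (mul_eq_zero.mp h1).resolve_right (real_inner_self_pos.mpr (hv0 θ)).ne'
    rw [ht, zero_smul, add_zero] at hst
    exact ⟨(smul_eq_zero.mp hst).resolve_right hp0, ht⟩
  obtain ⟨α, β, hαβ⟩ := plane_coord hdim (hu0 θ) (hup θ) (huv θ) (h.hm (u θ) (hu0 θ)).1 hli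
  have hβ : β = 0 := by
    rw [hαβ, inner_add_left, inner_smul_left, inner_smul_left, real_inner_comm, hvp] at hθ
    simp at hθ
    exact hθ.resolve_right (hv0 θ)
  rw [hβ, zero_smul, add_zero] at hαβ
  refine ⟨u θ, hu0 θ, hup θ, α, ?_, hαβ⟩
  have hz := hG.zer (u θ) (hu0 θ) p hpG (hup θ)
  rcases lt_trichotomy α 0 with hα | hα | hα
  · exact hα
  · exfalso
    rw [hαβ, hα, zero_smul, neg_zero] at hz
    exact (hG.subL _ hz).1 rfl
  · exfalso
    have h1 := hG.smul _ hz α⁻¹ (inv_pos.mpr hα)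
    rw [hαβ, ← smul_neg, smul_smul, inv_mul_cancel₀ hα.ne', one_smul] at h1
    exact hG.subK _ h1 (hG.neg p hpG)

end Jzeroplane

end Pool.Agent.Helper613.HS
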