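import Mathlib
import Pool.Agent.Helper613.HSTotal
import Pool.Agent.Helper613.HSJantip
import Pool.Agent.Helper613.HSJDadd
import Pool.Agent.Helper613.HSJcase7a
import Pool.Agent.Helper613.HSJcase7c
import Pool.Agent.Helper613.HSJgdtwo
import Pool.Agent.Helper613.HSJcontXL
import Pool.Agent.Helper613.HSJzeroplane
import Pool.Agent.Helper613.HSJtouch
import Pool.Agent.Helper613.HSJhalf
import Pool.Agent.Helper613.HSJtwoe
import Pool.Agent.Helper613.HSJfinalcontra
import Pool.Agent.Helper613.HSJsubtwo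

open Set Filter Topology
open scoped RealInnerProductSpace Pointwise

namespace Pool.Agent.Helper613.HS

variable {V : Type} [NormedAddCommGroup V] [InnerProductSpace ℝ V] {K L : Set V} {X : V → V} {l : V → ℝ}

lemma interior_cone {G : Set V} (hG : ∀ g ∈ G, ∀ c : ℝ, 0 < c → c • g ∈ G) : ∀ y ∈ interior G, ∀ t : ℝ, 0 < t → t • y ∈ interior G := by
  intro y hy t ht
  have h1 : t • G ⊆ G := by
    rintro _ ⟨g, hg, rfl⟩
    exact hG g hg t ht
  have h2 : t • y ∈ interior (t • G) := by
    rw [interior_smul₀ ht.ne']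
    exact ⟨y, hy, rfl⟩
  exact interior_mono h1 h2

/-- the final contradiction: a good cone with nonempty interior and approximately convex complement forces one-sidedness -/
theorem finish (hdim : Module.finrank ℝ V = 3) (h : Dat K L X l) {G : Set V} (hG : Gd K L X G) (hint : (interior G).Nonempty)
    (hS : Sub K G) : OneSided K := by
  by_contra hK
  have hcont : ∀ u0 g0 : V, u0 ≠ 0 → g0 ∈ interior G → ⟪u0, g0⟫ = 0 → ContinuousAt X u0 := by
    intro u0 g0 h1 h2 h3
    exact (JcontXL.cont_XL hdim h hG h1 h2 h3).fst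
  -- for every open cone in the interior
  have hO : ∀ O : Set V, IsOpen O → (∀ y ∈ O, ∀ t : ℝ, 0 < t → t • y ∈ O) → O.Nonempty → O ⊆ interior G → 
      ∃ p ∈ O, ∃ u, u ≠ 0 ∧ ⟪u, p⟫ = 0 ∧ (∃ c : ℝ, X u = c • p) ∧ ∃ e, EE K G e ∧ ⟪u, e⟫ = 0 := by
    rintro O hO1 hO2 ⟨c, hc⟩ hO3
    have hcL : c ∈ U L := hG.subL c (interior_subset (hO3 hc))
    obtain ⟨y, m, hyO, hyL, hmax, hmy, hm⟩ := Jtouch.touch h.sL hcL hO1 hc hO2
    obtain ⟨u, hu, huy, c', hc', hX⟩ := Jzeroplane.zero_plane hdim h hG hcont (hO3 hyO)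
    have hh := Jhalf.half h hG hu huy (hO3 hyO) hc' hX hyL hmax hm
    obtain ⟨e, he0, heu, hem⟩ := exists_normal hdim u m
    rw [real_inner_comm] at heu hem
    refine ⟨y, hyO, u, hu, huy, ⟨c', hX⟩, e, ⟨he0, y, hO3 hyO, fun α β hβ => ?_⟩, heu⟩
    apply hh
    · rw [inner_add_right, inner_smul_right, inner_smul_right, huy, heu]; ring
    · rw [inner_add_right, inner_smul_right, inner_smul_right, hem]
      have : 0 < β * ⟪m, y⟫ := mul_pos hβ hmy
      linarith
  obtain ⟨-, -, -, -, -, -, e, he, -⟩ := hO (interior G) isOpen_interior (interior_cone hG.smul) hint subset_rfl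
  refine Jfinalcontra.final_contra hdim h hG hcont hint he.1 ?_
  intro O h1 h2 h3 h4
  obtain ⟨p, hp, u, hu, hup, hX, e', he', hue'⟩ := hO O h1 h2 h3 h4
  refine ⟨p, hp, u, hu, hup, ?_, hX⟩
  by_cases hind : LinearIndependent ℝ ![e, e']
  · exact absurd (Jtwoe.two_e hdim h hG hS he he' hind) hK
  · rw [LinearIndependent.pair_iff] at hind
    push Not at hind
    obtain ⟨s, t, hst, hne⟩ := hind
    by_cases hs : s = 0
    · have ht := hne hs
      rw [hs, zero_smul, zero_add] at hst
      exact absurd ((smul_eq_zero.1 hst).resolve_left ht) he'.1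
    · have : s * ⟪u, e⟫ = 0 := by
        have h5 : ⟪u, s • e + t • e'⟫ = 0 := by rw [hst, inner_zero_right]
        rw [inner_add_right, inner_smul_right, inner_smul_right, hue', mul_zero, add_zero] at h5
        exact h5
      exact (mul_eq_zero.1 this).resolve_left hs

/-- the case where `K` misses a direction of `L` -/
theorem main7 (hdim : Module.finrank ℝ V = 3) (h : Dat K L X l) (hK : ¬ OneSided K) (hL : ¬ OneSided L) {p : V} (hp : p ∈ U L) (hp' : p ∉ U K) : 
    Hmt K L := by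
  have hno : ∀ c, c ∈ U L → c ∉ U K → -c ∈ U L → -c ∈ U K := by
    intro c h1 h2 h3
    by_contra h4
    exact hK (Jantip.antip hdim h h1 h2 h3 h4)
  have hno' : ∀ c, c ∈ U K → c ∉ U L → -c ∈ U K → -c ∈ U L := by
    intro c h1 h2 h3
    by_contra h4
    exact hL (Jantip.antip hdim h.swap h1 h2 h3 h4)
  have hadd : ∀ p q, p ∈ U L → p ∉ U K → q ∈ U L → q ∉ U K → p + q ∈ U L ∧ p + q ∉ U K := fun p q h1 h2 h3 h4 => 
    JDadd.D_add hdim h hno h1 h2 h3 h4
  have hadd' : ∀ p q, p ∈ U K → p ∉ U L → q ∈ U K → q ∉ U L → p + q ∈ U K ∧ p + q ∉ U L := fun p q h1 h2 h3 h4 => 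
    JDadd.D_add hdim h.swap hno' h1 h2 h3 h4
  by_cases hD' : ∃ q, q ∈ U K ∧ q ∉ U L
  · obtain ⟨q, hq, hq'⟩ := hD'
    have hG := Jgdtwo.gd_two hdim h hno hno'
    set G : Set V := {g | g ∈ U L ∧ g ∉ U K ∧ -g ∈ U K ∧ -g ∉ U L} with hGdef
    have hne : G.Nonempty := by
      obtain ⟨u, hu, hup, huq⟩ := exists_normal hdim p q
      obtain ⟨h1, h2⟩ := negx_mem_D h hu hup hp hp'
      obtain ⟨h3, h4⟩ := x_mem_D' h hu huq hq hq'
      exact ⟨-X u, h1, h2, by rw [neg_neg]; exact h3, by rw [neg_neg]; exact h4⟩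
    by_cases hint : interior G = ∅
    · exact Jcase7c.case7c hdim h hne hG.subL hG.smul hG.add hG.zer hint
    · have hint' : (interior G).Nonempty := nonempty_iff_ne_empty.2 hint
      rcases Jsubtwo.sub_two hdim h hG hadd hadd' (fun g hg => hg.2.2.2) hint' with h1 | h1
      · exact absurd h1 hK
      · exact absurd (finish hdim h hG hint' h1) hK
  · push Not at hD'
    set G : Set V := {g | g ∈ U L ∧ g ∉ U K} with hGdef
    have hne : G.Nonempty := ⟨p, hp, hp'⟩
    have hsmul : ∀ g ∈ G, ∀ c : ℝ, 0 < c → c • g ∈ G := by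
      rintro g ⟨h1, h2⟩ c hc
      refine ⟨U_smul h1 hc, fun h3 => h2 ?_⟩
      have := U_smul h3 (inv_pos.2 hc)
      rwa [smul_smul, inv_mul_cancel₀ hc.ne', one_smul] at this
    have haddG : ∀ g ∈ G, ∀ g' ∈ G, g + g' ∈ G := fun g hg g' hg' => hadd g g' hg.1 hg.2 hg'.1 hg'.2
    have hzer : ∀ u, u ≠ 0 → ∀ g ∈ G, ⟪u, g⟫ = 0 → -X u ∈ G := fun u hu g hg hug => negx_mem_D h hu hug hg.1 hg.2
    by_cases hint : interior G = ∅
    · exact Jcase7c.case7c hdim h hne (fun g hg => hg.1) hsmul haddG hzer hint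
    · have hint' : (interior G).Nonempty := nonempty_iff_ne_empty.2 hint
      obtain ⟨p0, hp0⟩ := hint'
      rcases Jcase7a.case7a hdim h (fun y hy => hD' y hy) hno hp0 with hall | h1
      · have hG : Gd K L X G := by
          refine ⟨fun g hg => hg.1, fun g hg => hg.2, ?_, hsmul, haddG, hzer, fun g hg y hy hne => hall _ hne, ?_⟩
          · intro g hg
            exact hno g hg.1 hg.2 (hall _ (neg_ne_zero.2 hg.1.1))
          · intro g hg y hy hne
            by_contra hcon
            have := (hadd (y - g) g (hall _ hne) hcon hg.1 hg.2).2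
            rw [sub_add_cancel] at this
            exact this hy
        have hS : Sub K G := by
          intro y z hy hz hyK hzK g hg
          have hg' := interior_subset hg
          have h1 := hadd y z (hall _ hy) hyK (hall _ hz) hzK
          have h2 := hadd (y + z) g h1.1 h1.2 hg'.1 hg'.2
          exact ⟨h2.2, h2.1.1⟩
        exact absurd (finish hdim h hG ⟨p0, hp0⟩ hS) hK
      · exact absurd h1 hL

end Pool.Agent.Helper613.HS
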