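import Mathlib
import Pool.Agent.Helper613.HSMain7
import Pool.Agent.Helper613.HSCaseA
import Pool.Agent.Helper613.HSJcaseB
import Pool.Agent.Helper613.HSJcaseC1
import Pool.Agent.Helper613.HSJbigk

open Set Filter Topology
open scoped RealInnerProductSpace

namespace Pool.Agent.Helper613.HS

/-- the three-dimensional theorem -/
theorem three {V : Type} [NormedAddCommGroup V] [InnerProductSpace ℝ V] {K L : Set V} {X : V → V} {l : V → ℝ} 
    (hdim : Module.finrank ℝ V = 3) (h : Dat K L X l) : Hmt K L := by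
  by_cases hL : OneSided L
  · exact JcaseB.caseB hdim h hL
  by_cases hK : OneSided K
  · exact (JcaseB.caseB hdim h.swap hK).symm
  by_cases hD : ∃ p, p ∈ U L ∧ p ∉ U K
  · obtain ⟨p, h1, h2⟩ := hD
    exact main7 hdim h hK hL h1 h2
  by_cases hD' : ∃ p, p ∈ U K ∧ p ∉ U L
  · obtain ⟨p, h1, h2⟩ := hD'
    exact (main7 hdim h.swap hL hK h1 h2).symm
  push Not at hD hD'
  have hU : U K = U L := Subset.antisymm (fun y hy => hD' y hy) (fun y hy => hD y hy)
  by_cases hall : ∀ y : V, y ≠ 0 → y ∈ U L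
  · exact caseA hdim h (by rw [hU]; exact hall) hall
  · push Not at hall
    obtain ⟨v, hv, hv'⟩ := hall
    rcases JcaseC1.caseC1 hdim h hU hv hv' with h1 | h1
    · exact h1
    · exact absurd h1 hK

section sub

variable {W : Type} [NormedAddCommGroup W] [InnerProductSpace ℝ W]

/-- restriction of a set to a subspace -/
def res (F : Submodule ℝ W) (K : Set W) : Set F := {y | (y : W) ∈ K}

lemma mem_U_res {F : Submodule ℝ W} {K : Set W} {y : F} : y ∈ U (res F K) ↔ (y : W) ∈ U K := by
  unfold U res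
  simp only [mem_ofPred_eq, Submodule.coe_smul, ne_eq, ZeroMemClass.coe_eq_zero]

lemma Star.res [FiniteDimensional ℝ W] {F : Submodule ℝ W} {K : Set W} (hK : Star K) : Star (res F K) := by
  refine ⟨?_, hK.zero, fun y hy t h0 h1 => ?_, fun y hy hy0 s h0 h1 => ?_⟩
  · have hcl : IsClosed (F : Set W) := Submodule.closed_of_finiteDimensional F
    exact hcl.isClosedEmbedding_subtypeVal.isCompact_preimage hK.cpt
  · exact hK.star _ hy t h0 h1
  · have hy0' : (y : W) ≠ 0 := by simpa using hy0
    have := hK.low (y : W) hy hy0' s h0 h1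
    have h2 : Tendsto (fun y' : F => (y' : W)) (𝓝 y) (𝓝 (y : W)) := continuous_subtype_val.tendsto y
    filter_upwards [h2.eventually this] with y' hy' hU
    exact hy' (mem_U_res.1 hU)

/-- sections by `S`, with translation vector in `S` -/
def Sec (K L : Set W) (S : Submodule ℝ W) : Prop := ∃ (x : W) (r : ℝ), 0 < r ∧ x ∈ S ∧ ∀ y ∈ S, (y ∈ L ↔ x + r • y ∈ K)

theorem three_sub [FiniteDimensional ℝ W] {K L : Set W} (hK : Star K) (hL : Star L) 
    (h : ∀ S : Submodule ℝ W, Module.finrank ℝ S = 2 → Sec K L S) {F : Submodule ℝ W} (hF : Module.finrank ℝ F = 3) : Sec K L F := by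
  have h1 : ∀ u : F, u ≠ 0 → ∃ (x : F) (r : ℝ), Hm (res F K) (res F L) u x r := by
    intro u hu
    set S : Submodule ℝ W := ((Submodule.span ℝ {u})ᗮ).map F.subtype with hS
    have hfin : Module.finrank ℝ S = 2 := by
      have h1 := Submodule.finrank_add_finrank_orthogonal (Submodule.span ℝ {u})
      rw [finrank_span_singleton hu, hF] at h1
      have h2 : Module.finrank ℝ S = Module.finrank ℝ (Submodule.span ℝ {u})ᗮ := 
        Submodule.finrank_map_subtype_eq F _
      rw [h2]
      omega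
    obtain ⟨x, r, hr, hxS, hx⟩ := h S hfin
    rw [hS, Submodule.mem_map] at hxS
    obtain ⟨x', hx', rfl⟩ := hxS
    rw [Submodule.mem_orthogonal_singleton_iff_inner_right] at hx'
    refine ⟨x', r, hx', hr, fun y hy => ?_⟩
    have := hx (F.subtype y) (by
      rw [hS, Submodule.mem_map]
      exact ⟨y, by rw [Submodule.mem_orthogonal_singleton_iff_inner_right]; exact hy, rfl⟩)
    exact this
  choose! X l hX using h1
  obtain ⟨x, r, hr, hx⟩ := three hF (⟨hK.res, hL.res, hX⟩ : Dat (res F K) (res F L) X l)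
  exact ⟨x, r, hr, x.2, fun y hy => hx ⟨y, hy⟩⟩

theorem general [FiniteDimensional ℝ W] {k : ℕ} (hdim : 3 ≤ Module.finrank ℝ W) (hk : 2 ≤ k) (hkn : k ≤ Module.finrank ℝ W) {K L : Set W} 
    (hK : Star K) (hL : Star L) (h : ∀ S : Submodule ℝ W, Module.finrank ℝ S = k → Sec K L S) : Hmt K L := by
  rcases hk.eq_or_lt with hk2 | hk3
  · subst hk2
    exact bigk le_rfl hdim hK.cpt hL.cpt hK.zero hL.zero (fun S hS => three_sub hK hL h hS)
  · exact bigk hk3 hkn hK.cpt hL.cpt hK.zero hL.zero h

end sub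

end Pool.Agent.Helper613.HS
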