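import Pool.Agent.Helper613.KNMink

set_option autoImplicit false

namespace Pool.Agent.Helper613.KN

open Matrix

/-! ### The lattice and its rational span -/

/-- The lattice of Hermitian matrices with entries in `ℤ[√-d]`. -/
def Lam (d : ℕ) (v : V4) : Prop :=
  ∃ p q r s : ℤ, v 3 + v 2 = p ∧ v 3 - v 2 = q ∧ v 0 = r ∧ v 1 = Real.sqrt d * s

/-- Its rational span. -/
def VQ (d : ℕ) (v : V4) : Prop :=
  ∃ p q r s : ℚ, v 0 = p ∧ v 1 = Real.sqrt d * q ∧ v 2 = r ∧ v 3 = s

variable {d : ℕ}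

lemma Lam.vq {v : V4} (h : Lam d v) : VQ d v := by
  obtain ⟨p, q, r, s, h1, h2, h3, h4⟩ := h
  refine ⟨r, s, (p - q) / 2, (p + q) / 2, by rw [h3]; simp, by rw [h4]; simp, ?_, ?_⟩
  · push_cast; linarith
  · push_cast; linarith

lemma VQ.add {u v : V4} (hu : VQ d u) (hv : VQ d v) : VQ d (u + v) := by
  obtain ⟨p, q, r, s, h1, h2, h3, h4⟩ := hu
  obtain ⟨p', q', r', s', h1', h2', h3', h4'⟩ := hv
  refine ⟨p + p', q + q', r + r', s + s', ?_, ?_, ?_, ?_⟩
  · rw [Pi.add_apply, h1, h1']; push_cast; ring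
  · rw [Pi.add_apply, h2, h2']; push_cast; ring
  · rw [Pi.add_apply, h3, h3']; push_cast; ring
  · rw [Pi.add_apply, h4, h4']; push_cast; ring

lemma VQ.smul {v : V4} (hv : VQ d v) (c : ℚ) : VQ d ((c : ℝ) • v) := by
  obtain ⟨p, q, r, s, h1, h2, h3, h4⟩ := hv
  refine ⟨c * p, c * q, c * r, c * s, ?_, ?_, ?_, ?_⟩
  · rw [Pi.smul_apply, smul_eq_mul, h1]; push_cast; ring
  · rw [Pi.smul_apply, smul_eq_mul, h2]; push_cast; ring
  · rw [Pi.smul_apply, smul_eq_mul, h3]; push_cast; ring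
  · rw [Pi.smul_apply, smul_eq_mul, h4]; push_cast; ring

lemma VQ.sub {u v : V4} (hu : VQ d u) (hv : VQ d v) : VQ d (u - v) := by
  have h := hu.add (hv.smul (-1))
  have e : u + ((-1 : ℚ) : ℝ) • v = u - v := by push_cast; rw [neg_one_smul]; abel
  rwa [e] at h

lemma VQ.mink {u v : V4} (hu : VQ d u) (hv : VQ d v) : ∃ q : ℚ, mink u v = q := by
  obtain ⟨p, q, r, s, h1, h2, h3, h4⟩ := hu
  obtain ⟨p', q', r', s', h1', h2', h3', h4'⟩ := hv
  refine ⟨p * p' + d * q * q' + r * r' - s * s', ?_⟩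
  have hs : Real.sqrt d * Real.sqrt d = d := Real.mul_self_sqrt (Nat.cast_nonneg d)
  unfold KN.mink
  rw [h1, h2, h3, h4, h1', h2', h3', h4']
  push_cast
  linear_combination (q * q' : ℝ) * hs

lemma exists_lam_ne (hd : 0 < d) {E : V4} (hE : E ≠ 0) : ∃ v, Lam d v ∧ mink v E ≠ 0 := by
  by_contra hcon
  push Not at hcon
  apply hE
  have hs : 0 < Real.sqrt d := Real.sqrt_pos.2 (by exact_mod_cast hd)
  have h0 := hcon ![1, 0, 0, 0] ⟨0, 0, 1, 0, by simp, by simp, by simp, by simp⟩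
  have h1 := hcon ![0, Real.sqrt d, 0, 0] ⟨0, 0, 0, 1, by simp, by simp, by simp, by simp⟩
  have h2 := hcon ![0, 0, 1, 1] ⟨2, 0, 0, 0, by simp; norm_num, by simp, by simp, by simp⟩
  have h3 := hcon ![0, 0, -1, 1] ⟨0, 2, 0, 0, by simp, by simp; norm_num, by simp, by simp⟩
  simp [mink] at h0 h1 h2 h3
  refine ext4 h0 ?_ ?_ ?_
  · rcases h1 with h | h
    · exact absurd ((Real.sqrt_eq_zero (Nat.cast_nonneg d)).1 (by simp [h])) (by
        exact_mod_cast hd.ne')
    · exact h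
  · show E 2 = 0; linarith
  · show E 3 = 0; linarith

lemma lam_iff_herm (v : V4) : EntriesIn d (herm v) ↔ Lam d v := by
  constructor
  · intro h
    obtain ⟨x, y, h1⟩ := h 0 0
    obtain ⟨x', y', h2⟩ := h 1 1
    obtain ⟨x'', y'', h3⟩ := h 0 1
    have e1 := congrArg Complex.re h1
    have e2 := congrArg Complex.re h2
    have e3 := congrArg Complex.re h3
    have e4 := congrArg Complex.im h3
    simp [herm] at e1 e2 e3 e4
    exact ⟨x, x', x'', y'', e1, e2, e3, by rw [e4]; ring⟩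
  · rintro ⟨p, q, r, s, h1, h2, h3, h4⟩ i j
    fin_cases i <;> fin_cases j
    · refine ⟨p, 0, ?_⟩
      simp only [herm, Fin.zero_eta, of_apply, cons_val_zero]
      rw [h1]; simp
    · refine ⟨r, s, ?_⟩
      simp only [herm, Fin.zero_eta, Fin.mk_one, of_apply, cons_val_zero, cons_val_one]
      rw [h3, h4]; push_cast; ring
    · refine ⟨r, -s, ?_⟩
      simp only [herm, Fin.zero_eta, Fin.mk_one, of_apply, cons_val_zero, cons_val_one]
      rw [h3, h4]; push_cast; ring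
    · refine ⟨q, 0, ?_⟩
      simp only [herm, Fin.mk_one, of_apply, cons_val_one]
      rw [h2]; simp

lemma EntriesIn.conjTranspose {g : Matrix (Fin 2) (Fin 2) ℂ} (hg : EntriesIn d g) :
    EntriesIn d gᴴ := by
  intro i j
  obtain ⟨x, y, h⟩ := hg j i
  refine ⟨x, -y, ?_⟩
  rw [conjTranspose_apply, h]
  simp

lemma bianchi_lam {A : GL (Fin 4) ℝ} (hA : A ∈ bianchi d) {v : V4} (hv : Lam d v) :
    Lam d (A.1 *ᵥ v) := by
  obtain ⟨g, -, hg, h⟩ := hA
  rw [← lam_iff_herm, h]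
  exact (hg.mul ((lam_iff_herm v).2 hv)).mul hg.conjTranspose

/-- The trace of a matrix preserving the lattice is an integer. -/
lemma trace_int {M : Matrix (Fin 4) (Fin 4) ℝ} (hd : 0 < d) (hM : ∀ v, Lam d v → Lam d (M *ᵥ v)) :
    ∃ k : ℤ, M.trace = k := by
  have hs : 0 < Real.sqrt d := Real.sqrt_pos.2 (by exact_mod_cast hd)
  obtain ⟨-, -, r, -, -, -, h0, -⟩ := hM ![1, 0, 0, 0] ⟨0, 0, 1, 0, by simp, by simp, by simp,
    by simp⟩
  obtain ⟨-, -, -, s, -, -, -, h1⟩ := hM ![0, Real.sqrt d, 0, 0] ⟨0, 0, 0, 1, by simp, by simp,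
    by simp, by simp⟩
  obtain ⟨p, -, -, -, h2, -, -, -⟩ := hM ![0, 0, 1 / 2, 1 / 2] ⟨1, 0, 0, 0, by simp; norm_num,
    by simp, by simp, by simp⟩
  obtain ⟨-, q, -, -, -, h3, -, -⟩ := hM ![0, 0, -1 / 2, 1 / 2] ⟨0, 1, 0, 0, by simp; norm_num,
    by simp; norm_num, by simp, by simp⟩
  simp only [mulVec, dotProduct, Fin.sum_univ_four, cons_val] at h0 h1 h2 h3
  have h1' : M 1 1 = s := by
    have : Real.sqrt d * (M 1 1 - s) = 0 := by linarith
    rcases mul_eq_zero.1 this with h | h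
    · exact absurd h hs.ne'
    · linarith
  refine ⟨r + s + p + q, ?_⟩
  rw [Matrix.trace, Fin.sum_univ_four]
  simp only [diag_apply]
  push_cast
  linarith

/-! ### Products of two reflections -/

lemma pow_form {M : Matrix (Fin 4) (Fin 4) ℝ} {a b : V4} (ha : mink a a = 1) (hb : mink b b = 1)
    (hM : ∀ u, M *ᵥ u = u + (-2 * mink u a + 4 * mink a b * mink u b) • a +
      (-2 * mink u b) • b) (n : ℕ) :
    ∃ x y z w : ℝ, (∀ u, (M ^ n) *ᵥ u = u + (x * mink u a + y * mink u b) • a +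
      (z * mink u a + w * mink u b) • b) ∧
      !![1 + x + y * mink a b, x * mink a b + y; z + w * mink a b, 1 + z * mink a b + w] =
        (!![4 * mink a b ^ 2 - 1, 2 * mink a b; -2 * mink a b, -1] : Matrix (Fin 2) (Fin 2) ℝ)
          ^ n := by
  set g := mink a b with hg
  induction n with
  | zero =>
    refine ⟨0, 0, 0, 0, fun u => by simp, ?_⟩
    ext i j
    fin_cases i <;> fin_cases j <;> simp
  | succ n ih =>
    obtain ⟨x, y, z, w, h1, h2⟩ := ih
    refine ⟨(4 * g ^ 2 - 1) * x + 2 * g * z - 2, (4 * g ^ 2 - 1) * y + 2 * g * w + 4 * g,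
      -z - 2 * g * x, -w - 2 * g * y - 2, fun u => ?_, ?_⟩
    · rw [pow_succ', ← mulVec_mulVec, h1, hM]
      simp only [mink_add_left, mink_smul_left, ha, hb, ← hg, mink_comm b a]
      module
    · rw [pow_succ' (_ : Matrix (Fin 2) (Fin 2) ℝ) n, ← h2]
      ext i j
      fin_cases i <;> fin_cases j <;>
        simp [Matrix.mul_apply, Fin.sum_univ_two] <;> ring

lemma trace_form {M : Matrix (Fin 4) (Fin 4) ℝ} {a b : V4} (ha : mink a a = 1)
    (hb : mink b b = 1) {x y z w : ℝ}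
    (hM : ∀ u, M *ᵥ u = u + (x * mink u a + y * mink u b) • a +
      (z * mink u a + w * mink u b) • b) :
    M.trace = 4 + x + (y + z) * mink a b + w := by
  have h0 := congrFun (hM (Pi.single 0 1)) 0
  have h1 := congrFun (hM (Pi.single 1 1)) 1
  have h2 := congrFun (hM (Pi.single 2 1)) 2
  have h3 := congrFun (hM (Pi.single 3 1)) 3
  simp [mink, Matrix.mulVec_single] at h0 h1 h2 h3
  rw [Matrix.trace, Fin.sum_univ_four]
  simp only [diag_apply]
  rw [h0, h1, h2, h3]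
  unfold mink at *
  linear_combination x * ha + w * hb

/-- powers of a 2x2 matrix of determinant one -/
lemma trace_pow_two {t : ℝ} {C : Matrix (Fin 2) (Fin 2) ℝ} (hC : C ^ 2 = t • C - 1)
    (htr : C.trace = t) {l m : ℂ} (hlm : l + m = t) (hlm' : l * m = 1) (n : ℕ) :
    (((C ^ n).trace : ℝ) : ℂ) = l ^ n + m ^ n ∧
      (((C ^ (n + 1)).trace : ℝ) : ℂ) = l ^ (n + 1) + m ^ (n + 1) := by
  induction n with
  | zero =>
    refine ⟨?_, ?_⟩
    · simp; norm_num
    · simp [htr, hlm]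
  | succ n ih =>
    refine ⟨ih.2, ?_⟩
    have h1 : C ^ (n + 1 + 1) = t • C ^ (n + 1) - C ^ n := by
      rw [show n + 1 + 1 = n + 2 from rfl, pow_add, hC, mul_sub, mul_one, mul_smul_comm,
        ← pow_succ]
    rw [h1, trace_sub, trace_smul, smul_eq_mul]
    push_cast
    rw [ih.1, ih.2, ← hlm]
    linear_combination (l ^ n + m ^ n) * hlm'

/-- The crystallographic integrality: if a power of a product of two reflections preserves the
lattice, then `4 ⟨a, b⟩²` is an integer as soon as it is rational. -/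
lemma four_sq_int (hd : 0 < d) {M : Matrix (Fin 4) (Fin 4) ℝ} {a b : V4} (ha : mink a a = 1)
    (hb : mink b b = 1)
    (hM : ∀ u, M *ᵥ u = u + (-2 * mink u a + 4 * mink a b * mink u b) • a +
      (-2 * mink u b) • b) {n : ℕ} (hn : 0 < n)
    (hlam : ∀ v, Lam d v → Lam d ((M ^ n) *ᵥ v)) {q : ℚ} (hq : mink a b ^ 2 = q) :
    ∃ k : ℤ, 4 * mink a b ^ 2 = k := by
  obtain ⟨x, y, z, w, h1, h2⟩ := pow_form ha hb hM n
  have h3 := trace_form ha hb h1
  obtain ⟨k, hk⟩ := trace_int hd hlam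
  set g := mink a b with hg
  set C : Matrix (Fin 2) (Fin 2) ℝ := !![4 * g ^ 2 - 1, 2 * g; -2 * g, -1] with hC
  have hCtr : C.trace = 4 * g ^ 2 - 2 := by
    rw [hC, Matrix.trace_fin_two_of]; ring
  have hC2 : C ^ 2 = (4 * g ^ 2 - 2) • C - 1 := by
    rw [hC, pow_two]
    ext i j
    fin_cases i <;> fin_cases j <;>
        simp [Matrix.mul_apply, Fin.sum_univ_two] <;> ring
  have hCn : (C ^ n).trace = k - 2 := by
    rw [← h2, Matrix.trace_fin_two_of, ← hk, h3]; ring
  set t : ℝ := 4 * g ^ 2 - 2 with ht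
  obtain ⟨s, hs⟩ := IsAlgClosed.exists_pow_nat_eq ((t : ℂ) ^ 2 - 4) (n := 2) two_pos
  set l : ℂ := (t + s) / 2 with hl
  set m : ℂ := (t - s) / 2 with hm
  have hlm : l + m = t := by rw [hl, hm]; ring
  have hlm' : l * m = 1 := by
    rw [hl, hm]; linear_combination (-1 / 4 : ℂ) * hs
  have h4 := (trace_pow_two hC2 hCtr hlm hlm' n).1
  rw [hCn] at h4
  push_cast at h4
  -- integrality
  have key : ∀ l m : ℂ, l * m = 1 → (k : ℂ) - 2 = l ^ n + m ^ n → IsIntegral ℤ l := by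
    intro l m hlm' h4
    apply IsIntegral.of_pow hn
    refine ⟨Polynomial.X ^ 2 - Polynomial.C (k - 2) * Polynomial.X + 1, ?_, ?_⟩
    · have : (Polynomial.X ^ 2 - Polynomial.C (k - 2) * Polynomial.X + 1 : Polynomial ℤ) =
          Polynomial.X ^ 2 + (Polynomial.C (-(k - 2)) * Polynomial.X + Polynomial.C 1) := by
        simp; ring
      rw [this]
      apply Polynomial.monic_X_pow_add
      refine lt_of_le_of_lt Polynomial.degree_linear_le ?_
      norm_num
    · simp only [Polynomial.eval₂_add, Polynomial.eval₂_sub, Polynomial.eval₂_mul,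
        Polynomial.eval₂_pow, Polynomial.eval₂_X, Polynomial.eval₂_C, Polynomial.eval₂_one]
      have h5 : l ^ n * m ^ n = 1 := by rw [← mul_pow, hlm', one_pow]
      simp only [algebraMap_int_eq, eq_intCast]
      push_cast
      rw [h4]
      linear_combination -h5
  have hil : IsIntegral ℤ l := key l m hlm' h4
  have him : IsIntegral ℤ m := key m l (by rw [mul_comm]; exact hlm') (by rw [h4]; ring)
  have hit : IsIntegral ℤ (t : ℂ) := by rw [← hlm]; exact hil.add him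
  have htq : (t : ℂ) = algebraMap ℚ ℂ (4 * q - 2) := by
    rw [ht, hq]; push_cast; simp
  rw [htq, isIntegral_algebraMap_iff (algebraMap ℚ ℂ).injective] at hit
  obtain ⟨r, hr⟩ := (IsIntegrallyClosed.isIntegral_iff (R := ℤ) (K := ℚ)).1 hit
  refine ⟨r + 2, ?_⟩
  have h6 : ((r : ℚ) : ℝ) = ((4 * q - 2 : ℚ) : ℝ) := by
    rw [← hr]; simp
  push_cast at h6
  rw [hq]
  push_cast
  linarith

end Pool.Agent.Helper613.KN
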