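import Mathlib

set_option autoImplicit false

namespace Pool.Agent.Helper613.KN

/-- The numerical condition at a corner. -/
def Cor (d A₁ A₂ : ℕ) (U V : ℝ) (κ l : ℤ) : Prop :=
  ∃ y : ℤ, 0 < y ∧ (4 : ℤ) ∣ y * (κ ^ 2 + d * l ^ 2) ∧ (y : ℝ) * (A₁ * U ^ 2 + A₂ * V ^ 2) < 4

lemma lt_of_cor {A₁ A₂ : ℕ} {U V : ℝ} {y : ℤ} {k : ℤ} (hk : 0 < k) (hy : k ≤ y)
    (h : (y : ℝ) * (A₁ * U ^ 2 + A₂ * V ^ 2) < 4) :
    (A₁ * U ^ 2 + A₂ * V ^ 2 : ℝ) * k < 4 := by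
  have h0 : (0 : ℝ) ≤ A₁ * U ^ 2 + A₂ * V ^ 2 := by positivity
  have h1 : (k : ℝ) ≤ y := by exact_mod_cast hy
  nlinarith

lemma Cor.four {d A₁ A₂ : ℕ} {U V : ℝ} {κ l : ℤ} (h : Cor d A₁ A₂ U V κ l) :
    (A₁ * U ^ 2 + A₂ * V ^ 2 : ℝ) < 4 := by
  obtain ⟨y, hy, -, h⟩ := h
  have := lt_of_cor (k := 1) one_pos (by omega) h
  push_cast at this; linarith

lemma Cor.one {d A₁ A₂ : ℕ} {U V : ℝ} {κ l : ℤ} (h : Cor d A₁ A₂ U V κ l)
    (hodd : Odd (κ ^ 2 + d * l ^ 2)) : (A₁ * U ^ 2 + A₂ * V ^ 2 : ℝ) < 1 := by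
  obtain ⟨y, hy, hdvd, h⟩ := h
  have h4 : (4 : ℤ) ∣ y := by
    have hc : IsCoprime (4 : ℤ) (κ ^ 2 + d * l ^ 2) := by
      have h2 := (Int.isCoprime_two_left.2 hodd).pow_left (m := 2)
      norm_num at h2
      exact h2
    exact hc.dvd_of_dvd_mul_right hdvd
  have := lt_of_cor (k := 4) (by norm_num) (Int.le_of_dvd hy h4) h
  push_cast at this; linarith

lemma Cor.two {d A₁ A₂ : ℕ} {U V : ℝ} {κ l : ℤ} (h : Cor d A₁ A₂ U V κ l)
    (hodd : ∃ z, κ ^ 2 + d * l ^ 2 = 2 * z ∧ Odd z) : (A₁ * U ^ 2 + A₂ * V ^ 2 : ℝ) < 2 := by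
  obtain ⟨y, hy, hdvd, h⟩ := h
  obtain ⟨z, hz, hz'⟩ := hodd
  have h4 : (2 : ℤ) ∣ y := by
    have h2 : (2 : ℤ) ∣ y * z := by
      obtain ⟨w, hw⟩ := hdvd
      exact ⟨w, by rw [hz] at hw; linarith⟩
    exact (Int.isCoprime_two_left.2 hz').dvd_of_dvd_mul_right h2
  have := lt_of_cor (k := 2) (by norm_num) (Int.le_of_dvd hy h4) h
  push_cast at this; linarith

/-- `d` odd -/
lemma Cor.odd_one {d A₁ A₂ : ℕ} {U V : ℝ} {κ l : ℤ} (hd : Odd d) (h : Cor d A₁ A₂ U V κ l)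
    (hodd : Odd (κ + l)) : (A₁ * U ^ 2 + A₂ * V ^ 2 : ℝ) < 1 := by
  apply h.one
  have hd' : Odd (d : ℤ) := by exact_mod_cast hd
  rcases Int.even_or_odd κ with hk | hk
  · have hl : Odd l := by
      by_contra hl
      rw [Int.not_odd_iff_even] at hl
      exact (Int.not_odd_iff_even.2 (hk.add hl)) hodd
    exact (hk.pow_of_ne_zero two_ne_zero).add_odd (hd'.mul hl.pow)
  · have hl : Even l := by
      by_contra hl
      rw [Int.not_even_iff_odd] at hl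
      exact (Int.not_odd_iff_even.2 (hk.add_odd hl)) hodd
    exact (hk.pow).add_even ((hl.pow_of_ne_zero two_ne_zero).mul_left _)

/-- `d = 2 m`, `κ` odd -/
lemma Cor.even_one {d A₁ A₂ : ℕ} {U V : ℝ} {κ l : ℤ} (hd : Even d) (h : Cor d A₁ A₂ U V κ l)
    (hodd : Odd κ) : (A₁ * U ^ 2 + A₂ * V ^ 2 : ℝ) < 1 := by
  apply h.one
  have hd' : Even (d : ℤ) := by exact_mod_cast hd
  exact hodd.pow.add_even (hd'.mul_right _)

/-- `d = 2 m`, `m` odd, `κ` even, `l` odd -/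
lemma Cor.even_two {d m A₁ A₂ : ℕ} {U V : ℝ} {κ l : ℤ} (hd : d = 2 * m) (hm : Odd m)
    (h : Cor d A₁ A₂ U V κ l) (hκ : Even κ) (hl : Odd l) :
    (A₁ * U ^ 2 + A₂ * V ^ 2 : ℝ) < 2 := by
  apply h.two
  obtain ⟨t, ht⟩ := hκ
  have hm' : Odd (m : ℤ) := by exact_mod_cast hm
  refine ⟨2 * t ^ 2 + m * l ^ 2, ?_, ?_⟩
  · rw [ht, hd]; push_cast; ring
  · exact (even_two_mul _).add_odd (hm'.mul hl.pow)

lemma sum_lt {A₁ A₂ : ℕ} {x : ℕ} (h : (A₁ + A₂ : ℝ) < x) : A₁ + A₂ < x := by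
  exact_mod_cast h

lemma one_le_sq {a : ℤ} (ha : 0 < a) : (1 : ℝ) ≤ (a : ℝ) ^ 2 := by
  have : (1 : ℝ) ≤ a := by exact_mod_cast ha
  nlinarith

lemma four_le_sq {a : ℤ} (ha : 0 < a) (h : Even a) : (4 : ℝ) ≤ (a : ℝ) ^ 2 := by
  have h2 : 2 ≤ a := by obtain ⟨t, rfl⟩ := h; omega
  have : (2 : ℝ) ≤ a := by exact_mod_cast h2
  nlinarith

/-- two corners with the same `V` and value `< 1` force `a` odd -/
lemma contra_even {A₁ A₂ : ℕ} (hA₁ : 0 < A₁) {a : ℤ} (ha : 0 < a) (hev : Even a)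
    {U U' V : ℝ} (hU : U + U' = a) (h1 : (A₁ * U ^ 2 + A₂ * V ^ 2 : ℝ) < 1)
    (h2 : (A₁ * U' ^ 2 + A₂ * V ^ 2 : ℝ) < 1) : False := by
  have h3 := four_le_sq ha hev
  rw [← hU] at h3
  have h4 : (1 : ℝ) ≤ A₁ := by exact_mod_cast hA₁
  have h5 : (0 : ℝ) ≤ A₂ * V ^ 2 := by positivity
  have h6 : (U + U') ^ 2 ≤ 2 * (U ^ 2 + U' ^ 2) := by nlinarith [sq_nonneg (U - U')]
  nlinarith [sq_nonneg U, sq_nonneg U']

/-- two opposite corners with value `< 1` -/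
lemma diag {A₁ A₂ : ℕ} {a c : ℤ} (ha : 0 < a) (hc : 0 < c)
    {U U' V V' : ℝ} (hU : U + U' = a) (hV : V + V' = c)
    (h1 : (A₁ * U ^ 2 + A₂ * V ^ 2 : ℝ) < 1)
    (h2 : (A₁ * U' ^ 2 + A₂ * V' ^ 2 : ℝ) < 1) : A₁ + A₂ < 4 := by
  apply sum_lt
  have h3 := one_le_sq ha
  have h4 := one_le_sq hc
  rw [← hU] at h3
  rw [← hV] at h4
  have h6 : (U + U') ^ 2 ≤ 2 * (U ^ 2 + U' ^ 2) := by nlinarith [sq_nonneg (U - U')]
  have h7 : (V + V') ^ 2 ≤ 2 * (V ^ 2 + V' ^ 2) := by nlinarith [sq_nonneg (V - V')]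
  have h8 : (A₁ : ℝ) ≤ A₁ * (2 * (U ^ 2 + U' ^ 2)) :=
    le_mul_of_one_le_right (Nat.cast_nonneg _) (h3.trans h6)
  have h9 : (A₂ : ℝ) ≤ A₂ * (2 * (V ^ 2 + V' ^ 2)) :=
    le_mul_of_one_le_right (Nat.cast_nonneg _) (h4.trans h7)
  push_cast
  nlinarith

/-- four corners with value `< 4`, `a` and `c` even -/
lemma four_even {A₁ A₂ : ℕ} {a c : ℤ} (ha : 0 < a) (hc : 0 < c) (hae : Even a) (hce : Even c)
    {U U' V V' : ℝ} (hU : U + U' = a) (hV : V + V' = c)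
    (h1 : (A₁ * U ^ 2 + A₂ * V ^ 2 : ℝ) < 4)
    (h2 : (A₁ * U' ^ 2 + A₂ * V' ^ 2 : ℝ) < 4) : A₁ + A₂ < 4 := by
  apply sum_lt
  have h3 := four_le_sq ha hae
  have h4 := four_le_sq hc hce
  rw [← hU] at h3
  rw [← hV] at h4
  have h6 : (U + U') ^ 2 ≤ 2 * (U ^ 2 + U' ^ 2) := by nlinarith [sq_nonneg (U - U')]
  have h7 : (V + V') ^ 2 ≤ 2 * (V ^ 2 + V' ^ 2) := by nlinarith [sq_nonneg (V - V')]
  have h8 : (A₁ : ℝ) * 4 ≤ A₁ * (2 * (U ^ 2 + U' ^ 2)) :=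
    mul_le_mul_of_nonneg_left (h3.trans h6) (Nat.cast_nonneg _)
  have h9 : (A₂ : ℝ) * 4 ≤ A₂ * (2 * (V ^ 2 + V' ^ 2)) :=
    mul_le_mul_of_nonneg_left (h4.trans h7) (Nat.cast_nonneg _)
  push_cast
  nlinarith

lemma even_of_even_sum {x y a : ℤ} (h : (x + y) % 2 = a % 2) (ha : Even a) : (Even x ↔ Even y) := by
  rw [Int.even_iff] at ha
  rw [Int.even_iff, Int.even_iff]
  omega

lemma even_iff_odd_of_odd_sum {x y a : ℤ} (h : (x + y) % 2 = a % 2) (ha : Odd a) :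
    (Even x ↔ Odd y) := by
  rw [Int.odd_iff] at ha
  rw [Int.even_iff, Int.odd_iff]
  omega

/-- The case of odd `d`. -/
lemma num_odd {d A₁ A₂ : ℕ} (hA : A₁ * A₂ = d) (hd : Odd d)
    {a c : ℤ} (ha : 0 < a) (hc : 0 < c) {U U' V V' : ℝ} (hU : U + U' = a) (hV : V + V' = c)
    {κ κ' l l' : ℤ} (hκ : (κ + κ') % 2 = a % 2) (hl : (l + l') % 2 = c % 2)
    (c11 : Cor d A₁ A₂ U V κ l) (c12 : Cor d A₁ A₂ U V' κ l')
    (c21 : Cor d A₁ A₂ U' V κ' l) (c22 : Cor d A₁ A₂ U' V' κ' l') : d = 1 := by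
  have hA₁ : Odd A₁ := by rw [← hA, Nat.odd_mul] at hd; exact hd.1
  have hA₂ : Odd A₂ := by rw [← hA, Nat.odd_mul] at hd; exact hd.2
  have p1 : 0 < A₁ := hA₁.pos
  have p2 : 0 < A₂ := hA₂.pos
  have fin : A₁ + A₂ < 4 → d = 1 := by
    intro h
    obtain ⟨s, hs⟩ := hA₁
    obtain ⟨t, ht⟩ := hA₂
    have : A₁ = 1 := by omega
    have : A₂ = 1 := by omega
    subst_vars; simp_all
  rcases Int.even_or_odd a with hae | hao
  · have e1 := even_of_even_sum hκ hae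
    by_cases hx : Odd (κ + l)
    · exfalso
      have hx' : Odd (κ' + l) := by
        rw [Int.odd_iff] at hx ⊢
        rw [Int.even_iff, Int.even_iff] at e1
        omega
      exact contra_even p1 ha hae hU (c11.odd_one hd hx) (c21.odd_one hd hx')
    by_cases hy : Odd (κ + l')
    · exfalso
      have hy' : Odd (κ' + l') := by
        rw [Int.odd_iff] at hy ⊢
        rw [Int.even_iff, Int.even_iff] at e1
        omega
      exact contra_even p1 ha hae hU (c12.odd_one hd hy) (c22.odd_one hd hy')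
    have hce : Even c := by
      rw [Int.odd_iff] at hx hy
      rw [Int.even_iff]
      omega
    exact fin (four_even ha hc hae hce hU hV c11.four c22.four)
  · rcases Int.even_or_odd c with hce | hco
    · exfalso
      have e1 := even_of_even_sum hl hce
      have e2 := even_iff_odd_of_odd_sum hκ hao
      by_cases hx : Odd (κ + l)
      · have hx' : Odd (κ + l') := by
          rw [Int.odd_iff] at hx ⊢
          rw [Int.even_iff, Int.even_iff] at e1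
          omega
        have q1 := c11.odd_one hd hx
        have q2 := c12.odd_one hd hx'
        rw [add_comm] at q1 q2
        exact contra_even (A₁ := A₂) (A₂ := A₁) p2 hc hce hV q1 q2
      · have hx1 : Odd (κ' + l) := by
          rw [Int.odd_iff] at hx ⊢
          rw [Int.even_iff, Int.odd_iff] at e2
          omega
        have hx' : Odd (κ' + l') := by
          rw [Int.odd_iff] at hx1 ⊢
          rw [Int.even_iff, Int.even_iff] at e1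
          omega
        have q1 := c21.odd_one hd hx1
        have q2 := c22.odd_one hd hx'
        rw [add_comm] at q1 q2
        exact contra_even (A₁ := A₂) (A₂ := A₁) p2 hc hce hV q1 q2
    · have e1 := even_iff_odd_of_odd_sum hκ hao
      have e2 := even_iff_odd_of_odd_sum hl hco
      rw [Int.even_iff, Int.odd_iff] at e1 e2
      by_cases hx : Odd (κ + l)
      · have hx' : Odd (κ' + l') := by
          rw [Int.odd_iff] at hx ⊢
          omega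
        exact fin (diag ha hc hU hV (c11.odd_one hd hx) (c22.odd_one hd hx'))
      · have hx1 : Odd (κ + l') := by
          rw [Int.odd_iff] at hx ⊢
          omega
        have hx2 : Odd (κ' + l) := by
          rw [Int.odd_iff] at hx ⊢
          omega
        have hV' : V' + V = c := by rw [add_comm]; exact hV
        exact fin (diag ha hc hU hV' (c12.odd_one hd hx1) (c21.odd_one hd hx2))

/-- Sub-case X: `a` even, `κ` even, `l` odd. -/
lemma num_X {A₁ A₂ : ℕ} (hA₁ : 0 < A₁)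
    {a c : ℤ} (ha : 0 < a) (hae : Even a) (hc : 0 < c) {U U' V V' : ℝ} (hU : U + U' = a)
    (hV : V + V' = c)
    (h11 : (A₁ * U ^ 2 + A₂ * V ^ 2 : ℝ) < 2) (h21 : (A₁ * U' ^ 2 + A₂ * V ^ 2 : ℝ) < 2)
    (h12 : (A₁ * U ^ 2 + A₂ * V' ^ 2 : ℝ) < 4) (h22 : (A₁ * U' ^ 2 + A₂ * V' ^ 2 : ℝ) < 4) :
    A₁ = 1 ∧ A₂ < 8 := by
  have h3 := four_le_sq ha hae
  have h4 := one_le_sq hc
  rw [← hU] at h3
  rw [← hV] at h4
  have h6 : (U + U') ^ 2 ≤ 2 * (U ^ 2 + U' ^ 2) := by nlinarith [sq_nonneg (U - U')]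
  have h7 : (2 : ℝ) ≤ U ^ 2 + U' ^ 2 := by linarith
  have h8 : (A₁ : ℝ) * 2 ≤ A₁ * (U ^ 2 + U' ^ 2) :=
    mul_le_mul_of_nonneg_left h7 (Nat.cast_nonneg _)
  have h9 : (0 : ℝ) ≤ A₂ * V ^ 2 := by positivity
  have h10 : (A₁ : ℝ) < 2 := by nlinarith
  have h11' : A₁ < 2 := by exact_mod_cast h10
  have hA : A₁ = 1 := by omega
  refine ⟨hA, ?_⟩
  subst hA
  push_cast at *
  have h12' : (A₂ : ℝ) * V ^ 2 < 1 := by nlinarith
  have h13 : (A₂ : ℝ) * V' ^ 2 < 3 := by nlinarith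
  have h14 : (V + V') ^ 2 ≤ 4 * V ^ 2 + 4 / 3 * V' ^ 2 := by nlinarith [sq_nonneg (3 * V - V')]
  have h15 : (A₂ : ℝ) ≤ A₂ * (4 * V ^ 2 + 4 / 3 * V' ^ 2) :=
    le_mul_of_one_le_right (Nat.cast_nonneg _) (h4.trans h14)
  have h16 : (A₂ : ℝ) < 8 := by nlinarith
  exact_mod_cast h16

/-- Sub-case Y: `a` odd, `κ` odd. -/
lemma num_Y {A₁ A₂ : ℕ} (hA₂ : 2 ≤ A₂)
    {a c : ℤ} (ha : 0 < a) (hc : 0 < c) {U U' V V' : ℝ} (hU : U + U' = a)
    (hV : V + V' = c)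
    (h11 : (A₁ * U ^ 2 + A₂ * V ^ 2 : ℝ) < 1) (h12 : (A₁ * U ^ 2 + A₂ * V' ^ 2 : ℝ) < 1) :
    A₂ < 4 ∧ c = 1 ∧ (A₁ * U ^ 2 : ℝ) < 1 / 2 := by
  have h4 := one_le_sq hc
  have h7 : (V + V') ^ 2 ≤ 2 * (V ^ 2 + V' ^ 2) := by nlinarith [sq_nonneg (V - V')]
  rw [hV] at h7
  have h8 : (A₂ : ℝ) * c ^ 2 ≤ A₂ * (2 * (V ^ 2 + V' ^ 2)) :=
    mul_le_mul_of_nonneg_left h7 (Nat.cast_nonneg _)
  have h9 : (0 : ℝ) ≤ A₁ * U ^ 2 := by positivity
  have h10 : (A₂ : ℝ) * c ^ 2 + 4 * (A₁ * U ^ 2) < 4 := by nlinarith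
  have h11' : (A₂ : ℝ) ≤ A₂ * c ^ 2 := le_mul_of_one_le_right (Nat.cast_nonneg _) h4
  have h12' : (A₂ : ℝ) < 4 := by linarith
  have hc1 : c = 1 := by
    by_contra hne
    have h2c : (2 : ℤ) ≤ c := by omega
    have h2c' : (2 : ℝ) ≤ c := by exact_mod_cast h2c
    have h13 : (2 : ℝ) ≤ A₂ := by exact_mod_cast hA₂
    nlinarith
  refine ⟨by exact_mod_cast h12', hc1, ?_⟩
  have h13 : (2 : ℝ) ≤ A₂ := by exact_mod_cast hA₂
  linarith

lemma num_Y' {A₁ : ℕ} {a : ℤ} (ha : 0 < a) {U U' : ℝ} (hU : U + U' = a)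
    (h1 : (A₁ * U ^ 2 : ℝ) < 1 / 2) (h2 : (A₁ * U' ^ 2 : ℝ) < 2) : A₁ < 5 := by
  have h4 := one_le_sq ha
  rw [← hU] at h4
  have h14 : (U + U') ^ 2 ≤ 3 * U ^ 2 + 3 / 2 * U' ^ 2 := by nlinarith [sq_nonneg (2 * U - U')]
  have h15 : (A₁ : ℝ) ≤ A₁ * (3 * U ^ 2 + 3 / 2 * U' ^ 2) :=
    le_mul_of_one_le_right (Nat.cast_nonneg _) (h4.trans h14)
  have h16 : (A₁ : ℝ) < 5 := by nlinarith
  exact_mod_cast h16

/-- Sub-case Y, complete. -/
lemma num_YY {d m A₁ A₂ : ℕ} (hd : d = 2 * m) (hm : Odd m) (hA : A₁ * A₂ = d) (hA₁ : Odd A₁)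
    (hA₂ : Even A₂)
    {a c : ℤ} (ha : 0 < a) (hc : 0 < c) {U U' V V' : ℝ} (hU : U + U' = a) (hV : V + V' = c)
    {κ κ' l l' : ℤ} (hl : (l + l') % 2 = c % 2) (hκ : Odd κ) (hκ' : Even κ')
    (c11 : Cor d A₁ A₂ U V κ l) (c12 : Cor d A₁ A₂ U V' κ l')
    (c21 : Cor d A₁ A₂ U' V κ' l) (c22 : Cor d A₁ A₂ U' V' κ' l') : d = 2 ∨ d = 6 := by
  have hde : Even d := by rw [hd]; exact even_two_mul m
  have hm0 := hm.pos
  have hA₂' : 2 ≤ A₂ := by
    rcases Nat.eq_zero_or_pos A₂ with h | h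
    · subst h; omega
    · obtain ⟨t, rfl⟩ := hA₂; omega
  obtain ⟨h1, h2, h3⟩ := num_Y hA₂' ha hc hU hV (c11.even_one hde hκ) (c12.even_one hde hκ)
  have h4 : A₂ = 2 := by obtain ⟨t, rfl⟩ := hA₂; omega
  have h5 : (A₁ * U' ^ 2 : ℝ) < 2 := by
    rw [h2] at hl
    rcases Int.even_or_odd l with hle | hlo
    · have hlo' : Odd l' := by
        rw [Int.even_iff] at hle
        rw [Int.odd_iff]; omega
      have := c22.even_two hd hm hκ' hlo'
      have h9 : (0 : ℝ) ≤ A₂ * V' ^ 2 := by positivity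
      linarith
    · have := c21.even_two hd hm hκ' hlo
      have h9 : (0 : ℝ) ≤ A₂ * V ^ 2 := by positivity
      linarith
  have h6 := num_Y' ha hU h3 h5
  obtain ⟨s, hs⟩ := hA₁
  have h7 : A₁ = 1 ∨ A₁ = 3 := by omega
  rcases h7 with h7 | h7
  · left; rw [← hA, h7, h4]
  · right; rw [← hA, h7, h4]

/-- The case `d = 2 m` with `m` odd. -/
lemma num_even {d m A₁ A₂ : ℕ} (hd : d = 2 * m) (hm : Odd m) (hA : A₁ * A₂ = d) (hA₁ : Odd A₁)
    {a c : ℤ} (ha : 0 < a) (hc : 0 < c) {U U' V V' : ℝ} (hU : U + U' = a) (hV : V + V' = c)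
    {κ κ' l l' : ℤ} (hκ : (κ + κ') % 2 = a % 2) (hl : (l + l') % 2 = c % 2)
    (c11 : Cor d A₁ A₂ U V κ l) (c12 : Cor d A₁ A₂ U V' κ l')
    (c21 : Cor d A₁ A₂ U' V κ' l) (c22 : Cor d A₁ A₂ U' V' κ' l') : d = 2 ∨ d = 6 := by
  have hde : Even d := by rw [hd]; exact even_two_mul m
  have hA₂ : Even A₂ := by
    rw [← hA, Nat.even_mul] at hde
    exact hde.resolve_left (Nat.not_even_iff_odd.2 hA₁)
  have hmod : ∀ B : ℕ, A₁ = 1 → A₂ = B → B < 8 → d = 2 ∨ d = 6 := by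
    intro B h1 h2 h3
    obtain ⟨t, ht⟩ := hm
    have h4 : d = A₂ := by rw [← hA, h1, one_mul]
    omega
  rcases Int.even_or_odd a with hae | hao
  · have e1 := even_of_even_sum hκ hae
    rcases Int.even_or_odd κ with hke | hko
    · have hke' : Even κ' := e1.1 hke
      rcases Int.even_or_odd c with hce | hco
      · have h := four_even ha hc hae hce hU hV c11.four c22.four
        have := hA₁.pos
        have hA₂p : 0 < A₂ := by
          rcases Nat.eq_zero_or_pos A₂ with h | h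
          · subst h; have := hm.pos; omega
          · exact h
        obtain ⟨t, ht⟩ := hA₂
        exact hmod A₂ (by omega) rfl (by omega)
      · have e2 := even_iff_odd_of_odd_sum hl hco
        rcases Int.even_or_odd l with hle | hlo
        · have hlo' := e2.1 hle
          have hV' : V' + V = c := by rw [add_comm]; exact hV
          obtain ⟨h1, h2⟩ := num_X hA₁.pos ha hae hc hU hV' (c12.even_two hd hm hke hlo')
            (c22.even_two hd hm hke' hlo') c11.four c21.four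
          exact hmod A₂ h1 rfl h2
        · obtain ⟨h1, h2⟩ := num_X hA₁.pos ha hae hc hU hV (c11.even_two hd hm hke hlo)
            (c21.even_two hd hm hke' hlo) c12.four c22.four
          exact hmod A₂ h1 rfl h2
    · exfalso
      have hko' : Odd κ' := by
        rw [← Int.not_even_iff_odd] at hko ⊢
        rwa [← e1]
      exact contra_even hA₁.pos ha hae hU (c11.even_one hde hko) (c21.even_one hde hko')
  · have e1 := even_iff_odd_of_odd_sum hκ hao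
    rcases Int.even_or_odd κ with hke | hko
    · have hko' := e1.1 hke
      have hU' : U' + U = a := by rw [add_comm]; exact hU
      exact num_YY hd hm hA hA₁ hA₂ ha hc hU' hV hl hko' hke c21 c22 c11 c12
    · have hke' : Even κ' := by
        by_contra hne
        rw [Int.not_even_iff_odd] at hne
        exact (Int.not_odd_iff_even.2 (e1.2 hne)) hko
      exact num_YY hd hm hA hA₁ hA₂ ha hc hU hV hl hko hke' c11 c12 c21 c22

/-- The numerical heart of the matter. -/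
theorem number_lemma {d A₁ A₂ : ℕ} (hd : Squarefree d) (hA : A₁ * A₂ = d) (hA₁ : Odd A₁)
    {a c : ℤ} (ha : 0 < a) (hc : 0 < c) {U U' V V' : ℝ} (hU : U + U' = a) (hV : V + V' = c)
    {κ κ' l l' : ℤ} (hκ : (κ + κ') % 2 = a % 2) (hl : (l + l') % 2 = c % 2)
    (c11 : Cor d A₁ A₂ U V κ l) (c12 : Cor d A₁ A₂ U V' κ l')
    (c21 : Cor d A₁ A₂ U' V κ' l) (c22 : Cor d A₁ A₂ U' V' κ' l') : d = 1 ∨ d = 2 ∨ d = 6 := by
  rcases Nat.even_or_odd d with hde | hdo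
  · right
    obtain ⟨m, hm⟩ := hde
    have hm2 : d = 2 * m := by omega
    have hmo : Odd m := by
      by_contra hne
      rw [Nat.not_odd_iff_even] at hne
      obtain ⟨s, hs⟩ := hne
      have h4 : 2 * 2 ∣ d := ⟨s, by omega⟩
      have := hd 2 h4
      rw [Nat.isUnit_iff] at this
      omega
    exact num_even hm2 hmo hA hA₁ ha hc hU hV hκ hl c11 c12 c21 c22
  · left
    exact num_odd hA hdo ha hc hU hV hκ hl c11 c12 c21 c22

end Pool.Agent.Helper613.KN
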