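import Pool.Agent.Helper613.KNLat
import Pool.Agent.Helper613.KNNum

set_option autoImplicit false

namespace Pool.Agent.Helper613.KN

open Matrix

variable {d : ℕ} {Sw Sb : Set V4}

/-- The generator `δ` of the ideal `⟨e, M⟩` divides `d`. -/
lemma delta_dvd {M : AddSubgroup V4} (hM : Good d Sw Sb M)
    (hmax : ∀ N : AddSubgroup V4, Good d Sw Sb N → M ≤ N → N = M) {e : V4} (he : mink e e = 0)
    (heM : e ∈ M) (hprim : ∀ t : ℝ, t • e ∈ M → ∃ n : ℤ, t = n) {δ : ℤ} (hδ : 0 < δ)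
    (hδM : ∀ x ∈ M, ∃ k : ℤ, mink e x = δ * k) : δ ∣ d := by
  have hg : 0 < Int.gcd δ d := Int.gcd_pos_of_ne_zero_left _ hδ.ne'
  obtain ⟨k, d', hcop, h1, h2⟩ := Int.exists_gcd_one hg
  set g := Int.gcd δ d
  have hgZ : (0 : ℤ) < g := by exact_mod_cast hg
  have hk : 0 < k := by
    rw [h1] at hδ
    exact pos_of_mul_pos_left hδ hgZ.le
  have hkR : (0 : ℝ) < k := by exact_mod_cast hk
  have h1R : (δ : ℝ) = k * g := by exact_mod_cast h1
  have h2R : (d : ℝ) = d' * g := by exact_mod_cast h2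
  have hmem : (1 / (k : ℝ)) • e ∈ M := by
    apply mem_of_maximal hM hmax
    · rw [mink_smul_left, mink_smul_right, he]; ring
    · intro y hy
      obtain ⟨m, hm⟩ := hδM y hy
      refine ⟨g * m, ?_⟩
      rw [mink_comm, mink_smul_left, hm, h1R]
      push_cast; field_simp
    · intro b hb
      obtain ⟨m1, hm1⟩ := hδM b (hM.b b hb)
      obtain ⟨m2, hm2⟩ := hM.dual e heM b hb
      have h3 : (δ : ℤ) * m1 = d * m2 := by
        have : (δ : ℝ) * m1 = d * m2 := by rw [← hm1, ← hm2]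
        exact_mod_cast this
      have h4 : k * m1 = d' * m2 := by
        have : (g : ℤ) * (k * m1) = g * (d' * m2) := by
          rw [h1, h2] at h3; linarith
        exact mul_left_cancel₀ hgZ.ne' this
      have h5 : d' ∣ m1 := by
        have : d' ∣ k * m1 := ⟨m2, h4⟩
        exact (Int.isCoprime_iff_gcd_eq_one.2 hcop).symm.dvd_of_dvd_mul_left this
      obtain ⟨m3, hm3⟩ := h5
      refine ⟨m3, ?_⟩
      rw [mink_smul_left, hm1, h1R, hm3, h2R]
      push_cast; field_simp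
  obtain ⟨n, hn⟩ := hprim _ hmem
  have hk1 : k = 1 := by
    have h3 : (1 : ℝ) = n * k := by rw [← hn]; field_simp
    have h4 : (1 : ℤ) = n * k := by exact_mod_cast h3
    exact Int.eq_one_of_mul_eq_one_left hk.le h4.symm
  rw [h1, hk1, one_mul]
  exact Int.gcd_dvd_right _ _

/-- If `δ` is even, some black wall pairs with `e` to an odd multiple of `d`. -/
lemma exists_odd_black {M : AddSubgroup V4} (hM : Good d Sw Sb M)
    (hmax : ∀ N : AddSubgroup V4, Good d Sw Sb N → M ≤ N → N = M) {e : V4} (he : mink e e = 0)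
    (heM : e ∈ M) (hprim : ∀ t : ℝ, t • e ∈ M → ∃ n : ℤ, t = n) {δ : ℤ} (hδ : Even δ)
    (hδM : ∀ x ∈ M, ∃ k : ℤ, mink e x = δ * k) :
    ∃ b ∈ Sb, ∃ η : ℤ, mink e b = d * η ∧ Odd η := by
  by_contra hcon
  push Not at hcon
  have hmem : (1 / (2 : ℝ)) • e ∈ M := by
    apply mem_of_maximal hM hmax
    · rw [mink_smul_left, mink_smul_right, he]; ring
    · intro y hy
      obtain ⟨m, hm⟩ := hδM y hy
      obtain ⟨t, ht⟩ := hδ
      refine ⟨t * m, ?_⟩
      rw [mink_comm, mink_smul_left, hm, ht]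
      push_cast; ring
    · intro b hb
      obtain ⟨m2, hm2⟩ := hM.dual e heM b hb
      have := hcon b hb m2 hm2
      rw [Int.not_odd_iff_even] at this
      obtain ⟨t, ht⟩ := this
      refine ⟨t, ?_⟩
      rw [mink_smul_left, hm2, ht]
      push_cast; ring
  obtain ⟨n, hn⟩ := hprim _ hmem
  have h3 : (1 : ℝ) = n * 2 := by rw [← hn]; ring
  have h4 : (1 : ℤ) = n * 2 := by exact_mod_cast h3
  omega

/-- The maximum height inequality. -/
lemma corner_ineq (hd : 0 < d) {e e' u v : V4} (he : mink e e = 0) (he' : mink e' e' = 0)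
    (hs : mink e e' < 0) (hu : mink u u = 2) (hv : mink v v = 2 * d) (huv : mink u v = 0)
    (heu : mink e u = 0) (hev : mink e v = 0) (he'u : mink e' u = 0) (he'v : mink e' v = 0)
    (h3 : 0 < e 3) (hle : e' 3 ≤ e 3) :
    (- mink e e') * (u 3 ^ 2 + v 3 ^ 2 / d) < 4 * e 3 ^ 2 := by
  have hdR : (0 : ℝ) < d := by exact_mod_cast hd
  set o : V4 := ![0, 0, 0, 1] with ho
  have hoo : mink o o = -1 := by simp [mink, ho]
  have hox : ∀ x : V4, mink o x = - x 3 := fun x => by simp [mink, ho]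
  have h := corner_norm he he' hs.ne (by rw [hu]; norm_num) (by rw [hv]; positivity) huv heu hev
    he'u he'v o
  rw [hoo, hox, hox, hox, hox, hu, hv] at h
  have h1 : (- mink e e') * (u 3 ^ 2 + v 3 ^ 2 / d) = 4 * (e 3 * e' 3) + 2 * mink e e' := by
    have h2 : mink e e' ≠ 0 := hs.ne
    field_simp at h
    field_simp
    linarith
  rw [h1]
  nlinarith

lemma cor_odd (hd : 0 < d) {M : AddSubgroup V4} (hM : Good d Sw Sb M) {e e' u v f : V4}
    (he : mink e e = 0) (he' : mink e' e' = 0)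
    (hs : mink e e' < 0) (hu : mink u u = 2) (hv : mink v v = 2 * d) (huv : mink u v = 0)
    (heu : mink e u = 0) (hev : mink e v = 0) (he'u : mink e' u = 0) (he'v : mink e' v = 0)
    (h3 : 0 < e 3) (hle : e' 3 ≤ e 3) (he'M : e' ∈ M) (hf : f ∈ M) {δ D : ℕ}
    (hδD : δ * D = d) (hδM : ∀ x ∈ M, ∃ k : ℤ, mink e x = δ * k) (hef : mink e f = -δ)
    {κ l : ℤ} (hκ : mink f u = κ) (hl : mink f v = d * l) :
    Cor d δ D (u 3 / e 3) (v 3 / (e 3 * D)) κ l := by
  have hδ : 0 < δ := Nat.pos_of_ne_zero (by rintro rfl; simp at hδD; omega)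
  have hD : 0 < D := Nat.pos_of_ne_zero (by rintro rfl; simp at hδD; omega)
  have hδR : (0 : ℝ) < δ := by exact_mod_cast hδ
  have hDR : (0 : ℝ) < D := by exact_mod_cast hD
  have hdR : (0 : ℝ) < d := by exact_mod_cast hd
  have hdeq : (d : ℝ) = δ * D := by exact_mod_cast hδD.symm
  obtain ⟨y', hy'⟩ := hδM e' he'M
  obtain ⟨y, rfl⟩ : ∃ y, y' = -y := ⟨-y', by ring⟩
  have hy : mink e e' = - (δ * y) := by rw [hy']; push_cast; ring
  have hypos : (0 : ℝ) < y := by
    rw [hy] at hs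
    have : 0 < (δ : ℝ) * y := by linarith
    exact pos_of_mul_pos_right this hδR.le
  refine ⟨y, by exact_mod_cast hypos, ?_, ?_⟩
  · obtain ⟨r, hr⟩ := hM.int he'M hf
    obtain ⟨φ, hφ⟩ := hM.even f hf
    have h := corner_norm he he' hs.ne (by rw [hu]; norm_num) (by rw [hv]; positivity) huv heu hev
      he'u he'v (e' - (y : ℝ) • f)
    have e1 : mink (e' - (y : ℝ) • f) e = 0 := by
      rw [mink_sub_left, mink_smul_left, mink_comm e' e, mink_comm f e, hy, hef]; ring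
    have e2 : mink (e' - (y : ℝ) • f) u = -(y * κ) := by
      rw [mink_sub_left, mink_smul_left, he'u, hκ]; ring
    have e3 : mink (e' - (y : ℝ) • f) v = -(y * (d * l)) := by
      rw [mink_sub_left, mink_smul_left, he'v, hl]; ring
    have e4 : mink (e' - (y : ℝ) • f) (e' - (y : ℝ) • f) = -2 * y * r + 2 * y ^ 2 * φ := by
      rw [mink_sub_left, mink_sub_right, mink_sub_right, mink_smul_left, mink_smul_right,
        mink_smul_left, mink_smul_right, he', mink_comm f e', hr, hφ]; ring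
    rw [e1, e2, e3, e4, hu, hv] at h
    have h5 : (y : ℝ) * (κ ^ 2 + d * l ^ 2) = 4 * (-r + y * φ) := by
      have h6 : (y : ℝ) * ((y : ℝ) * (κ ^ 2 + d * l ^ 2)) = y * (4 * (-r + y * φ)) := by
        rw [zero_mul, mul_zero, zero_div, zero_add] at h
        have h7 : (-(y * (d * l) : ℝ)) ^ 2 / (2 * d) = y ^ 2 * d * l ^ 2 / 2 := by
          field_simp
        rw [h7] at h
        linarith
      exact mul_left_cancel₀ hypos.ne' h6
    refine ⟨-r + y * φ, ?_⟩
    exact_mod_cast h5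
  · have h := corner_ineq hd he he' hs hu hv huv heu hev he'u he'v h3 hle
    rw [hy] at h
    have h7 : (y : ℝ) * (δ * (u 3 / e 3) ^ 2 + D * (v 3 / (e 3 * D)) ^ 2) =
        (- -(δ * y)) * (u 3 ^ 2 + v 3 ^ 2 / d) / e 3 ^ 2 := by
      rw [hdeq]
      field_simp
    rw [h7, div_lt_iff₀ (by positivity)]
    exact h

lemma cor_even (hd : 0 < d) {M : AddSubgroup V4} (hM : Good d Sw Sb M) {e e' u v b : V4}
    (he : mink e e = 0) (he' : mink e' e' = 0)
    (hs : mink e e' < 0) (hu : mink u u = 2) (hv : mink v v = 2 * d) (huv : mink u v = 0)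
    (heu : mink e u = 0) (hev : mink e v = 0) (he'u : mink e' u = 0) (he'v : mink e' v = 0)
    (h3 : 0 < e 3) (hle : e' 3 ≤ e 3) (he'M : e' ∈ M) (hb : b ∈ Sb) (hbb : mink b b = 2 * d)
    {δ D : ℕ}
    (hδD : δ * D = d) (hδM : ∀ x ∈ M, ∃ k : ℤ, mink e x = δ * k) {η : ℤ}
    (heb : mink e b = d * η)
    {κ l : ℤ} (hκ : mink b u = d * κ) (hl : mink b v = d * l) :
    Cor d D δ (v 3 / (e 3 * D)) (u 3 / e 3) l κ := by
  have hδ : 0 < δ := Nat.pos_of_ne_zero (by rintro rfl; simp at hδD; omega)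
  have hD : 0 < D := Nat.pos_of_ne_zero (by rintro rfl; simp at hδD; omega)
  have hδR : (0 : ℝ) < δ := by exact_mod_cast hδ
  have hDR : (0 : ℝ) < D := by exact_mod_cast hD
  have hdR : (0 : ℝ) < d := by exact_mod_cast hd
  have hdeq : (d : ℝ) = δ * D := by exact_mod_cast hδD.symm
  obtain ⟨y', hy'⟩ := hδM e' he'M
  obtain ⟨y, rfl⟩ : ∃ y, y' = -y := ⟨-y', by ring⟩
  have hy : mink e e' = - (δ * y) := by rw [hy']; push_cast; ring
  have hypos : (0 : ℝ) < y := by
    rw [hy] at hs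
    have : 0 < (δ : ℝ) * y := by linarith
    exact pos_of_mul_pos_right this hδR.le
  refine ⟨y, by exact_mod_cast hypos, ?_, ?_⟩
  · obtain ⟨r, hr⟩ := hM.dual e' he'M b hb
    have h := corner_norm he he' hs.ne (by rw [hu]; norm_num) (by rw [hv]; positivity) huv heu hev
      he'u he'v b
    rw [mink_comm b e, mink_comm b e', heb, hr, hκ, hl, hu, hv, hbb, hy] at h
    have h5 : (y : ℝ) * (l ^ 2 + d * κ ^ 2) = 4 * (y + D * η * r) := by
      have h6 : ((δ : ℝ) * D) * ((y : ℝ) * (l ^ 2 + d * κ ^ 2)) =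
          ((δ : ℝ) * D) * (4 * (y + D * η * r)) := by
        rw [hdeq] at h ⊢
        field_simp at h
        field_simp
        linarith
      exact mul_left_cancel₀ (by positivity) h6
    refine ⟨y + D * η * r, ?_⟩
    exact_mod_cast h5
  · have h := corner_ineq hd he he' hs hu hv huv heu hev he'u he'v h3 hle
    rw [hy] at h
    have h7 : (y : ℝ) * (D * (v 3 / (e 3 * D)) ^ 2 + δ * (u 3 / e 3) ^ 2) =
        (- -(δ * y)) * (u 3 ^ 2 + v 3 ^ 2 / d) / e 3 ^ 2 := by
      rw [hdeq]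
      field_simp
      ring
    rw [h7, div_lt_iff₀ (by positivity)]
    exact h

/-- The cusps and their corners. -/
structure CuspSystem (Sw Sb : Set V4) (ι : Type) where
  eps : ι → V4
  w : ι → Fin 2 → V4
  b : ι → Fin 2 → V4
  iso : ∀ p, mink (eps p) (eps p) = 0
  fwd : ∀ p, 0 < eps p 3
  w_mem : ∀ p i, w p i ∈ Sw
  b_mem : ∀ p i, b p i ∈ Sb
  w_sum : ∀ p, ∃ a : ℝ, 0 < a ∧ w p 0 + w p 1 = a • eps p
  b_sum : ∀ p, ∃ a : ℝ, 0 < a ∧ b p 0 + b p 1 = a • eps p
  orth : ∀ p i j, mink (w p i) (b p j) = 0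
  w_eps : ∀ p i, mink (eps p) (w p i) = 0
  b_eps : ∀ p i, mink (eps p) (b p i) = 0
  corner : ∀ p i j, ∃ q, mink (eps q) (w p i) = 0 ∧ mink (eps q) (b p j) = 0 ∧
    mink (eps p) (eps q) ≠ 0

lemma mink_neg_of_iso {x y : V4} (hx : mink x x = 0) (hx3 : 0 < x 3) (hy : mink y y = 0)
    (hy3 : 0 < y 3) (h : mink x y ≠ 0) : mink x y < 0 :=
  lt_of_le_of_ne (mink_nonpos ⟨hx.le, hx3⟩ ⟨hy.le, hy3⟩) h

/-- **Core theorem.** -/
theorem core (hd : Squarefree d) (hS : IntWalls d Sw Sb) {ι : Type} [Finite ι] [Nonempty ι]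
    (C : CuspSystem Sw Sb ι) : d = 1 ∨ d = 2 ∨ d = 6 := by
  have hd0 : 0 < d := Nat.pos_of_ne_zero hd.ne_zero
  have hdR : (0 : ℝ) < d := by exact_mod_cast hd0
  obtain ⟨M, hM, hmax⟩ := exists_maximal hS
  -- primitive vectors
  have hsum : ∀ p, ∃ a : ℝ, 0 < a ∧ a • C.eps p ∈ M := by
    intro p
    obtain ⟨a, ha, h⟩ := C.w_sum p
    exact ⟨a, ha, by rw [← h]; exact M.add_mem (hM.w _ (C.w_mem p 0)) (hM.w _ (C.w_mem p 1))⟩
  have hprim : ∀ p, ∃ c : ℝ, 0 < c ∧ c • C.eps p ∈ M ∧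
      (∀ t : ℝ, t • (c • C.eps p) ∈ M → ∃ n : ℤ, t = n) ∧
      ∃ δ : ℤ, 0 < δ ∧ (∃ f ∈ M, mink (c • C.eps p) f = -δ) ∧
        ∀ x ∈ M, ∃ k : ℤ, mink (c • C.eps p) x = δ * k := by
    intro p
    obtain ⟨a, ha, h⟩ := hsum p
    obtain ⟨q, -, -, hq⟩ := C.corner p 0 0
    obtain ⟨a', ha', h'⟩ := hsum q
    exact exists_prim hM ha h h' (by rw [mink_smul_right]; exact mul_ne_zero ha'.ne' hq)
  choose c hc hcM hcp δf hδ hf hδM using hprim
  obtain ⟨p, hp⟩ := Finite.exists_max fun p => (c p • C.eps p) 3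
  -- the cusp of maximal height
  set e := c p • C.eps p with hedef
  have hcp0 := hc p
  have he : mink e e = 0 := by rw [hedef, mink_smul_left, mink_smul_right, C.iso p]; ring
  have he3 : 0 < e 3 := by
    rw [hedef]; exact mul_pos hcp0 (C.fwd p)
  obtain ⟨f, hfM, hef⟩ := hf p
  have heM : e ∈ M := hcM p
  have hδdvd : (δf p) ∣ (d : ℤ) := delta_dvd hM hmax he heM (hcp p) (hδ p) (hδM p)
  obtain ⟨δ, hδeq⟩ := Int.eq_ofNat_of_zero_le (hδ p).le
  have hδM' : ∀ x ∈ M, ∃ k : ℤ, mink e x = δ * k := by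
    intro x hx
    obtain ⟨k, hk⟩ := hδM p x hx
    exact ⟨k, by rw [hk, hδeq]; simp⟩
  have hef' : mink e f = - δ := by rw [hef, hδeq]; simp
  rw [hδeq] at hδdvd
  have hδdvd' : δ ∣ d := by exact_mod_cast hδdvd
  obtain ⟨D, hD⟩ := hδdvd'
  have hδD : δ * D = d := hD.symm
  have hdeq : (d : ℝ) = δ * D := by exact_mod_cast hD
  have hδ0 : 0 < δ := Nat.pos_of_ne_zero (by rintro rfl; simp at hδD; omega)
  have hD0 : 0 < D := Nat.pos_of_ne_zero (by rintro rfl; simp at hδD; omega)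
  have hδR : (0 : ℝ) < δ := by exact_mod_cast hδ0
  have hDR : (0 : ℝ) < D := by exact_mod_cast hD0
  -- sums
  have hw : ∀ i, C.w p i ∈ M := fun i => hM.w _ (C.w_mem p i)
  have hb : ∀ i, C.b p i ∈ M := fun i => hM.b _ (C.b_mem p i)
  obtain ⟨i, hi, hi'⟩ : ∃ i : ℤ, 0 < i ∧ C.w p 0 + C.w p 1 = (i : ℝ) • e := by
    obtain ⟨a, ha, h⟩ := C.w_sum p
    have h1 : C.w p 0 + C.w p 1 = (a / c p) • e := by
      rw [h, hedef, smul_smul]; congr 1; field_simp
    have h2 : (a / c p) • e ∈ M := by rw [← h1]; exact M.add_mem (hw 0) (hw 1)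
    obtain ⟨n, hn⟩ := hcp p _ h2
    refine ⟨n, ?_, by rw [h1, hn]⟩
    have : (0 : ℝ) < n := by rw [← hn]; positivity
    exact_mod_cast this
  obtain ⟨j, hj, hj'⟩ : ∃ j : ℤ, 0 < j ∧ C.b p 0 + C.b p 1 = (j : ℝ) • e := by
    obtain ⟨a, ha, h⟩ := C.b_sum p
    have h1 : C.b p 0 + C.b p 1 = (a / c p) • e := by
      rw [h, hedef, smul_smul]; congr 1; field_simp
    have h2 : (a / c p) • e ∈ M := by rw [← h1]; exact M.add_mem (hb 0) (hb 1)
    obtain ⟨n, hn⟩ := hcp p _ h2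
    refine ⟨n, ?_, by rw [h1, hn]⟩
    have : (0 : ℝ) < n := by rw [← hn]; positivity
    exact_mod_cast this
  -- integers attached to f
  have hκex : ∀ k, ∃ κ : ℤ, mink f (C.w p k) = κ := fun k => hM.int hfM (hw k)
  choose κ hκ using hκex
  have hlex : ∀ k, ∃ l : ℤ, mink f (C.b p k) = d * l := fun k => hM.dual f hfM _ (C.b_mem p k)
  choose l hl using hlex
  have hjsum : (j : ℝ) = -(l 0 + l 1) * D := by
    have h1 : mink f (C.b p 0 + C.b p 1) = d * (l 0 + l 1) := by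
      rw [mink_add_right, hl, hl]; ring
    rw [hj', mink_smul_right, mink_comm f e, hef', hdeq] at h1
    have h2 : (δ : ℝ) * j = δ * (-(l 0 + l 1) * D) := by linarith
    exact mul_left_cancel₀ hδR.ne' h2
  set jh : ℤ := -(l 0 + l 1) with hjh
  have hjh' : j = jh * D := by
    have : (j : ℝ) = jh * D := by rw [hjsum, hjh]; push_cast; ring
    exact_mod_cast this
  have hjhpos : 0 < jh := by
    rw [hjh'] at hj
    exact pos_of_mul_pos_left hj (by positivity)
  -- corners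
  have hcorner : ∀ k k', ∃ e' ∈ M, mink e' e' = 0 ∧ mink e e' < 0 ∧ mink e' (C.w p k) = 0 ∧
      mink e' (C.b p k') = 0 ∧ e' 3 ≤ e 3 := by
    intro k k'
    obtain ⟨q, h1, h2, h3⟩ := C.corner p k k'
    refine ⟨c q • C.eps q, hcM q, ?_, ?_, ?_, ?_, hp q⟩
    · rw [mink_smul_left, mink_smul_right, C.iso q]; ring
    · rw [hedef, mink_smul_left, mink_smul_right]
      have := mink_neg_of_iso (C.iso p) (C.fwd p) (C.iso q) (C.fwd q) h3
      have h4 := mul_pos hcp0 (hc q)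
      nlinarith
    · rw [mink_smul_left, h1, mul_zero]
    · rw [mink_smul_left, h2, mul_zero]
  have hew : ∀ k, mink e (C.w p k) = 0 := fun k => by
    rw [hedef, mink_smul_left, C.w_eps, mul_zero]
  have heb : ∀ k, mink e (C.b p k) = 0 := fun k => by
    rw [hedef, mink_smul_left, C.b_eps, mul_zero]
  -- the sums of the heights
  have hU : C.w p 0 3 / e 3 + C.w p 1 3 / e 3 = i := by
    have h1 := congrFun hi' 3
    simp only [Pi.add_apply, Pi.smul_apply, smul_eq_mul] at h1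
    rw [← add_div, h1]; field_simp
  have hV : C.b p 0 3 / (e 3 * D) + C.b p 1 3 / (e 3 * D) = jh := by
    have h1 := congrFun hj' 3
    simp only [Pi.add_apply, Pi.smul_apply, smul_eq_mul] at h1
    rw [← add_div, h1, hjh']; push_cast; field_simp
  rcases Nat.even_or_odd δ with hδe | hδo
  · -- δ even
    obtain ⟨b0, hb0, η, hη, hηo⟩ := exists_odd_black hM hmax he heM (hcp p) (δ := (δ : ℤ))
      (by exact_mod_cast hδe) (by
        intro x hx
        obtain ⟨k, hk⟩ := hδM' x hx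
        exact ⟨k, by rw [hk]; simp⟩)
    have hb0M := hM.b b0 hb0
    have hκex : ∀ k, ∃ κ : ℤ, mink b0 (C.w p k) = d * κ := fun k => by
      obtain ⟨n, hn⟩ := hM.dual _ (hw k) b0 hb0
      exact ⟨n, by rw [mink_comm, hn]⟩
    choose κ1 hκ1 using hκex
    have hlex : ∀ k, ∃ l : ℤ, mink b0 (C.b p k) = d * l := fun k =>
      hM.dual b0 hb0M _ (C.b_mem p k)
    choose l1 hl1 using hlex
    have hDo : Odd D := by
      by_contra hne
      rw [Nat.not_odd_iff_even] at hne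
      obtain ⟨s, hs⟩ := hne
      obtain ⟨t, ht⟩ := hδe
      have h4 : 2 * 2 ∣ d := ⟨t * s, by rw [hD, hs, ht]; ring⟩
      have := hd 2 h4
      rw [Nat.isUnit_iff] at this
      omega
    have s1 : κ1 0 + κ1 1 = i * η := by
      have h1 : mink b0 (C.w p 0 + C.w p 1) = d * (κ1 0 + κ1 1) := by
        rw [mink_add_right, hκ1, hκ1]; ring
      rw [hi', mink_smul_right, mink_comm b0 e, hη] at h1
      have h2 : (d : ℝ) * (κ1 0 + κ1 1) = d * (i * η) := by linarith
      have h3 := mul_left_cancel₀ hdR.ne' h2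
      exact_mod_cast h3
    have s2 : l1 0 + l1 1 = j * η := by
      have h1 : mink b0 (C.b p 0 + C.b p 1) = d * (l1 0 + l1 1) := by
        rw [mink_add_right, hl1, hl1]; ring
      rw [hj', mink_smul_right, mink_comm b0 e, hη] at h1
      have h2 : (d : ℝ) * (l1 0 + l1 1) = d * (j * η) := by linarith
      have h3 := mul_left_cancel₀ hdR.ne' h2
      exact_mod_cast h3
    have m1 : (κ1 0 + κ1 1) % 2 = i % 2 := by
      rw [s1, Int.mul_emod, Int.odd_iff.1 hηo]; simp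
    have m2 : (l1 0 + l1 1) % 2 = jh % 2 := by
      have hDo' : (D : ℤ) % 2 = 1 := by
        rw [← Int.odd_iff]; exact_mod_cast hDo
      rw [s2, hjh', Int.mul_emod, Int.odd_iff.1 hηo, Int.mul_emod jh, hDo']; simp
    have hcor : ∀ k k', Cor d D δ (C.b p k' 3 / (e 3 * D)) (C.w p k 3 / e 3) (l1 k') (κ1 k) := by
      intro k k'
      obtain ⟨e', he'M, he'e', hee', he'w, he'b, hle⟩ := hcorner k k'
      exact cor_even hd0 hM he he'e' hee' (hS.w _ (C.w_mem p k)) (hS.b _ (C.b_mem p k'))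
        (C.orth p k k') (hew k) (heb k') he'w he'b he3 hle he'M hb0 (hS.b _ hb0) hδD hδM' hη
        (hκ1 k) (hl1 k')
    exact number_lemma hd (by rw [mul_comm]; exact hδD) hDo hjhpos hi hV hU m2 m1
      (hcor 0 0) (hcor 1 0) (hcor 0 1) (hcor 1 1)
  · -- δ odd
    have s1 : κ 0 + κ 1 = - (i * δ) := by
      have h1 : mink f (C.w p 0 + C.w p 1) = κ 0 + κ 1 := by
        rw [mink_add_right, hκ, hκ]
      rw [hi', mink_smul_right, mink_comm f e, hef'] at h1
      have h2 : (κ 0 + κ 1 : ℝ) = - (i * δ) := by linarith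
      exact_mod_cast h2
    have m1 : (κ 0 + κ 1) % 2 = i % 2 := by
      have hδo' : (δ : ℤ) % 2 = 1 := by
        rw [← Int.odd_iff]; exact_mod_cast hδo
      rw [s1, ← Int.neg_emod_two, neg_neg, Int.mul_emod, hδo']; simp
    have m2 : (l 0 + l 1) % 2 = jh % 2 := by
      rw [hjh]; omega
    have hcor : ∀ k k', Cor d δ D (C.w p k 3 / e 3) (C.b p k' 3 / (e 3 * D)) (κ k) (l k') := by
      intro k k'
      obtain ⟨e', he'M, he'e', hee', he'w, he'b, hle⟩ := hcorner k k'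
      exact cor_odd hd0 hM he he'e' hee' (hS.w _ (C.w_mem p k)) (hS.b _ (C.b_mem p k'))
        (C.orth p k k') (hew k) (heb k') he'w he'b he3 hle he'M hfM hδD hδM' hef'
        (hκ k) (hl k')
    exact number_lemma hd hδD hδo hi hjhpos hU hV m1 m2
      (hcor 0 0) (hcor 0 1) (hcor 1 0) (hcor 1 1)

end Pool.Agent.Helper613.KN
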