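import Mathlib

set_option autoImplicit false

namespace Pool.Agent.Helper613.KN

open Matrix

/-- Vectors of `ℝ⁴`, the ambient space of the hyperboloid model of `ℍ³`. -/
abbrev V4 : Type := Fin 4 → ℝ

/-- The Lorentz form of signature `(3,1)` on `ℝ⁴`; the last coordinate is timelike. -/
def mink (u v : V4) : ℝ := u 0 * v 0 + u 1 * v 1 + u 2 * v 2 - u 3 * v 3

/-- Hyperbolic 3-space, as the upper sheet of the hyperboloid. The point `(x, 1)`, `|x| < 1`, of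
the open unit ball (the projective model) corresponds to the ray through `(x, 1)`. -/
def Hyp3 : Set V4 := {u | mink u u = -1 ∧ 0 < u 3}

/-- `A` is an isometry of `ℍ³`: a linear map preserving the Lorentz form and the upper sheet. -/
def IsIsom (A : GL (Fin 4) ℝ) : Prop :=
  (∀ u v : V4, mink (A.1 *ᵥ u) (A.1 *ᵥ v) = mink u v) ∧ ∀ u ∈ Hyp3, A.1 *ᵥ u ∈ Hyp3

/-- `A` is the hyperbolic reflection in the plane orthogonal to the vector `v`. -/
def IsReflectionIn (A : GL (Fin 4) ℝ) (v : V4) : Prop :=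
  ∀ u : V4, A.1 *ᵥ u = u - (2 * mink u v / mink v v) • v

/-- The normal vector of the hyperbolic plane cut out of the open unit ball of `ℝ³` by the
Euclidean plane `{z | n ⬝ᵥ z = c}`. -/
def planeVec (n : Fin 3 → ℝ) (c : ℝ) : V4 := ![n 0, n 1, n 2, c]

/-- The segment `[x, y]` is an edge of the convex hull of the finite set `X` of its vertices: some
supporting plane of the hull meets `X` in exactly `x` and `y`. -/
def IsEdge (X : Finset (Fin 3 → ℝ)) (x y : Fin 3 → ℝ) : Prop :=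
  x ∈ X ∧ y ∈ X ∧ x ≠ y ∧ ∃ (n : Fin 3 → ℝ) (c : ℝ), n ⬝ᵥ x = c ∧ n ⬝ᵥ y = c ∧
    ∀ z ∈ X, z ≠ x → z ≠ y → n ⬝ᵥ z < c

/-- The plane `{z | n ⬝ᵥ z = c}` is the plane of a (two-dimensional) face of the convex hull of
`X`: it supports the hull and contains three affinely independent points of `X`. -/
def IsFacet (X : Finset (Fin 3 → ℝ)) (n : Fin 3 → ℝ) (c : ℝ) : Prop :=
  n ≠ 0 ∧ (∀ z ∈ X, n ⬝ᵥ z ≤ c) ∧ ∃ x ∈ X, ∃ y ∈ X, ∃ z ∈ X,
    n ⬝ᵥ x = c ∧ n ⬝ᵥ y = c ∧ n ⬝ᵥ z = c ∧ LinearIndependent ℝ ![y - x, z - x]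

/-- The finite set `X` is the vertex set of a (three-dimensional) convex polyhedron in `ℝ³` all of
whose edges are tangent to the unit sphere: the unit sphere is its midsphere. -/
structure IsMidscribed (X : Finset (Fin 3 → ℝ)) : Prop where
  /-- the points of `X` do not lie in a plane -/
  solid : ∀ (n : Fin 3 → ℝ) (c : ℝ), n ≠ 0 → ∃ x ∈ X, n ⬝ᵥ x ≠ c
  /-- every point of `X` is a vertex of the convex hull -/
  vertex : ∀ x ∈ X, ∃ (n : Fin 3 → ℝ) (c : ℝ), n ⬝ᵥ x = c ∧ ∀ y ∈ X, y ≠ x → n ⬝ᵥ y < c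
  /-- every edge is tangent to the unit sphere -/
  tangent : ∀ x y, IsEdge X x y → ∃ t ∈ openSegment ℝ x y, t ⬝ᵥ t = 1 ∧ t ⬝ᵥ (y - x) = 0

/-- The group `Γ_P` of the polyhedron `P` with vertex set `X` and midsphere the unit sphere: it is
generated by the hyperbolic reflections in the planes of the faces of `P`, and in the planes of
the faces of the polar dual `P^*`, which are the planes `{z | x ⬝ᵥ z = 1}` with `x` a vertex
of `P`. -/
def polyhedronGroup (X : Finset (Fin 3 → ℝ)) : Subgroup (GL (Fin 4) ℝ) :=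
  Subgroup.closure ({A | ∃ n c, IsFacet X n c ∧ IsReflectionIn A (planeVec n c)} ∪
    {A | ∃ x ∈ X, IsReflectionIn A (planeVec x 1)})

/-- The Hermitian matrix attached to a vector of `ℝ⁴`; its determinant is `- mink v v`. -/
noncomputable def herm (v : V4) : Matrix (Fin 2) (Fin 2) ℂ :=
  !![(v 3 + v 2 : ℝ), v 0 + v 1 * Complex.I; v 0 - v 1 * Complex.I, (v 3 - v 2 : ℝ)]

/-- The entries of `g` lie in the ring `ℤ[√-d]`. -/
def EntriesIn (d : ℕ) (g : Matrix (Fin 2) (Fin 2) ℂ) : Prop :=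
  ∀ i j, ∃ x y : ℤ, g i j = x + y * ((Real.sqrt d : ℝ) : ℂ) * Complex.I

lemma EntriesIn.one (d : ℕ) : EntriesIn d 1 := by
  intro i j
  by_cases h : i = j
  · subst h
    exact ⟨1, 0, by simp⟩
  · exact ⟨0, 0, by simp [h]⟩

lemma EntriesIn.mul {d : ℕ} {g h : Matrix (Fin 2) (Fin 2) ℂ} (hg : EntriesIn d g)
    (hh : EntriesIn d h) : EntriesIn d (g * h) := by
  intro i j
  obtain ⟨a, b, h1⟩ := hg i 0
  obtain ⟨a', b', h1'⟩ := hg i 1
  obtain ⟨x, y, h2⟩ := hh 0 j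
  obtain ⟨x', y', h2'⟩ := hh 1 j
  refine ⟨a * x - d * (b * y) + (a' * x' - d * (b' * y')),
    a * y + b * x + (a' * y' + b' * x'), ?_⟩
  have hs : ((Real.sqrt d : ℝ) : ℂ) * ((Real.sqrt d : ℝ) : ℂ) = d := by
    rw [← Complex.ofReal_mul, Real.mul_self_sqrt (Nat.cast_nonneg d)]; simp
  have hI : Complex.I * Complex.I = -1 := Complex.I_mul_I
  rw [Matrix.mul_apply, Fin.sum_univ_two, h1, h1', h2, h2']
  push_cast
  linear_combination (-(b * y : ℂ) - b' * y') * hs +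
    ((Real.sqrt d : ℝ) : ℂ) * ((Real.sqrt d : ℝ) : ℂ) * (b * y + b' * y') * hI

lemma EntriesIn.adjugate {d : ℕ} {g : Matrix (Fin 2) (Fin 2) ℂ} (hg : EntriesIn d g) :
    EntriesIn d g.adjugate := by
  rw [Matrix.adjugate_fin_two]
  intro i j
  obtain ⟨x, y, h⟩ := hg 0 0
  obtain ⟨x1, y1, h1⟩ := hg 0 1
  obtain ⟨x2, y2, h2⟩ := hg 1 0
  obtain ⟨x3, y3, h3⟩ := hg 1 1
  fin_cases i <;> fin_cases j
  · exact ⟨x3, y3, by simp [h3]⟩
  · exact ⟨-x1, -y1, by simp [h1]; ring⟩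
  · exact ⟨-x2, -y2, by simp [h2]; ring⟩
  · exact ⟨x, y, by simp [h]⟩

/-- The image of `PSL₂(ℤ[√-d])` in `Isom(ℍ³)`: the matrix `g ∈ SL₂(ℤ[√-d])` acts on `ℍ³`, seen in
the space of Hermitian matrices, by `H ↦ g H gᴴ`. -/
noncomputable def bianchi (d : ℕ) : Subgroup (GL (Fin 4) ℝ) where
  carrier := {A | ∃ g : Matrix (Fin 2) (Fin 2) ℂ, g.det = 1 ∧ EntriesIn d g ∧
    ∀ v : V4, herm (A.1 *ᵥ v) = g * herm v * gᴴ}
  mul_mem' := by
    rintro A B ⟨g, hg, hg', hA⟩ ⟨h, hh, hh', hB⟩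
    refine ⟨g * h, by rw [Matrix.det_mul, hg, hh, one_mul], hg'.mul hh', fun v => ?_⟩
    rw [Units.val_mul, ← Matrix.mulVec_mulVec, hA, hB, Matrix.conjTranspose_mul]
    simp only [Matrix.mul_assoc]
  one_mem' := ⟨1, by simp, EntriesIn.one d, fun v => by simp⟩
  inv_mem' := by
    rintro A ⟨g, hg, hg', hA⟩
    refine ⟨g.adjugate, by rw [Matrix.det_adjugate, hg, one_pow], hg'.adjugate, fun v => ?_⟩
    have h1 : g.adjugate * g = 1 := by rw [Matrix.adjugate_mul, hg, one_smul]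
    have h2 : gᴴ * g.adjugateᴴ = 1 := by
      rw [← Matrix.conjTranspose_mul, h1, Matrix.conjTranspose_one]
    have h3 : A.1 *ᵥ ((A⁻¹).1 *ᵥ v) = v := by
      rw [Matrix.mulVec_mulVec, ← Units.val_mul, mul_inv_cancel, Units.val_one,
        Matrix.one_mulVec]
    have h4 := hA ((A⁻¹).1 *ᵥ v)
    rw [h3] at h4
    rw [h4]
    calc herm ((A⁻¹).1 *ᵥ v) = (g.adjugate * g) * herm ((A⁻¹).1 *ᵥ v) * (gᴴ * g.adjugateᴴ) := by
          rw [h1, h2, Matrix.one_mul, Matrix.mul_one]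
      _ = _ := by simp only [Matrix.mul_assoc]

/-- The subgroups `H` and `K` of `Isom(ℍ³)` are commensurable up to conjugation in `Isom(ℍ³)`. -/
def CommensurableUpToConj (H K : Subgroup (GL (Fin 4) ℝ)) : Prop :=
  ∃ T : GL (Fin 4) ℝ, IsIsom T ∧ (H.map (MulAut.conj T).toMonoidHom).Commensurable K

end Pool.Agent.Helper613.KN
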