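import Pool.Agent.Helper613.KNMink

set_option autoImplicit false

namespace Pool.Agent.Helper613.KN

open Matrix

/-! ### Elementary linear algebra in `ℝ³` -/

lemma dot3 (u v : Fin 3 → ℝ) : u ⬝ᵥ v = u 0 * v 0 + u 1 * v 1 + u 2 * v 2 := by
  simp [dotProduct, Fin.sum_univ_three]

lemma ext3 {x y : Fin 3 → ℝ} (h0 : x 0 = y 0) (h1 : x 1 = y 1) (h2 : x 2 = y 2) : x = y := by
  funext i
  fin_cases i
  · exact h0
  · exact h1
  · exact h2

lemma dot_self_nonneg (u : Fin 3 → ℝ) : 0 ≤ u ⬝ᵥ u := by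
  rw [dot3]; nlinarith [mul_self_nonneg (u 0), mul_self_nonneg (u 1), mul_self_nonneg (u 2)]

lemma dot_self_pos {u : Fin 3 → ℝ} (h : u ≠ 0) : 0 < u ⬝ᵥ u := by
  rcases (dot_self_nonneg u).lt_or_eq with h1 | h1
  · exact h1
  · exfalso
    apply h
    rw [dot3] at h1
    have h0 : u 0 = 0 := by nlinarith [sq_nonneg (u 0), sq_nonneg (u 1), sq_nonneg (u 2)]
    have h1' : u 1 = 0 := by nlinarith [sq_nonneg (u 0), sq_nonneg (u 1), sq_nonneg (u 2)]
    have h2 : u 2 = 0 := by nlinarith [sq_nonneg (u 0), sq_nonneg (u 1), sq_nonneg (u 2)]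
    exact ext3 h0 h1' h2

/-- the cross product -/
def cr (u v : Fin 3 → ℝ) : Fin 3 → ℝ :=
  ![u 1 * v 2 - u 2 * v 1, u 2 * v 0 - u 0 * v 2, u 0 * v 1 - u 1 * v 0]

lemma par_of_cr {u v : Fin 3 → ℝ} (hv : v ≠ 0) (h : cr u v = 0) :
    u = ((u ⬝ᵥ v) / (v ⬝ᵥ v)) • v := by
  have hp := dot_self_pos hv
  have h0 := congrFun h 0
  have h1 := congrFun h 1
  have h2 := congrFun h 2
  simp [cr] at h0 h1 h2
  rw [dot3] at hp
  apply ext3
  · simp only [Pi.smul_apply, smul_eq_mul, dot3]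
    rw [div_mul_eq_mul_div, eq_div_iff hp.ne']
    linear_combination v 1 * h2 - v 2 * h1
  · simp only [Pi.smul_apply, smul_eq_mul, dot3]
    rw [div_mul_eq_mul_div, eq_div_iff hp.ne']
    linear_combination v 2 * h0 - v 0 * h2
  · simp only [Pi.smul_apply, smul_eq_mul, dot3]
    rw [div_mul_eq_mul_div, eq_div_iff hp.ne']
    linear_combination v 0 * h1 - v 1 * h0

lemma cr_cr_zero {n u v : Fin 3 → ℝ} (hu : n ⬝ᵥ u = 0) (hv : n ⬝ᵥ v = 0) :
    cr n (cr u v) = 0 := by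
  rw [dot3] at hu hv
  apply ext3
  · simp [cr]; linear_combination u 0 * hv - v 0 * hu
  · simp [cr]; linear_combination u 1 * hv - v 1 * hu
  · simp [cr]; linear_combination u 2 * hv - v 2 * hu

/-- Two vectors orthogonal to two independent vectors are parallel. -/
lemma par_of_orth {n l u v w : Fin 3 → ℝ} (hnu : n ⬝ᵥ u = 0) (hnv : n ⬝ᵥ v = 0)
    (hlu : l ⬝ᵥ u = 0) (hlv : l ⬝ᵥ v = 0) (hn : n ≠ 0) (hnw : n ⬝ᵥ w = 0) (hlw : l ⬝ᵥ w ≠ 0)
    (hv : v ≠ 0) : ∃ r : ℝ, u = r • v := by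
  by_cases hc : cr u v = 0
  · exact ⟨_, par_of_cr hv hc⟩
  · exfalso
    have h1 := par_of_cr hc (cr_cr_zero hnu hnv)
    have h2 := par_of_cr hc (cr_cr_zero hlu hlv)
    set t := cr u v
    set α := (n ⬝ᵥ t) / (t ⬝ᵥ t)
    set β := (l ⬝ᵥ t) / (t ⬝ᵥ t)
    have hα : α ≠ 0 := by
      intro h0
      rw [h0, zero_smul] at h1
      exact hn h1
    rw [h1, smul_dotProduct, smul_eq_mul] at hnw
    rw [h2, smul_dotProduct, smul_eq_mul] at hlw
    rcases mul_eq_zero.1 hnw with h | h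
    · exact hα h
    · exact hlw (by rw [h, mul_zero])

lemma exists_perp {n u : Fin 3 → ℝ} (hn : n ≠ 0) (hu : u ≠ 0) (h : n ⬝ᵥ u = 0) :
    ∃ m : Fin 3 → ℝ, m ≠ 0 ∧ m ⬝ᵥ u = 0 ∧ m ⬝ᵥ n = 0 := by
  refine ⟨cr n u, ?_, ?_, ?_⟩
  · intro h0
    have h1 := par_of_cr hu h0
    rw [h, zero_div, zero_smul] at h1
    exact hn h1
  · rw [dot3]; simp only [cr, cons_val_zero, cons_val_one, cons_val]; ring
  · rw [dot3]; simp only [cr, cons_val_zero, cons_val_one, cons_val]; ring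

lemma exists_perp_one {u : Fin 3 → ℝ} (hu : u ≠ 0) : ∃ m : Fin 3 → ℝ, m ≠ 0 ∧ m ⬝ᵥ u = 0 := by
  by_cases h0 : u 0 = 0
  · refine ⟨![1, 0, 0], ?_, ?_⟩
    · intro h
      have := congrFun h 0
      simp at this
    · rw [dot3]; simp only [cons_val_zero, cons_val_one, cons_val, h0]; ring
  · refine ⟨![-u 1, u 0, 0], ?_, ?_⟩
    · intro h
      have := congrFun h 1
      simp at this
      exact h0 this
    · rw [dot3]; simp only [cons_val_zero, cons_val_one, cons_val]; ring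

/-! ### Vertices, edges and facets -/

variable {X : Finset (Fin 3 → ℝ)}

lemma IsEdge.symm {x y : Fin 3 → ℝ} (h : IsEdge X x y) : IsEdge X y x := by
  obtain ⟨hx, hy, hxy, n, c, h1, h2, h3⟩ := h
  exact ⟨hy, hx, hxy.symm, n, c, h2, h1, fun z hz hzy hzx => h3 z hz hzx hzy⟩

/-- Two vertices on one ray from a vertex coincide. -/
lemma ray_unique (h : IsMidscribed X) {x y z : Fin 3 → ℝ} (hx : x ∈ X) (hy : y ∈ X) (hz : z ∈ X)
    (hyx : y ≠ x) (hzx : z ≠ x) {r : ℝ} (hr : 0 < r) (hyz : y - x = r • (z - x)) : y = z := by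
  by_contra hne
  have key : ∀ y z : Fin 3 → ℝ, y ∈ X → z ∈ X → y ≠ x → y ≠ z → ∀ r : ℝ, 0 < r → r < 1 →
      y - x = r • (z - x) → False := by
    intro y z hy hz hyx hyz r hr hr1 he
    obtain ⟨n, c, h1, h2⟩ := h.vertex y hy
    have h3 := h2 x hx hyx.symm
    have h4 := h2 z hz hyz.symm
    have h5 := congrArg (fun v => n ⬝ᵥ v) he
    simp only [dotProduct_sub, dotProduct_smul, smul_eq_mul] at h5
    rw [h1] at h5
    nlinarith
  rcases lt_trichotomy r 1 with h1 | h1 | h1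
  · exact key y z hy hz hyx hne r hr h1 hyz
  · rw [h1, one_smul] at hyz
    exact hne (sub_left_injective hyz)
  · refine key z y hz hy hzx (Ne.symm hne) r⁻¹ (inv_pos.2 hr) (inv_lt_one_of_one_lt₀ h1) ?_
    rw [hyz, smul_smul, inv_mul_cancel₀ hr.ne', one_smul]

lemma exists_third (h : IsMidscribed X) {x y : Fin 3 → ℝ} (hxy : x ≠ y) :
    ∃ z ∈ X, z ≠ x ∧ z ≠ y := by
  obtain ⟨m, hm, hm'⟩ := exists_perp_one (sub_ne_zero.2 hxy.symm : y - x ≠ 0)
  obtain ⟨z, hz, hz'⟩ := h.solid m (m ⬝ᵥ x) hm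
  rw [dotProduct_sub] at hm'
  refine ⟨z, hz, ?_, ?_⟩
  · rintro rfl; exact hz' rfl
  · rintro rfl; exact hz' (by linarith)

/-- Every vertex has an edge. -/
lemma exists_edge (h : IsMidscribed X) {x : Fin 3 → ℝ} (hx : x ∈ X) : ∃ y, IsEdge X x y := by
  obtain ⟨ν, μ, hν, hν'⟩ := h.vertex x hx
  have hne : (X.erase x).Nonempty := by
    obtain ⟨u, hu⟩ : ∃ u : Fin 3 → ℝ, x ≠ u := ⟨x + ![1, 0, 0], by
      intro h0
      have := congrFun h0 0
      simp at this⟩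
    obtain ⟨z, hz, hzx, -⟩ := exists_third h hu
    exact ⟨z, Finset.mem_erase.2 ⟨hzx, hz⟩⟩
  obtain ⟨b, hb⟩ : ∃ b : (Fin 3 → ℝ) → ℝ, ∀ v, b v = μ - ν ⬝ᵥ v := ⟨_, fun _ => rfl⟩
  obtain ⟨π, hπ⟩ : ∃ π : (Fin 3 → ℝ) → (Fin 3 → ℝ), ∀ v, π v = (b v)⁻¹ • (v - x) :=
    ⟨_, fun _ => rfl⟩
  have hbpos : ∀ v ∈ X, v ≠ x → 0 < b v := fun v hv hvx => by
    have := hν' v hv hvx
    rw [hb]; linarith
  obtain ⟨y, hy, hmax⟩ := (X.erase x).exists_max_image (fun v => π v ⬝ᵥ π v) hne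
  obtain ⟨hyx, hyX⟩ := Finset.mem_erase.1 hy
  have hby := hbpos y hyX hyx
  obtain ⟨P, hP⟩ : ∃ P, P = π y := ⟨_, rfl⟩
  have hyP : y - x = b y • P := by
    rw [hP, hπ, smul_smul, mul_inv_cancel₀ hby.ne', one_smul]
  refine ⟨y, hx, hyX, hyx.symm, P + (P ⬝ᵥ P) • ν, P ⬝ᵥ x + (P ⬝ᵥ P) * μ, ?_, ?_, ?_⟩
  · rw [add_dotProduct, smul_dotProduct, smul_eq_mul, hν]
  · have h1 := congrArg (fun v => P ⬝ᵥ v) hyP
    simp only [dotProduct_sub, dotProduct_smul, smul_eq_mul] at h1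
    rw [add_dotProduct, smul_dotProduct, smul_eq_mul]
    rw [hb] at h1
    linarith
  · intro z hz hzx hzy
    have hbz := hbpos z hz hzx
    have h2 := hmax z (Finset.mem_erase.2 ⟨hzx, hz⟩)
    obtain ⟨Q, hQ⟩ : ∃ Q, Q = π z := ⟨_, rfl⟩
    have hzQ : z - x = b z • Q := by
      rw [hQ, hπ, smul_smul, mul_inv_cancel₀ hbz.ne', one_smul]
    have hPQ : Q ≠ P := by
      intro h3
      apply hzy
      refine ray_unique h hx hz hyX hzx hyx (div_pos hbz hby) ?_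
      rw [hzQ, hyP, h3, smul_smul]
      congr 1; field_simp
    have h4 := dot_self_pos (sub_ne_zero.2 hPQ)
    rw [sub_dotProduct, dotProduct_sub, dotProduct_sub, dotProduct_comm P Q] at h4
    have h5 : Q ⬝ᵥ P < P ⬝ᵥ P := by rw [← hP, ← hQ] at h2; linarith
    have h1 := congrArg (fun v => P ⬝ᵥ v) hzQ
    simp only [dotProduct_sub, dotProduct_smul, smul_eq_mul] at h1
    rw [add_dotProduct, smul_dotProduct, smul_eq_mul]
    rw [dotProduct_comm P Q] at h1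
    have h6 : b z * (Q ⬝ᵥ P) < b z * (P ⬝ᵥ P) := mul_lt_mul_of_pos_left h5 hbz
    have h7 : b z = μ - ν ⬝ᵥ z := hb z
    rw [h7] at h6 h1
    linarith

/-- Supporting plane of maximal slope around an edge. -/
lemma exists_facet_max (h : IsMidscribed X) {x y n₀ m : Fin 3 → ℝ} {c₀ : ℝ} (hx : x ∈ X)
    (hy : y ∈ X) (hxy : x ≠ y) (h0x : n₀ ⬝ᵥ x = c₀) (h0y : n₀ ⬝ᵥ y = c₀)
    (h0 : ∀ z ∈ X, z ≠ x → z ≠ y → n₀ ⬝ᵥ z < c₀) (hm : m ≠ 0) (hm1 : m ⬝ᵥ (y - x) = 0)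
    (hm2 : m ⬝ᵥ n₀ = 0) :
    ∃ σ : ℝ, IsFacet X (m + σ • n₀) (m ⬝ᵥ x + σ * c₀) ∧
      (m + σ • n₀) ⬝ᵥ x = m ⬝ᵥ x + σ * c₀ ∧ (m + σ • n₀) ⬝ᵥ y = m ⬝ᵥ x + σ * c₀ := by
  have hmy : m ⬝ᵥ y = m ⬝ᵥ x := by rw [dotProduct_sub] at hm1; linarith
  have hne : ((X.erase x).erase y).Nonempty := by
    obtain ⟨z, hz, hzx, hzy⟩ := exists_third h hxy
    exact ⟨z, Finset.mem_erase.2 ⟨hzy, Finset.mem_erase.2 ⟨hzx, hz⟩⟩⟩
  obtain ⟨w, hw, hmax⟩ := ((X.erase x).erase y).exists_max_image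
    (fun z => (m ⬝ᵥ z - m ⬝ᵥ x) / (c₀ - n₀ ⬝ᵥ z)) hne
  simp only [Finset.mem_erase] at hw hmax
  obtain ⟨hwy, hwx, hwX⟩ := hw
  set σ := (m ⬝ᵥ w - m ⬝ᵥ x) / (c₀ - n₀ ⬝ᵥ w) with hσ
  have hwpos : 0 < c₀ - n₀ ⬝ᵥ w := by have := h0 w hwX hwx hwy; linarith
  have hwσ : m ⬝ᵥ w - m ⬝ᵥ x = σ * (c₀ - n₀ ⬝ᵥ w) := by rw [hσ]; field_simp
  have ex : (m + σ • n₀) ⬝ᵥ x = m ⬝ᵥ x + σ * c₀ := by
    rw [add_dotProduct, smul_dotProduct, smul_eq_mul, h0x]
  have ey : (m + σ • n₀) ⬝ᵥ y = m ⬝ᵥ x + σ * c₀ := by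
    rw [add_dotProduct, smul_dotProduct, smul_eq_mul, h0y, hmy]
  have ew : (m + σ • n₀) ⬝ᵥ w = m ⬝ᵥ x + σ * c₀ := by
    rw [add_dotProduct, smul_dotProduct, smul_eq_mul]; linarith
  refine ⟨σ, ⟨?_, ?_, x, hx, y, hy, w, hwX, ex, ey, ew, ?_⟩, ex, ey⟩
  · intro hzero
    have h1 := congrArg (fun v => m ⬝ᵥ v) hzero
    simp only [dotProduct_add, dotProduct_smul, smul_eq_mul, hm2, dotProduct_zero, mul_zero,
      add_zero] at h1
    exact (dot_self_pos hm).ne' h1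
  · intro z hz
    by_cases hzx : z = x
    · rw [hzx, ex]
    by_cases hzy : z = y
    · rw [hzy, ey]
    have h1 := hmax z ⟨hzy, hzx, hz⟩
    have hzpos : 0 < c₀ - n₀ ⬝ᵥ z := by have := h0 z hz hzx hzy; linarith
    rw [div_le_iff₀ hzpos] at h1
    rw [add_dotProduct, smul_dotProduct, smul_eq_mul]
    linarith
  · rw [LinearIndependent.pair_iff]
    intro s t hst
    have h1 := congrArg (fun v => n₀ ⬝ᵥ v) hst
    simp only [dotProduct_add, dotProduct_smul, dotProduct_sub, smul_eq_mul, dotProduct_zero] at h1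
    rw [h0x, h0y, sub_self, mul_zero, zero_add] at h1
    have ht : t = 0 := by
      rcases mul_eq_zero.1 h1 with h2 | h2
      · exact h2
      · linarith
    rw [ht, zero_smul, add_zero] at hst
    rcases smul_eq_zero.1 hst with h2 | h2
    · exact ⟨h2, ht⟩
    · exact absurd (sub_eq_zero.1 h2).symm hxy

/-- Proportionality of normal vectors. -/
def Par (u v : V4) : Prop := ∃ k : ℝ, k ≠ 0 ∧ u = k • v

lemma Par.symm {u v : V4} (h : Par u v) : Par v u := by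
  obtain ⟨k, hk, rfl⟩ := h
  exact ⟨k⁻¹, inv_ne_zero hk, by rw [smul_smul, inv_mul_cancel₀ hk, one_smul]⟩

lemma Par.trans {u v w : V4} (h : Par u v) (h' : Par v w) : Par u w := by
  obtain ⟨k, hk, rfl⟩ := h
  obtain ⟨k', hk', rfl⟩ := h'
  exact ⟨k * k', mul_ne_zero hk hk', by rw [smul_smul]⟩

/-- An edge lies in two different faces. -/
lemma exists_two_facets (h : IsMidscribed X) {x y : Fin 3 → ℝ} (he : IsEdge X x y) :
    ∃ n c n' c', IsFacet X n c ∧ IsFacet X n' c' ∧ n ⬝ᵥ x = c ∧ n ⬝ᵥ y = c ∧ n' ⬝ᵥ x = c' ∧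
      n' ⬝ᵥ y = c' ∧ ¬ Par (planeVec n c) (planeVec n' c') := by
  obtain ⟨hx, hy, hxy, n₀, c₀, h0x, h0y, h0⟩ := he
  have hn0 : n₀ ≠ 0 := by
    rintro rfl
    obtain ⟨z, hz, hzx, hzy⟩ := exists_third h hxy
    have := h0 z hz hzx hzy
    simp only [zero_dotProduct] at this h0x
    linarith
  obtain ⟨m, hm, hm1, hm2⟩ := exists_perp hn0 (sub_ne_zero.2 hxy.symm : y - x ≠ 0)
    (by rw [dotProduct_sub, h0x, h0y, sub_self])
  obtain ⟨σ, hf, hfx, hfy⟩ := exists_facet_max h hx hy hxy h0x h0y h0 hm hm1 hm2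
  obtain ⟨σ', hf', hfx', hfy'⟩ := exists_facet_max h hx hy hxy h0x h0y h0 (neg_ne_zero.2 hm)
    (by rw [neg_dotProduct, hm1, neg_zero]) (by rw [neg_dotProduct, hm2, neg_zero])
  refine ⟨_, _, _, _, hf, hf', hfx, hfy, hfx', hfy', ?_⟩
  rintro ⟨k, hk, hkk⟩
  have hvec : m + σ • n₀ = k • (-m + σ' • n₀) := by
    apply ext3
    · simpa [planeVec] using congrFun hkk 0
    · simpa [planeVec] using congrFun hkk 1
    · simpa [planeVec] using congrFun hkk 2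
  have hmm := dot_self_pos hm
  have h1 := congrArg (fun v => m ⬝ᵥ v) hvec
  simp only [dotProduct_add, dotProduct_smul, dotProduct_neg, smul_eq_mul, hm2, mul_zero,
    add_zero] at h1
  have hk1 : k = -1 := by
    have : (1 + k) * (m ⬝ᵥ m) = 0 := by linarith
    rcases mul_eq_zero.1 this with h2 | h2
    · linarith
    · exact absurd h2 hmm.ne'
  have h2 := congrArg (fun v => n₀ ⬝ᵥ v) hvec
  simp only [dotProduct_add, dotProduct_smul, dotProduct_neg, smul_eq_mul, dotProduct_comm n₀ m,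
    hm2, hk1] at h2
  have hn0' := dot_self_pos hn0
  have h3 : σ + σ' = 0 := by
    have : (σ + σ') * (n₀ ⬝ᵥ n₀) = 0 := by linarith
    rcases mul_eq_zero.1 this with h2 | h2
    · exact h2
    · exact absurd h2 hn0'.ne'
  -- all points are coplanar
  obtain ⟨z, hz, hz'⟩ := h.solid (m + σ • n₀) (m ⬝ᵥ x + σ * c₀) hf.1
  have h4 := hf.2.1 z hz
  have h5 := hf'.2.1 z hz
  rw [add_dotProduct, smul_dotProduct, smul_eq_mul] at h4 h5 hz'
  rw [neg_dotProduct, neg_dotProduct] at h5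
  have h6 : σ' = -σ := by linarith
  rw [h6] at h5
  exact hz' (by linarith)

lemma exists_facet_ne (h : IsMidscribed X) {x y : Fin 3 → ℝ} (he : IsEdge X x y) (v : V4) :
    ∃ n c, IsFacet X n c ∧ n ⬝ᵥ x = c ∧ n ⬝ᵥ y = c ∧ ¬ Par (planeVec n c) v := by
  obtain ⟨n, c, n', c', h1, h2, h3, h4, h5, h6, h7⟩ := exists_two_facets h he
  by_cases hp : Par (planeVec n c) v
  · refine ⟨n', c', h2, h5, h6, fun hp' => h7 (hp.trans hp'.symm)⟩
  · exact ⟨n, c, h1, h3, h4, hp⟩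

/-- At a vertex of a face there is another edge of the face. -/
lemma exists_edge_in_facet (h : IsMidscribed X) {x y n : Fin 3 → ℝ} {c : ℝ}
    (he : IsEdge X x y) (hf : IsFacet X n c) (hnx : n ⬝ᵥ x = c) (hny : n ⬝ᵥ y = c) :
    ∃ z, z ≠ y ∧ z ≠ x ∧ IsEdge X x z ∧ n ⬝ᵥ z = c := by
  obtain ⟨hx, hy, hxy, n₀, c₀, h0x, h0y, h0⟩ := he
  obtain ⟨hn, hle, p, hp, q, hq, r, hr, hnp, hnq, hnr, hind⟩ := hf
  obtain ⟨ν, μ, hν, hν'⟩ := h.vertex x hx
  -- a third vertex in the face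
  obtain ⟨u, hu, hnu, hux, huy⟩ : ∃ u ∈ X, n ⬝ᵥ u = c ∧ u ≠ x ∧ u ≠ y := by
    by_contra hcon
    push Not at hcon
    have hpq : p ≠ q := by
      rintro rfl
      have := hind.ne_zero 0
      simp at this
    have hpr : p ≠ r := by
      rintro rfl
      have := hind.ne_zero 1
      simp at this
    have hqr : q ≠ r := by
      rintro rfl
      rw [LinearIndependent.pair_iff] at hind
      have := (hind 1 (-1) (by simp)).1
      norm_num at this
    have cp := hcon p hp hnp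
    have cq := hcon q hq hnq
    have cr := hcon r hr hnr
    by_cases h1 : p = x
    · have h2 : q = y := cq (fun h => hpq (h1.trans h.symm))
      have h3 : r = y := cr (fun h => hpr (h1.trans h.symm))
      exact hqr (h2.trans h3.symm)
    · have h2 : p = y := cp h1
      by_cases h3 : q = x
      · have h4 : r = y := cr (fun h => hqr (h3.trans h.symm))
        exact hpr (h2.trans h4.symm)
      · exact hpq (h2.trans (cq h3).symm)
  obtain ⟨a, ha⟩ : ∃ a : (Fin 3 → ℝ) → ℝ, ∀ v, a v = c₀ - n₀ ⬝ᵥ v := ⟨_, fun _ => rfl⟩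
  obtain ⟨b, hb⟩ : ∃ b : (Fin 3 → ℝ) → ℝ, ∀ v, b v = μ - ν ⬝ᵥ v := ⟨_, fun _ => rfl⟩
  have hbpos : ∀ v ∈ X, v ≠ x → 0 < b v := fun v hv hvx => by
    have := hν' v hv hvx
    rw [hb]; linarith
  have hapos : ∀ v ∈ X, v ≠ x → v ≠ y → 0 < a v := fun v hv hvx hvy => by
    have := h0 v hv hvx hvy
    rw [ha]; linarith
  set F := (X.filter fun v => n ⬝ᵥ v = c).erase x with hF
  have hmemF : ∀ v, v ∈ F ↔ v ≠ x ∧ v ∈ X ∧ n ⬝ᵥ v = c := fun v => by
    rw [hF, Finset.mem_erase, Finset.mem_filter]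
  obtain ⟨z, hz, hmax⟩ := F.exists_max_image (fun v => a v / b v) ⟨u, (hmemF u).2 ⟨hux, hu, hnu⟩⟩
  obtain ⟨hzx, hzX, hnz⟩ := (hmemF z).1 hz
  have hbz := hbpos z hzX hzx
  obtain ⟨σ, hσ⟩ : ∃ σ, σ = a z / b z := ⟨_, rfl⟩
  have hσpos : 0 < σ := by
    rw [hσ]
    have h1 := hmax u ((hmemF u).2 ⟨hux, hu, hnu⟩)
    have h2 : 0 < a u / b u := div_pos (hapos u hu hux huy) (hbpos u hu hux)
    exact h2.trans_le h1
  have haz : a z = σ * b z := by rw [hσ]; field_simp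
  have hzy : z ≠ y := by
    rintro rfl
    have : a z = 0 := by rw [ha, h0y]; ring
    rw [this] at haz
    exact (mul_pos hσpos hbz).ne haz
  -- the slope function
  have hψ : ∀ v ∈ X, n ⬝ᵥ v = c → v ≠ x → a v - σ * b v ≤ 0 := by
    intro v hv hnv hvx
    have h1 := hmax v ((hmemF v).2 ⟨hvx, hv, hnv⟩)
    rw [← hσ, div_le_iff₀ (hbpos v hv hvx)] at h1
    linarith
  have hψ' : ∀ v ∈ X, n ⬝ᵥ v = c → v ≠ x → v ≠ z → a v - σ * b v < 0 := by
    intro v hv hnv hvx hvz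
    refine lt_of_le_of_ne (hψ v hv hnv hvx) fun h1 => ?_
    have hzx' : z - x ≠ 0 := sub_ne_zero.2 hzx
    obtain ⟨s, hs⟩ := par_of_orth (n := n) (l := σ • ν - n₀) (u := v - x) (v := z - x)
      (w := y - x) (by rw [dotProduct_sub, hnv, hnx, sub_self])
      (by rw [dotProduct_sub, hnz, hnx, sub_self])
      (by
        rw [sub_dotProduct, smul_dotProduct, dotProduct_sub, dotProduct_sub, smul_eq_mul, hν, h0x]
        simp only [ha, hb] at h1
        linarith)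
      (by
        rw [sub_dotProduct, smul_dotProduct, dotProduct_sub, dotProduct_sub, smul_eq_mul, hν, h0x]
        simp only [ha, hb] at haz
        linarith) hn (by rw [dotProduct_sub, hny, hnx, sub_self])
      (by
        rw [sub_dotProduct, smul_dotProduct, dotProduct_sub, dotProduct_sub, smul_eq_mul, hν, h0x,
          h0y]
        have h2 := mul_pos hσpos (hbpos y hy hxy.symm)
        rw [hb] at h2
        intro h3
        linarith) hzx'
    have hbv := hbpos v hv hvx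
    have h3 : b v = s * b z := by
      have h4 := congrArg (fun t => ν ⬝ᵥ t) hs
      simp only [dotProduct_sub, dotProduct_smul, smul_eq_mul, hν] at h4
      simp only [hb]; linarith
    have hspos : 0 < s := by
      rw [h3] at hbv
      exact pos_of_mul_pos_left hbv hbz.le
    exact hvz (ray_unique h hx hv hzX hvx hzx hspos hs)
  -- a large multiple of the face functional
  obtain ⟨K, hK⟩ : ∃ K : ℝ, ∀ v ∈ X, n ⬝ᵥ v < c → K * (n ⬝ᵥ v - c) + (a v - σ * b v) < 0 := by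
    obtain ⟨K, hK⟩ := (X.image fun v => (a v - σ * b v) / (c - n ⬝ᵥ v)).exists_le
    refine ⟨K + 1, fun v hv hlt => ?_⟩
    have h1 := hK _ (Finset.mem_image_of_mem _ hv)
    rw [div_le_iff₀ (by linarith)] at h1
    nlinarith
  refine ⟨z, hzy, hzx, ⟨hx, hzX, hzx.symm, K • n + (σ • ν - n₀), K * c - (c₀ - σ * μ), ?_, ?_, ?_⟩,
    hnz⟩
  · rw [add_dotProduct, sub_dotProduct, smul_dotProduct, smul_dotProduct, smul_eq_mul,
      smul_eq_mul, hnx, hν, h0x]; ring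
  · rw [add_dotProduct, sub_dotProduct, smul_dotProduct, smul_dotProduct, smul_eq_mul,
      smul_eq_mul, hnz]
    simp only [ha, hb] at haz
    linarith
  · intro v hv hvx hvz
    rw [add_dotProduct, sub_dotProduct, smul_dotProduct, smul_dotProduct, smul_eq_mul,
      smul_eq_mul]
    rcases (hle v hv).lt_or_eq with h1 | h1
    · have h2 := hK v hv h1
      simp only [ha, hb] at h2
      linarith
    · have h2 := hψ' v hv h1 hvx hvz
      simp only [ha, hb] at h2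
      rw [h1]
      linarith

end Pool.Agent.Helper613.KN
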