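import Pool.Agent.Helper613.KNRat

set_option autoImplicit false

namespace Pool.Agent.Helper613.KN

open Matrix

variable {d : ℕ}

/-- The reflection in a non-isotropic vector, as a linear map. -/
noncomputable def reflLin (v : V4) : V4 →ₗ[ℝ] V4 where
  toFun u := u - (2 * mink u v / mink v v) • v
  map_add' x y := by
    rw [mink_add_left, mul_add, add_div, add_smul]; abel
  map_smul' a x := by
    rw [mink_smul_left, RingHom.id_apply, smul_sub, smul_smul]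
    congr 2; ring

lemma reflLin_invol {v : V4} (hv : mink v v ≠ 0) (u : V4) : reflLin v (reflLin v u) = u := by
  show (u - (2 * mink u v / mink v v) • v) -
    (2 * mink (u - (2 * mink u v / mink v v) • v) v / mink v v) • v = u
  rw [mink_sub_left, mink_smul_left]
  have : 2 * (mink u v - 2 * mink u v / mink v v * mink v v) / mink v v =
      - (2 * mink u v / mink v v) := by field_simp; ring
  rw [this, neg_smul]; abel

lemma exists_reflection {v : V4} (hv : mink v v ≠ 0) :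
    ∃ A : GL (Fin 4) ℝ, IsReflectionIn A v := by
  set R : Matrix (Fin 4) (Fin 4) ℝ := LinearMap.toMatrix' (reflLin v) with hR
  have hRv : ∀ u, R *ᵥ u = reflLin v u := fun u => by
    rw [hR, LinearMap.toMatrix'_mulVec]
  have hRR : R * R = 1 := by
    apply Matrix.mulVec_injective
    funext u
    rw [← mulVec_mulVec, hRv, hRv, reflLin_invol hv, one_mulVec]
  exact ⟨⟨R, R, hRR, hRR⟩, fun u => hRv u⟩

lemma IsReflectionIn.smul {A : GL (Fin 4) ℝ} {v : V4} (h : IsReflectionIn A v) {k : ℝ}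
    (hk : k ≠ 0) : IsReflectionIn A (k • v) := by
  intro u
  rw [h u, mink_smul_right, mink_smul_right, mink_smul_left, smul_smul]
  congr 2
  field_simp

lemma IsReflectionIn.conj {A T : GL (Fin 4) ℝ} {v : V4} (h : IsReflectionIn A v)
    (hT : IsIsom T) : IsReflectionIn (T * A * T⁻¹) (T.1 *ᵥ v) := by
  intro u
  have hTT : T.1 *ᵥ ((T⁻¹).1 *ᵥ u) = u := by
    rw [Matrix.mulVec_mulVec, ← Units.val_mul, mul_inv_cancel, Units.val_one, Matrix.one_mulVec]
  rw [Units.val_mul, Units.val_mul, ← mulVec_mulVec, ← mulVec_mulVec, h, mulVec_sub, mulVec_smul,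
    hTT, hT.1]
  have h1 : mink u (T.1 *ᵥ v) = mink ((T⁻¹).1 *ᵥ u) v := by
    rw [← hT.1 ((T⁻¹).1 *ᵥ u) v, hTT]
  rw [h1]

/-- A unit vector whose reflection lies in the group `G`. -/
def WallIn (G : Subgroup (GL (Fin 4) ℝ)) (v : V4) : Prop :=
  mink v v = 1 ∧ ∃ A ∈ G, IsReflectionIn A v

lemma WallIn.neg {G : Subgroup (GL (Fin 4) ℝ)} {v : V4} (h : WallIn G v) : WallIn G (-v) := by
  obtain ⟨h1, A, hA, h2⟩ := h
  refine ⟨by rw [mink_neg_left, mink_neg_right, neg_neg, h1], A, hA, ?_⟩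
  rw [← neg_one_smul ℝ v]
  exact h2.smul (by norm_num)

variable {G : Subgroup (GL (Fin 4) ℝ)}

/-- Data of a product of two reflections of `G`. -/
lemma wall_prod (hG : ∀ γ ∈ G, ∃ n : ℕ, 0 < n ∧ γ ^ n ∈ bianchi d) {a b : V4} (ha : WallIn G a)
    (hb : WallIn G b) : ∃ (M : Matrix (Fin 4) (Fin 4) ℝ) (n : ℕ), 0 < n ∧
      (∀ u, M *ᵥ u = u + (-2 * mink u a + 4 * mink a b * mink u b) • a +
        (-2 * mink u b) • b) ∧ ∀ v, Lam d v → Lam d ((M ^ n) *ᵥ v) := by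
  obtain ⟨ha1, A, hA, hA'⟩ := ha
  obtain ⟨hb1, B, hB, hB'⟩ := hb
  obtain ⟨n, hn, hn'⟩ := hG (A * B) (G.mul_mem hA hB)
  refine ⟨(A * B).1, n, hn, fun u => ?_, fun v hv => ?_⟩
  · rw [Units.val_mul, ← mulVec_mulVec, hB', hA', ha1, hb1]
    simp only [mink_sub_left, mink_smul_left, mink_comm b a]
    module
  · rw [← Units.val_pow_eq_pow_val]
    exact bianchi_lam hn' hv

/-- The cusp of two tangent walls is rational. -/
lemma cusp_rat (hd : 0 < d) (hG : ∀ γ ∈ G, ∃ n : ℕ, 0 < n ∧ γ ^ n ∈ bianchi d) {a b : V4}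
    (ha : WallIn G a) (hb : WallIn G b) (hab : mink a b = -1) (hne : a + b ≠ 0) :
    ∃ κ : ℝ, κ ≠ 0 ∧ VQ d (κ • (a + b)) := by
  obtain ⟨M, n, hn, hM, hlam⟩ := wall_prod hG ha hb
  exact cusp_rational hd ha.1 hb.1 hab hM hn hlam hne

lemma wall_four (hd : 0 < d) (hG : ∀ γ ∈ G, ∃ n : ℕ, 0 < n ∧ γ ^ n ∈ bianchi d) {a b : V4}
    (ha : WallIn G a) (hb : WallIn G b) {q : ℚ} (hq : mink a b ^ 2 = q) :
    ∃ k : ℤ, 4 * mink a b ^ 2 = k := by
  obtain ⟨M, n, hn, hM, hlam⟩ := wall_prod hG ha hb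
  exact four_sq_int hd ha.1 hb.1 hM hn hlam hq

/-- Integrality for two walls of the same class. -/
lemma wall_int_same (hd : 0 < d) (hG : ∀ γ ∈ G, ∃ n : ℕ, 0 < n ∧ γ ^ n ∈ bianchi d) {a b : V4}
    (ha : WallIn G a) (hb : WallIn G b) {κ : ℝ} (hκa : Cls d κ a) (hκb : Cls d κ b) :
    ∃ m : ℤ, 2 * mink a b = m := by
  obtain ⟨q, hq⟩ := hκa.sq ha.1
  have hrat : ∃ r : ℚ, mink a b = r := by
    obtain ⟨n, hn, rfl⟩ := hκa
    obtain ⟨m, hm, rfl⟩ := hκb
    obtain ⟨s, hs⟩ := hn.mink hm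
    refine ⟨q * s, ?_⟩
    rw [mink_smul_left, mink_smul_right, hs, ← mul_assoc, ← pow_two, hq]
    push_cast; ring
  obtain ⟨r, hr⟩ := hrat
  obtain ⟨k, hk⟩ := wall_four hd hG ha hb (q := r ^ 2) (by rw [hr]; push_cast; ring)
  exact int_of_four_sq hk hr

/-- Integrality for two walls of different classes. -/
lemma wall_int_mixed (hd : Squarefree d) (hG : ∀ γ ∈ G, ∃ n : ℕ, 0 < n ∧ γ ^ n ∈ bianchi d)
    {a b : V4} (ha : WallIn G a) (hb : WallIn G b) {κ : ℝ} (hκa : Cls d κ a)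
    (hκb : Cls d (Real.sqrt d * κ) b) : ∃ m : ℤ, 2 * mink a b = Real.sqrt d * m := by
  have hd0 : 0 < d := Nat.pos_of_ne_zero hd.ne_zero
  have hsd : Real.sqrt d ^ 2 = d := Real.sq_sqrt (Nat.cast_nonneg d)
  obtain ⟨q, hq⟩ := hκa.sq ha.1
  have hrat : ∃ r : ℚ, mink a b = Real.sqrt d * r := by
    obtain ⟨n, hn, rfl⟩ := hκa
    obtain ⟨m, hm, rfl⟩ := hκb
    obtain ⟨s, hs⟩ := hn.mink hm
    refine ⟨q * s, ?_⟩
    rw [mink_smul_left, mink_smul_right, hs]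
    push_cast
    rw [← hq]; ring
  obtain ⟨r, hr⟩ := hrat
  obtain ⟨k, hk⟩ := wall_four hd0 hG ha hb (q := d * r ^ 2) (by
    rw [hr, mul_pow, hsd]; push_cast; ring)
  have h1 : (d : ℚ) * (2 * r) ^ 2 = k := by
    have : ((d : ℝ) * (2 * r) ^ 2) = k := by
      rw [← hk, hr, mul_pow (Real.sqrt d), hsd]; ring
    exact_mod_cast this
  obtain ⟨m, hm⟩ := int_of_squarefree hd h1
  refine ⟨m, ?_⟩
  have h2 : (2 * r : ℝ) = m := by exact_mod_cast hm
  rw [hr, ← h2]; ring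

end Pool.Agent.Helper613.KN
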