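import Pool.Agent.Helper613.KNMink

set_option autoImplicit false

namespace Pool.Agent.Helper613.KN

open Matrix

/-- The good lattices. -/
structure Good (d : ℕ) (Sw Sb : Set V4) (N : AddSubgroup V4) : Prop where
  w : ∀ x ∈ Sw, x ∈ N
  b : ∀ x ∈ Sb, x ∈ N
  even : ∀ x ∈ N, ∃ k : ℤ, mink x x = 2 * k
  dual : ∀ x ∈ N, ∀ b ∈ Sb, ∃ k : ℤ, mink x b = d * k

/-- The integrality hypotheses on the two families of walls. -/
structure IntWalls (d : ℕ) (Sw Sb : Set V4) : Prop where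
  w : ∀ x ∈ Sw, mink x x = 2
  b : ∀ x ∈ Sb, mink x x = 2 * d
  ww : ∀ x ∈ Sw, ∀ y ∈ Sw, ∃ k : ℤ, mink x y = k
  wb : ∀ x ∈ Sw, ∀ y ∈ Sb, ∃ k : ℤ, mink x y = d * k
  bb : ∀ x ∈ Sb, ∀ y ∈ Sb, ∃ k : ℤ, mink x y = d * k

variable {d : ℕ} {Sw Sb : Set V4}

lemma Good.int {N : AddSubgroup V4} (h : Good d Sw Sb N) {x y : V4} (hx : x ∈ N) (hy : y ∈ N) :
    ∃ k : ℤ, mink x y = k := by
  obtain ⟨k1, h1⟩ := h.even x hx
  obtain ⟨k2, h2⟩ := h.even y hy
  obtain ⟨k3, h3⟩ := h.even (x + y) (N.add_mem hx hy)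
  rw [mink_add_left, mink_add_right, mink_add_right, h1, h2, mink_comm y x] at h3
  refine ⟨k3 - k1 - k2, ?_⟩
  push_cast
  linarith

lemma IntWalls.int (h : IntWalls d Sw Sb) {x y : V4} (hx : x ∈ Sw ∪ Sb) (hy : y ∈ Sw ∪ Sb) :
    ∃ k : ℤ, mink x y = k := by
  rcases hx with hx | hx <;> rcases hy with hy | hy
  · exact h.ww x hx y hy
  · obtain ⟨k, hk⟩ := h.wb x hx y hy
    exact ⟨d * k, by rw [hk]; push_cast; ring⟩
  · obtain ⟨k, hk⟩ := h.wb y hy x hx
    exact ⟨d * k, by rw [mink_comm, hk]; push_cast; ring⟩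
  · obtain ⟨k, hk⟩ := h.bb x hx y hy
    exact ⟨d * k, by rw [hk]; push_cast; ring⟩

lemma int_closure {S : Set V4} (hS : ∀ x ∈ S, ∀ y ∈ S, ∃ k : ℤ, mink x y = k) :
    ∀ x ∈ AddSubgroup.closure S, ∀ y ∈ AddSubgroup.closure S, ∃ k : ℤ, mink x y = k := by
  have h1 : ∀ y ∈ S, ∀ x ∈ AddSubgroup.closure S, ∃ k : ℤ, mink x y = k := by
    intro y hy x hx
    induction hx using AddSubgroup.closure_induction with
    | mem x hx => exact hS x hx y hy
    | zero => exact ⟨0, by rw [mink_zero_left]; simp⟩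
    | add x x' _ _ h h' =>
      obtain ⟨k, hk⟩ := h
      obtain ⟨k', hk'⟩ := h'
      exact ⟨k + k', by rw [mink_add_left, hk, hk']; push_cast; ring⟩
    | neg x _ h =>
      obtain ⟨k, hk⟩ := h
      exact ⟨-k, by rw [mink_neg_left, hk]; push_cast; ring⟩
  intro x hx y hy
  induction hy using AddSubgroup.closure_induction with
  | mem y hy => exact h1 y hy x hx
  | zero => exact ⟨0, by rw [mink_zero_right]; simp⟩
  | add y y' _ _ h h' =>
    obtain ⟨k, hk⟩ := h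
    obtain ⟨k', hk'⟩ := h'
    exact ⟨k + k', by rw [mink_add_right, hk, hk']; push_cast; ring⟩
  | neg y _ h =>
    obtain ⟨k, hk⟩ := h
    exact ⟨-k, by rw [mink_neg_right, hk]; push_cast; ring⟩

lemma IntWalls.good (h : IntWalls d Sw Sb) : Good d Sw Sb (AddSubgroup.closure (Sw ∪ Sb)) := by
  have hint := int_closure (S := Sw ∪ Sb) (fun x hx y hy => h.int hx hy)
  refine ⟨fun x hx => AddSubgroup.subset_closure (Or.inl hx),
    fun x hx => AddSubgroup.subset_closure (Or.inr hx), ?_, ?_⟩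
  · intro x hx
    induction hx using AddSubgroup.closure_induction with
    | mem x hx =>
      rcases hx with hx | hx
      · exact ⟨1, by rw [h.w x hx]; simp⟩
      · exact ⟨d, by rw [h.b x hx]; push_cast; ring⟩
    | zero => exact ⟨0, by rw [mink_zero_left]; simp⟩
    | add x y hx hy h1 h2 =>
      obtain ⟨k1, h1⟩ := h1
      obtain ⟨k2, h2⟩ := h2
      obtain ⟨k3, h3⟩ := hint x hx y hy
      refine ⟨k1 + k2 + k3, ?_⟩
      rw [mink_add_left, mink_add_right, mink_add_right, mink_comm y x, h1, h2, h3]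
      push_cast; ring
    | neg x _ h1 =>
      obtain ⟨k1, h1⟩ := h1
      exact ⟨k1, by rw [mink_neg_left, mink_neg_right, h1]; ring⟩
  · intro x hx b hb
    induction hx using AddSubgroup.closure_induction with
    | mem x hx =>
      rcases hx with hx | hx
      · exact h.wb x hx b hb
      · exact h.bb x hx b hb
    | zero => exact ⟨0, by rw [mink_zero_left]; simp⟩
    | add x y hx hy h1 h2 =>
      obtain ⟨k1, h1⟩ := h1
      obtain ⟨k2, h2⟩ := h2
      refine ⟨k1 + k2, ?_⟩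
      rw [mink_add_left, h1, h2]
      push_cast; ring
    | neg x _ h1 =>
      obtain ⟨k1, h1⟩ := h1
      exact ⟨-k1, by rw [mink_neg_left, h1]; push_cast; ring⟩

/-- There is a maximal good lattice. -/
lemma exists_maximal (h : IntWalls d Sw Sb) : ∃ M : AddSubgroup V4, Good d Sw Sb M ∧
    ∀ N : AddSubgroup V4, Good d Sw Sb N → M ≤ N → N = M := by
  obtain ⟨M, -, hM⟩ := zorn_le_nonempty₀ {N : AddSubgroup V4 | Good d Sw Sb N} (by
    intro c hc hchain y hy
    have hne : c.Nonempty := ⟨y, hy⟩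
    have hmem : ∀ {x : V4}, x ∈ sSup c ↔ ∃ s ∈ c, x ∈ s :=
      AddSubgroup.mem_sSup_of_directedOn hne hchain.directedOn
    refine ⟨sSup c, ?_, fun z hz => le_sSup hz⟩
    refine ⟨fun x hx => hmem.2 ⟨y, hy, (hc hy).w x hx⟩, fun x hx => hmem.2 ⟨y, hy, (hc hy).b x hx⟩,
      ?_, ?_⟩
    · intro x hx
      obtain ⟨s, hs, hxs⟩ := hmem.1 hx
      exact (hc hs).even x hxs
    · intro x hx
      obtain ⟨s, hs, hxs⟩ := hmem.1 hx
      exact (hc hs).dual x hxs) _ h.good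
  refine ⟨M, hM.prop, fun N hN hMN => ?_⟩
  exact le_antisymm (hM.2 hN hMN) hMN

/-- Isotropic vectors which pair integrally can be added. -/
lemma mem_of_maximal {M : AddSubgroup V4} (hM : Good d Sw Sb M)
    (hmax : ∀ N : AddSubgroup V4, Good d Sw Sb N → M ≤ N → N = M) {x : V4} (hx : mink x x = 0)
    (h1 : ∀ y ∈ M, ∃ k : ℤ, mink y x = k) (h2 : ∀ b ∈ Sb, ∃ k : ℤ, mink x b = d * k) : x ∈ M := by
  set N : AddSubgroup V4 := M ⊔ AddSubgroup.zmultiples x with hN
  have hmem : ∀ {z : V4}, z ∈ N → ∃ y ∈ M, ∃ n : ℤ, z = y + (n : ℝ) • x := by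
    intro z hz
    rw [hN, AddSubgroup.mem_sup] at hz
    obtain ⟨y, hy, w, hw, rfl⟩ := hz
    obtain ⟨n, rfl⟩ := AddSubgroup.mem_zmultiples_iff.1 hw
    exact ⟨y, hy, n, by rw [Int.cast_smul_eq_zsmul]⟩
  have hgood : Good d Sw Sb N := by
    refine ⟨fun z hz => (le_sup_left : M ≤ N) (hM.w z hz),
      fun z hz => (le_sup_left : M ≤ N) (hM.b z hz), ?_, ?_⟩
    · intro z hz
      obtain ⟨y, hy, n, rfl⟩ := hmem hz
      obtain ⟨k1, h3⟩ := hM.even y hy
      obtain ⟨k2, h4⟩ := h1 y hy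
      refine ⟨k1 + n * k2, ?_⟩
      rw [mink_add_left, mink_add_right, mink_add_right, mink_smul_left, mink_smul_right,
        mink_smul_left, mink_smul_right, hx, mink_comm x y, h3, h4]
      push_cast; ring
    · intro z hz b hb
      obtain ⟨y, hy, n, rfl⟩ := hmem hz
      obtain ⟨k1, h3⟩ := hM.dual y hy b hb
      obtain ⟨k2, h4⟩ := h2 b hb
      refine ⟨k1 + n * k2, ?_⟩
      rw [mink_add_left, mink_smul_left, h3, h4]
      push_cast; ring
  have h := hmax N hgood le_sup_left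
  rw [← h, hN]
  exact (le_sup_right : AddSubgroup.zmultiples x ≤ M ⊔ AddSubgroup.zmultiples x)
    (AddSubgroup.mem_zmultiples x)

lemma cyc (K : AddSubgroup ℤ) : ∃ a : ℤ, 0 ≤ a ∧ ∀ n, n ∈ K ↔ a ∣ n := by
  obtain ⟨a, ha⟩ := Int.subgroup_cyclic K
  refine ⟨|a|, abs_nonneg a, fun n => ?_⟩
  rw [ha, AddSubgroup.mem_closure_singleton, abs_dvd]
  constructor
  · rintro ⟨m, rfl⟩; exact ⟨m, by rw [smul_eq_mul, mul_comm]⟩
  · rintro ⟨m, rfl⟩; exact ⟨m, by rw [smul_eq_mul, mul_comm]⟩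

/-- The primitive vector of a maximal good lattice on an isotropic line. -/
lemma exists_prim {M : AddSubgroup V4} (hM : Good d Sw Sb M) {ε : V4} {a : ℝ} (ha : 0 < a)
    (haM : a • ε ∈ M) {y : V4} (hy : y ∈ M) (hεy : mink ε y ≠ 0) :
    ∃ c : ℝ, 0 < c ∧ c • ε ∈ M ∧ (∀ t : ℝ, t • (c • ε) ∈ M → ∃ n : ℤ, t = n) ∧
      ∃ δ : ℤ, 0 < δ ∧ (∃ f ∈ M, mink (c • ε) f = -δ) ∧
        ∀ x ∈ M, ∃ k : ℤ, mink (c • ε) x = δ * k := by
  wlog hpos : 0 < mink ε y generalizing y with H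
  · exact H (M.neg_mem hy) (by rw [mink_neg_right]; exact neg_ne_zero.2 hεy)
      (by rw [mink_neg_right]; push Not at hpos; exact neg_pos.2 (lt_of_le_of_ne hpos hεy))
  set c0 := mink ε y with hc0
  let K : AddSubgroup ℤ :=
    { carrier := {n | ((n : ℝ) / c0) • ε ∈ M}
      add_mem' := by
        intro m n hm hn
        simp only [Set.mem_setOf_eq] at *
        have := M.add_mem hm hn
        rw [← add_smul] at this
        push_cast
        rwa [add_div]
      zero_mem' := by simp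
      neg_mem' := by
        intro m hm
        simp only [Set.mem_setOf_eq] at *
        have := M.neg_mem hm
        rw [← neg_smul] at this
        push_cast
        rwa [neg_div] }
  have hK : ∀ n : ℤ, n ∈ K ↔ ((n : ℝ) / c0) • ε ∈ M := fun n => Iff.rfl
  obtain ⟨n0, hn0, hgen⟩ := cyc K
  have hn0' : 0 < n0 := by
    refine lt_of_le_of_ne hn0 (Ne.symm ?_)
    rintro rfl
    obtain ⟨k, hk⟩ := hM.int haM hy
    rw [mink_smul_left, ← hc0] at hk
    have h1 : k ∈ K := by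
      rw [hK, ← hk]
      have : a * c0 / c0 = a := by field_simp
      rwa [this]
    rw [hgen] at h1
    rw [zero_dvd_iff] at h1
    rw [h1] at hk
    push_cast at hk
    have := mul_pos ha hpos
    linarith
  have hn0R : (0 : ℝ) < n0 := by exact_mod_cast hn0'
  have hcpos : 0 < (n0 : ℝ) / c0 := div_pos hn0R hpos
  have hcM : ((n0 : ℝ) / c0) • ε ∈ M := (hK n0).1 ((hgen n0).2 dvd_rfl)
  refine ⟨(n0 : ℝ) / c0, hcpos, hcM, ?_, ?_⟩
  · intro t ht
    obtain ⟨k, hk⟩ := hM.int ht hy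
    rw [mink_smul_left, mink_smul_left, ← hc0] at hk
    have hk' : t * n0 = k := by rw [← hk]; field_simp
    have h1 : k ∈ K := by
      rw [hK, ← hk']
      rw [smul_smul] at ht
      have : t * (n0 : ℝ) / c0 = t * (n0 / c0) := by ring
      rwa [this]
    obtain ⟨m, hm⟩ := (hgen k).1 h1
    refine ⟨m, ?_⟩
    rw [hm] at hk'
    push_cast at hk'
    have : (t - m) * n0 = 0 := by linarith
    rcases mul_eq_zero.1 this with h | h
    · linarith
    · exact absurd h hn0R.ne'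
  · let D : AddSubgroup ℤ :=
      { carrier := {n | ∃ x ∈ M, mink (((n0 : ℝ) / c0) • ε) x = n}
        add_mem' := by
          rintro m n ⟨x, hx, h1⟩ ⟨x', hx', h2⟩
          exact ⟨x + x', M.add_mem hx hx', by rw [mink_add_right, h1, h2]; push_cast; ring⟩
        zero_mem' := ⟨0, M.zero_mem, by rw [mink_zero_right]; simp⟩
        neg_mem' := by
          rintro m ⟨x, hx, h1⟩
          exact ⟨-x, M.neg_mem hx, by rw [mink_neg_right, h1]; push_cast; ring⟩ }
    have hD : ∀ n : ℤ, n ∈ D ↔ ∃ x ∈ M, mink (((n0 : ℝ) / c0) • ε) x = n := fun n => Iff.rfl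
    obtain ⟨δ, hδ, hgenD⟩ := cyc D
    have hδ' : 0 < δ := by
      refine lt_of_le_of_ne hδ (Ne.symm ?_)
      rintro rfl
      have h1 : n0 ∈ D := (hD n0).2 ⟨y, hy, by rw [mink_smul_left, ← hc0]; field_simp⟩
      rw [hgenD, zero_dvd_iff] at h1
      omega
    obtain ⟨f, hf, hf'⟩ := (hD δ).1 ((hgenD δ).2 dvd_rfl)
    refine ⟨δ, hδ', ⟨-f, M.neg_mem hf, by rw [mink_neg_right, hf']⟩, ?_⟩
    intro x hx
    obtain ⟨k, hk⟩ := hM.int hcM hx
    obtain ⟨m, hm⟩ := (hgenD k).1 ((hD k).2 ⟨x, hx, hk⟩)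
    exact ⟨m, by rw [hk, hm]; push_cast; ring⟩

end Pool.Agent.Helper613.KN
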