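import Pool.Agent.Helper613.KNGeom

set_option autoImplicit false

namespace Pool.Agent.Helper613.KN

open Matrix

variable {X : Finset (Fin 3 → ℝ)}

/-- the isotropic/spacelike/timelike lift of a point of `ℝ³` -/
def lift (x : Fin 3 → ℝ) : V4 := planeVec x 1

lemma mink_planeVec (n n' : Fin 3 → ℝ) (c c' : ℝ) :
    mink (planeVec n c) (planeVec n' c') = n ⬝ᵥ n' - c * c' := by
  rw [dot3]; simp [mink, planeVec]

lemma mink_lift_lift (x y : Fin 3 → ℝ) : mink (lift x) (lift y) = x ⬝ᵥ y - 1 := by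
  rw [lift, lift, mink_planeVec]; ring

lemma mink_planeVec_lift (n x : Fin 3 → ℝ) (c : ℝ) :
    mink (planeVec n c) (lift x) = n ⬝ᵥ x - c := by
  rw [lift, mink_planeVec]; ring

lemma lift_three (x : Fin 3 → ℝ) : lift x 3 = 1 := rfl

lemma lift_comb {x y : Fin 3 → ℝ} {a b : ℝ} (hab : a + b = 1) :
    lift (a • x + b • y) = a • lift x + b • lift y := by
  apply ext4
  · simp [lift, planeVec]
  · simp [lift, planeVec]
  · simp [lift, planeVec]
  · simp [lift, planeVec, hab]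

open Classical in
/-- the point of tangency of the edge `[x, y]` -/
noncomputable def tp (x y : Fin 3 → ℝ) : Fin 3 → ℝ :=
  if h : ∃ t ∈ openSegment ℝ x y, t ⬝ᵥ t = 1 ∧ t ⬝ᵥ (y - x) = 0 then h.choose else 0

lemma tp_spec (h : IsMidscribed X) {x y : Fin 3 → ℝ} (he : IsEdge X x y) :
    ∃ a b : ℝ, 0 < a ∧ 0 < b ∧ a + b = 1 ∧ tp x y = a • x + b • y ∧ tp x y ⬝ᵥ tp x y = 1 ∧
      tp x y ⬝ᵥ x = 1 ∧ tp x y ⬝ᵥ y = 1 := by
  have hex := h.tangent x y he
  have htp : tp x y = hex.choose := by rw [tp, dif_pos hex]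
  obtain ⟨h1, h2, h3⟩ := hex.choose_spec
  rw [← htp] at h1 h2 h3
  obtain ⟨a, b, ha, hb, hab, htab⟩ := h1
  have h4 : tp x y ⬝ᵥ y = tp x y ⬝ᵥ x := by rw [dotProduct_sub] at h3; linarith
  have h5 : tp x y ⬝ᵥ tp x y = a * (tp x y ⬝ᵥ x) + b * (tp x y ⬝ᵥ y) := by
    calc tp x y ⬝ᵥ tp x y = tp x y ⬝ᵥ (a • x + b • y) := by rw [htab]
      _ = _ := by rw [dotProduct_add, dotProduct_smul, dotProduct_smul, smul_eq_mul, smul_eq_mul]
  rw [h2, h4, ← add_mul, hab, one_mul] at h5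
  exact ⟨a, b, ha, hb, hab, htab.symm, h2, h5.symm, by rw [h4, ← h5]⟩

/-- normalised wall of a vertex -/
noncomputable def bw (x : Fin 3 → ℝ) : V4 := (Real.sqrt (x ⬝ᵥ x - 1))⁻¹ • lift x

/-- normalised wall of a face -/
noncomputable def ww (n : Fin 3 → ℝ) (c : ℝ) : V4 :=
  (Real.sqrt (n ⬝ᵥ n - c ^ 2))⁻¹ • planeVec n c

lemma norm_gt (h : IsMidscribed X) {x y : Fin 3 → ℝ} (he : IsEdge X x y) :
    0 < x ⬝ᵥ x - 1 := by
  obtain ⟨a, b, ha, hb, hab, h1, h2, h3, h4⟩ := tp_spec h he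
  have hne : x - tp x y ≠ 0 := by
    intro h0
    have h5 : b • (x - y) = 0 := by
      have h6 : x - (a • x + b • y) = 0 := by rw [← h1]; exact h0
      have h7 : a = 1 - b := by linarith
      rw [h7] at h6
      rw [← h6]
      module
    rcases smul_eq_zero.1 h5 with h6 | h6
    · exact hb.ne' h6
    · exact he.2.2.1 (sub_eq_zero.1 h6)
  have := dot_self_pos hne
  rw [sub_dotProduct, dotProduct_sub, dotProduct_sub, dotProduct_comm x (tp x y), h2, h3] at this
  linarith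

lemma bw_unit {x : Fin 3 → ℝ} (hx : 0 < x ⬝ᵥ x - 1) : mink (bw x) (bw x) = 1 := by
  rw [bw, mink_smul_left, mink_smul_right, mink_lift_lift]
  have h1 := Real.sqrt_pos.2 hx
  have h2 := Real.mul_self_sqrt hx.le
  field_simp
  rw [pow_two]; linarith

/-- the two vertex walls of an edge are tangent -/
lemma bw_pair (h : IsMidscribed X) {x y : Fin 3 → ℝ} (he : IsEdge X x y) :
    mink (bw x) (bw y) = -1 ∧ ∃ k : ℝ, 0 < k ∧ bw x + bw y = k • lift (tp x y) := by
  obtain ⟨a, b, ha, hb, hab, h1, h2, h3, h4⟩ := tp_spec h he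
  have hA := norm_gt h he
  have hB := norm_gt h he.symm
  set A := x ⬝ᵥ x - 1 with hAdef
  set B := y ⬝ᵥ y - 1 with hBdef
  set Cc := x ⬝ᵥ y - 1 with hCdef
  have e1 : a * A + b * Cc = 0 := by
    rw [h1, add_dotProduct, smul_dotProduct, smul_dotProduct, smul_eq_mul, smul_eq_mul,
      dotProduct_comm y x] at h3
    rw [hAdef, hCdef]; linarith
  have e2 : a * Cc + b * B = 0 := by
    rw [h1, add_dotProduct, smul_dotProduct, smul_dotProduct, smul_eq_mul, smul_eq_mul] at h4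
    rw [hBdef, hCdef]; linarith
  have sA := Real.sqrt_pos.2 hA
  have sB := Real.sqrt_pos.2 hB
  have mA := Real.mul_self_sqrt hA.le
  have mB := Real.mul_self_sqrt hB.le
  have e3 : a * Real.sqrt A = b * Real.sqrt B := by
    have h5 : (a * Real.sqrt A) ^ 2 = (b * Real.sqrt B) ^ 2 := by
      rw [mul_pow, mul_pow, pow_two (Real.sqrt A), pow_two (Real.sqrt B), mA, mB]
      linear_combination a * e1 - b * e2
    rwa [pow_left_inj₀ (by positivity) (by positivity) two_ne_zero] at h5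
  have e4 : Cc = - (Real.sqrt A * Real.sqrt B) := by
    have h5 : b * Cc = b * (- (Real.sqrt A * Real.sqrt B)) := by
      linear_combination e1 + a * mA - Real.sqrt A * e3
    exact mul_left_cancel₀ hb.ne' h5
  refine ⟨?_, (a * Real.sqrt A)⁻¹, by positivity, ?_⟩
  · rw [bw, bw, mink_smul_left, mink_smul_right, mink_lift_lift, ← hAdef, ← hBdef, ← hCdef, e4]
    field_simp
  · rw [h1, lift_comb hab, bw, bw, ← hAdef, ← hBdef, smul_add, smul_smul, smul_smul]
    congr 1
    · congr 1; field_simp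
    · congr 1
      rw [e3]; field_simp

/-- different edges have different points of tangency -/
lemma tangent_ne (h : IsMidscribed X) {x y u v : Fin 3 → ℝ} (he : IsEdge X x y)
    (he' : IsEdge X u v) (hu : u ≠ x ∧ u ≠ y ∨ v ≠ x ∧ v ≠ y) :
    mink (lift (tp x y)) (lift (tp u v)) ≠ 0 := by
  intro h0
  rw [mink_lift_lift] at h0
  obtain ⟨a, b, ha, hb, hab, h1, h2, -, -⟩ := tp_spec h he
  obtain ⟨a', b', ha', hb', hab', h1', h2', -, -⟩ := tp_spec h he'
  have heq : tp x y = tp u v := by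
    by_contra hne
    have := dot_self_pos (sub_ne_zero.2 hne)
    rw [sub_dotProduct, dotProduct_sub, dotProduct_sub, dotProduct_comm (tp u v) (tp x y), h2,
      h2'] at this
    linarith
  obtain ⟨-, -, -, n, c, hnx, hny, hn⟩ := he
  have e1 : n ⬝ᵥ tp x y = c := by
    rw [h1, dotProduct_add, dotProduct_smul, dotProduct_smul, hnx, hny, smul_eq_mul, smul_eq_mul,
      ← add_mul, hab, one_mul]
  have hle : ∀ z ∈ X, n ⬝ᵥ z ≤ c := by
    intro z hz
    by_cases hzx : z = x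
    · rw [hzx, hnx]
    by_cases hzy : z = y
    · rw [hzy, hny]
    exact (hn z hz hzx hzy).le
  have e2 : n ⬝ᵥ tp u v < c := by
    rw [h1', dotProduct_add, dotProduct_smul, dotProduct_smul, smul_eq_mul, smul_eq_mul]
    have h3 := hle u he'.1
    have h4 := hle v he'.2.1
    have h6 : a' * c + b' * c = c := by rw [← add_mul, hab', one_mul]
    rcases hu with hu | hv
    · have h5 := mul_lt_mul_of_pos_left (hn u he'.1 hu.1 hu.2) ha'
      have h7 := mul_le_mul_of_nonneg_left h4 hb'.le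
      linarith
    · have h5 := mul_lt_mul_of_pos_left (hn v he'.2.1 hv.1 hv.2) hb'
      have h7 := mul_le_mul_of_nonneg_left h3 ha'.le
      linarith
  rw [← heq, e1] at e2
  exact lt_irrefl _ e2

lemma tp_on_plane (h : IsMidscribed X) {x y n : Fin 3 → ℝ} {c : ℝ} (he : IsEdge X x y)
    (hx : n ⬝ᵥ x = c) (hy : n ⬝ᵥ y = c) : n ⬝ᵥ tp x y = c := by
  obtain ⟨a, b, ha, hb, hab, h1, h2, -, -⟩ := tp_spec h he
  rw [h1, dotProduct_add, dotProduct_smul, dotProduct_smul, hx, hy, smul_eq_mul, smul_eq_mul,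
    ← add_mul, hab, one_mul]

lemma lift_tp_iso (h : IsMidscribed X) {x y : Fin 3 → ℝ} (he : IsEdge X x y) :
    mink (lift (tp x y)) (lift (tp x y)) = 0 := by
  obtain ⟨a, b, ha, hb, hab, h1, h2, -, -⟩ := tp_spec h he
  rw [mink_lift_lift, h2]; ring

lemma planeVec_ne {n : Fin 3 → ℝ} {c : ℝ} (hn : n ≠ 0) : planeVec n c ≠ 0 := by
  intro h0
  apply hn
  exact ext3 (by simpa [planeVec] using congrFun h0 0) (by simpa [planeVec] using congrFun h0 1)
    (by simpa [planeVec] using congrFun h0 2)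

/-- the plane of a face meets the open unit ball -/
lemma facet_pos (h : IsMidscribed X) {x y n : Fin 3 → ℝ} {c : ℝ} (he : IsEdge X x y)
    (hf : IsFacet X n c) (hx : n ⬝ᵥ x = c) (hy : n ⬝ᵥ y = c) : 0 < n ⬝ᵥ n - c ^ 2 := by
  obtain ⟨z, hzy, hzx, hez, hz⟩ := exists_edge_in_facet h he hf hx hy
  have h1 := tp_on_plane h he hx hy
  have h2 := tp_on_plane h hez hx hz
  have h3 := tangent_ne h he hez (Or.inr ⟨hzx, hzy⟩)
  have i1 := lift_tp_iso h he
  have i2 := lift_tp_iso h hez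
  have h4 : mink (lift (tp x y)) (lift (tp x z)) < 0 :=
    lt_of_le_of_ne (mink_nonpos ⟨i1.le, one_pos⟩ ⟨i2.le, one_pos⟩) h3
  have hw : mink (lift (tp x y) + lift (tp x z)) (lift (tp x y) + lift (tp x z)) < 0 := by
    rw [mink_add_left, mink_add_right, mink_add_right, i1, i2,
      mink_comm (lift (tp x z)) (lift (tp x y))]
    linarith
  have hfw : Fwd (lift (tp x y) + lift (tp x z)) := by
    refine ⟨hw.le, ?_⟩
    rw [Pi.add_apply, lift_three, lift_three]; norm_num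
  have h5 := pos_of_orth (v := planeVec n c) hfw hw (by
    rw [mink_add_right, mink_planeVec_lift, mink_planeVec_lift, h1, h2]; ring) (planeVec_ne hf.1)
  rw [mink_planeVec] at h5
  rw [pow_two]; exact h5

lemma ww_unit {n : Fin 3 → ℝ} {c : ℝ} (h : 0 < n ⬝ᵥ n - c ^ 2) : mink (ww n c) (ww n c) = 1 := by
  rw [ww, mink_smul_left, mink_smul_right, mink_planeVec, ← pow_two c]
  have h1 := Real.sqrt_pos.2 h
  have h2 := Real.sq_sqrt h.le
  field_simp
  linarith

lemma ww_lift {n x : Fin 3 → ℝ} {c : ℝ} (h : n ⬝ᵥ x = c) : mink (ww n c) (lift x) = 0 := by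
  rw [ww, mink_smul_left, mink_planeVec_lift, h]; ring

lemma ww_bw {n x : Fin 3 → ℝ} {c : ℝ} (h : n ⬝ᵥ x = c) : mink (ww n c) (bw x) = 0 := by
  rw [bw, mink_smul_right, ww_lift h, mul_zero]

lemma lift_bw {t x : Fin 3 → ℝ} (h : t ⬝ᵥ x = 1) : mink (lift t) (bw x) = 0 := by
  rw [bw, mink_smul_right, mink_lift_lift, h]; ring

lemma par_ww {n n' : Fin 3 → ℝ} {c c' : ℝ} (h : 0 < n ⬝ᵥ n - c ^ 2) (h' : 0 < n' ⬝ᵥ n' - c' ^ 2)
    (hp : Par (ww n c) (ww n' c')) : Par (planeVec n c) (planeVec n' c') := by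
  have s1 := Real.sqrt_pos.2 h
  have s2 := Real.sqrt_pos.2 h'
  have p1 : Par (planeVec n c) (ww n c) := ⟨Real.sqrt (n ⬝ᵥ n - c ^ 2), s1.ne', by
    rw [ww, smul_smul, mul_inv_cancel₀ s1.ne', one_smul]⟩
  have p2 : Par (ww n' c') (planeVec n' c') := ⟨(Real.sqrt (n' ⬝ᵥ n' - c' ^ 2))⁻¹,
    inv_ne_zero s2.ne', rfl⟩
  exact (p1.trans hp).trans p2

/-- the two faces at an edge, with suitable signs -/
lemma white_pair (h : IsMidscribed X) {x y n n' : Fin 3 → ℝ} {c c' : ℝ} (he : IsEdge X x y)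
    (hf : IsFacet X n c) (hf' : IsFacet X n' c') (hx : n ⬝ᵥ x = c) (hy : n ⬝ᵥ y = c)
    (hx' : n' ⬝ᵥ x = c') (hy' : n' ⬝ᵥ y = c') (hnp : ¬ Par (planeVec n c) (planeVec n' c')) :
    ∃ s s' : ℝ, (s = 1 ∨ s = -1) ∧ (s' = 1 ∨ s' = -1) ∧ ∃ k : ℝ, 0 < k ∧
      s • ww n c + s' • ww n' c' = k • lift (tp x y) := by
  have hp := facet_pos h he hf hx hy
  have hp' := facet_pos h he hf' hx' hy'
  have u1 := ww_unit hp
  have u2 := ww_unit hp'
  have i1 := lift_tp_iso h he
  have hn := norm_gt h he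
  obtain ⟨a, b, ha, hb, hab, h1, h2, h3, h4⟩ := tp_spec h he
  obtain ⟨k, hk⟩ := span_of_orth (e := lift (tp x y)) (m := bw x) (w := ww n c) (z := ww n' c') i1
    (by rw [lift_three]; norm_num) (bw_unit hn) u1 (by rw [mink_comm]; exact ww_bw hx)
    (lift_bw h3) (by rw [mink_comm]; exact ww_lift (tp_on_plane h he hx hy))
    (ww_lift (tp_on_plane h he hx' hy')) (ww_bw hx')
  set β := mink (ww n' c') (ww n c) with hβ
  have hβ2 : β ^ 2 = 1 := by
    have h5 : mink (ww n' c') (ww n' c') = β * β := by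
      conv_lhs => rw [hk]
      rw [mink_add_left, mink_add_right, mink_add_right, mink_smul_left, mink_smul_right,
        mink_smul_left, mink_smul_right, mink_smul_left, mink_smul_right, mink_smul_left,
        mink_smul_right, u1, i1, mink_comm (lift (tp x y)) (ww n c),
        ww_lift (tp_on_plane h he hx hy)]
      ring
    rw [u2] at h5
    rw [pow_two, ← h5]
  have hβ' : β = 1 ∨ β = -1 := by
    have : (β - 1) * (β + 1) = 0 := by ring_nf; linarith
    rcases mul_eq_zero.1 this with h5 | h5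
    · left; linarith
    · right; linarith
  have hk0 : k ≠ 0 := by
    rintro rfl
    rw [zero_smul, add_zero] at hk
    apply hnp
    apply par_ww hp hp'
    refine Par.symm ⟨β, ?_, hk⟩
    rcases hβ' with h5 | h5 <;> rw [h5] <;> norm_num
  -- `ww' = β ww + k ε`
  rcases lt_or_gt_of_ne hk0 with hk1 | hk1
  · -- `β ww - ww' = -k ε`
    refine ⟨β, -1, hβ', Or.inr rfl, -k, by linarith, ?_⟩
    rw [hk]; module
  · refine ⟨-β, 1, ?_, Or.inl rfl, k, hk1, ?_⟩
    · rcases hβ' with h5 | h5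
      · right; rw [h5]
      · left; rw [h5]; ring
    · rw [hk]; module

/-- The two further edges at a vertex in the two faces of an edge are different. -/
lemma third_ne (h : IsMidscribed X) {x y z n n' : Fin 3 → ℝ} {c c' : ℝ} (he : IsEdge X x y)
    (hez : IsEdge X x z) (hzy : z ≠ y) (hzx : z ≠ x)
    (hf : IsFacet X n c) (hf' : IsFacet X n' c') (hx : n ⬝ᵥ x = c) (hy : n ⬝ᵥ y = c)
    (hz : n ⬝ᵥ z = c) (hx' : n' ⬝ᵥ x = c') (hy' : n' ⬝ᵥ y = c') (hz' : n' ⬝ᵥ z = c') :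
    Par (planeVec n c) (planeVec n' c') := by
  have hp := facet_pos h he hf hx hy
  have hp' := facet_pos h he hf' hx' hy'
  have u1 := ww_unit hp
  have u2 := ww_unit hp'
  have i1 := lift_tp_iso h he
  have i2 := lift_tp_iso h hez
  have hn := norm_gt h he
  have h3 := tangent_ne h he hez (Or.inr ⟨hzx, hzy⟩)
  obtain ⟨a, b, ha, hb, hab, -, -, h4, -⟩ := tp_spec h he
  obtain ⟨a', b', ha', hb', hab', -, -, h4', -⟩ := tp_spec h hez
  have hdec := corner_decomp (e := lift (tp x y)) (e' := lift (tp x z)) (u := ww n c) (v := bw x)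
    i1 i2 h3 (by rw [u1]; norm_num) (by rw [bw_unit hn]; norm_num) (ww_bw hx)
    (by rw [mink_comm]; exact ww_lift (tp_on_plane h he hx hy)) (lift_bw h4)
    (by rw [mink_comm]; exact ww_lift (tp_on_plane h hez hx hz)) (lift_bw h4') (ww n' c')
  rw [ww_lift (tp_on_plane h hez hx' hz'), ww_lift (tp_on_plane h he hx' hy'), ww_bw hx'] at hdec
  simp only [zero_div, zero_smul, zero_add, add_zero] at hdec
  apply par_ww hp hp'
  refine Par.symm ⟨_, ?_, hdec⟩
  intro h0
  rw [h0, zero_smul] at hdec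
  rw [hdec, mink_zero_left] at u2
  norm_num at u2

end Pool.Agent.Helper613.KN
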