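import Pool.Agent.Helper613.KNCore
import Pool.Agent.Helper613.KNWalls
import Pool.Agent.Helper613.KNGroup

set_option autoImplicit false

namespace Pool.Agent.Helper613.KN

open Matrix

variable {X : Finset (Fin 3 → ℝ)} {d : ℕ}

lemma mulVec_ne {T : GL (Fin 4) ℝ} {v : V4} (hv : v ≠ 0) : T.1 *ᵥ v ≠ 0 := by
  intro h0
  apply hv
  have h1 := congrArg (fun u => (T⁻¹).1 *ᵥ u) h0
  simp only [mulVec_mulVec, ← Units.val_mul, inv_mul_cancel, Units.val_one, one_mulVec,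
    mulVec_zero] at h1
  exact h1

lemma lift_ne (x : Fin 3 → ℝ) : lift x ≠ 0 := by
  intro h0
  have := congrFun h0 3
  rw [lift_three] at this
  simp at this

/-- Standing assumptions: `G` is the conjugate by `T` of the group of `X`, and powers of its
elements lie in the Bianchi group. -/
structure Setup (X : Finset (Fin 3 → ℝ)) (d : ℕ) (T : GL (Fin 4) ℝ)
    (G : Subgroup (GL (Fin 4) ℝ)) : Prop where
  h : IsMidscribed X
  hd : Squarefree d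
  hT : IsIsom T
  hb : ∀ x ∈ X, ∀ A, IsReflectionIn A (planeVec x 1) → T * A * T⁻¹ ∈ G
  hw : ∀ n c, IsFacet X n c → ∀ A, IsReflectionIn A (planeVec n c) → T * A * T⁻¹ ∈ G
  hG : ∀ γ ∈ G, ∃ n : ℕ, 0 < n ∧ γ ^ n ∈ bianchi d

variable {T : GL (Fin 4) ℝ} {G : Subgroup (GL (Fin 4) ℝ)}

lemma Setup.hd0 (S : Setup X d T G) : 0 < d := Nat.pos_of_ne_zero S.hd.ne_zero

lemma Setup.wall_bw (S : Setup X d T G) {x y : Fin 3 → ℝ} (he : IsEdge X x y) :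
    WallIn G (T.1 *ᵥ bw x) := by
  have hx := norm_gt S.h he
  obtain ⟨A, hA⟩ := exists_reflection (v := planeVec x 1) (by
    rw [mink_planeVec]
    intro h0
    linarith)
  refine ⟨by rw [S.hT.1, bw_unit hx], T * A * T⁻¹, S.hb x he.1 A hA, ?_⟩
  apply IsReflectionIn.conj _ S.hT
  exact hA.smul (inv_ne_zero (Real.sqrt_pos.2 hx).ne')

lemma Setup.wall_ww (S : Setup X d T G) {x y n : Fin 3 → ℝ} {c : ℝ} (he : IsEdge X x y)
    (hf : IsFacet X n c) (hx : n ⬝ᵥ x = c) (hy : n ⬝ᵥ y = c) : WallIn G (T.1 *ᵥ ww n c) := by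
  have hp := facet_pos S.h he hf hx hy
  obtain ⟨A, hA⟩ := exists_reflection (v := planeVec n c) (by
    rw [mink_planeVec, ← pow_two]
    exact hp.ne')
  refine ⟨by rw [S.hT.1, ww_unit hp], T * A * T⁻¹, S.hw n c hf A hA, ?_⟩
  apply IsReflectionIn.conj _ S.hT
  exact hA.smul (inv_ne_zero (Real.sqrt_pos.2 hp).ne')

lemma Setup.cusp (S : Setup X d T G) {x y : Fin 3 → ℝ} (he : IsEdge X x y) :
    ∃ κ : ℝ, κ ≠ 0 ∧ VQ d (κ • (T.1 *ᵥ lift (tp x y))) := by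
  obtain ⟨h1, k, hk, h2⟩ := bw_pair S.h he
  have h3 : T.1 *ᵥ bw x + T.1 *ᵥ bw y = k • (T.1 *ᵥ lift (tp x y)) := by
    rw [← mulVec_add, h2, mulVec_smul]
  have hne : T.1 *ᵥ bw x + T.1 *ᵥ bw y ≠ 0 := by
    rw [h3]
    exact smul_ne_zero hk.ne' (mulVec_ne (lift_ne _))
  obtain ⟨κ, hκ, hq⟩ := cusp_rat S.hd0 S.hG (S.wall_bw he) (S.wall_bw he.symm)
    (by rw [S.hT.1, h1]) hne
  rw [h3, smul_smul] at hq
  exact ⟨κ * k, mul_ne_zero hκ hk.ne', hq⟩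

/-- A wall with three cusps on it. -/
lemma Setup.three (S : Setup X d T G) {a : V4} (ha : mink a a = 1)
    {x1 y1 x2 y2 x3 y3 : Fin 3 → ℝ} (e1 : IsEdge X x1 y1) (e2 : IsEdge X x2 y2)
    (e3 : IsEdge X x3 y3) (h1 : mink a (lift (tp x1 y1)) = 0) (h2 : mink a (lift (tp x2 y2)) = 0)
    (h3 : mink a (lift (tp x3 y3)) = 0)
    (h12 : mink (lift (tp x1 y1)) (lift (tp x2 y2)) ≠ 0)
    (h13 : mink (lift (tp x1 y1)) (lift (tp x3 y3)) ≠ 0)
    (h23 : mink (lift (tp x2 y2)) (lift (tp x3 y3)) ≠ 0) :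
    ∃ κ : ℝ, κ ≠ 0 ∧ Cls d κ (T.1 *ᵥ a) := by
  obtain ⟨k1, n1, q1⟩ := S.cusp e1
  obtain ⟨k2, n2, q2⟩ := S.cusp e2
  obtain ⟨k3, n3, q3⟩ := S.cusp e3
  refine wall_rational S.hd0 (a := T.1 *ᵥ a) (by rw [S.hT.1, ha]) ?_ ?_ ?_ ?_ ?_ ?_ ?_ ?_ ?_
    q1 q2 q3
  · rw [mink_smul_left, mink_smul_right, S.hT.1, lift_tp_iso S.h e1]; ring
  · rw [mink_smul_left, mink_smul_right, S.hT.1, lift_tp_iso S.h e2]; ring
  · rw [mink_smul_left, mink_smul_right, S.hT.1, lift_tp_iso S.h e3]; ring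
  · rw [mink_smul_left, mink_smul_right, S.hT.1]; exact mul_ne_zero n1 (mul_ne_zero n2 h12)
  · rw [mink_smul_left, mink_smul_right, S.hT.1]; exact mul_ne_zero n1 (mul_ne_zero n3 h13)
  · rw [mink_smul_left, mink_smul_right, S.hT.1]; exact mul_ne_zero n2 (mul_ne_zero n3 h23)
  · rw [mink_smul_left, S.hT.1, mink_comm, h1, mul_zero]
  · rw [mink_smul_left, S.hT.1, mink_comm, h2, mul_zero]
  · rw [mink_smul_left, S.hT.1, mink_comm, h3, mul_zero]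

lemma Setup.white_rat (S : Setup X d T G) {x y n : Fin 3 → ℝ} {c : ℝ} (he : IsEdge X x y)
    (hf : IsFacet X n c) (hx : n ⬝ᵥ x = c) (hy : n ⬝ᵥ y = c) :
    ∃ κ : ℝ, κ ≠ 0 ∧ Cls d κ (T.1 *ᵥ ww n c) := by
  obtain ⟨z, hzy, hzx, hez, hz⟩ := exists_edge_in_facet S.h he hf hx hy
  obtain ⟨w, hwx, hwy, hew, hw⟩ := exists_edge_in_facet S.h he.symm hf hy hx
  exact S.three (ww_unit (facet_pos S.h he hf hx hy)) he hez hew
    (ww_lift (tp_on_plane S.h he hx hy)) (ww_lift (tp_on_plane S.h hez hx hz))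
    (ww_lift (tp_on_plane S.h hew hy hw)) (tangent_ne S.h he hez (Or.inr ⟨hzx, hzy⟩))
    (tangent_ne S.h he hew (Or.inr ⟨hwx, hwy⟩))
    (tangent_ne S.h hez hew (Or.inl ⟨he.2.2.1.symm, hzy.symm⟩))

lemma lift_bw' (h : IsMidscribed X) {x y : Fin 3 → ℝ} (he : IsEdge X x y) :
    mink (bw x) (lift (tp x y)) = 0 ∧ mink (bw y) (lift (tp x y)) = 0 := by
  obtain ⟨a, b, ha, hb, hab, h1, h2, h3, h4⟩ := tp_spec h he
  exact ⟨by rw [mink_comm]; exact lift_bw h3, by rw [mink_comm]; exact lift_bw h4⟩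

lemma Setup.black_rat (S : Setup X d T G) {x y : Fin 3 → ℝ} (he : IsEdge X x y) :
    ∃ κ : ℝ, κ ≠ 0 ∧ Cls d κ (T.1 *ᵥ bw x) := by
  obtain ⟨n, c, n', c', hf, hf', hx, hy, hx', hy', hnp⟩ := exists_two_facets S.h he
  obtain ⟨z, hzy, hzx, hez, hz⟩ := exists_edge_in_facet S.h he hf hx hy
  obtain ⟨w, hwy, hwx, hew, hw⟩ := exists_edge_in_facet S.h he hf' hx' hy'
  have hzw : w ≠ z := by
    rintro rfl
    exact hnp (third_ne S.h he hez hzy hzx hf hf' hx hy hz hx' hy' hw)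
  exact S.three (bw_unit (norm_gt S.h he)) he hez hew (lift_bw' S.h he).1 (lift_bw' S.h hez).1
    (lift_bw' S.h hew).1 (tangent_ne S.h he hez (Or.inr ⟨hzx, hzy⟩))
    (tangent_ne S.h he hew (Or.inr ⟨hwx, hwy⟩)) (tangent_ne S.h hez hew (Or.inr ⟨hwx, hzw⟩))

lemma Setup.incident (S : Setup X d T G) {x y n : Fin 3 → ℝ} {c : ℝ} (he : IsEdge X x y)
    (hf : IsFacet X n c) (hx : n ⬝ᵥ x = c) (hy : n ⬝ᵥ y = c) {κ κ' : ℝ}
    (hκ : Cls d κ (T.1 *ᵥ ww n c)) (hκ' : Cls d κ' (T.1 *ᵥ bw x)) :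
    ∃ q : ℚ, κ * κ' = Real.sqrt d * q := by
  obtain ⟨z, hzy, hzx, hez, hz⟩ := exists_edge_in_facet S.h he hf hx hy
  obtain ⟨k1, n1, q1⟩ := S.cusp he
  obtain ⟨k2, n2, q2⟩ := S.cusp hez
  refine KN.incident S.hd0 (a := T.1 *ᵥ ww n c) (b := T.1 *ᵥ bw x)
    (by rw [S.hT.1, ww_unit (facet_pos S.h he hf hx hy)]) (by rw [S.hT.1, bw_unit (norm_gt S.h he)])
    (by rw [S.hT.1, ww_bw hx]) ?_ ?_ ?_ ?_ ?_ ?_ ?_ q1 q2 hκ hκ'
  · rw [mink_smul_left, mink_smul_right, S.hT.1, lift_tp_iso S.h he]; ring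
  · rw [mink_smul_left, mink_smul_right, S.hT.1, lift_tp_iso S.h hez]; ring
  · rw [mink_smul_left, S.hT.1, mink_comm, ww_lift (tp_on_plane S.h he hx hy), mul_zero]
  · rw [mink_smul_left, S.hT.1, mink_comm, ww_lift (tp_on_plane S.h hez hx hz), mul_zero]
  · rw [mink_smul_left, S.hT.1, mink_comm, (lift_bw' S.h he).1, mul_zero]
  · rw [mink_smul_left, S.hT.1, mink_comm, (lift_bw' S.h hez).1, mul_zero]
  · rw [mink_smul_left, mink_smul_right, S.hT.1]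
    exact mul_ne_zero n1 (mul_ne_zero n2 (tangent_ne S.h he hez (Or.inr ⟨hzx, hzy⟩)))

lemma Setup.black_of_white (S : Setup X d T G) {x y n : Fin 3 → ℝ} {c : ℝ} (he : IsEdge X x y)
    (hf : IsFacet X n c) (hx : n ⬝ᵥ x = c) (hy : n ⬝ᵥ y = c) {κ₀ : ℝ} (hκ₀ : κ₀ ≠ 0)
    (hκ : Cls d κ₀ (T.1 *ᵥ ww n c)) : Cls d (Real.sqrt d * κ₀) (T.1 *ᵥ bw x) := by
  obtain ⟨κ', -, hκ'⟩ := S.black_rat he
  obtain ⟨q, hq⟩ := S.incident he hf hx hy hκ hκ'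
  obtain ⟨q₀, hq₀⟩ := hκ.sq (by rw [S.hT.1, ww_unit (facet_pos S.h he hf hx hy)])
  exact cls_of_prod hκ' hq hq₀ hκ₀

lemma Setup.white_of_black (S : Setup X d T G) {x y n : Fin 3 → ℝ} {c : ℝ} (he : IsEdge X x y)
    (hf : IsFacet X n c) (hx : n ⬝ᵥ x = c) (hy : n ⬝ᵥ y = c) {κ₀ : ℝ} (hκ₀ : κ₀ ≠ 0) {q₀ : ℚ}
    (hq₀ : κ₀ ^ 2 = q₀) (hκ : Cls d (Real.sqrt d * κ₀) (T.1 *ᵥ bw x)) :
    Cls d κ₀ (T.1 *ᵥ ww n c) := by
  obtain ⟨κ', -, hκ'⟩ := S.white_rat he hf hx hy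
  obtain ⟨q, hq⟩ := S.incident he hf hx hy hκ' hκ
  exact cls_of_prod' S.hd0 hκ' hq hq₀ hκ₀

/-- scaled white walls -/
def SW (d : ℕ) (T : GL (Fin 4) ℝ) (G : Subgroup (GL (Fin 4) ℝ)) (κ₀ : ℝ) : Set V4 :=
  {s | ∃ a, s = Real.sqrt 2 • a ∧ WallIn G (T.1 *ᵥ a) ∧ Cls d κ₀ (T.1 *ᵥ a)}

/-- scaled black walls -/
def SB (d : ℕ) (T : GL (Fin 4) ℝ) (G : Subgroup (GL (Fin 4) ℝ)) (κ₀ : ℝ) : Set V4 :=
  {s | ∃ a, s = Real.sqrt (2 * d) • a ∧ WallIn G (T.1 *ᵥ a) ∧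
    Cls d (Real.sqrt d * κ₀) (T.1 *ᵥ a)}

lemma Setup.intWalls (S : Setup X d T G) (κ₀ : ℝ) : IntWalls d (SW d T G κ₀) (SB d T G κ₀) := by
  have h2 : Real.sqrt 2 * Real.sqrt 2 = 2 := Real.mul_self_sqrt (by norm_num)
  have h2d : Real.sqrt (2 * d) * Real.sqrt (2 * d) = 2 * d := Real.mul_self_sqrt (by positivity)
  have hsplit : Real.sqrt (2 * d) = Real.sqrt 2 * Real.sqrt d := Real.sqrt_mul (by norm_num) _
  have hdd : Real.sqrt d * Real.sqrt d = d := Real.mul_self_sqrt (by positivity)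
  refine ⟨?_, ?_, ?_, ?_, ?_⟩
  · rintro s ⟨a, rfl, hw, -⟩
    have := hw.1
    rw [S.hT.1] at this
    rw [mink_smul_left, mink_smul_right, this, mul_one, h2]
  · rintro s ⟨a, rfl, hw, -⟩
    have := hw.1
    rw [S.hT.1] at this
    rw [mink_smul_left, mink_smul_right, this, mul_one, h2d]
  · rintro s ⟨a, rfl, hw, hc⟩ s' ⟨a', rfl, hw', hc'⟩
    obtain ⟨m, hm⟩ := wall_int_same S.hd0 S.hG hw hw' hc hc'
    rw [S.hT.1] at hm
    refine ⟨m, ?_⟩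
    rw [mink_smul_left, mink_smul_right, ← mul_assoc, h2, hm]
  · rintro s ⟨a, rfl, hw, hc⟩ s' ⟨a', rfl, hw', hc'⟩
    obtain ⟨m, hm⟩ := wall_int_mixed S.hd S.hG hw hw' hc hc'
    rw [S.hT.1] at hm
    refine ⟨m, ?_⟩
    rw [mink_smul_left, mink_smul_right, hsplit]
    have : Real.sqrt 2 * (Real.sqrt 2 * Real.sqrt d * mink a a') =
        (Real.sqrt 2 * Real.sqrt 2) * Real.sqrt d * mink a a' := by ring
    rw [this, h2]
    have : 2 * Real.sqrt d * mink a a' = Real.sqrt d * (2 * mink a a') := by ring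
    rw [this, hm, ← mul_assoc, hdd]
  · rintro s ⟨a, rfl, hw, hc⟩ s' ⟨a', rfl, hw', hc'⟩
    obtain ⟨m, hm⟩ := wall_int_same S.hd0 S.hG hw hw' hc hc'
    rw [S.hT.1] at hm
    refine ⟨m, ?_⟩
    rw [mink_smul_left, mink_smul_right, ← mul_assoc, h2d]
    have : 2 * (d : ℝ) * mink a a' = d * (2 * mink a a') := by ring
    rw [this, hm]

lemma sign_mem {κ s : ℝ} {v : V4} (hs : s = 1 ∨ s = -1) (hw : WallIn G (T.1 *ᵥ v))
    (hc : Cls d κ (T.1 *ᵥ v)) : WallIn G (T.1 *ᵥ (s • v)) ∧ Cls d κ (T.1 *ᵥ (s • v)) := by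
  rcases hs with rfl | rfl
  · rw [one_smul]; exact ⟨hw, hc⟩
  · rw [neg_one_smul, mulVec_neg]; exact ⟨hw.neg, hc.neg⟩

/-- All the data at a cusp. -/
lemma Setup.cusp_data (S : Setup X d T G) {κ₀ : ℝ} (hκ₀ : κ₀ ≠ 0) {q₀ : ℚ}
    (hq₀ : κ₀ ^ 2 = q₀) {x y : Fin 3 → ℝ} (he : IsEdge X x y)
    (hκ : Cls d (Real.sqrt d * κ₀) (T.1 *ᵥ bw x)) :
    Cls d (Real.sqrt d * κ₀) (T.1 *ᵥ bw y) ∧ ∃ w : Fin 2 → V4, (∀ i, w i ∈ SW d T G κ₀) ∧
      (∃ a : ℝ, 0 < a ∧ w 0 + w 1 = a • lift (tp x y)) ∧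
      (∀ i, mink (w i) (bw x) = 0 ∧ mink (w i) (bw y) = 0) ∧
      (∀ i, mink (lift (tp x y)) (w i) = 0) ∧
      ∀ i, (∃ z, z ≠ y ∧ z ≠ x ∧ IsEdge X x z ∧ mink (w i) (lift (tp x z)) = 0) ∧
        (∃ z, z ≠ x ∧ z ≠ y ∧ IsEdge X y z ∧ mink (w i) (lift (tp y z)) = 0) := by
  obtain ⟨n, c, n', c', hf, hf', hx, hy, hx', hy', hnp⟩ := exists_two_facets S.h he
  obtain ⟨s, s', hs, hs', k, hk, hsum⟩ := white_pair S.h he hf hf' hx hy hx' hy' hnp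
  have c1 := S.white_of_black he hf hx hy hκ₀ hq₀ hκ
  have c2 := S.white_of_black he hf' hx' hy' hκ₀ hq₀ hκ
  have m1 := sign_mem hs (S.wall_ww he hf hx hy) c1
  have m2 := sign_mem hs' (S.wall_ww he hf' hx' hy') c2
  have hs2 : 0 < Real.sqrt 2 := Real.sqrt_pos.2 (by norm_num)
  refine ⟨S.black_of_white he.symm hf hy hx hκ₀ c1,
    ![Real.sqrt 2 • s • ww n c, Real.sqrt 2 • s' • ww n' c'], ?_, ?_, ?_, ?_, ?_⟩
  · intro i
    fin_cases i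
    · exact ⟨_, rfl, m1.1, m1.2⟩
    · exact ⟨_, rfl, m2.1, m2.2⟩
  · refine ⟨Real.sqrt 2 * k, by positivity, ?_⟩
    show Real.sqrt 2 • s • ww n c + Real.sqrt 2 • s' • ww n' c' = _
    rw [← smul_add, hsum, smul_smul]
  · intro i
    fin_cases i
    · show mink (Real.sqrt 2 • s • ww n c) (bw x) = 0 ∧ mink (Real.sqrt 2 • s • ww n c) (bw y) = 0
      rw [mink_smul_left, mink_smul_left, mink_smul_left, mink_smul_left, ww_bw hx, ww_bw hy]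
      simp
    · show mink (Real.sqrt 2 • s' • ww n' c') (bw x) = 0 ∧
        mink (Real.sqrt 2 • s' • ww n' c') (bw y) = 0
      rw [mink_smul_left, mink_smul_left, mink_smul_left, mink_smul_left, ww_bw hx', ww_bw hy']
      simp
  · intro i
    fin_cases i
    · show mink (lift (tp x y)) (Real.sqrt 2 • s • ww n c) = 0
      rw [mink_smul_right, mink_smul_right, mink_comm, ww_lift (tp_on_plane S.h he hx hy)]
      simp
    · show mink (lift (tp x y)) (Real.sqrt 2 • s' • ww n' c') = 0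
      rw [mink_smul_right, mink_smul_right, mink_comm, ww_lift (tp_on_plane S.h he hx' hy')]
      simp
  · intro i
    fin_cases i
    · obtain ⟨z, hzy, hzx, hez, hz⟩ := exists_edge_in_facet S.h he hf hx hy
      obtain ⟨w, hwx, hwy, hew, hw⟩ := exists_edge_in_facet S.h he.symm hf hy hx
      refine ⟨⟨z, hzy, hzx, hez, ?_⟩, ⟨w, hwx, hwy, hew, ?_⟩⟩
      · show mink (Real.sqrt 2 • s • ww n c) (lift (tp x z)) = 0
        rw [mink_smul_left, mink_smul_left, ww_lift (tp_on_plane S.h hez hx hz)]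
        simp
      · show mink (Real.sqrt 2 • s • ww n c) (lift (tp y w)) = 0
        rw [mink_smul_left, mink_smul_left, ww_lift (tp_on_plane S.h hew hy hw)]
        simp
    · obtain ⟨z, hzy, hzx, hez, hz⟩ := exists_edge_in_facet S.h he hf' hx' hy'
      obtain ⟨w, hwx, hwy, hew, hw⟩ := exists_edge_in_facet S.h he.symm hf' hy' hx'
      refine ⟨⟨z, hzy, hzx, hez, ?_⟩, ⟨w, hwx, hwy, hew, ?_⟩⟩
      · show mink (Real.sqrt 2 • s' • ww n' c') (lift (tp x z)) = 0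
        rw [mink_smul_left, mink_smul_left, ww_lift (tp_on_plane S.h hez hx' hz)]
        simp
      · show mink (Real.sqrt 2 • s' • ww n' c') (lift (tp y w)) = 0
        rw [mink_smul_left, mink_smul_left, ww_lift (tp_on_plane S.h hew hy' hw)]
        simp

/-- The edges whose walls lie in the classes determined by `κ₀`. -/
def Idx (X : Finset (Fin 3 → ℝ)) (d : ℕ) (T : GL (Fin 4) ℝ) (κ₀ : ℝ) : Type :=
  {p : (Fin 3 → ℝ) × (Fin 3 → ℝ) // IsEdge X p.1 p.2 ∧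
    Cls d (Real.sqrt d * κ₀) (T.1 *ᵥ bw p.1)}

lemma finite_idx (κ₀ : ℝ) : Finite (Idx X d T κ₀) := by
  have h : {p : (Fin 3 → ℝ) × (Fin 3 → ℝ) | IsEdge X p.1 p.2 ∧
      Cls d (Real.sqrt d * κ₀) (T.1 *ᵥ bw p.1)}.Finite := by
    apply Set.Finite.subset (X ×ˢ X).finite_toSet
    rintro p ⟨hp, -⟩
    simp only [Finset.coe_product, Set.mem_prod, Finset.mem_coe]
    exact ⟨hp.1, hp.2.1⟩
  exact h.to_subtype

theorem Setup.main (S : Setup X d T G) : d = 1 ∨ d = 2 ∨ d = 6 := by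
  have hd0 := S.hd0
  have hdR : (0 : ℝ) < d := by exact_mod_cast hd0
  -- an edge
  obtain ⟨x₀, hx₀, -⟩ := S.h.solid ![1, 0, 0] 0 (by
    intro h0
    have := congrFun h0 0
    simp at this)
  obtain ⟨y₀, he₀⟩ := exists_edge S.h hx₀
  obtain ⟨n₀, c₀, -, -, hf₀, -, hx₀', hy₀', -⟩ := exists_two_facets S.h he₀
  obtain ⟨κ₀, hκ₀, hc₀⟩ := S.white_rat he₀ hf₀ hx₀' hy₀'
  obtain ⟨q₀, hq₀⟩ := hc₀.sq (by rw [S.hT.1, ww_unit (facet_pos S.h he₀ hf₀ hx₀' hy₀')])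
  have hb₀ := S.black_of_white he₀ hf₀ hx₀' hy₀' hκ₀ hc₀
  haveI : Finite (Idx X d T κ₀) := finite_idx κ₀
  haveI : Nonempty (Idx X d T κ₀) := ⟨⟨(x₀, y₀), he₀, hb₀⟩⟩
  have hdata := fun p : Idx X d T κ₀ => S.cusp_data hκ₀ hq₀ p.2.1 p.2.2
  have hy := fun p => (hdata p).1
  choose w hwS hwsum hwb hwe hwc using fun p => (hdata p).2
  have hs : 0 < Real.sqrt (2 * d) := Real.sqrt_pos.2 (by positivity)
  refine core S.hd (S.intWalls κ₀) (ι := Idx X d T κ₀)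
    { eps := fun p => lift (tp p.1.1 p.1.2)
      w := w
      b := fun p => ![Real.sqrt (2 * d) • bw p.1.1, Real.sqrt (2 * d) • bw p.1.2]
      iso := fun p => lift_tp_iso S.h p.2.1
      fwd := fun p => by rw [lift_three]; norm_num
      w_mem := hwS
      b_mem := ?_
      w_sum := hwsum
      b_sum := ?_
      orth := ?_
      w_eps := hwe
      b_eps := ?_
      corner := ?_ }
  · intro p i
    fin_cases i
    · exact ⟨_, rfl, S.wall_bw p.2.1, p.2.2⟩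
    · exact ⟨_, rfl, S.wall_bw p.2.1.symm, hy p⟩
  · intro p
    obtain ⟨-, k, hk, hsum⟩ := bw_pair S.h p.2.1
    refine ⟨Real.sqrt (2 * d) * k, by positivity, ?_⟩
    show Real.sqrt (2 * d) • bw p.1.1 + Real.sqrt (2 * d) • bw p.1.2 = _
    rw [← smul_add, hsum, smul_smul]
  · intro p i j
    fin_cases j
    · show mink (w p i) (Real.sqrt (2 * d) • bw p.1.1) = 0
      rw [mink_smul_right, (hwb p i).1, mul_zero]
    · show mink (w p i) (Real.sqrt (2 * d) • bw p.1.2) = 0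
      rw [mink_smul_right, (hwb p i).2, mul_zero]
  · intro p i
    fin_cases i
    · show mink (lift (tp p.1.1 p.1.2)) (Real.sqrt (2 * d) • bw p.1.1) = 0
      rw [mink_smul_right, mink_comm, (lift_bw' S.h p.2.1).1, mul_zero]
    · show mink (lift (tp p.1.1 p.1.2)) (Real.sqrt (2 * d) • bw p.1.2) = 0
      rw [mink_smul_right, mink_comm, (lift_bw' S.h p.2.1).2, mul_zero]
  · intro p i j
    fin_cases j
    · obtain ⟨z, hzy, hzx, hez, hz⟩ := (hwc p i).1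
      refine ⟨⟨(p.1.1, z), hez, p.2.2⟩, ?_, ?_, ?_⟩
      · show mink (lift (tp p.1.1 z)) (w p i) = 0
        rw [mink_comm, hz]
      · show mink (lift (tp p.1.1 z)) (Real.sqrt (2 * d) • bw p.1.1) = 0
        rw [mink_smul_right, mink_comm, (lift_bw' S.h hez).1, mul_zero]
      · exact tangent_ne S.h p.2.1 hez (Or.inr ⟨hzx, hzy⟩)
    · obtain ⟨z, hzx, hzy, hez, hz⟩ := (hwc p i).2
      refine ⟨⟨(p.1.2, z), hez, hy p⟩, ?_, ?_, ?_⟩
      · show mink (lift (tp p.1.2 z)) (w p i) = 0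
        rw [mink_comm, hz]
      · show mink (lift (tp p.1.2 z)) (Real.sqrt (2 * d) • bw p.1.2) = 0
        rw [mink_smul_right, mink_comm, (lift_bw' S.h hez).1, mul_zero]
      · exact tangent_ne S.h p.2.1 hez (Or.inr ⟨hzx, hzy⟩)

/-- **Main theorem.** -/
theorem main (hX : IsMidscribed X) (hd : Squarefree d)
    (hcomm : CommensurableUpToConj (polyhedronGroup X) (bianchi d)) : d = 1 ∨ d = 2 ∨ d = 6 := by
  obtain ⟨T, hT, hcomm⟩ := hcomm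
  refine Setup.main (X := X) (T := T)
    (G := (polyhedronGroup X).map (MulAut.conj T).toMonoidHom) ⟨hX, hd, hT, ?_, ?_, ?_⟩
  · intro x hx A hA
    refine Subgroup.mem_map.2 ⟨A, Subgroup.subset_closure (Or.inr ⟨x, hx, hA⟩), ?_⟩
    simp
  · intro n c hf A hA
    refine Subgroup.mem_map.2 ⟨A, Subgroup.subset_closure (Or.inl ⟨n, c, hf, hA⟩), ?_⟩
    simp
  · intro γ hγ
    obtain ⟨n, hn, -, h⟩ := Subgroup.exists_pow_mem_of_relIndex_ne_zero hcomm.2 hγ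
    exact ⟨n, hn, h.1⟩

end Pool.Agent.Helper613.KN
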