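import Pool.Agent.Helper613.KNDefs

set_option autoImplicit false

namespace Pool.Agent.Helper613.KN

open Matrix

lemma mink_comm (x y : V4) : mink x y = mink y x := by
  unfold mink; ring

lemma mink_add_left (x y z : V4) : mink (x + y) z = mink x z + mink y z := by
  unfold mink; simp only [Pi.add_apply]; ring

lemma mink_smul_left (a : ℝ) (x z : V4) : mink (a • x) z = a * mink x z := by
  unfold mink; simp only [Pi.smul_apply, smul_eq_mul]; ring

lemma mink_add_right (x y z : V4) : mink x (y + z) = mink x y + mink x z := by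
  unfold mink; simp only [Pi.add_apply]; ring

lemma mink_smul_right (a : ℝ) (x z : V4) : mink x (a • z) = a * mink x z := by
  unfold mink; simp only [Pi.smul_apply, smul_eq_mul]; ring

lemma mink_neg_left (x z : V4) : mink (-x) z = - mink x z := by
  unfold mink; simp only [Pi.neg_apply]; ring

lemma mink_neg_right (x z : V4) : mink x (-z) = - mink x z := by
  unfold mink; simp only [Pi.neg_apply]; ring

lemma mink_sub_left (x y z : V4) : mink (x - y) z = mink x z - mink y z := by
  unfold mink; simp only [Pi.sub_apply]; ring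

lemma mink_sub_right (x y z : V4) : mink x (y - z) = mink x y - mink x z := by
  unfold mink; simp only [Pi.sub_apply]; ring

lemma mink_zero_left (z : V4) : mink 0 z = 0 := by
  unfold mink; simp

lemma mink_zero_right (z : V4) : mink z 0 = 0 := by
  unfold mink; simp

/-- The Lorentz form as a linear functional in the first variable. -/
def minkL (z : V4) : V4 →ₗ[ℝ] ℝ where
  toFun x := mink x z
  map_add' x y := mink_add_left x y z
  map_smul' a x := by simp [mink_smul_left]

@[simp] lemma minkL_apply (x z : V4) : minkL z x = mink x z := rfl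

/-- forward causal vectors -/
def Fwd (x : V4) : Prop := mink x x ≤ 0 ∧ 0 < x 3

lemma cs_sq (x y : V4) :
    (mink x y + x 3 * y 3) ^ 2 ≤ (mink x x + x 3 ^ 2) * (mink y y + y 3 ^ 2) := by
  unfold mink
  nlinarith [sq_nonneg (x 0 * y 1 - x 1 * y 0), sq_nonneg (x 0 * y 2 - x 2 * y 0),
    sq_nonneg (x 1 * y 2 - x 2 * y 1)]

lemma sum_sq_nonneg (x : V4) : 0 ≤ mink x x + x 3 ^ 2 := by
  unfold mink; nlinarith [sq_nonneg (x 0), sq_nonneg (x 1), sq_nonneg (x 2)]

lemma mink_nonpos {x y : V4} (hx : Fwd x) (hy : Fwd y) : mink x y ≤ 0 := by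
  have h := cs_sq x y
  have h0 := sum_sq_nonneg x
  have h0' := sum_sq_nonneg y
  have h1 : (mink x x + x 3 ^ 2) * (mink y y + y 3 ^ 2) ≤ x 3 ^ 2 * y 3 ^ 2 := by
    have := hx.1
    have := hy.1
    exact mul_le_mul (by linarith) (by linarith) h0' (by positivity)
  have h2 : (mink x y + x 3 * y 3) ^ 2 ≤ (x 3 * y 3) ^ 2 := by rw [mul_pow]; linarith
  have h3 := mul_pos hx.2 hy.2
  have := abs_le_of_sq_le_sq' h2 h3.le
  linarith [this.2]

lemma mink_neg {x y : V4} (hx : Fwd x) (hy : Fwd y) (hy' : mink y y < 0) : mink x y < 0 := by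
  have h := cs_sq x y
  have h0 := sum_sq_nonneg x
  have h0' := sum_sq_nonneg y
  have hx2 : 0 < x 3 ^ 2 := by have := hx.2; positivity
  have h1 : (mink x x + x 3 ^ 2) * (mink y y + y 3 ^ 2) < x 3 ^ 2 * y 3 ^ 2 := by
    have h4 := hx.1
    calc (mink x x + x 3 ^ 2) * (mink y y + y 3 ^ 2)
        ≤ x 3 ^ 2 * (mink y y + y 3 ^ 2) := mul_le_mul_of_nonneg_right (by linarith) h0'
      _ < _ := mul_lt_mul_of_pos_left (by linarith) hx2
  have h2 : (mink x y + x 3 * y 3) ^ 2 < (x 3 * y 3) ^ 2 := by rw [mul_pow]; linarith
  have h3 := mul_pos hx.2 hy.2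
  have := abs_lt_of_sq_lt_sq' h2 h3.le
  linarith [this.2]

lemma fwd_neg_of {x : V4} (hx : mink x x ≤ 0) (h : x 3 < 0) : Fwd (-x) := by
  refine ⟨?_, by simpa using h⟩
  rw [mink_neg_left, mink_neg_right]; linarith

lemma ext4 {x y : V4} (h0 : x 0 = y 0) (h1 : x 1 = y 1) (h2 : x 2 = y 2) (h3 : x 3 = y 3) :
    x = y := by
  funext i
  fin_cases i
  · exact h0
  · exact h1
  · exact h2
  · exact h3

lemma eq_zero_of_causal {x : V4} (hx : mink x x ≤ 0) (h : x 3 = 0) : x = 0 := by
  unfold mink at hx
  rw [h] at hx
  have h0 : x 0 = 0 := by nlinarith [sq_nonneg (x 0), sq_nonneg (x 1), sq_nonneg (x 2)]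
  have h1 : x 1 = 0 := by nlinarith [sq_nonneg (x 0), sq_nonneg (x 1), sq_nonneg (x 2)]
  have h2 : x 2 = 0 := by nlinarith [sq_nonneg (x 0), sq_nonneg (x 1), sq_nonneg (x 2)]
  exact ext4 h0 h1 h2 h

lemma fwd_of {x y : V4} (hx : mink x x ≤ 0) (hy : Fwd y) (h : mink x y < 0) : Fwd x := by
  refine ⟨hx, ?_⟩
  rcases lt_trichotomy (x 3) 0 with h1 | h1 | h1
  · have := mink_nonpos (fwd_neg_of hx h1) hy
    rw [mink_neg_left] at this; linarith
  · have := eq_zero_of_causal hx h1
    rw [this, mink_zero_left] at h; exact absurd h (lt_irrefl 0)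
  · exact h1

/-- vectors orthogonal to a timelike vector are spacelike (or zero) -/
lemma pos_of_orth {v w : V4} (hw : Fwd w) (hw' : mink w w < 0) (h : mink v w = 0) (hv : v ≠ 0) :
    0 < mink v v := by
  by_contra hneg
  push Not at hneg
  rcases lt_trichotomy (v 3) 0 with h1 | h1 | h1
  · have := mink_neg (fwd_neg_of hneg h1) hw hw'
    rw [mink_neg_left] at this; linarith
  · exact hv (eq_zero_of_causal hneg h1)
  · have := mink_neg ⟨hneg, h1⟩ hw hw'
    linarith

lemma eq_zero_of_orth_all {z : V4} (h : ∀ x, mink z x = 0) : z = 0 := by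
  have h0 := h (Pi.single 0 1)
  have h1 := h (Pi.single 1 1)
  have h2 := h (Pi.single 2 1)
  have h3 := h (Pi.single 3 1)
  simp [mink] at h0 h1 h2 h3
  exact ext4 h0 h1 h2 h3

/-- A vector orthogonal to four linearly independent vectors vanishes. -/
lemma eq_zero_of_orth_indep {b : Fin 4 → V4} (hb : LinearIndependent ℝ b) {z : V4}
    (h : ∀ i, mink z (b i) = 0) : z = 0 := by
  apply eq_zero_of_orth_all
  intro x
  have hspan : Submodule.span ℝ (Set.range b) = ⊤ :=
    hb.span_eq_top_of_card_eq_finrank (by simp)
  have hx : x ∈ Submodule.span ℝ (Set.range b) := by rw [hspan]; trivial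
  induction hx using Submodule.span_induction with
  | mem x hx => obtain ⟨i, rfl⟩ := hx; exact h i
  | zero => exact mink_zero_right z
  | add x y _ _ hx hy => rw [mink_add_right, hx, hy, add_zero]
  | smul a x _ hx => rw [mink_smul_right, hx, mul_zero]

/-- Two isotropic vectors with nonzero product and two orthogonal non-isotropic vectors in their
orthogonal complement are linearly independent. -/
lemma indep_corner {e e' u v : V4} (he : mink e e = 0) (he' : mink e' e' = 0)
    (hs : mink e e' ≠ 0) (hu : mink u u ≠ 0) (hv : mink v v ≠ 0) (huv : mink u v = 0)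
    (heu : mink e u = 0) (hev : mink e v = 0) (he'u : mink e' u = 0) (he'v : mink e' v = 0) :
    LinearIndependent ℝ ![e, e', u, v] := by
  rw [Fintype.linearIndependent_iff]
  intro g hg
  simp only [Fin.sum_univ_four, cons_val_zero, cons_val_one, cons_val] at hg
  have key : ∀ z, g 0 * mink e z + g 1 * mink e' z + g 2 * mink u z + g 3 * mink v z = 0 := by
    intro z
    have := congrArg (fun x => mink x z) hg
    simpa only [mink_add_left, mink_smul_left, mink_zero_left] using this
  have h0 := key e'
  have h1 := key e
  have h2 := key u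
  have h3 := key v
  rw [he', mink_comm u e', mink_comm v e', he'u, he'v] at h0
  rw [he, mink_comm u e, mink_comm v e, heu, hev, mink_comm e' e] at h1
  rw [heu, he'u, mink_comm v u, huv] at h2
  rw [hev, he'v, huv] at h3
  intro i
  fin_cases i
  · have : g 0 * mink e e' = 0 := by linarith
    exact (mul_eq_zero.1 this).resolve_right hs
  · have : g 1 * mink e e' = 0 := by linarith
    exact (mul_eq_zero.1 this).resolve_right hs
  · have : g 2 * mink u u = 0 := by linarith
    exact (mul_eq_zero.1 this).resolve_right hu
  · have : g 3 * mink v v = 0 := by linarith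
    exact (mul_eq_zero.1 this).resolve_right hv

/-- Decomposition along a corner. -/
lemma corner_decomp {e e' u v : V4} (he : mink e e = 0) (he' : mink e' e' = 0)
    (hs : mink e e' ≠ 0) (hu : mink u u ≠ 0) (hv : mink v v ≠ 0) (huv : mink u v = 0)
    (heu : mink e u = 0) (hev : mink e v = 0) (he'u : mink e' u = 0) (he'v : mink e' v = 0)
    (z : V4) : z = (mink z e' / mink e e') • e + (mink z e / mink e e') • e' +
      (mink z u / mink u u) • u + (mink z v / mink v v) • v := by
  have hind := indep_corner he he' hs hu hv huv heu hev he'u he'v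
  have h0 : z - ((mink z e' / mink e e') • e + (mink z e / mink e e') • e' +
      (mink z u / mink u u) • u + (mink z v / mink v v) • v) = 0 := by
    apply eq_zero_of_orth_indep hind
    intro i
    simp only [mink_sub_left, mink_add_left, mink_smul_left]
    fin_cases i
    · show mink z e - (mink z e' / mink e e' * mink e e + mink z e / mink e e' * mink e' e +
        mink z u / mink u u * mink u e + mink z v / mink v v * mink v e) = 0
      rw [he, mink_comm u e, mink_comm v e, heu, hev, mink_comm e' e]
      field_simp; ring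
    · show mink z e' - (mink z e' / mink e e' * mink e e' + mink z e / mink e e' * mink e' e' +
        mink z u / mink u u * mink u e' + mink z v / mink v v * mink v e') = 0
      rw [he', mink_comm u e', mink_comm v e', he'u, he'v]
      field_simp; ring
    · show mink z u - (mink z e' / mink e e' * mink e u + mink z e / mink e e' * mink e' u +
        mink z u / mink u u * mink u u + mink z v / mink v v * mink v u) = 0
      rw [heu, he'u, mink_comm v u, huv]
      field_simp; ring
    · show mink z v - (mink z e' / mink e e' * mink e v + mink z e / mink e e' * mink e' v +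
        mink z u / mink u u * mink u v + mink z v / mink v v * mink v v) = 0
      rw [hev, he'v, huv]
      field_simp; ring
  exact sub_eq_zero.1 h0

/-- The norm in terms of a corner. -/
lemma corner_norm {e e' u v : V4} (he : mink e e = 0) (he' : mink e' e' = 0)
    (hs : mink e e' ≠ 0) (hu : mink u u ≠ 0) (hv : mink v v ≠ 0) (huv : mink u v = 0)
    (heu : mink e u = 0) (hev : mink e v = 0) (he'u : mink e' u = 0) (he'v : mink e' v = 0)
    (z : V4) : mink z z = 2 * (mink z e * mink z e') / mink e e' + mink z u ^ 2 / mink u u +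
      mink z v ^ 2 / mink v v := by
  have h := corner_decomp he he' hs hu hv huv heu hev he'u he'v z
  have h2 := congrArg (fun x => mink z x) h
  simp only [mink_add_right, mink_smul_right] at h2
  rw [h2]
  field_simp; ring

/-- A vector orthogonal to an isotropic vector `e` and to a unit vector `m ⊥ e` lies in the span
of `e` and any unit vector `w ⊥ e, m`. -/
lemma span_of_orth {e m w z : V4} (he : mink e e = 0) (he3 : 0 < e 3) (hm : mink m m = 1)
    (hw : mink w w = 1) (hmw : mink m w = 0) (hem : mink e m = 0) (hew : mink e w = 0)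
    (hze : mink z e = 0) (hzm : mink z m = 0) : ∃ k : ℝ, z = mink z w • w + k • e := by
  -- the vector `y = z - ⟨z,w⟩ w` is orthogonal to `e, m, w`
  set y := z - mink z w • w with hy
  have hye : mink y e = 0 := by
    rw [hy, mink_sub_left, mink_smul_left, hze, mink_comm w e, hew]; ring
  have hym : mink y m = 0 := by
    rw [hy, mink_sub_left, mink_smul_left, hzm, mink_comm w m, hmw]; ring
  have hyw : mink y w = 0 := by
    rw [hy, mink_sub_left, mink_smul_left, hw]; ring
  -- a second isotropic vector orthogonal to `m` and `w`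
  set o : V4 := ![0, 0, 0, 1] with ho
  have hoo : mink o o = -1 := by simp [mink, ho]
  have hoe : mink o e = - e 3 := by simp [mink, ho]
  set o' := o - mink o m • m - mink o w • w with ho'
  have ho'm : mink o' m = 0 := by
    rw [ho', mink_sub_left, mink_sub_left, mink_smul_left, mink_smul_left, hm, mink_comm w m, hmw]
    ring
  have ho'w : mink o' w = 0 := by
    rw [ho', mink_sub_left, mink_sub_left, mink_smul_left, mink_smul_left, hw, hmw]
    ring
  have ho'e : mink o' e = - e 3 := by
    rw [ho', mink_sub_left, mink_sub_left, mink_smul_left, mink_smul_left, mink_comm m e, hem,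
      mink_comm w e, hew, hoe]
    ring
  -- `e' = o' + t e` isotropic
  set e' := o' + (mink o' o' / (2 * e 3)) • e with he'
  have he'e' : mink e' e' = 0 := by
    rw [he', mink_add_left, mink_add_right, mink_add_right, mink_smul_left, mink_smul_right,
      mink_smul_left, mink_smul_right, mink_comm e o', ho'e, he]
    field_simp; ring
  have hee' : mink e e' = - e 3 := by
    rw [he', mink_add_right, mink_smul_right, he, mink_comm e o', ho'e]; ring
  have hem' : mink e' m = 0 := by
    rw [he', mink_add_left, mink_smul_left, ho'm, hem]; ring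
  have hew' : mink e' w = 0 := by
    rw [he', mink_add_left, mink_smul_left, ho'w, hew]; ring
  have h := corner_decomp he he'e' (by rw [hee']; linarith) (by rw [hm]; norm_num)
    (by rw [hw]; norm_num) hmw hem hew hem' hew' y
  rw [hye, hym, hyw] at h
  simp only [zero_div, zero_smul, add_zero] at h
  refine ⟨mink y e' / mink e e', ?_⟩
  rw [← h, hy]
  abel

end Pool.Agent.Helper613.KN
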