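import Pool.Agent.Helper613.KNArith

set_option autoImplicit false

namespace Pool.Agent.Helper613.KN

open Matrix

variable {d : ℕ}

/-! ### Parabolic elements give rational cusps -/

lemma parabolic_pow {M : Matrix (Fin 4) (Fin 4) ℝ} {a b : V4} (ha : mink a a = 1)
    (hb : mink b b = 1) (hab : mink a b = -1)
    (hM : ∀ u, M *ᵥ u = u + (-2 * mink u a + 4 * mink a b * mink u b) • a +
      (-2 * mink u b) • b) (n : ℕ) (u : V4) :
    (M ^ n) *ᵥ u = u - (2 * n * mink u b) • (a + b) - (2 * n * mink u (a + b)) • a -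
      (2 * n * (n - 1) * mink u (a + b)) • (a + b) := by
  induction n with
  | zero => simp
  | succ n ih =>
    rw [pow_succ', ← mulVec_mulVec, ih, hM]
    simp only [mink_add_left, mink_sub_left, mink_smul_left, mink_add_right, ha, hb, hab,
      mink_comm b a]
    push_cast
    module

/-- The cusp of two tangent walls is rational. -/
lemma cusp_rational (hd : 0 < d) {M : Matrix (Fin 4) (Fin 4) ℝ} {a b : V4} (ha : mink a a = 1)
    (hb : mink b b = 1) (hab : mink a b = -1)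
    (hM : ∀ u, M *ᵥ u = u + (-2 * mink u a + 4 * mink a b * mink u b) • a +
      (-2 * mink u b) • b) {n : ℕ} (hn : 0 < n)
    (hlam : ∀ v, Lam d v → Lam d ((M ^ n) *ᵥ v)) (hne : a + b ≠ 0) :
    ∃ κ : ℝ, κ ≠ 0 ∧ VQ d (κ • (a + b)) := by
  obtain ⟨v, hv, hvE⟩ := exists_lam_ne hd hne
  have h1 := hlam v hv
  have h2 := hlam _ h1
  rw [mulVec_mulVec, ← pow_add] at h2
  have h3 := ((h2.vq.sub (h1.vq.smul 2)).add hv.vq)
  have e : (M ^ (n + n)) *ᵥ v - ((2 : ℚ) : ℝ) • ((M ^ n) *ᵥ v) + v =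
      (-4 * n ^ 2 * mink v (a + b)) • (a + b) := by
    rw [parabolic_pow ha hb hab hM, parabolic_pow ha hb hab hM]
    push_cast
    module
  rw [e] at h3
  have hnR : (0 : ℝ) < n := by exact_mod_cast hn
  exact ⟨_, mul_ne_zero (mul_ne_zero (by norm_num) (by positivity)) hvE, h3⟩

/-! ### Walls are rational up to a scalar -/

/-- `a` is a multiple by `κ` of a rational vector. -/
def Cls (d : ℕ) (κ : ℝ) (a : V4) : Prop := ∃ n, VQ d n ∧ a = κ • n

/-- Three isotropic vectors with nonzero products and a unit vector orthogonal to them. -/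
lemma indep_three {a r1 r2 r3 : V4} (ha : mink a a = 1) (h1 : mink r1 r1 = 0)
    (h2 : mink r2 r2 = 0) (h3 : mink r3 r3 = 0) (h12 : mink r1 r2 ≠ 0) (h13 : mink r1 r3 ≠ 0)
    (h23 : mink r2 r3 ≠ 0) (ha1 : mink r1 a = 0) (ha2 : mink r2 a = 0) (ha3 : mink r3 a = 0) :
    LinearIndependent ℝ ![r1, r2, r3, a] := by
  rw [Fintype.linearIndependent_iff]
  intro g hg
  simp only [Fin.sum_univ_four, cons_val_zero, cons_val_one, cons_val] at hg
  have key : ∀ z, g 0 * mink r1 z + g 1 * mink r2 z + g 2 * mink r3 z + g 3 * mink a z = 0 := by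
    intro z
    have := congrArg (fun x => mink x z) hg
    simpa only [mink_add_left, mink_smul_left, mink_zero_left] using this
  have k1 := key r1
  have k2 := key r2
  have k3 := key r3
  have k4 := key a
  rw [h1, mink_comm r2 r1, mink_comm r3 r1, mink_comm a r1, ha1] at k1
  rw [h2, mink_comm r3 r2, mink_comm a r2, ha2] at k2
  rw [h3, mink_comm a r3, ha3] at k3
  rw [ha, ha1, ha2, ha3] at k4
  set x := mink r1 r2
  set y := mink r1 r3
  set z := mink r2 r3
  have e1 : g 0 * (2 * x * y) = 0 := by linear_combination y * k2 + x * k3 - z * k1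
  have e2 : g 1 * (2 * x * z) = 0 := by linear_combination z * k1 + x * k3 - y * k2
  have e3 : g 2 * (2 * y * z) = 0 := by linear_combination z * k1 + y * k2 - x * k3
  intro i
  fin_cases i
  · exact (mul_eq_zero.1 e1).resolve_right (by positivity)
  · exact (mul_eq_zero.1 e2).resolve_right (by positivity)
  · exact (mul_eq_zero.1 e3).resolve_right (by positivity)
  · show g 3 = 0
    linarith

/-- A unit vector orthogonal to three rational cusps is a multiple of a rational vector. -/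
lemma wall_rational (hd : 0 < d) {a r1 r2 r3 : V4} (ha : mink a a = 1) (h1 : mink r1 r1 = 0)
    (h2 : mink r2 r2 = 0) (h3 : mink r3 r3 = 0) (h12 : mink r1 r2 ≠ 0) (h13 : mink r1 r3 ≠ 0)
    (h23 : mink r2 r3 ≠ 0) (ha1 : mink r1 a = 0) (ha2 : mink r2 a = 0) (ha3 : mink r3 a = 0)
    (q1 : VQ d r1) (q2 : VQ d r2) (q3 : VQ d r3) : ∃ κ : ℝ, κ ≠ 0 ∧ Cls d κ a := by
  have hane : a ≠ 0 := by
    rintro rfl
    rw [mink_zero_left] at ha
    norm_num at ha
  obtain ⟨v, hv, hva⟩ := exists_lam_ne hd hane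
  have qv := hv.vq
  obtain ⟨x, hx⟩ := q1.mink q2
  obtain ⟨y, hy⟩ := q1.mink q3
  obtain ⟨z, hz⟩ := q2.mink q3
  obtain ⟨t1, ht1⟩ := qv.mink q1
  obtain ⟨t2, ht2⟩ := qv.mink q2
  obtain ⟨t3, ht3⟩ := qv.mink q3
  rw [hx] at h12
  rw [hy] at h13
  rw [hz] at h23
  set n := v - (((t2 * y + t3 * x - t1 * z) / (2 * x * y) : ℚ) : ℝ) • r1 -
    (((t1 * z + t3 * x - t2 * y) / (2 * x * z) : ℚ) : ℝ) • r2 -
    (((t1 * z + t2 * y - t3 * x) / (2 * y * z) : ℚ) : ℝ) • r3 with hn
  have hqn : VQ d n := ((qv.sub (q1.smul _)).sub (q2.smul _)).sub (q3.smul _)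
  have hna : mink n a = mink v a := by
    rw [hn, mink_sub_left, mink_sub_left, mink_sub_left, mink_smul_left, mink_smul_left,
      mink_smul_left, ha1, ha2, ha3]; ring
  have hn1 : mink n r1 = 0 := by
    rw [hn, mink_sub_left, mink_sub_left, mink_sub_left, mink_smul_left, mink_smul_left,
      mink_smul_left, h1, mink_comm r2 r1, mink_comm r3 r1, hx, hy, ht1]
    push_cast; field_simp; ring
  have hn2 : mink n r2 = 0 := by
    rw [hn, mink_sub_left, mink_sub_left, mink_sub_left, mink_smul_left, mink_smul_left,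
      mink_smul_left, h2, mink_comm r3 r2, hx, hz, ht2]
    push_cast; field_simp; ring
  have hn3 : mink n r3 = 0 := by
    rw [hn, mink_sub_left, mink_sub_left, mink_sub_left, mink_smul_left, mink_smul_left,
      mink_smul_left, h3, hy, hz, ht3]
    push_cast; field_simp; ring
  have hind := indep_three ha h1 h2 h3 (by rw [hx]; exact h12) (by rw [hy]; exact h13)
    (by rw [hz]; exact h23) ha1 ha2 ha3
  have h0 : n - mink n a • a = 0 := by
    apply eq_zero_of_orth_indep hind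
    intro i
    fin_cases i
    · show mink (n - mink n a • a) r1 = 0
      rw [mink_sub_left, mink_smul_left, hn1, mink_comm a r1, ha1]; ring
    · show mink (n - mink n a • a) r2 = 0
      rw [mink_sub_left, mink_smul_left, hn2, mink_comm a r2, ha2]; ring
    · show mink (n - mink n a • a) r3 = 0
      rw [mink_sub_left, mink_smul_left, hn3, mink_comm a r3, ha3]; ring
    · show mink (n - mink n a • a) a = 0
      rw [mink_sub_left, mink_smul_left, ha]; ring
  have h4 := sub_eq_zero.1 h0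
  rw [hna] at h4
  refine ⟨(mink v a)⁻¹, inv_ne_zero hva, n, hqn, ?_⟩
  rw [h4, smul_smul, inv_mul_cancel₀ hva, one_smul]

lemma Cls.sq {κ : ℝ} {a : V4} (h : Cls d κ a) (ha : mink a a = 1) : ∃ q : ℚ, κ ^ 2 = q := by
  obtain ⟨n, hn, rfl⟩ := h
  obtain ⟨q, hq⟩ := hn.mink hn
  rw [mink_smul_left, mink_smul_right, hq] at ha
  have hq0 : (q : ℝ) ≠ 0 := by
    intro h0
    rw [h0] at ha
    norm_num at ha
  refine ⟨q⁻¹, ?_⟩
  push_cast
  field_simp
  linarith

lemma Cls.neg {κ : ℝ} {a : V4} (h : Cls d κ a) : Cls d κ (-a) := by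
  obtain ⟨n, hn, rfl⟩ := h
  refine ⟨((-1 : ℚ) : ℝ) • n, hn.smul _, ?_⟩
  push_cast
  rw [neg_one_smul, smul_neg]

/-- The determinant of four rational vectors. -/
lemma det_rational {v : Fin 4 → V4} (hv : ∀ i, VQ d (v i)) :
    ∃ q : ℚ, (Matrix.of v).det = Real.sqrt d * q := by
  choose p q r s h0 h1 h2 h3 using hv
  set P : Matrix (Fin 4) (Fin 4) ℚ := Matrix.of fun i => ![p i, q i, r i, s i] with hP
  have e : Matrix.of v = (P.map (Rat.castHom ℝ)) * Matrix.diagonal ![1, Real.sqrt d, 1, 1] := by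
    ext i j
    rw [Matrix.mul_diagonal]
    fin_cases j
    · simp [hP, h0]
    · simp [hP, h1]; ring
    · simp [hP, h2]
    · simp [hP, h3]
  refine ⟨P.det, ?_⟩
  rw [e, Matrix.det_mul, Matrix.det_diagonal, ← RingHom.mapMatrix_apply, ← RingHom.map_det]
  simp [Fin.prod_univ_four]
  ring

/-- The Gram determinant of a corner. -/
lemma det_sq {a b r r' : V4} (hab : mink a b = 0) (hr : mink r r = 0) (hr' : mink r' r' = 0)
    (har : mink r a = 0) (har' : mink r' a = 0) (hbr : mink r b = 0) (hbr' : mink r' b = 0) :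
    (Matrix.of ![a, r, r', b]).det ^ 2 = mink r r' ^ 2 * (mink a a * mink b b) := by
  set P : Matrix (Fin 4) (Fin 4) ℝ := Matrix.of ![a, r, r', b] with hP
  have hG : P * Matrix.diagonal (![1, 1, 1, -1] : Fin 4 → ℝ) * Pᵀ =
      !![mink a a, 0, 0, 0; 0, 0, mink r r', 0; 0, mink r r', 0, 0; 0, 0, 0, mink b b] := by
    have hentry : ∀ i j, (P * Matrix.diagonal (![1, 1, 1, -1] : Fin 4 → ℝ) * Pᵀ) i j =
        mink (![a, r, r', b] i) (![a, r, r', b] j) := by
      intro i j
      rw [Matrix.mul_apply]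
      simp only [Matrix.mul_diagonal, Fin.sum_univ_four, Matrix.transpose_apply, hP,
        Matrix.of_apply, mink, cons_val]
      ring
    ext i j
    rw [hentry]
    fin_cases i <;> fin_cases j
    · rfl
    · show mink a r = 0
      rw [mink_comm, har]
    · show mink a r' = 0
      rw [mink_comm, har']
    · exact hab
    · exact har
    · exact hr
    · rfl
    · exact hbr
    · exact har'
    · show mink r' r = mink r r'
      rw [mink_comm]
    · exact hr'
    · exact hbr'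
    · show mink b a = 0
      rw [mink_comm, hab]
    · show mink b r = 0
      rw [mink_comm, hbr]
    · show mink b r' = 0
      rw [mink_comm, hbr']
    · rfl
  have hdet := congrArg Matrix.det hG
  rw [Matrix.det_mul, Matrix.det_mul, Matrix.det_transpose, Matrix.det_diagonal] at hdet
  have h1 : (!![mink a a, 0, 0, 0; 0, 0, mink r r', 0; 0, mink r r', 0, 0; 0, 0, 0, mink b b] :
      Matrix (Fin 4) (Fin 4) ℝ).det = - (mink r r' ^ 2 * (mink a a * mink b b)) := by
    rw [Matrix.det_succ_row_zero]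
    simp [Fin.sum_univ_succ, Matrix.det_succ_row_zero]
    ring
  rw [h1] at hdet
  simp only [Fin.prod_univ_four, cons_val] at hdet
  linarith

/-- Incident walls of different colours have classes related by `√d`. -/
lemma incident (hd : 0 < d) {a b r r' : V4} (ha : mink a a = 1) (hb : mink b b = 1)
    (hab : mink a b = 0) (hr : mink r r = 0)
    (hr' : mink r' r' = 0) (har : mink r a = 0) (har' : mink r' a = 0) (hbr : mink r b = 0)
    (hbr' : mink r' b = 0) (hrr' : mink r r' ≠ 0) (hq : VQ d r) (hq' : VQ d r') {κ κ' : ℝ}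
    (hκ : Cls d κ a) (hκ' : Cls d κ' b) : ∃ q : ℚ, κ * κ' = Real.sqrt d * q := by
  obtain ⟨n, hn, rfl⟩ := hκ
  obtain ⟨m, hm, rfl⟩ := hκ'
  have hκ0 : κ ≠ 0 := by
    rintro rfl
    rw [zero_smul, mink_zero_left] at ha
    norm_num at ha
  have hκ'0 : κ' ≠ 0 := by
    rintro rfl
    rw [zero_smul, mink_zero_left] at hb
    norm_num at hb
  rw [mink_smul_right] at har har' hbr hbr'
  have har1 := (mul_eq_zero.1 har).resolve_left hκ0
  have har1' := (mul_eq_zero.1 har').resolve_left hκ0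
  have hbr1 := (mul_eq_zero.1 hbr).resolve_left hκ'0
  have hbr1' := (mul_eq_zero.1 hbr').resolve_left hκ'0
  rw [mink_smul_left, mink_smul_right] at hab
  have hab1 := (mul_eq_zero.1 ((mul_eq_zero.1 hab).resolve_left hκ0)).resolve_left hκ'0
  rw [mink_smul_left, mink_smul_right] at ha hb
  have hdet := det_sq hab1 hr hr' har1 har1' hbr1 hbr1'
  obtain ⟨q, hqd⟩ := det_rational (d := d) (v := ![n, r, r', m]) (by
    intro i
    fin_cases i
    · exact hn
    · exact hq
    · exact hq'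
    · exact hm)
  obtain ⟨s, hs⟩ := hq.mink hq'
  rw [hqd, hs] at hdet
  rw [hs] at hrr'
  have hsd : Real.sqrt d * Real.sqrt d = d := Real.mul_self_sqrt (Nat.cast_nonneg d)
  have hdR : (0 : ℝ) < d := by exact_mod_cast hd
  -- (κ κ' √d q)² = s²
  have h1 : (κ * κ' * (Real.sqrt d * q)) ^ 2 = s ^ 2 := by
    have : (κ * κ' * (Real.sqrt d * q)) ^ 2 =
        (κ * κ') ^ 2 * (Real.sqrt d * q) ^ 2 := by ring
    rw [this, hdet]
    have : (κ * κ') ^ 2 * ((s : ℝ) ^ 2 * (mink n n * mink m m)) =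
        s ^ 2 * ((κ * (κ * mink n n)) * (κ' * (κ' * mink m m))) := by ring
    rw [this, ha, hb]; ring
  have hq0 : (q : ℝ) ≠ 0 := by
    intro h0
    rw [h0] at h1
    have : (s : ℝ) ^ 2 = 0 := by rw [← h1]; ring
    exact hrr' (by simpa using this)
  have h2 : κ * κ' * (Real.sqrt d * q) = s ∨ κ * κ' * (Real.sqrt d * q) = -s :=
    sq_eq_sq_iff_eq_or_eq_neg.1 h1
  rcases h2 with h2 | h2
  · refine ⟨s / (d * q), ?_⟩
    push_cast
    field_simp
    linear_combination Real.sqrt d * h2 - (κ * κ' * q) * hsd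
  · refine ⟨-s / (d * q), ?_⟩
    push_cast
    field_simp
    linear_combination Real.sqrt d * h2 - (κ * κ' * q) * hsd

/-- Passing from the class of one colour to the class of the other. -/
lemma cls_of_prod {κ κ₀ : ℝ} {a : V4} (h : Cls d κ a) {q q₀ : ℚ}
    (hprod : κ₀ * κ = Real.sqrt d * q) (h0 : κ₀ ^ 2 = q₀) (hκ₀ : κ₀ ≠ 0) :
    Cls d (Real.sqrt d * κ₀) a := by
  obtain ⟨n, hn, rfl⟩ := h
  refine ⟨((q / q₀ : ℚ) : ℝ) • n, hn.smul _, ?_⟩
  rw [smul_smul]
  congr 1
  push_cast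
  rw [← h0]
  field_simp
  linarith

lemma cls_of_prod' (hd : 0 < d) {κ κ₀ : ℝ} {a : V4} (h : Cls d κ a) {q q₀ : ℚ}
    (hprod : κ * (Real.sqrt d * κ₀) = Real.sqrt d * q) (h0 : κ₀ ^ 2 = q₀) (hκ₀ : κ₀ ≠ 0) :
    Cls d κ₀ a := by
  obtain ⟨n, hn, rfl⟩ := h
  have hs : 0 < Real.sqrt d := Real.sqrt_pos.2 (by exact_mod_cast hd)
  have hp : κ * κ₀ = q := by
    have : Real.sqrt d * (κ * κ₀) = Real.sqrt d * q := by linarith
    exact mul_left_cancel₀ hs.ne' this
  refine ⟨((q / q₀ : ℚ) : ℝ) • n, hn.smul _, ?_⟩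
  rw [smul_smul]
  congr 1
  push_cast
  rw [← h0, ← hp]
  field_simp

/-! ### Integrality of the entries of the Gram matrix -/

lemma int_of_four_sq {x : ℝ} {k : ℤ} {q : ℚ} (h : 4 * x ^ 2 = k) (hx : x = q) :
    ∃ m : ℤ, 2 * x = m := by
  have h1 : (2 * q) ^ 2 = (k : ℚ) := by
    have : ((2 * q) ^ 2 : ℝ) = k := by rw [← h, hx]; ring
    exact_mod_cast this
  have h2 : IsIntegral ℤ (2 * q : ℚ) := by
    apply IsIntegral.of_pow (n := 2) two_pos
    rw [h1]
    exact isIntegral_algebraMap (R := ℤ) (A := ℚ) (x := k)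
  obtain ⟨r, hr⟩ := (IsIntegrallyClosed.isIntegral_iff (R := ℤ) (K := ℚ)).1 h2
  refine ⟨r, ?_⟩
  rw [hx]
  have : ((r : ℚ) : ℝ) = ((2 * q : ℚ) : ℝ) := by rw [← hr]; simp
  push_cast at this
  linarith

lemma int_of_squarefree (hd : Squarefree d) {q : ℚ} {k : ℤ} (h : (d : ℚ) * q ^ 2 = k) :
    ∃ m : ℤ, q = m := by
  have hden : (q.den : ℤ) ^ 2 ∣ d := by
    have hq : q = q.num / q.den := (Rat.num_div_den q).symm
    have hd0 : (q.den : ℚ) ≠ 0 := by exact_mod_cast q.den_nz
    have h1 : (d : ℚ) * q.num ^ 2 = k * q.den ^ 2 := by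
      rw [hq] at h
      field_simp at h
      linarith
    have h2 : (d : ℤ) * q.num ^ 2 = k * q.den ^ 2 := by exact_mod_cast h1
    have h3 : (q.den : ℤ) ^ 2 ∣ d * q.num ^ 2 := ⟨k, by rw [h2]; ring⟩
    have hcop : IsCoprime ((q.den : ℤ) ^ 2) (q.num ^ 2) := by
      apply IsCoprime.pow
      rw [Int.isCoprime_iff_nat_coprime]
      simpa using q.reduced.symm
    exact hcop.dvd_of_dvd_mul_right h3
  have h4 : q.den * q.den ∣ d := by
    have : ((q.den * q.den : ℕ) : ℤ) ∣ (d : ℤ) := by push_cast; rwa [← pow_two]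
    exact_mod_cast this
  have h5 : q.den = 1 := Nat.isUnit_iff.1 (hd _ h4)
  refine ⟨q.num, ?_⟩
  rw [← Rat.den_eq_one_iff q |>.1 h5]
  simp

end Pool.Agent.Helper613.KN
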