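import Pool.Agent.Helper613.DHMink

set_option autoImplicit false

namespace Pool.Agent.Helper613.RA

open Pool.Agent.Helper613.DH

variable {n m : ℕ}

/-- A right-angled polytope of finite volume, with a point `o` in its interior. -/
structure Sys (e : Fin m → Fin (n + 1) → ℝ) (o : Fin (n + 1) → ℝ) : Prop where
  unit : ∀ i, mink (e i) (e i) = 1
  pair : ∀ i j, i ≠ j → mink (e i) (e j) = 0 ∨ mink (e i) (e j) ≤ -1
  ofwd : 0 < o (Fin.last n)
  otime : mink o o < 0
  oint : ∀ i, mink o (e i) < 0
  ball : ∀ z : Fin (n + 1) → ℝ, 0 < z (Fin.last n) → (∀ i, mink z (e i) ≤ 0) → mink z z ≤ 0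

/-- The cone over the polytope. -/
def InC (e : Fin m → Fin (n + 1) → ℝ) (z : Fin (n + 1) → ℝ) : Prop :=
  0 < z (Fin.last n) ∧ ∀ i, mink z (e i) ≤ 0

variable {e : Fin m → Fin (n + 1) → ℝ} {o : Fin (n + 1) → ℝ}

lemma mink_zero_right (z : Fin (n + 1) → ℝ) : mink z 0 = 0 := by
  rw [mink_comm, mink_zero_left]

lemma InC.smul {z : Fin (n + 1) → ℝ} (hz : InC e z) {c : ℝ} (hc : 0 < c) : InC e (c • z) := by
  refine ⟨?_, fun i => ?_⟩
  · simp only [Pi.smul_apply, smul_eq_mul]; exact mul_pos hc hz.1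
  · rw [mink_smul_left]; exact mul_nonpos_of_nonneg_of_nonpos hc.le (hz.2 i)

lemma Sys.fwd (S : Sys e o) {z : Fin (n + 1) → ℝ} (hz : InC e z) : Fwd z :=
  ⟨S.ball z hz.1 hz.2, hz.1⟩

lemma Sys.o_inC (S : Sys e o) : InC e o := ⟨S.ofwd, fun i => (S.oint i).le⟩

lemma Sys.o_fwd (S : Sys e o) : Fwd o := ⟨S.otime.le, S.ofwd⟩

lemma Sys.o_neg (S : Sys e o) {z : Fin (n + 1) → ℝ} (hz : Fwd z) : mink o z < 0 := by
  rw [mink_comm]; exact mink_neg hz S.o_fwd S.otime

/-- vectors orthogonal to a timelike vector are spacelike or zero -/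
lemma pos_of_orth {v w : Fin (n + 1) → ℝ} (hw : Fwd w) (hw' : mink w w < 0) (h : mink v w = 0)
    (hv : v ≠ 0) : 0 < mink v v := by
  by_contra hneg
  push Not at hneg
  rcases lt_trichotomy (v (Fin.last n)) 0 with h1 | h1 | h1
  · have := mink_neg (fwd_neg_of hneg h1) hw hw'
    rw [mink_neg_left] at this; linarith
  · exact hv (eq_zero_of_causal hneg h1)
  · have := mink_neg ⟨hneg, h1⟩ hw hw'
    linarith

/-- causal vectors orthogonal to an isotropic vector are multiples of it -/
lemma orth_iso {v z : Fin (n + 1) → ℝ} (hz : mink z z = 0) (hz' : 0 < z (Fin.last n))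
    (h : mink v z = 0) (hv : mink v v ≤ 0) : ∃ c : ℝ, v = c • z := by
  refine ⟨v (Fin.last n) / z (Fin.last n), ?_⟩
  have h0 : v - (v (Fin.last n) / z (Fin.last n)) • z = 0 := by
    apply eq_zero_of_causal
    · rw [mink_sub_left, mink_sub_right, mink_sub_right, mink_smul_left, mink_smul_right,
        mink_smul_left, mink_smul_right, hz, mink_comm z v, h]
      linarith
    · simp only [Pi.sub_apply, Pi.smul_apply, smul_eq_mul]; field_simp; ring
  exact sub_eq_zero.1 h0

/-- nonproportional forward isotropic vectors have negative product -/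
lemma iso_neg {x z : Fin (n + 1) → ℝ} (hz : mink z z = 0) (hz' : 0 < z (Fin.last n))
    (hx : Fwd x) (h : mink x z = 0) : ∃ c : ℝ, x = c • z := orth_iso hz hz' h hx.1

lemma Sys.pair' (S : Sys e o) {i j : Fin m} (hij : i ≠ j) :
    mink (e i) (e j) = 0 ∨ mink (e i) (e j) ≤ -1 := S.pair i j hij

/-- two facets through a point of the polytope inside hyperbolic space are orthogonal -/
lemma Sys.act_time (S : Sys e o) {z : Fin (n + 1) → ℝ} (hz : InC e z) (ht : mink z z < 0)
    {i j : Fin m} (hij : i ≠ j) (hi : mink z (e i) = 0) (hj : mink z (e j) = 0) :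
    mink (e i) (e j) = 0 := by
  rcases S.pair i j hij with h | h
  · exact h
  · exfalso
    have hne : e i + e j ≠ 0 := by
      intro h0
      have h1 := S.oint i
      have h2 := S.oint j
      have h3 : mink o (e i + e j) = 0 := by rw [h0, mink_zero_right]
      rw [mink_add_right] at h3
      linarith
    have h1 := pos_of_orth (v := e i + e j) (S.fwd hz) ht
      (by rw [mink_comm, mink_add_right, hi, hj, add_zero]) hne
    rw [mink_add_left, mink_add_right, mink_add_right, S.unit, S.unit, mink_comm (e j)] at h1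
    linarith

/-- two non-orthogonal facets through an ideal point of the polytope are parallel -/
lemma Sys.act_iso (S : Sys e o) {z : Fin (n + 1) → ℝ} (hz : InC e z) (ht : mink z z = 0)
    {i j : Fin m} (hij : i ≠ j) (hi : mink z (e i) = 0) (hj : mink z (e j) = 0)
    (hne : mink (e i) (e j) ≠ 0) : ∃ a : ℝ, 0 < a ∧ e i + e j = a • z := by
  have h : mink (e i) (e j) ≤ -1 := (S.pair i j hij).resolve_left hne
  obtain ⟨a, ha⟩ := orth_iso (v := e i + e j) ht hz.1
    (by rw [mink_comm, mink_add_right, hi, hj, add_zero])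
    (by
      rw [mink_add_left, mink_add_right, mink_add_right, S.unit, S.unit, mink_comm (e j)]
      linarith)
  refine ⟨a, ?_, ha⟩
  have h1 := S.oint i
  have h2 := S.oint j
  have h3 := S.o_neg (S.fwd hz)
  have h4 : mink o (e i) + mink o (e j) = a * mink o z := by
    rw [← mink_add_right, ha, mink_smul_right]
  by_contra hneg
  push Not at hneg
  have := mul_nonneg_of_nonpos_of_nonpos hneg h3.le
  linarith

/-- small displacements -/
lemma perturb {z w : Fin (n + 1) → ℝ} (hz : InC e z)
    (hw : ∀ i, mink z (e i) = 0 → mink w (e i) ≤ 0) : ∃ t : ℝ, 0 < t ∧ InC e (z + t • w) := by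
  have h1 : ∀ᶠ t in nhdsWithin (0 : ℝ) (Set.Ioi 0), 0 < t := self_mem_nhdsWithin
  have h2 : ∀ᶠ t in nhdsWithin (0 : ℝ) (Set.Ioi 0), 0 < (z + t • w) (Fin.last n) := by
    have hc : Continuous fun t : ℝ => (z + t • w) (Fin.last n) := by
      simp only [Pi.add_apply, Pi.smul_apply, smul_eq_mul]; fun_prop
    have : ∀ᶠ t in nhds (0 : ℝ), 0 < (z + t • w) (Fin.last n) :=
      hc.continuousAt.eventually (lt_mem_nhds (by simpa using hz.1))
    exact this.filter_mono nhdsWithin_le_nhds
  have h3 : ∀ i, ∀ᶠ t in nhdsWithin (0 : ℝ) (Set.Ioi 0), mink (z + t • w) (e i) ≤ 0 := by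
    intro i
    rcases (hz.2 i).lt_or_eq with hi | hi
    · have hc : Continuous fun t : ℝ => mink (z + t • w) (e i) := by
        simp only [mink_add_left, mink_smul_left]; fun_prop
      have : ∀ᶠ t in nhds (0 : ℝ), mink (z + t • w) (e i) < 0 :=
        hc.continuousAt.eventually (gt_mem_nhds (by simpa using hi))
      exact (this.filter_mono nhdsWithin_le_nhds).mono fun t ht => ht.le
    · filter_upwards [h1] with t ht
      rw [mink_add_left, mink_smul_left, hi, zero_add]
      exact mul_nonpos_of_nonneg_of_nonpos ht.le (hw i hi)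
  have h4 := Filter.eventually_all.2 h3
  obtain ⟨t, ht1, ht2, ht3⟩ := (h1.and (h2.and h4)).exists
  exact ⟨t, ht1, ht2, ht3⟩

/-- The link of an ideal vertex is compact. -/
lemma Sys.link (S : Sys e o) {z w : Fin (n + 1) → ℝ} (hz : InC e z) (ht : mink z z = 0)
    (hzw : mink w z = 0) (hw : ∀ i, mink z (e i) = 0 → mink w (e i) ≤ 0) : mink w w ≤ 0 := by
  obtain ⟨t, ht0, hC⟩ := perturb hz hw
  have h := S.ball _ hC.1 hC.2
  rw [mink_add_left, mink_add_right, mink_add_right, mink_smul_left, mink_smul_right,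
    mink_smul_left, mink_smul_right, ht, mink_comm z w, hzw] at h
  by_contra hneg
  push Not at hneg
  have := mul_pos ht0 (mul_pos ht0 hneg)
  linarith

/-- every facet through an ideal vertex has an opposite one -/
lemma Sys.box (S : Sys e o) {z : Fin (n + 1) → ℝ} (hz : InC e z) (ht : mink z z = 0) {i : Fin m}
    (hi : mink z (e i) = 0) : ∃ j, mink z (e j) = 0 ∧ ∃ a : ℝ, 0 < a ∧ e i + e j = a • z := by
  by_contra hcon
  push Not at hcon
  have h := S.link (w := - e i) hz ht (by rw [mink_neg_left, mink_comm, hi, neg_zero]) (by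
    intro j hj
    rw [mink_neg_left]
    by_cases hij : i = j
    · rw [← hij, S.unit]; norm_num
    · by_cases h0 : mink (e i) (e j) = 0
      · rw [h0, neg_zero]
      · obtain ⟨a, ha, haz⟩ := S.act_iso hz ht hij hi hj h0
        exact absurd haz (hcon j hj a ha))
  rw [mink_neg_left, mink_neg_right, S.unit] at h
  norm_num at h

/-- the facets through an ideal vertex span -/
lemma Sys.span_iso (S : Sys e o) {z w : Fin (n + 1) → ℝ} (hz : InC e z) (ht : mink z z = 0)
    (hzw : mink w z = 0) (hw : ∀ i, mink z (e i) = 0 → mink w (e i) = 0) :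
    ∃ c : ℝ, w = c • z :=
  orth_iso ht hz.1 hzw (S.link hz ht hzw fun i hi => (hw i hi).le)

/-- Following an edge. -/
lemma edge_step {x z' : Fin (n + 1) → ℝ} (hx : InC e x) (hz' : 0 ≤ z' (Fin.last n))
    (h : ∀ i, mink x (e i) = 0 → mink z' (e i) ≤ 0) (hn : ¬ ∀ i, mink z' (e i) ≤ 0) :
    ∃ t : ℝ, 0 < t ∧ InC e (x + t • z') ∧ ∃ k, mink x (e k) < 0 ∧ mink (x + t • z') (e k) = 0 ∧
      0 < mink z' (e k) := by
  have hne : (Finset.univ.filter fun k => 0 < mink z' (e k)).Nonempty := by
    push Not at hn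
    obtain ⟨k, hk⟩ := hn
    exact ⟨k, by simp [hk]⟩
  obtain ⟨k, hk, hmin⟩ := Finset.exists_min_image _ (fun k => - mink x (e k) / mink z' (e k)) hne
  simp only [Finset.mem_filter, Finset.mem_univ, true_and] at hk hmin
  have hxk : mink x (e k) < 0 := by
    refine lt_of_le_of_ne (hx.2 k) fun h0 => ?_
    exact absurd (h k h0) (not_le.2 hk)
  have ht : 0 < - mink x (e k) / mink z' (e k) := div_pos (by linarith) hk
  refine ⟨- mink x (e k) / mink z' (e k), ht, ⟨?_, fun i => ?_⟩, k, hxk, ?_, hk⟩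
  · simp only [Pi.add_apply, Pi.smul_apply, smul_eq_mul]
    have := hx.1
    have := mul_nonneg ht.le hz'
    linarith
  · rw [mink_add_left, mink_smul_left]
    rcases le_or_gt (mink z' (e i)) 0 with hi | hi
    · have := mul_nonpos_of_nonneg_of_nonpos ht.le hi
      have := hx.2 i
      linarith
    · have h1 := hmin i hi
      rw [le_div_iff₀ hi] at h1
      linarith
  · rw [mink_add_left, mink_smul_left]
    field_simp; ring

/-- A vertex (finite or ideal) of the polytope. -/
def Vtx (e : Fin m → Fin (n + 1) → ℝ) (x : Fin (n + 1) → ℝ) : Prop :=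
  InC e x ∧ ∀ w : Fin (n + 1) → ℝ, (∀ i, mink x (e i) = 0 → mink w (e i) = 0) → ∃ c : ℝ, w = c • x

lemma Vtx.smul {x : Fin (n + 1) → ℝ} (hx : Vtx e x) {c : ℝ} (hc : 0 < c) : Vtx e (c • x) := by
  refine ⟨hx.1.smul hc, fun w hw => ?_⟩
  obtain ⟨c', hc'⟩ := hx.2 w (fun i hi => hw i (by rw [mink_smul_left, hi, mul_zero]))
  refine ⟨c' / c, ?_⟩
  rw [hc', smul_smul]; congr 1; field_simp

/-- The polytope has a vertex. -/
lemma Sys.exists_vtx (S : Sys e o) : ∃ x, Vtx e x := by
  classical
  -- maximal number of active facets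
  obtain ⟨A, hA⟩ : ∃ A : Finset (Fin m), (∃ x, InC e x ∧ (Finset.univ.filter fun i =>
      mink x (e i) = 0) = A) ∧ ∀ B : Finset (Fin m), (∃ x, InC e x ∧ (Finset.univ.filter fun i =>
      mink x (e i) = 0) = B) → B.card ≤ A.card := by
    obtain ⟨A, hA, hmax⟩ := Finset.exists_max_image (Finset.univ.filter fun A : Finset (Fin m) =>
      ∃ x, InC e x ∧ (Finset.univ.filter fun i => mink x (e i) = 0) = A) Finset.card
      ⟨_, Finset.mem_filter.2 ⟨Finset.mem_univ _, o, S.o_inC, rfl⟩⟩
    refine ⟨A, (Finset.mem_filter.1 hA).2, fun B hB => hmax B ?_⟩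
    exact Finset.mem_filter.2 ⟨Finset.mem_univ _, hB⟩
  obtain ⟨⟨x, hx, hxA⟩, hmax⟩ := hA
  refine ⟨x, hx, fun w hw => ?_⟩
  by_contra hcon
  push Not at hcon
  -- normalise `w`
  set w' := w - (w (Fin.last n) / x (Fin.last n)) • x with hw'
  have hx3 := hx.1
  have hw'0 : w' (Fin.last n) = 0 := by
    rw [hw']; simp only [Pi.sub_apply, Pi.smul_apply, smul_eq_mul]; field_simp; ring
  have hw'ne : w' ≠ 0 := fun h0 => hcon _ (sub_eq_zero.1 h0)
  have hw'act : ∀ i, mink x (e i) = 0 → mink w' (e i) = 0 := by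
    intro i hi
    rw [hw', mink_sub_left, mink_smul_left, hi, hw i hi]; ring
  have hw'pos : 0 < mink w' w' := by
    by_contra hneg
    push Not at hneg
    exact hw'ne (eq_zero_of_causal hneg hw'0)
  have hn : ¬ ∀ i, mink w' (e i) ≤ 0 := by
    intro hall
    -- far along the ray we leave the ball
    have hin : ∀ t : ℝ, 0 ≤ t → InC e (x + t • w') := by
      intro t ht
      refine ⟨?_, fun i => ?_⟩
      · simp only [Pi.add_apply, Pi.smul_apply, smul_eq_mul, hw'0]; linarith
      · rw [mink_add_left, mink_smul_left]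
        have := mul_nonpos_of_nonneg_of_nonpos ht (hall i)
        have := hx.2 i
        linarith
    set t := (|mink x x| + 2 * |mink x w'|) / mink w' w' + 1 with ht
    have ht0 : 0 ≤ t := by positivity
    have ht1 : 1 ≤ t := by
      have : 0 ≤ (|mink x x| + 2 * |mink x w'|) / mink w' w' := by positivity
      linarith
    have h1 := S.ball _ (hin t ht0).1 (hin t ht0).2
    rw [mink_add_left, mink_add_right, mink_add_right, mink_smul_left, mink_smul_right,
      mink_smul_left, mink_smul_right, mink_comm w' x] at h1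
    have h2 : t * mink w' w' = |mink x x| + 2 * |mink x w'| + mink w' w' := by
      rw [ht]; field_simp
    have h3 := neg_abs_le (mink x x)
    have h4 := neg_abs_le (mink x w')
    have h5 : t * (t * mink w' w') = t * (|mink x x| + 2 * |mink x w'| + mink w' w') := by rw [h2]
    have h6 := abs_nonneg (mink x x)
    have h7 := abs_nonneg (mink x w')
    nlinarith
  obtain ⟨t, ht, hC, k, hk1, hk2, -⟩ := edge_step (z' := w') hx hw'0.ge
    (fun i hi => (hw'act i hi).le) hn
  have hcard := hmax _ ⟨_, hC, rfl⟩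
  have hss : A ⊂ (Finset.univ.filter fun i => mink (x + t • w') (e i) = 0) := by
    rw [← hxA]
    refine ⟨fun i hi => ?_, fun hsub => ?_⟩
    · have hi' := (Finset.mem_filter.1 hi).2
      refine Finset.mem_filter.2 ⟨Finset.mem_univ _, ?_⟩
      rw [mink_add_left, mink_smul_left, hi', hw'act i hi', mul_zero, add_zero]
    · have := hsub (Finset.mem_filter.2 ⟨Finset.mem_univ k, hk2⟩)
      exact hk1.ne (Finset.mem_filter.1 this).2
  exact absurd (Finset.card_lt_card hss) (not_lt.2 hcard)

end Pool.Agent.Helper613.RA
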