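import Pool.Agent.Helper613.RAMain

set_option autoImplicit false

namespace Pool.Agent.Helper613.RA

open Pool.Agent.Helper613.DH

variable {n m : ℕ} {e : Fin m → Fin (n + 1) → ℝ} {o : Fin (n + 1) → ℝ}

lemma Sys.finite_NI (S : Sys e o) : {ε | NI e ε}.Finite := by
  classical
  apply Set.Finite.of_finite_image (f := fun ε => Finset.univ.filter fun i => mink ε (e i) = 0)
    (Set.toFinite _)
  intro ε hε δ hδ h
  simp only [Set.mem_ofPred_eq] at hε hδ
  have hact : ∀ i, mink ε (e i) = 0 ↔ mink δ (e i) = 0 := by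
    intro i
    have : (i ∈ Finset.univ.filter fun i => mink ε (e i) = 0) ↔
        (i ∈ Finset.univ.filter fun i => mink δ (e i) = 0) := by
      have h' : (Finset.univ.filter fun i => mink ε (e i) = 0) =
        (Finset.univ.filter fun i => mink δ (e i) = 0) := h
      rw [h']
    simpa using this
  obtain ⟨i, j, hi, hj, hij⟩ := hε.one
  obtain ⟨i', j', hi', hj', hij'⟩ := hδ.one
  obtain ⟨c, hc⟩ := S.span_iso (w := δ) hε.inC hε.iso (by
    rw [← hij, mink_add_right, (hact i).1 hi, (hact j).1 hj, add_zero])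
    (fun k hk => (hact k).1 hk)
  have hcpos : 0 < c := by
    have h1 := hδ.inC.1
    rw [hc] at h1
    simp only [Pi.smul_apply, smul_eq_mul] at h1
    exact pos_of_mul_pos_left h1 hε.inC.1.le
  have h1 : 1 ≤ c := hε.ge i' j' c ((hact i').2 hi') ((hact j').2 hj') (by rw [hij', hc])
  have h2 : 1 ≤ c⁻¹ := hδ.ge i j c⁻¹ ((hact i).1 hi) ((hact j).1 hj) (by
    rw [hij, hc, smul_smul, inv_mul_cancel₀ hcpos.ne', one_smul])
  have h3 : c ≤ 1 := by
    have := (le_inv_comm₀ one_pos hcpos).1 h2
    rwa [inv_one] at this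
  have : c = 1 := le_antisymm h3 h1
  rw [hc, this, one_smul]

lemma Sys.finite_vtx (S : Sys e o) : {x | Vtx e x ∧ mink x x = -1}.Finite := by
  classical
  apply Set.Finite.of_finite_image (f := fun ε => Finset.univ.filter fun i => mink ε (e i) = 0)
    (Set.toFinite _)
  rintro x ⟨hx, hxx⟩ y ⟨hy, hyy⟩ h
  have hact : ∀ i, mink x (e i) = 0 ↔ mink y (e i) = 0 := by
    intro i
    have : (i ∈ Finset.univ.filter fun i => mink x (e i) = 0) ↔
        (i ∈ Finset.univ.filter fun i => mink y (e i) = 0) := by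
      have h' : (Finset.univ.filter fun i => mink x (e i) = 0) =
        (Finset.univ.filter fun i => mink y (e i) = 0) := h
      rw [h']
    simpa using this
  obtain ⟨c, hc⟩ := hx.2 y (fun k hk => (hact k).1 hk)
  have hcpos : 0 < c := by
    have h1 := hy.1.1
    rw [hc] at h1
    simp only [Pi.smul_apply, smul_eq_mul] at h1
    exact pos_of_mul_pos_left h1 hx.1.1.le
  rw [hc, mink_smul_left, mink_smul_right, hxx] at hyy
  have : c = 1 := by nlinarith
  rw [hc, this, one_smul]

/-- There is no right-angled polytope of finite volume in dimension at least `9`. -/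
theorem no_sys (hn : 9 ≤ n) : ¬ Sys e o := by
  classical
  intro S
  have hvtx := S.finite_vtx
  -- a bound for the finite vertices in terms of the ideal ones
  have hbound : ∀ H : ℝ, (∀ ε, NI e ε → - mink o ε ≤ H) → ∀ x, Vtx e x → mink x x = -1 →
      - mink o x < 3 / 2 * H := by
    intro H hH x hx hxx
    obtain ⟨y, ⟨hy, hyy⟩, hmax⟩ := Set.exists_max_image _ (fun x => - mink o x) hvtx ⟨x, hx, hxx⟩
    have h1 := S.vertex_bound hn hH hy hyy (fun z hz hzz => hmax z ⟨hz, hzz⟩)
    have h2 := hmax x ⟨hx, hxx⟩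
    linarith
  -- there is an ideal vertex
  have hne : {ε | NI e ε}.Nonempty := by
    by_contra hempty
    rw [Set.not_nonempty_iff_eq_empty] at hempty
    have hno : ∀ ε, ¬ NI e ε := fun ε hε => by
      have : ε ∈ {ε | NI e ε} := hε
      rw [hempty] at this
      exact this
    obtain ⟨x, hx⟩ := S.exists_vtx
    have hxx := S.ball x hx.1.1 hx.1.2
    rcases hxx.lt_or_eq with hlt | heq
    · -- finite vertex
      set c := (Real.sqrt (- mink x x))⁻¹ with hc
      have hpos : 0 < Real.sqrt (- mink x x) := Real.sqrt_pos.2 (by linarith)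
      have hcpos : 0 < c := inv_pos.2 hpos
      have hunit : mink (c • x) (c • x) = -1 := by
        rw [mink_smul_left, mink_smul_right, hc]
        have h2 := Real.sq_sqrt (show 0 ≤ - mink x x by linarith)
        field_simp
        linarith
      have h1 := hbound 0 (fun ε hε => absurd hε (hno ε)) _ (hx.smul hcpos) hunit
      have h2 := S.o_neg (S.fwd (hx.smul hcpos).1)
      linarith
    · obtain ⟨A, hA⟩ := S.exists_corner hx.1 heq
      have hcard := hA.card S hx.1 heq
      obtain ⟨i, hi⟩ : A.Nonempty := by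
        rw [← Finset.card_pos]; omega
      obtain ⟨c, -, hNI⟩ := S.exists_NI hx.1 heq (hA.act i hi)
      exact hno _ hNI
  -- the highest ideal vertex
  obtain ⟨ε, hε, hmax⟩ := Set.exists_max_image _ (fun x => - mink o x) S.finite_NI hne
  simp only [Set.mem_ofPred_eq] at hε hmax
  have hC := hbound (- mink o ε) hmax
  obtain ⟨A, hA⟩ := S.exists_corner hε.inC hε.iso
  obtain ⟨f, hf, hinj, B, hB, hfB⟩ := hA.opposite S hε.inC hε.iso
  have h1 := S.corner_bound hn hε hmax hC hA
  have h2 := S.corner_bound hn hε hmax hC hB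
  have h3 : ∑ i ∈ A, mink o (e (f i)) ^ 2 ≤ ∑ i ∈ B, mink o (e i) ^ 2 := by
    rw [← Finset.sum_image (f := fun i => mink o (e i) ^ 2) (g := f) (s := A)
      (fun i hi j hj h => hinj i hi j hj h)]
    apply Finset.sum_le_sum_of_subset_of_nonneg
    · intro j hj
      obtain ⟨i, hi, rfl⟩ := Finset.mem_image.1 hj
      exact hfB i hi
    · intro _ _ _; exact sq_nonneg _
  have hcard := hA.card S hε.inC hε.iso
  set H := - mink o ε with hH
  have hHpos : 0 < H := by have := S.o_neg (S.fwd hε.inC); linarith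
  have h4 : ∑ i ∈ A, H ^ 2 / 2 ≤ ∑ i ∈ A, (mink o (e i) ^ 2 + mink o (e (f i)) ^ 2) := by
    apply Finset.sum_le_sum
    intro i hi
    obtain ⟨hfi, a, ha⟩ := hf i hi
    have ha1 := hε.ge i (f i) a (hA.act i hi) hfi ha
    have h5 : mink o (e i) + mink o (e (f i)) = - (a * H) := by
      rw [← mink_add_right, ha, mink_smul_right, hH]; ring
    have h6 : H ≤ a * H := le_mul_of_one_le_left hHpos.le ha1
    have h7 : H ^ 2 ≤ (mink o (e i) + mink o (e (f i))) ^ 2 := by
      have h8 : (mink o (e i) + mink o (e (f i))) ^ 2 = (a * H) ^ 2 := by rw [h5]; ring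
      rw [h8]
      exact pow_le_pow_left₀ hHpos.le h6 2
    nlinarith [sq_nonneg (mink o (e i) - mink o (e (f i)))]
  rw [Finset.sum_const, nsmul_eq_mul, Finset.sum_add_distrib] at h4
  have h8 : (8 : ℝ) ≤ A.card := by
    have : 8 ≤ A.card := by omega
    exact_mod_cast this
  have h9 : 8 * (H ^ 2 / 2) ≤ A.card * (H ^ 2 / 2) :=
    mul_le_mul_of_nonneg_right h8 (by positivity)
  linarith

end Pool.Agent.Helper613.RA
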