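import Pool.Agent.Helper613.RAVtx

set_option autoImplicit false

namespace Pool.Agent.Helper613.RA

open Pool.Agent.Helper613.DH

variable {n m : ℕ} {e : Fin m → Fin (n + 1) → ℝ} {o : Fin (n + 1) → ℝ}

lemma gamma_third {γ σ : ℝ} (hγ : 0 < γ) (h : γ ^ 2 = 1 + σ ^ 2) (hσ : 3 / 4 ≤ σ) :
    σ / 3 ≤ γ - 1 := by
  by_contra hlt
  push Not at hlt
  nlinarith

lemma gamma_half {γ σ : ℝ} (hγ : 0 < γ) (h : γ ^ 2 = 1 + σ ^ 2) (hσ : 4 / 3 ≤ σ) :
    σ / 2 ≤ γ - 1 := by
  by_contra hlt
  push Not at hlt
  nlinarith

/-- The finite vertex farthest from `o` is not too far. -/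
lemma Sys.vertex_bound (S : Sys e o) (hn : 9 ≤ n) {H : ℝ}
    (hH : ∀ ε, NI e ε → - mink o ε ≤ H) {x : Fin (n + 1) → ℝ} (hx : Vtx e x)
    (hxx : mink x x = -1)
    (hmax : ∀ y, Vtx e y → mink y y = -1 → - mink o y ≤ - mink o x) :
    - mink o x < 3 / 2 * H := by
  classical
  by_contra hcon
  push Not at hcon
  have hxt : mink x x < 0 := by rw [hxx]; norm_num
  set C := - mink o x with hC
  have hCpos : 0 < C := by have := S.o_neg (S.fwd hx.1); linarith
  set I := Finset.univ.filter fun i => mink x (e i) = 0 with hI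
  have hImem : ∀ i, i ∈ I ↔ mink x (e i) = 0 := fun i => by rw [hI]; simp
  obtain ⟨-, hcard⟩ := vtx_card S hx hxx hImem
  have hsum : ∑ i ∈ I, mink o (e i) ^ 2 < C ^ 2 := by
    rw [vtx_norm S hx hxx hImem o]
    have := S.otime
    rw [hC, neg_sq]; linarith
  have horth : ∀ i j, mink x (e i) = 0 → mink x (e j) = 0 → i ≠ j → mink (e i) (e j) = 0 :=
    fun i j hi hj hij => S.act_time hx.1 hxt hij hi hj
  -- types of the edges
  have htype : ∀ i, mink x (e i) = 0 →
      (∃ τ : ℝ, 1 ≤ τ ∧ NI e (τ • (x - e i)) ∧ τ * (C + mink o (e i)) ≤ H) ∨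
      (∃ (k : Fin m) (σ γ : ℝ), 0 < σ ∧ 0 < γ ∧ γ ^ 2 = 1 + σ ^ 2 ∧ e k = σ • x - γ • e i ∧
        (γ - 1) * C ≤ σ * (- mink o (e i))) := by
    intro i hi
    rcases S.finite_edge hx hxx hi with h | ⟨k, σ, γ, hσ, hγ, hγσ, hk, hv⟩
    · left
      have hiso : mink (x - e i) (x - e i) = 0 := by
        rw [mink_sub_left, mink_sub_right, mink_sub_right, hxx, S.unit, hi, mink_comm (e i), hi]
        ring
      -- some other facet is active at `x - e i`
      obtain ⟨j, hj, hij⟩ : ∃ j ∈ I, j ≠ i := by
        by_contra hno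
        push Not at hno
        have : I ⊆ {i} := fun j hj => Finset.mem_singleton.2 (hno j hj)
        have := Finset.card_le_card this
        rw [Finset.card_singleton] at this
        omega
      have hj' := (hImem j).1 hj
      obtain ⟨τ, hτ, hNI⟩ := S.exists_NI h hiso (i := j) (by
        rw [mink_sub_left, hj', horth i j hi hj' hij.symm, sub_zero])
      have h1 : mink (τ • (x - e i)) (e i) = -τ := by
        rw [mink_smul_left, mink_sub_left, hi, S.unit]; ring
      have h2 := S.NI_facet hNI (k := i) (by rw [h1]; linarith)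
      rw [h1] at h2
      refine ⟨τ, by linarith, hNI, ?_⟩
      have h3 := hH _ hNI
      rw [mink_smul_right, mink_sub_right] at h3
      rw [hC]; linarith
    · right
      have hunit : mink (γ • x - σ • e i) (γ • x - σ • e i) = -1 := by
        rw [mink_sub_left, mink_sub_right, mink_sub_right, mink_smul_left, mink_smul_right,
          mink_smul_left, mink_smul_right, mink_smul_left, mink_smul_right, mink_smul_left,
          mink_smul_right, hxx, S.unit, hi, mink_comm (e i) x, hi]
        linarith
      have h1 := hmax _ hv hunit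
      rw [mink_sub_right, mink_smul_right, mink_smul_right] at h1
      refine ⟨k, σ, γ, hσ, hγ, hγσ, hk, ?_⟩
      have h2 : mink o x = -C := by rw [hC]; ring
      rw [h2] at h1
      linarith
  by_cases hall : ∀ i ∈ I, C / 3 ≤ - mink o (e i)
  · have h1 : ∑ i ∈ I, (C / 3) ^ 2 ≤ ∑ i ∈ I, mink o (e i) ^ 2 := by
      apply Finset.sum_le_sum
      intro i hi
      have h2 := hall i hi
      have h3 : 0 ≤ C / 3 := by positivity
      nlinarith
    rw [Finset.sum_const, nsmul_eq_mul] at h1
    have h2 : (9 : ℝ) ≤ I.card := by exact_mod_cast (hn.trans hcard)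
    nlinarith [sq_nonneg C]
  · push Not at hall
    obtain ⟨j, hjI, hj⟩ := hall
    have hj' := (hImem j).1 hjI
    rcases htype j hj' with ⟨τ, hτ, -, hτ2⟩ | ⟨k, σ, γ, hσ, hγ, hγσ, hk, hσ2⟩
    · nlinarith
    · have hσ34 : σ < 3 / 4 := by
        by_contra hge
        push Not at hge
        have h1 := gamma_third hγ hγσ hge
        nlinarith
      have hoth : ∀ i ∈ I.erase j, C / 2 ≤ - mink o (e i) := by
        intro i hi
        obtain ⟨hij, hiI⟩ := Finset.mem_erase.1 hi
        have hi' := (hImem i).1 hiI
        rcases htype i hi' with ⟨τ, hτ, hNI, hτ2⟩ | ⟨k', σ', γ', hσ', hγ', hγσ', hk', hσ2'⟩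
        · have h1 : mink (τ • (x - e i)) (e k) = -(τ * σ) := by
            rw [hk, mink_smul_left, mink_sub_left, mink_sub_right, mink_sub_right,
              mink_smul_right, mink_smul_right, mink_smul_right, mink_smul_right, hxx, hj',
              mink_comm (e i) x, hi', horth i j hi' hj' hij]
            ring
          have hτpos : 0 < τ := by linarith
          have h2 := S.NI_facet hNI (k := k) (by rw [h1]; have := mul_pos hτpos hσ; linarith)
          rw [h1] at h2
          have h3 : 4 / 3 ≤ τ := by
            by_contra hlt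
            push Not at hlt
            nlinarith
          nlinarith
        · have h1 : mink (e k') (e k) = -(σ' * σ) := by
            rw [hk, hk', mink_sub_left, mink_sub_right, mink_sub_right, mink_smul_left,
              mink_smul_left, mink_smul_left, mink_smul_left,
              mink_smul_right, mink_smul_right, mink_smul_right, mink_smul_right, hxx, hj',
              mink_comm (e i) x, hi', horth i j hi' hj' hij]
            ring
          have h2 : mink (e k') (e k) < 0 := by rw [h1]; have := mul_pos hσ' hσ; linarith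
          have hkk : k' ≠ k := by
            rintro rfl
            rw [S.unit] at h2; norm_num at h2
          have h3 : mink (e k') (e k) ≤ -1 := (S.pair k' k hkk).resolve_left h2.ne
          rw [h1] at h3
          have h4 : 4 / 3 ≤ σ' := by
            by_contra hlt
            push Not at hlt
            nlinarith
          have h5 := gamma_half hγ' hγσ' h4
          have h6 : σ' * (C / 2) ≤ σ' * (- mink o (e i)) := by nlinarith
          exact le_of_mul_le_mul_left h6 hσ'
      have h1 : ∑ i ∈ I.erase j, (C / 2) ^ 2 ≤ ∑ i ∈ I.erase j, mink o (e i) ^ 2 := by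
        apply Finset.sum_le_sum
        intro i hi
        have h2 := hoth i hi
        have h3 : 0 ≤ C / 2 := by positivity
        nlinarith
      rw [Finset.sum_const, nsmul_eq_mul, Finset.card_erase_of_mem hjI] at h1
      have h2 : (8 : ℝ) ≤ ((I.card - 1 : ℕ) : ℝ) := by
        have : 8 ≤ I.card - 1 := by omega
        exact_mod_cast this
      have h3 : ∑ i ∈ I.erase j, mink o (e i) ^ 2 ≤ ∑ i ∈ I, mink o (e i) ^ 2 :=
        Finset.sum_le_sum_of_subset_of_nonneg (Finset.erase_subset _ _)
          fun _ _ _ => sq_nonneg _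
      nlinarith [sq_nonneg C]

/-! ### Corners of an ideal vertex -/

/-- A corner of an ideal vertex: one facet from each pair of opposite facets. -/
structure Corner (e : Fin m → Fin (n + 1) → ℝ) (z : Fin (n + 1) → ℝ) (A : Finset (Fin m)) :
    Prop where
  act : ∀ i ∈ A, mink z (e i) = 0
  orth : ∀ i ∈ A, ∀ j ∈ A, i ≠ j → mink (e i) (e j) = 0
  cov : ∀ i, mink z (e i) = 0 → i ∈ A ∨ ∃ j ∈ A, ∃ a : ℝ, e i + e j = a • z

lemma Sys.exists_corner (S : Sys e o) {z : Fin (n + 1) → ℝ} (hz : InC e z) (ht : mink z z = 0) :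
    ∃ A, Corner e z A := by
  classical
  obtain ⟨A, hA, hmax⟩ := Finset.exists_max_image (Finset.univ.filter fun A : Finset (Fin m) =>
      (∀ i ∈ A, mink z (e i) = 0) ∧ ∀ i ∈ A, ∀ j ∈ A, i ≠ j → mink (e i) (e j) = 0)
      Finset.card ⟨∅, by simp⟩
  simp only [Finset.mem_filter, Finset.mem_univ, true_and] at hA hmax
  refine ⟨A, hA.1, hA.2, fun i hi => ?_⟩
  by_contra hcon
  push Not at hcon
  obtain ⟨hiA, hcon⟩ := hcon
  have hno : ∀ j ∈ A, mink (e i) (e j) = 0 := by
    intro j hj
    by_contra hne
    obtain ⟨a, -, ha⟩ := S.act_iso hz ht (by rintro rfl; exact hiA hj) hi (hA.1 j hj) hne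
    exact hcon j hj a ha
  have h1 := hmax (insert i A) ⟨by
    intro j hj
    rcases Finset.mem_insert.1 hj with rfl | hj
    · exact hi
    · exact hA.1 j hj, by
    intro j hj k hk hjk
    rcases Finset.mem_insert.1 hj with hj | hj <;> rcases Finset.mem_insert.1 hk with hk | hk
    · exact absurd (hj.trans hk.symm) hjk
    · rw [hj]; exact hno k hk
    · rw [hk, mink_comm]; exact hno j hj
    · exact hA.2 j hj k hk hjk⟩
  rw [Finset.card_insert_of_notMem hiA] at h1
  omega

lemma Corner.span {A : Finset (Fin m)} {z : Fin (n + 1) → ℝ} (hc : Corner e z A) (S : Sys e o)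
    (hz : InC e z) (ht : mink z z = 0) {w : Fin (n + 1) → ℝ} (hwz : mink w z = 0)
    (hw : ∀ i ∈ A, mink w (e i) = 0) : ∃ c : ℝ, w = c • z := by
  apply S.span_iso hz ht hwz
  intro i hi
  rcases hc.cov i hi with h | ⟨j, hj, a, ha⟩
  · exact hw i h
  · have : e i = a • z - e j := by rw [← ha]; abel
    rw [this, mink_sub_right, mink_smul_right, hwz, hw j hj]; ring

/-- decomposition of a vector along a corner -/
lemma Corner.decomp {A : Finset (Fin m)} {z z' : Fin (n + 1) → ℝ} (hc : Corner e z A)
    (S : Sys e o) (hz : InC e z) (ht : mink z z = 0) (hz' : mink z' z' = 0)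
    (hzz' : mink z z' ≠ 0) (hA : ∀ i ∈ A, mink z' (e i) = 0) (w : Fin (n + 1) → ℝ) :
    w = (mink w z' / mink z z') • z + (mink w z / mink z z') • z' +
      ∑ i ∈ A, mink w (e i) • e i := by
  classical
  obtain ⟨c, hcw⟩ := hc.span S hz ht
    (w := w - (mink w z / mink z z') • z' - ∑ i ∈ A, mink w (e i) • e i) (by
      rw [mink_sub_left, mink_sub_left, mink_smul_left, mink_sum_left, Finset.sum_eq_zero,
        mink_comm z' z]
      · field_simp; ring
      · intro i hi
        rw [mink_smul_left, mink_comm (e i) z, hc.act i hi, mul_zero]) (by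
      intro j hj
      rw [mink_sub_left, mink_sub_left, mink_smul_left, mink_sum_left, hA j hj,
        Finset.sum_eq_single_of_mem j hj]
      · rw [mink_smul_left, S.unit]; ring
      · intro i hi hij
        rw [mink_smul_left, hc.orth i hi j hj hij, mul_zero])
  have hw : w = c • z + (mink w z / mink z z') • z' + ∑ i ∈ A, mink w (e i) • e i := by
    rw [← hcw]; abel
  have hcz' : mink w z' = c * mink z z' := by
    conv_lhs => rw [hw]
    rw [mink_add_left, mink_add_left, mink_smul_left, mink_smul_left, hz', mink_sum_left,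
      Finset.sum_eq_zero]
    · ring
    · intro i hi
      rw [mink_smul_left, mink_comm (e i) z', hA i hi, mul_zero]
  rw [hcz']
  have : c * mink z z' / mink z z' = c := by field_simp
  rw [this]; exact hw

lemma Corner.norm {A : Finset (Fin m)} {z z' : Fin (n + 1) → ℝ} (hc : Corner e z A)
    (S : Sys e o) (hz : InC e z) (ht : mink z z = 0) (hz' : mink z' z' = 0)
    (hzz' : mink z z' ≠ 0) (hA : ∀ i ∈ A, mink z' (e i) = 0) (w : Fin (n + 1) → ℝ) :
    mink w w = 2 * (mink w z * mink w z') / mink z z' + ∑ i ∈ A, mink w (e i) ^ 2 := by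
  have h := hc.decomp S hz ht hz' hzz' hA w
  have h1 : mink w w = mink ((mink w z' / mink z z') • z + (mink w z / mink z z') • z' +
      ∑ i ∈ A, mink w (e i) • e i) w := by rw [← h]
  rw [mink_add_left, mink_add_left, mink_smul_left, mink_smul_left, mink_sum_left,
    mink_comm z w, mink_comm z' w] at h1
  have h2 : ∑ i ∈ A, mink (mink w (e i) • e i) w = ∑ i ∈ A, mink w (e i) ^ 2 :=
    Finset.sum_congr rfl fun i _ => by rw [mink_smul_left, mink_comm (e i) w]; ring
  rw [h2] at h1
  rw [h1]
  field_simp; ring

/-- the second isotropic vector of a corner -/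
lemma Corner.exists_iso {A : Finset (Fin m)} {z : Fin (n + 1) → ℝ} (hc : Corner e z A)
    (S : Sys e o) (hz : InC e z) (ht : mink z z = 0) : ∃ z' : Fin (n + 1) → ℝ,
      mink z' z' = 0 ∧ mink z z' < 0 ∧ (∀ i ∈ A, mink z' (e i) = 0) := by
  classical
  obtain ⟨p, hp⟩ : ∃ p, p = o - ∑ i ∈ A, mink o (e i) • e i := ⟨_, rfl⟩
  have hpA : ∀ j ∈ A, mink p (e j) = 0 := by
    intro j hj
    rw [hp, mink_sub_left, mink_sum_left, Finset.sum_eq_single_of_mem j hj]
    · rw [mink_smul_left, S.unit]; ring
    · intro i hi hij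
      rw [mink_smul_left, hc.orth i hi j hj hij, mul_zero]
  have hpz : mink p z = mink o z := by
    rw [hp, mink_sub_left, mink_sum_left, Finset.sum_eq_zero, sub_zero]
    intro i hi
    rw [mink_smul_left, mink_comm (e i) z, hc.act i hi, mul_zero]
  have hoz := S.o_neg (S.fwd hz)
  have hozne : mink o z ≠ 0 := hoz.ne
  refine ⟨p + (- mink p p / (2 * mink o z)) • z, ?_, ?_, ?_⟩
  · rw [mink_add_left, mink_add_right, mink_add_right, mink_smul_left, mink_smul_right,
      mink_smul_left, mink_smul_right, ht, mink_comm z p, hpz]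
    field_simp; ring
  · rw [mink_add_right, mink_smul_right, ht, mink_comm z p, hpz]; linarith
  · intro i hi
    rw [mink_add_left, mink_smul_left, hc.act i hi, hpA i hi]; ring

lemma Corner.card {A : Finset (Fin m)} {z : Fin (n + 1) → ℝ} (hc : Corner e z A)
    (S : Sys e o) (hz : InC e z) (ht : mink z z = 0) : n ≤ A.card + 1 := by
  classical
  obtain ⟨z', hz', hzz', hA⟩ := hc.exists_iso S hz ht
  have hspan : Submodule.span ℝ ((insert z (insert z' (A.image e)) :
      Finset (Fin (n + 1) → ℝ)) : Set (Fin (n + 1) → ℝ)) = ⊤ := by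
    rw [eq_top_iff]
    intro w _
    rw [hc.decomp S hz ht hz' hzz'.ne hA w]
    refine Submodule.add_mem _ (Submodule.add_mem _
      (Submodule.smul_mem _ _ (Submodule.subset_span (by simp)))
      (Submodule.smul_mem _ _ (Submodule.subset_span (by simp))))
      (Submodule.sum_mem _ fun i hi => Submodule.smul_mem _ _ (Submodule.subset_span ?_))
    simp only [Finset.coe_insert, Finset.coe_image, Set.mem_insert_iff, Set.mem_image,
      Finset.mem_coe]
    exact Or.inr (Or.inr ⟨i, hi, rfl⟩)
  have h1 := finrank_span_finset_le_card (R := ℝ) (insert z (insert z' (A.image e)))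
  rw [Set.finrank, hspan, finrank_top] at h1
  simp only [Module.finrank_fintype_fun_eq_card, Fintype.card_fin] at h1
  have h2 := Finset.card_insert_le z (insert z' (A.image e))
  have h2' := Finset.card_insert_le z' (A.image e)
  have h3 := Finset.card_image_le (s := A) (f := e)
  omega

/-- The bound at a corner of the highest ideal vertex. -/
lemma Sys.corner_bound (S : Sys e o) (hn : 9 ≤ n) {ε : Fin (n + 1) → ℝ} (hε : NI e ε)
    (hmax : ∀ δ, NI e δ → - mink o δ ≤ - mink o ε)
    (hC : ∀ x, Vtx e x → mink x x = -1 → - mink o x < 3 / 2 * (- mink o ε))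
    {A : Finset (Fin m)} (hc : Corner e ε A) :
    ∑ i ∈ A, mink o (e i) ^ 2 < 2 * (- mink o ε) ^ 2 := by
  classical
  set H := - mink o ε with hH
  have hHpos : 0 < H := by have := S.o_neg (S.fwd hε.inC); linarith
  have hot := S.otime
  obtain ⟨z', hz', hzz', hA⟩ := hc.exists_iso S hε.inC hε.iso
  have hz'f : Fwd z' := fwd_of hz'.le (S.fwd hε.inC) (by rw [mink_comm]; exact hzz')
  have hact : ∀ i, mink ε (e i) = 0 → mink z' (e i) ≤ 0 := by
    intro i hi
    rcases hc.cov i hi with h | ⟨j, hj, a, ha⟩
    · exact (hA i h).le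
    · have hapos := S.nonprop (S.fwd hε.inC) ha
      have : e i = a • ε - e j := by rw [← ha]; abel
      rw [this, mink_sub_right, mink_smul_right, hA j hj, mink_comm z' ε]
      nlinarith
  have hcard := hc.card S hε.inC hε.iso
  by_cases hC' : ∀ i, mink z' (e i) ≤ 0
  · -- the other end is ideal
    obtain ⟨i, hi⟩ : A.Nonempty := by
      rw [← Finset.card_pos]; omega
    obtain ⟨c, hcpos, hδ⟩ := S.exists_NI ⟨hz'f.2, hC'⟩ hz' (hA i hi)
    have hεδ : mink ε (c • z') < 0 := by
      rw [mink_smul_right]; exact mul_neg_of_pos_of_neg hcpos hzz'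
    have hs := S.NI_NI hε hδ hεδ
    have hh := hmax _ hδ
    have hhpos : 0 < - mink o (c • z') := by have := S.o_neg (S.fwd hδ.inC); linarith
    have hnorm := hc.norm S hε.inC hε.iso hδ.iso hεδ.ne (fun i hi => by
      rw [mink_smul_left, hA i hi, mul_zero]) o
    set s := - mink ε (c • z') with hsdef
    set h := - mink o (c • z') with hhdef
    have e1 : mink ε (c • z') = -s := by rw [hsdef]; ring
    have e2 : mink o (c • z') = -h := by rw [hhdef]; ring
    have e3 : mink o ε = -H := by rw [hH]; ring
    rw [e1, e2, e3] at hnorm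
    have hs1 : 1 ≤ s := by linarith
    have h4 : 2 * (-H * -h) / -s = - (2 * H * h / s) := by
      have : s ≠ 0 := by linarith
      field_simp
    rw [h4] at hnorm
    have h5 : 2 * H * h / s ≤ 2 * H ^ 2 := by
      rw [div_le_iff₀ (by linarith)]
      have h6 : H * h ≤ H * H := mul_le_mul_of_nonneg_left hh hHpos.le
      have h7 : H * H ≤ H * H * s := le_mul_of_one_le_right (by positivity) hs1
      nlinarith
    linarith
  · -- the other end is a finite vertex
    obtain ⟨t, ht, hy, k, hk1, hk2, hk3⟩ := edge_step (z' := z') hε.inC hz'f.2.le hact hC'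
    set y := ε + t • z' with hydef
    set g := - mink ε z' with hg
    have hgpos : 0 < g := by linarith
    have hεz' : mink ε z' = -g := by rw [hg]; ring
    have hyy : mink y y = -(2 * t * g) := by
      rw [hydef, mink_add_left, mink_add_right, mink_add_right, mink_smul_left, mink_smul_right,
        mink_smul_left, mink_smul_right, hε.iso, hz', mink_comm z' ε, hεz']; ring
    have hyt : mink y y < 0 := by rw [hyy]; have := mul_pos ht hgpos; linarith
    have hyA : ∀ i ∈ A, mink y (e i) = 0 := by
      intro i hi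
      rw [hydef, mink_add_left, mink_smul_left, hc.act i hi, hA i hi]; ring
    have hkA : k ∉ A := by
      intro hkA
      have := hc.act k hkA
      linarith
    have hekA : ∀ i ∈ A, mink (e k) (e i) = 0 := by
      intro i hi
      exact S.act_time hy hyt (by rintro rfl; exact hkA hi) hk2 (hyA i hi)
    -- `e k` in the plane of the corner
    have hdec := hc.decomp S hε.inC hε.iso hz' hzz'.ne hA (e k)
    rw [Finset.sum_eq_zero (fun i hi => by rw [hekA i hi, zero_smul]), add_zero] at hdec
    obtain ⟨l, hl⟩ : ∃ l, l = - (mink (e k) z' / mink ε z') := ⟨_, rfl⟩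
    obtain ⟨r, hr⟩ : ∃ r, r = mink (e k) ε / mink ε z' := ⟨_, rfl⟩
    have hl' : mink (e k) z' / mink ε z' = -l := by rw [hl]; ring
    rw [hl', ← hr] at hdec
    have hr' : r = l * t := by
      have h1 := hk2
      rw [hydef, hdec, mink_add_left, mink_add_right, mink_add_right, mink_smul_left,
        mink_smul_left, mink_smul_right, mink_smul_right, mink_smul_right, mink_smul_right,
        hε.iso, hz', mink_comm z' ε, hεz'] at h1
      have h2 : (r - l * t) * g = 0 := by linarith
      rcases mul_eq_zero.1 h2 with h3 | h3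
      · linarith
      · exact absurd h3 hgpos.ne'
    have hek : e k = (-l) • ε + (l * t) • z' := by rw [hr'] at hdec; exact hdec
    have hlpos : 0 < l := by
      have h1 := hk1
      rw [hek, mink_add_right, mink_smul_right, mink_smul_right, hε.iso, hεz'] at h1
      have h2 : 0 < l * (t * g) := by linarith
      exact pos_of_mul_pos_left h2 (mul_pos ht hgpos).le
    have hl2 : 2 * l ^ 2 * t * g = 1 := by
      have h1 := S.unit k
      rw [hek, mink_add_left, mink_add_right, mink_add_right, mink_smul_left,
        mink_smul_left, mink_smul_left, mink_smul_left, mink_smul_right, mink_smul_right,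
        mink_smul_right, mink_smul_right, hε.iso, hz', mink_comm z' ε, hεz'] at h1
      linarith
    -- the vertex
    have hxv : Vtx e (l • y) := by
      apply Vtx.smul _ hlpos
      refine ⟨hy, fun w hw => ?_⟩
      have hwA : ∀ i ∈ A, mink w (e i) = 0 := fun i hi => hw i (hyA i hi)
      have hwk := hw k hk2
      have hdw := hc.decomp S hε.inC hε.iso hz' hzz'.ne hA w
      rw [Finset.sum_eq_zero (fun i hi => by rw [hwA i hi, zero_smul]), add_zero] at hdw
      obtain ⟨α, hα⟩ : ∃ α, α = mink w z' / mink ε z' := ⟨_, rfl⟩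
      obtain ⟨β, hβ⟩ : ∃ β, β = mink w ε / mink ε z' := ⟨_, rfl⟩
      rw [← hα, ← hβ] at hdw
      rw [hdw, hek, mink_add_left, mink_add_right, mink_add_right, mink_smul_left,
        mink_smul_left, mink_smul_left, mink_smul_left, mink_smul_right, mink_smul_right,
        mink_smul_right, mink_smul_right, hε.iso, hz', mink_comm z' ε, hεz'] at hwk
      have h2 : (β - α * t) * (l * g) = 0 := by linarith
      have h3 : β = α * t := by
        rcases mul_eq_zero.1 h2 with h3 | h3
        · linarith
        · exact absurd h3 (mul_pos hlpos hgpos).ne'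
      refine ⟨α, ?_⟩
      rw [hdw, h3, hydef]; module
    have hxx : mink (l • y) (l • y) = -1 := by
      rw [mink_smul_left, mink_smul_right, hyy]
      linarith
    have hCx := hC _ hxv hxx
    set x := l • y with hxdef
    set C := - mink o x with hCdef
    set V := - mink o (e k) with hVdef
    have hCV : 2 * l * H = C - V := by
      rw [hCdef, hVdef, hH, hek, hxdef, hydef, mink_smul_right, mink_add_right, mink_add_right,
        mink_smul_right, mink_smul_right, mink_smul_right]
      ring
    -- the distance of the facet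
    have hτ := S.NI_facet hε hk1
    have hτ' : mink ε (e k) = -(l * t * g) := by
      rw [hek, mink_add_right, mink_smul_right, mink_smul_right, hε.iso, hεz']; ring
    rw [hτ'] at hτ
    have hl1 : 2 * l ≤ 1 := by
      have h1 : l * t * g * (2 * l) = 1 := by linarith
      by_contra hlt
      push Not at hlt
      nlinarith
    -- sum of squares at the vertex
    have hI : ∀ i, i ∈ (Finset.univ.filter fun i => mink x (e i) = 0) ↔ mink x (e i) = 0 :=
      fun i => by simp
    have hsum := vtx_norm S hxv hxx hI o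
    have hsub : insert k A ⊆ (Finset.univ.filter fun i => mink x (e i) = 0) := by
      intro i hi
      rw [hI]
      rcases Finset.mem_insert.1 hi with rfl | hi
      · rw [hxdef, mink_smul_left, hk2, mul_zero]
      · rw [hxdef, mink_smul_left, hyA i hi, mul_zero]
    have hle : ∑ i ∈ insert k A, mink o (e i) ^ 2 ≤
        ∑ i ∈ (Finset.univ.filter fun i => mink x (e i) = 0), mink o (e i) ^ 2 :=
      Finset.sum_le_sum_of_subset_of_nonneg hsub fun _ _ _ => sq_nonneg _
    rw [Finset.sum_insert hkA, hsum] at hle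
    have e1 : mink o (e k) ^ 2 = V ^ 2 := by rw [hVdef, neg_sq]
    have e2 : mink o x ^ 2 = C ^ 2 := by rw [hCdef, neg_sq]
    rw [e1, e2] at hle
    -- `C² - V² = (2 l H) (2 C - 2 l H)`
    have h3 : C ^ 2 - V ^ 2 = (2 * l * H) * (2 * C - 2 * l * H) := by
      have : V = C - 2 * l * H := by linarith
      rw [this]; ring
    have h4 : (2 * l * H) * (2 * C - 2 * l * H) < (2 * l * H) * (3 * H - 2 * l * H) := by
      apply mul_lt_mul_of_pos_left
      · linarith
      · positivity
    have h5 : (2 * l * H) * (3 * H - 2 * l * H) ≤ 2 * H ^ 2 := by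
      have h6 : 0 ≤ (1 - 2 * l) * (2 - 2 * l) * H ^ 2 := by
        apply mul_nonneg
        · apply mul_nonneg <;> linarith
        · positivity
      nlinarith
    linarith

/-- The opposite corner. -/
lemma Corner.opposite {A : Finset (Fin m)} {z : Fin (n + 1) → ℝ} (hc : Corner e z A)
    (S : Sys e o) (hz : InC e z) (ht : mink z z = 0) :
    ∃ f : Fin m → Fin m, (∀ i ∈ A, mink z (e (f i)) = 0 ∧ ∃ a : ℝ, e i + e (f i) = a • z) ∧
      (∀ i ∈ A, ∀ j ∈ A, f i = f j → i = j) ∧
      ∃ B : Finset (Fin m), Corner e z B ∧ ∀ i ∈ A, f i ∈ B := by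
  classical
  have hbox : ∀ i, ∃ j, i ∈ A → mink z (e j) = 0 ∧ ∃ a : ℝ, e i + e j = a • z := by
    intro i
    by_cases hi : i ∈ A
    · obtain ⟨j, hj, a, -, ha⟩ := S.box hz ht (hc.act i hi)
      exact ⟨j, fun _ => ⟨hj, a, ha⟩⟩
    · exact ⟨i, fun h => absurd h hi⟩
  choose f hf using hbox
  have hinj : ∀ i ∈ A, ∀ j ∈ A, f i = f j → i = j := by
    intro i hi j hj hij
    obtain ⟨h1, a, ha⟩ := hf i hi
    obtain ⟨h2, b, hb⟩ := hf j hj
    by_contra hne
    have h3 : e i - e j = (a - b) • z := by
      rw [sub_smul, ← ha, ← hb, hij]; abel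
    have h4 : mink (e i - e j) (e i - e j) = 0 := by
      rw [h3, mink_smul_left, mink_smul_right, ht]; ring
    rw [mink_sub_left, mink_sub_right, mink_sub_right, S.unit, S.unit, mink_comm (e j) (e i),
      hc.orth i hi j hj hne] at h4
    norm_num at h4
  have hform : ∀ i ∈ A, ∃ a : ℝ, e (f i) = a • z - e i := by
    intro i hi
    obtain ⟨h1, a, ha⟩ := hf i hi
    exact ⟨a, by rw [← ha]; abel⟩
  refine ⟨f, fun i hi => hf i hi, hinj, A.image f, ⟨?_, ?_, ?_⟩,
    fun i hi => Finset.mem_image_of_mem f hi⟩
  · intro j hj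
    obtain ⟨i, hi, rfl⟩ := Finset.mem_image.1 hj
    exact (hf i hi).1
  · intro j hj k hk hjk
    obtain ⟨i, hi, rfl⟩ := Finset.mem_image.1 hj
    obtain ⟨i', hi', rfl⟩ := Finset.mem_image.1 hk
    have hii : i ≠ i' := by rintro rfl; exact hjk rfl
    obtain ⟨a, ha⟩ := hform i hi
    obtain ⟨b, hb⟩ := hform i' hi'
    rw [ha, hb, mink_sub_left, mink_sub_right, mink_sub_right, mink_smul_left, mink_smul_right,
      mink_smul_left, mink_smul_right, ht, mink_comm (e i) z, hc.act i hi, hc.act i' hi',
      hc.orth i hi i' hi' hii]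
    ring
  · intro j hj
    by_cases hjA : j ∈ A
    · right
      obtain ⟨h1, a, ha⟩ := hf j hjA
      exact ⟨f j, Finset.mem_image_of_mem f hjA, a, ha⟩
    · left
      rcases hc.cov j hj with h | ⟨i, hi, a, ha⟩
      · exact absurd h hjA
      · obtain ⟨h1, b, hb⟩ := hf i hi
        have : j = f i := by
          by_contra hne
          have h3 : e j - e (f i) = (a - b) • z := by
            rw [sub_smul, ← ha, ← hb]; abel
          have h4 : mink (e j - e (f i)) (e j - e (f i)) = 0 := by
            rw [h3, mink_smul_left, mink_smul_right, ht]; ring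
          rw [mink_sub_left, mink_sub_right, mink_sub_right, S.unit, S.unit,
            mink_comm (e (f i)) (e j)] at h4
          rcases S.pair j (f i) hne with h5 | h5
          · rw [h5] at h4; norm_num at h4
          · linarith
        rw [this]; exact Finset.mem_image_of_mem f hi

end Pool.Agent.Helper613.RA
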