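import Pool.Agent.Helper613.RABasic

set_option autoImplicit false

namespace Pool.Agent.Helper613.RA

open Pool.Agent.Helper613.DH

variable {n m : ℕ} {e : Fin m → Fin (n + 1) → ℝ} {o : Fin (n + 1) → ℝ}

/-- A normalised ideal vertex: the shortest side of its box is `1`. -/
structure NI (e : Fin m → Fin (n + 1) → ℝ) (ε : Fin (n + 1) → ℝ) : Prop where
  inC : InC e ε
  iso : mink ε ε = 0
  one : ∃ i j, mink ε (e i) = 0 ∧ mink ε (e j) = 0 ∧ e i + e j = ε
  ge : ∀ i j, ∀ a : ℝ, mink ε (e i) = 0 → mink ε (e j) = 0 → e i + e j = a • ε → 1 ≤ a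

lemma Sys.nonprop (S : Sys e o) {i j : Fin m} {a : ℝ} {z : Fin (n + 1) → ℝ} (hz : Fwd z)
    (h : e i + e j = a • z) : 0 < a := by
  have h1 := S.oint i
  have h2 := S.oint j
  have h3 := S.o_neg hz
  have h4 : mink o (e i) + mink o (e j) = a * mink o z := by
    rw [← mink_add_right, h, mink_smul_right]
  by_contra hneg
  push Not at hneg
  have := mul_nonneg_of_nonpos_of_nonpos hneg h3.le
  linarith

/-- Every ideal vertex with at least one facet can be normalised. -/
lemma Sys.exists_NI (S : Sys e o) {z : Fin (n + 1) → ℝ} (hz : InC e z) (ht : mink z z = 0)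
    {i : Fin m} (hi : mink z (e i) = 0) : ∃ c : ℝ, 0 < c ∧ NI e (c • z) := by
  classical
  -- the coefficient of a pair
  have hz3 := hz.1
  set a : Fin m × Fin m → ℝ := fun p => (e p.1 + e p.2) (Fin.last n) / z (Fin.last n) with ha
  set F := Finset.univ.filter fun p : Fin m × Fin m => mink z (e p.1) = 0 ∧ mink z (e p.2) = 0 ∧
    e p.1 + e p.2 = a p • z with hF
  have hcoef : ∀ i j, ∀ b : ℝ, e i + e j = b • z → b = a (i, j) := by
    intro i j b hb
    have := congrFun hb (Fin.last n)
    simp only [Pi.smul_apply, smul_eq_mul] at this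
    simp only [ha]
    rw [this]; field_simp
  obtain ⟨j, hj, b, hb, hbz⟩ := S.box hz ht hi
  have hmem : (i, j) ∈ F := by
    rw [hF, Finset.mem_filter]
    refine ⟨Finset.mem_univ _, hi, hj, ?_⟩
    rw [← hcoef i j b hbz]; exact hbz
  obtain ⟨p, hp, hmin⟩ := Finset.exists_min_image F a ⟨_, hmem⟩
  rw [hF, Finset.mem_filter] at hp
  obtain ⟨-, hp1, hp2, hp3⟩ := hp
  have hapos : 0 < a p := S.nonprop (S.fwd hz) hp3
  refine ⟨a p, hapos, hz.smul hapos, ?_, ⟨p.1, p.2, ?_, ?_, hp3⟩, ?_⟩
  · rw [mink_smul_left, mink_smul_right, ht]; ring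
  · rw [mink_smul_left, hp1, mul_zero]
  · rw [mink_smul_left, hp2, mul_zero]
  · intro i' j' b' hi' hj' hb'
    rw [mink_smul_left] at hi' hj'
    have hi2 := (mul_eq_zero.1 hi').resolve_left hapos.ne'
    have hj2 := (mul_eq_zero.1 hj').resolve_left hapos.ne'
    rw [smul_smul] at hb'
    have h1 := hcoef i' j' _ hb'
    have h2 : (i', j') ∈ F := by
      rw [hF, Finset.mem_filter]
      refine ⟨Finset.mem_univ _, hi2, hj2, ?_⟩
      rw [← h1]; exact hb'
    have h3 := hmin _ h2
    rw [← h1] at h3
    by_contra hlt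
    push Not at hlt
    nlinarith

/-- facets not through an ideal vertex are at normalised distance at least one -/
lemma Sys.NI_facet (S : Sys e o) {ε : Fin (n + 1) → ℝ} (h : NI e ε) {k : Fin m}
    (hk : mink ε (e k) < 0) : mink ε (e k) ≤ -1 := by
  obtain ⟨i, j, hi, hj, hij⟩ := h.one
  have hik : i ≠ k := by rintro rfl; linarith
  have hjk : j ≠ k := by rintro rfl; linarith
  have h1 : mink ε (e k) = mink (e i) (e k) + mink (e j) (e k) := by
    rw [← mink_add_left, hij]
  rcases S.pair i k hik with h2 | h2 <;> rcases S.pair j k hjk with h3 | h3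
  · rw [h1, h2, h3] at hk; norm_num at hk
  · linarith
  · linarith
  · linarith

/-- distinct ideal vertices are at normalised distance at least one -/
lemma Sys.NI_NI (S : Sys e o) {ε δ : Fin (n + 1) → ℝ} (h : NI e ε) (h' : NI e δ)
    (hne : mink ε δ < 0) : mink ε δ ≤ -1 := by
  obtain ⟨i, j, hi, hj, hij⟩ := h'.one
  have h1 : mink ε δ = mink ε (e i) + mink ε (e j) := by
    rw [← mink_add_right, hij]
  have key : ∀ k, mink ε (e k) = 0 ∨ mink ε (e k) ≤ -1 := by
    intro k
    rcases (h.inC.2 k).lt_or_eq with h2 | h2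
    · exact Or.inr (S.NI_facet h h2)
    · exact Or.inl h2
  rcases key i with h2 | h2 <;> rcases key j with h3 | h3
  · rw [h1, h2, h3] at hne; norm_num at hne
  · linarith
  · linarith
  · linarith

/-- Edges at a finite vertex. -/
lemma Sys.finite_edge (S : Sys e o) {x : Fin (n + 1) → ℝ} (hx : Vtx e x) (hxx : mink x x = -1)
    {j : Fin m} (hj : mink x (e j) = 0) :
    InC e (x - e j) ∨ ∃ (k : Fin m) (σ γ : ℝ), 0 < σ ∧ 0 < γ ∧ γ ^ 2 = 1 + σ ^ 2 ∧
      e k = σ • x - γ • e j ∧ Vtx e (γ • x - σ • e j) := by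
  have hxf := S.fwd hx.1
  have hxt : mink x x < 0 := by rw [hxx]; norm_num
  have hz'iso : mink (x - e j) (x - e j) = 0 := by
    rw [mink_sub_left, mink_sub_right, mink_sub_right, hxx, S.unit, hj, mink_comm (e j), hj]; ring
  have hz'x : mink (x - e j) x = -1 := by
    rw [mink_sub_left, hxx, mink_comm (e j), hj]; ring
  have hz'f : Fwd (x - e j) := fwd_of hz'iso.le hxf (by rw [hz'x]; norm_num)
  have hact : ∀ i, mink x (e i) = 0 → i ≠ j → mink (e j) (e i) = 0 := fun i hi hij =>
    S.act_time hx.1 hxt hij.symm hj hi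
  by_cases hC : ∀ i, mink (x - e j) (e i) ≤ 0
  · exact Or.inl ⟨hz'f.2, hC⟩
  right
  obtain ⟨t, ht, hy, k, hk1, hk2, hk3⟩ := edge_step (z' := x - e j) hx.1 hz'f.2.le (by
    intro i hi
    rw [mink_sub_left, hi]
    by_cases hij : i = j
    · rw [hij, S.unit]; norm_num
    · rw [hact i hi hij]; norm_num) hC
  set y := x + t • (x - e j) with hydef
  have hyy : mink y y = -1 - 2 * t := by
    rw [hydef, mink_add_left, mink_add_right, mink_add_right, mink_smul_left, mink_smul_right,
      mink_smul_left, mink_smul_right, hxx, hz'iso, mink_comm x (x - e j), hz'x]; ring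
  have hyt : mink y y < 0 := by rw [hyy]; linarith
  have hyact : ∀ i, mink x (e i) = 0 → i ≠ j → mink y (e i) = 0 := by
    intro i hi hij
    rw [hydef, mink_add_left, mink_smul_left, mink_sub_left, hi, hact i hi hij]; ring
  have hkact : ∀ i, mink x (e i) = 0 → i ≠ j → mink (e k) (e i) = 0 := by
    intro i hi hij
    exact S.act_time hy hyt (by rintro rfl; linarith) hk2 (hyact i hi hij)
  -- `e k` lies in the plane of `x` and `e j`
  obtain ⟨σ, hσ⟩ := hx.2 (e k - mink (e k) (e j) • e j) (by
    intro i hi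
    rw [mink_sub_left, mink_smul_left]
    by_cases hij : i = j
    · rw [hij, S.unit]; ring
    · rw [hkact i hi hij, hact i hi hij]; ring)
  set γ := - mink (e k) (e j) with hγ
  have hek : e k = σ • x - γ • e j := by
    have : e k = σ • x + mink (e k) (e j) • e j := by rw [← hσ]; abel
    rw [this, hγ, neg_smul]; abel
  have hσk : mink x (e k) = -σ := by
    rw [hek, mink_sub_right, mink_smul_right, mink_smul_right, hxx, hj]; ring
  have hσpos : 0 < σ := by linarith
  have hnorm : γ ^ 2 = 1 + σ ^ 2 := by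
    have h1 := S.unit k
    rw [hek, mink_sub_left, mink_sub_right, mink_sub_right, mink_smul_left, mink_smul_right,
      mink_smul_left, mink_smul_right, mink_smul_left, mink_smul_right, mink_smul_left,
      mink_smul_right, hxx, S.unit, hj, mink_comm (e j) x, hj] at h1
    linarith
  have hrel : t * γ = (1 + t) * σ := by
    have h1 := hk2
    rw [hydef, mink_add_left, mink_smul_left, mink_sub_left, hσk, mink_comm (e j) (e k)] at h1
    rw [hγ]; linarith
  have hγpos : 0 < γ := by
    have h1 : 0 < t * γ := by rw [hrel]; positivity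
    exact pos_of_mul_pos_right h1 ht.le
  have hx'y : γ • x - σ • e j = (σ / t) • y := by
    have hγ' : γ = (σ / t) * (1 + t) := by field_simp; linarith
    rw [hydef, hγ']
    have : (σ / t) * t = σ := by field_simp
    calc (σ / t * (1 + t)) • x - σ • e j = (σ / t * (1 + t)) • x - ((σ / t) * t) • e j := by
          rw [this]
      _ = _ := by module
  refine ⟨k, σ, γ, hσpos, hγpos, hnorm, hek, ?_, ?_⟩
  · rw [hx'y]; exact hy.smul (div_pos hσpos ht)
  · intro w hw
    have hwact : ∀ i, mink y (e i) = 0 → mink w (e i) = 0 := by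
      intro i hi
      apply hw
      rw [hx'y, mink_smul_left, hi, mul_zero]
    obtain ⟨c, hc⟩ := hx.2 (w - mink w (e j) • e j) (by
      intro i hi
      rw [mink_sub_left, mink_smul_left]
      by_cases hij : i = j
      · rw [hij, S.unit]; ring
      · rw [hwact i (hyact i hi hij), hact i hi hij]; ring)
    have hw' : w = c • x + mink w (e j) • e j := by rw [← hc]; abel
    have h1 := hwact k hk2
    set δ := mink w (e j)
    rw [hw', hek, mink_add_left, mink_sub_right, mink_sub_right, mink_smul_left, mink_smul_right,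
      mink_smul_left, mink_smul_right, mink_smul_left, mink_smul_right, mink_smul_left,
      mink_smul_right, hxx, S.unit, hj, mink_comm (e j) x, hj] at h1
    have hcs : c = -(δ * γ) / σ := by
      field_simp; linarith
    refine ⟨-δ / σ, ?_⟩
    rw [hw', hcs]
    have h2 : (-δ / σ) • (γ • x - σ • e j) = (-(δ * γ) / σ) • x - ((-δ / σ) * σ) • e j := by
      module
    have h3 : (-δ / σ) * σ = -δ := by field_simp
    rw [h2, h3]; module

/-- The number of facets through a finite vertex. -/
lemma vtx_card [DecidableEq (Fin m)] (S : Sys e o) {x : Fin (n + 1) → ℝ} (hx : Vtx e x)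
    (hxx : mink x x = -1) {I : Finset (Fin m)} (hI : ∀ i, i ∈ I ↔ mink x (e i) = 0) :
    (∀ w : Fin (n + 1) → ℝ, w = (- mink w x) • x + ∑ i ∈ I, mink w (e i) • e i) ∧ n ≤ I.card := by
  classical
  have hxt : mink x x < 0 := by rw [hxx]; norm_num
  have hdec : ∀ w : Fin (n + 1) → ℝ, w = (- mink w x) • x + ∑ i ∈ I, mink w (e i) • e i := by
    intro w
    obtain ⟨c, hc⟩ := hx.2 (w - ∑ i ∈ I, mink w (e i) • e i) (by
      intro j hj
      rw [mink_sub_left, mink_sum_left]
      have hjI : j ∈ I := (hI j).2 hj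
      rw [Finset.sum_eq_single_of_mem j hjI]
      · rw [mink_smul_left, S.unit]; ring
      · intro i hi hij
        rw [mink_smul_left, S.act_time hx.1 hxt hij ((hI i).1 hi) hj, mul_zero])
    have hw : w = c • x + ∑ i ∈ I, mink w (e i) • e i := by rw [← hc]; abel
    have hcx : mink w x = -c := by
      conv_lhs => rw [hw]
      rw [mink_add_left, mink_smul_left, hxx, mink_sum_left, Finset.sum_eq_zero]
      · ring
      · intro i hi
        rw [mink_smul_left, mink_comm (e i) x, (hI i).1 hi, mul_zero]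
    rw [hcx, neg_neg]; exact hw
  refine ⟨hdec, ?_⟩
  have hspan : Submodule.span ℝ ((insert x (I.image e) : Finset (Fin (n + 1) → ℝ)) :
      Set (Fin (n + 1) → ℝ)) = ⊤ := by
    rw [eq_top_iff]
    intro w _
    rw [hdec w]
    refine Submodule.add_mem _ (Submodule.smul_mem _ _ (Submodule.subset_span (by simp)))
      (Submodule.sum_mem _ fun i hi => Submodule.smul_mem _ _ (Submodule.subset_span ?_))
    simp only [Finset.coe_insert, Finset.coe_image, Set.mem_insert_iff, Set.mem_image,
      Finset.mem_coe]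
    exact Or.inr ⟨i, hi, rfl⟩
  have h1 := finrank_span_finset_le_card (R := ℝ) (insert x (I.image e))
  rw [Set.finrank, hspan, finrank_top] at h1
  simp only [Module.finrank_fintype_fun_eq_card, Fintype.card_fin] at h1
  have h2 := Finset.card_insert_le x (I.image e)
  have h3 := Finset.card_image_le (s := I) (f := e)
  omega

/-- Pythagoras at a finite vertex. -/
lemma vtx_norm [DecidableEq (Fin m)] (S : Sys e o) {x : Fin (n + 1) → ℝ} (hx : Vtx e x)
    (hxx : mink x x = -1) {I : Finset (Fin m)} (hI : ∀ i, i ∈ I ↔ mink x (e i) = 0)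
    (w : Fin (n + 1) → ℝ) : ∑ i ∈ I, mink w (e i) ^ 2 = mink w x ^ 2 + mink w w := by
  have h := (vtx_card S hx hxx hI).1 w
  have h1 : mink w w = mink ((- mink w x) • x + ∑ i ∈ I, mink w (e i) • e i) w := by
    rw [← h]
  rw [mink_add_left, mink_smul_left, mink_sum_left, mink_comm x w] at h1
  have h2 : ∑ i ∈ I, mink (mink w (e i) • e i) w = ∑ i ∈ I, mink w (e i) ^ 2 :=
    Finset.sum_congr rfl fun i _ => by rw [mink_smul_left, mink_comm (e i) w]; ring
  rw [h2] at h1
  linarith

end Pool.Agent.Helper613.RA
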