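import Mathlib

set_option autoImplicit false
set_option linter.unusedSectionVars false
set_option linter.unusedSimpArgs false

namespace Pool.Agent.Helper613.VI

open Finset Matrix

variable {n : ℕ} {ι : Type*} [Fintype ι] [DecidableEq ι]

/-- The square matrix whose columns are the vectors `x (I a)`. -/
def A (x : ι → Fin n → ℝ) (I : Fin n → ι) : Matrix (Fin n) (Fin n) ℝ :=
  Matrix.of fun m a => x (I a) m

/-- Its determinant. -/
noncomputable def D (x : ι → Fin n → ℝ) (I : Fin n → ι) : ℝ := (A x I).det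

/-- The solution of `x (I a) ⬝ᵥ y = b (I a)`. -/
noncomputable def Y (x : ι → Fin n → ℝ) (b : ι → ℝ) (I : Fin n → ι) : Fin n → ℝ :=
  ((A x I)ᵀ)⁻¹ *ᵥ (fun a => b (I a))

lemma AT_mulVec (x : ι → Fin n → ℝ) (I : Fin n → ι) (z : Fin n → ℝ) (a : Fin n) :
    ((A x I)ᵀ *ᵥ z) a = x (I a) ⬝ᵥ z := by
  simp [A, Matrix.mulVec, dotProduct]

lemma isUnit_det {x : ι → Fin n → ℝ} {I : Fin n → ι} (h : D x I ≠ 0) :
    IsUnit ((A x I)ᵀ).det := by
  rw [Matrix.det_transpose]
  exact isUnit_iff_ne_zero.mpr h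

lemma dot_Y {x : ι → Fin n → ℝ} {I : Fin n → ι} (h : D x I ≠ 0) (b : ι → ℝ) (a : Fin n) :
    x (I a) ⬝ᵥ Y x b I = b (I a) := by
  rw [← AT_mulVec, Y, Matrix.mulVec_mulVec, Matrix.mul_nonsing_inv _ (isUnit_det h),
    Matrix.one_mulVec]

lemma eq_Y {x : ι → Fin n → ℝ} {I : Fin n → ι} (h : D x I ≠ 0) (b : ι → ℝ)
    {z : Fin n → ℝ} (hz : ∀ a, x (I a) ⬝ᵥ z = b (I a)) : z = Y x b I := by
  have h1 : (A x I)ᵀ *ᵥ z = fun a => b (I a) := by
    funext a
    rw [AT_mulVec, hz a]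
  rw [Y, ← h1, Matrix.mulVec_mulVec, Matrix.nonsing_inv_mul _ (isUnit_det h),
    Matrix.one_mulVec]

/-- Cramer's rule. -/
lemma cramer_sum (x : ι → Fin n → ℝ) (I : Fin n → ι) (u v : Fin n → ℝ) :
    ∑ a, (cramer (A x I) u a) * (x (I a) ⬝ᵥ v) = D x I * (u ⬝ᵥ v) := by
  have h := Matrix.mulVec_cramer (A x I) u
  have h2 : (A x I *ᵥ cramer (A x I) u) ⬝ᵥ v = D x I * (u ⬝ᵥ v) := by
    rw [h, smul_dotProduct]; rfl
  rw [← h2]
  simp only [dotProduct, Matrix.mulVec, A, Matrix.of_apply, Finset.mul_sum, Finset.sum_mul]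
  rw [Finset.sum_comm]
  refine Finset.sum_congr rfl fun i _ => Finset.sum_congr rfl fun j _ => by ring

lemma A_update (x : ι → Fin n → ℝ) (I : Fin n → ι) (a : Fin n) (l : ι) :
    A x (Function.update I a l) = (A x I).updateCol a (x l) := by
  ext m c
  by_cases hc : c = a
  · subst hc; simp [A]
  · simp [A, Matrix.updateCol_apply, hc]

lemma D_update (x : ι → Fin n → ℝ) (I : Fin n → ι) (a : Fin n) (l : ι) :
    D x (Function.update I a l) = cramer (A x I) (x l) a := by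
  rw [D, A_update, Matrix.cramer_apply]

lemma cramer_update (x : ι → Fin n → ℝ) (I : Fin n → ι) (a : Fin n) (l : ι) (u : Fin n → ℝ) :
    cramer (A x (Function.update I a l)) u a = cramer (A x I) u a := by
  rw [Matrix.cramer_apply, Matrix.cramer_apply, A_update]
  congr 1
  ext m c
  by_cases hc : c = a
  · subst hc; simp
  · simp [Matrix.updateCol_apply, hc]

/-- the cofactor vector -/
noncomputable def nu (x : ι → Fin n → ℝ) (I : Fin n → ι) (a : Fin n) : Fin n → ℝ :=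
  (adjugate (A x I)) a

lemma cramer_eq_dot (x : ι → Fin n → ℝ) (I : Fin n → ι) (a : Fin n) (u : Fin n → ℝ) :
    cramer (A x I) u a = u ⬝ᵥ nu x I a := by
  rw [Matrix.cramer_eq_adjugate_mulVec]
  simp [Matrix.mulVec, nu, dotProduct_comm]

lemma dot_nu_of_ne (x : ι → Fin n → ℝ) (I : Fin n → ι) {a b : Fin n} (h : b ≠ a) :
    x (I b) ⬝ᵥ nu x I a = 0 := by
  rw [← cramer_eq_dot, Matrix.cramer_apply]
  apply Matrix.det_zero_of_column_eq (i := a) (j := b) (Ne.symm h)
  intro m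
  simp [Matrix.updateCol_apply, h, A]

/-- A determinant is nonzero only for injective index maps. -/
lemma injective_of_D {x : ι → Fin n → ℝ} {I : Fin n → ι} (h : D x I ≠ 0) :
    Function.Injective I := by
  intro a b hab
  by_contra hne
  apply h
  rw [D]
  apply Matrix.det_zero_of_column_eq (i := a) (j := b) hne
  intro m
  simp [A, hab]

end Pool.Agent.Helper613.VI
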