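import Pool.Agent.Helper613.VIMain

/-!
Vertex index of the Euclidean ball: the two bounds.
-/

set_option autoImplicit false

namespace Pool.Agent.Helper613.VI

open Finset Matrix

variable {n : ℕ}

lemma inner_eq_dot (u v : EuclideanSpace ℝ (Fin n)) :
    @inner ℝ _ _ u v = u.ofLp ⬝ᵥ v.ofLp := by
  rw [EuclideanSpace.inner_eq_star_dotProduct]
  simp [dotProduct_comm]

/-- If the convex hull of `P` contains the unit ball then in each direction some point of `P`
is at height at least one. -/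
lemma exists_height {P : Finset (EuclideanSpace ℝ (Fin n))}
    (hP : Metric.closedBall (0 : EuclideanSpace ℝ (Fin n)) 1 ⊆
      convexHull ℝ (↑P : Set (EuclideanSpace ℝ (Fin n))))
    (u : EuclideanSpace ℝ (Fin n)) (hu : ‖u‖ = 1) : ∃ p ∈ P, 1 ≤ @inner ℝ _ _ p u := by
  by_contra hcon
  push Not at hcon
  have h1 : convexHull ℝ (↑P : Set (EuclideanSpace ℝ (Fin n))) ⊆ {z | @inner ℝ _ _ z u < 1} := by
    apply convexHull_min
    · intro p hp
      exact hcon p hp
    · intro a ha b hb s t hs ht hst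
      simp only [Set.mem_setOf_eq] at ha hb ⊢
      rw [inner_add_left, inner_smul_left, inner_smul_left]
      simp only [conj_trivial]
      rcases hs.lt_or_eq with h | h
      · have : s * @inner ℝ _ _ a u < s * 1 := mul_lt_mul_of_pos_left ha h
        have : t * @inner ℝ _ _ b u ≤ t * 1 := mul_le_mul_of_nonneg_left hb.le ht
        linarith
      · have ht1 : t = 1 := by linarith
        rw [← h, ht1]; linarith
  have h2 := h1 (hP (show u ∈ Metric.closedBall (0 : EuclideanSpace ℝ (Fin n)) 1 by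
    rw [mem_closedBall_zero_iff, hu]))
  simp only [Set.mem_setOf_eq, real_inner_self_eq_norm_sq, hu] at h2
  norm_num at h2

/-- The lower bound. -/
theorem lower (hn : 0 < n) {P : Finset (EuclideanSpace ℝ (Fin n))}
    (hP : Metric.closedBall (0 : EuclideanSpace ℝ (Fin n)) 1 ⊆
      convexHull ℝ (↑P : Set (EuclideanSpace ℝ (Fin n)))) :
    4 * (n : ℝ) ^ 3 ≤ (∑ p ∈ P, ‖p‖) ^ 2 := by
  classical
  set Q : Finset (EuclideanSpace ℝ (Fin n)) := P.filter (fun p => p ≠ 0) with hQ
  have hsum : ∑ p ∈ P, ‖p‖ = ∑ j : Q, ‖(j : EuclideanSpace ℝ (Fin n))‖ := by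
    rw [Finset.sum_coe_sort Q (fun p => ‖p‖), hQ, Finset.sum_filter]
    refine Finset.sum_congr rfl fun p _ => ?_
    by_cases h : p = 0
    · simp [h]
    · simp [h]
  set x : Q → Fin n → ℝ := fun j => (j : EuclideanSpace ℝ (Fin n)).ofLp with hx
  have hcov : ∀ u : EuclideanSpace ℝ (Fin n), ‖u‖ = 1 →
      ∃ j : Q, 1 ≤ @inner ℝ _ _ (j : EuclideanSpace ℝ (Fin n)) u := by
    intro u hu
    obtain ⟨p, hp, h1⟩ := exists_height hP u hu
    have hp0 : p ≠ 0 := by
      rintro rfl
      rw [inner_zero_left] at h1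
      norm_num at h1
    exact ⟨⟨p, by rw [hQ]; exact Finset.mem_filter.mpr ⟨hp, hp0⟩⟩, h1⟩
  have hnorm : ∀ y : Fin n → ℝ, (∀ j, x j ⬝ᵥ y ≤ 1) → y ⬝ᵥ y ≤ 1 := by
    intro y hy
    by_cases h0 : y = 0
    · rw [h0]; simp
    set z : EuclideanSpace ℝ (Fin n) := WithLp.toLp 2 y with hz
    have hz0 : z ≠ 0 := by
      intro h
      apply h0
      have := congrArg WithLp.ofLp h
      simpa [hz] using this
    have hpos : 0 < ‖z‖ := norm_pos_iff.mpr hz0
    obtain ⟨j, hj⟩ := hcov (‖z‖⁻¹ • z) (by rw [norm_smul, norm_inv, norm_norm,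
      inv_mul_cancel₀ hpos.ne'])
    rw [inner_smul_right] at hj
    have h1 : @inner ℝ _ _ (j : EuclideanSpace ℝ (Fin n)) z ≤ 1 := by
      rw [inner_eq_dot]; exact hy j
    have h2 : ‖z‖⁻¹ * @inner ℝ _ _ (j : EuclideanSpace ℝ (Fin n)) z ≤ ‖z‖⁻¹ * 1 :=
      mul_le_mul_of_nonneg_left h1 (inv_nonneg.mpr hpos.le)
    have h3 : 1 ≤ ‖z‖⁻¹ := by linarith
    have h4 : ‖z‖ ≤ 1 := by
      by_contra hcon
      push Not at hcon
      have := inv_lt_one_of_one_lt₀ hcon
      linarith
    have h5 : y ⬝ᵥ y = ‖z‖ ^ 2 := by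
      rw [← real_inner_self_eq_norm_sq, inner_eq_dot]
    rw [h5]
    exact pow_le_one₀ hpos.le h4
  have hbdd : ∃ R : ℝ, ∀ y : Fin n → ℝ, (∀ j, x j ⬝ᵥ y ≤ 1) → ∀ m, |y m| ≤ R := by
    refine ⟨1, fun y hy m => ?_⟩
    have h1 := hnorm y hy
    have h2 : y m ^ 2 ≤ y ⬝ᵥ y := by
      rw [dotProduct]
      calc y m ^ 2 = y m * y m := by ring
        _ ≤ ∑ i, y i * y i :=
          Finset.single_le_sum (f := fun i => y i * y i) (fun i _ => mul_self_nonneg _)
            (mem_univ m)
    rw [abs_le]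
    constructor <;> nlinarith
  obtain ⟨p, hp0, hp1, hp2, hp3, hp4, hp5⟩ := exists_weights x hbdd
  let w : Wt x :=
    { p := p, nonneg := hp0, sum_one := hp1, det := fun I hI => (hp2 I hI).1,
      mean := hp3, iso := hp4 }
  have hr : ∀ j : Q, 0 < ‖(j : EuclideanSpace ℝ (Fin n))‖ := by
    intro j
    have hj : (j : EuclideanSpace ℝ (Fin n)) ∈ P.filter (fun p => p ≠ 0) := j.2
    exact norm_pos_iff.mpr (Finset.mem_filter.mp hj).2
  rw [hsum]
  apply w.main_bound (fun j => ‖(j : EuclideanSpace ℝ (Fin n))‖) hr _ hn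
  · intro I hI
    exact hnorm _ (hp2 I hI).2
  · intro j
    rw [← real_inner_self_eq_norm_sq, inner_eq_dot]

/-- The `2n` vertices of the cross-polytope of inradius one. -/
noncomputable def vtx (n : ℕ) (q : Fin n × Bool) : EuclideanSpace ℝ (Fin n) :=
  EuclideanSpace.single q.1 (if q.2 then Real.sqrt n else -Real.sqrt n)

lemma vtx_inj (hn : 0 < n) : Function.Injective (vtx n) := by
  have hs : 0 < Real.sqrt n := Real.sqrt_pos.mpr (by exact_mod_cast hn)
  rintro ⟨i, b⟩ ⟨j, c⟩ h
  have h1 : (vtx n (i, b)).ofLp i = (vtx n (j, c)).ofLp i := by rw [h]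
  simp only [vtx, EuclideanSpace.single_apply] at h1
  by_cases hij : i = j
  · subst hij
    simp only [if_true] at h1
    cases b <;> cases c <;> simp at h1 <;> first | rfl | (exfalso; linarith)
  · rw [if_pos trivial, if_neg hij] at h1
    exfalso
    cases b <;> simp at h1 <;> linarith

lemma norm_vtx (q : Fin n × Bool) : ‖vtx n q‖ = Real.sqrt n := by
  unfold vtx
  rw [PiLp.norm_single]
  split_ifs
  · rw [Real.norm_eq_abs, abs_of_nonneg (Real.sqrt_nonneg _)]
  · rw [norm_neg, Real.norm_eq_abs, abs_of_nonneg (Real.sqrt_nonneg _)]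

lemma ball_subset (hn : 0 < n) : Metric.closedBall (0 : EuclideanSpace ℝ (Fin n)) 1 ⊆
    convexHull ℝ (Set.range (vtx n)) := by
  intro z hz
  rw [mem_closedBall_zero_iff] at hz
  have hn' : (0:ℝ) < n := by exact_mod_cast hn
  have hs : 0 < Real.sqrt n := Real.sqrt_pos.mpr hn'
  have hss : Real.sqrt n * Real.sqrt n = n := Real.mul_self_sqrt hn'.le
  -- l1 norm
  have hl1 : ∑ i, |z i| ≤ Real.sqrt n := by
    have h1 : (∑ i, |z i|) ^ 2 ≤ n * ∑ i, |z i| ^ 2 := by
      have := sq_sum_le_card_mul_sum_sq (s := (univ : Finset (Fin n))) (f := fun i => |z i|)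
      simpa using this
    have h2 : ∑ i, |z i| ^ 2 ≤ 1 := by
      have h3 := EuclideanSpace.norm_sq_eq z
      have h4 : ∑ i, |z i| ^ 2 = ‖z‖ ^ 2 := by
        rw [h3]; simp [Real.norm_eq_abs]
      rw [h4]
      exact pow_le_one₀ (norm_nonneg _) hz
    have h3 : (∑ i, |z i|) ^ 2 ≤ n := by
      calc _ ≤ n * ∑ i, |z i| ^ 2 := h1
        _ ≤ n * 1 := mul_le_mul_of_nonneg_left h2 hn'.le
        _ = n := mul_one _
    exact Real.le_sqrt_of_sq_le h3
  set ρ : ℝ := 1 - (∑ i, |z i|) / Real.sqrt n with hρ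
  have hρ0 : 0 ≤ ρ := by
    rw [hρ, sub_nonneg, div_le_one hs]
    exact hl1
  let W : Fin n × Bool → ℝ := fun q =>
    (if q.2 then max (z q.1) 0 else max (-z q.1) 0) / Real.sqrt n + ρ / (2 * n)
  have hW0 : ∀ q ∈ (univ : Finset (Fin n × Bool)), 0 ≤ W q := by
    intro q _
    simp only [W]
    have : 0 ≤ (if q.2 then max (z q.1) 0 else max (-z q.1) 0) := by
      split_ifs <;> exact le_max_right _ _
    positivity
  have hmax : ∀ t : ℝ, max t 0 + max (-t) 0 = |t| := by
    intro t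
    rcases le_total 0 t with h | h
    · rw [max_eq_left h, max_eq_right (by linarith), abs_of_nonneg h, add_zero]
    · rw [max_eq_right h, max_eq_left (by linarith), abs_of_nonpos h, zero_add]
  have hmax2 : ∀ t : ℝ, max t 0 - max (-t) 0 = t := by
    intro t
    rcases le_total 0 t with h | h
    · rw [max_eq_left h, max_eq_right (by linarith), sub_zero]
    · rw [max_eq_right h, max_eq_left (by linarith)]; ring
  have hW1 : ∑ q, W q = 1 := by
    rw [Fintype.sum_prod_type]
    have h1 : ∀ i : Fin n, ∑ b : Bool, W (i, b) = |z i| / Real.sqrt n + ρ / n := by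
      intro i
      rw [Fintype.sum_bool]
      simp only [W, if_true, Bool.false_eq_true, if_false]
      rw [← hmax (z i)]
      field_simp
      ring
    rw [Finset.sum_congr rfl (fun i _ => h1 i), Finset.sum_add_distrib, ← Finset.sum_div]
    simp only [Finset.sum_const, Finset.card_univ, Fintype.card_fin, nsmul_eq_mul]
    rw [hρ]
    field_simp
    ring
  have hz' : z = ∑ q, W q • vtx n q := by
    rw [Fintype.sum_prod_type]
    have h1 : ∀ i : Fin n, ∑ b : Bool, W (i, b) • vtx n (i, b) = EuclideanSpace.single i (z i) := by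
      intro i
      rw [Fintype.sum_bool]
      simp only [vtx, W, if_true, Bool.false_eq_true, if_false]
      ext m
      simp only [PiLp.add_apply, PiLp.smul_apply, EuclideanSpace.single_apply, smul_eq_mul]
      by_cases hm : m = i
      · rw [if_pos hm, if_pos hm, if_pos hm]
        have := hmax2 (z i)
        field_simp
        nlinarith
      · rw [if_neg hm, if_neg hm, if_neg hm]; ring
    rw [Finset.sum_congr rfl (fun i _ => h1 i)]
    ext m
    simp [Finset.sum_apply, EuclideanSpace.single_apply]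
  rw [hz']
  exact (convex_convexHull ℝ _).sum_mem hW0 hW1
    (fun q _ => subset_convexHull ℝ _ ⟨q, rfl⟩)

theorem upper (hn : 0 < n) : ∃ P : Finset (EuclideanSpace ℝ (Fin n)),
    Metric.closedBall (0 : EuclideanSpace ℝ (Fin n)) 1 ⊆
      convexHull ℝ (↑P : Set (EuclideanSpace ℝ (Fin n))) ∧
    2 * (n:ℝ) * Real.sqrt n = ∑ p ∈ P, ‖p‖ := by
  classical
  refine ⟨univ.image (vtx n), ?_, ?_⟩
  · rw [Finset.coe_image, Finset.coe_univ, Set.image_univ]
    exact ball_subset hn
  · rw [Finset.sum_image (fun a _ b _ h => vtx_inj hn h)]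
    simp only [norm_vtx, Finset.sum_const, Finset.card_univ, nsmul_eq_mul, Fintype.card_prod,
      Fintype.card_fin, Fintype.card_bool]
    push_cast
    ring

lemma pow_three_half (n : ℕ) (hn : 0 < n) :
    2 * (n : ℝ) ^ ((3 : ℝ) / 2) = 2 * (n:ℝ) * Real.sqrt n := by
  have hn' : (0:ℝ) < n := by exact_mod_cast hn
  have : (3:ℝ)/2 = 1 + 1/2 := by norm_num
  rw [this, Real.rpow_add hn', Real.rpow_one, ← Real.sqrt_eq_rpow]
  ring

end Pool.Agent.Helper613.VI
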