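import Pool.Agent.Helper613.VIWeights

set_option autoImplicit false
set_option linter.unusedSectionVars false
set_option linter.unusedSimpArgs false

namespace Pool.Agent.Helper613.VI

open Finset Matrix

variable {n : ℕ} {ι : Type*} [Fintype ι] [DecidableEq ι]

open Classical in
/-- indicator of not being used by the basis -/
noncomputable def ind (I : Fin n → ι) (j : ι) : ℝ := if j ∈ Set.range I then 0 else 1

lemma ind_sq (I : Fin n → ι) (j : ι) : ind I j * ind I j = ind I j := by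
  unfold ind; split_ifs <;> norm_num

lemma ind_of_mem {I : Fin n → ι} {j : ι} (h : j ∈ Set.range I) : ind I j = 0 := by
  unfold ind; rw [if_pos h]

lemma ind_of_notMem {I : Fin n → ι} {j : ι} (h : j ∉ Set.range I) : ind I j = 1 := by
  unfold ind; rw [if_neg h]

lemma ind_nonneg (I : Fin n → ι) (j : ι) : 0 ≤ ind I j := by
  unfold ind; split_ifs <;> norm_num

lemma sum_ind_mul {I : Fin n → ι} (hI : Function.Injective I) (f : ι → ℝ) :
    ∑ j, ind I j * f j = ∑ j, f j - ∑ a, f (I a) := by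
  classical
  have h1 : ∑ a, f (I a) = ∑ j ∈ univ.image I, f j := by
    rw [Finset.sum_image (fun a _ b _ h => hI h)]
  have h2 : ∀ j, ind I j * f j = f j - if j ∈ univ.image I then f j else 0 := by
    intro j
    unfold ind
    by_cases hj : j ∈ Set.range I
    · have : j ∈ univ.image I := by simpa using hj
      rw [if_pos hj, if_pos this]; ring
    · have : j ∉ univ.image I := by simpa using hj
      rw [if_neg hj, if_neg this]; ring
  rw [Finset.sum_congr rfl (fun j _ => h2 j), Finset.sum_sub_distrib, h1, Finset.sum_ite_mem,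
    Finset.univ_inter]

lemma exists_eigen (H : Matrix (Fin n) (Fin n) ℝ) (hH : H.IsHermitian) :
    ∃ (e : Fin n → Fin n → ℝ) (h : Fin n → ℝ),
      (∀ m m', e m ⬝ᵥ e m' = if m = m' then 1 else 0) ∧
      (∀ u v, ∑ m, (u ⬝ᵥ e m) * (v ⬝ᵥ e m) = u ⬝ᵥ v) ∧
      (∀ m, H *ᵥ e m = h m • e m) := by
  refine ⟨fun m => (hH.eigenvectorBasis m).ofLp, hH.eigenvalues, ?_, ?_, ?_⟩
  · intro m m'
    have := orthonormal_iff_ite.mp hH.eigenvectorBasis.orthonormal m m'
    rw [← this, EuclideanSpace.inner_eq_star_dotProduct]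
    simp [dotProduct_comm]
  · intro u v
    have := hH.eigenvectorBasis.sum_inner_mul_inner (WithLp.toLp 2 u) (WithLp.toLp 2 v)
    simp only [EuclideanSpace.inner_eq_star_dotProduct, star_trivial] at this
    rw [dotProduct_comm u v, ← this]
    exact Finset.sum_congr rfl fun m _ => by rw [dotProduct_comm u]
  · intro m
    exact hH.mulVec_eigenvectorBasis m

lemma amgm {a h : ℝ} (ha : 0 < a) (hh : 0 < h) : 0 ≤ 1 / a + a / h + h - 3 := by
  have h0 : 1 / a + a / h + h - 3 = (h + a ^ 2 + a * h ^ 2 - 3 * a * h) / (a * h) := by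
    field_simp
  rw [h0]
  apply div_nonneg _ (by positivity)
  rcases le_or_gt h 4 with h4 | h4
  · have e : h + a ^ 2 + a * h ^ 2 - 3 * a * h = (a + (h ^ 2 - 3 * h) / 2) ^ 2 +
        (h / 4) * ((4 - h) * (h - 1) ^ 2) := by ring
    rw [e]
    have : 0 ≤ (h / 4) * ((4 - h) * (h - 1) ^ 2) :=
      mul_nonneg (by linarith) (mul_nonneg (by linarith) (sq_nonneg _))
    positivity
  · have : 0 ≤ a * h * (h - 3) := by
      apply mul_nonneg (by positivity); linarith
    nlinarith [sq_nonneg a]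

lemma amgm_eq {a h : ℝ} (ha : 0 < a) (hh : 0 < h) (he : 1 / a + a / h + h - 3 ≤ 0) :
    a = 1 ∧ h = 1 := by
  have h0 : 1 / a + a / h + h - 3 = (h + a ^ 2 + a * h ^ 2 - 3 * a * h) / (a * h) := by
    field_simp
  rw [h0] at he
  have he' : h + a ^ 2 + a * h ^ 2 - 3 * a * h ≤ 0 := by
    by_contra hcon
    push Not at hcon
    have : 0 < (h + a ^ 2 + a * h ^ 2 - 3 * a * h) / (a * h) := div_pos hcon (by positivity)
    linarith
  rcases le_or_gt h 4 with h4 | h4
  · have e : h + a ^ 2 + a * h ^ 2 - 3 * a * h = (a + (h ^ 2 - 3 * h) / 2) ^ 2 +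
        (h / 4) * ((4 - h) * (h - 1) ^ 2) := by ring
    rw [e] at he'
    have h1 : 0 ≤ (h / 4) * ((4 - h) * (h - 1) ^ 2) :=
      mul_nonneg (by linarith) (mul_nonneg (by linarith) (sq_nonneg _))
    have h2 : 0 ≤ (a + (h ^ 2 - 3 * h) / 2) ^ 2 := sq_nonneg _
    have h3 : (a + (h ^ 2 - 3 * h) / 2) = 0 := by
      have : (a + (h ^ 2 - 3 * h) / 2) ^ 2 = 0 := by linarith
      exact pow_eq_zero_iff (two_ne_zero) |>.mp this
    have h5 : (h / 4) * ((4 - h) * (h - 1) ^ 2) = 0 := by linarith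
    rcases mul_eq_zero.mp h5 with h6 | h6
    · linarith
    rcases mul_eq_zero.mp h6 with h7 | h7
    · have : h = 4 := by linarith
      subst this
      linarith
    · have h8 : h = 1 := by
        have := pow_eq_zero_iff (two_ne_zero) |>.mp h7
        linarith
      subst h8
      exact ⟨by linarith, rfl⟩
  · exfalso
    have : 0 < a * h * (h - 3) := by
      apply mul_pos (by positivity); linarith
    nlinarith [sq_nonneg a]

/-- The weights with their properties. -/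
structure Wt (x : ι → Fin n → ℝ) where
  p : (Fin n → ι) → ℝ
  nonneg : ∀ I, 0 ≤ p I
  sum_one : ∑ I, p I = 1
  det : ∀ I, p I ≠ 0 → D x I ≠ 0
  mean : ∀ u : Fin n → ℝ, ∑ I, p I * (Y x (fun _ => 1) I ⬝ᵥ u) = 0
  iso : ∀ u v : Fin n → ℝ, ∑ I, p I * ((Y x (fun _ => 1) I ⬝ᵥ u) *
        ∑ a, x (I a) ⬝ᵥ v) = u ⬝ᵥ v

namespace Wt

variable {x : ι → Fin n → ℝ} (w : Wt x)

/-- probability of not being used -/
noncomputable def pi (j : ι) : ℝ := ∑ I, w.p I * ind I j

/-- the vertex -/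
noncomputable def y (x : ι → Fin n → ℝ) (I : Fin n → ι) : Fin n → ℝ := Y x (fun _ => 1) I

/-- the centred sum of the basis vectors, paired with `v` -/
noncomputable def S (I : Fin n → ι) : Fin n → ℝ :=
  ∑ a, x (I a) - ∑ K, w.p K • ∑ a, x (K a)

lemma exists_ne : ∃ I, w.p I ≠ 0 := by
  by_contra hcon
  push Not at hcon
  have := w.sum_one
  rw [Finset.sum_eq_zero (fun I _ => hcon I)] at this
  norm_num at this

lemma sum_dot (I : Fin n → ι) (v : Fin n → ℝ) :
    (∑ a, x (I a)) ⬝ᵥ v = ∑ a, x (I a) ⬝ᵥ v := by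
  rw [sum_dotProduct]

lemma S_dot (I : Fin n → ι) (v : Fin n → ℝ) :
    w.S I ⬝ᵥ v = ∑ a, x (I a) ⬝ᵥ v - ∑ K, w.p K * ∑ a, x (K a) ⬝ᵥ v := by
  unfold S
  rw [sub_dotProduct, sum_dot, sum_dotProduct]
  congr 1
  refine Finset.sum_congr rfl fun K _ => ?_
  rw [smul_dotProduct, sum_dot, smul_eq_mul]

lemma pi_nonneg (j : ι) : 0 ≤ w.pi j :=
  Finset.sum_nonneg fun I _ => mul_nonneg (w.nonneg I) (ind_nonneg I j)

lemma pi_pos (j : ι) : 0 < w.pi j := by
  rcases (w.pi_nonneg j).lt_or_eq with h | h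
  · exact h
  exfalso
  have h1 : ∀ I, w.p I * ind I j = 0 := by
    intro I
    have := (Finset.sum_eq_zero_iff_of_nonneg
      (fun I _ => mul_nonneg (w.nonneg I) (ind_nonneg I j))).mp h.symm
    exact this I (mem_univ _)
  have h2 := w.mean (x j)
  have h3 : ∀ I, w.p I * (Y x (fun _ => 1) I ⬝ᵥ x j) = w.p I := by
    intro I
    by_cases hI : w.p I = 0
    · rw [hI, zero_mul]
    · have h4 : ind I j = 0 := (mul_eq_zero.mp (h1 I)).resolve_left hI
      have h5 : j ∈ Set.range I := by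
        by_contra hcon
        rw [ind_of_notMem hcon] at h4
        norm_num at h4
      obtain ⟨a, rfl⟩ := h5
      rw [dotProduct_comm, dot_Y (w.det I hI), mul_one]
  rw [Finset.sum_congr rfl (fun I _ => h3 I), w.sum_one] at h2
  norm_num at h2

lemma sum_pi_mul (f : ι → ℝ) : ∑ j, w.pi j * f j = ∑ j, f j - ∑ I, w.p I * ∑ a, f (I a) := by
  have h1 : ∑ j, w.pi j * f j = ∑ I, w.p I * ∑ j, ind I j * f j := by
    simp only [pi, Finset.sum_mul, Finset.mul_sum]
    rw [Finset.sum_comm]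
    exact Finset.sum_congr rfl fun I _ => Finset.sum_congr rfl fun j _ => by ring
  have h2 : ∀ I, w.p I * ∑ j, ind I j * f j = w.p I * ∑ j, f j - w.p I * ∑ a, f (I a) := by
    intro I
    by_cases hI : w.p I = 0
    · rw [hI]; ring
    · rw [sum_ind_mul (injective_of_D (w.det I hI))]; ring
  rw [h1, Finset.sum_congr rfl (fun I _ => h2 I), Finset.sum_sub_distrib, ← Finset.sum_mul,
    w.sum_one, one_mul]

lemma sum_pi : ∑ j, w.pi j = Fintype.card ι - n := by
  have := w.sum_pi_mul (fun _ => 1)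
  simp only [mul_one, Finset.sum_const, Finset.card_univ, nsmul_eq_mul, Fintype.card_fin] at this
  rw [this, ← Finset.sum_mul, w.sum_one, one_mul]

/-- centred sum in terms of the complement -/
lemma S_dot' {I : Fin n → ι} (hI : w.p I ≠ 0) (v : Fin n → ℝ) :
    w.S I ⬝ᵥ v = - ∑ j, (ind I j - w.pi j) * (x j ⬝ᵥ v) := by
  rw [S_dot]
  have h1 := w.sum_pi_mul (fun j => x j ⬝ᵥ v)
  have h2 := sum_ind_mul (injective_of_D (w.det I hI)) (fun j => x j ⬝ᵥ v)
  simp only [sub_mul, Finset.sum_sub_distrib]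
  rw [h1, h2]
  ring

lemma mean_S (v : Fin n → ℝ) (c : ℝ) : ∑ I, w.p I * ((w.S I ⬝ᵥ v) * c) = 0 := by
  have h1 : ∀ I, w.p I * ((w.S I ⬝ᵥ v) * c) = (w.p I * ∑ a, x (I a) ⬝ᵥ v) * c -
      w.p I * ((∑ K, w.p K * ∑ a, x (K a) ⬝ᵥ v) * c) := by
    intro I; rw [S_dot]; ring
  rw [Finset.sum_congr rfl (fun I _ => h1 I), Finset.sum_sub_distrib, ← Finset.sum_mul,
    ← Finset.sum_mul, w.sum_one]
  ring

lemma iso_S (u v : Fin n → ℝ) : ∑ I, w.p I * ((y x I ⬝ᵥ u) * (w.S I ⬝ᵥ v)) = u ⬝ᵥ v := by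
  have h1 : ∀ I, w.p I * ((y x I ⬝ᵥ u) * (w.S I ⬝ᵥ v)) =
      w.p I * ((Y x (fun _ => 1) I ⬝ᵥ u) * ∑ a, x (I a) ⬝ᵥ v) -
      (w.p I * (Y x (fun _ => 1) I ⬝ᵥ u)) * (∑ K, w.p K * ∑ a, x (K a) ⬝ᵥ v) := by
    intro I; rw [S_dot, y]; ring
  rw [Finset.sum_congr rfl (fun I _ => h1 I), Finset.sum_sub_distrib, ← Finset.sum_mul,
    w.mean, w.iso]
  ring

/-- The matrix `∑ π_j x_j x_jᵀ`. -/
noncomputable def H : Matrix (Fin n) (Fin n) ℝ :=
  Matrix.of fun m m' => ∑ j, w.pi j * (x j m * x j m')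

lemma H_herm : w.H.IsHermitian := by
  ext m m'
  simp only [H, Matrix.conjTranspose_apply, Matrix.of_apply, star_trivial]
  exact Finset.sum_congr rfl fun j _ => by ring

lemma H_dot (u v : Fin n → ℝ) :
    (w.H *ᵥ u) ⬝ᵥ v = ∑ j, w.pi j * ((x j ⬝ᵥ u) * (x j ⬝ᵥ v)) := by
  simp only [H, Matrix.mulVec, dotProduct, Matrix.of_apply, Finset.sum_mul, Finset.mul_sum]
  rw [Finset.sum_comm]
  rw [Finset.sum_congr rfl fun m _ => Finset.sum_comm]
  rw [Finset.sum_comm]
  refine Finset.sum_congr rfl fun j _ => ?_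
  rw [Finset.sum_comm]
  refine Finset.sum_congr rfl fun m _ => Finset.sum_congr rfl fun m' _ => by ring

lemma H_pos {u : Fin n → ℝ} (hu : u ≠ 0) : 0 < (w.H *ᵥ u) ⬝ᵥ u := by
  rw [H_dot]
  obtain ⟨I, hI⟩ := w.exists_ne
  have h1 : ∃ a, x (I a) ⬝ᵥ u ≠ 0 := by
    by_contra hcon
    push Not at hcon
    apply hu
    have h2 : u = Y x (fun _ => 0) I := eq_Y (w.det I hI) (fun _ => 0) hcon
    have h3 : (0 : Fin n → ℝ) = Y x (fun _ => 0) I :=
      eq_Y (w.det I hI) (fun _ => 0) (by simp)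
    rw [h2, ← h3]
  obtain ⟨a, ha⟩ := h1
  apply Finset.sum_pos'
  · intro j _
    exact mul_nonneg (w.pi_nonneg j) (mul_self_nonneg _)
  · exact ⟨I a, mem_univ _, mul_pos (w.pi_pos _) (mul_self_pos.mpr ha)⟩

end Wt

end Pool.Agent.Helper613.VI
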