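import Pool.Agent.Helper613.VIIneq

/-!
Vertex index of the Euclidean ball: the basic inequality.

The weights `p_I ∝ |det x_I|` on the feasible bases (files `VICore`, `VISignSum`, `VIWeights`,
`VIIneq`) and their two identities are copied from `Pool.Agent.Helper484` (helper484, coverings
of the sphere).  New here: the Bessel inequality with respect to `G = ∑ x_j x_jᵀ / |x_j|`.
-/

set_option autoImplicit false
set_option linter.unusedSectionVars false
set_option linter.unusedSimpArgs false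

namespace Pool.Agent.Helper613.VI

open Finset Matrix

variable {n : ℕ} {ι : Type*} [Fintype ι] [DecidableEq ι]

namespace Wt

variable {x : ι → Fin n → ℝ} (w : Wt x)

/-- The matrix `∑ x_j x_jᵀ / r_j`. -/
noncomputable def G (x : ι → Fin n → ℝ) (r : ι → ℝ) : Matrix (Fin n) (Fin n) ℝ :=
  Matrix.of fun m m' => ∑ j, (r j)⁻¹ * (x j m * x j m')

lemma G_herm (r : ι → ℝ) : (G x r).IsHermitian := by
  ext m m'
  simp only [G, Matrix.conjTranspose_apply, Matrix.of_apply, star_trivial]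
  exact Finset.sum_congr rfl fun j _ => by ring

lemma G_dot (r : ι → ℝ) (u v : Fin n → ℝ) :
    (G x r *ᵥ u) ⬝ᵥ v = ∑ j, (r j)⁻¹ * ((x j ⬝ᵥ u) * (x j ⬝ᵥ v)) := by
  simp only [G, Matrix.mulVec, dotProduct, Matrix.of_apply, Finset.sum_mul, Finset.mul_sum]
  rw [Finset.sum_comm]
  rw [Finset.sum_congr rfl fun m _ => Finset.sum_comm]
  rw [Finset.sum_comm]
  refine Finset.sum_congr rfl fun j _ => ?_
  rw [Finset.sum_comm]
  refine Finset.sum_congr rfl fun m _ => Finset.sum_congr rfl fun m' _ => by ring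

include w in
lemma G_pos {r : ι → ℝ} (hr : ∀ j, 0 < r j) {u : Fin n → ℝ} (hu : u ≠ 0) :
    0 < (G x r *ᵥ u) ⬝ᵥ u := by
  rw [G_dot]
  obtain ⟨I, hI⟩ := w.exists_ne
  have h1 : ∃ a, x (I a) ⬝ᵥ u ≠ 0 := by
    by_contra hcon
    push Not at hcon
    apply hu
    have h2 : u = Y x (fun _ => 0) I := eq_Y (w.det I hI) (fun _ => 0) hcon
    have h3 : (0 : Fin n → ℝ) = Y x (fun _ => 0) I :=
      eq_Y (w.det I hI) (fun _ => 0) (by simp)
    rw [h2, ← h3]
  obtain ⟨a, ha⟩ := h1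
  apply Finset.sum_pos'
  · intro j _
    exact mul_nonneg (inv_nonneg.mpr (hr j).le) (mul_self_nonneg _)
  · exact ⟨I a, mem_univ _, mul_pos (inv_pos.mpr (hr _)) (mul_self_pos.mpr ha)⟩

/-- The Bessel inequality for a single basis. -/
lemma bessel {r : ι → ℝ} (hr : ∀ j, 0 < r j) (e : Fin n → Fin n → ℝ) (h : Fin n → ℝ)
    (he : ∀ m m', e m ⬝ᵥ e m' = if m = m' then 1 else 0)
    (hH : ∀ m, G x r *ᵥ e m = h m • e m) (hh : ∀ m, 0 < h m)
    {I : Fin n → ι} (hI : w.p I ≠ 0) :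
    ∑ m, (w.S I ⬝ᵥ e m) ^ 2 / h m ≤ ∑ j, (ind I j - w.pi j) ^ 2 * r j := by
  set u : Fin n → ℝ := ∑ m, ((w.S I ⬝ᵥ e m) / h m) • e m with hu
  have h1 : ∀ j, (r j)⁻¹ * ((ind I j - w.pi j) * r j + x j ⬝ᵥ u) ^ 2 =
      (ind I j - w.pi j) ^ 2 * r j + 2 * ((ind I j - w.pi j) * (x j ⬝ᵥ u)) +
        (r j)⁻¹ * ((x j ⬝ᵥ u) * (x j ⬝ᵥ u)) := by
    intro j
    have := (hr j).ne'
    field_simp
    ring
  have h0 : 0 ≤ ∑ j, (r j)⁻¹ * ((ind I j - w.pi j) * r j + x j ⬝ᵥ u) ^ 2 :=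
    Finset.sum_nonneg fun j _ => mul_nonneg (inv_nonneg.mpr (hr j).le) (sq_nonneg _)
  rw [Finset.sum_congr rfl (fun j _ => h1 j), Finset.sum_add_distrib, Finset.sum_add_distrib,
    ← Finset.mul_sum, ← G_dot] at h0
  have h2 : ∑ j, (ind I j - w.pi j) * (x j ⬝ᵥ u) = - (w.S I ⬝ᵥ u) := by
    rw [w.S_dot' hI u]; ring
  have h3 : w.S I ⬝ᵥ u = ∑ m, (w.S I ⬝ᵥ e m) ^ 2 / h m := by
    rw [hu, dotProduct_sum]
    refine Finset.sum_congr rfl fun m _ => ?_
    rw [dotProduct_smul, smul_eq_mul]; ring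
  have h4 : G x r *ᵥ u = ∑ m, (w.S I ⬝ᵥ e m) • e m := by
    rw [hu, Matrix.mulVec_sum]
    refine Finset.sum_congr rfl fun m _ => ?_
    rw [Matrix.mulVec_smul, hH, smul_smul, div_mul_cancel₀ _ (hh m).ne']
  have h5 : (G x r *ᵥ u) ⬝ᵥ u = ∑ m, (w.S I ⬝ᵥ e m) ^ 2 / h m := by
    rw [h4, hu, sum_dotProduct]
    refine Finset.sum_congr rfl fun m _ => ?_
    rw [smul_dotProduct, dotProduct_sum, Finset.sum_eq_single m]
    · rw [dotProduct_smul, he, if_pos rfl, smul_eq_mul, smul_eq_mul]; ring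
    · intro m' _ hne
      rw [dotProduct_smul, he, if_neg (Ne.symm hne), smul_zero]
    · intro hm; exact absurd (mem_univ m) hm
  rw [h2, h5, h3] at h0
  linarith

lemma var_le (r : ι → ℝ) (hr : ∀ j, 0 < r j) :
    ∑ I, w.p I * ∑ j, (ind I j - w.pi j) ^ 2 * r j ≤ (∑ j, r j) / 4 := by
  have h1 : ∑ I, w.p I * ∑ j, (ind I j - w.pi j) ^ 2 * r j =
      ∑ j, (∑ I, w.p I * (ind I j - w.pi j) ^ 2) * r j := by
    simp only [Finset.mul_sum, Finset.sum_mul]
    rw [Finset.sum_comm]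
    exact Finset.sum_congr rfl fun j _ => Finset.sum_congr rfl fun I _ => by ring
  have h2 : ∀ j, ∑ I, w.p I * (ind I j - w.pi j) ^ 2 = w.pi j - w.pi j ^ 2 := by
    intro j
    have h3 : ∀ I, w.p I * (ind I j - w.pi j) ^ 2 =
        w.p I * ind I j - 2 * w.pi j * (w.p I * ind I j) + w.p I * (w.pi j) ^ 2 := by
      intro I
      have := ind_sq I j
      have h4 : (ind I j - w.pi j) ^ 2 = ind I j - 2 * w.pi j * ind I j + (w.pi j) ^ 2 := by
        calc (ind I j - w.pi j) ^ 2 = ind I j * ind I j - 2 * w.pi j * ind I j + (w.pi j) ^ 2 := by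
              ring
          _ = _ := by rw [this]
      rw [h4]; ring
    rw [Finset.sum_congr rfl (fun I _ => h3 I), Finset.sum_add_distrib, Finset.sum_sub_distrib,
      ← Finset.mul_sum, ← Finset.sum_mul, w.sum_one]
    change w.pi j - 2 * w.pi j * w.pi j + 1 * w.pi j ^ 2 = _
    ring
  rw [h1, Finset.sum_div]
  apply Finset.sum_le_sum
  intro j _
  rw [h2]
  have : w.pi j - w.pi j ^ 2 ≤ 1 / 4 := by nlinarith [sq_nonneg (w.pi j - 1/2)]
  calc (w.pi j - w.pi j ^ 2) * r j ≤ 1 / 4 * r j := mul_le_mul_of_nonneg_right this (hr j).le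
    _ = r j / 4 := by ring

lemma trace_G (r : ι → ℝ) (hr : ∀ j, 0 < r j) (hx : ∀ j, x j ⬝ᵥ x j = r j ^ 2)
    (e : Fin n → Fin n → ℝ) (h : Fin n → ℝ)
    (he : ∀ m m', e m ⬝ᵥ e m' = if m = m' then 1 else 0)
    (hp : ∀ u v : Fin n → ℝ, ∑ m, (u ⬝ᵥ e m) * (v ⬝ᵥ e m) = u ⬝ᵥ v)
    (hH : ∀ m, G x r *ᵥ e m = h m • e m) : ∑ m, h m = ∑ j, r j := by
  have h1 : ∀ m, h m = ∑ j, (r j)⁻¹ * ((x j ⬝ᵥ e m) * (x j ⬝ᵥ e m)) := by
    intro m
    rw [← G_dot, hH, smul_dotProduct, he, if_pos rfl, smul_eq_mul, mul_one]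
  rw [Finset.sum_congr rfl (fun m _ => h1 m), Finset.sum_comm]
  apply Finset.sum_congr rfl
  intro j _
  rw [← Finset.mul_sum, hp, hx]
  have := (hr j).ne'
  field_simp

/-- The variance along a unit vector and the Cauchy-Schwarz inequality. -/
lemma cs (e : Fin n → ℝ) (he : e ⬝ᵥ e = 1) :
    0 < ∑ I, w.p I * (w.S I ⬝ᵥ e) ^ 2 ∧
      1 / (∑ I, w.p I * (w.S I ⬝ᵥ e) ^ 2) ≤ ∑ I, w.p I * (y x I ⬝ᵥ e) ^ 2 := by
  set a := ∑ I, w.p I * (w.S I ⬝ᵥ e) ^ 2 with ha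
  set b := ∑ I, w.p I * (y x I ⬝ᵥ e) ^ 2 with hb
  have h1 := w.iso_S e e
  rw [he] at h1
  have key : ∀ t : ℝ, 0 ≤ b - 2 * t + t ^ 2 * a := by
    intro t
    have h2 : b - 2 * t + t ^ 2 * a = ∑ I, w.p I * (y x I ⬝ᵥ e - t * (w.S I ⬝ᵥ e)) ^ 2 := by
      have h3 : ∀ I, w.p I * (y x I ⬝ᵥ e - t * (w.S I ⬝ᵥ e)) ^ 2 =
          w.p I * (y x I ⬝ᵥ e) ^ 2 - (2 * t) * (w.p I * ((y x I ⬝ᵥ e) * (w.S I ⬝ᵥ e))) +
            t ^ 2 * (w.p I * (w.S I ⬝ᵥ e) ^ 2) := by intro I; ring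
      rw [Finset.sum_congr rfl (fun I _ => h3 I), Finset.sum_add_distrib,
        Finset.sum_sub_distrib, ← Finset.mul_sum, ← Finset.mul_sum, h1]
      ring
    rw [h2]
    exact Finset.sum_nonneg fun I _ => mul_nonneg (w.nonneg I) (sq_nonneg _)
  have ha0 : 0 ≤ a := Finset.sum_nonneg fun I _ => mul_nonneg (w.nonneg I) (sq_nonneg _)
  have hapos : 0 < a := by
    rcases ha0.lt_or_eq with h | h
    · exact h
    · exfalso
      have := key (b / 2 + 1)
      rw [← h] at this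
      linarith
  refine ⟨hapos, ?_⟩
  have := key (1 / a)
  have e1 : b - 2 * (1 / a) + (1 / a) ^ 2 * a = b - 1 / a := by
    field_simp
    ring
  rw [e1] at this
  linarith

lemma sq_norm_y (e : Fin n → Fin n → ℝ)
    (hp : ∀ u v : Fin n → ℝ, ∑ m, (u ⬝ᵥ e m) * (v ⬝ᵥ e m) = u ⬝ᵥ v) :
    ∑ I, w.p I * (y x I ⬝ᵥ y x I) = ∑ m, ∑ I, w.p I * (y x I ⬝ᵥ e m) ^ 2 := by
  rw [Finset.sum_comm]
  refine Finset.sum_congr rfl fun I _ => ?_
  rw [← Finset.mul_sum, ← hp (y x I) (y x I)]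
  congr 1
  exact Finset.sum_congr rfl fun m _ => by ring

/-- The main inequality: if all vertices `y` of the polar body lie in the unit ball, then
`(∑ |x_j|)² ≥ 4 n³`. -/
theorem main_bound (r : ι → ℝ) (hr : ∀ j, 0 < r j) (hx : ∀ j, x j ⬝ᵥ x j = r j ^ 2)
    (hn : 0 < n) (hy : ∀ I, w.p I ≠ 0 → y x I ⬝ᵥ y x I ≤ 1) :
    4 * (n : ℝ) ^ 3 ≤ (∑ j, r j) ^ 2 := by
  obtain ⟨e, h, he, hp, hH⟩ := exists_eigen (G x r) (G_herm r)
  have hh : ∀ m, 0 < h m := by
    intro m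
    have h1 : e m ≠ 0 := by
      intro h0
      have := he m m
      rw [h0, if_pos rfl, dotProduct_zero] at this
      norm_num at this
    have := w.G_pos hr h1
    rwa [hH, smul_dotProduct, he, if_pos rfl, smul_eq_mul, mul_one] at this
  set a : Fin n → ℝ := fun m => ∑ I, w.p I * (w.S I ⬝ᵥ e m) ^ 2 with ha
  have hapos : ∀ m, 0 < a m := fun m => (w.cs (e m) (by rw [he, if_pos rfl])).1
  set V := ∑ j, r j with hV
  have hC : ∑ m, h m = V := trace_G r hr hx e h he hp hH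
  have hVpos : 0 < V := by
    rw [← hC]
    haveI : Nonempty (Fin n) := ⟨⟨0, hn⟩⟩
    exact Finset.sum_pos (fun m _ => hh m) Finset.univ_nonempty
  have hA : ∑ m, 1 / a m ≤ 1 := by
    calc ∑ m, 1 / a m ≤ ∑ m, ∑ I, w.p I * (y x I ⬝ᵥ e m) ^ 2 :=
          Finset.sum_le_sum fun m _ => (w.cs (e m) (by rw [he, if_pos rfl])).2
      _ = ∑ I, w.p I * (y x I ⬝ᵥ y x I) := (w.sq_norm_y e hp).symm
      _ ≤ ∑ I, w.p I * 1 := by
          apply Finset.sum_le_sum
          intro I _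
          by_cases hI : w.p I = 0
          · rw [hI]; simp
          · exact mul_le_mul_of_nonneg_left (hy I hI) (w.nonneg I)
      _ = 1 := by rw [← Finset.sum_mul, w.sum_one, one_mul]
  have hB : ∑ m, a m / h m ≤ V / 4 := by
    calc ∑ m, a m / h m = ∑ I, w.p I * ∑ m, (w.S I ⬝ᵥ e m) ^ 2 / h m := by
          simp only [ha, Finset.mul_sum, Finset.sum_div]
          rw [Finset.sum_comm]
          exact Finset.sum_congr rfl fun j _ => Finset.sum_congr rfl fun I _ => by ring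
      _ ≤ ∑ I, w.p I * ∑ j, (ind I j - w.pi j) ^ 2 * r j := by
          apply Finset.sum_le_sum
          intro I _
          by_cases hI : w.p I = 0
          · rw [hI]; simp
          · exact mul_le_mul_of_nonneg_left (w.bessel hr e h he hH hh hI) (w.nonneg I)
      _ ≤ V / 4 := w.var_le r hr
  -- AM-GM
  have hn' : (0:ℝ) < n := by exact_mod_cast hn
  set α : ℝ := 1 / n with hα
  set β : ℝ := n / V with hβ
  have hαpos : 0 < α := by positivity
  have hβpos : 0 < β := by positivity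
  have hsum : 0 ≤ ∑ m, (1 / (α * a m) + (α * a m) / (β * h m) + β * h m - 3) :=
    Finset.sum_nonneg fun m _ => amgm (mul_pos hαpos (hapos m)) (mul_pos hβpos (hh m))
  have e1 : ∑ m, (1 / (α * a m) + (α * a m) / (β * h m) + β * h m - 3) =
      (1 / α) * ∑ m, 1 / a m + (α / β) * ∑ m, a m / h m + β * ∑ m, h m - 3 * n := by
    rw [Finset.mul_sum, Finset.mul_sum, Finset.mul_sum, Finset.sum_sub_distrib,
      Finset.sum_add_distrib, Finset.sum_add_distrib]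
    simp only [Finset.sum_const, Finset.card_univ, Fintype.card_fin, nsmul_eq_mul]
    congr 1
    · congr 1
      · congr 1
        · refine Finset.sum_congr rfl fun m _ => ?_
          have := (hapos m).ne'
          field_simp
        · refine Finset.sum_congr rfl fun m _ => ?_
          have := (hh m).ne'
          field_simp
    · ring
  rw [e1, hC] at hsum
  have b1 : (1 / α) * ∑ m, 1 / a m ≤ (1 / α) * 1 :=
    mul_le_mul_of_nonneg_left hA (by positivity)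
  have b2 : (α / β) * ∑ m, a m / h m ≤ (α / β) * (V / 4) :=
    mul_le_mul_of_nonneg_left hB (by positivity)
  have c1 : (1 / α) * 1 = (n:ℝ) := by rw [hα]; field_simp
  have c2 : (α / β) * (V / 4) = V ^ 2 / (4 * (n:ℝ) ^ 2) := by
    rw [hα, hβ]; field_simp
  have c3 : β * V = n := by rw [hβ]; field_simp
  have h7 : (n:ℝ) ≤ V ^ 2 / (4 * (n:ℝ) ^ 2) := by
    rw [c1] at b1; rw [c2] at b2; rw [c3] at hsum
    linarith
  rw [le_div_iff₀ (by positivity)] at h7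
  calc 4 * (n:ℝ) ^ 3 = n * (4 * (n:ℝ) ^ 2) := by ring
    _ ≤ V ^ 2 := h7

end Wt

end Pool.Agent.Helper613.VI
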