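import Pool.Agent.Helper613.VICore

set_option autoImplicit false
set_option linter.unusedSectionVars false
set_option linter.unusedSimpArgs false

namespace Pool.Agent.Helper613.VI

open Finset Matrix

variable {n : ℕ} {ι : Type*} [Fintype ι] [DecidableEq ι]

open Classical in
lemma line_lemma (c d : ι → ℝ) (hd : ∀ j, 0 ≤ d j) (hpos : ∃ j, 0 < c j) (hneg : ∃ j, c j < 0)
    (hgen : ∀ l l', l ≠ l' → c l ≠ 0 → c l' ≠ 0 → (∀ j, d l / c l * c j ≤ d j) →
      d l' - d l / c l * c l' ≠ 0) :
    ∑ l, (if (c l ≠ 0 ∧ ∀ j, d l / c l * c j ≤ d j) then Real.sign (c l) else 0) = 0 := by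
  obtain ⟨lp, hlp, hlpmin⟩ := Finset.exists_min_image (univ.filter (fun l => 0 < c l))
    (fun l => d l / c l) (by obtain ⟨j, hj⟩ := hpos; exact ⟨j, by simp [hj]⟩)
  obtain ⟨lm, hlm, hlmmax⟩ := Finset.exists_max_image (univ.filter (fun l => c l < 0))
    (fun l => d l / c l) (by obtain ⟨j, hj⟩ := hneg; exact ⟨j, by simp [hj]⟩)
  simp only [mem_filter, mem_univ, true_and] at hlp hlpmin hlm hlmmax
  have fp : ∀ j, d lp / c lp * c j ≤ d j := by
    intro j
    have h0 : 0 ≤ d lp / c lp := div_nonneg (hd _) hlp.le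
    rcases le_or_gt (c j) 0 with hj | hj
    · exact (mul_nonpos_of_nonneg_of_nonpos h0 hj).trans (hd j)
    · have := hlpmin j hj
      rwa [← le_div_iff₀ hj]
  have fm : ∀ j, d lm / c lm * c j ≤ d j := by
    intro j
    have h0 : d lm / c lm ≤ 0 := div_nonpos_of_nonneg_of_nonpos (hd _) hlm.le
    rcases le_or_gt 0 (c j) with hj | hj
    · exact (mul_nonpos_of_nonpos_of_nonneg h0 hj).trans (hd j)
    · have h1 := hlmmax j hj
      have h2 : d lm / c lm * c j ≤ d j / c j * c j := mul_le_mul_of_nonpos_right h1 hj.le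
      rwa [div_mul_cancel₀ _ hj.ne] at h2
  have key : ∀ l, (if (c l ≠ 0 ∧ ∀ j, d l / c l * c j ≤ d j) then Real.sign (c l) else 0) =
      (if l = lp then 1 else 0) - (if l = lm then (1:ℝ) else 0) := by
    intro l
    rcases lt_trichotomy (c l) 0 with hl | hl | hl
    · have hne : l ≠ lp := by rintro rfl; linarith
      by_cases hlm' : l = lm
      · subst hlm'
        rw [if_pos ⟨hl.ne, fm⟩, Real.sign_of_neg hl, if_neg hne, if_pos rfl]; norm_num
      · rw [if_neg, if_neg hne, if_neg hlm']; · norm_num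
        rintro ⟨h1, h2⟩
        have h3 := h2 lm
        have h4 := hlmmax l hl
        have h5 : d lm / c lm ≤ d l / c l := by
          rw [div_le_iff_of_neg hlm]; exact h3
        have h6 : d l / c l = d lm / c lm := le_antisymm h4 h5
        apply hgen l lm hlm' h1 hlm.ne h2
        rw [h6, div_mul_cancel₀ _ hlm.ne, sub_self]
    · have hne : l ≠ lp := by rintro rfl; linarith
      have hne2 : l ≠ lm := by rintro rfl; linarith
      rw [if_neg (by rintro ⟨h1, -⟩; exact h1 hl), if_neg hne, if_neg hne2, sub_self]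
    · have hne : l ≠ lm := by rintro rfl; linarith
      by_cases hlp' : l = lp
      · subst hlp'
        rw [if_pos ⟨hl.ne', fp⟩, Real.sign_of_pos hl, if_neg hne, if_pos rfl]; norm_num
      · rw [if_neg, if_neg hne, if_neg hlp']; · norm_num
        rintro ⟨h1, h2⟩
        have h3 := h2 lp
        have h4 := hlpmin l hl
        have h5 : d l / c l ≤ d lp / c lp := by
          rw [le_div_iff₀ hlp]; exact h3
        have h6 : d l / c l = d lp / c lp := le_antisymm h5 h4
        apply hgen l lp hlp' h1 hlp.ne' h2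
        rw [h6, div_mul_cancel₀ _ hlp.ne', sub_self]
  rw [Finset.sum_congr rfl (fun l _ => key l), Finset.sum_sub_distrib]
  simp

/-- feasible basis for the right hand side `b` -/
def Feas (x : ι → Fin n → ℝ) (b : ι → ℝ) (I : Fin n → ι) : Prop :=
  D x I ≠ 0 ∧ ∀ j, x j ⬝ᵥ Y x b I ≤ b j

open Classical in
lemma sign_sum (x : ι → Fin n → ℝ) (b : ι → ℝ)
    (hgen : ∀ I : Fin n → ι, D x I ≠ 0 → ∀ j, j ∉ Set.range I → x j ⬝ᵥ Y x b I ≠ b j)
    (hbdd : ∃ R : ℝ, ∀ y : Fin n → ℝ, (∀ j, x j ⬝ᵥ y ≤ b j) → ∀ m, |y m| ≤ R)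
    (I : Fin n → ι) (a : Fin n) :
    ∑ l, (if Feas x b (Function.update I a l) then
      Real.sign (D x (Function.update I a l)) else 0) = 0 := by
  by_cases hex : ∃ l0, Feas x b (Function.update I a l0)
  swap
  · push Not at hex
    exact Finset.sum_eq_zero fun l _ => if_neg (hex l)
  obtain ⟨l0, hl0⟩ := hex
  set y0 := Y x b (Function.update I a l0) with hy0
  set ν := nu x I a with hν
  have hDc : ∀ l, D x (Function.update I a l) = x l ⬝ᵥ ν := by
    intro l; rw [D_update, cramer_eq_dot]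
  have hy0b : ∀ c, c ≠ a → x (I c) ⬝ᵥ y0 = b (I c) := by
    intro c hc
    have := dot_Y hl0.1 b c
    rwa [Function.update_of_ne hc] at this
  have hYl : ∀ l, x l ⬝ᵥ ν ≠ 0 → Y x b (Function.update I a l) =
      y0 + ((b l - x l ⬝ᵥ y0) / (x l ⬝ᵥ ν)) • ν := by
    intro l hl
    symm
    apply eq_Y (by rw [hDc]; exact hl)
    intro c
    by_cases hc : c = a
    · subst hc
      rw [Function.update_self, dotProduct_add, dotProduct_smul, smul_eq_mul,
        div_mul_cancel₀ _ hl]
      ring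
    · rw [Function.update_of_ne hc, dotProduct_add, dotProduct_smul, hy0b c hc,
        dot_nu_of_ne x I hc]
      simp
  have hfeas : ∀ l, Feas x b (Function.update I a l) ↔
      (x l ⬝ᵥ ν ≠ 0 ∧ ∀ j, (b l - x l ⬝ᵥ y0) / (x l ⬝ᵥ ν) * (x j ⬝ᵥ ν) ≤ b j - x j ⬝ᵥ y0) := by
    intro l
    unfold Feas
    rw [hDc]
    constructor
    · rintro ⟨h1, h2⟩
      refine ⟨h1, fun j => ?_⟩
      have := h2 j
      rw [hYl l h1, dotProduct_add, dotProduct_smul, smul_eq_mul] at this
      linarith
    · rintro ⟨h1, h2⟩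
      refine ⟨h1, fun j => ?_⟩
      rw [hYl l h1, dotProduct_add, dotProduct_smul, smul_eq_mul]
      have := h2 j
      linarith
  have hν0 : ν ≠ 0 := by
    intro h
    apply hl0.1
    rw [hDc, h, dotProduct_zero]
  obtain ⟨m, hm⟩ : ∃ m, ν m ≠ 0 := by
    by_contra hcon
    push Not at hcon
    exact hν0 (funext hcon)
  obtain ⟨R, hR⟩ := hbdd
  have hR0 : |y0 m| ≤ R := hR y0 hl0.2 m
  have hunb : ∀ s : ℝ, |s| = (R + |y0 m| + 1) / |ν m| → ¬ ∀ j, x j ⬝ᵥ (y0 + s • ν) ≤ b j := by
    intro s hs hcon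
    have h1 := hR _ hcon m
    have h2 : |s * ν m| = R + |y0 m| + 1 := by
      rw [abs_mul, hs, div_mul_cancel₀ _ (abs_ne_zero.mpr hm)]
    have h3 : |s * ν m| ≤ |y0 m + s * ν m| + |y0 m| := by
      have := abs_sub (y0 m + s * ν m) (y0 m)
      simpa using this
    simp only [Pi.add_apply, Pi.smul_apply, smul_eq_mul] at h1
    linarith
  have hs0 : 0 ≤ (R + |y0 m| + 1) / |ν m| := by
    have h1 : 0 ≤ |y0 m| := abs_nonneg _
    exact div_nonneg (by linarith) (abs_nonneg _)
  have hpos : ∃ j, 0 < x j ⬝ᵥ ν := by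
    by_contra hcon
    push Not at hcon
    apply hunb ((R + |y0 m| + 1) / |ν m|) (abs_of_nonneg hs0)
    intro j
    rw [dotProduct_add, dotProduct_smul, smul_eq_mul]
    have h1 := hl0.2 j
    have h2 := mul_nonpos_of_nonneg_of_nonpos hs0 (hcon j)
    linarith
  have hneg : ∃ j, x j ⬝ᵥ ν < 0 := by
    by_contra hcon
    push Not at hcon
    apply hunb (-((R + |y0 m| + 1) / |ν m|)) (by rw [abs_neg, abs_of_nonneg hs0])
    intro j
    rw [dotProduct_add, dotProduct_smul, smul_eq_mul]
    have h1 := hl0.2 j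
    have h2 := mul_nonneg hs0 (hcon j)
    linarith
  have key := line_lemma (fun l => x l ⬝ᵥ ν) (fun l => b l - x l ⬝ᵥ y0)
    (fun j => by have := hl0.2 j; linarith) hpos hneg (by
      intro l l' hll' hcl hcl' hf hz
      have hfl := (hfeas l).mpr ⟨hcl, hf⟩
      apply hgen _ hfl.1 l'
      · rintro ⟨c, hc⟩
        by_cases hca : c = a
        · subst hca
          rw [Function.update_self] at hc
          exact hll' hc
        · rw [Function.update_of_ne hca] at hc
          apply hcl'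
          rw [← hc]
          exact dot_nu_of_ne x I hca
      · rw [hYl l hcl, dotProduct_add, dotProduct_smul, smul_eq_mul]
        linarith)
  refine Eq.trans (Finset.sum_congr rfl fun l _ => ?_) key
  simp only [hDc l, hfeas l]

end Pool.Agent.Helper613.VI
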